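import Pool.Agent.SepFil.GoodDefs

/-!
# Generic level sets of a smooth function on a surface of bounded valence

(module ARCS of the blueprint)
-/

open Set MeasureTheory Manifold Bundle Filter Topology
open scoped ContDiff ENNReal NNReal

namespace SepFil

namespace ArcsAux

/-- Level sets of a function of two variables with nonzero first partial derivative. -/
lemma planar_arcs {G : ℝ × ℝ → ℝ} {G' : ℝ × ℝ →L[ℝ] ℝ} {τ : ℝ} (hG : HasStrictFDerivAt G G' 0)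
    (h0 : G 0 = τ) (h1 : G' (1, 0) ≠ 0) {O : Set (ℝ × ℝ)} (hO : O ∈ 𝓝 (0 : ℝ × ℝ)) :
    ∃ W ∈ 𝓝 (0 : ℝ × ℝ), W ⊆ O ∧ IsPreconnected {x | x ∈ W ∧ G x = τ ∧ 0 < x.2} ∧
      IsPreconnected {x | x ∈ W ∧ G x = τ ∧ x.2 < 0} ∧
      ∀ x ∈ W, G x = τ → x.2 = 0 → x = 0 := by
  classical
  set Φ : ℝ × ℝ → ℝ × ℝ := fun x => (G x, x.2) with hΦ
  set Φ' : ℝ × ℝ →L[ℝ] ℝ × ℝ := G'.prod (ContinuousLinearMap.snd ℝ ℝ ℝ) with hΦ'
  have hinj : Function.Injective (Φ' : ℝ × ℝ →ₗ[ℝ] ℝ × ℝ) := by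
    rw [← LinearMap.ker_eq_bot, LinearMap.ker_eq_bot']
    rintro ⟨a, b⟩ h
    have h2 : G' (a, b) = 0 ∧ b = 0 := by
      simpa [hΦ', Prod.ext_iff] using h
    obtain ⟨h2, rfl⟩ := h2
    have h3 : ((a, 0) : ℝ × ℝ) = a • ((1, 0) : ℝ × ℝ) := by simp
    rw [h3, map_smul, smul_eq_mul, mul_eq_zero] at h2
    rcases h2 with h2 | h2
    · rw [h2]; rfl
    · exact absurd h2 h1
  set e : (ℝ × ℝ) ≃L[ℝ] ℝ × ℝ :=
    (LinearEquiv.ofInjectiveEndo (Φ' : ℝ × ℝ →ₗ[ℝ] ℝ × ℝ) hinj).toContinuousLinearEquiv with he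
  have he' : (e : ℝ × ℝ →L[ℝ] ℝ × ℝ) = Φ' := by
    ext x <;> simp [he]
  have hstr : HasStrictFDerivAt Φ (e : ℝ × ℝ →L[ℝ] ℝ × ℝ) 0 := by
    rw [he']
    exact hG.prodMk hasStrictFDerivAt_snd
  set P := hstr.toOpenPartialHomeomorph Φ with hP
  have hPc : (P : ℝ × ℝ → ℝ × ℝ) = Φ := hstr.toOpenPartialHomeomorph_coe
  have hs : (0 : ℝ × ℝ) ∈ P.source := hstr.mem_toOpenPartialHomeomorph_source
  have hP0 : P 0 = (τ, 0) := by rw [hPc]; simp [hΦ, h0]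
  have ht : ((τ, 0) : ℝ × ℝ) ∈ P.target := by rw [← hP0]; exact P.map_source hs
  have hPs : P.symm (τ, 0) = 0 := by rw [← hP0]; exact P.left_inv hs
  -- a small box in the target
  have hcont : ContinuousAt P.symm (τ, 0) := P.continuousAt_symm ht
  have hnb : P.symm ⁻¹' O ∩ P.target ∈ 𝓝 ((τ, 0) : ℝ × ℝ) := by
    refine inter_mem (hcont ?_) (P.open_target.mem_nhds ht)
    rw [hPs]; exact hO
  obtain ⟨δ, hδ, hball⟩ := Metric.mem_nhds_iff.1 hnb
  refine ⟨P.source ∩ P ⁻¹' (Metric.ball (τ, 0) δ), ?_, ?_, ?_, ?_, ?_⟩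
  · refine inter_mem (P.open_source.mem_nhds hs) (P.continuousAt hs ?_)
    rw [hP0]; exact Metric.ball_mem_nhds _ hδ
  · rintro x ⟨hx1, hx2⟩
    have := (hball hx2).1
    rw [mem_preimage, P.left_inv hx1] at this
    exact this
  · have e1 : {x | x ∈ P.source ∩ P ⁻¹' (Metric.ball (τ, 0) δ) ∧ G x = τ ∧ 0 < x.2} =
        P.symm '' ({τ} ×ˢ Ioo 0 δ) := by
      ext x
      simp only [mem_setOf_eq, mem_inter_iff, mem_preimage, mem_image, mem_prod,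
        mem_singleton_iff, mem_Ioo, Prod.exists]
      constructor
      · rintro ⟨⟨hx1, hx2⟩, hx3, hx4⟩
        refine ⟨τ, x.2, ⟨rfl, hx4, ?_⟩, ?_⟩
        · rw [hPc, hΦ, Metric.mem_ball, Prod.dist_eq] at hx2
          simp only at hx2
          have := (max_lt_iff.1 hx2).2
          rw [Real.dist_eq, sub_zero, abs_of_pos hx4] at this
          exact this
        · have : P x = (τ, x.2) := by rw [hPc, hΦ, ← hx3]
          rw [← this]; exact P.left_inv hx1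
      · rintro ⟨a, b, ⟨rfl, hb0, hb1⟩, rfl⟩
        have hb : ((a, b) : ℝ × ℝ) ∈ Metric.ball ((a, 0) : ℝ × ℝ) δ := by
          rw [Metric.mem_ball, Prod.dist_eq]
          simp only [dist_self]
          rw [Real.dist_eq, sub_zero, abs_of_pos hb0]
          exact max_lt hδ hb1
        have hbt := (hball hb).2
        have hr : P (P.symm (a, b)) = (a, b) := P.right_inv hbt
        have hr' : Φ (P.symm (a, b)) = (a, b) := by rw [← hPc]; exact hr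
        refine ⟨⟨P.map_target hbt, by rw [hr]; exact hb⟩, ?_, ?_⟩
        · exact congrArg Prod.fst hr'
        · have : (P.symm (a, b)).2 = b := congrArg Prod.snd hr'
          rw [this]; exact hb0
    rw [e1]
    refine (isPreconnected_singleton.prod isPreconnected_Ioo).image _
      (P.continuousOn_symm.mono ?_)
    rintro ⟨a, b⟩ ⟨ha, hb0, hb1⟩
    simp only [mem_singleton_iff] at ha
    subst ha
    apply (hball _).2
    rw [Metric.mem_ball, Prod.dist_eq]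
    simp only [dist_self]
    simp only at hb0 hb1
    rw [Real.dist_eq, sub_zero, abs_of_pos hb0]
    exact max_lt hδ hb1
  · have e1 : {x | x ∈ P.source ∩ P ⁻¹' (Metric.ball (τ, 0) δ) ∧ G x = τ ∧ x.2 < 0} =
        P.symm '' ({τ} ×ˢ Ioo (-δ) 0) := by
      ext x
      simp only [mem_setOf_eq, mem_inter_iff, mem_preimage, mem_image, mem_prod,
        mem_singleton_iff, mem_Ioo, Prod.exists]
      constructor
      · rintro ⟨⟨hx1, hx2⟩, hx3, hx4⟩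
        refine ⟨τ, x.2, ⟨rfl, ?_, hx4⟩, ?_⟩
        · rw [hPc, hΦ, Metric.mem_ball, Prod.dist_eq] at hx2
          simp only at hx2
          have := (max_lt_iff.1 hx2).2
          rw [Real.dist_eq, sub_zero, abs_of_neg hx4] at this
          linarith
        · have : P x = (τ, x.2) := by rw [hPc, hΦ, ← hx3]
          rw [← this]; exact P.left_inv hx1
      · rintro ⟨a, b, ⟨rfl, hb0, hb1⟩, rfl⟩
        have hb : ((a, b) : ℝ × ℝ) ∈ Metric.ball ((a, 0) : ℝ × ℝ) δ := by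
          rw [Metric.mem_ball, Prod.dist_eq]
          simp only [dist_self]
          rw [Real.dist_eq, sub_zero, abs_of_neg hb1]
          exact max_lt hδ (by linarith)
        have hbt := (hball hb).2
        have hr : P (P.symm (a, b)) = (a, b) := P.right_inv hbt
        have hr' : Φ (P.symm (a, b)) = (a, b) := by rw [← hPc]; exact hr
        refine ⟨⟨P.map_target hbt, by rw [hr]; exact hb⟩, ?_, ?_⟩
        · exact congrArg Prod.fst hr'
        · have : (P.symm (a, b)).2 = b := congrArg Prod.snd hr'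
          rw [this]; exact hb1
    rw [e1]
    refine (isPreconnected_singleton.prod isPreconnected_Ioo).image _
      (P.continuousOn_symm.mono ?_)
    rintro ⟨a, b⟩ ⟨ha, hb0, hb1⟩
    simp only [mem_singleton_iff] at ha
    subst ha
    apply (hball _).2
    rw [Metric.mem_ball, Prod.dist_eq]
    simp only [dist_self]
    simp only at hb0 hb1
    rw [Real.dist_eq, sub_zero, abs_of_neg hb1]
    exact max_lt hδ (by linarith)
  · rintro x ⟨hx1, -⟩ hx2 hx3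
    have : P x = P 0 := by
      rw [hP0, hPc, hΦ]; simp [hx2, hx3]
    exact P.injOn hx1 hs this

section Coord

variable {V : Type*} [Fintype V] [DecidableEq V]

lemma sum_of_supp {s : Finset V} {y : V → ℝ} (h : supp y ⊆ s) : ∑ u, y u = ∑ u ∈ s, y u := by
  refine (Finset.sum_subset (Finset.subset_univ s) ?_).symm
  intro u _ hu
  by_contra h0
  exact hu (h (mem_supp.2 h0))

lemma eq_zero_of_cface {s : Finset V} {y : V → ℝ} (h : y ∈ cface s) {u : V} (hu : u ∉ s) :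
    y u = 0 := by
  by_contra h0
  exact hu (h.2.2 (mem_supp.2 h0))

/-- The point with coordinates `σ` at `w` and `1 - σ` at `v`. -/
def seg (v w : V) (σ : ℝ) : V → ℝ := vtx v + σ • (vtx w - vtx v)

lemma continuous_seg (v w : V) : Continuous (seg v w) := by
  unfold seg; fun_prop

lemma hasDerivAt_seg (v w : V) (σ : ℝ) : HasDerivAt (seg v w) (vtx w - vtx v) σ := by
  unfold seg
  have := ((hasDerivAt_id σ).smul_const (vtx w - vtx v : V → ℝ)).const_add (vtx v)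
  simpa using this

lemma seg_mem_cface {v w : V} (hvw : v ≠ w) {σ : ℝ} (h0 : 0 ≤ σ) (h1 : σ ≤ 1) :
    seg v w σ ∈ cface {v, w} := by
  have hv : seg v w σ v = 1 - σ := by
    simp [seg, vtx, hvw]; ring
  have hw : seg v w σ w = σ := by
    simp [seg, vtx, hvw.symm]
  have hu : ∀ u, u ≠ v → u ≠ w → seg v w σ u = 0 := by
    intro u h1 h2
    simp [seg, vtx, h1, h2]
  have hs : supp (seg v w σ) ⊆ {v, w} := by
    intro u hu'
    rw [mem_supp] at hu'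
    by_contra hc
    simp only [Finset.mem_insert, Finset.mem_singleton, not_or] at hc
    exact hu' (hu u hc.1 hc.2)
  refine ⟨?_, ?_, hs⟩
  · intro u
    by_cases h2 : u = v
    · rw [h2, hv]; linarith
    · by_cases h3 : u = w
      · rw [h3, hw]; exact h0
      · rw [hu u h2 h3]
  · rw [sum_of_supp hs, Finset.sum_pair hvw, hv, hw]; ring

lemma eq_seg {v w : V} (hvw : v ≠ w) {y : V → ℝ} (hy : y ∈ cface {v, w}) : y = seg v w (y w) := by
  have hsum := hy.2.1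
  rw [sum_of_supp hy.2.2, Finset.sum_pair hvw] at hsum
  funext u
  by_cases h2 : u = v
  · subst h2
    simp [seg, vtx, hvw]; linarith
  · by_cases h3 : u = w
    · subst h3
      simp [seg, vtx, h2]
    · rw [eq_zero_of_cface hy (by simp [h2, h3])]
      simp [seg, vtx, h2, h3]

/-- Affine coordinates on the plane of a triangle. -/
def tri (v w z : V) (x₀ : V → ℝ) (x : ℝ × ℝ) : V → ℝ :=
  x₀ + (x.1 • (vtx w - vtx v) + x.2 • (vtx z - vtx v))

/-- The linear part of `tri`. -/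
noncomputable def triL (v w z : V) : ℝ × ℝ →L[ℝ] (V → ℝ) :=
  (ContinuousLinearMap.fst ℝ ℝ ℝ).smulRight (vtx w - vtx v) +
    (ContinuousLinearMap.snd ℝ ℝ ℝ).smulRight (vtx z - vtx v)

lemma hasStrictFDerivAt_tri (v w z : V) (x₀ : V → ℝ) (x : ℝ × ℝ) :
    HasStrictFDerivAt (tri v w z x₀) (triL v w z) x := by
  have : tri v w z x₀ = fun x => x₀ + triL v w z x := by
    funext x; simp [tri, triL]
  rw [this]
  exact (triL v w z).hasStrictFDerivAt.const_add x₀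

lemma continuous_tri (v w z : V) (x₀ : V → ℝ) : Continuous (tri v w z x₀) := by
  unfold tri; fun_prop

@[simp] lemma tri_zero (v w z : V) (x₀ : V → ℝ) : tri v w z x₀ 0 = x₀ := by
  simp [tri]

lemma tri_v {v w z : V} (hvw : v ≠ w) (hvz : v ≠ z) (x₀ : V → ℝ) (x : ℝ × ℝ) :
    tri v w z x₀ x v = x₀ v - x.1 - x.2 := by
  simp [tri, vtx, hvw, hvz]; ring

lemma tri_w {v w z : V} (hvw : v ≠ w) (hwz : w ≠ z) (x₀ : V → ℝ) (x : ℝ × ℝ) :
    tri v w z x₀ x w = x₀ w + x.1 := by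
  simp [tri, vtx, hvw.symm, hwz]

lemma tri_z {v w z : V} (hvz : v ≠ z) (hwz : w ≠ z) (x₀ : V → ℝ) (x : ℝ × ℝ) :
    tri v w z x₀ x z = x₀ z + x.2 := by
  simp [tri, vtx, hvz.symm, hwz.symm]

lemma tri_u {v w z u : V} (h1 : u ≠ v) (h2 : u ≠ w) (h3 : u ≠ z) (x₀ : V → ℝ) (x : ℝ × ℝ) :
    tri v w z x₀ x u = x₀ u := by
  simp [tri, vtx, h1, h2, h3]

lemma sum_triple {v w z : V} (hvw : v ≠ w) (hvz : v ≠ z) (hwz : w ≠ z) (y : V → ℝ) :
    ∑ u ∈ ({v, w, z} : Finset V), y u = y v + y w + y z := by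
  rw [Finset.sum_insert (by simp [hvw, hvz]), Finset.sum_pair hwz]; ring

lemma tri_mem_cface {v w z : V} (hvw : v ≠ w) (hvz : v ≠ z) (hwz : w ≠ z) {x₀ : V → ℝ}
    (hx₀ : x₀ ∈ cface {v, w, z}) {x : ℝ × ℝ} (h1 : 0 ≤ x₀ v - x.1 - x.2) (h2 : 0 ≤ x₀ w + x.1)
    (h3 : 0 ≤ x₀ z + x.2) : tri v w z x₀ x ∈ cface {v, w, z} := by
  have hs : supp (tri v w z x₀ x) ⊆ {v, w, z} := by
    intro u hu
    rw [mem_supp] at hu
    by_contra hc
    have hc' := hc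
    simp only [Finset.mem_insert, Finset.mem_singleton, not_or] at hc
    rw [tri_u hc.1 hc.2.1 hc.2.2, eq_zero_of_cface hx₀ hc'] at hu
    exact hu rfl
  refine ⟨?_, ?_, hs⟩
  · intro u
    by_cases h4 : u = v
    · rw [h4, tri_v hvw hvz]; exact h1
    · by_cases h5 : u = w
      · rw [h5, tri_w hvw hwz]; exact h2
      · by_cases h6 : u = z
        · rw [h6, tri_z hvz hwz]; exact h3
        · rw [tri_u h4 h5 h6]; exact hx₀.1 u
  · have hsum := hx₀.2.1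
    rw [sum_of_supp hx₀.2.2, sum_triple hvw hvz hwz] at hsum
    rw [sum_of_supp hs, sum_triple hvw hvz hwz, tri_v hvw hvz, tri_w hvw hwz, tri_z hvz hwz]
    linarith

lemma eq_tri {v w z : V} (hvw : v ≠ w) (hvz : v ≠ z) (hwz : w ≠ z) {x₀ y : V → ℝ}
    (hx₀ : x₀ ∈ cface {v, w, z}) (hy : y ∈ cface {v, w, z}) :
    tri v w z x₀ (y w - x₀ w, y z - x₀ z) = y := by
  have hsum := hx₀.2.1
  rw [sum_of_supp hx₀.2.2, sum_triple hvw hvz hwz] at hsum
  have hsum' := hy.2.1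
  rw [sum_of_supp hy.2.2, sum_triple hvw hvz hwz] at hsum'
  funext u
  by_cases h4 : u = v
  · rw [h4, tri_v hvw hvz]; simp only; linarith
  · by_cases h5 : u = w
    · rw [h5, tri_w hvw hwz]; ring
    · by_cases h6 : u = z
      · rw [h6, tri_z hvz hwz]; ring
      · rw [tri_u h4 h5 h6, eq_zero_of_cface hx₀ (by simp [h4, h5, h6]),
          eq_zero_of_cface hy (by simp [h4, h5, h6])]

end Coord

section Smooth

variable {n : ℕ} {N : Type*} [TopologicalSpace N] [ChartedSpace (EuclideanSpace ℝ (Fin n)) N]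

lemma contDiffAt_comp {V : Type*} [Fintype V] {φ : N → ℝ}
    (hφ : ContMDiff (𝓡 n) 𝓘(ℝ, ℝ) ∞ φ) {g : (V → ℝ) → N} {x : V → ℝ}
    (hg : ContMDiffAt 𝓘(ℝ, V → ℝ) (𝓡 n) ∞ g x) : ContDiffAt ℝ ∞ (φ ∘ g) x := by
  rw [← contMDiffAt_iff_contDiffAt]
  exact (hφ.contMDiffAt).comp x hg

/-- The derivative of `φ` along an edge. -/
lemma edge_deriv (T : SmoothTri n N) {φ : N → ℝ} (hφ : ContMDiff (𝓡 n) 𝓘(ℝ, ℝ) ∞ φ)
    {v w : T.V} (hvw : v ≠ w) {t : Finset T.V} (ht : t ∈ T.K.faces) (hvt : {v, w} ⊆ t)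
    {x₀ : T.V → ℝ} (hx₀ : x₀ ∈ cface {v, w}) (hv : 0 < x₀ v) (hw : 0 < x₀ w)
    {g : (T.V → ℝ) → N} (hg : ContMDiffAt 𝓘(ℝ, T.V → ℝ) (𝓡 n) ∞ g x₀)
    (hgh : ∀ᶠ y in 𝓝 x₀, y ∈ T.K.real → supp y ⊆ t → g y = T.h y) :
    HasDerivAt (fun σ => φ (T.h (seg v w σ))) (fderiv ℝ (φ ∘ g) x₀ (vtx w - vtx v)) (x₀ w) := by
  have hseg : seg v w (x₀ w) = x₀ := (eq_seg hvw hx₀).symm
  have h1 : HasFDerivAt (φ ∘ g) (fderiv ℝ (φ ∘ g) x₀) (seg v w (x₀ w)) := by
    rw [hseg]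
    exact ((contDiffAt_comp hφ hg).differentiableAt (by simp)).hasFDerivAt
  have h2 := h1.comp_hasDerivAt (x₀ w) (hasDerivAt_seg v w (x₀ w))
  refine h2.congr_of_eventuallyEq ?_
  have hsum := hx₀.2.1
  rw [sum_of_supp hx₀.2.2, Finset.sum_pair hvw] at hsum
  have h3 : ∀ᶠ σ in 𝓝 (x₀ w), 0 < σ ∧ σ < 1 := by
    refine (eventually_gt_nhds hw).and (eventually_lt_nhds ?_)
    linarith
  have h4 : ∀ᶠ σ in 𝓝 (x₀ w), seg v w σ ∈ T.K.real → supp (seg v w σ) ⊆ t →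
      g (seg v w σ) = T.h (seg v w σ) := by
    have hc : Tendsto (seg v w) (𝓝 (x₀ w)) (𝓝 x₀) := by
      have := (continuous_seg v w).tendsto (x₀ w)
      rwa [hseg] at this
    exact hc.eventually hgh
  filter_upwards [h3, h4] with σ h5 h6
  have h7 := seg_mem_cface hvw h5.1.le h5.2.le
  have h8 : seg v w σ ∈ cface t := cface_mono hvt h7
  simp only [Function.comp_apply]
  rw [h6 (cface_subset_real _ ht h8) h8.2.2]

/-- The local structure of the level sets of `φ` in a triangle. -/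
lemma local_arcs (T : SmoothTri n N) {φ : N → ℝ} (hφ : ContMDiff (𝓡 n) 𝓘(ℝ, ℝ) ∞ φ)
    {v w z : T.V} (hvw : v ≠ w) (hvz : v ≠ z) (hwz : w ≠ z) (ht : {v, w, z} ∈ T.K.faces)
    {x₀ : T.V → ℝ} (hx₀ : x₀ ∈ cface {v, w, z}) (hv : 0 < x₀ v) (hw : 0 < x₀ w)
    {g : (T.V → ℝ) → N} (hg : ContMDiffAt 𝓘(ℝ, T.V → ℝ) (𝓡 n) ∞ g x₀)
    (hgh : ∀ᶠ y in 𝓝 x₀, y ∈ T.K.real → supp y ⊆ {v, w, z} → g y = T.h y)
    (hD : fderiv ℝ (φ ∘ g) x₀ (vtx w - vtx v) ≠ 0) {U : Set (T.V → ℝ)} (hU : U ∈ 𝓝 x₀) :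
    ∃ U' ∈ 𝓝 x₀, (∀ y ∈ cface {v, w, z}, y ∈ U' → y ∈ U ∧ 0 < y v ∧ 0 < y w) ∧
      IsPreconnected {y | y ∈ cface {v, w, z} ∧ y ∈ U' ∧ φ (T.h y) = φ (T.h x₀) ∧ x₀ z < y z} ∧
      (0 < x₀ z → IsPreconnected
        {y | y ∈ cface {v, w, z} ∧ y ∈ U' ∧ φ (T.h y) = φ (T.h x₀) ∧ y z < x₀ z}) ∧
      (∀ y ∈ cface {v, w, z}, y ∈ U' → φ (T.h y) = φ (T.h x₀) → y z = x₀ z → y = x₀) := by
  set ι := tri v w z x₀ with hι
  have hι0 : ι 0 = x₀ := tri_zero _ _ _ _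
  have hx₀K : x₀ ∈ T.K.real := cface_subset_real _ ht hx₀
  have hgx : g x₀ = T.h x₀ := hgh.self_of_nhds hx₀K hx₀.2.2
  set G : ℝ × ℝ → ℝ := φ ∘ g ∘ ι with hG
  have hstr : HasStrictFDerivAt G ((fderiv ℝ (φ ∘ g) x₀).comp (triL v w z)) 0 := by
    have h1 : HasStrictFDerivAt (φ ∘ g) (fderiv ℝ (φ ∘ g) x₀) (ι 0) := by
      rw [hι0]
      exact (contDiffAt_comp hφ hg).hasStrictFDerivAt (by simp)
    exact h1.comp 0 (hasStrictFDerivAt_tri v w z x₀ 0)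
  have h0 : G 0 = φ (T.h x₀) := by
    simp only [hG, Function.comp_apply, hι0, hgx]
  have h1 : ((fderiv ℝ (φ ∘ g) x₀).comp (triL v w z)) (1, 0) ≠ 0 := by
    simpa [triL] using hD
  have hιc : Tendsto ι (𝓝 0) (𝓝 x₀) := by
    have := (continuous_tri v w z x₀).tendsto 0
    rwa [tri_zero] at this
  -- the neighbourhood in the plane
  set O : Set (ℝ × ℝ) := {x | (ι x ∈ U ∧ (ι x ∈ T.K.real → supp (ι x) ⊆ {v, w, z} →
    g (ι x) = T.h (ι x))) ∧ 0 < x₀ v - x.1 - x.2 ∧ 0 < x₀ w + x.1 ∧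
      (0 < x₀ z → 0 < x₀ z + x.2)} with hO
  have hOn : O ∈ 𝓝 (0 : ℝ × ℝ) := by
    have e1 : ∀ᶠ x : ℝ × ℝ in 𝓝 0, 0 < x₀ v - x.1 - x.2 := by
      have : Continuous fun x : ℝ × ℝ => x₀ v - x.1 - x.2 := by fun_prop
      exact (this.tendsto 0).eventually (eventually_gt_nhds (by simpa using hv))
    have e2 : ∀ᶠ x : ℝ × ℝ in 𝓝 0, 0 < x₀ w + x.1 := by
      have : Continuous fun x : ℝ × ℝ => x₀ w + x.1 := by fun_prop
      exact (this.tendsto 0).eventually (eventually_gt_nhds (by simpa using hw))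
    have e3 : ∀ᶠ x : ℝ × ℝ in 𝓝 0, (0 < x₀ z → 0 < x₀ z + x.2) := by
      by_cases hz : 0 < x₀ z
      · have : Continuous fun x : ℝ × ℝ => x₀ z + x.2 := by fun_prop
        filter_upwards [(this.tendsto 0).eventually (eventually_gt_nhds (by simpa using hz))]
          with x hx _ using hx
      · exact Eventually.of_forall fun x h => absurd h hz
    filter_upwards [hιc.eventually hU, hιc.eventually hgh, e1, e2, e3] with x a1 a2 a3 a4 a5
    exact ⟨⟨a1, a2⟩, a3, a4, a5⟩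
  obtain ⟨W, hW, hWO, hp1, hp2, hp3⟩ := planar_arcs hstr h0 h1 hOn
  set κ : (T.V → ℝ) → ℝ × ℝ := fun y => (y w - x₀ w, y z - x₀ z) with hκ
  have hκc : Continuous κ := by rw [hκ]; fun_prop
  have hκ0 : κ x₀ = 0 := by simp [hκ]
  have hικ : ∀ y ∈ cface {v, w, z}, ι (κ y) = y := fun y hy => eq_tri hvw hvz hwz hx₀ hy
  have hκι : ∀ x, κ (ι x) = x := by
    intro x
    simp only [hκ, hι, tri_w hvw hwz, tri_z hvz hwz]
    ext <;> simp
  have hlev : ∀ x ∈ W, ι x ∈ cface {v, w, z} → φ (T.h (ι x)) = G x := by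
    intro x hx hx'
    have := (hWO hx).1.2 (cface_subset_real _ ht hx') hx'.2.2
    simp only [hG, Function.comp_apply, this]
  refine ⟨κ ⁻¹' W, ?_, ?_, ?_, ?_, ?_⟩
  · apply hκc.continuousAt
    rw [hκ0]; exact hW
  · intro y hy hyW
    have h2 := hWO hyW
    refine ⟨?_, ?_, ?_⟩
    · have := h2.1.1
      rwa [hικ y hy] at this
    · have := h2.2.1
      have e := tri_v hvw hvz x₀ (κ y)
      rw [← hι, hικ y hy] at e
      rw [e]; exact this
    · have := h2.2.2.1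
      have e := tri_w hvw hwz x₀ (κ y)
      rw [← hι, hικ y hy] at e
      rw [e]; exact this
  · have e1 : {y | y ∈ cface {v, w, z} ∧ y ∈ κ ⁻¹' W ∧ φ (T.h y) = φ (T.h x₀) ∧ x₀ z < y z} =
        ι '' {x | x ∈ W ∧ G x = φ (T.h x₀) ∧ 0 < x.2} := by
      ext y
      constructor
      · rintro ⟨b1, b2, b3, b4⟩
        refine ⟨κ y, ⟨b2, ?_, ?_⟩, hικ y b1⟩
        · rw [← hlev _ b2 (by rw [hικ y b1]; exact b1), hικ y b1]; exact b3
        · simp only [hκ]; linarith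
      · rintro ⟨x, ⟨b1, b2, b3⟩, rfl⟩
        have h2 := hWO b1
        have h3 : ι x ∈ cface {v, w, z} :=
          tri_mem_cface hvw hvz hwz hx₀ h2.2.1.le h2.2.2.1.le (by
            have := hx₀.1 z
            linarith)
        refine ⟨h3, ?_, ?_, ?_⟩
        · rw [mem_preimage, hκι]; exact b1
        · rw [hlev x b1 h3]; exact b2
        · rw [hι, tri_z hvz hwz]; linarith
    rw [e1]
    exact hp1.image _ (continuous_tri v w z x₀).continuousOn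
  · intro hz
    have e1 : {y | y ∈ cface {v, w, z} ∧ y ∈ κ ⁻¹' W ∧ φ (T.h y) = φ (T.h x₀) ∧ y z < x₀ z} =
        ι '' {x | x ∈ W ∧ G x = φ (T.h x₀) ∧ x.2 < 0} := by
      ext y
      constructor
      · rintro ⟨b1, b2, b3, b4⟩
        refine ⟨κ y, ⟨b2, ?_, ?_⟩, hικ y b1⟩
        · rw [← hlev _ b2 (by rw [hικ y b1]; exact b1), hικ y b1]; exact b3
        · simp only [hκ]; linarith
      · rintro ⟨x, ⟨b1, b2, b3⟩, rfl⟩
        have h2 := hWO b1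
        have h3 : ι x ∈ cface {v, w, z} :=
          tri_mem_cface hvw hvz hwz hx₀ h2.2.1.le h2.2.2.1.le (h2.2.2.2 hz).le
        refine ⟨h3, ?_, ?_, ?_⟩
        · rw [mem_preimage, hκι]; exact b1
        · rw [hlev x b1 h3]; exact b2
        · rw [hι, tri_z hvz hwz]; linarith
    rw [e1]
    exact hp2.image _ (continuous_tri v w z x₀).continuousOn
  · intro y hy hyW h2 h3
    have h4 := hp3 (κ y) hyW (by
      rw [← hlev _ hyW (by rw [hικ y hy]; exact hy), hικ y hy]; exact h2) (by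
        simp only [hκ]; linarith)
    rw [← hικ y hy, h4, hι0]

end Smooth

section Topo

variable {n : ℕ} {N : Type*} [TopologicalSpace N] [ChartedSpace (EuclideanSpace ℝ (Fin n)) N]

lemma nbhd_image [T2Space N] (T : SmoothTri n N) {x₀ : T.V → ℝ} (hx₀ : x₀ ∈ T.K.real)
    {U : Set (T.V → ℝ)} (hU : U ∈ 𝓝 x₀) :
    ∃ O' ∈ 𝓝 (T.h x₀), ∀ y ∈ T.K.real, T.h y ∈ O' → y ∈ U := by
  have h1 : IsCompact (T.K.real \ interior U) := T.K.isCompact_real.diff isOpen_interior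
  have h2 : IsCompact (T.h '' (T.K.real \ interior U)) :=
    h1.image_of_continuousOn (T.cont.mono diff_subset)
  refine ⟨(T.h '' (T.K.real \ interior U))ᶜ, h2.isClosed.isOpen_compl.mem_nhds ?_, ?_⟩
  · rintro ⟨y, ⟨hy1, hy2⟩, hy3⟩
    have : y = x₀ := T.bij.injOn hy1 hx₀ hy3
    rw [this] at hy2
    exact hy2 (mem_interior_iff_mem_nhds.2 hU)
  · intro y hy1 hy2
    by_contra hy3
    exact hy2 ⟨y, ⟨hy1, fun h => hy3 (interior_subset h)⟩, rfl⟩

lemma nbhd_preimage (T : SmoothTri n N) {x₀ : T.V → ℝ} (hx₀ : x₀ ∈ T.K.real)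
    {O : Set N} (hO : O ∈ 𝓝 (T.h x₀)) : ∃ U ∈ 𝓝 x₀, ∀ y ∈ T.K.real, y ∈ U → T.h y ∈ O := by
  have h1 := T.cont x₀ hx₀ hO
  obtain ⟨U, hU, hU2⟩ := mem_nhdsWithin_iff_exists_mem_nhds_inter.1 h1
  exact ⟨U, hU, fun y hy hyU => hU2 ⟨hyU, hy⟩⟩

end Topo

lemma finite_list {ι α : Type*} (F : Finset ι) {B : ℕ} (hF : F.card ≤ B) (S : ι → Set α) :
    ∃ A : Fin B → Set α, (∀ j, A j = ∅ ∨ ∃ t ∈ F, A j = S t) ∧ ∀ t ∈ F, ∃ j, A j = S t := by
  classical
  refine ⟨fun j => if h : (j : ℕ) < F.card then S (F.equivFin.symm ⟨j, h⟩) else ∅, ?_, ?_⟩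
  · intro j
    by_cases h : (j : ℕ) < F.card
    · right
      exact ⟨F.equivFin.symm ⟨j, h⟩, (F.equivFin.symm ⟨j, h⟩).2, by simp [h]⟩
    · left; simp [h]
  · intro t ht
    have h := (F.equivFin ⟨t, ht⟩).2
    refine ⟨⟨F.equivFin ⟨t, ht⟩, h.trans_le hF⟩, ?_⟩
    simp

lemma ae_ne (a : ℝ) : ∀ᵐ τ : ℝ, τ ≠ a := by
  rw [ae_iff]; simp

/-- One dimensional Sard theorem. -/
lemma ae_sard (f : ℝ → ℝ) : ∀ᵐ τ : ℝ, τ ∉ f '' {σ | HasDerivAt f 0 σ} := by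
  rw [ae_iff]
  simp only [not_not]
  have h := MeasureTheory.addHaar_image_eq_zero_of_det_fderivWithin_eq_zero (volume : Measure ℝ) (f := f)
    (s := {σ | HasDerivAt f 0 σ}) (f' := fun _ => (0 : ℝ →L[ℝ] ℝ)) ?_ ?_
  · exact h
  · intro x hx
    have h1 : HasDerivAt f 0 x := hx
    have h2 := h1.hasFDerivAt
    have h3 : (ContinuousLinearMap.toSpanSingleton ℝ (0 : ℝ)) = 0 := by ext; simp
    rw [h3] at h2
    exact h2.hasFDerivWithinAt
  · intro x _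
    simp [ContinuousLinearMap.det]

section Interior

variable {n : ℕ} {N : Type*} [TopologicalSpace N] [ChartedSpace (EuclideanSpace ℝ (Fin n)) N]

lemma chart_fderiv {V : Type*} [Fintype V] {g : (V → ℝ) → N} {x : V → ℝ}
    (hg : ContMDiffAt 𝓘(ℝ, V → ℝ) (𝓡 n) ∞ g x) {q : N} (hq : g x = q) :
    HasFDerivAt (extChartAt (𝓡 n) q ∘ g)
      (mfderiv 𝓘(ℝ, V → ℝ) (𝓡 n) g x : (V → ℝ) →L[ℝ] EuclideanSpace ℝ (Fin n)) x := by
  subst hq
  have h := ((hg.mdifferentiableAt (by simp)).hasMFDerivAt).2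
  simp only [writtenInExtChartAt, extChartAt_model_space_eq_id, modelWithCornersSelf_coe,
    range_id, PartialEquiv.refl_symm, PartialEquiv.refl_coe, Function.comp_id, id] at h
  exact hasFDerivWithinAt_univ.1 h

/-- If the derivative of `φ` vanishes at an interior point of a triangle, then it vanishes along
every smooth edge contained in the surface. -/
lemma interior_deriv [T2Space N] [IsManifold (𝓡 n) ∞ N] (T T₁ : SmoothTri n N) {φ : N → ℝ}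
    (hφ : ContMDiff (𝓡 n) 𝓘(ℝ, ℝ) ∞ φ) {s : Finset T.V} (hs : s ∈ T.K.faces)
    {x₀ : T.V → ℝ} (hx₀ : x₀ ∈ cface s)
    {g : (T.V → ℝ) → N} (hg : ContMDiffAt 𝓘(ℝ, T.V → ℝ) (𝓡 n) ∞ g x₀)
    (hgh : ∀ᶠ y in 𝓝 x₀, y ∈ T.K.real → supp y ⊆ s → g y = T.h y)
    (hinj : ∀ u : T.V → ℝ, ∑ v, u v = 0 → (∀ v ∉ s, u v = 0) →
      mfderiv 𝓘(ℝ, T.V → ℝ) (𝓡 n) g x₀ u = 0 → u = 0)
    (hD : ∀ u : T.V → ℝ, ∑ v, u v = 0 → (∀ v ∉ s, u v = 0) → fderiv ℝ (φ ∘ g) x₀ u = 0)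
    {v w : T₁.V} (hvw : v ≠ w) (ht : {v, w} ∈ T₁.K.faces)
    {x₁ : T₁.V → ℝ} (hx₁ : x₁ ∈ cface {v, w}) (hv : 0 < x₁ v) (hw : 0 < x₁ w)
    (hp : T₁.h x₁ = T.h x₀)
    (hcurve : ∀ᶠ σ in 𝓝 (x₁ w), ∃ y ∈ cface s, T.h y = T₁.h (seg v w σ)) :
    HasDerivAt (fun σ => φ (T₁.h (seg v w σ))) 0 (x₁ w) := by
  classical
  obtain ⟨g₁, hg₁, hg₁h, -⟩ := T₁.smoothM {v, w} ht x₁ (cface_subset_real _ ht hx₁) hx₁.2.2
  have hseg : seg v w (x₁ w) = x₁ := (eq_seg hvw hx₁).symm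
  have hx₀K : x₀ ∈ T.K.real := cface_subset_real _ hs hx₀
  have hgx : g x₀ = T.h x₀ := hgh.self_of_nhds hx₀K hx₀.2.2
  have hg₁x : g₁ x₁ = T₁.h x₁ := hg₁h.self_of_nhds (cface_subset_real _ ht hx₁) hx₁.2.2
  set σ₀ := x₁ w with hσ₀
  have hsum := hx₁.2.1
  rw [sum_of_supp hx₁.2.2, Finset.sum_pair hvw] at hsum
  have hsegc : Tendsto (seg v w) (𝓝 σ₀) (𝓝 x₁) := by
    have := (continuous_seg v w).tendsto σ₀
    rwa [hseg] at this
  -- the curve in terms of `g₁`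
  have hc1 : ∀ᶠ σ in 𝓝 σ₀, T₁.h (seg v w σ) = g₁ (seg v w σ) := by
    have h3 : ∀ᶠ σ in 𝓝 σ₀, 0 < σ ∧ σ < 1 := by
      refine (eventually_gt_nhds hw).and (eventually_lt_nhds ?_)
      linarith
    filter_upwards [h3, hsegc.eventually hg₁h] with σ h5 h6
    have h7 := seg_mem_cface hvw h5.1.le h5.2.le
    exact (h6 (cface_subset_real _ ht h7) h7.2.2).symm
  -- the lifted curve
  choose! y hy using fun (σ : ℝ) (h : ∃ y ∈ cface s, T.h y = T₁.h (seg v w σ)) => h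
  have hy1 : ∀ᶠ σ in 𝓝 σ₀, y σ ∈ cface s ∧ T.h (y σ) = T₁.h (seg v w σ) :=
    hcurve.mono fun σ h => hy σ h
  have hyt : Tendsto y (𝓝 σ₀) (𝓝 x₀) := by
    intro U hU
    obtain ⟨O', hO', hO'U⟩ := nbhd_image T hx₀K hU
    have h1 : ContinuousAt (g₁ ∘ seg v w) σ₀ := by
      refine ContinuousAt.comp ?_ (continuous_seg v w).continuousAt
      rw [hseg]; exact hg₁.continuousAt
    have h2 : (g₁ ∘ seg v w) σ₀ = T.h x₀ := by
      simp only [Function.comp_apply, hseg, hg₁x, hp]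
    have h3 : ∀ᶠ σ in 𝓝 σ₀, g₁ (seg v w σ) ∈ O' := by
      have := h1.tendsto
      rw [h2] at this
      exact this hO'
    have h4 : ∀ᶠ σ in 𝓝 σ₀, y σ ∈ U := by
      filter_upwards [hy1, hc1, h3] with σ a1 a2 a3
      apply hO'U _ (cface_subset_real _ hs a1.1)
      rw [a1.2, a2]; exact a3
    exact h4
  have hyg : ∀ᶠ σ in 𝓝 σ₀, g (y σ) = g₁ (seg v w σ) := by
    filter_upwards [hy1, hc1, hyt.eventually hgh] with σ a1 a2 a3
    rw [a3 (cface_subset_real _ hs a1.1) a1.1.2.2, a1.2, a2]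
  -- the chart
  set χ := extChartAt (𝓡 n) (T.h x₀) with hχ
  set D : (T.V → ℝ) →L[ℝ] EuclideanSpace ℝ (Fin n) := mfderiv 𝓘(ℝ, T.V → ℝ) (𝓡 n) g x₀ with hDdef
  have hF : HasFDerivAt (χ ∘ g) D x₀ := chart_fderiv hg hgx
  have hF₁ : HasFDerivAt (χ ∘ g₁)
      (mfderiv 𝓘(ℝ, T₁.V → ℝ) (𝓡 n) g₁ x₁ : (T₁.V → ℝ) →L[ℝ] EuclideanSpace ℝ (Fin n)) x₁ :=
    chart_fderiv hg₁ (hg₁x.trans hp)
  -- the curve in the chart is Lipschitz at `σ₀`
  have hO1 : (fun σ => (χ ∘ g) (y σ) - (χ ∘ g) x₀) =O[𝓝 σ₀] (fun σ => σ - σ₀) := by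
    have h0 : HasFDerivAt (χ ∘ g₁) (mfderiv 𝓘(ℝ, T₁.V → ℝ) (𝓡 n) g₁ x₁ :
        (T₁.V → ℝ) →L[ℝ] EuclideanSpace ℝ (Fin n)) (seg v w σ₀) := by
      rw [hseg]; exact hF₁
    have h1 := h0.comp_hasDerivAt σ₀ (hasDerivAt_seg v w σ₀)
    have h2 := h1.hasFDerivAt.isBigO_sub
    refine h2.congr' ?_ EventuallyEq.rfl
    filter_upwards [hyg] with σ a1
    simp only [Function.comp_apply, hseg, a1, hg₁x, hp, hgx]
  -- the subspace of directions
  set Ws : Submodule ℝ (T.V → ℝ) :=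
    { carrier := {u | ∑ v, u v = 0 ∧ ∀ v ∉ s, u v = 0}
      add_mem' := by
        rintro a b ⟨ha1, ha2⟩ ⟨hb1, hb2⟩
        refine ⟨?_, fun v hv => by simp [ha2 v hv, hb2 v hv]⟩
        simp [Finset.sum_add_distrib, ha1, hb1]
      zero_mem' := by simp
      smul_mem' := by
        rintro c a ⟨ha1, ha2⟩
        refine ⟨?_, fun v hv => by simp [ha2 v hv]⟩
        simp [← Finset.mul_sum, ha1] } with hWs
  have hker : LinearMap.ker ((D : (T.V → ℝ) →ₗ[ℝ] EuclideanSpace ℝ (Fin n)).comp Ws.subtype) = ⊥ := by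
    rw [LinearMap.ker_eq_bot']
    rintro ⟨u, hu⟩ h
    have : u = 0 := hinj u hu.1 hu.2 h
    exact Subtype.ext this
  obtain ⟨K, hK, hKanti⟩ := LinearMap.exists_antilipschitzWith _ hker
  have hyW : ∀ᶠ σ in 𝓝 σ₀, y σ - x₀ ∈ Ws := by
    filter_upwards [hy1] with σ a1
    refine ⟨?_, ?_⟩
    · simp only [Pi.sub_apply, Finset.sum_sub_distrib, a1.1.2.1, hx₀.2.1, sub_self]
    · intro u hu
      simp only [Pi.sub_apply, eq_zero_of_cface a1.1 hu, eq_zero_of_cface hx₀ hu, sub_self]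
  have hO2 : (fun σ => y σ - x₀) =O[𝓝 σ₀] (fun σ => D (y σ - x₀)) := by
    refine Asymptotics.IsBigO.of_bound K ?_
    filter_upwards [hyW] with σ a1
    have := hKanti.le_mul_dist (⟨y σ - x₀, a1⟩ : Ws) 0
    simpa [dist_zero_right] using this
  have ho1 : (fun σ => (χ ∘ g) (y σ) - (χ ∘ g) x₀ - D (y σ - x₀)) =o[𝓝 σ₀]
      (fun σ => y σ - x₀) := hF.isLittleO.comp_tendsto hyt
  have ho2 := ho1.trans_isBigO hO2
  have hO3 := ho2.right_isBigO_add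
  have hO4 : (fun σ => D (y σ - x₀)) =O[𝓝 σ₀] (fun σ => σ - σ₀) := by
    refine (hO3.congr_right ?_).trans hO1
    intro σ
    abel
  have hO5 : (fun σ => y σ - x₀) =O[𝓝 σ₀] (fun σ => σ - σ₀) := hO2.trans hO4
  -- the function `φ`
  have hE : HasFDerivAt (φ ∘ g) (fderiv ℝ (φ ∘ g) x₀) x₀ :=
    ((contDiffAt_comp hφ hg).differentiableAt (by simp)).hasFDerivAt
  have ho3 : (fun σ => (φ ∘ g) (y σ) - (φ ∘ g) x₀ - fderiv ℝ (φ ∘ g) x₀ (y σ - x₀)) =o[𝓝 σ₀]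
      (fun σ => σ - σ₀) := (hE.isLittleO.comp_tendsto hyt).trans_isBigO hO5
  rw [hasDerivAt_iff_isLittleO]
  refine ho3.congr' ?_ EventuallyEq.rfl
  filter_upwards [hyW, hyg, hc1] with σ a1 a2 a3
  rw [hD _ a1.1 a1.2]
  simp only [Function.comp_apply, a2, hgx, ← hp, hseg, a3, smul_zero, sub_zero]

end Interior

section Assembly

variable {n : ℕ} {N : Type*} [TopologicalSpace N] [ChartedSpace (EuclideanSpace ℝ (Fin n)) N]

/-- The final form from finitely many preconnected pieces of the realisation. -/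
lemma finish [T2Space N] (T : SmoothTri n N) {A : ASC T.V} (hA : A.faces ⊆ T.K.faces) {φ : N → ℝ}
    {τ : ℝ} {x₀ : T.V → ℝ} (hx₀ : x₀ ∈ A.real) {ι : Type*} (F : Finset ι) {B : ℕ}
    (hF : F.card ≤ B) (S : ι → Set (T.V → ℝ)) {U Uo : Set (T.V → ℝ)} (hU : U ∈ 𝓝 x₀) {O : Set N}
    (hUo : ∀ y ∈ T.K.real, y ∈ Uo → T.h y ∈ O)
    (hS1 : ∀ i ∈ F, IsPreconnected (S i))
    (hS2 : ∀ i ∈ F, ∀ y ∈ S i, y ∈ A.real ∧ y ∈ Uo ∧ φ (T.h y) = τ ∧ y ≠ x₀)
    (hS3 : ∀ y ∈ A.real, y ∈ U → φ (T.h y) = τ → y ≠ x₀ → ∃ i ∈ F, y ∈ S i) :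
    ∃ O' ∈ 𝓝 (T.h x₀), ∃ C : Fin B → Set N,
      (∀ j, IsPreconnected (C j) ∧ C j ⊆ (T.h '' A.real ∩ φ ⁻¹' {τ} ∩ O) \ {T.h x₀}) ∧
      (T.h '' A.real ∩ φ ⁻¹' {τ} ∩ O') \ {T.h x₀} ⊆ ⋃ j, C j := by
  have hAK : A.real ⊆ T.K.real := fun y hy => ⟨hy.1, hy.2.1, hA hy.2.2⟩
  obtain ⟨O', hO', hO'U⟩ := nbhd_image T (hAK hx₀) hU
  obtain ⟨C, hC1, hC2⟩ := finite_list F hF (fun i => T.h '' S i)
  refine ⟨O', hO', C, ?_, ?_⟩
  · intro j
    rcases hC1 j with h | ⟨i, hi, h⟩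
    · rw [h]; exact ⟨isPreconnected_empty, empty_subset _⟩
    · rw [h]
      refine ⟨(hS1 i hi).image _ (T.cont.mono fun y hy => hAK (hS2 i hi y hy).1), ?_⟩
      rintro _ ⟨y, hy, rfl⟩
      obtain ⟨h1, h2, h3, h4⟩ := hS2 i hi y hy
      refine ⟨⟨⟨⟨y, h1, rfl⟩, h3⟩, hUo y (hAK h1) h2⟩, ?_⟩
      intro h5
      exact h4 (T.bij.injOn (hAK h1) (hAK hx₀) h5)
  · rintro _ ⟨⟨⟨⟨y, hy, rfl⟩, h1⟩, h2⟩, h3⟩
    obtain ⟨i, hi, hyi⟩ := hS3 y hy (hO'U y (hAK hy) h2) h1 (by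
      rintro rfl; exact h3 rfl)
    obtain ⟨j, hj⟩ := hC2 i hi
    rw [mem_iUnion]
    exact ⟨j, by rw [hj]; exact ⟨y, hyi, rfl⟩⟩

lemma supp_eq_of_mem {V : Type*} [Fintype V] [DecidableEq V] {s : Finset V} {y : V → ℝ}
    (hy : y ∈ cface s) (h : s ⊆ supp y) : supp y = s :=
  Finset.Subset.antisymm hy.2.2 h

/-- The case of an interior point of a triangle. -/
lemma case_three [T2Space N] (T : SmoothTri n N) {A : ASC T.V} (hA : A.faces ⊆ T.K.faces)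
    (hA3 : ∀ s ∈ A.faces, s.card ≤ 3) {φ : N → ℝ} (hφ : ContMDiff (𝓡 n) 𝓘(ℝ, ℝ) ∞ φ) {B : ℕ}
    (hB : 2 ≤ B) {v w z : T.V} (hvw : v ≠ w) (hvz : v ≠ z) (hwz : w ≠ z) {x₀ : T.V → ℝ}
    (hx₀ : x₀ ∈ A.real) (hs : supp x₀ = {v, w, z})
    {g : (T.V → ℝ) → N} (hg : ContMDiffAt 𝓘(ℝ, T.V → ℝ) (𝓡 n) ∞ g x₀)
    (hgh : ∀ᶠ y in 𝓝 x₀, y ∈ T.K.real → supp y ⊆ {v, w, z} → g y = T.h y)
    (hD : fderiv ℝ (φ ∘ g) x₀ (vtx w - vtx v) ≠ 0) {O : Set N} (hO : O ∈ 𝓝 (T.h x₀)) :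
    ∃ O' ∈ 𝓝 (T.h x₀), ∃ C : Fin B → Set N,
      (∀ j, IsPreconnected (C j) ∧
        C j ⊆ (T.h '' A.real ∩ φ ⁻¹' {φ (T.h x₀)} ∩ O) \ {T.h x₀}) ∧
      (T.h '' A.real ∩ φ ⁻¹' {φ (T.h x₀)} ∩ O') \ {T.h x₀} ⊆ ⋃ j, C j := by
  have hAK : A.real ⊆ T.K.real := fun y hy => ⟨hy.1, hy.2.1, hA hy.2.2⟩
  have hsA : ({v, w, z} : Finset T.V) ∈ A.faces := hs ▸ hx₀.2.2
  have hx₀c : x₀ ∈ cface {v, w, z} := ⟨hx₀.1, hx₀.2.1, hs.le⟩
  have hpos : ∀ u ∈ ({v, w, z} : Finset T.V), 0 < x₀ u := by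
    intro u hu
    rw [← hs, mem_supp] at hu
    exact lt_of_le_of_ne (hx₀.1 u) (Ne.symm hu)
  obtain ⟨Uo, hUo, hUoO⟩ := nbhd_preimage T (hAK hx₀) hO
  obtain ⟨U', hU', h1, h2, h3, h4⟩ := local_arcs T hφ hvw hvz hwz (hA hsA) hx₀c
    (hpos v (by simp)) (hpos w (by simp)) hg hgh hD hUo
  have h3' := h3 (hpos z (by simp))
  have hcf : cface ({v, w, z} : Finset T.V) ⊆ A.real := cface_subset_real A hsA
  refine finish T hA hx₀ (Finset.univ : Finset Bool) (by simpa using hB)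
    (fun b => if b = true then
      {y | y ∈ cface {v, w, z} ∧ y ∈ U' ∧ φ (T.h y) = φ (T.h x₀) ∧ x₀ z < y z} else
      {y | y ∈ cface {v, w, z} ∧ y ∈ U' ∧ φ (T.h y) = φ (T.h x₀) ∧ y z < x₀ z})
    (inter_mem hU' (eventually_supp_subset x₀)) hUoO ?_ ?_ ?_
  · intro b _
    cases b
    · simpa using h3'
    · simpa using h2
  · intro b _ y hy
    cases b
    · simp only [Bool.false_eq_true, if_false] at hy
      obtain ⟨b1, b2, b3, b4⟩ := hy
      refine ⟨hcf b1, (h1 y b1 b2).1, b3, ?_⟩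
      rintro rfl; exact lt_irrefl _ b4
    · simp only [if_true] at hy
      obtain ⟨b1, b2, b3, b4⟩ := hy
      refine ⟨hcf b1, (h1 y b1 b2).1, b3, ?_⟩
      rintro rfl; exact lt_irrefl _ b4
  · rintro y hyA ⟨hyU, hys⟩ hyφ hyne
    have hys' : supp x₀ ⊆ supp y := hys
    rw [hs] at hys'
    have hcard : ({v, w, z} : Finset T.V).card = 3 := Finset.card_eq_three.2
      ⟨v, w, z, hvw, hvz, hwz, rfl⟩
    have hsupp : supp y = {v, w, z} :=
      (Finset.eq_of_subset_of_card_le hys' (by rw [hcard]; exact hA3 _ hyA.2.2)).symm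
    have hyc : y ∈ cface {v, w, z} := ⟨hyA.1, hyA.2.1, hsupp.le⟩
    rcases lt_trichotomy (y z) (x₀ z) with h | h | h
    · refine ⟨false, Finset.mem_univ _, ?_⟩
      simp only [Bool.false_eq_true, if_false]
      exact ⟨hyc, hyU, hyφ, h⟩
    · exact absurd (h4 y hyc hyU hyφ h) hyne
    · refine ⟨true, Finset.mem_univ _, ?_⟩
      simp only [if_true]
      exact ⟨hyc, hyU, hyφ, h⟩

/-- The case of a point of an open edge. -/
lemma case_two [T2Space N] (T : SmoothTri n N) {A : ASC T.V} (hA : A.faces ⊆ T.K.faces)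
    (hA3 : ∀ s ∈ A.faces, s.card ≤ 3) {φ : N → ℝ} (hφ : ContMDiff (𝓡 n) 𝓘(ℝ, ℝ) ∞ φ) {B : ℕ}
    (hB : ∀ e ∈ A.faces, e.card = 2 → ((A.fk 3).filter (fun s => e ⊆ s)).card ≤ B)
    {v w : T.V} (hvw : v ≠ w) {x₀ : T.V → ℝ}
    (hx₀ : x₀ ∈ A.real) (hs : supp x₀ = {v, w})
    (hD : ¬ HasDerivAt (fun σ => φ (T.h (seg v w σ))) 0 (x₀ w)) {O : Set N}
    (hO : O ∈ 𝓝 (T.h x₀)) :
    ∃ O' ∈ 𝓝 (T.h x₀), ∃ C : Fin B → Set N,
      (∀ j, IsPreconnected (C j) ∧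
        C j ⊆ (T.h '' A.real ∩ φ ⁻¹' {φ (T.h x₀)} ∩ O) \ {T.h x₀}) ∧
      (T.h '' A.real ∩ φ ⁻¹' {φ (T.h x₀)} ∩ O') \ {T.h x₀} ⊆ ⋃ j, C j := by
  classical
  have hAK : A.real ⊆ T.K.real := fun y hy => ⟨hy.1, hy.2.1, hA hy.2.2⟩
  have hsA : ({v, w} : Finset T.V) ∈ A.faces := hs ▸ hx₀.2.2
  have hx₀c : x₀ ∈ cface {v, w} := ⟨hx₀.1, hx₀.2.1, hs.le⟩
  have hpos : ∀ u ∈ ({v, w} : Finset T.V), 0 < x₀ u := by
    intro u hu
    rw [← hs, mem_supp] at hu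
    exact lt_of_le_of_ne (hx₀.1 u) (Ne.symm hu)
  have hv := hpos v (by simp)
  have hw := hpos w (by simp)
  obtain ⟨Uo, hUo, hUoO⟩ := nbhd_preimage T (hAK hx₀) hO
  have hcard2 : ({v, w} : Finset T.V).card = 2 := Finset.card_pair hvw
  -- the triangles
  have htri : ∀ t ∈ (A.fk 3).filter (fun s => ({v, w} : Finset T.V) ⊆ s), ∃ U' ∈ 𝓝 x₀,
      (∀ y ∈ cface t, y ∈ U' → y ∈ Uo) ∧
      IsPreconnected {y | y ∈ cface t ∧ y ∈ U' ∧ φ (T.h y) = φ (T.h x₀) ∧ ¬ supp y ⊆ {v, w}} := by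
    intro t ht
    rw [Finset.mem_filter, ASC.mem_fk] at ht
    obtain ⟨⟨ht1, ht2⟩, ht3⟩ := ht
    obtain ⟨z, hz1, hz2⟩ : ∃ z ∈ t, z ∉ ({v, w} : Finset T.V) := by
      by_contra hc
      push Not at hc
      have := Finset.card_le_card (show t ⊆ {v, w} from hc)
      omega
    have hvz : v ≠ z := by
      rintro rfl; exact hz2 (by simp)
    have hwz : w ≠ z := by
      rintro rfl; exact hz2 (by simp)
    have hteq : t = {v, w, z} := by
      symm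
      apply Finset.eq_of_subset_of_card_le
      · intro u hu
        simp only [Finset.mem_insert, Finset.mem_singleton] at hu
        rcases hu with rfl | rfl | rfl
        · exact ht3 (by simp)
        · exact ht3 (by simp)
        · exact hz1
      · rw [ht2, Finset.card_eq_three.2 ⟨v, w, z, hvw, hvz, hwz, rfl⟩]
    subst hteq
    have hx₀t : x₀ ∈ cface {v, w, z} := cface_mono ht3 hx₀c
    obtain ⟨g, hg, hgh, -⟩ := T.smoothM {v, w, z} (hA ht1) x₀ (hAK hx₀) hx₀t.2.2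
    have hD' : fderiv ℝ (φ ∘ g) x₀ (vtx w - vtx v) ≠ 0 := by
      intro h
      have := edge_deriv T hφ hvw (hA ht1) ht3 hx₀c hv hw hg hgh
      rw [h] at this
      exact hD this
    obtain ⟨U', hU', h1, h2, -, -⟩ := local_arcs T hφ hvw hvz hwz (hA ht1) hx₀t hv hw hg hgh hD'
      hUo
    refine ⟨U', hU', fun y hy hyU => (h1 y hy hyU).1, ?_⟩
    have hx₀z : x₀ z = 0 := by
      by_contra h
      exact hz2 (hs ▸ mem_supp.2 h)
    have e1 : {y | y ∈ cface {v, w, z} ∧ y ∈ U' ∧ φ (T.h y) = φ (T.h x₀) ∧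
        ¬ supp y ⊆ {v, w}} =
        {y | y ∈ cface {v, w, z} ∧ y ∈ U' ∧ φ (T.h y) = φ (T.h x₀) ∧ x₀ z < y z} := by
      ext y
      constructor
      · rintro ⟨a1, a2, a3, a4⟩
        refine ⟨a1, a2, a3, ?_⟩
        rw [hx₀z]
        refine lt_of_le_of_ne (a1.1 z) ?_
        intro h
        apply a4
        intro u hu
        have hu' := a1.2.2 hu
        simp only [Finset.mem_insert, Finset.mem_singleton] at hu' ⊢
        rcases hu' with h5 | h5 | h5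
        · exact Or.inl h5
        · exact Or.inr h5
        · rw [h5, mem_supp] at hu
          exact absurd h.symm hu
      · rintro ⟨a1, a2, a3, a4⟩
        refine ⟨a1, a2, a3, ?_⟩
        rw [hx₀z] at a4
        intro h
        exact hz2 (h (mem_supp.2 a4.ne'))
    rw [e1]
    exact h2
  choose! U' hU' hU'1 hU'2 using htri
  -- local injectivity on the edge
  obtain ⟨g, hg, hgh, -⟩ := T.smoothM {v, w} (hA hsA) x₀ (hAK hx₀) hx₀c.2.2
  have hder := edge_deriv T hφ hvw (hA hsA) Finset.Subset.rfl hx₀c hv hw hg hgh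
  have hD' : fderiv ℝ (φ ∘ g) x₀ (vtx w - vtx v) ≠ 0 := by
    intro h
    rw [h] at hder
    exact hD hder
  have hedge : ∀ᶠ σ in 𝓝 (x₀ w), σ ≠ x₀ w → φ (T.h (seg v w σ)) ≠ φ (T.h x₀) := by
    have h1 := hder.eventually_ne (c := φ (T.h x₀)) hD'
    rw [eventually_nhdsWithin_iff] at h1
    exact h1
  have hedge' : ∀ᶠ y : T.V → ℝ in 𝓝 x₀, y w ≠ x₀ w → φ (T.h (seg v w (y w))) ≠ φ (T.h x₀) := by
    have : Continuous fun y : T.V → ℝ => y w := continuous_apply w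
    exact (this.tendsto x₀).eventually hedge
  refine finish T hA hx₀ ((A.fk 3).filter (fun s => ({v, w} : Finset T.V) ⊆ s))
    (hB _ hsA hcard2)
    (fun t => {y | y ∈ cface t ∧ y ∈ U' t ∧ φ (T.h y) = φ (T.h x₀) ∧ ¬ supp y ⊆ {v, w}})
    (U := (⋂ t ∈ (A.fk 3).filter (fun s => ({v, w} : Finset T.V) ⊆ s), U' t) ∩
      ({y | supp x₀ ⊆ supp y} ∩
        {y | y w ≠ x₀ w → φ (T.h (seg v w (y w))) ≠ φ (T.h x₀)}))
    (inter_mem ?_ (inter_mem (eventually_supp_subset x₀) hedge')) hUoO ?_ ?_ ?_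
  · rw [Filter.biInter_finset_mem]
    exact fun t ht => hU' t ht
  · intro t ht
    exact hU'2 t ht
  · rintro t ht y ⟨h1, h2, h3, h4⟩
    have ht' := ht
    rw [Finset.mem_filter, ASC.mem_fk] at ht'
    refine ⟨cface_subset_real A ht'.1.1 h1, hU'1 t ht y h1 h2, h3, ?_⟩
    rintro rfl
    exact h4 hx₀c.2.2
  · rintro y hyA ⟨hyU, hys, hye⟩ hyφ hyne
    have hys' : supp x₀ ⊆ supp y := hys
    rw [hs] at hys'
    by_cases hsup : supp y ⊆ {v, w}
    · exfalso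
      have hyc : y ∈ cface {v, w} := ⟨hyA.1, hyA.2.1, hsup⟩
      have e := eq_seg hvw hyc
      have e₀ := eq_seg hvw hx₀c
      by_cases hyw : y w = x₀ w
      · apply hyne
        rw [e, hyw, ← e₀]
      · have := hye hyw
        rw [← e] at this
        exact this hyφ
    · have hc3 : (supp y).card ≤ 3 := hA3 _ hyA.2.2
      have hss : ({v, w} : Finset T.V) ⊂ supp y :=
        Finset.ssubset_iff_subset_ne.2 ⟨hys', fun h => hsup h.symm.le⟩
      have hc2 := Finset.card_lt_card hss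
      have htF : supp y ∈ (A.fk 3).filter (fun s => ({v, w} : Finset T.V) ⊆ s) := by
        rw [Finset.mem_filter, ASC.mem_fk]
        exact ⟨⟨hyA.2.2, by omega⟩, hys'⟩
      refine ⟨supp y, htF, ⟨hyA.1, hyA.2.1, Finset.Subset.rfl⟩, ?_, hyφ, hsup⟩
      exact mem_iInter₂.1 hyU _ htF

end Assembly

end ArcsAux

open ArcsAux in
theorem ae_arcs {N : Type*} [TopologicalSpace N] [T2Space N]
    [ChartedSpace (EuclideanSpace ℝ (Fin 3)) N] [IsManifold (𝓡 3) ∞ N] {B : ℕ} (hB : 2 ≤ B)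
    {Z₂ Z₁ : Set N} (h₂ : IsGoodSurface 3 B Z₂) (h₁ : IsSubcomplexSet 3 1 Z₁) (hsub : Z₁ ⊆ Z₂)
    {φ : N → ℝ} (hφ : ContMDiff (𝓡 3) 𝓘(ℝ, ℝ) ∞ φ) :
    ∀ᵐ τ : ℝ, ∀ p ∈ Z₁, φ p = τ → ∀ O ∈ 𝓝 p, ∃ O' ∈ 𝓝 p, ∃ A : Fin B → Set N,
      (∀ j, IsPreconnected (A j) ∧ A j ⊆ (Z₂ ∩ φ ⁻¹' {τ} ∩ O) \ {p}) ∧
      (Z₂ ∩ φ ⁻¹' {τ} ∩ O') \ {p} ⊆ ⋃ j, A j := by
  classical
  obtain ⟨T, A, hA, hA3, hAB, hZ₂⟩ := h₂
  obtain ⟨T₁, A₁, hA₁, hA₁2, hZ₁⟩ := h₁
  have hN1 : ∀ᵐ τ : ℝ, ∀ v : T.V, τ ≠ φ (T.h (vtx v)) := by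
    rw [ae_all_iff]; exact fun v => ae_ne _
  have hN2 : ∀ᵐ τ : ℝ, ∀ v w : T.V,
      τ ∉ (fun σ => φ (T.h (seg v w σ))) '' {σ | HasDerivAt (fun σ => φ (T.h (seg v w σ))) 0 σ} := by
    rw [ae_all_iff]; intro v; rw [ae_all_iff]; exact fun w => ae_sard _
  have hN3 : ∀ᵐ τ : ℝ, ∀ v : T₁.V, τ ≠ φ (T₁.h (vtx v)) := by
    rw [ae_all_iff]; exact fun v => ae_ne _
  have hN4 : ∀ᵐ τ : ℝ, ∀ v w : T₁.V,
      τ ∉ (fun σ => φ (T₁.h (seg v w σ))) ''
        {σ | HasDerivAt (fun σ => φ (T₁.h (seg v w σ))) 0 σ} := by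
    rw [ae_all_iff]; intro v; rw [ae_all_iff]; exact fun w => ae_sard _
  filter_upwards [hN1, hN2, hN3, hN4] with τ a1 a2 a3 a4
  intro p hp hpτ O hO
  have hp₂ := hsub hp
  rw [hZ₂] at hp₂ ⊢
  obtain ⟨x₀, hx₀, rfl⟩ := hp₂
  rw [hZ₁] at hp
  obtain ⟨x₁, hx₁, hx₁p⟩ := hp
  subst hpτ
  have hAK : A.real ⊆ T.K.real := fun y hy => ⟨hy.1, hy.2.1, hA hy.2.2⟩
  have hAK₁ : A₁.real ⊆ T₁.K.real := fun y hy => ⟨hy.1, hy.2.1, hA₁ hy.2.2⟩
  have hx₀c : x₀ ∈ cface (supp x₀) := mem_cface_supp (hAK hx₀)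
  have hx₁c : x₁ ∈ cface (supp x₁) := mem_cface_supp (hAK₁ hx₁)
  have hne := supp_nonempty_of_sum hx₀.2.1
  have hcard := hA3 _ hx₀.2.2
  have hcard1 := Finset.card_pos.2 hne
  -- a point supported at one vertex is the vertex
  have hone : ∀ {V : Type} [Fintype V] [DecidableEq V] {y : V → ℝ} {v : V},
      y ∈ cface (supp y) → supp y = {v} → y = vtx v := by
    intro V _ _ y v hy hs
    have h1 := hy.2.1
    rw [sum_of_supp hy.2.2, hs, Finset.sum_singleton] at h1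
    funext u
    by_cases hu : u = v
    · subst hu; simp [vtx, h1]
    · have : u ∉ supp y := by rw [hs]; simpa using hu
      rw [eq_zero_of_cface hy this]
      simp [vtx, hu]
  have hcases : (supp x₀).card = 1 ∨ (supp x₀).card = 2 ∨ (supp x₀).card = 3 := by omega
  rcases hcases with h | h | h
  · obtain ⟨v, hv⟩ := Finset.card_eq_one.1 h
    exact absurd (by rw [hone hx₀c hv]) (a1 v)
  · obtain ⟨v, w, hvw, hs⟩ := Finset.card_eq_two.1 h
    refine case_two T hA hA3 hφ hAB hvw hx₀ hs ?_ hO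
    intro hder
    refine a2 v w ⟨x₀ w, hder, ?_⟩
    have hx₀c' : x₀ ∈ cface {v, w} := by rw [← hs]; exact hx₀c
    simp only
    rw [← eq_seg hvw hx₀c']
  · obtain ⟨v, w, z, hvw, hvz, hwz, hs⟩ := Finset.card_eq_three.1 h
    have hx₀c' : x₀ ∈ cface {v, w, z} := by rw [← hs]; exact hx₀c
    have hsA : ({v, w, z} : Finset T.V) ∈ A.faces := hs ▸ hx₀.2.2
    obtain ⟨g, hg, hgh, hinj⟩ := T.smoothM {v, w, z} (hA hsA) x₀ (hAK hx₀) hx₀c'.2.2
    by_cases hD : fderiv ℝ (φ ∘ g) x₀ (vtx w - vtx v) = 0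
    · by_cases hD' : fderiv ℝ (φ ∘ g) x₀ (vtx z - vtx v) = 0
      · exfalso
        have hcard₁ := hA₁2 _ hx₁.2.2
        have hcard₁' := Finset.card_pos.2 (supp_nonempty_of_sum hx₁.2.1)
        have hcases₁ : (supp x₁).card = 1 ∨ (supp x₁).card = 2 := by omega
        rcases hcases₁ with h₁ | h₁
        · obtain ⟨v₁, hv₁⟩ := Finset.card_eq_one.1 h₁
          apply a3 v₁
          rw [← hone hx₁c hv₁, hx₁p]
        · obtain ⟨v₁, w₁, hvw₁, hs₁⟩ := Finset.card_eq_two.1 h₁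
          have hx₁c' : x₁ ∈ cface {v₁, w₁} := by rw [← hs₁]; exact hx₁c
          have hs₁A : ({v₁, w₁} : Finset T₁.V) ∈ A₁.faces := hs₁ ▸ hx₁.2.2
          have hpos : ∀ u ∈ ({v₁, w₁} : Finset T₁.V), 0 < x₁ u := by
            intro u hu
            rw [← hs₁, mem_supp] at hu
            exact lt_of_le_of_ne (hx₁.1 u) (Ne.symm hu)
          refine a4 v₁ w₁ ⟨x₁ w₁, ?_, ?_⟩
          · refine interior_deriv T T₁ hφ (hA hsA) hx₀c' hg hgh hinj ?_ hvw₁ (hA₁ hs₁A) hx₁c'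
              (hpos _ (by simp)) (hpos _ (by simp)) hx₁p ?_
            · intro u hu1 hu2
              have hsupp : supp u ⊆ {v, w, z} := by
                intro a ha
                by_contra hc
                exact mem_supp.1 ha (hu2 a hc)
              rw [sum_of_supp hsupp, sum_triple hvw hvz hwz] at hu1
              have hu : u = u w • (vtx w - vtx v) + u z • (vtx z - vtx v) := by
                funext a
                by_cases h4 : a = v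
                · subst h4
                  simp [vtx, hvw, hvz]; linarith
                · by_cases h5 : a = w
                  · subst h5
                    simp [vtx, hwz, h4]
                  · by_cases h6 : a = z
                    · subst h6
                      simp [vtx, h4, h5]
                    · rw [hu2 a (by simp [h4, h5, h6])]
                      simp [vtx, h4, h5, h6]
              rw [hu, map_add, map_smul, map_smul, hD, hD', smul_zero, smul_zero, add_zero]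
            · -- the edge lies in the triangle near the point
              have hseg : seg v₁ w₁ (x₁ w₁) = x₁ := (eq_seg hvw₁ hx₁c').symm
              obtain ⟨O', hO', hO'U⟩ := nbhd_image T (hAK hx₀) (eventually_supp_subset x₀)
              rw [← hx₁p] at hO'
              obtain ⟨U₁, hU₁, hU₁O⟩ := nbhd_preimage T₁ (hAK₁ hx₁) hO'
              have hsegc : Tendsto (seg v₁ w₁) (𝓝 (x₁ w₁)) (𝓝 x₁) := by
                have := (continuous_seg v₁ w₁).tendsto (x₁ w₁)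
                rwa [hseg] at this
              have hsum := hx₁c'.2.1
              rw [sum_of_supp hx₁c'.2.2, Finset.sum_pair hvw₁] at hsum
              have hp1 := hpos v₁ (by simp)
              have hp2 := hpos w₁ (by simp)
              have h3 : ∀ᶠ σ in 𝓝 (x₁ w₁), 0 < σ ∧ σ < 1 := by
                refine (eventually_gt_nhds hp2).and (eventually_lt_nhds ?_)
                linarith
              filter_upwards [h3, hsegc.eventually hU₁] with σ b1 b2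
              have b3 : seg v₁ w₁ σ ∈ A₁.real :=
                cface_subset_real A₁ hs₁A (seg_mem_cface hvw₁ b1.1.le b1.2.le)
              have b4 : T₁.h (seg v₁ w₁ σ) ∈ Z₂ := hsub (by rw [hZ₁]; exact ⟨_, b3, rfl⟩)
              rw [hZ₂] at b4
              obtain ⟨y, hy, hy2⟩ := b4
              refine ⟨y, ?_, hy2⟩
              have b5 : supp x₀ ⊆ supp y := hO'U y (hAK hy) (by
                rw [hy2]; exact hU₁O _ (hAK₁ b3) b2)
              have b6 : supp x₀ = supp y :=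
                Finset.eq_of_subset_of_card_le b5 (by rw [h]; exact hA3 _ hy.2.2)
              exact ⟨hy.1, hy.2.1, by rw [← b6, hs]⟩
          · simp only
            rw [← eq_seg hvw₁ hx₁c', hx₁p]
      · have hperm : ({v, w, z} : Finset T.V) = {v, z, w} := by
          ext a; simp only [Finset.mem_insert, Finset.mem_singleton]; tauto
        rw [hperm] at hs hgh
        exact case_three T hA hA3 hφ hB hvz hvw hwz.symm hx₀ hs hg hgh hD' hO
    · exact case_three T hA hA3 hφ hB hvw hvz hwz hx₀ hs hg hgh hD hO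

end SepFil
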