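import Pool.Agent.SepFil.Defs

/-!
# Areas of Lipschitz images and of small triangles

(module AREA of the blueprint)
-/

open Set MeasureTheory Manifold Bundle Filter Topology
open scoped ContDiff ENNReal NNReal

namespace SepFil

lemma area_eq_hausdorffMeasure {X : Type*} [EMetricSpace X] [m : MeasurableSpace X]
    [b : BorelSpace X] (i : ℕ) (Z : Set X) : area i Z = Measure.hausdorffMeasure (i : ℝ) Z := by
  obtain ⟨hm⟩ := b
  subst hm
  rfl

/-- Areas of Lipschitz images. -/
theorem area_image_le {X Y : Type*} [EMetricSpace X] [EMetricSpace Y] (i : ℕ) {C : ℝ≥0}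
    {f : X → Y} {s : Set X} (hf : LipschitzOnWith C f s) :
    area i (f '' s) ≤ (C : ℝ≥0∞) ^ i * area i s := by
  let _ : MeasurableSpace X := borel X
  have _ : BorelSpace X := ⟨rfl⟩
  let _ : MeasurableSpace Y := borel Y
  have _ : BorelSpace Y := ⟨rfl⟩
  rw [area_eq_hausdorffMeasure, area_eq_hausdorffMeasure]
  have h := hf.hausdorffMeasure_image_le (d := (i : ℝ)) (Nat.cast_nonneg i)
  rwa [ENNReal.rpow_natCast] at h

/-- The area of a triangle two sides of which are at most `α` and `β` is at most `4 α β`. -/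
theorem area_convexHull_le {E : Type*} [NormedAddCommGroup E] [NormedSpace ℝ E] (p q r : E)
    {α β : ℝ} (hα : 0 < α) (hβ : 0 < β) (hq : dist p q ≤ α) (hr : dist p r ≤ β) :
    area 2 (convexHull ℝ {p, q, r}) ≤ ENNReal.ofReal (4 * α * β) := by
  set f : (Fin 2 → ℝ) → E := fun x => p + (x 0 / α) • (q - p) + (x 1 / β) • (r - p) with hf
  have hlip : LipschitzWith 2 f := by
    refine LipschitzWith.of_dist_le_mul fun x y => ?_
    have e1 : f x - f y = ((x 0 - y 0) / α) • (q - p) + ((x 1 - y 1) / β) • (r - p) := by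
      rw [hf]
      simp only [sub_div]
      module
    rw [dist_eq_norm, e1]
    have h0 : |x 0 - y 0| ≤ dist x y := by
      rw [← Real.dist_eq]; exact dist_le_pi_dist x y 0
    have h1 : |x 1 - y 1| ≤ dist x y := by
      rw [← Real.dist_eq]; exact dist_le_pi_dist x y 1
    have hq' : ‖q - p‖ ≤ α := by rw [← dist_eq_norm, dist_comm]; exact hq
    have hr' : ‖r - p‖ ≤ β := by rw [← dist_eq_norm, dist_comm]; exact hr
    have t0 : ‖((x 0 - y 0) / α) • (q - p)‖ ≤ dist x y := by
      rw [norm_smul, Real.norm_eq_abs, abs_div, abs_of_pos hα, div_mul_eq_mul_div, div_le_iff₀ hα]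
      exact mul_le_mul h0 hq' (norm_nonneg _) dist_nonneg
    have t1 : ‖((x 1 - y 1) / β) • (r - p)‖ ≤ dist x y := by
      rw [norm_smul, Real.norm_eq_abs, abs_div, abs_of_pos hβ, div_mul_eq_mul_div, div_le_iff₀ hβ]
      exact mul_le_mul h1 hr' (norm_nonneg _) dist_nonneg
    refine (norm_add_le _ _).trans ?_
    have h2 : ((2 : ℝ≥0) : ℝ) = 2 := rfl
    rw [h2]
    linarith
  set b : Fin 2 → ℝ := ![α, β] with hb
  have hsub : convexHull ℝ {p, q, r} ⊆ f '' (Icc 0 b) := by
    have hconv : Convex ℝ (f '' (Icc 0 b)) := by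
      rintro _ ⟨x, hx, rfl⟩ _ ⟨y, hy, rfl⟩ s t hs ht hst
      refine ⟨s • x + t • y, convex_Icc _ _ hx hy hs ht hst, ?_⟩
      rw [hf]
      simp only [Pi.add_apply, Pi.smul_apply, smul_eq_mul]
      have e : p = s • p + t • p := by rw [← add_smul, hst, one_smul]
      rw [add_div, mul_div_assoc, mul_div_assoc, add_div, mul_div_assoc, mul_div_assoc]
      calc p + (s * (x 0 / α) + t * (y 0 / α)) • (q - p) + (s * (x 1 / β) + t * (y 1 / β)) • (r - p)
          = (s • p + t • p) + (s * (x 0 / α) + t * (y 0 / α)) • (q - p) +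
            (s * (x 1 / β) + t * (y 1 / β)) • (r - p) := by rw [← e]
        _ = s • (p + (x 0 / α) • (q - p) + (x 1 / β) • (r - p)) +
            t • (p + (y 0 / α) • (q - p) + (y 1 / β) • (r - p)) := by module
    refine convexHull_min ?_ hconv
    rintro z hz
    simp only [Set.mem_insert_iff, Set.mem_singleton_iff] at hz
    rcases hz with rfl | rfl | rfl
    · refine ⟨0, ⟨le_rfl, ?_⟩, by simp [hf]⟩
      intro i; fin_cases i <;> simp [hb, hα.le, hβ.le]
    · refine ⟨![α, 0], ⟨?_, ?_⟩, ?_⟩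
      · intro i; fin_cases i <;> simp [hα.le]
      · intro i; fin_cases i <;> simp [hb, hβ.le]
      · simp [hf, div_self hα.ne']
    · refine ⟨![0, β], ⟨?_, ?_⟩, ?_⟩
      · intro i; fin_cases i <;> simp [hβ.le]
      · intro i; fin_cases i <;> simp [hb, hα.le]
      · simp [hf, div_self hβ.ne']
  have h1 : area 2 (convexHull ℝ {p, q, r}) ≤ area 2 (f '' (Icc 0 b)) := by
    let _ : MeasurableSpace E := borel E
    have _ : BorelSpace E := ⟨rfl⟩
    rw [area_eq_hausdorffMeasure, area_eq_hausdorffMeasure]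
    exact measure_mono hsub
  refine h1.trans ((area_image_le 2 hlip.lipschitzOnWith).trans ?_)
  have h2 : area 2 (Icc 0 b) = ENNReal.ofReal (α * β) := by
    rw [area_eq_hausdorffMeasure]
    have h3 := hausdorffMeasure_pi_real (ι := Fin 2)
    rw [Fintype.card_fin] at h3
    rw [h3, Real.volume_Icc_pi, Fin.prod_univ_two]
    simp only [hb, Pi.zero_apply, sub_zero, Matrix.cons_val_zero, Matrix.cons_val_one]
    rw [← ENNReal.ofReal_mul hα.le]
  rw [h2]
  have h4 : ((2 : ℝ≥0) : ℝ≥0∞) ^ 2 = ENNReal.ofReal 4 := by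
    rw [show (4 : ℝ) = ((4 : ℕ) : ℝ) by norm_num, ENNReal.ofReal_natCast]
    norm_num
  rw [h4, ← ENNReal.ofReal_mul (by norm_num), mul_assoc]

end SepFil
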