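import Pool.Agent.SepFil.Surf

/-!
# The covering of the realisation of a complex defined by a cocycle

(module TWIST of the blueprint)
-/

open Set Filter Topology
open scoped ENNReal

namespace SepFil

section

variable {V : Type} [Fintype V] [DecidableEq V] {D : Type} [AddCommGroup D]

/-- A symmetric 1-cocycle (with `2 D = 0` in mind) on the complex `K` with values in `D`. -/
structure IsTwist (K : ASC V) (γ : V → V → D) : Prop where
  diag : ∀ v, γ v v = 0
  symm : ∀ v w, γ v w = γ w v
  cocyc : ∀ s ∈ K.faces, ∀ u ∈ s, ∀ v ∈ s, ∀ w ∈ s, γ u v + γ v w = γ u w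

/-- The complex with vertices `V × D` covering `K`. -/
def twist [DecidableEq D] (K : ASC V) (γ : V → V → D) : ASC (V × D) where
  faces := {s | s.Nonempty ∧ s.image Prod.fst ∈ K.faces ∧
    ∀ x ∈ s, ∀ y ∈ s, y.2 = x.2 + γ x.1 y.1}
  nonempty_of_mem := fun _ hs => hs.1
  down_closed := by
    rintro s ⟨-, h1, h2⟩ t hts ht
    exact ⟨ht, K.down_closed _ h1 _ (Finset.image_subset_image hts) (ht.image _),
      fun x hx y hy => h2 x (hts hx) y (hts hy)⟩

variable [Fintype D] [DecidableEq D]

/-- The projection of the realisations. -/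
def twistProj (x : V × D → ℝ) : V → ℝ := fun v => ∑ d, x (v, d)

variable {K : ASC V} {γ : V → V → D}

lemma twistProj_nonneg {x : V × D → ℝ} (hx : ∀ p, 0 ≤ x p) (v : V) : 0 ≤ twistProj x v :=
  Finset.sum_nonneg fun d _ => hx (v, d)

lemma supp_twistProj {x : V × D → ℝ} (hx : ∀ p, 0 ≤ x p) :
    supp (twistProj x) = (supp x).image Prod.fst := by
  ext v
  rw [mem_supp, Finset.mem_image]
  constructor
  · intro h
    by_contra hcon
    push Not at hcon
    apply h
    apply Finset.sum_eq_zero
    intro d _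
    by_contra hd
    exact hcon (v, d) (mem_supp.2 hd) rfl
  · rintro ⟨p, hp, rfl⟩
    rw [mem_supp] at hp
    have h1 : x p ≤ twistProj x p.1 :=
      Finset.single_le_sum (f := fun d => x (p.1, d)) (fun d _ => hx (p.1, d)) (Finset.mem_univ p.2)
    have h2 : 0 < x p := lt_of_le_of_ne (hx p) (Ne.symm hp)
    linarith

lemma sum_twistProj (x : V × D → ℝ) : ∑ v, twistProj x v = ∑ p, x p := by
  unfold twistProj
  rw [Fintype.sum_prod_type]

lemma twistProj_mem (hγ : IsTwist K γ) {x : V × D → ℝ} (hx : x ∈ (twist K γ).real) :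
    twistProj x ∈ K.real := by
  obtain ⟨h1, h2, h3⟩ := hx
  refine ⟨twistProj_nonneg h1, by rw [sum_twistProj, h2], ?_⟩
  rw [supp_twistProj h1]
  exact h3.2.1

/-- The projection as a map between the realisations. -/
def twistMap (hγ : IsTwist K γ) : (twist K γ).real → K.real :=
  fun x => ⟨twistProj x.1, twistProj_mem hγ x.2⟩

/-- The lift through the vertex `(v, d)`. -/
def twistRaw (γ : V → V → D) (v : V) (d : D) (y : V → ℝ) : V × D → ℝ :=
  fun p => if p.2 = d + γ v p.1 then y p.1 else 0

lemma twistProj_raw (v : V) (d : D) (y : V → ℝ) : twistProj (twistRaw γ v d y) = y := by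
  funext w
  unfold twistProj twistRaw
  simp

lemma continuous_twistProj : Continuous (twistProj : (V × D → ℝ) → V → ℝ) := by
  apply continuous_pi
  intro v
  unfold twistProj
  fun_prop

lemma continuous_twistRaw (v : V) (d : D) : Continuous (twistRaw γ v d) := by
  apply continuous_pi
  intro p
  unfold twistRaw
  split_ifs
  · fun_prop
  · fun_prop

lemma twistRaw_mem (hγ : IsTwist K γ) {t : Finset V} (ht : t ∈ K.faces) {v : V} (hv : v ∈ t)
    (d : D) {y : V → ℝ} (hy : y ∈ K.real) (hyt : supp y ⊆ t) :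
    twistRaw γ v d y ∈ (twist K γ).real := by
  obtain ⟨h1, h2, h3⟩ := hy
  have hn : ∀ p, 0 ≤ twistRaw γ v d y p := by
    intro p
    unfold twistRaw
    split_ifs
    · exact h1 _
    · exact le_rfl
  have hs : ∑ p, twistRaw γ v d y p = 1 := by
    rw [← sum_twistProj, twistProj_raw, h2]
  refine ⟨hn, hs, supp_nonempty_of_sum hs, ?_, ?_⟩
  · rw [← supp_twistProj hn, twistProj_raw]
    exact h3
  · have hp : ∀ p ∈ supp (twistRaw γ v d y), p.1 ∈ t ∧ p.2 = d + γ v p.1 := by
      intro p hp
      rw [mem_supp] at hp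
      unfold twistRaw at hp
      split_ifs at hp with h
      · exact ⟨hyt (mem_supp.2 hp), h⟩
      · exact absurd rfl hp
    intro x hx y hy
    obtain ⟨hx1, hx2⟩ := hp x hx
    obtain ⟨hy1, hy2⟩ := hp y hy
    rw [hx2, hy2, add_assoc, hγ.cocyc t ht v hv x.1 hx1 y.1 hy1]

lemma twistRaw_proj (hγ : IsTwist K γ) {x : V × D → ℝ} (hx : x ∈ (twist K γ).real) {v : V} {d : D}
    (h : x (v, d) ≠ 0) : twistRaw γ v d (twistProj x) = x := by
  have hz : ∀ w e, e ≠ d + γ v w → x (w, e) = 0 := by
    intro w e hne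
    by_contra h0
    exact hne (hx.2.2.2.2 (v, d) (mem_supp.2 h) (w, e) (mem_supp.2 h0))
  funext p
  obtain ⟨w, e⟩ := p
  unfold twistRaw twistProj
  simp only
  split_ifs with he
  · rw [he]
    apply Finset.sum_eq_single_of_mem _ (Finset.mem_univ _)
    intro e' _ he'
    exact hz w e' he'
  · exact (hz w e he).symm

lemma twistRaw_self (hγ : IsTwist K γ) (v : V) (d : D) (y : V → ℝ) :
    twistRaw γ v d y (v, d) = y v := by
  unfold twistRaw
  simp [hγ.diag v]

lemma continuous_twistMap (hγ : IsTwist K γ) : Continuous (twistMap hγ) :=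
  Continuous.subtype_mk (continuous_twistProj.comp continuous_subtype_val) _

open Classical in
/-- The local inverse of the projection through the vertex `(v, d)`. -/
noncomputable def twistInv (hγ : IsTwist K γ) (v : V) (d : D) (x0 : (twist K γ).real)
    (y : K.real) : (twist K γ).real :=
  if h : y.1 v ≠ 0 then
    ⟨twistRaw γ v d y.1, twistRaw_mem hγ y.2.2.2 (mem_supp.2 h) d y.2 (Finset.Subset.refl _)⟩
  else x0

lemma twistInv_val (hγ : IsTwist K γ) (v : V) (d : D) (x0 : (twist K γ).real)
    {y : K.real} (h : y.1 v ≠ 0) :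
    (twistInv hγ v d x0 y : V × D → ℝ) = twistRaw γ v d y.1 := by
  unfold twistInv
  rw [dif_pos h]

/-- The projection is a homeomorphism from the open star of `(v, d)` to the open star of `v`. -/
noncomputable def twistLoc (hγ : IsTwist K γ) (v : V) (d : D) (x0 : (twist K γ).real) :
    OpenPartialHomeomorph (twist K γ).real K.real where
  toFun := twistMap hγ
  invFun := twistInv hγ v d x0
  source := {x | x.1 (v, d) ≠ 0}
  target := {y | y.1 v ≠ 0}
  map_source' := by
    intro x hx
    have h1 : v ∈ supp (twistProj x.1) := by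
      rw [supp_twistProj x.2.1, Finset.mem_image]
      exact ⟨(v, d), mem_supp.2 hx, rfl⟩
    exact mem_supp.1 h1
  map_target' := by
    intro y hy
    rw [Set.mem_setOf_eq, twistInv_val hγ v d x0 hy, twistRaw_self hγ]
    exact hy
  left_inv' := by
    intro x hx
    have h1 : (twistMap hγ x).1 v ≠ 0 := by
      have h1 : v ∈ supp (twistProj x.1) := by
        rw [supp_twistProj x.2.1, Finset.mem_image]
        exact ⟨(v, d), mem_supp.2 hx, rfl⟩
      exact mem_supp.1 h1
    apply Subtype.ext
    rw [twistInv_val hγ v d x0 h1]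
    exact twistRaw_proj hγ x.2 hx
  right_inv' := by
    intro y hy
    apply Subtype.ext
    change twistProj (twistInv hγ v d x0 y).1 = y.1
    rw [twistInv_val hγ v d x0 hy, twistProj_raw]
  open_source := by
    have : Continuous (fun x : (twist K γ).real => x.1 (v, d)) :=
      (continuous_apply (v, d)).comp continuous_subtype_val
    exact isOpen_ne.preimage this
  open_target := by
    have : Continuous (fun y : K.real => y.1 v) :=
      (continuous_apply v).comp continuous_subtype_val
    exact isOpen_ne.preimage this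
  continuousOn_toFun := (continuous_twistMap hγ).continuousOn
  continuousOn_invFun := by
    rw [Topology.IsInducing.subtypeVal.continuousOn_iff]
    apply ContinuousOn.congr ((continuous_twistRaw (γ := γ) v d).comp
      continuous_subtype_val).continuousOn
    intro y hy
    exact twistInv_val hγ v d x0 hy

theorem twistMap_isLocalHomeomorph (hγ : IsTwist K γ) : IsLocalHomeomorph (twistMap hγ) := by
  apply IsLocalHomeomorph.mk
  intro x
  obtain ⟨⟨v, d⟩, hp⟩ := supp_nonempty_of_sum x.2.2.1
  exact ⟨twistLoc hγ v d x, mem_supp.1 hp, fun _ _ => rfl⟩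

theorem twistMap_surjective (hγ : IsTwist K γ) : Function.Surjective (twistMap hγ) := by
  intro y
  obtain ⟨v, hv⟩ := supp_nonempty_of_sum y.2.2.1
  refine ⟨⟨twistRaw γ v 0 y.1, twistRaw_mem hγ y.2.2.2 hv 0 y.2 (Finset.Subset.refl _)⟩, ?_⟩
  apply Subtype.ext
  exact twistProj_raw v 0 y.1

/-- The points of the covering over the vertex `v`. -/
theorem exists_of_twistProj_eq_vtx (hγ : IsTwist K γ) {x : V × D → ℝ}
    (hx : x ∈ (twist K γ).real) {v : V} (h : twistProj x = vtx v) :
    ∃ d : D, x = vtx (v, d) := by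
  obtain ⟨⟨w, d⟩, hp⟩ := supp_nonempty_of_sum hx.2.1
  rw [mem_supp] at hp
  have h1 := twistRaw_proj hγ hx hp
  have hwv : w = v := by
    have h2 : w ∈ supp (twistProj x) := by
      rw [supp_twistProj hx.1, Finset.mem_image]
      exact ⟨(w, d), mem_supp.2 hp, rfl⟩
    rw [h, mem_supp] at h2
    by_contra hne
    apply h2
    unfold vtx
    rw [Pi.single_apply, if_neg hne]
  subst hwv
  refine ⟨d, ?_⟩
  rw [← h1, h]
  funext p
  obtain ⟨u, e⟩ := p
  unfold twistRaw vtx
  rw [Pi.single_apply, Pi.single_apply]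
  by_cases hu : u = w
  · subst hu
    simp [hγ.diag]
  · have : ¬ (u, e) = (w, d) := fun h => hu (Prod.ext_iff.1 h).1
    simp [hu, this]

/-- The value `d` of a section at the vertex `v`. -/
noncomputable def valAt (s : K.real → (twist K γ).real) (v : V) (hv : vtx v ∈ K.real) : D :=
  open Classical in
  if h : ∃ d : D, (s ⟨vtx v, hv⟩ : V × D → ℝ) = vtx (v, d) then h.choose else 0

lemma valAt_spec (hγ : IsTwist K γ) {s : K.real → (twist K γ).real} {v : V}
    (hv : vtx v ∈ K.real) (h : twistMap hγ (s ⟨vtx v, hv⟩) = ⟨vtx v, hv⟩) :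
    (s ⟨vtx v, hv⟩ : V × D → ℝ) = vtx (v, valAt s v hv) := by
  have h1 : ∃ d : D, (s ⟨vtx v, hv⟩ : V × D → ℝ) = vtx (v, d) :=
    exists_of_twistProj_eq_vtx hγ (s ⟨vtx v, hv⟩).2 (congrArg Subtype.val h)
  unfold valAt
  rw [dif_pos h1]
  exact h1.choose_spec

omit [Fintype V] [Fintype D] [AddCommGroup D] in
lemma vtx_injective {p q : V × D} (h : vtx p = vtx q) : p = q := by
  by_contra hne
  have h1 := congrFun h p
  unfold vtx at h1
  rw [Pi.single_eq_same, Pi.single_apply, if_neg hne] at h1
  exact one_ne_zero h1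

omit [Fintype V] [Fintype D] in
lemma twistRaw_vtx (v w : V) (d : D) :
    twistRaw γ v d (vtx w) = vtx (w, d + γ v w) := by
  funext p
  obtain ⟨u, e⟩ := p
  unfold twistRaw vtx
  rw [Pi.single_apply, Pi.single_apply]
  by_cases hu : u = w
  · subst hu
    simp
  · have : ¬ (u, e) = (w, d + γ v w) := fun h => hu (Prod.ext_iff.1 h).1
    simp [hu, this]

/-- The preimage of a closed face in the realisation is preconnected. -/
lemma isPreconnected_cface {t : Finset V} (ht : t ∈ K.faces) :
    IsPreconnected {y : K.real | (y : V → ℝ) ∈ cface t} := by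
  rw [← Topology.IsInducing.subtypeVal.isPreconnected_image]
  have h : (Subtype.val '' {y : K.real | (y : V → ℝ) ∈ cface t}) = cface t := by
    ext y
    constructor
    · rintro ⟨z, hz, rfl⟩
      exact hz
    · intro hy
      exact ⟨⟨y, cface_subset_real K ht hy⟩, hy, rfl⟩
  rw [h]
  exact (convex_cface t).isPreconnected

/-- Two sections over a preconnected set agreeing at a point agree. -/
lemma twist_eqOn (hγ : IsTwist K γ) {A : Set K.real} (hA : IsPreconnected A)
    {s s' : K.real → (twist K γ).real} (hs : ContinuousOn s A) (hs' : ContinuousOn s' A)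
    (h1 : ∀ y ∈ A, twistMap hγ (s y) = y) (h2 : ∀ y ∈ A, twistMap hγ (s' y) = y)
    {y : K.real} (hy : y ∈ A) (h : s y = s' y) : EqOn s s' A := by
  apply IsSeparatedMap.eqOn_of_comp_eqOn (T2Space.isSeparatedMap (twistMap hγ))
    (twistMap_isLocalHomeomorph hγ).isLocallyInjective hA hs hs' _ hy h
  intro z hz
  simp only [Function.comp]
  rw [h1 z hz, h2 z hz]

/-- Values at the vertices of a closed face of a section which is continuous on it. -/
theorem valAt_add (hγ : IsTwist K γ) {t : Finset V} (ht : t ∈ K.faces)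
    {s : K.real → (twist K γ).real} {W : Set K.real}
    (hW : ∀ y : K.real, (y : V → ℝ) ∈ cface t → y ∈ W)
    (hs : ContinuousOn s W) (hsec : ∀ y ∈ W, twistMap hγ (s y) = y)
    {v w : V} (hv : v ∈ t) (hw : w ∈ t) (hv' : vtx v ∈ K.real) (hw' : vtx w ∈ K.real) :
    valAt s w hw' = valAt s v hv' + γ v w := by
  classical
  have hvt : (⟨vtx v, hv'⟩ : K.real) ∈ {y : K.real | (y : V → ℝ) ∈ cface t} := vtx_mem_cface hv
  have hwt : (⟨vtx w, hw'⟩ : K.real) ∈ {y : K.real | (y : V → ℝ) ∈ cface t} := vtx_mem_cface hw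
  have h1 := valAt_spec hγ hv' (hsec _ (hW _ hvt))
  have h2 := valAt_spec hγ hw' (hsec _ (hW _ hwt))
  set d := valAt s v hv' with hd
  let s' : K.real → (twist K γ).real := fun y =>
    if h : (y : V → ℝ) ∈ cface t then ⟨twistRaw γ v d y.1, twistRaw_mem hγ ht hv d y.2 h.2.2⟩
    else s ⟨vtx v, hv'⟩
  have hs'v : ∀ y : K.real, (y : V → ℝ) ∈ cface t → (s' y : V × D → ℝ) = twistRaw γ v d y.1 := by
    intro y hy
    simp only [s']
    rw [dif_pos hy]
  have hcont : ContinuousOn s' {y : K.real | (y : V → ℝ) ∈ cface t} := by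
    rw [Topology.IsInducing.subtypeVal.continuousOn_iff]
    apply ContinuousOn.congr ((continuous_twistRaw (γ := γ) v d).comp
      continuous_subtype_val).continuousOn
    intro y hy
    exact hs'v y hy
  have heq := twist_eqOn hγ (isPreconnected_cface ht) (hs.mono (fun y hy => hW y hy)) hcont
    (fun y hy => hsec y (hW y hy)) (by
      intro y hy
      apply Subtype.ext
      change twistProj (s' y).1 = y.1
      rw [hs'v y hy, twistProj_raw]) hvt (by
      apply Subtype.ext
      rw [h1, hs'v _ hvt, twistRaw_vtx, hγ.diag, add_zero])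
  have h3 := heq hwt
  have h4 : (s ⟨vtx w, hw'⟩ : V × D → ℝ) = vtx (w, d + γ v w) := by
    rw [h3, hs'v _ hwt, twistRaw_vtx]
  rw [h2] at h4
  exact (Prod.ext_iff.1 (vtx_injective h4)).2

/-- Translation by an element of `D`. -/
def shift (d : D) (x : V × D → ℝ) : V × D → ℝ := fun p => x (p.1, p.2 - d)

lemma twistProj_shift (d : D) (x : V × D → ℝ) : twistProj (shift d x) = twistProj x := by
  funext v
  unfold twistProj shift
  exact Fintype.sum_equiv (Equiv.subRight d) _ _ (fun _ => rfl)

lemma shift_mem (hγ : IsTwist K γ) (d : D) {x : V × D → ℝ} (hx : x ∈ (twist K γ).real) :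
    shift d x ∈ (twist K γ).real := by
  obtain ⟨h1, h2, h3⟩ := hx
  have hn : ∀ p, 0 ≤ shift d x p := fun p => h1 _
  have hs : ∑ p, shift d x p = 1 := by rw [← sum_twistProj, twistProj_shift, sum_twistProj, h2]
  refine ⟨hn, hs, supp_nonempty_of_sum hs, ?_, ?_⟩
  · rw [← supp_twistProj hn, twistProj_shift, supp_twistProj h1]
    exact h3.2.1
  · intro p hp q hq
    rw [mem_supp] at hp hq
    have hp' : ((p.1, p.2 - d) : V × D) ∈ supp x := mem_supp.2 hp
    have hq' : ((q.1, q.2 - d) : V × D) ∈ supp x := mem_supp.2 hq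
    have h4 := h3.2.2 _ hp' _ hq'
    simp only at h4
    have h5 : q.2 = (q.2 - d) + d := by abel
    rw [h5, h4]
    abel

lemma continuous_shift (d : D) : Continuous (shift d : (V × D → ℝ) → V × D → ℝ) := by
  apply continuous_pi
  intro p
  unfold shift
  fun_prop

/-- Two sections over a preconnected set differ by a translation. -/
theorem exists_shift (hγ : IsTwist K γ) {A : Set K.real} (hA : IsPreconnected A)
    {s s' : K.real → (twist K γ).real} (hs : ContinuousOn s A) (hs' : ContinuousOn s' A)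
    (h1 : ∀ y ∈ A, twistMap hγ (s y) = y) (h2 : ∀ y ∈ A, twistMap hγ (s' y) = y) :
    ∃ d : D, ∀ y ∈ A, (s' y : V × D → ℝ) = shift d (s y) := by
  rcases A.eq_empty_or_nonempty with hem | ⟨y0, hy0⟩
  · exact ⟨0, fun y hy => by rw [hem] at hy; exact absurd hy (Set.notMem_empty y)⟩
  obtain ⟨v, hv⟩ := supp_nonempty_of_sum y0.2.2.1
  have hex : ∀ x : (twist K γ).real, twistMap hγ x = y0 →
      ∃ e : D, (x : V × D → ℝ) (v, e) ≠ 0 := by
    intro x hx
    have h3 : v ∈ supp (twistProj x.1) := by
      have : twistProj x.1 = y0.1 := congrArg Subtype.val hx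
      rw [this]
      exact hv
    rw [supp_twistProj x.2.1, Finset.mem_image] at h3
    obtain ⟨p, hp, hpv⟩ := h3
    refine ⟨p.2, ?_⟩
    rw [← hpv]
    exact mem_supp.1 hp
  obtain ⟨e, he⟩ := hex (s y0) (h1 y0 hy0)
  obtain ⟨e', he'⟩ := hex (s' y0) (h2 y0 hy0)
  refine ⟨e' - e, ?_⟩
  let s1 : K.real → (twist K γ).real := fun y => ⟨shift (e' - e) (s y), shift_mem hγ _ (s y).2⟩
  have hs1 : ContinuousOn s1 A := by
    rw [Topology.IsInducing.subtypeVal.continuousOn_iff]
    exact ((continuous_shift (V := V) (e' - e)).comp continuous_subtype_val).comp_continuousOn hs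
  have h4 : ∀ y ∈ A, twistMap hγ (s1 y) = y := by
    intro y hy
    apply Subtype.ext
    change twistProj (shift (e' - e) (s y)) = y.1
    rw [twistProj_shift]
    exact congrArg Subtype.val (h1 y hy)
  have h5 : s1 y0 = s' y0 := by
    apply Subtype.ext
    have h6 : (s1 y0 : V × D → ℝ) (v, e') ≠ 0 := by
      change (s y0 : V × D → ℝ) (v, e' - (e' - e)) ≠ 0
      have : e' - (e' - e) = e := by abel
      rw [this]
      exact he
    have h7 := twistRaw_proj hγ (s1 y0).2 h6
    have h8 := twistRaw_proj hγ (s' y0).2 he'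
    have h9 : twistProj (s1 y0).1 = y0.1 := congrArg Subtype.val (h4 y0 hy0)
    have h10 : twistProj (s' y0).1 = y0.1 := congrArg Subtype.val (h2 y0 hy0)
    rw [← h7, ← h8, h9, h10]
  intro y hy
  have h11 := twist_eqOn hγ hA hs1 hs' h4 h2 hy0 h5 hy
  exact (congrArg Subtype.val h11).symm

end

end SepFil
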