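import Pool.Agent.SepFil.Surf
import Pool.Agent.SepFil.Twist

/-!
# Linear algebra of cocycles

(module LIN of the blueprint)
-/

open Set Filter Topology
open scoped ENNReal

namespace SepFil

variable {V : Type} [Fintype V] [DecidableEq V]

/-- The space of cocycles supported on the edges. -/
def cocycSpace (K : ASC V) : Submodule (ZMod 2) (Finset V → ZMod 2) where
  carrier := {c | IsCocyc K c ∧ ∀ e, e ∉ K.fk 2 → c e = 0}
  zero_mem' := ⟨fun t _ => by simp, fun e _ => rfl⟩
  add_mem' := by
    rintro a b ⟨ha, ha'⟩ ⟨hb, hb'⟩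
    refine ⟨fun t ht => ?_, fun e he => ?_⟩
    · simp [Finset.sum_add_distrib, ha t ht, hb t ht]
    · simp [ha' e he, hb' e he]
  smul_mem' := by
    rintro r a ⟨ha, ha'⟩
    refine ⟨fun t ht => ?_, fun e he => ?_⟩
    · simp [← Finset.mul_sum, ha t ht]
    · simp [ha' e he]

/-- Fewer than `-χ` linear conditions leave a cocycle which is not a coboundary. -/
theorem exists_cocyc_not_cobound (K : ASC V) {ι : Type} [Fintype ι]
    (hk : (Fintype.card ι : ℤ) < negEuler K) (δ : ι → Module.Dual (ZMod 2) (cocycSpace K)) :
    ∃ c : cocycSpace K, (∀ i, δ i c = 0) ∧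
      ¬ ∃ f : V → ZMod 2, ∀ e ∈ K.fk 2, (c : Finset V → ZMod 2) e = ∑ v ∈ e, f v := by
  classical
  by_contra hcon
  push Not at hcon
  -- the dimension of the space of cocycles
  let ext : ({e // e ∈ K.fk 2} → ZMod 2) →ₗ[ZMod 2] (Finset V → ZMod 2) :=
    { toFun := fun x e => if h : e ∈ K.fk 2 then x ⟨e, h⟩ else 0
      map_add' := by
        intro x y
        funext e
        rw [Pi.add_apply]
        split_ifs
        · rfl
        · simp
      map_smul' := by
        intro r x
        funext e
        rw [Pi.smul_apply, RingHom.id_apply]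
        split_ifs
        · rfl
        · simp }
  let D : ({e // e ∈ K.fk 2} → ZMod 2) →ₗ[ZMod 2] ({t // t ∈ K.fk 3} → ZMod 2) :=
    { toFun := fun x t => ∑ e ∈ (K.fk 2).filter (fun e => e ⊆ t.1), ext x e
      map_add' := by
        intro x y
        funext t
        simp only [map_add, Pi.add_apply, Finset.sum_add_distrib]
      map_smul' := by
        intro r x
        funext t
        simp only [map_smul, Pi.smul_apply, smul_eq_mul, Finset.mul_sum, RingHom.id_apply] }
  have hext : ∀ x, ∀ e, (h : e ∈ K.fk 2) → ext x e = x ⟨e, h⟩ := by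
    intro x e h
    change (if h : e ∈ K.fk 2 then x ⟨e, h⟩ else 0) = _
    rw [dif_pos h]
  have hext' : ∀ x, ∀ e, e ∉ K.fk 2 → ext x e = 0 := by
    intro x e h
    change (if h : e ∈ K.fk 2 then x ⟨e, h⟩ else 0) = _
    rw [dif_neg h]
  let j : LinearMap.ker D →ₗ[ZMod 2] cocycSpace K :=
    LinearMap.codRestrict (cocycSpace K) (ext.comp (LinearMap.ker D).subtype) (by
      intro x
      refine ⟨fun t ht => ?_, fun e he => hext' _ e he⟩
      have h1 := x.2
      rw [LinearMap.mem_ker] at h1
      exact congrFun h1 ⟨t, ht⟩)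
  have hj : Function.Injective j := by
    intro x y hxy
    have h1 : ext x.1 = ext y.1 := congrArg Subtype.val hxy
    apply Subtype.ext
    funext e
    rw [← hext x.1 e.1 e.2, ← hext y.1 e.1 e.2, h1]
  have d1 := LinearMap.finrank_le_finrank_of_injective hj
  have d2 := LinearMap.finrank_range_add_finrank_ker D
  have d3 : Module.finrank (ZMod 2) (LinearMap.range D) ≤ (K.fk 3).card := by
    refine (Submodule.finrank_le _).trans ?_
    rw [Module.finrank_fintype_fun_eq_card, Fintype.card_coe]
  rw [Module.finrank_fintype_fun_eq_card, Fintype.card_coe] at d2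
  -- the conditions
  let P : cocycSpace K →ₗ[ZMod 2] (ι → ZMod 2) := LinearMap.pi δ
  have d4 := LinearMap.finrank_range_add_finrank_ker P
  have d5 : Module.finrank (ZMod 2) (LinearMap.range P) ≤ Fintype.card ι := by
    refine (Submodule.finrank_le _).trans ?_
    rw [Module.finrank_fintype_fun_eq_card]
  -- the coboundaries
  let B : ({s // s ∈ K.fk 1} → ZMod 2) →ₗ[ZMod 2] (Finset V → ZMod 2) :=
    { toFun := fun x e => if e ∈ K.fk 2 then
        ∑ v ∈ e, (if h : ({v} : Finset V) ∈ K.fk 1 then x ⟨{v}, h⟩ else 0) else 0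
      map_add' := by
        intro x y
        funext e
        rw [Pi.add_apply]
        by_cases he : e ∈ K.fk 2
        · rw [if_pos he, if_pos he, if_pos he, ← Finset.sum_add_distrib]
          apply Finset.sum_congr rfl
          intro v _
          split_ifs
          · rfl
          · simp
        · rw [if_neg he, if_neg he, if_neg he, add_zero]
      map_smul' := by
        intro r x
        funext e
        rw [Pi.smul_apply, RingHom.id_apply, smul_eq_mul]
        by_cases he : e ∈ K.fk 2
        · rw [if_pos he, if_pos he, Finset.mul_sum]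
          apply Finset.sum_congr rfl
          intro v _
          split_ifs
          · rfl
          · simp
        · rw [if_neg he, if_neg he, mul_zero] }
  have hB : ∀ c : LinearMap.ker P, ((c : cocycSpace K) : Finset V → ZMod 2) ∈ LinearMap.range B := by
    intro c
    have h1 := c.2
    rw [LinearMap.mem_ker] at h1
    obtain ⟨f, hf⟩ := hcon c.1 (fun i => congrFun h1 i)
    refine ⟨fun s => ∑ v ∈ s.1, f v, ?_⟩
    funext e
    change (if e ∈ K.fk 2 then ∑ v ∈ e, (if h : ({v} : Finset V) ∈ K.fk 1 then
      ∑ w ∈ ({v} : Finset V), f w else 0) else 0) = _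
    by_cases he : e ∈ K.fk 2
    · rw [if_pos he, hf e he]
      apply Finset.sum_congr rfl
      intro v hv
      have h2 : ({v} : Finset V) ∈ K.fk 1 := by
        rw [ASC.mem_fk]
        exact ⟨K.down_closed e ((ASC.mem_fk).mp he).1 {v} (Finset.singleton_subset_iff.mpr hv)
          (Finset.singleton_nonempty v), Finset.card_singleton v⟩
      rw [dif_pos h2, Finset.sum_singleton]
    · rw [if_neg he]
      exact (c.1.2.2 e he).symm
  let j' : LinearMap.ker P →ₗ[ZMod 2] LinearMap.range B :=
    LinearMap.codRestrict (LinearMap.range B)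
      ((cocycSpace K).subtype.comp (LinearMap.ker P).subtype) hB
  have hj' : Function.Injective j' := by
    intro x y hxy
    have h1 : ((x.1 : cocycSpace K) : Finset V → ZMod 2) = y.1.1 :=
      congrArg (fun z : LinearMap.range B => (z : Finset V → ZMod 2)) hxy
    exact Subtype.ext (Subtype.ext h1)
  have d6 := LinearMap.finrank_le_finrank_of_injective hj'
  have d7 : Module.finrank (ZMod 2) (LinearMap.range B) ≤ (K.fk 1).card := by
    refine (LinearMap.finrank_range_le B).trans ?_
    rw [Module.finrank_fintype_fun_eq_card, Fintype.card_coe]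
  unfold negEuler at hk
  omega

/-- The tautological cocycle with values in the dual of the space of cocycles. -/
noncomputable def dualTwist (K : ASC V) (v w : V) : Module.Dual (ZMod 2) (cocycSpace K) :=
  if v = w then 0 else
    (LinearMap.proj (R := ZMod 2) (φ := fun _ : Finset V => ZMod 2) {v, w}).comp
      (cocycSpace K).subtype

lemma dualTwist_apply (K : ASC V) {v w : V} (h : v ≠ w) (c : cocycSpace K) :
    dualTwist K v w c = (c : Finset V → ZMod 2) {v, w} := by
  simp [dualTwist, h]

lemma two_dual (K : ASC V) (x : Module.Dual (ZMod 2) (cocycSpace K)) : x + x = 0 := by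
  ext c
  rw [LinearMap.add_apply, LinearMap.zero_apply, CharTwo.add_self_eq_zero]

theorem isTwist_dualTwist (K : ASC V) : IsTwist K (dualTwist K) := by
  have hsymm : ∀ v w, dualTwist K v w = dualTwist K w v := by
    intro v w
    by_cases h : v = w
    · rw [h]
    · ext c
      rw [dualTwist_apply K h, dualTwist_apply K (fun h' => h h'.symm), Finset.pair_comm]
  have hdiag : ∀ v, dualTwist K v v = 0 := fun v => by simp [dualTwist]
  refine ⟨hdiag, hsymm, ?_⟩
  intro s hs u hu v hv w hw
  by_cases huv : u = v
  · rw [huv, hdiag, zero_add]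
  by_cases hvw : v = w
  · rw [← hvw, hdiag, add_zero]
  by_cases huw : u = w
  · rw [huw, hdiag, hsymm v w, two_dual]
  ext c
  rw [LinearMap.add_apply, dualTwist_apply K huv, dualTwist_apply K hvw, dualTwist_apply K huw]
  have ht : ({u, v, w} : Finset V) ∈ K.fk 3 := by
    rw [ASC.mem_fk]
    refine ⟨K.down_closed s hs _ ?_ ⟨u, by simp⟩, Finset.card_eq_three.mpr
      ⟨u, v, w, huv, huw, hvw, rfl⟩⟩
    intro z hz
    simp only [Finset.mem_insert, Finset.mem_singleton] at hz
    rcases hz with h | h | h <;> rw [h] <;> assumption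
  have h1 := c.2.1 _ ht
  rw [surf_sum_edges ht] at h1
  rw [Finset.sum_insert (by simp [huv, huw]), Finset.sum_pair hvw] at h1
  have e1 : ({u, v, w} : Finset V).erase u = {v, w} := by
    ext z
    simp only [Finset.mem_erase, Finset.mem_insert, Finset.mem_singleton]
    constructor
    · rintro ⟨h1, h2 | h2 | h2⟩
      · exact absurd h2 h1
      · exact Or.inl h2
      · exact Or.inr h2
    · rintro (h2 | h2)
      · exact ⟨fun h => huv (h.symm.trans h2), Or.inr (Or.inl h2)⟩
      · exact ⟨fun h => huw (h.symm.trans h2), Or.inr (Or.inr h2)⟩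
  have e2 : ({u, v, w} : Finset V).erase v = {u, w} := by
    ext z
    simp only [Finset.mem_erase, Finset.mem_insert, Finset.mem_singleton]
    constructor
    · rintro ⟨h1, h2 | h2 | h2⟩
      · exact Or.inl h2
      · exact absurd h2 h1
      · exact Or.inr h2
    · rintro (h2 | h2)
      · exact ⟨fun h => huv (h2.symm.trans h), Or.inl h2⟩
      · exact ⟨fun h => hvw (h.symm.trans h2), Or.inr (Or.inr h2)⟩
  have e3 : ({u, v, w} : Finset V).erase w = {u, v} := by
    ext z
    simp only [Finset.mem_erase, Finset.mem_insert, Finset.mem_singleton]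
    constructor
    · rintro ⟨h1, h2 | h2 | h2⟩
      · exact Or.inl h2
      · exact Or.inr h2
      · exact absurd h2 h1
    · rintro (h2 | h2)
      · exact ⟨fun h => huw (h2.symm.trans h), Or.inl h2⟩
      · exact ⟨fun h => hvw (h2.symm.trans h), Or.inr (Or.inl h2)⟩
  rw [e1, e2, e3] at h1
  have h8 : ∀ x y z : ZMod 2, x + (y + z) = 0 → z + x = y := by decide
  exact h8 _ _ _ h1

end SepFil
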