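import Pool.Agent.SepFil.Defs

/-!
# Finite simplicial complexes: faces, refinements

(module CPX of the blueprint)
-/

open Set Filter Topology
open scoped ENNReal

namespace SepFil

section Basic

variable {V : Type*} [Fintype V]

@[simp] lemma mem_supp {y : V → ℝ} {v : V} : v ∈ supp y ↔ y v ≠ 0 := by
  simp [supp]

lemma supp_nonempty_of_sum {y : V → ℝ} (hy : ∑ v, y v = 1) : (supp y).Nonempty := by
  by_contra h
  rw [Finset.not_nonempty_iff_eq_empty] at h
  have : ∀ v, y v = 0 := by
    intro v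
    by_contra hv
    have : v ∈ supp y := mem_supp.2 hv
    rw [h] at this
    simp at this
  simp [this] at hy

/-- The closed simplex with vertex set `s`. -/
def cface (s : Finset V) : Set (V → ℝ) :=
  {y | (∀ v, 0 ≤ y v) ∧ ∑ v, y v = 1 ∧ supp y ⊆ s}

lemma mem_cface_iff {s : Finset V} {y : V → ℝ} :
    y ∈ cface s ↔ (∀ v, 0 ≤ y v) ∧ ∑ v, y v = 1 ∧ ∀ v ∉ s, y v = 0 := by
  unfold cface
  simp only [mem_ofPred_eq]
  refine and_congr_right fun _ => and_congr_right fun _ => ?_
  constructor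
  · intro h v hv
    by_contra hne
    exact hv (h (mem_supp.2 hne))
  · intro h v hv
    by_contra hne
    exact (mem_supp.1 hv) (h v hne)

lemma convex_cface (s : Finset V) : Convex ℝ (cface s) := by
  intro x hx y hy a b ha hb hab
  rw [mem_cface_iff] at hx hy ⊢
  refine ⟨fun v => ?_, ?_, fun v hv => ?_⟩
  · simp only [Pi.add_apply, Pi.smul_apply, smul_eq_mul]
    have := mul_nonneg ha (hx.1 v)
    have := mul_nonneg hb (hy.1 v)
    linarith
  · simp only [Pi.add_apply, Pi.smul_apply, smul_eq_mul, Finset.sum_add_distrib,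
      ← Finset.mul_sum, hx.2.1, hy.2.1, mul_one, hab]
  · simp [hx.2.2 v hv, hy.2.2 v hv]

lemma isClosed_cface (s : Finset V) : IsClosed (cface s) := by
  have : cface s = (⋂ v, {y : V → ℝ | 0 ≤ y v}) ∩ {y | ∑ v, y v = 1} ∩
      ⋂ v ∈ (↑s : Set V)ᶜ, {y | y v = 0} := by
    ext y
    rw [mem_cface_iff]
    simp [and_assoc]
  rw [this]
  refine ((isClosed_iInter fun v => ?_).inter ?_).inter (isClosed_biInter fun v _ => ?_)
  · exact isClosed_le continuous_const (continuous_apply v)
  · exact isClosed_eq (by fun_prop) continuous_const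
  · exact isClosed_eq (continuous_apply v) continuous_const

lemma cface_le_one {s : Finset V} {y : V → ℝ} (hy : y ∈ cface s) (v : V) : y v ≤ 1 := by
  rw [← hy.2.1]
  exact Finset.single_le_sum (f := y) (fun w _ => hy.1 w) (Finset.mem_univ v)

lemma isCompact_cface (s : Finset V) : IsCompact (cface s) := by
  refine IsCompact.of_isClosed_subset (isCompact_univ_pi (fun _ : V => isCompact_Icc (a := (0 : ℝ))
    (b := 1))) (isClosed_cface s) ?_
  intro y hy v _
  exact ⟨hy.1 v, cface_le_one hy v⟩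

lemma cface_mono {s t : Finset V} (h : s ⊆ t) : cface s ⊆ cface t :=
  fun _ hy => ⟨hy.1, hy.2.1, hy.2.2.trans h⟩

/-- The vertex `v` as a point of the realisation. -/
def vtx [DecidableEq V] (v : V) : V → ℝ := Pi.single v 1

@[simp] lemma supp_vtx [DecidableEq V] (v : V) : supp (vtx v : V → ℝ) = {v} := by
  ext w
  simp [vtx, Pi.single_apply]

lemma vtx_mem_cface [DecidableEq V] {s : Finset V} {v : V} (h : v ∈ s) : vtx v ∈ cface s := by
  refine ⟨fun w => ?_, ?_, ?_⟩
  · unfold vtx
    rw [Pi.single_apply]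
    split_ifs <;> norm_num
  · simp [vtx]
  · simp [h]

lemma cface_subset_real (K : ASC V) {s : Finset V} (hs : s ∈ K.faces) : cface s ⊆ K.real :=
  fun _ hy => ⟨hy.1, hy.2.1, K.down_closed s hs _ hy.2.2 (supp_nonempty_of_sum hy.2.1)⟩

lemma mem_cface_supp {K : ASC V} {y : V → ℝ} (hy : y ∈ K.real) : y ∈ cface (supp y) :=
  ⟨hy.1, hy.2.1, subset_rfl⟩

lemma ASC.real_eq_iUnion (K : ASC V) : K.real = ⋃ s ∈ K.faces, cface s := by
  ext y
  simp only [mem_iUnion, exists_prop]
  exact ⟨fun hy => ⟨supp y, hy.2.2, mem_cface_supp hy⟩,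
    fun ⟨s, hs, hy⟩ => cface_subset_real K hs hy⟩

lemma ASC.isCompact_real (K : ASC V) : IsCompact K.real := by
  rw [K.real_eq_iUnion]
  exact (Set.toFinite K.faces).isCompact_biUnion fun s _ => isCompact_cface s

/-- Points of the realisation near `x` have all the vertices of the carrier of `x` in their
support. -/
lemma eventually_supp_subset (x : V → ℝ) : ∀ᶠ y in 𝓝 x, supp x ⊆ supp y := by
  have : ∀ v ∈ supp x, ∀ᶠ y in 𝓝 x, y v ≠ 0 := by
    intro v hv
    exact (continuous_apply v).continuousAt.eventually_ne (mem_supp.1 hv)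
  filter_upwards [(Filter.eventually_all_finset (supp x)).2 this] with y hy v hv
  exact mem_supp.2 (hy v hv)

/-- The finite set of faces with `k` vertices. -/
noncomputable def ASC.fk (K : ASC V) (k : ℕ) : Finset (Finset V) :=
  (Set.toFinite {s | s ∈ K.faces ∧ s.card = k}).toFinset

@[simp] lemma ASC.mem_fk {K : ASC V} {k : ℕ} {s : Finset V} :
    s ∈ K.fk k ↔ s ∈ K.faces ∧ s.card = k := by
  simp [ASC.fk]

/-- The set of faces contained in one of the members of a given set of faces, and so on: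
a subcomplex of `K` given by a down-closed predicate. -/
def ASC.sub (K : ASC V) (P : Finset V → Prop)
    (hP : ∀ s, P s → ∀ t ⊆ s, t.Nonempty → P t) : ASC V where
  faces := {s | s ∈ K.faces ∧ P s}
  nonempty_of_mem := fun s hs => K.nonempty_of_mem s hs.1
  down_closed := fun s hs t hts ht => ⟨K.down_closed s hs.1 t hts ht, hP s hs.2 t hts ht⟩

end Basic

/-! ## Refinements -/

/-- `K'` refines `K`: a linear map `L` identifies the two realisations, sending open simplices
into open simplices. -/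
structure Refinement {V' V : Type*} [Fintype V'] [Fintype V] (K' : ASC V') (K : ASC V) where
  L : (V' → ℝ) →ₗ[ℝ] (V → ℝ)
  bij : BijOn L K'.real K.real
  /-- the carrier of a simplex -/
  car : Finset V' → Finset V
  car_mem : ∀ s ∈ K'.faces, car s ∈ K.faces
  card_le : ∀ s ∈ K'.faces, s.card ≤ (car s).card
  supp_L : ∀ t ∈ K'.real, supp (L t) = car (supp t)
  inj : ∀ s ∈ K'.faces, ∀ u : V' → ℝ, (∀ v ∉ s, u v = 0) → L u = 0 → u = 0

namespace Refinement

variable {V'' V' V : Type*} [Fintype V''] [Fintype V'] [Fintype V]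
  {K'' : ASC V''} {K' : ASC V'} {K : ASC V}

/-- The trivial refinement. -/
def refl (K : ASC V) : Refinement K K where
  L := LinearMap.id
  bij := bijOn_id _
  car := id
  car_mem := fun _ hs => hs
  card_le := fun _ _ => le_rfl
  supp_L := fun _ _ => rfl
  inj := fun _ _ _ _ h => h

/-- `L` preserves total mass on faces. -/
lemma eq_sum_vtx [DecidableEq V'] {s : Finset V'} {u : V' → ℝ} (hu : ∀ v ∉ s, u v = 0) :
    u = ∑ v ∈ s, u v • (vtx v : V' → ℝ) := by
  ext w
  simp only [vtx, Finset.sum_apply, Pi.smul_apply, Pi.single_apply, smul_eq_mul, mul_ite, mul_one,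
    mul_zero]
  rw [Finset.sum_ite_eq]
  split_ifs with h
  · rfl
  · exact hu w h

lemma singleton_mem {K : ASC V} {s : Finset V} (hs : s ∈ K.faces) {v : V} (hv : v ∈ s) :
    {v} ∈ K.faces :=
  K.down_closed s hs {v} (by simpa using hv) (by simp)

lemma vtx_mem_real {K : ASC V} [DecidableEq V] {s : Finset V} (hs : s ∈ K.faces) {v : V}
    (hv : v ∈ s) : (vtx v : V → ℝ) ∈ K.real :=
  cface_subset_real K hs (vtx_mem_cface hv)

lemma sum_L (R : Refinement K' K) {s : Finset V'} (hs : s ∈ K'.faces) {u : V' → ℝ}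
    (hu : ∀ v ∉ s, u v = 0) : ∑ v, R.L u v = ∑ v, u v := by
  classical
  have h1 : ∀ v ∈ s, ∑ w, R.L (vtx v : V' → ℝ) w = 1 := fun v hv =>
    (R.bij.mapsTo (vtx_mem_real hs hv)).2.1
  rw [eq_sum_vtx hu]
  simp only [map_sum, map_smul, Finset.sum_apply, Pi.smul_apply, smul_eq_mul]
  rw [Finset.sum_comm, Finset.sum_comm (s := Finset.univ)]
  refine Finset.sum_congr rfl fun v hv => ?_
  rw [← Finset.mul_sum, ← Finset.mul_sum, h1 v hv]
  simp [vtx]

lemma exists_supp_eq {K : ASC V} {s : Finset V} (hs : s ∈ K.faces) :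
    ∃ y ∈ K.real, supp y = s := by
  classical
  have hne := K.nonempty_of_mem s hs
  have hc : (0 : ℝ) < s.card := by exact_mod_cast hne.card_pos
  have hsupp : supp (fun v => if v ∈ s then (s.card : ℝ)⁻¹ else 0) = s := by
    ext v
    simp [hc.ne']
  refine ⟨fun v => if v ∈ s then (s.card : ℝ)⁻¹ else 0, ⟨fun v => ?_, ?_, ?_⟩, hsupp⟩
  · dsimp only
    split_ifs <;> positivity
  · rw [Finset.sum_ite_mem, Finset.univ_inter, Finset.sum_const, nsmul_eq_mul,
      mul_inv_cancel₀ hc.ne']
  · rw [hsupp]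
    exact hs

lemma car_mono (R : Refinement K' K) {s t : Finset V'} (hs : s ∈ K'.faces) (ht : t ∈ K'.faces)
    (h : s ⊆ t) : R.car s ⊆ R.car t := by
  obtain ⟨y, hy, rfl⟩ := exists_supp_eq hs
  obtain ⟨z, hz, rfl⟩ := exists_supp_eq ht
  set x : V' → ℝ := (1 / 2 : ℝ) • y + (1 / 2 : ℝ) • z with hx
  have hxm : x ∈ cface (supp z) := convex_cface _ (cface_mono h (mem_cface_supp hy))
    (mem_cface_supp hz) (by norm_num) (by norm_num) (by norm_num)
  have hxr : x ∈ K'.real := cface_subset_real K' ht hxm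
  have hxs : supp x = supp z := by
    refine le_antisymm hxm.2.2 fun v hv => ?_
    rw [mem_supp] at hv ⊢
    have h1 := hy.1 v
    have h2 := lt_of_le_of_ne (hz.1 v) (Ne.symm hv)
    simp only [hx, Pi.add_apply, Pi.smul_apply, smul_eq_mul]
    nlinarith
  rw [← hxs, ← R.supp_L x hxr, ← R.supp_L y hy]
  intro v hv
  rw [mem_supp] at hv ⊢
  have h1 := lt_of_le_of_ne ((R.bij.mapsTo hy).1 v) (Ne.symm hv)
  have h2 := (R.bij.mapsTo hz).1 v
  simp only [hx, map_add, map_smul, Pi.add_apply, Pi.smul_apply, smul_eq_mul]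
  nlinarith

/-- A vector supported on the face `s` is mapped to a vector supported on the carrier of `s`. -/
lemma L_eq_zero (R : Refinement K' K) {s : Finset V'} (hs : s ∈ K'.faces) {u : V' → ℝ}
    (hu : ∀ v ∉ s, u v = 0) : ∀ v ∉ R.car s, R.L u v = 0 := by
  classical
  intro w hw
  rw [eq_sum_vtx hu]
  simp only [map_sum, map_smul, Finset.sum_apply, Pi.smul_apply, smul_eq_mul]
  refine Finset.sum_eq_zero fun v hv => ?_
  have h1 : supp (R.L (vtx v : V' → ℝ)) ⊆ R.car s := by
    rw [R.supp_L _ (vtx_mem_real hs hv), supp_vtx]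
    exact R.car_mono (singleton_mem hs hv) hs (by simpa using hv)
  have h2 : R.L (vtx v : V' → ℝ) w = 0 := by
    by_contra hne
    exact hw (h1 (mem_supp.2 hne))
  rw [h2, mul_zero]

lemma mapsTo_cface (R : Refinement K' K) {s : Finset V'} (hs : s ∈ K'.faces) :
    MapsTo R.L (cface s) (cface (R.car s)) := by
  intro y hy
  have h := R.bij.mapsTo (cface_subset_real K' hs hy)
  rw [mem_cface_iff] at hy ⊢
  exact ⟨h.1, h.2.1, R.L_eq_zero hs hy.2.2⟩

/-- Composition of refinements. -/
def trans (R' : Refinement K'' K') (R : Refinement K' K) : Refinement K'' K where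
  L := R.L.comp R'.L
  bij := R.bij.comp R'.bij
  car := R.car ∘ R'.car
  car_mem := fun s hs => R.car_mem _ (R'.car_mem s hs)
  card_le := fun s hs => (R'.card_le s hs).trans (R.card_le _ (R'.car_mem s hs))
  supp_L := by
    intro t ht
    have h1 := R'.supp_L t ht
    have h2 := R.supp_L (R'.L t) (R'.bij.mapsTo ht)
    simpa [h1] using h2
  inj := by
    intro s hs u hu h
    refine R'.inj s hs u hu (R.inj _ (R'.car_mem s hs) _ (R'.L_eq_zero hs hu) h)

/-- The pull back of a subcomplex under a refinement. -/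
def pullSub (R : Refinement K' K) (A : ASC V) : ASC V' where
  faces := {s | s ∈ K'.faces ∧ R.car s ∈ A.faces}
  nonempty_of_mem := fun s hs => K'.nonempty_of_mem s hs.1
  down_closed := by
    rintro s ⟨h1, h2⟩ t hts ht
    have h3 := K'.down_closed s h1 t hts ht
    exact ⟨h3, A.down_closed _ h2 _ (R.car_mono h3 h1 hts) (K.nonempty_of_mem _ (R.car_mem t h3))⟩

lemma image_pullSub (R : Refinement K' K) {A : ASC V} (hA : A.faces ⊆ K.faces) :
    R.L '' (R.pullSub A).real = A.real := by
  ext y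
  constructor
  · rintro ⟨t, ht, rfl⟩
    have ht' : t ∈ K'.real := ⟨ht.1, ht.2.1, ht.2.2.1⟩
    have h := R.bij.mapsTo ht'
    refine ⟨h.1, h.2.1, ?_⟩
    rw [R.supp_L t ht']
    exact ht.2.2.2
  · intro hy
    obtain ⟨t, ht, rfl⟩ := R.bij.surjOn ⟨hy.1, hy.2.1, hA hy.2.2⟩
    refine ⟨t, ⟨ht.1, ht.2.1, ht.2.2, ?_⟩, rfl⟩
    rw [← R.supp_L t ht]
    exact hy.2.2

end Refinement

end SepFil
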