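import Pool.Agent.SepFil.Surf

/-!
# Coverings of closed surfaces

(module COVC of the blueprint)
-/

open Set Filter Topology
open scoped ENNReal

namespace SepFil

variable {V' V : Type*} [Fintype V'] [Fintype V] [DecidableEq V'] [DecidableEq V]

section
omit [Fintype V'] [Fintype V] [DecidableEq V']

lemma IsCoverCpx.single {m : ℕ} {q : V' → V} {K' : ASC V'} {K : ASC V}
    (_ : IsCoverCpx m q K' K) {s : Finset V'} (hs : s ∈ K'.faces) {v : V'} (hv : v ∈ s) :
    {v} ∈ K'.faces :=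
  K'.down_closed s hs _ (by simpa using hv) (by simp)

/-- Faces through a common vertex with the same image are equal. -/
lemma IsCoverCpx.uniq {m : ℕ} {q : V' → V} {K' : ASC V'} {K : ASC V}
    (h : IsCoverCpx m q K' K) {s t : Finset V'} (hs : s ∈ K'.faces) (ht : t ∈ K'.faces)
    {v : V'} (hvs : v ∈ s) (hvt : v ∈ t) (hst : s.image q = t.image q) : s = t := by
  obtain ⟨u, -, hu⟩ := h.lift v (h.single hs hvs) (s.image q) (h.image_mem s hs)
    (Finset.mem_image_of_mem q hvs)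
  rw [hu s ⟨hs, hvs, rfl⟩, hu t ⟨ht, hvt, hst.symm⟩]

/-- Inclusion of faces through a common vertex is detected by the images. -/
lemma IsCoverCpx.subset_of_image {m : ℕ} {q : V' → V} {K' : ASC V'} {K : ASC V}
    (h : IsCoverCpx m q K' K) {s t : Finset V'} (hs : s ∈ K'.faces) (ht : t ∈ K'.faces)
    {v : V'} (hvs : v ∈ s) (hvt : v ∈ t) (hst : s.image q ⊆ t.image q) : s ⊆ t := by
  classical
  set u := t.filter (fun w => q w ∈ s.image q) with hu
  have hvu : v ∈ u := Finset.mem_filter.2 ⟨hvt, Finset.mem_image_of_mem q hvs⟩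
  have hut : u ⊆ t := Finset.filter_subset _ _
  have huf : u ∈ K'.faces := K'.down_closed t ht u hut ⟨v, hvu⟩
  have him : s.image q = u.image q := by
    ext x
    constructor
    · intro hx
      obtain ⟨w, hw, rfl⟩ := Finset.mem_image.1 (hst hx)
      exact Finset.mem_image_of_mem q (Finset.mem_filter.2 ⟨hw, hx⟩)
    · intro hx
      obtain ⟨w, hw, rfl⟩ := Finset.mem_image.1 hx
      exact (Finset.mem_filter.1 hw).2
  rw [h.uniq hs huf hvs hvu him]
  exact hut

lemma IsCoverCpx.card_image {m : ℕ} {q : V' → V} {K' : ASC V'} {K : ASC V}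
    (h : IsCoverCpx m q K' K) {s : Finset V'} (hs : s ∈ K'.faces) :
    (s.image q).card = s.card := Finset.card_image_of_injOn (h.injOn s hs)

/-- The lift of a face through a vertex. -/
lemma IsCoverCpx.exists_lift {m : ℕ} {q : V' → V} {K' : ASC V'} {K : ASC V}
    (h : IsCoverCpx m q K' K) {v : V'} (hv : {v} ∈ K'.faces) {s : Finset V} (hs : s ∈ K.faces)
    (hvs : q v ∈ s) : ∃ s' ∈ K'.faces, v ∈ s' ∧ s'.image q = s := by
  obtain ⟨u, hu, -⟩ := h.lift v hv s hs hvs
  exact ⟨u, hu.1, hu.2.1, hu.2.2⟩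

end

theorem IsCoverCpx.isSurf {m : ℕ} {q : V' → V} {K' : ASC V'} {K : ASC V}
    (h : IsCoverCpx m q K' K) (hK : IsSurf K) : IsSurf K' := by
  classical
  refine ⟨?_, ?_, ?_, ?_⟩
  · intro s hs
    rw [← h.card_image hs]
    exact hK.card_le _ (h.image_mem s hs)
  · intro s hs
    obtain ⟨v, hv⟩ := K'.nonempty_of_mem s hs
    obtain ⟨t, ht, hst⟩ := hK.pure _ (h.image_mem s hs)
    rw [ASC.mem_fk] at ht
    obtain ⟨t', ht', hvt', rfl⟩ := h.exists_lift (h.single hs hv) ht.1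
      (hst (Finset.mem_image_of_mem q hv))
    refine ⟨t', ASC.mem_fk.2 ⟨ht', ?_⟩, h.subset_of_image hs ht' hv hvt' hst⟩
    rw [← h.card_image ht']
    exact ht.2
  · intro e he
    rw [ASC.mem_fk] at he
    obtain ⟨v, hv⟩ := K'.nonempty_of_mem e he.1
    have he' : e.image q ∈ K.fk 2 :=
      ASC.mem_fk.2 ⟨h.image_mem e he.1, by rw [h.card_image he.1]; exact he.2⟩
    rw [← hK.two _ he']
    refine Finset.card_bij (fun t _ => t.image q) ?_ ?_ ?_
    · intro t ht
      rw [Finset.mem_filter, ASC.mem_fk] at ht ⊢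
      exact ⟨⟨h.image_mem t ht.1.1, by rw [h.card_image ht.1.1]; exact ht.1.2⟩,
        Finset.image_subset_image ht.2⟩
    · intro t ht t₂ ht₂ heq
      rw [Finset.mem_filter, ASC.mem_fk] at ht ht₂
      exact h.uniq ht.1.1 ht₂.1.1 (ht.2 hv) (ht₂.2 hv) heq
    · intro t ht
      rw [Finset.mem_filter, ASC.mem_fk] at ht
      obtain ⟨t', ht', hvt', rfl⟩ := h.exists_lift (h.single he.1 hv) ht.1.1
        (ht.2 (Finset.mem_image_of_mem q hv))
      refine ⟨t', ?_, rfl⟩
      rw [Finset.mem_filter, ASC.mem_fk]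
      exact ⟨⟨ht', by rw [← h.card_image ht']; exact ht.1.2⟩,
        h.subset_of_image he.1 ht' hv hvt' ht.2⟩
  · intro v hv ψ hψ
    have hqv : {q v} ∈ K.faces := by
      have := h.image_mem _ hv
      simpa using this
    -- the lift of an edge through `v`
    have hl : ∀ e : Finset V, e ∈ K.faces ∧ q v ∈ e →
        ∃ e' : Finset V', e' ∈ K'.faces ∧ v ∈ e' ∧ e'.image q = e := by
      rintro e ⟨he, hve⟩
      exact h.exists_lift hv he hve
    choose! lf hlf using hl
    have hlf' : ∀ e' ∈ K'.faces, v ∈ e' → lf (e'.image q) = e' := by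
      intro e' he' hve'
      have h1 := hlf (e'.image q) ⟨h.image_mem e' he', Finset.mem_image_of_mem q hve'⟩
      exact h.uniq h1.1 he' h1.2.1 hve' h1.2.2
    obtain ⟨f, hf⟩ := hK.link (q v) hqv (fun e => ψ (lf e)) (by
      rw [← hψ]
      symm
      refine Finset.sum_bij (fun e _ => e.image q) ?_ ?_ ?_ ?_
      · intro t ht
        rw [Finset.mem_filter, ASC.mem_fk] at ht ⊢
        exact ⟨⟨h.image_mem t ht.1.1, by rw [h.card_image ht.1.1]; exact ht.1.2⟩,
          Finset.mem_image_of_mem q ht.2⟩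
      · intro t ht t₂ ht₂ heq
        rw [Finset.mem_filter, ASC.mem_fk] at ht ht₂
        exact h.uniq ht.1.1 ht₂.1.1 ht.2 ht₂.2 heq
      · intro t ht
        rw [Finset.mem_filter, ASC.mem_fk] at ht
        obtain ⟨t', ht', hvt', rfl⟩ := h.exists_lift hv ht.1.1 ht.2
        refine ⟨t', ?_, rfl⟩
        rw [Finset.mem_filter, ASC.mem_fk]
        exact ⟨⟨ht', by rw [← h.card_image ht']; exact ht.1.2⟩, hvt'⟩
      · intro t ht
        rw [Finset.mem_filter, ASC.mem_fk] at ht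
        rw [hlf' t ht.1.1 ht.2])
    refine ⟨fun t => f (t.image q), ?_⟩
    intro e he hve t ht t₂ ht₂ het het₂ hne
    rw [ASC.mem_fk] at he ht ht₂
    have h1 := hf (e.image q)
      (ASC.mem_fk.2 ⟨h.image_mem e he.1, by rw [h.card_image he.1]; exact he.2⟩)
      (Finset.mem_image_of_mem q hve) (t.image q)
      (ASC.mem_fk.2 ⟨h.image_mem t ht.1, by rw [h.card_image ht.1]; exact ht.2⟩)
      (t₂.image q)
      (ASC.mem_fk.2 ⟨h.image_mem t₂ ht₂.1, by rw [h.card_image ht₂.1]; exact ht₂.2⟩)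
      (Finset.image_subset_image het) (Finset.image_subset_image het₂)
      (fun heq => hne (h.uniq ht.1 ht₂.1 (het hve) (het₂ hve) heq))
    rw [hlf' e he.1 hve] at h1
    exact h1

theorem IsCoverCpx.card_fk {m : ℕ} {q : V' → V} {K' : ASC V'} {K : ASC V}
    (h : IsCoverCpx m q K' K) (k : ℕ) (hk : 1 ≤ k) : (K'.fk k).card = m * (K.fk k).card := by
  classical
  have hmaps : ∀ s ∈ K'.fk k, s.image q ∈ K.fk k := by
    intro s hs
    rw [ASC.mem_fk] at hs ⊢
    exact ⟨h.image_mem s hs.1, by rw [h.card_image hs.1]; exact hs.2⟩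
  rw [Finset.card_eq_sum_card_fiberwise hmaps]
  rw [Finset.sum_congr rfl (g := fun _ => m), Finset.sum_const, smul_eq_mul, mul_comm]
  intro s hs
  rw [ASC.mem_fk] at hs
  obtain ⟨v, hv⟩ := K.nonempty_of_mem s hs.1
  have hv1 : {v} ∈ K.faces := K.down_closed s hs.1 _ (by simpa using hv) (by simp)
  rw [← h.sheets v hv1, Set.ncard_eq_toFinset_card']
  symm
  have hl : ∀ v' : V', {v'} ∈ K'.faces ∧ q v' = v →
      ∃ s' : Finset V', s' ∈ K'.faces ∧ v' ∈ s' ∧ s'.image q = s := by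
    rintro v' ⟨hv', rfl⟩
    exact h.exists_lift hv' hs.1 hv
  choose! lf hlf using hl
  refine Finset.card_bij (fun v' _ => lf v') ?_ ?_ ?_
  · intro v' hv'
    rw [Set.mem_toFinset] at hv'
    obtain ⟨h1, h2, h3⟩ := hlf v' hv'
    rw [Finset.mem_filter, ASC.mem_fk]
    exact ⟨⟨h1, by rw [← h.card_image h1, h3]; exact hs.2⟩, h3⟩
  · intro v' hv' v₂ hv₂ heq
    rw [Set.mem_toFinset] at hv' hv₂
    obtain ⟨h1, h2, h3⟩ := hlf v' hv'
    obtain ⟨h4, h5, h6⟩ := hlf v₂ hv₂
    rw [← heq] at h5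
    exact h.injOn _ h1 h2 h5 (hv'.2.trans hv₂.2.symm)
  · intro s' hs'
    rw [Finset.mem_filter, ASC.mem_fk] at hs'
    obtain ⟨⟨h1, -⟩, h2⟩ := hs'
    rw [← h2] at hv
    obtain ⟨v', hv', hqv'⟩ := Finset.mem_image.1 hv
    have h3 : {v'} ∈ K'.faces ∧ q v' = v := ⟨h.single h1 hv', hqv'⟩
    refine ⟨v', by rw [Set.mem_toFinset]; exact h3, ?_⟩
    obtain ⟨h4, h5, h6⟩ := hlf v' h3
    exact h.uniq h4 h1 h5 hv' (h6.trans h2.symm)

end SepFil
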