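import Pool.Agent.SepFil.Surf

/-!
# The triangulation of the closed orientable surface of genus 3 by the complete tripartite
# graph K_{4,4,4}

(module K444 of the blueprint)
-/

open Set Filter Topology
open scoped ENNReal

namespace SepFil

/-- The vertices: a colour and an element of `ℤ/4`. -/
abbrev V444 : Type := Fin 3 × ZMod 4

/-- The complex: the triangles are `{(0,a), (1,b), (2,c)}` with `a + b + c ∈ {0, 1}`. -/
def K444 : ASC V444 where
  faces := {s | s.Nonempty ∧ ∃ a b c : ZMod 4, (a + b + c = 0 ∨ a + b + c = 1) ∧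
    s ⊆ {((0 : Fin 3), a), (1, b), (2, c)}}
  nonempty_of_mem := fun _ hs => hs.1
  down_closed := by
    rintro s ⟨-, a, b, c, h, hs⟩ t hts ht
    exact ⟨ht, a, b, c, h, hts.trans hs⟩

/-- the graph of a colouring -/
def k4gr (x : Fin 3 → ZMod 4) : Finset V444 := Finset.univ.image (fun i => (i, x i))

/-- the valid colourings -/
def K4Val (x : Fin 3 → ZMod 4) : Prop := ∑ i, x i = 0 ∨ ∑ i, x i = 1

lemma mem_k4gr {x : Fin 3 → ZMod 4} {p : V444} : p ∈ k4gr x ↔ p.2 = x p.1 := by
  unfold k4gr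
  rw [Finset.mem_image]
  constructor
  · rintro ⟨i, _, rfl⟩
    rfl
  · intro h
    exact ⟨p.1, Finset.mem_univ _, Prod.ext rfl h.symm⟩

lemma card_k4gr (x : Fin 3 → ZMod 4) : (k4gr x).card = 3 := by
  unfold k4gr
  rw [Finset.card_image_of_injective]
  · simp
  · intro i j h
    exact congrArg Prod.fst h

lemma k4gr_inj {x y : Fin 3 → ZMod 4} (h : k4gr x = k4gr y) : x = y := by
  funext i
  have h1 : (i, x i) ∈ k4gr y := by
    rw [← h, mem_k4gr]
  exact mem_k4gr.1 h1

lemma k4gr_vec (a b c : ZMod 4) :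
    k4gr ![a, b, c] = {((0 : Fin 3), a), (1, b), (2, c)} := by
  ext ⟨i, z⟩
  rw [mem_k4gr]
  fin_cases i <;> simp

lemma mem_K444 {s : Finset V444} :
    s ∈ K444.faces ↔ s.Nonempty ∧ ∃ x, K4Val x ∧ s ⊆ k4gr x := by
  constructor
  · rintro ⟨h1, a, b, c, h2, h3⟩
    refine ⟨h1, ![a, b, c], ?_, ?_⟩
    · rw [K4Val, Fin.sum_univ_three]
      exact h2
    · rw [k4gr_vec]
      exact h3
  · rintro ⟨h1, x, h2, h3⟩
    refine ⟨h1, x 0, x 1, x 2, ?_, ?_⟩
    · rw [K4Val, Fin.sum_univ_three] at h2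
      exact h2
    · rw [← k4gr_vec]
      have h4 : x = ![x 0, x 1, x 2] := by
        funext i
        fin_cases i <;> rfl
      rw [← h4]
      exact h3

lemma k4gr_nonempty (x : Fin 3 → ZMod 4) : (k4gr x).Nonempty := ⟨(0, x 0), mem_k4gr.2 rfl⟩

lemma k4_mem_fk3 {t : Finset V444} : t ∈ K444.fk 3 ↔ ∃ x, K4Val x ∧ t = k4gr x := by
  rw [ASC.mem_fk, mem_K444]
  constructor
  · rintro ⟨⟨_, x, hx, hs⟩, hc⟩
    refine ⟨x, hx, Finset.eq_of_subset_of_card_le hs ?_⟩
    rw [hc, card_k4gr]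
  · rintro ⟨x, hx, rfl⟩
    exact ⟨⟨k4gr_nonempty x, x, hx, subset_rfl⟩, card_k4gr x⟩

lemma k4_mem_fk2 {e : Finset V444} (he : e ∈ K444.fk 2) :
    ∃ x, K4Val x ∧ ∃ m, e = (k4gr x).erase (m, x m) := by
  rw [ASC.mem_fk, mem_K444] at he
  obtain ⟨⟨_, x, hx, hs⟩, hc⟩ := he
  have h1 : (k4gr x \ e).card = 1 := by
    rw [Finset.card_sdiff_of_subset hs, card_k4gr, hc]
  obtain ⟨p, hp⟩ := Finset.card_eq_one.1 h1
  have hpm : p ∈ k4gr x \ e := by
    rw [hp]
    exact Finset.mem_singleton_self p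
  have hp2 : p.2 = x p.1 := mem_k4gr.1 (Finset.mem_sdiff.1 hpm).1
  refine ⟨x, hx, p.1, ?_⟩
  rw [← hp2]
  change e = (k4gr x).erase p
  rw [Finset.erase_eq, ← hp, Finset.sdiff_sdiff_eq_self hs]

lemma k4_erase_sub {x y : Fin 3 → ZMod 4} {m : Fin 3} :
    (k4gr x).erase (m, x m) ⊆ k4gr y ↔ ∀ i, i ≠ m → y i = x i := by
  constructor
  · intro h i hi
    have h1 : (i, x i) ∈ (k4gr x).erase (m, x m) := by
      rw [Finset.mem_erase, mem_k4gr]
      exact ⟨fun h => hi (congrArg Prod.fst h), rfl⟩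
    exact (mem_k4gr.1 (h h1)).symm
  · intro h p hp
    rw [Finset.mem_erase, mem_k4gr] at hp
    rw [mem_k4gr]
    by_cases hm : p.1 = m
    · exfalso
      apply hp.1
      subst hm
      exact Prod.ext rfl hp.2
    · rw [h _ hm]
      exact hp.2

/-- the sum as a function of one coordinate -/
lemma k4_sum_sub {x y : Fin 3 → ZMod 4} {m : Fin 3} (h : ∀ i, i ≠ m → y i = x i) :
    ∑ i, y i - ∑ i, x i = y m - x m := by
  rw [← Finset.sum_sub_distrib]
  rw [Finset.sum_eq_single m]
  · intro i _ hi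
    rw [h i hi, sub_self]
  · intro h
    exact absurd (Finset.mem_univ m) h

lemma k4_ext {x y : Fin 3 → ZMod 4} {m : Fin 3} (h : ∀ i, i ≠ m → y i = x i)
    (hs : ∑ i, y i = ∑ i, x i) : y = x := by
  have h1 := k4_sum_sub h
  rw [hs, sub_self] at h1
  funext i
  by_cases hi : i = m
  · subst hi
    exact (sub_eq_zero.1 h1.symm)
  · exact h i hi

/-- the other triangle at an edge -/
def k4opp (x : Fin 3 → ZMod 4) (m : Fin 3) : Fin 3 → ZMod 4 :=
  Function.update x m (x m + (1 - 2 * ∑ i, x i))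

lemma k4opp_off {x : Fin 3 → ZMod 4} {m i : Fin 3} (h : i ≠ m) : k4opp x m i = x i :=
  Function.update_of_ne h _ _

lemma k4opp_sum (x : Fin 3 → ZMod 4) (m : Fin 3) : ∑ i, k4opp x m i = 1 - ∑ i, x i := by
  have h := k4_sum_sub (x := x) (y := k4opp x m) (m := m) (fun i hi => k4opp_off hi)
  have h1 : k4opp x m m = x m + (1 - 2 * ∑ i, x i) := Function.update_self _ _ _
  rw [h1] at h
  linear_combination h

lemma k4opp_val {x : Fin 3 → ZMod 4} (m : Fin 3) (h : K4Val x) : K4Val (k4opp x m) := by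
  rw [K4Val, k4opp_sum]
  rcases h with h | h
  · right
    rw [h, sub_zero]
  · left
    rw [h, sub_self]

lemma k4opp_ne {x : Fin 3 → ZMod 4} (m : Fin 3) (h : K4Val x) : x ≠ k4opp x m := by
  intro hx
  have h1 := k4opp_sum x m
  rw [← hx] at h1
  rcases h with h | h
  · rw [h] at h1
    revert h1
    decide
  · rw [h] at h1
    revert h1
    decide

lemma k4_filter {x : Fin 3 → ZMod 4} (m : Fin 3) (h : K4Val x) :
    (K444.fk 3).filter (fun t => (k4gr x).erase (m, x m) ⊆ t) = {k4gr x, k4gr (k4opp x m)} := by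
  ext t
  rw [Finset.mem_filter, k4_mem_fk3, Finset.mem_insert, Finset.mem_singleton]
  constructor
  · rintro ⟨⟨y, hy, rfl⟩, h1⟩
    rw [k4_erase_sub] at h1
    by_cases hs : ∑ i, y i = ∑ i, x i
    · left
      rw [k4_ext h1 hs]
    · right
      have h2 : ∑ i, y i = ∑ i, k4opp x m i := by
        rw [k4opp_sum]
        rcases h with h | h <;> rcases hy with hy | hy
        · exact absurd (hy.trans h.symm) hs
        · rw [h, hy, sub_zero]
        · rw [h, hy, sub_self]
        · exact absurd (hy.trans h.symm) hs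
      rw [k4_ext (x := k4opp x m) (y := y) (m := m) (fun i hi => ?_) h2]
      rw [h1 i hi, k4opp_off hi]
  · rintro (rfl | rfl)
    · exact ⟨⟨x, h, rfl⟩, Finset.erase_subset _ _⟩
    · refine ⟨⟨_, k4opp_val m h, rfl⟩, ?_⟩
      rw [k4_erase_sub]
      exact fun i hi => k4opp_off hi

/-- read off a coordinate -/
def k4rd (t : Finset V444) (i : Fin 3) : ZMod 4 := ∑ p ∈ t.filter (fun p => p.1 = i), p.2

lemma k4rd_gr (x : Fin 3 → ZMod 4) (i : Fin 3) : k4rd (k4gr x) i = x i := by
  unfold k4rd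
  have h : (k4gr x).filter (fun p => p.1 = i) = {(i, x i)} := by
    ext ⟨j, z⟩
    rw [Finset.mem_filter, mem_k4gr, Finset.mem_singleton, Prod.mk.injEq]
    constructor
    · rintro ⟨h1, h2⟩
      subst h2
      exact ⟨rfl, h1⟩
    · rintro ⟨rfl, h2⟩
      exact ⟨h2, rfl⟩
  rw [h, Finset.sum_singleton]

lemma k4_cyc (P q : ZMod 4 → ZMod 2) (h : ∑ y, P y + ∑ y, q y = 0) :
    ∃ F0 F1 : ZMod 4 → ZMod 2, (∀ y, F0 y + F1 y = P y) ∧ ∀ y, F0 y + F1 (y + 1) = q y := by
  have h0 : ∀ f : ZMod 4 → ZMod 2, ∑ y, f y = f 0 + f 1 + f 2 + f 3 := fun f =>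
    Fin.sum_univ_four f
  rw [h0, h0] at h
  let F1 : ZMod 4 → ZMod 2 := fun y =>
    if y = 0 then 0 else if y = 1 then q 0 + P 0 else if y = 2 then q 1 + P 1 + (q 0 + P 0)
    else q 2 + P 2 + (q 1 + P 1 + (q 0 + P 0))
  have e0 : F1 0 = 0 := rfl
  have e1 : F1 1 = q 0 + P 0 := rfl
  have e2 : F1 2 = q 1 + P 1 + (q 0 + P 0) := rfl
  have e3 : F1 3 = q 2 + P 2 + (q 1 + P 1 + (q 0 + P 0)) := rfl
  refine ⟨fun y => P y + F1 y, F1, fun y => ?_, fun y => ?_⟩
  · dsimp only
    rw [add_assoc, CharTwo.add_self_eq_zero, add_zero]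
  · dsimp only
    have hy : y = 0 ∨ y = 1 ∨ y = 2 ∨ y = 3 := by
      revert y
      decide
    have c2 : ∀ z : ZMod 2, z + z = 0 := CharTwo.add_self_eq_zero
    rcases hy with rfl | rfl | rfl | rfl
    · rw [e0, show (0 : ZMod 4) + 1 = 1 from rfl, e1]
      linear_combination c2 (P 0)
    · rw [e1, show (1 : ZMod 4) + 1 = 2 from rfl, e2]
      linear_combination c2 (P 1) + c2 (q 0 + P 0)
    · rw [e2, show (2 : ZMod 4) + 1 = 3 from rfl, e3]
      linear_combination c2 (P 2) + c2 (q 1 + P 1 + (q 0 + P 0))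
    · rw [e3, show (3 : ZMod 4) + 1 = 0 from rfl, e0]
      linear_combination h - c2 (q 3)

/-- the three colours -/
lemma k4_colours (i : Fin 3) : ∃ j k : Fin 3, i ≠ j ∧ i ≠ k ∧ j ≠ k ∧
    (∀ l, l = i ∨ l = j ∨ l = k) ∧ ∀ x : Fin 3 → ZMod 4, ∑ l, x l = x i + x j + x k := by
  have h : ∀ i : Fin 3, i ≠ i + 1 ∧ i ≠ i + 2 ∧ i + 1 ≠ i + 2 ∧
      ∀ l, l = i ∨ l = i + 1 ∨ l = i + 2 := by decide
  obtain ⟨h1, h2, h3, h4⟩ := h i
  refine ⟨i + 1, i + 2, h1, h2, h3, h4, fun x => ?_⟩
  rw [Fin.sum_univ_three]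
  fin_cases i
  · rfl
  · change x 0 + x 1 + x 2 = x 1 + x 2 + x 0
    ring
  · change x 0 + x 1 + x 2 = x 2 + x 0 + x 1
    ring

/-- the edges at a vertex -/
lemma k4_edges {i j k : Fin 3} (hij : i ≠ j) (hik : i ≠ k) (hjk : j ≠ k)
    (hall : ∀ l, l = i ∨ l = j ∨ l = k) {x : Fin 3 → ZMod 4} :
    (k4gr x).erase (k, x k) = {(i, x i), (j, x j)} := by
  ext ⟨l, z⟩
  rw [Finset.mem_erase, mem_k4gr, Finset.mem_insert, Finset.mem_singleton, Prod.mk.injEq,
    Prod.mk.injEq, ne_eq, Prod.mk.injEq]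
  dsimp only
  constructor
  · rintro ⟨h1, h2⟩
    rcases hall l with rfl | rfl | rfl
    · exact Or.inl ⟨rfl, h2⟩
    · exact Or.inr ⟨rfl, h2⟩
    · exact absurd ⟨rfl, h2⟩ h1
  · rintro (⟨rfl, h2⟩ | ⟨rfl, h2⟩)
    · exact ⟨fun h => hik h.1, h2⟩
    · exact ⟨fun h => hjk h.1, h2⟩

lemma k4_pair_mem {i j : Fin 3} (hij : i ≠ j) (a y : ZMod 4) :
    ({(i, a), (j, y)} : Finset V444) ∈ K444.fk 2 := by
  obtain ⟨j', k', h1, h2, h3, hall, hsum⟩ := k4_colours i
  have : ∃ k, i ≠ k ∧ j ≠ k ∧ (∀ l, l = i ∨ l = j ∨ l = k) ∧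
      ∀ x : Fin 3 → ZMod 4, ∑ l, x l = x i + x j + x k := by
    rcases hall j with h | h | h
    · exact absurd h.symm hij
    · subst h
      exact ⟨k', h2, h3, hall, hsum⟩
    · subst h
      refine ⟨j', h1, h3.symm, fun l => ?_, fun x => ?_⟩
      · rcases hall l with h | h | h
        · exact Or.inl h
        · exact Or.inr (Or.inr h)
        · exact Or.inr (Or.inl h)
      · rw [hsum]
        ring
  obtain ⟨k, hik, hjk, hall, hsum⟩ := this
  let x : Fin 3 → ZMod 4 := fun l => if l = i then a else if l = j then y else -a - y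
  have xi : x i = a := by simp [x]
  have xj : x j = y := by simp [x, hij.symm]
  have xk : x k = -a - y := by simp [x, hik.symm, hjk.symm]
  rw [ASC.mem_fk, mem_K444]
  refine ⟨⟨⟨(i, a), by simp⟩, x, Or.inl ?_, ?_⟩, ?_⟩
  · rw [hsum, xi, xj, xk]
    ring
  · have h := k4_edges hij hik hjk hall (x := x)
    rw [xi, xj] at h
    rw [← h]
    exact Finset.erase_subset _ _
  · rw [Finset.card_pair]
    intro h
    exact hij (congrArg Prod.fst h)

lemma k4_link {i j k : Fin 3} (hij : i ≠ j) (hik : i ≠ k) (hjk : j ≠ k)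
    (hall : ∀ l, l = i ∨ l = j ∨ l = k) (a : ZMod 4) :
    (K444.fk 2).filter (fun e => ((i, a) : V444) ∈ e) =
      (Finset.univ.image (fun y : ZMod 4 => ({(i, a), (j, y)} : Finset V444))) ∪
      (Finset.univ.image (fun z : ZMod 4 => ({(i, a), (k, z)} : Finset V444))) := by
  ext e
  rw [Finset.mem_filter, Finset.mem_union, Finset.mem_image, Finset.mem_image]
  constructor
  · rintro ⟨he, hv⟩
    obtain ⟨x, hx, m, rfl⟩ := k4_mem_fk2 he
    rw [Finset.mem_erase, mem_k4gr] at hv
    have hxi : a = x i := hv.2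
    rcases hall m with rfl | rfl | rfl
    · exfalso
      apply hv.1
      rw [hxi]
    · right
      refine ⟨x k, Finset.mem_univ _, ?_⟩
      rw [k4_edges hik hij hjk.symm (fun l => ?_), hxi]
      rcases hall l with h | h | h
      · exact Or.inl h
      · exact Or.inr (Or.inr h)
      · exact Or.inr (Or.inl h)
    · left
      refine ⟨x j, Finset.mem_univ _, ?_⟩
      rw [k4_edges hij hik hjk hall, hxi]
  · rintro (⟨y, _, rfl⟩ | ⟨z, _, rfl⟩)
    · exact ⟨k4_pair_mem hij a y, by simp⟩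
    · exact ⟨k4_pair_mem hik a z, by simp⟩

theorem K444_isSurf : IsSurf K444 := by
  constructor
  · intro s hs
    obtain ⟨_, x, _, h⟩ := mem_K444.1 hs
    rw [← card_k4gr x]
    exact Finset.card_le_card h
  · intro s hs
    obtain ⟨_, x, hx, h⟩ := mem_K444.1 hs
    exact ⟨k4gr x, k4_mem_fk3.2 ⟨x, hx, rfl⟩, h⟩
  · intro e he
    obtain ⟨x, hx, m, rfl⟩ := k4_mem_fk2 he
    rw [k4_filter m hx, Finset.card_pair]
    intro h
    exact k4opp_ne m hx (k4gr_inj h)
  · rintro ⟨i, a⟩ _ ψ hψ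
    obtain ⟨j, k, hij, hik, hjk, hall, hsum⟩ := k4_colours i
    rw [k4_link hij hik hjk hall a, Finset.sum_union, Finset.sum_image, Finset.sum_image] at hψ
    · have h1 : ∑ y : ZMod 4, ψ {(i, a), (k, -a - y)} = ∑ z : ZMod 4, ψ {(i, a), (k, z)} :=
        Equiv.sum_comp (Equiv.subLeft (-a)) (fun z => ψ {(i, a), (k, z)})
      rw [← h1] at hψ
      obtain ⟨F0, F1, hF, hG⟩ := k4_cyc (fun y => ψ {(i, a), (j, y)})
        (fun y => ψ {(i, a), (k, -a - y)}) hψ
      refine ⟨fun t => if ∑ l, k4rd t l = 0 then F0 (k4rd t j) else F1 (k4rd t j), ?_⟩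
      have hval : ∀ x : Fin 3 → ZMod 4, (if ∑ l, k4rd (k4gr x) l = 0 then
          F0 (k4rd (k4gr x) j) else F1 (k4rd (k4gr x) j)) =
          if ∑ l, x l = 0 then F0 (x j) else F1 (x j) := by
        intro x
        simp only [k4rd_gr]
      -- the asymmetric version
      have key : ∀ e ∈ K444.fk 2, (i, a) ∈ e → ∀ x y : Fin 3 → ZMod 4, ∑ l, x l = 0 →
          ∑ l, y l = 1 → e ⊆ k4gr x → e ⊆ k4gr y → F0 (x j) + F1 (y j) = ψ e := by
        intro e he hv x y hx hy hex hey
        obtain ⟨w, hw, m, rfl⟩ := k4_mem_fk2 he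
        rw [k4_erase_sub] at hex hey
        rw [Finset.mem_erase, mem_k4gr] at hv
        have hwi : a = w i := hv.2
        have hmi : m ≠ i := by
          rintro rfl
          apply hv.1
          rw [hwi]
        rcases hall m with rfl | rfl | rfl
        · exact absurd rfl hmi
        · have hxk := hex k hjk.symm
          have hxi := hex i hij
          have hyk := hey k hjk.symm
          have hyi := hey i hij
          rw [hsum] at hx hy
          have h2 : y m = x m + 1 := by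
            rw [hxk, hxi] at hx
            rw [hyk, hyi] at hy
            linear_combination hy - hx
          rw [h2, hG]
          rw [k4_edges hik hij hjk.symm (fun l => ?_), hwi]
          · have h3 : -w i - x m = w k := by
              rw [hxk, hxi] at hx
              linear_combination -hx
            rw [h3]
          · rcases hall l with h | h | h
            · exact Or.inl h
            · exact Or.inr (Or.inr h)
            · exact Or.inr (Or.inl h)
        · have hxj := hex j hjk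
          have hyj := hey j hjk
          rw [hxj, hyj, hF]
          rw [k4_edges hij hik hjk hall, hwi]
      intro e he hv t ht t' ht' het het' hne
      obtain ⟨x, hx, rfl⟩ := k4_mem_fk3.1 ht
      obtain ⟨y, hy, rfl⟩ := k4_mem_fk3.1 ht'
      dsimp only
      rw [hval, hval]
      have hxy : ∑ l, x l ≠ ∑ l, y l := by
        intro hs
        apply hne
        obtain ⟨w, hw, m, rfl⟩ := k4_mem_fk2 he
        rw [k4_erase_sub] at het het'
        rw [k4_ext (x := y) (y := x) (m := m) (fun l hl => ?_) hs]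
        rw [het l hl, het' l hl]
      have h10 : (1 : ZMod 4) ≠ 0 := by decide
      rcases hx with hx | hx <;> rcases hy with hy | hy
      · exact absurd (hx.trans hy.symm) hxy
      · rw [if_pos hx, if_neg (by rw [hy]; exact h10)]
        exact key e he hv x y hx hy het het'
      · rw [if_neg (by rw [hx]; exact h10), if_pos hy, add_comm]
        exact key e he hv y x hy hx het' het
      · exact absurd (hx.trans hy.symm) hxy
    · intro z _ z' _ h
      dsimp only at h
      have h2 : ((k, z) : V444) ∈ ({(i, a), (k, z')} : Finset V444) := by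
        rw [← h]
        simp
      rw [Finset.mem_insert, Finset.mem_singleton, Prod.mk.injEq, Prod.mk.injEq] at h2
      rcases h2 with h2 | h2
      · exact absurd h2.1.symm hik
      · exact h2.2
    · intro z _ z' _ h
      dsimp only at h
      have h2 : ((j, z) : V444) ∈ ({(i, a), (j, z')} : Finset V444) := by
        rw [← h]
        simp
      rw [Finset.mem_insert, Finset.mem_singleton, Prod.mk.injEq, Prod.mk.injEq] at h2
      rcases h2 with h2 | h2
      · exact absurd h2.1.symm hij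
      · exact h2.2
    · rw [Finset.disjoint_left]
      intro e h1 h2
      rw [Finset.mem_image] at h1 h2
      obtain ⟨y, _, rfl⟩ := h1
      obtain ⟨z, _, h⟩ := h2
      have h2 : ((j, y) : V444) ∈ ({(i, a), (k, z)} : Finset V444) := by
        rw [h]
        simp
      rw [Finset.mem_insert, Finset.mem_singleton, Prod.mk.injEq, Prod.mk.injEq] at h2
      rcases h2 with h2 | h2
      · exact hij h2.1.symm
      · exact hjk h2.1

/-- the list of the triangles -/
def k4tri : Finset (Finset V444) :=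
  (Finset.univ : Finset (ZMod 4 × ZMod 4 × Fin 2)).image
    (fun p => {((0 : Fin 3), p.1), (1, p.2.1), (2, (p.2.2.val : ZMod 4) - p.1 - p.2.1)})

lemma k4_fk3 : K444.fk 3 = k4tri := by
  ext t
  rw [k4_mem_fk3, k4tri, Finset.mem_image]
  constructor
  · rintro ⟨x, hx, rfl⟩
    have h4 : x = ![x 0, x 1, x 2] := by
      funext i
      fin_cases i <;> rfl
    rw [K4Val, Fin.sum_univ_three] at hx
    rcases hx with hx | hx
    · refine ⟨(x 0, x 1, 0), Finset.mem_univ _, ?_⟩
      have h5 : (((0 : Fin 2).val : ℕ) : ZMod 4) - x 0 - x 1 = x 2 := by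
        simp only [Fin.val_zero, Nat.cast_zero]
        linear_combination -hx
      dsimp only
      rw [h5, ← k4gr_vec, ← h4]
    · refine ⟨(x 0, x 1, 1), Finset.mem_univ _, ?_⟩
      have h5 : (((1 : Fin 2).val : ℕ) : ZMod 4) - x 0 - x 1 = x 2 := by
        simp only [Fin.val_one, Nat.cast_one]
        linear_combination -hx
      dsimp only
      rw [h5, ← k4gr_vec, ← h4]
  · rintro ⟨⟨a, b, ε⟩, _, rfl⟩
    dsimp only
    rw [← k4gr_vec]
    refine ⟨_, ?_, rfl⟩
    rw [K4Val, Fin.sum_univ_three]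
    change a + b + ((ε.val : ZMod 4) - a - b) = 0 ∨ a + b + ((ε.val : ZMod 4) - a - b) = 1
    have h : a + b + ((ε.val : ZMod 4) - a - b) = (ε.val : ZMod 4) := by ring
    rw [h]
    fin_cases ε
    · left
      rfl
    · right
      rfl

lemma k4_fk (n : ℕ) (hn : n ≠ 0) : K444.fk n = k4tri.biUnion (Finset.powersetCard n) := by
  ext s
  rw [Finset.mem_biUnion, ASC.mem_fk, mem_K444]
  constructor
  · rintro ⟨⟨_, x, hx, hs⟩, hc⟩
    refine ⟨k4gr x, ?_, Finset.mem_powersetCard.2 ⟨hs, hc⟩⟩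
    rw [← k4_fk3]
    exact k4_mem_fk3.2 ⟨x, hx, rfl⟩
  · rintro ⟨t, ht, hs⟩
    rw [← k4_fk3] at ht
    obtain ⟨x, hx, rfl⟩ := k4_mem_fk3.1 ht
    rw [Finset.mem_powersetCard] at hs
    refine ⟨⟨?_, x, hx, hs.1⟩, hs.2⟩
    apply Finset.card_pos.1
    omega

set_option maxRecDepth 100000 in
lemma k4_card3 : k4tri.card = 32 := by decide +kernel

set_option maxRecDepth 100000 in
lemma k4_card2 : (k4tri.biUnion (Finset.powersetCard 2)).card = 48 := by decide +kernel

set_option maxRecDepth 100000 in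
lemma k4_card1 : (k4tri.biUnion (Finset.powersetCard 1)).card = 12 := by decide +kernel

theorem K444_negEuler : negEuler K444 = 4 := by
  rw [negEuler, k4_fk 2 (by norm_num), k4_fk 1 (by norm_num), k4_fk3, k4_card1, k4_card2, k4_card3]
  norm_num

end SepFil
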