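import Pool.Agent.SepFil.Simpl
import Pool.Agent.SepFil.K444

/-!
# A singular 3-cycle of infinite order on `S × S¹`

(module CYCLE of the blueprint)
-/

open Set Filter Topology
open scoped ENNReal NNReal

namespace SepFil

namespace CycleZ

/-! ## Lifts of maps from simplices to the circle -/

instance simplyConnected_stdSimplex (k : ℕ) :
    SimplyConnectedSpace (stdSimplex ℝ (Fin (k + 1))) := by
  have : ContractibleSpace (stdSimplex ℝ (Fin (k + 1))) :=
    (convex_stdSimplex ℝ (Fin (k + 1))).contractibleSpace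
      ⟨_, (stdSimplex.vertex (S := ℝ) (0 : Fin (k + 1))).2⟩
  infer_instance

instance locPath_stdSimplex (k : ℕ) :
    LocallyPathConnectedSpace (stdSimplex ℝ (Fin (k + 1))) :=
  (convex_stdSimplex ℝ (Fin (k + 1))).locallyPathConnectedSpace

/-- `g` is a lift of the circle valued map `f`. -/
def IsLift {k : ℕ} (f : stdSimplex ℝ (Fin (k + 1)) → Circle)
    (g : stdSimplex ℝ (Fin (k + 1)) → ℝ) : Prop :=
  Continuous g ∧ ∀ t, Circle.exp (g t) = f t

theorem exists_lift {k : ℕ} (f : C(stdSimplex ℝ (Fin (k + 1)), Circle)) :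
    ∃ g, IsLift f g := by
  obtain ⟨x, hx⟩ : ∃ x : ℝ, Circle.exp x = f (stdSimplex.vertex 0) :=
    ⟨Complex.arg (f (stdSimplex.vertex 0)), by simp⟩
  obtain ⟨F, ⟨-, hF⟩, -⟩ := Circle.isCoveringMap_exp.existsUnique_continuousMap_lifts f
    (stdSimplex.vertex 0) x hx
  exact ⟨F, F.continuous, fun t => congrFun hF t⟩

theorem lift_diff {k : ℕ} {f : stdSimplex ℝ (Fin (k + 1)) → Circle}
    {g g' : stdSimplex ℝ (Fin (k + 1)) → ℝ} (hg : IsLift f g) (hg' : IsLift f g')
    (s t : stdSimplex ℝ (Fin (k + 1))) : g t - g s = g' t - g' s := by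
  have h : g = fun t => g' t + (g s - g' s) := by
    refine Circle.isCoveringMap_exp.eq_of_comp_eq hg.1 (by have := hg'.1; fun_prop) ?_ s (by ring)
    funext t
    simp only [Function.comp_apply]
    rw [Circle.exp_add, Circle.exp_sub, hg.2, hg'.2, hg.2, hg'.2]
    simp
  have := congrFun h t
  rw [this]; ring

section Coch

variable {X : Type} [TopologicalSpace X]

/-- A chosen lift. -/
noncomputable def pot {k : ℕ} (u : C(X, Circle)) (σ : SSimplex k X) :
    stdSimplex ℝ (Fin (k + 1)) → ℝ :=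
  (exists_lift (u.comp σ)).choose

theorem pot_spec {k : ℕ} (u : C(X, Circle)) (σ : SSimplex k X) :
    IsLift (fun t => u (σ t)) (pot u σ) :=
  (exists_lift (u.comp σ)).choose_spec

/-- The increment of a circle valued map between two vertices of a singular simplex. -/
noncomputable def dl {k : ℕ} (u : C(X, Circle)) (σ : SSimplex k X) (i j : Fin (k + 1)) : ℝ :=
  pot u σ (stdSimplex.vertex j) - pot u σ (stdSimplex.vertex i)

theorem dl_eq {k : ℕ} {u : C(X, Circle)} {σ : SSimplex k X}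
    {g : stdSimplex ℝ (Fin (k + 1)) → ℝ} (hg : IsLift (fun t => u (σ t)) g)
    (i j : Fin (k + 1)) :
    dl u σ i j = g (stdSimplex.vertex j) - g (stdSimplex.vertex i) :=
  lift_diff (pot_spec u σ) hg _ _

theorem dl_face {k : ℕ} (u : C(X, Circle)) (σ : SSimplex (k + 1) X) (m : Fin (k + 2))
    (i j : Fin (k + 1)) :
    dl u (σ.comp (faceMap k m)) i j = pot u σ (stdSimplex.vertex (m.succAbove j)) -
      pot u σ (stdSimplex.vertex (m.succAbove i)) := by
  have h : IsLift (fun t => u ((σ.comp (faceMap k m)) t)) (fun t => pot u σ (faceMap k m t)) :=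
    ⟨(pot_spec u σ).1.comp (faceMap k m).continuous, fun t => (pot_spec u σ).2 _⟩
  rw [dl_eq h]
  simp [faceMap]

/-- The real 3-cochain. -/
noncomputable def coch (a b c : C(X, Circle)) (σ : SSimplex 3 X) : ℝ :=
  dl a σ 0 1 * dl b σ 1 2 * dl c σ 2 3

theorem coch_bdry (a b c : C(X, Circle)) (τ : SSimplex 4 X) :
    ∑ i : Fin 5, ((-1 : ℤ) ^ (i : ℕ)) • coch a b c (τ.comp (faceMap 3 i)) = 0 := by
  have h : ∀ i : Fin 5, coch a b c (τ.comp (faceMap 3 i)) =
      (pot a τ (stdSimplex.vertex (i.succAbove 1)) - pot a τ (stdSimplex.vertex (i.succAbove 0))) *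
      (pot b τ (stdSimplex.vertex (i.succAbove 2)) - pot b τ (stdSimplex.vertex (i.succAbove 1))) *
      (pot c τ (stdSimplex.vertex (i.succAbove 3)) - pot c τ (stdSimplex.vertex (i.succAbove 2))) :=
    fun i => by rw [coch, dl_face, dl_face, dl_face]
  simp only [h]
  have hA : ∀ A B C : Fin 5 → ℝ, ∑ i : Fin 5, ((-1 : ℤ) ^ (i : ℕ)) •
      ((A (i.succAbove 1) - A (i.succAbove 0)) * (B (i.succAbove 2) - B (i.succAbove 1)) *
        (C (i.succAbove 3) - C (i.succAbove 2))) = 0 := by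
    intro A B C
    rw [Fin.sum_univ_five]
    have e00 : (0 : Fin 5).succAbove 0 = 1 := rfl
    have e01 : (0 : Fin 5).succAbove 1 = 2 := rfl
    have e02 : (0 : Fin 5).succAbove 2 = 3 := rfl
    have e03 : (0 : Fin 5).succAbove 3 = 4 := rfl
    have e10 : (1 : Fin 5).succAbove 0 = 0 := rfl
    have e11 : (1 : Fin 5).succAbove 1 = 2 := rfl
    have e12 : (1 : Fin 5).succAbove 2 = 3 := rfl
    have e13 : (1 : Fin 5).succAbove 3 = 4 := rfl
    have e20 : (2 : Fin 5).succAbove 0 = 0 := rfl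
    have e21 : (2 : Fin 5).succAbove 1 = 1 := rfl
    have e22 : (2 : Fin 5).succAbove 2 = 3 := rfl
    have e23 : (2 : Fin 5).succAbove 3 = 4 := rfl
    have e30 : (3 : Fin 5).succAbove 0 = 0 := rfl
    have e31 : (3 : Fin 5).succAbove 1 = 1 := rfl
    have e32 : (3 : Fin 5).succAbove 2 = 2 := rfl
    have e33 : (3 : Fin 5).succAbove 3 = 4 := rfl
    have e40 : (4 : Fin 5).succAbove 0 = 0 := rfl
    have e41 : (4 : Fin 5).succAbove 1 = 1 := rfl
    have e42 : (4 : Fin 5).succAbove 2 = 2 := rfl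
    have e43 : (4 : Fin 5).succAbove 3 = 3 := rfl
    have v0 : ((0 : Fin 5) : ℕ) = 0 := rfl
    have v1 : ((1 : Fin 5) : ℕ) = 1 := rfl
    have v2 : ((2 : Fin 5) : ℕ) = 2 := rfl
    have v3 : ((3 : Fin 5) : ℕ) = 3 := rfl
    have v4 : ((4 : Fin 5) : ℕ) = 4 := rfl
    rw [e00, e01, e02, e03, e10, e11, e12, e13, e20, e21, e22, e23, e30, e31, e32, e33, e40, e41,
      e42, e43, v0, v1, v2, v3, v4]
    simp only [zsmul_eq_mul]
    push_cast
    ring
  exact hA (fun i => pot a τ (stdSimplex.vertex i)) (fun i => pot b τ (stdSimplex.vertex i))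
    (fun i => pot c τ (stdSimplex.vertex i))

/-- The boundary of a single simplex. -/
theorem bdry_single {k : ℕ} (τ : SSimplex (k + 1) X) (n : ℤ) :
    bdry ℤ X k (Finsupp.single τ n) = ∑ i : Fin (k + 2),
      ((-1 : ℤ) ^ (i : ℕ)) • Finsupp.single (τ.comp (faceMap k i)) n := by
  simp [bdry]

/-- The pairing with the cochain. -/
noncomputable def pair (a b c : C(X, Circle)) : (SSimplex 3 X →₀ ℤ) →ₗ[ℤ] ℝ :=
  Finsupp.linearCombination ℤ (coch a b c)

theorem pair_single (a b c : C(X, Circle)) (σ : SSimplex 3 X) (n : ℤ) :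
    pair a b c (Finsupp.single σ n) = n * coch a b c σ := by
  simp [pair]

theorem pair_bdry (a b c : C(X, Circle)) (w : SSimplex 4 X →₀ ℤ) :
    pair a b c (bdry ℤ X 3 w) = 0 := by
  have h : (pair a b c).comp (bdry ℤ X 3) = 0 := by
    apply Finsupp.lhom_ext
    intro τ n
    rw [LinearMap.comp_apply, bdry_single, map_sum, LinearMap.zero_apply]
    have := coch_bdry a b c τ
    calc ∑ i : Fin 5, pair a b c (((-1 : ℤ) ^ (i : ℕ)) • Finsupp.single (τ.comp (faceMap 3 i)) n)
        = ∑ i : Fin 5, (n : ℝ) * (((-1 : ℤ) ^ (i : ℕ)) • coch a b c (τ.comp (faceMap 3 i))) := by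
          refine Finset.sum_congr rfl fun i _ => ?_
          rw [map_zsmul, pair_single, mul_smul_comm]
      _ = 0 := by rw [← Finset.mul_sum, this, mul_zero]
  exact LinearMap.congr_fun h w

end Coch

/-! ## Affine simplices in `S × S¹` -/

abbrev X444 : Type := K444.real × Circle

section Weights

variable {V : Type} [Fintype V] [DecidableEq V]

theorem sum_map {m : ℕ} (f : Fin (m + 1) → V) (t : stdSimplex ℝ (Fin (m + 1))) (c : V → ℝ) :
    ∑ v, (stdSimplex.map f t) v * c v = ∑ k, t k * c (f k) := by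
  simp only [stdSimplex.map_coe, FunOnFinite.linearMap_apply_apply, Finset.sum_mul]
  rw [← Finset.sum_fiberwise (s := Finset.univ) (g := f)]
  refine Finset.sum_congr rfl fun v _ => ?_
  refine Finset.sum_congr ?_ ?_
  · ext k; simp
  · intro k hk
    simp at hk
    rw [hk]

theorem supp_map {m : ℕ} (f : Fin (m + 1) → V) (t : stdSimplex ℝ (Fin (m + 1))) {v : V}
    (hv : v ∈ supp (stdSimplex.map f t : V → ℝ)) : ∃ k, f k = v ∧ t k ≠ 0 := by
  rw [mem_supp] at hv
  by_contra h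
  push Not at h
  apply hv
  simp only [stdSimplex.map_coe, FunOnFinite.linearMap_apply_apply]
  apply Finset.sum_eq_zero
  intro k hk
  simp at hk
  exact h k hk

end Weights

/-- The vertices of the simplex `q` span a face. -/
def Ok {m : ℕ} (f : Fin (m + 1) → V444) : Prop := Finset.univ.image f ∈ K444.faces

theorem Ok.face {m : ℕ} {f : Fin (m + 2) → V444} (h : Ok f) (i : Fin (m + 2)) :
    Ok (fun k => f (i.succAbove k)) := by
  refine K444.down_closed _ h _ ?_ (Finset.univ_nonempty.image _)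
  intro v hv
  rw [Finset.mem_image] at hv ⊢
  obtain ⟨k, -, rfl⟩ := hv
  exact ⟨_, Finset.mem_univ _, rfl⟩

theorem map_mem_real {m : ℕ} {f : Fin (m + 1) → V444} (h : Ok f)
    (t : stdSimplex ℝ (Fin (m + 1))) : (stdSimplex.map f t : V444 → ℝ) ∈ K444.real := by
  refine ⟨fun v => stdSimplex.zero_le _ _, stdSimplex.sum_eq_one _, ?_⟩
  refine K444.down_closed _ h _ ?_ (supp_nonempty_of_sum (stdSimplex.sum_eq_one _))
  intro v hv
  obtain ⟨k, hk, -⟩ := supp_map f t hv
  exact Finset.mem_image.2 ⟨k, Finset.mem_univ _, hk⟩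

theorem real_nonempty : Nonempty K444.real := by
  have h : Ok (fun _ : Fin 1 => ((0 : Fin 3), (0 : ZMod 4))) := by
    refine ⟨Finset.univ_nonempty.image _, 0, 0, 0, Or.inl (by simp), ?_⟩
    intro v hv
    rw [Finset.mem_image] at hv
    obtain ⟨k, -, rfl⟩ := hv
    simp
  exact ⟨⟨_, map_mem_real h (stdSimplex.vertex 0)⟩⟩

/-- The affine singular simplex with vertices `(f k, l k)`. -/
noncomputable def S {m : ℕ} (q : Fin (m + 1) → V444 × ℤ) : SSimplex m X444 := by
  classical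
  exact if h : Ok (fun k => (q k).1) then
    ⟨fun t => (⟨stdSimplex.map (fun k => (q k).1) t, map_mem_real h t⟩,
      Circle.exp (2 * Real.pi * ∑ k, t k * ((q k).2 : ℝ))), by
        refine Continuous.prodMk ?_ ?_
        · refine Continuous.subtype_mk ?_ _
          exact continuous_subtype_val.comp (stdSimplex.continuous_map _)
        · refine Circle.exp.continuous.comp ?_
          refine continuous_const.mul (continuous_finsetSum _ fun k _ => ?_)
          exact ((continuous_apply k).comp continuous_subtype_val).mul continuous_const⟩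
  else ContinuousMap.const _ (real_nonempty.some, 1)

theorem S_fst {m : ℕ} {q : Fin (m + 1) → V444 × ℤ} (h : Ok (fun k => (q k).1))
    (t : stdSimplex ℝ (Fin (m + 1))) :
    (((S q) t).1 : V444 → ℝ) = stdSimplex.map (fun k => (q k).1) t := by
  unfold S
  rw [dif_pos h]
  rfl

theorem S_snd {m : ℕ} {q : Fin (m + 1) → V444 × ℤ} (h : Ok (fun k => (q k).1))
    (t : stdSimplex ℝ (Fin (m + 1))) :
    ((S q) t).2 = Circle.exp (2 * Real.pi * ∑ k, t k * ((q k).2 : ℝ)) := by
  unfold S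
  rw [dif_pos h]
  rfl

theorem S_ext {m : ℕ} {σ τ : SSimplex m X444} (h1 : ∀ t, ((σ t).1 : V444 → ℝ) = (τ t).1)
    (h2 : ∀ t, (σ t).2 = (τ t).2) : σ = τ := by
  ext1 t
  exact Prod.ext (Subtype.ext (h1 t)) (h2 t)

theorem S_face {m : ℕ} {q : Fin (m + 2) → V444 × ℤ} (h : Ok (fun k => (q k).1))
    (i : Fin (m + 2)) : (S q).comp (faceMap m i) = S (fun k => q (i.succAbove k)) := by
  have h' : Ok (fun k => (q (i.succAbove k)).1) := h.face i
  apply S_ext
  · intro t
    rw [S_fst (q := fun k => q (i.succAbove k)) h']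
    change (((S q) (faceMap m i t)).1 : V444 → ℝ) = _
    rw [S_fst h]
    change ⇑(stdSimplex.map (fun k => (q k).1) (stdSimplex.map i.succAbove t)) = _
    rw [stdSimplex.map_comp_apply]
    rfl
  · intro t
    rw [S_snd (q := fun k => q (i.succAbove k)) h']
    change ((S q) (faceMap m i t)).2 = _
    rw [S_snd h]
    congr 2
    change ∑ k, (stdSimplex.map i.succAbove t) k * ((q k).2 : ℝ) = _
    rw [sum_map i.succAbove t (fun k => ((q k).2 : ℝ))]

theorem S_shift {m : ℕ} {f : Fin (m + 1) → V444} (h : Ok f) :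
    S (fun k => (f k, 1)) = S (fun k => (f k, 0)) := by
  apply S_ext
  · intro t
    rw [S_fst (q := fun k => (f k, 1)) h, S_fst (q := fun k => (f k, 0)) h]
  · intro t
    rw [S_snd (q := fun k => (f k, 1)) h, S_snd (q := fun k => (f k, 0)) h]
    simp only [Int.cast_one, mul_one, Int.cast_zero, mul_zero, Finset.sum_const_zero]
    have h1 : ∑ k, t k = 1 := stdSimplex.sum_eq_one t
    rw [h1, mul_one, Circle.exp_two_pi, Circle.exp_zero]

/-- The basis element of an affine simplex. -/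
noncomputable def sg {m : ℕ} (q : Fin (m + 1) → V444 × ℤ) : SSimplex m X444 →₀ ℤ :=
  Finsupp.single (S q) 1

theorem bdry_sg {m : ℕ} {q : Fin (m + 2) → V444 × ℤ} (h : Ok (fun k => (q k).1)) :
    bdry ℤ X444 m (sg q) =
      ∑ i : Fin (m + 2), ((-1 : ℤ) ^ (i : ℕ)) • sg (fun k => q (i.succAbove k)) := by
  unfold sg
  rw [bdry_single]
  refine Finset.sum_congr rfl fun i _ => ?_
  rw [S_face h]

theorem bdry_sg4 {p0 p1 p2 p3 : V444 × ℤ} (h : Ok (fun k => (![p0, p1, p2, p3] k).1)) :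
    bdry ℤ X444 2 (sg ![p0, p1, p2, p3]) =
      sg ![p1, p2, p3] - sg ![p0, p2, p3] + sg ![p0, p1, p3] - sg ![p0, p1, p2] := by
  rw [bdry_sg h, Fin.sum_univ_four]
  have e0 : (fun k => ![p0, p1, p2, p3] ((0 : Fin 4).succAbove k)) = ![p1, p2, p3] := by
    funext k; fin_cases k <;> rfl
  have e1 : (fun k => ![p0, p1, p2, p3] ((1 : Fin 4).succAbove k)) = ![p0, p2, p3] := by
    funext k; fin_cases k <;> rfl
  have e2 : (fun k => ![p0, p1, p2, p3] ((2 : Fin 4).succAbove k)) = ![p0, p1, p3] := by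
    funext k; fin_cases k <;> rfl
  have e3 : (fun k => ![p0, p1, p2, p3] ((3 : Fin 4).succAbove k)) = ![p0, p1, p2] := by
    funext k; fin_cases k <;> rfl
  rw [e0, e1, e2, e3]
  have v0 : ((0 : Fin 4) : ℕ) = 0 := rfl
  have v1 : ((1 : Fin 4) : ℕ) = 1 := rfl
  have v2 : ((2 : Fin 4) : ℕ) = 2 := rfl
  have v3 : ((3 : Fin 4) : ℕ) = 3 := rfl
  rw [v0, v1, v2, v3]
  simp only [pow_zero, pow_one, one_smul, neg_smul]
  have p2 : ((-1 : ℤ)) ^ 2 = 1 := by norm_num
  have p3 : ((-1 : ℤ)) ^ 3 = -1 := by norm_num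
  rw [p2, p3, one_smul, neg_smul, one_smul]
  abel

theorem ok_of_mem {m : ℕ} {u v w : V444} (h : ({u, v, w} : Finset V444) ∈ K444.faces)
    {f : Fin (m + 1) → V444} (hf : ∀ k, f k = u ∨ f k = v ∨ f k = w) : Ok f := by
  refine K444.down_closed _ h _ ?_ (Finset.univ_nonempty.image _)
  intro x hx
  rw [Finset.mem_image] at hx
  obtain ⟨k, -, rfl⟩ := hx
  simpa using hf k

/-- The prism over a triangle. -/
noncomputable def Pr (u v w : V444) : SSimplex 3 X444 →₀ ℤ :=
  sg ![(u, 0), (v, 0), (w, 0), (w, 1)] - sg ![(u, 0), (v, 0), (v, 1), (w, 1)] +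
    sg ![(u, 0), (u, 1), (v, 1), (w, 1)]

/-- The prism over an edge. -/
noncomputable def Qe (u w : V444) : SSimplex 2 X444 →₀ ℤ :=
  sg ![(u, 0), (u, 1), (w, 1)] - sg ![(u, 0), (w, 0), (w, 1)]

theorem top_bot {u v w : V444} (h : ({u, v, w} : Finset V444) ∈ K444.faces) :
    sg ![(u, 1), (v, 1), (w, 1)] = sg ![(u, 0), (v, 0), (w, 0)] := by
  have hok : Ok ![u, v, w] := by
    refine ok_of_mem h ?_
    intro k
    fin_cases k <;> simp
  have := S_shift hok
  have e1 : (fun k => (![u, v, w] k, (1 : ℤ))) = ![(u, 1), (v, 1), (w, 1)] := by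
    funext k; fin_cases k <;> rfl
  have e0 : (fun k => (![u, v, w] k, (0 : ℤ))) = ![(u, 0), (v, 0), (w, 0)] := by
    funext k; fin_cases k <;> rfl
  rw [e1, e0] at this
  unfold sg
  rw [this]

theorem bdry_Pr {u v w : V444} (h : ({u, v, w} : Finset V444) ∈ K444.faces) :
    bdry ℤ X444 2 (Pr u v w) = Qe u w - Qe u v - Qe v w := by
  unfold Pr Qe
  rw [map_add, map_sub, bdry_sg4, bdry_sg4, bdry_sg4, top_bot h]
  · abel
  all_goals
    refine ok_of_mem h ?_
    intro k
    fin_cases k <;> simp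

theorem mem_faces {a b c : ZMod 4} (h : a + b + c = 0 ∨ a + b + c = 1) :
    ({((0 : Fin 3), a), (1, b), (2, c)} : Finset V444) ∈ K444.faces :=
  ⟨by simp, a, b, c, h, subset_rfl⟩

/-- The cycle. -/
noncomputable def zz : SSimplex 3 X444 →₀ ℤ :=
  ∑ a : ZMod 4, ∑ b : ZMod 4, (Pr (0, a) (1, b) (2, -a - b) - Pr (0, a) (1, b) (2, 1 - a - b))

theorem bdry_zz : bdry ℤ X444 2 zz = 0 := by
  unfold zz
  rw [map_sum]
  have h : ∀ a : ZMod 4, bdry ℤ X444 2
      (∑ b : ZMod 4, (Pr (0, a) (1, b) (2, -a - b) - Pr (0, a) (1, b) (2, 1 - a - b))) =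
      ∑ b : ZMod 4, (Qe (0, a) (2, -a - b) - Qe (0, a) (2, 1 - a - b)) -
      ∑ b : ZMod 4, (Qe (1, b) (2, -a - b) - Qe (1, b) (2, 1 - a - b)) := by
    intro a
    rw [map_sum, ← Finset.sum_sub_distrib]
    refine Finset.sum_congr rfl fun b _ => ?_
    rw [map_sub, bdry_Pr (mem_faces (Or.inl (by ring))), bdry_Pr (mem_faces (Or.inr (by ring)))]
    abel
  simp only [h]
  rw [Finset.sum_sub_distrib]
  have h1 : ∀ a : ZMod 4, ∑ b : ZMod 4, (Qe (0, a) (2, -a - b) - Qe (0, a) (2, 1 - a - b)) = 0 := by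
    intro a
    rw [Finset.sum_sub_distrib]
    have e1 := Equiv.sum_comp (Equiv.subLeft (-a)) (fun c : ZMod 4 => Qe (0, a) (2, c))
    have e2 := Equiv.sum_comp (Equiv.subLeft (1 - a)) (fun c : ZMod 4 => Qe (0, a) (2, c))
    simp only [Equiv.subLeft_apply] at e1 e2
    rw [e1, e2, sub_self]
  have h2 : ∑ a : ZMod 4, ∑ b : ZMod 4, (Qe (1, b) (2, -a - b) - Qe (1, b) (2, 1 - a - b)) = 0 := by
    rw [Finset.sum_comm]
    refine Finset.sum_eq_zero fun b _ => ?_
    rw [Finset.sum_sub_distrib]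
    have e1 := Equiv.sum_comp (Equiv.subLeft (-b)) (fun c : ZMod 4 => Qe (1, b) (2, c))
    have e2 := Equiv.sum_comp (Equiv.subLeft (1 - b)) (fun c : ZMod 4 => Qe (1, b) (2, c))
    simp only [Equiv.subLeft_apply] at e1 e2
    have e3 : ∀ a : ZMod 4, -a - b = -b - a := fun a => by ring
    have e4 : ∀ a : ZMod 4, 1 - a - b = 1 - b - a := fun a => by ring
    simp only [e3, e4]
    rw [e1, e2, sub_self]
  rw [h2, Finset.sum_eq_zero fun a _ => h1 a, sub_zero]

/-! ## Circle valued maps on the surface from integer cocycles -/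

/-- An integer valued 1-cocycle on the complex. -/
def IsZCocyc (α : V444 → V444 → ℤ) : Prop :=
  ∀ s ∈ K444.faces, ∀ u ∈ s, ∀ v ∈ s, ∀ w ∈ s, α u v + α v w = α u w

theorem exp_int_add (n : ℤ) (x : ℝ) : Circle.exp (2 * Real.pi * (n + x)) =
    Circle.exp (2 * Real.pi * x) := by
  rw [mul_add, Circle.exp_add]
  have : Circle.exp (2 * Real.pi * n) = 1 := by
    rw [Circle.exp_eq_one]
    exact ⟨n, by ring⟩
  rw [this, one_mul]

theorem exp_change {α : V444 → V444 → ℤ} (hα : IsZCocyc α) {y : V444 → ℝ} (hy : y ∈ K444.real)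
    {u v : V444} {s : Finset V444} (hs : s ∈ K444.faces) (hys : supp y ⊆ s) (hu : u ∈ s)
    (hv : v ∈ s) :
    Circle.exp (2 * Real.pi * ∑ w, y w * (α u w : ℝ)) =
      Circle.exp (2 * Real.pi * ∑ w, y w * (α v w : ℝ)) := by
  have h : ∑ w, y w * (α u w : ℝ) = (α u v : ℝ) + ∑ w, y w * (α v w : ℝ) := by
    have h1 : (α u v : ℝ) = ∑ w, y w * (α u v : ℝ) := by
      rw [← Finset.sum_mul, hy.2.1, one_mul]
    rw [h1, ← Finset.sum_add_distrib]
    refine Finset.sum_congr rfl fun w _ => ?_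
    by_cases hw : y w = 0
    · rw [hw]; ring
    · have hw' : w ∈ s := hys (mem_supp.2 hw)
      rw [← hα s hs u hu v hv w hw']
      push_cast
      ring
  rw [h, exp_int_add]

/-- The circle valued map of an integer cocycle. -/
noncomputable def U0 (α : V444 → V444 → ℤ) (y : K444.real) : Circle :=
  Circle.exp (2 * Real.pi * ∑ w, (y : V444 → ℝ) w *
    (α (supp_nonempty_of_sum y.2.2.1).choose w : ℝ))

theorem U0_eq {α : V444 → V444 → ℤ} (hα : IsZCocyc α) (y : K444.real) {v : V444}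
    {s : Finset V444} (hs : s ∈ K444.faces) (hys : supp (y : V444 → ℝ) ⊆ s) (hv : v ∈ s) :
    U0 α y = Circle.exp (2 * Real.pi * ∑ w, (y : V444 → ℝ) w * (α v w : ℝ)) :=
  exp_change hα y.2 hs hys (hys (supp_nonempty_of_sum y.2.2.1).choose_spec) hv

theorem continuous_U0 {α : V444 → V444 → ℤ} (hα : IsZCocyc α) : Continuous (U0 α) := by
  rw [continuous_iff_continuousAt]
  intro y
  obtain ⟨v, hv⟩ := supp_nonempty_of_sum y.2.2.1
  have h1 : Continuous (fun y' : K444.real =>
      Circle.exp (2 * Real.pi * ∑ w, (y' : V444 → ℝ) w * (α v w : ℝ))) := by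
    refine Circle.exp.continuous.comp ?_
    refine continuous_const.mul (continuous_finsetSum _ fun w _ => ?_)
    exact ((continuous_apply w).comp continuous_subtype_val).mul continuous_const
  refine h1.continuousAt.congr ?_
  have h2 : ∀ᶠ y' : K444.real in 𝓝 y, (y' : V444 → ℝ) v ≠ 0 := by
    have h3 : Continuous (fun y' : K444.real => (y' : V444 → ℝ) v) :=
      (continuous_apply v).comp continuous_subtype_val
    exact h3.continuousAt.eventually_ne (mem_supp.1 hv)
  filter_upwards [h2] with y' hy'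
  exact (U0_eq hα y' y'.2.2.2 subset_rfl (mem_supp.2 hy')).symm

/-- The circle valued map of an integer cocycle, on `S × S¹`. -/
noncomputable def U (α : V444 → V444 → ℤ) (hα : IsZCocyc α) : C(X444, Circle) :=
  ⟨fun x => U0 α x.1, (continuous_U0 hα).comp continuous_fst⟩

/-- The projection to the circle. -/
def Th : C(X444, Circle) := ⟨fun x => x.2, continuous_snd⟩

theorem dl_U {α : V444 → V444 → ℤ} (hα : IsZCocyc α) {m : ℕ} {q : Fin (m + 1) → V444 × ℤ}
    (h : Ok (fun k => (q k).1)) (i j : Fin (m + 1)) :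
    dl (U α hα) (S q) i j = 2 * Real.pi * (α (q i).1 (q j).1 : ℝ) := by
  have hl : IsLift (fun t => U α hα (S q t))
      (fun t => 2 * Real.pi * ∑ k, t k * (α (q i).1 (q k).1 : ℝ)) := by
    constructor
    · refine continuous_const.mul (continuous_finsetSum _ fun w _ => ?_)
      exact ((continuous_apply w).comp continuous_subtype_val).mul continuous_const
    · intro t
      change _ = U0 α (S q t).1
      have hs : supp ((S q t).1 : V444 → ℝ) ⊆ Finset.univ.image (fun k => (q k).1) := by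
        rw [S_fst h]
        intro v hv
        obtain ⟨k, hk, -⟩ := supp_map _ t hv
        exact Finset.mem_image.2 ⟨k, Finset.mem_univ _, hk⟩
      rw [U0_eq hα (S q t).1 h hs (v := (q i).1) (Finset.mem_image.2 ⟨i, Finset.mem_univ _, rfl⟩),
        S_fst h, sum_map]
  rw [dl_eq hl]
  have h1 : ∀ j : Fin (m + 1), ∑ k, (stdSimplex.vertex (S := ℝ) j) k *
      (α (q i).1 (q k).1 : ℝ) = (α (q i).1 (q j).1 : ℝ) := by
    intro j
    rw [Finset.sum_eq_single j]
    · simp
    · intro k _ hk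
      simp [hk]
    · simp
  rw [h1, h1]
  have h2 : α (q i).1 (q i).1 = 0 := by
    have := hα _ h (q i).1 (Finset.mem_image.2 ⟨i, Finset.mem_univ _, rfl⟩) (q i).1
      (Finset.mem_image.2 ⟨i, Finset.mem_univ _, rfl⟩) (q i).1
      (Finset.mem_image.2 ⟨i, Finset.mem_univ _, rfl⟩)
    omega
  rw [h2]
  simp

theorem dl_Th {m : ℕ} {q : Fin (m + 1) → V444 × ℤ}
    (h : Ok (fun k => (q k).1)) (i j : Fin (m + 1)) :
    dl Th (S q) i j = 2 * Real.pi * ((q j).2 - (q i).2 : ℝ) := by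
  have hl : IsLift (fun t => Th (S q t))
      (fun t => 2 * Real.pi * ∑ k, t k * ((q k).2 : ℝ)) := by
    constructor
    · refine continuous_const.mul (continuous_finsetSum _ fun w _ => ?_)
      exact ((continuous_apply w).comp continuous_subtype_val).mul continuous_const
    · intro t
      change _ = (S q t).2
      rw [S_snd h]
  rw [dl_eq hl]
  have h1 : ∀ j : Fin (m + 1), ∑ k, (stdSimplex.vertex (S := ℝ) j) k *
      ((q k).2 : ℝ) = ((q j).2 : ℝ) := by
    intro j
    rw [Finset.sum_eq_single j]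
    · simp
    · intro k _ hk
      simp [hk]
    · simp
  rw [h1, h1]
  ring

theorem coch_S {α β : V444 → V444 → ℤ} (hα : IsZCocyc α) (hβ : IsZCocyc β)
    {q : Fin 4 → V444 × ℤ} (h : Ok (fun k => (q k).1)) :
    coch (U α hα) (U β hβ) Th (S q) = (2 * Real.pi) ^ 3 *
      (α (q 0).1 (q 1).1 * β (q 1).1 (q 2).1 * ((q 3).2 - (q 2).2) : ℤ) := by
  unfold coch
  rw [dl_U hα h, dl_U hβ h, dl_Th h]
  push_cast
  ring

theorem pair_Pr {α β : V444 → V444 → ℤ} (hα : IsZCocyc α) (hβ : IsZCocyc β)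
    {u v w : V444} (h : ({u, v, w} : Finset V444) ∈ K444.faces) :
    pair (U α hα) (U β hβ) Th (Pr u v w) = (2 * Real.pi) ^ 3 * (α u v * β v w : ℤ) := by
  have hvv : β v v = 0 := by
    have := hβ _ h v (by simp) v (by simp) v (by simp)
    omega
  have huu : α u u = 0 := by
    have := hα _ h u (by simp) u (by simp) u (by simp)
    omega
  unfold Pr sg
  rw [map_add, map_sub, pair_single, pair_single, pair_single, coch_S, coch_S, coch_S]
  · simp [hvv, huu]
  all_goals
    refine ok_of_mem h ?_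
    intro k
    fin_cases k <;> simp

/-- Antisymmetric extension of three tables. -/
def ext3 (xy yz xz : ZMod 4 → ZMod 4 → ℤ) (u v : V444) : ℤ :=
  if u.1 = 0 ∧ v.1 = 1 then xy u.2 v.2
  else if u.1 = 1 ∧ v.1 = 0 then - xy v.2 u.2
  else if u.1 = 1 ∧ v.1 = 2 then yz u.2 v.2
  else if u.1 = 2 ∧ v.1 = 1 then - yz v.2 u.2
  else if u.1 = 0 ∧ v.1 = 2 then xz u.2 v.2
  else if u.1 = 2 ∧ v.1 = 0 then - xz v.2 u.2
  else 0

theorem ext3_cocyc {xy yz xz : ZMod 4 → ZMod 4 → ℤ}
    (h : ∀ a b c : ZMod 4, a + b + c = 0 ∨ a + b + c = 1 → xy a b + yz b c = xz a c) :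
    IsZCocyc (ext3 xy yz xz) := by
  rintro s ⟨-, a, b, c, habc, hs⟩ u hu v hv w hw
  have h1 := h a b c habc
  have hu' := hs hu
  have hv' := hs hv
  have hw' := hs hw
  simp only [Finset.mem_insert, Finset.mem_singleton] at hu' hv' hw'
  rcases hu' with rfl | rfl | rfl <;> rcases hv' with rfl | rfl | rfl <;>
    rcases hw' with rfl | rfl | rfl <;> simp [ext3] <;> omega

/-- The tables of the two cocycles. -/
def axy (a b : ZMod 4) : ℤ := if a = 0 ∧ b = 0 then 1 else if a = 1 ∧ b = 3 then -1 else 0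
/-- table -/
def ayz (b c : ZMod 4) : ℤ := if b = 0 ∧ c = 0 then -1 else if b = 3 ∧ c = 1 then 1 else 0
/-- table -/
def axz (a c : ZMod 4) : ℤ := if a = 1 ∧ c = 0 then -1 else if a = 0 ∧ c = 1 then 1 else 0
/-- table -/
def bxy (a b : ZMod 4) : ℤ := if a = 0 ∧ b = 1 then 1 else if a = 1 ∧ b = 0 then -1 else 0
/-- table -/
def byz (b c : ZMod 4) : ℤ := if b = 1 ∧ c = 3 then -1 else if b = 0 ∧ c = 0 then 1 else 0
/-- table -/
def bxz (a c : ZMod 4) : ℤ := if a = 1 ∧ c = 3 then -1 else if a = 0 ∧ c = 0 then 1 else 0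

theorem a_cocyc : IsZCocyc (ext3 axy ayz axz) := ext3_cocyc (by decide)
theorem b_cocyc : IsZCocyc (ext3 bxy byz bxz) := ext3_cocyc (by decide)

theorem pair_zz : pair (U _ a_cocyc) (U _ b_cocyc) Th zz = (2 * Real.pi) ^ 3 := by
  unfold zz
  rw [map_sum]
  have h : ∀ a : ZMod 4, pair (U _ a_cocyc) (U _ b_cocyc) Th
      (∑ b : ZMod 4, (Pr (0, a) (1, b) (2, -a - b) - Pr (0, a) (1, b) (2, 1 - a - b))) =
      (2 * Real.pi) ^ 3 * ((∑ b : ZMod 4, (axy a b * byz b (-a - b) -
        axy a b * byz b (1 - a - b)) : ℤ) : ℝ) := by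
    intro a
    rw [map_sum, Int.cast_sum, Finset.mul_sum]
    refine Finset.sum_congr rfl fun b _ => ?_
    rw [map_sub, pair_Pr _ _ (mem_faces (Or.inl (by ring))),
      pair_Pr _ _ (mem_faces (Or.inr (by ring)))]
    have e1 : ext3 axy ayz axz (0, a) (1, b) = axy a b := by simp [ext3]
    have e2 : ∀ c, ext3 bxy byz bxz (1, b) (2, c) = byz b c := by intro c; simp [ext3]
    rw [e1, e2, e2]
    push_cast
    ring
  simp only [h]
  rw [← Finset.mul_sum, ← Int.cast_sum]
  have h2 : ∑ a : ZMod 4, ∑ b : ZMod 4, (axy a b * byz b (-a - b) -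
        axy a b * byz b (1 - a - b)) = 1 := by decide
  rw [h2]
  simp

end CycleZ

open CycleZ in
theorem exists_cycle444 : ∃ z : SSimplex 3 (K444.real × Circle) →₀ ℤ,
    IsCycle ℤ (K444.real × Circle) 3 z ∧
    ∀ m : ℤ, m ≠ 0 → ¬ ∃ b : SSimplex 4 (K444.real × Circle) →₀ ℤ,
      m • z = bdry ℤ (K444.real × Circle) 3 b := by
  refine ⟨zz, bdry_zz, ?_⟩
  rintro m hm ⟨b, hb⟩
  have h := congrArg (pair (U _ a_cocyc) (U _ b_cocyc) Th) hb
  rw [map_zsmul, pair_zz, pair_bdry, zsmul_eq_mul] at h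
  have hpi : (2 * Real.pi) ^ 3 ≠ 0 := by positivity
  rcases mul_eq_zero.1 h with h | h
  · exact hm (by exact_mod_cast h)
  · exact hpi h

namespace CycleZ

/-- The chain map of a continuous map. -/
noncomputable def push {X Y : Type} [TopologicalSpace X] [TopologicalSpace Y] (f : C(X, Y))
    (k : ℕ) : (SSimplex k X →₀ ℤ) →ₗ[ℤ] (SSimplex k Y →₀ ℤ) :=
  Finsupp.lmapDomain ℤ ℤ fun σ => f.comp σ

theorem bdry_push {X Y : Type} [TopologicalSpace X] [TopologicalSpace Y] (f : C(X, Y))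
    (k : ℕ) (c : SSimplex (k + 1) X →₀ ℤ) :
    bdry ℤ Y k (push f (k + 1) c) = push f k (bdry ℤ X k c) := by
  have h : (bdry ℤ Y k).comp (push f (k + 1)) = (push f k).comp (bdry ℤ X k) := by
    apply Finsupp.lhom_ext
    intro τ n
    simp only [LinearMap.comp_apply, push, Finsupp.lmapDomain_apply, Finsupp.mapDomain_single]
    rw [bdry_single, bdry_single]
    have e : ∀ c : SSimplex k X →₀ ℤ, Finsupp.mapDomain (fun σ => f.comp σ) c = push f k c :=
      fun c => rfl
    rw [e, map_sum]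
    refine Finset.sum_congr rfl fun i _ => ?_
    rw [map_zsmul, ← e, Finsupp.mapDomain_single]
    rfl
  exact LinearMap.congr_fun h c

theorem push_push {X Y : Type} [TopologicalSpace X] [TopologicalSpace Y]
    (e : X ≃ₜ Y) (k : ℕ) (c : SSimplex k X →₀ ℤ) :
    push (e.symm : C(Y, X)) k (push (e : C(X, Y)) k c) = c := by
  simp only [push, Finsupp.lmapDomain_apply, ← Finsupp.mapDomain_comp]
  have : (fun σ => (e.symm : C(Y, X)).comp σ) ∘ (fun σ : SSimplex k X => (e : C(X, Y)).comp σ) =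
      id := by
    funext σ
    ext1 t
    simp
  rw [this, Finsupp.mapDomain_id]

end CycleZ

/-- Infinite order cycles are transported by homeomorphisms. -/
theorem exists_cycle_of_homeomorph {X Y : Type} [TopologicalSpace X] [TopologicalSpace Y]
    (e : X ≃ₜ Y) {k : ℕ} {z : SSimplex (k + 1) X →₀ ℤ} (hz : IsCycle ℤ X (k + 1) z)
    (hnt : ∀ m : ℤ, m ≠ 0 → ¬ ∃ b : SSimplex (k + 2) X →₀ ℤ, m • z = bdry ℤ X (k + 1) b) :
    ∃ z' : SSimplex (k + 1) Y →₀ ℤ, IsCycle ℤ Y (k + 1) z' ∧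
      (∀ m : ℤ, m ≠ 0 → ¬ ∃ b : SSimplex (k + 2) Y →₀ ℤ, m • z' = bdry ℤ Y (k + 1) b) ∧
      (z'.sum fun _ a => |(a : ℝ)|) = z.sum fun _ a => |(a : ℝ)| := by
  classical
  refine ⟨CycleZ.push (e : C(X, Y)) (k + 1) z, ?_, ?_, ?_⟩
  · change bdry ℤ Y k _ = 0
    have hz' : bdry ℤ X k z = 0 := hz
    rw [CycleZ.bdry_push, hz', map_zero]
  · rintro m hm ⟨b, hb⟩
    refine hnt m hm ⟨CycleZ.push (e.symm : C(Y, X)) (k + 2) b, ?_⟩
    rw [CycleZ.bdry_push, ← hb, map_zsmul, CycleZ.push_push]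
  · have hinj : Function.Injective (fun σ : SSimplex (k + 1) X => (e : C(X, Y)).comp σ) := by
      intro σ τ h
      ext1 t
      have := DFunLike.congr_fun h t
      exact e.injective this
    simp only [CycleZ.push, Finsupp.lmapDomain_apply]
    exact Finsupp.sum_mapDomain_index_inj hinj

end SepFil
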