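import Mathlib

/-!
# Separating filtrations of Riemannian manifolds: the definitions behind MP_805050_gt
-/

open Set MeasureTheory Manifold Bundle Filter Topology
open scoped ContDiff ENNReal

namespace SepFil

/-! ## Closed Riemannian manifolds, orientability, systole, coverings -/

/-- A closed connected smooth Riemannian manifold of dimension `n`; the distance is the
Riemannian distance. -/
structure ClosedRiem (n : ℕ) where
  /-- the underlying set of points -/
  carrier : Type
  [emetric : EMetricSpace carrier]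
  [charted : ChartedSpace (EuclideanSpace ℝ (Fin n)) carrier]
  [mfd : IsManifold (𝓡 n) ∞ carrier]
  [rb : RiemannianBundle (fun x : carrier => TangentSpace (𝓡 n) x)]
  [smoothMetric : IsContMDiffRiemannianBundle (𝓡 n) ∞ (EuclideanSpace ℝ (Fin n))
    (fun x : carrier => TangentSpace (𝓡 n) x)]
  [riem : IsRiemannianManifold (𝓡 n) carrier]
  [compact : CompactSpace carrier]
  [conn : ConnectedSpace carrier]

attribute [instance] ClosedRiem.emetric ClosedRiem.charted ClosedRiem.mfd ClosedRiem.rb
  ClosedRiem.smoothMetric ClosedRiem.riem ClosedRiem.compact ClosedRiem.conn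

/-- A smooth `n`-manifold is orientable if it is covered by charts of its smooth structure whose
transition maps all have positive Jacobian determinant. -/
def Orientable (n : ℕ) (M : Type*) [TopologicalSpace M]
    [ChartedSpace (EuclideanSpace ℝ (Fin n)) M] : Prop :=
  ∃ A ⊆ IsManifold.maximalAtlas (𝓡 n) ∞ M, (∀ x : M, ∃ e ∈ A, x ∈ e.source) ∧
    ∀ e ∈ A, ∀ e' ∈ A, ∀ x ∈ e.source ∩ e'.source,
      0 < (fderiv ℝ (e' ∘ e.symm) (e x)).det

/-- The systole: the infimal length of a loop which is not homotopically trivial. -/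
noncomputable def sys (X : Type*) [EMetricSpace X] : ℝ≥0∞ :=
  ⨅ (x : X) (γ : Path x x) (_ : ¬ γ.Homotopic (Path.refl x)), eVariationOn γ univ

/-- `p : N → M` is a finite-sheeted Riemannian covering: a covering map with finite fibres which
is a smooth local diffeomorphism and a local isometry (for the Riemannian distances). -/
structure IsRiemCover (n : ℕ) {N M : Type*}
    [EMetricSpace N] [ChartedSpace (EuclideanSpace ℝ (Fin n)) N]
    [EMetricSpace M] [ChartedSpace (EuclideanSpace ℝ (Fin n)) M] (p : N → M) : Prop where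
  isCovering : IsCoveringMap p
  finite_fiber : ∀ x, (p ⁻¹' {x}).Finite
  localDiffeo : IsLocalDiffeomorph (𝓡 n) (𝓡 n) ∞ p
  isometric : ∀ x : N, ∃ U ∈ 𝓝 x, ∀ y ∈ U, ∀ z ∈ U, edist (p y) (p z) = edist y z

/-! ## Singular chains and the simplicial volume -/

/-- Singular `k`-simplices of `X`. -/
abbrev SSimplex (k : ℕ) (X : Type*) [TopologicalSpace X] : Type _ :=
  C(stdSimplex ℝ (Fin (k + 1)), X)

/-- The affine inclusion of the `i`-th face of the standard simplex. -/
noncomputable def faceMap (k : ℕ) (i : Fin (k + 2)) :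
    C(stdSimplex ℝ (Fin (k + 1)), stdSimplex ℝ (Fin (k + 2))) :=
  ⟨stdSimplex.map i.succAbove, stdSimplex.continuous_map _⟩

/-- The singular boundary operator, `∂ σ = ∑ i, (-1)^i σ ∘ d_i`. -/
noncomputable def bdry (R : Type*) [CommRing R] (X : Type*) [TopologicalSpace X] (k : ℕ) :
    (SSimplex (k + 1) X →₀ R) →ₗ[R] (SSimplex k X →₀ R) :=
  Finsupp.lsum R fun σ => ∑ i : Fin (k + 2),
    ((-1 : R) ^ (i : ℕ)) • Finsupp.lsingle (σ.comp (faceMap k i))

/-- Singular cycles. -/
def IsCycle (R : Type*) [CommRing R] (X : Type*) [TopologicalSpace X] :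
    (n : ℕ) → (SSimplex n X →₀ R) → Prop
  | 0, _ => True
  | k + 1, c => bdry R X k c = 0

/-- `z` is an integral fundamental cycle of the closed `n`-manifold `X`: a singular integral
`n`-cycle whose class generates `H_n(X; ℤ)`. -/
def IsFundCycle (n : ℕ) (X : Type*) [TopologicalSpace X] (z : SSimplex n X →₀ ℤ) : Prop :=
  IsCycle ℤ X n z ∧ ∀ w : SSimplex n X →₀ ℤ, IsCycle ℤ X n w →
    ∃ (k : ℤ) (b : SSimplex (n + 1) X →₀ ℤ), w - k • z = bdry ℤ X n b

/-- `c` is a real singular cycle representing the real fundamental class, that is, `c` is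
homologous over `ℝ` to an integral fundamental cycle. -/
def RepresentsFund (n : ℕ) (X : Type*) [TopologicalSpace X] (c : SSimplex n X →₀ ℝ) : Prop :=
  ∃ z : SSimplex n X →₀ ℤ, IsFundCycle n X z ∧
    ∃ b : SSimplex (n + 1) X →₀ ℝ, c - z.mapRange (fun a : ℤ => (a : ℝ)) (by simp) = bdry ℝ X n b

/-- The simplicial volume: the infimum of `∑ |a_i|` over the real singular cycles `∑ a_i σ_i`
which represent the real fundamental class. -/
noncomputable def simplicialVolume (n : ℕ) (X : Type*) [TopologicalSpace X] : ℝ :=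
  sInf {r : ℝ | ∃ c : SSimplex n X →₀ ℝ, RepresentsFund n X c ∧ r = c.sum fun _ a => |a|}

/-! ## Smooth triangulations -/

/-- A finite abstract simplicial complex with vertices in `V`. -/
structure ASC (V : Type*) where
  faces : Set (Finset V)
  nonempty_of_mem : ∀ s ∈ faces, s.Nonempty
  down_closed : ∀ s ∈ faces, ∀ t ⊆ s, t.Nonempty → t ∈ faces

/-- The support of a vector, as a finite set. -/
noncomputable def supp {V : Type*} [Fintype V] (y : V → ℝ) : Finset V :=
  (Set.toFinite (Function.support y)).toFinset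

/-- The geometric realisation of a finite simplicial complex, in barycentric coordinates. -/
def ASC.real {V : Type*} [Fintype V] (K : ASC V) : Set (V → ℝ) :=
  {y | (∀ v, 0 ≤ y v) ∧ ∑ v, y v = 1 ∧ supp y ∈ K.faces}

/-- A smooth triangulation of the manifold `N`: a finite simplicial complex `K` and a
homeomorphism `h` of its realisation onto `N` whose restriction to every closed simplex `s` is a
smooth immersion: near every point `x` of the closed simplex `h` extends to a smooth map `g` of the
ambient space, whose derivative at `x`, read in the chart of `N` at `g x`, is injective on the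
vectors parallel to `s`. -/
structure SmoothTri (n : ℕ) (N : Type*) [TopologicalSpace N]
    [ChartedSpace (EuclideanSpace ℝ (Fin n)) N] where
  /-- the vertices -/
  V : Type
  [fin : Fintype V]
  [dec : DecidableEq V]
  K : ASC V
  /-- the parametrisation -/
  h : (V → ℝ) → N
  cont : ContinuousOn h K.real
  bij : BijOn h K.real univ
  smooth : ∀ s ∈ K.faces, ∀ x ∈ K.real, supp x ⊆ s → ∃ g : (V → ℝ) → N,
    ContMDiffAt 𝓘(ℝ, V → ℝ) (𝓡 n) ∞ g x ∧
    (∀ᶠ y in 𝓝 x, y ∈ K.real → supp y ⊆ s → g y = h y) ∧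
    ∀ u : V → ℝ, ∑ v, u v = 0 → (∀ v ∉ s, u v = 0) →
      fderiv ℝ (chartAt (EuclideanSpace ℝ (Fin n)) (g x) ∘ g) x u = 0 → u = 0

attribute [instance] SmoothTri.fin SmoothTri.dec

/-- `Z` is the underlying set of a subcomplex, of dimension at most `i`, of a smooth
triangulation of `N`. -/
def IsSubcomplexSet (n i : ℕ) {N : Type*} [TopologicalSpace N]
    [ChartedSpace (EuclideanSpace ℝ (Fin n)) N] (Z : Set N) : Prop :=
  ∃ (T : SmoothTri n N) (L : ASC T.V), L.faces ⊆ T.K.faces ∧ (∀ s ∈ L.faces, s.card ≤ i + 1) ∧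
    Z = T.h '' L.real

/-! ## Separating filtrations -/

/-- `Y` is a `ρ`-separating subset of `A`: every connected component of `A \ Y` lies in some
ball of radius `ρ`. -/
def IsSeparating {N : Type*} [EMetricSpace N] (ρ : ℝ≥0∞) (A Y : Set N) : Prop :=
  Y ⊆ A ∧ ∀ x ∈ A \ Y, ∃ c, connectedComponentIn (A \ Y) x ⊆ Metric.eball c ρ

/-- A `ρ`-separating filtration `N = Z n ⊇ ⋯ ⊇ Z 0 ⊇ ∅` of the closed `n`-manifold `N`. -/
structure IsSepFiltration (n : ℕ) {N : Type*} [EMetricSpace N]
    [ChartedSpace (EuclideanSpace ℝ (Fin n)) N] (ρ : ℝ≥0∞) (Z : ℕ → Set N) : Prop where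
  top : Z n = univ
  subcomplex : ∀ i < n, IsSubcomplexSet n i (Z i)
  separating : ∀ i < n, IsSeparating ρ (Z (i + 1)) (Z i)
  bot : IsSeparating ρ (Z 0) ∅

/-- The `i`-dimensional area: the `i`-dimensional Hausdorff measure. -/
noncomputable def area (i : ℕ) {N : Type*} [EMetricSpace N] (Z : Set N) : ℝ≥0∞ :=
  letI : MeasurableSpace N := borel N
  haveI : BorelSpace N := ⟨rfl⟩
  Measure.hausdorffMeasure (i : ℝ) Z

/-- The filtration is `ε`-near-minimal. -/
def IsNearMinimal (n : ℕ) {N : Type*} [EMetricSpace N]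
    [ChartedSpace (EuclideanSpace ℝ (Fin n)) N] (ρ ε : ℝ≥0∞) (Z : ℕ → Set N) : Prop :=
  ∀ i < n, ∀ Y : Set N, IsSubcomplexSet n i Y → IsSeparating ρ (Z (i + 1)) Y →
    area i (Z i) ≤ area i Y + ε

/-- The inequality of the problem for the covering `N`: every `ε`-near-minimal
`(sys N / 2)`-separating filtration satisfies `Length Z₁ ≤ C (Vol N + ‖N‖)`. -/
def LengthBound (n : ℕ) (N : ClosedRiem n) (C ε : ℝ) : Prop :=
  ∀ Z : ℕ → Set N.carrier, IsSepFiltration n (sys N.carrier / 2) Z →
    IsNearMinimal n (sys N.carrier / 2) (ENNReal.ofReal ε) Z →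
    area 1 (Z 1) ≤ ENNReal.ofReal C *
      (area n (univ : Set N.carrier) + ENNReal.ofReal (simplicialVolume n N.carrier))

/-- The statement of Q1. -/
def Q1 (n : ℕ) : Prop :=
  ∃ C > 0, ∃ ε > 0, ∀ M : ClosedRiem n, Orientable n M.carrier →
    ∃ (N : ClosedRiem n) (p : N.carrier → M.carrier), IsRiemCover n p ∧ LengthBound n N C ε

end SepFil
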