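import Pool.Agent.SepFil.Complex

/-!
# Derived subdivisions with arbitrary interior points

(module DER of the blueprint)
-/

open Set Filter Topology
open scoped ENNReal

namespace SepFil

set_option linter.unusedSectionVars false

/-! ## Derived subdivisions -/

section Derived

variable {V : Type*} [Fintype V] [DecidableEq V]

/-- The derived complex: vertices are the faces of `K`, faces are the nonempty chains. -/
def ASC.derived (K : ASC V) : ASC (Finset V) where
  faces := {c | c.Nonempty ∧ (∀ s ∈ c, s ∈ K.faces) ∧ ∀ s ∈ c, ∀ t ∈ c, s ⊆ t ∨ t ⊆ s}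
  nonempty_of_mem := fun _ hs => hs.1
  down_closed := fun _ hs _ hts ht => ⟨ht, fun x hx => hs.2.1 x (hts hx),
    fun x hx y hy => hs.2.2 x (hts hx) y (hts hy)⟩

/-- A choice of a point in the interior of every face. -/
def IsInteriorPts (K : ASC V) (b : Finset V → V → ℝ) : Prop :=
  ∀ s ∈ K.faces, (∀ v, 0 ≤ b s v) ∧ ∑ v, b s v = 1 ∧ supp (b s) = s

/-- The barycentre of `s`. -/
noncomputable def bary (s : Finset V) : V → ℝ := fun v => if v ∈ s then (s.card : ℝ)⁻¹ else 0

lemma supp_bary {s : Finset V} (hs : s.Nonempty) : supp (bary s) = s := by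
  have hc : (0 : ℝ) < s.card := by exact_mod_cast hs.card_pos
  ext v
  simp [bary, hc.ne']

lemma bary_isInteriorPts (K : ASC V) : IsInteriorPts K bary := by
  intro s hs
  have hne := K.nonempty_of_mem s hs
  have hc : (0 : ℝ) < s.card := by exact_mod_cast hne.card_pos
  refine ⟨fun v => ?_, ?_, supp_bary hne⟩
  · unfold bary
    split_ifs <;> positivity
  · unfold bary
    rw [Finset.sum_ite_mem, Finset.univ_inter, Finset.sum_const, nsmul_eq_mul,
      mul_inv_cancel₀ hc.ne']

/-- The linear map sending the vertex `s` of the derived complex to `b s`. -/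
noncomputable def lmap (b : Finset V → V → ℝ) : (Finset V → ℝ) →ₗ[ℝ] (V → ℝ) where
  toFun t := fun v => ∑ s, t s * b s v
  map_add' := by intro x y; ext v; simp [add_mul, Finset.sum_add_distrib]
  map_smul' := by intro r x; ext v; simp [mul_assoc, Finset.mul_sum]

lemma lmap_apply (b : Finset V → V → ℝ) (t : Finset V → ℝ) (v : V) :
    lmap b t v = ∑ s, t s * b s v := rfl

/-- A nonempty chain has a largest element. -/
lemma exists_max_chain {K : ASC V} {c : Finset (Finset V)} (hc : c ∈ K.derived.faces) :
    ∃ m ∈ c, ∀ s ∈ c, s ⊆ m := by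
  obtain ⟨m, hm, hmax⟩ := Finset.exists_max_image c Finset.card hc.1
  refine ⟨m, hm, fun s hs => ?_⟩
  rcases hc.2.2 s hs m hm with h | h
  · exact h
  · rw [Finset.eq_of_subset_of_card_le h (hmax s hs)]

lemma sup_eq_of_max {c : Finset (Finset V)} {m : Finset V} (hm : m ∈ c)
    (hmax : ∀ s ∈ c, s ⊆ m) : c.sup id = m :=
  le_antisymm (Finset.sup_le hmax) (Finset.le_sup (f := id) hm)

lemma sup_mem_chain {K : ASC V} {c : Finset (Finset V)} (hc : c ∈ K.derived.faces) :
    c.sup id ∈ c := by
  obtain ⟨m, hm, hmax⟩ := exists_max_chain hc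
  rw [sup_eq_of_max hm hmax]
  exact hm

lemma subset_sup_chain {c : Finset (Finset V)} {s : Finset V} (hs : s ∈ c) : s ⊆ c.sup id :=
  Finset.le_sup (f := id) hs

/-- The largest element of a chain is not covered by the other ones. -/
lemma exists_excl {K : ASC V} {c : Finset (Finset V)} (hc : c ∈ K.derived.faces) :
    ∃ v ∈ c.sup id, ∀ s ∈ c, s ≠ c.sup id → v ∉ s := by
  rcases (c.erase (c.sup id)).eq_empty_or_nonempty with he | hne
  · obtain ⟨v, hv⟩ := K.nonempty_of_mem _ (hc.2.1 _ (sup_mem_chain hc))
    refine ⟨v, hv, fun s hs hne => ?_⟩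
    have : s ∈ c.erase (c.sup id) := Finset.mem_erase.2 ⟨hne, hs⟩
    rw [he] at this
    simp at this
  · have hc' : c.erase (c.sup id) ∈ K.derived.faces :=
      K.derived.down_closed _ hc _ (Finset.erase_subset _ _) hne
    obtain ⟨m, hm, hmax⟩ := exists_max_chain hc'
    have h1 : m ⊂ c.sup id := by
      refine lt_of_le_of_ne (subset_sup_chain (Finset.mem_of_mem_erase hm))
        (Finset.ne_of_mem_erase hm)
    obtain ⟨v, hv, hv'⟩ := Finset.exists_of_ssubset h1
    exact ⟨v, hv, fun s hs hs' hvs => hv' (hmax s (Finset.mem_erase.2 ⟨hs', hs⟩) hvs)⟩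

section

variable {K : ASC V} {b : Finset V → V → ℝ}

lemma b_pos (hb : IsInteriorPts K b) {s : Finset V} (hs : s ∈ K.faces) {v : V} (hv : v ∈ s) :
    0 < b s v := by
  refine lt_of_le_of_ne ((hb s hs).1 v) (Ne.symm ?_)
  have : v ∈ supp (b s) := by rw [(hb s hs).2.2]; exact hv
  exact mem_supp.1 this

lemma b_zero (hb : IsInteriorPts K b) {s : Finset V} (hs : s ∈ K.faces) {v : V} (hv : v ∉ s) :
    b s v = 0 := by
  by_contra h
  have : v ∈ supp (b s) := mem_supp.2 h
  rw [(hb s hs).2.2] at this
  exact hv this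

/-- Nonnegative weights on a (possibly empty) chain. -/
def ChainWt (K : ASC V) (t : Finset V → ℝ) : Prop :=
  (∀ s, 0 ≤ t s) ∧ (supp t = ∅ ∨ supp t ∈ K.derived.faces)

lemma ChainWt.face {t : Finset V → ℝ} (ht : ChainWt K t) {s : Finset V} (hs : s ∈ supp t) :
    s ∈ K.faces := by
  rcases ht.2 with h | h
  · rw [h] at hs; simp at hs
  · exact h.2.1 s hs

lemma ChainWt.term_nonneg (hb : IsInteriorPts K b) {t : Finset V → ℝ} (ht : ChainWt K t)
    (s : Finset V) (v : V) : 0 ≤ t s * b s v := by
  by_cases hs : s ∈ supp t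
  · exact mul_nonneg (ht.1 s) ((hb s (ht.face hs)).1 v)
  · rw [mem_supp, not_not] at hs
    simp [hs]

lemma ChainWt.supp_lmap (hb : IsInteriorPts K b) {t : Finset V → ℝ} (ht : ChainWt K t) :
    supp (lmap b t) = (supp t).sup id := by
  ext v
  rw [mem_supp, lmap_apply, Finset.mem_sup]
  constructor
  · intro h
    obtain ⟨s, -, hs⟩ := Finset.exists_ne_zero_of_sum_ne_zero h
    have h1 : s ∈ supp t := mem_supp.2 (left_ne_zero_of_mul hs)
    refine ⟨s, h1, ?_⟩
    by_contra hv
    exact right_ne_zero_of_mul hs (b_zero hb (ht.face h1) hv)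
  · rintro ⟨s, hs, hv⟩ h0
    have h1 := (Finset.sum_eq_zero_iff_of_nonneg
      (fun s _ => ht.term_nonneg hb s v)).1 h0 s (Finset.mem_univ s)
    have h2 := b_pos hb (ht.face hs) hv
    exact (mem_supp.1 hs) ((mul_eq_zero.1 h1).resolve_right h2.ne')

lemma ChainWt.sum_lmap (hb : IsInteriorPts K b) {t : Finset V → ℝ} (ht : ChainWt K t) :
    ∑ v, lmap b t v = ∑ s, t s := by
  simp only [lmap_apply]
  rw [Finset.sum_comm]
  refine Finset.sum_congr rfl fun s _ => ?_
  rw [← Finset.mul_sum]
  by_cases hs : s ∈ supp t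
  · rw [(hb s (ht.face hs)).2.1, mul_one]
  · rw [mem_supp, not_not] at hs
    simp [hs]

lemma chainWt_of_real {t : Finset V → ℝ} (ht : t ∈ K.derived.real) : ChainWt K t :=
  ⟨ht.1, Or.inr ht.2.2⟩

/-- Value at an exclusive vertex of the largest element. -/
lemma lmap_excl (hb : IsInteriorPts K b) {u : Finset V → ℝ} (hu : supp u ∈ K.derived.faces)
    {v : V} (hv : ∀ s ∈ supp u, s ≠ (supp u).sup id → v ∉ s) :
    lmap b u v = u ((supp u).sup id) * b ((supp u).sup id) v := by
  rw [lmap_apply]
  refine Finset.sum_eq_single _ (fun s _ hs => ?_) (fun h => absurd (Finset.mem_univ _) h)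
  by_cases h : s ∈ supp u
  · rw [b_zero hb (hu.2.1 s h) (hv s h hs), mul_zero]
  · rw [mem_supp, not_not] at h
    rw [h, zero_mul]

lemma lmap_injOn_face (hb : IsInteriorPts K b) {c : Finset (Finset V)}
    (hc : c ∈ K.derived.faces) {u : Finset V → ℝ} (hu : ∀ s ∉ c, u s = 0)
    (h : lmap b u = 0) : u = 0 := by
  by_contra hne
  have h1 : (supp u).Nonempty := by
    rw [Finset.nonempty_iff_ne_empty]
    intro he
    apply hne
    ext s
    by_contra hs
    have : s ∈ supp u := mem_supp.2 hs
    rw [he] at this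
    simp at this
  have h2 : supp u ⊆ c := by
    intro s hs
    by_contra hs'
    exact (mem_supp.1 hs) (hu s hs')
  have h3 : supp u ∈ K.derived.faces := K.derived.down_closed c hc _ h2 h1
  obtain ⟨v, hv, hv'⟩ := exists_excl h3
  have h4 := lmap_excl hb h3 hv'
  rw [h] at h4
  have h5 := b_pos hb (h3.2.1 _ (sup_mem_chain h3)) hv
  have h6 := mem_supp.1 (sup_mem_chain h3)
  exact (mul_ne_zero h6 h5.ne') (by simpa using h4.symm)

lemma vtx_self (s : Finset V) : (vtx s : Finset V → ℝ) s = 1 := by simp [vtx]

lemma vtx_ne {s s' : Finset V} (h : s' ≠ s) : (vtx s : Finset V → ℝ) s' = 0 := by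
  simp [vtx, h]

lemma lmap_vtx (b : Finset V → V → ℝ) (s : Finset V) : lmap b (vtx s) = b s := by
  ext v
  rw [lmap_apply, Finset.sum_eq_single s]
  · rw [vtx_self, one_mul]
  · intro s' _ hs'
    rw [vtx_ne hs', zero_mul]
  · intro h
    exact absurd (Finset.mem_univ _) h

/-- Surjectivity, unnormalised. -/
lemma exists_chainWt (hb : IsInteriorPts K b) (n : ℕ) : ∀ y : V → ℝ, (∀ v, 0 ≤ y v) →
    (supp y).card ≤ n → (supp y = ∅ ∨ supp y ∈ K.faces) →
    ∃ t, ChainWt K t ∧ lmap b t = y := by
  induction n with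
  | zero =>
    intro y hy hn hf
    have he : supp y = ∅ := Finset.card_eq_zero.1 (Nat.le_zero.1 hn)
    refine ⟨0, ⟨fun s => le_rfl, Or.inl ?_⟩, ?_⟩
    · ext s; simp
    · rw [map_zero]
      ext v
      by_contra h
      have : v ∈ supp y := mem_supp.2 (Ne.symm h)
      rw [he] at this
      simp at this
  | succ n ih =>
    intro y hy hn hf
    rcases hf with hf | hf
    · exact ih y hy (by simp [hf]) (Or.inl hf)
    set s := supp y with hs
    have hne := K.nonempty_of_mem s hf
    obtain ⟨v₀, hv₀, hmin⟩ := Finset.exists_min_image s (fun v => y v / b s v) hne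
    set μ := y v₀ / b s v₀ with hμ
    have hy₀ : 0 < y v₀ := lt_of_le_of_ne (hy v₀) (Ne.symm (mem_supp.1 hv₀))
    have hμ0 : 0 < μ := div_pos hy₀ (b_pos hb hf hv₀)
    set y' : V → ℝ := y - μ • b s with hy'
    have hy'0 : ∀ v, 0 ≤ y' v := by
      intro v
      simp only [hy', Pi.sub_apply, Pi.smul_apply, smul_eq_mul, sub_nonneg]
      by_cases hv : v ∈ s
      · have := hmin v hv
        rwa [le_div_iff₀ (b_pos hb hf hv)] at this
      · rw [b_zero hb hf hv, mul_zero]
        exact hy v
    have hsub : supp y' ⊆ s := by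
      intro v hv
      by_contra hv'
      rw [mem_supp] at hv
      apply hv
      have : y v = 0 := by
        by_contra h
        exact hv' (mem_supp.2 h)
      simp [hy', b_zero hb hf hv', this]
    have hv₀' : v₀ ∉ supp y' := by
      rw [mem_supp, not_not]
      simp only [hy', Pi.sub_apply, Pi.smul_apply, smul_eq_mul, hμ]
      rw [div_mul_cancel₀ _ (b_pos hb hf hv₀).ne', sub_self]
    have hssub : supp y' ⊂ s := by
      refine ⟨hsub, fun h => hv₀' (h hv₀)⟩
    have hcard : (supp y').card ≤ n := by
      have := Finset.card_lt_card hssub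
      omega
    have hf' : supp y' = ∅ ∨ supp y' ∈ K.faces := by
      rcases (supp y').eq_empty_or_nonempty with h | h
      · exact Or.inl h
      · exact Or.inr (K.down_closed s hf _ hsub h)
    obtain ⟨t, ht, hty⟩ := ih y' hy'0 hcard hf'
    have hts : ∀ r ∈ supp t, r ⊆ supp y' := by
      intro r hr
      rw [← hty, ht.supp_lmap hb]
      exact subset_sup_chain hr
    have hst : t s = 0 := by
      by_contra h
      have := hts s (mem_supp.2 h)
      exact hv₀' (this hv₀)
    have hsupp : supp (t + μ • (vtx s : Finset V → ℝ)) = insert s (supp t) := by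
      ext r
      rw [mem_supp, Finset.mem_insert, mem_supp]
      by_cases hr : r = s
      · subst hr
        simp only [Pi.add_apply, Pi.smul_apply, vtx_self, smul_eq_mul, mul_one, true_or, iff_true]
        rw [hst, zero_add]
        exact hμ0.ne'
      · simp [vtx_ne hr, hr]
    refine ⟨t + μ • (vtx s : Finset V → ℝ), ⟨fun r => ?_, Or.inr ?_⟩, ?_⟩
    · simp only [Pi.add_apply, Pi.smul_apply, smul_eq_mul]
      by_cases hr : r = s
      · subst hr
        rw [vtx_self, mul_one]
        exact add_nonneg (ht.1 _) hμ0.le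
      · rw [vtx_ne hr, mul_zero, add_zero]
        exact ht.1 r
    · rw [hsupp]
      refine ⟨by simp, fun r hr => ?_, fun r hr r' hr' => ?_⟩
      · rcases Finset.mem_insert.1 hr with rfl | hr
        · exact hf
        · exact ht.face hr
      · rcases Finset.mem_insert.1 hr with rfl | hr1
        · rcases Finset.mem_insert.1 hr' with rfl | hr2
          · exact Or.inl subset_rfl
          · exact Or.inr ((hts r' hr2).trans hsub)
        · rcases Finset.mem_insert.1 hr' with rfl | hr2
          · exact Or.inl ((hts r hr1).trans hsub)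
          · rcases ht.2 with h | h
            · rw [h] at hr1; simp at hr1
            · exact h.2.2 r hr1 r' hr2
    · rw [map_add, map_smul, lmap_vtx, hty, hy']
      simp

/-- Injectivity, unnormalised. -/
lemma chainWt_inj (hb : IsInteriorPts K b) (n : ℕ) : ∀ t t' : Finset V → ℝ, ChainWt K t →
    ChainWt K t' → (supp t).card ≤ n → lmap b t = lmap b t' → t = t' := by
  have key : ∀ t : Finset V → ℝ, ChainWt K t → supp t = ∅ → t = 0 := by
    intro t _ h
    ext s
    by_contra hs
    have : s ∈ supp t := mem_supp.2 hs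
    rw [h] at this
    simp at this
  have hzero : ∀ t t' : Finset V → ℝ, ChainWt K t → ChainWt K t' → supp t = ∅ →
      lmap b t = lmap b t' → t = t' := by
    intro t t' ht ht' h h'
    have h0 := key t ht h
    subst h0
    rw [map_zero] at h'
    have h1 := ht'.supp_lmap hb
    rw [← h'] at h1
    have h2 : supp t' = ∅ := by
      rcases ht'.2 with h | h
      · exact h
      · exfalso
        obtain ⟨v, hv⟩ := K.nonempty_of_mem _ (h.2.1 _ (sup_mem_chain h))
        rw [← h1] at hv
        simp at hv
    exact (key t' ht' h2).symm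
  induction n with
  | zero =>
    intro t t' ht ht' hn h
    exact hzero t t' ht ht' (Finset.card_eq_zero.1 (Nat.le_zero.1 hn)) h
  | succ n ih =>
    intro t t' ht ht' hn h
    rcases ht.2 with he | hf
    · exact hzero t t' ht ht' he h
    rcases ht'.2 with he' | hf'
    · exact (hzero t' t ht' ht he' h.symm).symm
    have hm : (supp t).sup id = (supp t').sup id := by
      rw [← ht.supp_lmap hb, ← ht'.supp_lmap hb, h]
    set m := (supp t).sup id with hmdef
    have hmf : m ∈ K.faces := hf.2.1 _ (sup_mem_chain hf)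
    have aux : ∀ r r' : Finset V → ℝ, ChainWt K r → supp r ∈ K.derived.faces →
        ChainWt K r' → lmap b r = lmap b r' → (supp r).sup id = m → r' m ≤ r m := by
      intro r r' hr hrf hr' hrr hrm
      obtain ⟨v, hv, hv'⟩ := exists_excl hrf
      have h1 := lmap_excl hb hrf hv'
      rw [hrm] at h1 hv
      have h2 : r' m * b m v ≤ lmap b r' v := by
        rw [lmap_apply]
        exact Finset.single_le_sum (f := fun s => r' s * b s v)
          (fun s _ => hr'.term_nonneg hb s v) (Finset.mem_univ m)
      rw [← hrr, h1] at h2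
      exact le_of_mul_le_mul_right h2 (b_pos hb hmf hv)
    have heq : t m = t' m :=
      le_antisymm (aux t' t ht' hf' ht h.symm hm.symm) (aux t t' ht hf ht' h rfl)
    have hsub : ∀ r : Finset V → ℝ, ChainWt K r → r m ≠ 0 →
        ChainWt K (r - r m • (vtx m : Finset V → ℝ)) ∧
        supp (r - r m • (vtx m : Finset V → ℝ)) = (supp r).erase m := by
      intro r hr hrm
      have hs : supp (r - r m • (vtx m : Finset V → ℝ)) = (supp r).erase m := by
        ext s
        rw [mem_supp, Finset.mem_erase, mem_supp]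
        by_cases hsm : s = m
        · subst hsm
          simp [vtx_self]
        · simp [vtx_ne hsm, hsm]
      refine ⟨⟨fun s => ?_, ?_⟩, hs⟩
      · by_cases hsm : s = m
        · subst hsm
          simp [vtx_self]
        · simp [vtx_ne hsm, hr.1 s]
      · rw [hs]
        rcases ((supp r).erase m).eq_empty_or_nonempty with h0 | h0
        · exact Or.inl h0
        · rcases hr.2 with h1 | h1
          · rw [h1] at h0; simp at h0
          · exact Or.inr (K.derived.down_closed _ h1 _ (Finset.erase_subset _ _) h0)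
    have htm : t m ≠ 0 := mem_supp.1 (sup_mem_chain hf)
    have htm' : t' m ≠ 0 := heq ▸ htm
    obtain ⟨h1, h2⟩ := hsub t ht htm
    obtain ⟨h3, -⟩ := hsub t' ht' htm'
    have h4 := ih _ _ h1 h3 (by
      rw [h2, Finset.card_erase_of_mem (sup_mem_chain hf)]; omega) (by
      rw [map_sub, map_sub, map_smul, map_smul, h, heq])
    rw [heq] at h4
    exact sub_left_injective h4

end

/-- The derived subdivision with arbitrary interior points. -/
theorem exists_derivedRefinement (K : ASC V) (b : Finset V → V → ℝ) (hb : IsInteriorPts K b) :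
    ∃ R : Refinement K.derived K, R.L = lmap b ∧ ∀ c ∈ K.derived.faces, R.car c = c.sup id := by
  refine ⟨{ L := lmap b, bij := ⟨?_, ?_, ?_⟩, car := fun c => c.sup id, car_mem := ?_,
            card_le := ?_, supp_L := ?_, inj := ?_ }, rfl, fun _ _ => rfl⟩
  · intro t ht
    have hw := chainWt_of_real ht
    refine ⟨fun v => ?_, ?_, ?_⟩
    · rw [lmap_apply]
      exact Finset.sum_nonneg fun s _ => hw.term_nonneg hb s v
    · rw [hw.sum_lmap hb]
      exact ht.2.1
    · rw [hw.supp_lmap hb]
      exact ht.2.2.2.1 _ (sup_mem_chain ht.2.2)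
  · intro t ht t' ht' h
    exact chainWt_inj hb _ t t' (chainWt_of_real ht) (chainWt_of_real ht') le_rfl h
  · intro y hy
    obtain ⟨t, ht, hty⟩ := exists_chainWt hb _ y hy.1 le_rfl (Or.inr hy.2.2)
    refine ⟨t, ⟨ht.1, ?_, ?_⟩, hty⟩
    · rw [← ht.sum_lmap hb, hty]
      exact hy.2.1
    · rcases ht.2 with h | h
      · exfalso
        have h1 := ht.supp_lmap hb
        rw [hty, h] at h1
        have h2 := K.nonempty_of_mem _ hy.2.2
        rw [h1] at h2
        simp at h2
      · exact h
  · intro c hc
    exact hc.2.1 _ (sup_mem_chain hc)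
  · intro c hc
    have h1 : c.card = (c.image Finset.card).card := by
      rw [Finset.card_image_of_injOn]
      intro s hs t ht hst
      rcases hc.2.2 s hs t ht with h | h
      · exact Finset.eq_of_subset_of_card_le h (le_of_eq hst.symm)
      · exact (Finset.eq_of_subset_of_card_le h (le_of_eq hst)).symm
    have h2 : c.image Finset.card ⊆ Finset.Icc 1 (c.sup id).card := by
      intro k hk
      obtain ⟨s, hs, rfl⟩ := Finset.mem_image.1 hk
      rw [Finset.mem_Icc]
      exact ⟨(K.nonempty_of_mem _ (hc.2.1 s hs)).card_pos,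
        Finset.card_le_card (subset_sup_chain hs)⟩
    rw [h1]
    calc _ ≤ (Finset.Icc 1 (c.sup id).card).card := Finset.card_le_card h2
      _ = (c.sup id).card := by simp
  · intro t ht
    exact (chainWt_of_real ht).supp_lmap hb
  · intro c hc u hu h
    exact lmap_injOn_face hb hc hu h

end Derived

end SepFil
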