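import Pool.Agent.SepFil.Defs

/-!
# The Eilenberg inequality in dimension one

(module EIL of the blueprint)
-/

open Set MeasureTheory Filter Topology
open scoped ENNReal NNReal

namespace SepFil

/-- The levels whose slice of `A` contains `n` points at mutual distance more than `1/(k+1)`. -/
def sepLevels {X : Type*} [EMetricSpace X] (A : Set X) (φ : X → ℝ) (n k : ℕ) : Set ℝ :=
  {τ | ∃ s : Finset X, s.card = n ∧ (s : Set X) ⊆ A ∩ φ ⁻¹' {τ} ∧
    ∀ x ∈ s, ∀ y ∈ s, x ≠ y → ((k : ℝ≥0∞) + 1)⁻¹ < edist x y}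

theorem sepLevels_mono {X : Type*} [EMetricSpace X] (A : Set X) (φ : X → ℝ) (n : ℕ) :
    Monotone (sepLevels A φ n) := by
  intro k l hkl τ hτ
  obtain ⟨s, hs, hsub, hd⟩ := hτ
  refine ⟨s, hs, hsub, fun x hx y hy hxy => lt_of_le_of_lt ?_ (hd x hx y hy hxy)⟩
  rw [ENNReal.inv_le_inv]
  gcongr

theorem mem_iUnion_sepLevels {X : Type*} [EMetricSpace X] (A : Set X) (φ : X → ℝ) (n : ℕ)
    (τ : ℝ) (h : (n : ℕ∞) ≤ (A ∩ φ ⁻¹' {τ}).encard) : τ ∈ ⋃ k, sepLevels A φ n k := by
  obtain ⟨t, ht, htn⟩ := Set.exists_subset_encard_eq h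
  have hfin : t.Finite := Set.finite_of_encard_eq_coe htn
  set s : Finset X := hfin.toFinset with hs
  have hsc : s.card = n := by
    have : (t.encard : ℕ∞) = (s.card : ℕ∞) := by
      rw [hs, hfin.encard_eq_coe_toFinset_card]
    rw [htn] at this
    exact_mod_cast this.symm
  have hev : ∀ᶠ k : ℕ in atTop, ∀ x ∈ s, ∀ y ∈ s, x ≠ y →
      ((k : ℝ≥0∞) + 1)⁻¹ < edist x y := by
    rw [Finset.eventually_all]
    intro x _
    rw [Finset.eventually_all]
    intro y _
    by_cases hxy : x = y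
    · exact Eventually.of_forall fun k h => absurd hxy h
    · have hpos : 0 < edist x y := edist_pos.2 hxy
      have ht : Tendsto (fun k : ℕ => ((k : ℝ≥0∞) + 1)⁻¹) atTop (𝓝 0) := by
        have := (tendsto_add_atTop_iff_nat 1).2 ENNReal.tendsto_inv_nat_nhds_zero
        simpa using this
      filter_upwards [ht.eventually_lt_const hpos] with k hk _ using hk
  obtain ⟨k, hk⟩ := hev.exists
  refine mem_iUnion.2 ⟨k, s, hsc, ?_, hk⟩
  intro x hx
  exact ht (by simpa [hs] using hx)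

theorem mul_volume_sepLevels_le {X : Type*} [EMetricSpace X] (A : Set X) {φ : X → ℝ}
    (hφ : LipschitzWith 1 φ) (n k : ℕ) (t : ℕ → Set X) (hA : A ⊆ ⋃ j, t j)
    (ht : ∀ j, Metric.ediam (t j) ≤ ((k : ℝ≥0∞) + 1)⁻¹) :
    (n : ℝ≥0∞) * volume (sepLevels A φ n k) ≤
      ∑' j, ⨆ _ : (t j).Nonempty, Metric.ediam (t j) ^ (1 : ℝ) := by
  classical
  set I : ℕ → Set ℝ := fun j => closure (φ '' t j) with hI
  have hmeas : ∀ j, MeasurableSet (I j) := fun j => isClosed_closure.measurableSet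
  set f : ℝ → ℝ≥0∞ := fun τ => ∑' j, (I j).indicator (fun _ => (1 : ℝ≥0∞)) τ with hf
  have hfm : Measurable f :=
    Measurable.ennreal_tsum fun j => measurable_const.indicator (hmeas j)
  have hsub : sepLevels A φ n k ⊆ {τ | (n : ℝ≥0∞) ≤ f τ} := by
    rintro τ ⟨s, hs, hsA, hd⟩
    have hex : ∀ x ∈ s, ∃ j, x ∈ t j := fun x hx => mem_iUnion.1 (hA (hsA hx).1)
    choose! g hg using hex
    have hinj : Set.InjOn g s := by
      intro x hx y hy hxy
      by_contra hne
      have h1 := hd x hx y hy hne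
      have h2 : edist x y ≤ Metric.ediam (t (g x)) :=
        Metric.edist_le_ediam_of_mem (hg x hx) (hxy ▸ hg y hy)
      exact absurd (h1.trans_le (h2.trans (ht _))) (lt_irrefl _)
    have hmem : ∀ x ∈ s, τ ∈ I (g x) := by
      intro x hx
      have : φ x = τ := (hsA hx).2
      exact subset_closure ⟨x, hg x hx, this⟩
    calc (n : ℝ≥0∞) = ∑ j ∈ s.image g, (1 : ℝ≥0∞) := by
          rw [Finset.sum_const, Finset.card_image_of_injOn hinj, hs]; simp
      _ = ∑ j ∈ s.image g, (I j).indicator (fun _ => (1 : ℝ≥0∞)) τ := by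
          refine Finset.sum_congr rfl fun j hj => ?_
          obtain ⟨x, hx, rfl⟩ := Finset.mem_image.1 hj
          rw [Set.indicator_of_mem (hmem x hx)]
      _ ≤ f τ := ENNReal.sum_le_tsum _
  calc (n : ℝ≥0∞) * volume (sepLevels A φ n k)
      ≤ (n : ℝ≥0∞) * volume {τ | (n : ℝ≥0∞) ≤ f τ} := by gcongr
    _ ≤ ∫⁻ τ, f τ := mul_meas_ge_le_lintegral hfm _
    _ = ∑' j, volume (I j) := by
        rw [hf, lintegral_tsum fun j => (measurable_const.indicator (hmeas j)).aemeasurable]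
        refine tsum_congr fun j => ?_
        rw [lintegral_indicator (hmeas j)]
        simp
    _ ≤ ∑' j, ⨆ _ : (t j).Nonempty, Metric.ediam (t j) ^ (1 : ℝ) := by
        refine ENNReal.tsum_le_tsum fun j => ?_
        rcases (t j).eq_empty_or_nonempty with he | hne
        · simp [hI, he]
        · rw [ENNReal.rpow_one]
          refine le_trans ?_ (le_iSup (fun _ : (t j).Nonempty => Metric.ediam (t j)) hne)
          calc volume (I j) ≤ Metric.ediam (I j) := Real.volume_le_diam _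
            _ = Metric.ediam (φ '' t j) := Metric.ediam_closure _
            _ ≤ ((1 : ℝ≥0) : ℝ≥0∞) * Metric.ediam (t j) := hφ.ediam_image_le _
            _ = Metric.ediam (t j) := by simp

theorem mul_le_area_one {X : Type*} [EMetricSpace X] (A : Set X) {φ : X → ℝ}
    (hφ : LipschitzWith 1 φ) (n : ℕ) {r : ℝ} (hr : 0 < r)
    (h : ∀ᵐ τ : ℝ, |τ| < r → (n : ℕ∞) ≤ (A ∩ φ ⁻¹' {τ}).encard) :
    ENNReal.ofReal (2 * r) * n ≤ area 1 A := by
  letI : MeasurableSpace X := borel X
  haveI : BorelSpace X := ⟨rfl⟩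
  have hvol : ENNReal.ofReal (2 * r) ≤ ⨆ k, volume (sepLevels A φ n k) := by
    rw [← (sepLevels_mono A φ n).directed_le.measure_iUnion]
    calc ENNReal.ofReal (2 * r) = volume (Ioo (-r) r) := by
          rw [Real.volume_Ioo]; congr 1; ring
      _ ≤ volume (⋃ k, sepLevels A φ n k) := by
          refine measure_mono_ae ?_
          filter_upwards [h] with τ hτ hmem
          exact mem_iUnion_sepLevels A φ n τ (hτ (abs_lt.2 hmem))
  have hcov : ∀ k, (n : ℝ≥0∞) * volume (sepLevels A φ n k) ≤ Measure.hausdorffMeasure (1 : ℝ) A := by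
    intro k
    rw [Measure.hausdorffMeasure_apply]
    refine le_iSup₂_of_le ((k : ℝ≥0∞) + 1)⁻¹ (by simp) ?_
    refine le_iInf fun t => le_iInf fun hA => le_iInf fun ht => ?_
    exact mul_volume_sepLevels_le A hφ n k t hA ht
  calc ENNReal.ofReal (2 * r) * n ≤ (⨆ k, volume (sepLevels A φ n k)) * n := by gcongr
    _ = ⨆ k, (n : ℝ≥0∞) * volume (sepLevels A φ n k) := by
        rw [mul_comm, ENNReal.mul_iSup]
    _ ≤ Measure.hausdorffMeasure (1 : ℝ) A := iSup_le hcov
    _ = area 1 A := by simp [area]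

end SepFil
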