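import Pool.Agent.SepFil.ExSMfd

/-!
# The closed 3-manifold `S × S¹`

(module EXM of the blueprint)
-/

open Set MeasureTheory Manifold Bundle Filter Topology
open scoped ContDiff ENNReal

namespace SepFil

/-- The closed 3-manifold `S × S¹`. -/
def M444 : Type := S444 × Circle

noncomputable instance : TopologicalSpace M444 := inferInstanceAs (TopologicalSpace (S444 × Circle))
instance : T2Space M444 := inferInstanceAs (T2Space (S444 × Circle))
instance : CompactSpace M444 := inferInstanceAs (CompactSpace (S444 × Circle))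
instance : ConnectedSpace Circle := by
  have h : Function.Surjective (Circle.exp : ℝ → Circle) := fun z =>
    ⟨Complex.arg z, by simp⟩
  exact h.connectedSpace Circle.exp.continuous
instance : ConnectedSpace M444 := inferInstanceAs (ConnectedSpace (S444 × Circle))

/-- The pair `(y, z)` as a point of `S × S¹`. -/
def M444.mk (y : S444) (z : Circle) : M444 := (y, z)

/-- The linear identification of the model spaces. -/
noncomputable def modelEquiv :
    (EuclideanSpace ℝ (Fin 2) × EuclideanSpace ℝ (Fin 1)) ≃L[ℝ] EuclideanSpace ℝ (Fin 3) :=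
  ContinuousLinearEquiv.ofFinrankEq (by simp)

/-- Product charts. -/
noncomputable def prodChart (e : OpenPartialHomeomorph S444 (EuclideanSpace ℝ (Fin 2)))
    (e' : OpenPartialHomeomorph Circle (EuclideanSpace ℝ (Fin 1))) :
    OpenPartialHomeomorph M444 (EuclideanSpace ℝ (Fin 3)) :=
  (OpenPartialHomeomorph.prod e e').transHomeomorph modelEquiv.toHomeomorph

/-- The smooth structure of `S × S¹`. -/
noncomputable instance : ChartedSpace (EuclideanSpace ℝ (Fin 3)) M444 where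
  atlas := {e | ∃ e₁ ∈ atlas (EuclideanSpace ℝ (Fin 2)) S444,
    ∃ e₂ ∈ atlas (EuclideanSpace ℝ (Fin 1)) Circle, e = prodChart e₁ e₂}
  chartAt x := prodChart (chartAt _ x.1) (chartAt _ x.2)
  mem_chart_source x := by
    change x ∈ (OpenPartialHomeomorph.prod _ _).source
    exact ⟨mem_chart_source _ x.1, mem_chart_source _ x.2⟩
  chart_mem_atlas x := ⟨_, chart_mem_atlas _ _, _, chart_mem_atlas _ _, rfl⟩

/-- Transition maps of an atlas of a boundaryless self-modelled manifold are smooth. -/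
theorem contDiffOn_trans {n : ℕ} {X : Type*} [TopologicalSpace X]
    [ChartedSpace (EuclideanSpace ℝ (Fin n)) X] [IsManifold (𝓡 n) ∞ X]
    {e e' : OpenPartialHomeomorph X (EuclideanSpace ℝ (Fin n))}
    (he : e ∈ atlas (EuclideanSpace ℝ (Fin n)) X) (he' : e' ∈ atlas (EuclideanSpace ℝ (Fin n)) X) :
    ContDiffOn ℝ ∞ (e.symm.trans e') (e.symm.trans e').source := by
  have h := (contDiffGroupoid ∞ (𝓡 n)).compatible he he'
  rw [contDiffGroupoid, mem_groupoid_of_pregroupoid] at h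
  have h1 := h.1
  simpa [contDiffPregroupoid] using h1

instance : IsManifold (𝓡 3) ∞ M444 := by
  apply isManifold_of_contDiffOn
  rintro _ _ ⟨e₁, he₁, e₂, he₂, rfl⟩ ⟨f₁, hf₁, f₂, hf₂, rfl⟩
  have h1 := contDiffOn_trans he₁ hf₁
  have h2 := contDiffOn_trans he₂ hf₂
  have h3 : ContDiffOn ℝ ∞ (Prod.map (e₁.symm.trans f₁) (e₂.symm.trans f₂))
      ((e₁.symm.trans f₁).source ×ˢ (e₂.symm.trans f₂).source) := h1.prodMap h2
  have h4 : ContDiffOn ℝ ∞ (fun X => modelEquiv ((Prod.map (e₁.symm.trans f₁) (e₂.symm.trans f₂))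
      (modelEquiv.symm X)))
      (modelEquiv.symm ⁻¹' ((e₁.symm.trans f₁).source ×ˢ (e₂.symm.trans f₂).source)) :=
    modelEquiv.contDiff.comp_contDiffOn (h3.comp modelEquiv.symm.contDiff.contDiffOn
      (fun X hX => hX))
  refine h4.mono ?_
  rintro X ⟨hX, -⟩
  change X ∈ ((prodChart e₁ e₂).symm.trans (prodChart f₁ f₂)).source at hX
  rw [OpenPartialHomeomorph.trans_source] at hX
  obtain ⟨ha, hb⟩ := hX
  change modelEquiv.symm X ∈ (OpenPartialHomeomorph.prod e₁ e₂).target at ha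
  change _ ∈ (OpenPartialHomeomorph.prod f₁ f₂).source at hb
  change (_ ∈ e₁.target ∧ e₁.symm _ ∈ f₁.source) ∧ (_ ∈ e₂.target ∧ e₂.symm _ ∈ f₂.source)
  exact ⟨⟨ha.1, hb.1⟩, ⟨ha.2, hb.2⟩⟩

/-- The identity map to the product manifold. -/
def toProd (x : M444) : S444 × Circle := x

/-- The identity map from the product manifold. -/
def ofProd (x : S444 × Circle) : M444 := x

theorem continuous_toProd : Continuous toProd := continuous_id
theorem continuous_ofProd : Continuous ofProd := continuous_id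

theorem contMDiff_toProd : ContMDiff (𝓡 3) ((𝓡 2).prod (𝓡 1)) ∞ toProd := by
  intro x
  rw [contMDiffAt_iff]
  refine ⟨continuous_toProd.continuousAt, ?_⟩
  have h : ContDiffAt ℝ ∞ (fun X => modelEquiv.symm X) (extChartAt (𝓡 3) x x) :=
    modelEquiv.symm.contDiff.contDiffAt
  refine (h.congr_of_eventuallyEq ?_).contDiffWithinAt
  have ht : (extChartAt (𝓡 3) x).target ∈ 𝓝 (extChartAt (𝓡 3) x x) := extChartAt_target_mem_nhds x
  filter_upwards [ht] with X hX
  have hX' : X ∈ (chartAt (EuclideanSpace ℝ (Fin 3)) x).target := by simpa using hX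
  change modelEquiv.symm X ∈ (OpenPartialHomeomorph.prod
    (chartAt (EuclideanSpace ℝ (Fin 2)) x.1) (chartAt (EuclideanSpace ℝ (Fin 1)) x.2)).target at hX'
  change ((chartAt (EuclideanSpace ℝ (Fin 2)) x.1) ((chartAt (EuclideanSpace ℝ (Fin 2)) x.1).symm
    (modelEquiv.symm X).1), (chartAt (EuclideanSpace ℝ (Fin 1)) x.2)
      ((chartAt (EuclideanSpace ℝ (Fin 1)) x.2).symm (modelEquiv.symm X).2)) = modelEquiv.symm X
  rw [(chartAt (EuclideanSpace ℝ (Fin 2)) x.1).right_inv hX'.1,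
    (chartAt (EuclideanSpace ℝ (Fin 1)) x.2).right_inv hX'.2]

theorem contMDiff_ofProd : ContMDiff ((𝓡 2).prod (𝓡 1)) (𝓡 3) ∞ ofProd := by
  intro x
  rw [contMDiffAt_iff]
  refine ⟨continuous_ofProd.continuousAt, ?_⟩
  have h : ContDiffAt ℝ ∞ (fun X => modelEquiv X) (extChartAt ((𝓡 2).prod (𝓡 1)) x x) :=
    modelEquiv.contDiff.contDiffAt
  refine (h.congr_of_eventuallyEq ?_).contDiffWithinAt
  have ht : (extChartAt ((𝓡 2).prod (𝓡 1)) x).target ∈ 𝓝 (extChartAt ((𝓡 2).prod (𝓡 1)) x x) :=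
    extChartAt_target_mem_nhds x
  filter_upwards [ht] with X hX
  rw [extChartAt_prod, PartialEquiv.prod_target] at hX
  have hX1 : X.1 ∈ (chartAt (EuclideanSpace ℝ (Fin 2)) x.1).target := by simpa using hX.1
  have hX2 : X.2 ∈ (chartAt (EuclideanSpace ℝ (Fin 1)) x.2).target := by simpa using hX.2
  change modelEquiv ((chartAt (EuclideanSpace ℝ (Fin 2)) x.1) ((chartAt (EuclideanSpace ℝ (Fin 2)) x.1).symm
    X.1), (chartAt (EuclideanSpace ℝ (Fin 1)) x.2)
      ((chartAt (EuclideanSpace ℝ (Fin 1)) x.2).symm X.2)) = modelEquiv X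
  rw [(chartAt (EuclideanSpace ℝ (Fin 2)) x.1).right_inv hX1,
    (chartAt (EuclideanSpace ℝ (Fin 1)) x.2).right_inv hX2]

theorem contMDiff_fst444 : ContMDiff (𝓡 3) (𝓡 2) ∞ (fun x : M444 => x.1) :=
  contMDiff_fst.comp contMDiff_toProd

theorem contMDiff_snd444 : ContMDiff (𝓡 3) (𝓡 1) ∞ (fun x : M444 => x.2) :=
  contMDiff_snd.comp contMDiff_toProd

/-- A map into `S × S¹` with smooth components is smooth. -/
theorem contMDiffAt_mk444 {E H X : Type*} [NormedAddCommGroup E] [NormedSpace ℝ E]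
    [TopologicalSpace H] {I : ModelWithCorners ℝ E H} [TopologicalSpace X] [ChartedSpace H X]
    {f : X → S444} {g : X → Circle} {x : X} (hf : ContMDiffAt I (𝓡 2) ∞ f x)
    (hg : ContMDiffAt I (𝓡 1) ∞ g x) :
    ContMDiffAt I (𝓡 3) ∞ (fun y => M444.mk (f y) (g y)) x :=
  ContMDiffAt.comp x (contMDiff_ofProd.contMDiffAt (x := (f x, g x))) (hf.prodMk hg)

/-- A tangent vector of `S × S¹` with zero components is zero. -/
theorem eq_zero_of_mfderiv444 {x : M444} {v : TangentSpace (𝓡 3) x}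
    (h1 : mfderiv (𝓡 3) (𝓡 2) (fun x : M444 => x.1) x v = 0)
    (h2 : mfderiv (𝓡 3) (𝓡 1) (fun x : M444 => x.2) x v = 0) : v = 0 := by
  have hd : MDifferentiableAt (𝓡 3) ((𝓡 2).prod (𝓡 1)) toProd x :=
    contMDiff_toProd.mdifferentiableAt (by simp)
  have hd' : MDifferentiableAt ((𝓡 2).prod (𝓡 1)) (𝓡 3) ofProd (toProd x) :=
    contMDiff_ofProd.mdifferentiableAt (by simp)
  have e1 : mfderiv (𝓡 3) (𝓡 2) (fun x : M444 => x.1) x =
      (mfderiv ((𝓡 2).prod (𝓡 1)) (𝓡 2) Prod.fst (toProd x)).comp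
        (mfderiv (𝓡 3) ((𝓡 2).prod (𝓡 1)) toProd x) :=
    mfderiv_comp (M' := S444 × Circle) (g := Prod.fst) (f := toProd) x mdifferentiableAt_fst hd
  have e2 : mfderiv (𝓡 3) (𝓡 1) (fun x : M444 => x.2) x =
      (mfderiv ((𝓡 2).prod (𝓡 1)) (𝓡 1) Prod.snd (toProd x)).comp
        (mfderiv (𝓡 3) ((𝓡 2).prod (𝓡 1)) toProd x) :=
    mfderiv_comp (M' := S444 × Circle) (g := Prod.snd) (f := toProd) x mdifferentiableAt_snd hd
  rw [mfderiv_fst] at e1
  rw [mfderiv_snd] at e2
  rw [e1] at h1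
  rw [e2] at h2
  have h3 : mfderiv (𝓡 3) ((𝓡 2).prod (𝓡 1)) toProd x v = 0 := Prod.ext h1 h2
  have h4 : (mfderiv ((𝓡 2).prod (𝓡 1)) (𝓡 3) ofProd (toProd x)).comp
      (mfderiv (𝓡 3) ((𝓡 2).prod (𝓡 1)) toProd x) = ContinuousLinearMap.id ℝ _ := by
    rw [← mfderiv_comp x hd' hd]
    exact mfderiv_id
  have h5 := DFunLike.congr_fun h4 v
  rw [ContinuousLinearMap.comp_apply, h3, map_zero] at h5
  exact h5.symm

end SepFil
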