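import Pool.Agent.SepFil.ExM

/-!
# `S × S¹` is orientable

(module EXOR of the blueprint)
-/

open Set MeasureTheory Manifold Bundle Filter Topology
open scoped ContDiff ENNReal NNReal

namespace SepFil

namespace ExOr

theorem finrank_fact : Fact (Module.finrank ℝ ℂ = 1 + 1) := ⟨by simp⟩

attribute [local instance] finrank_fact

/-- The angle chart of the circle centred at `a`. -/
noncomputable def angChart (a : ℝ) : OpenPartialHomeomorph Circle ℝ where
  toFun z := a + Complex.arg ((z * (Circle.exp a)⁻¹ : Circle) : ℂ)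
  invFun t := Circle.exp t
  source := {z | ((z * (Circle.exp a)⁻¹ : Circle) : ℂ) ∈ Complex.slitPlane}
  target := Ioo (a - Real.pi) (a + Real.pi)
  map_source' := by
    intro z hz
    have h1 := Complex.neg_pi_lt_arg ((z * (Circle.exp a)⁻¹ : Circle) : ℂ)
    have h2 := Complex.arg_le_pi ((z * (Circle.exp a)⁻¹ : Circle) : ℂ)
    have h3 := (Complex.mem_slitPlane_iff_arg.1 hz).1
    have h4 := lt_of_le_of_ne h2 h3
    constructor <;> linarith
  map_target' := by
    intro t ht
    have h : Circle.exp t * (Circle.exp a)⁻¹ = Circle.exp (t - a) := by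
      rw [Circle.exp_sub, div_eq_mul_inv]
    change ((Circle.exp t * (Circle.exp a)⁻¹ : Circle) : ℂ) ∈ Complex.slitPlane
    rw [h, Complex.mem_slitPlane_iff_arg, Circle.arg_exp (by linarith [ht.1]) (by linarith [ht.2])]
    exact ⟨by linarith [ht.2], Circle.coe_ne_zero _⟩
  left_inv' := by
    intro z hz
    rw [Circle.exp_add, Circle.exp_arg]
    simp
  right_inv' := by
    intro t ht
    have h : Circle.exp t * (Circle.exp a)⁻¹ = Circle.exp (t - a) := by
      rw [Circle.exp_sub, div_eq_mul_inv]
    rw [h, Circle.arg_exp (by linarith [ht.1]) (by linarith [ht.2])]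
    ring
  open_source := by
    refine Complex.isOpen_slitPlane.preimage ?_
    fun_prop
  open_target := isOpen_Ioo
  continuousOn_toFun := by
    intro z hz
    refine (continuousAt_const.add ?_).continuousWithinAt
    have h1 : ContinuousAt Complex.arg ((z * (Circle.exp a)⁻¹ : Circle) : ℂ) :=
      Complex.continuousAt_arg hz
    refine ContinuousAt.comp (f := fun z : Circle => ((z * (Circle.exp a)⁻¹ : Circle) : ℂ)) h1 ?_
    have : Continuous (fun z : Circle => ((z * (Circle.exp a)⁻¹ : Circle) : ℂ)) := by fun_prop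
    exact this.continuousAt
  continuousOn_invFun := Circle.exp.continuous.continuousOn

/-- The identification of the line with the model space. -/
noncomputable def L1 : ℝ ≃L[ℝ] EuclideanSpace ℝ (Fin 1) :=
  ContinuousLinearEquiv.ofFinrankEq (by simp)

/-- The angle chart with values in the model space. -/
noncomputable def cChart (a : ℝ) : OpenPartialHomeomorph Circle (EuclideanSpace ℝ (Fin 1)) :=
  (angChart a).transHomeomorph L1.toHomeomorph

theorem contMDiffOn_angChart (a : ℝ) : ContMDiffOn (𝓡 1) 𝓘(ℝ, ℝ) ∞ (angChart a)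
    (angChart a).source := by
  intro z hz
  refine ContMDiffAt.contMDiffWithinAt ?_
  have h1 : ContMDiff (𝓡 1) 𝓘(ℝ, ℂ) ∞ (fun z : Circle => (z : ℂ)) := contMDiff_coe_sphere
  have h2 : ContDiffAt ℝ ∞ (fun w : ℂ => a + (Complex.log (w * ((Circle.exp a : ℂ))⁻¹)).im)
      (z : ℂ) := by
    have h3 : ContDiffAt ℝ ∞ Complex.log ((z : ℂ) * ((Circle.exp a : ℂ))⁻¹) := by
      refine (Complex.contDiffAt_log ?_).restrict_scalars ℝ
      have : (z : ℂ) * ((Circle.exp a : ℂ))⁻¹ = ((z * (Circle.exp a)⁻¹ : Circle) : ℂ) := by simp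
      rw [this]
      exact hz
    have h4 : ContDiffAt ℝ ∞ (fun w : ℂ => w * ((Circle.exp a : ℂ))⁻¹) (z : ℂ) := by fun_prop
    have h5 := h3.comp (z : ℂ) h4
    exact contDiffAt_const.add (Complex.imCLM.contDiff.contDiffAt.comp (z : ℂ) h5)
  have h6 := h2.contMDiffAt.comp z h1.contMDiffAt
  refine h6.congr_of_eventuallyEq (Filter.Eventually.of_forall fun w => ?_)
  simp [angChart, Complex.log_im] <;> rfl

/-- The transition between angle charts has derivative one. -/
theorem hasDerivAt_angChart (b t : ℝ) (ht : Circle.exp t ∈ (angChart b).source) :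
    HasDerivAt (fun t => angChart b (Circle.exp t)) 1 t := by
  have h1 : HasDerivAt (fun t : ℝ => Complex.exp (t * Complex.I) * ((Circle.exp b : ℂ))⁻¹)
      (Complex.exp (t * Complex.I) * Complex.I * ((Circle.exp b : ℂ))⁻¹) t := by
    have h2 : HasDerivAt (fun t : ℝ => (t : ℂ) * Complex.I) Complex.I t := by
      simpa using (Complex.ofRealCLM.hasDerivAt (x := t)).mul_const Complex.I
    exact (h2.cexp).mul_const _
  have h3 : Complex.exp (t * Complex.I) * ((Circle.exp b : ℂ))⁻¹ ∈ Complex.slitPlane := by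
    have : Complex.exp (t * Complex.I) * ((Circle.exp b : ℂ))⁻¹ =
      ((Circle.exp t * (Circle.exp b)⁻¹ : Circle) : ℂ) := by simp
    rw [this]
    exact ht
  have h4 := h1.clog_real h3
  have h5 : Complex.exp (t * Complex.I) * Complex.I * ((Circle.exp b : ℂ))⁻¹ /
      (Complex.exp (t * Complex.I) * ((Circle.exp b : ℂ))⁻¹) = Complex.I := by
    have h6 : Complex.exp (t * Complex.I) ≠ 0 := Complex.exp_ne_zero _
    have h7 : (Circle.exp b : ℂ) ≠ 0 := Circle.coe_ne_zero _
    field_simp
  rw [h5] at h4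
  have h8 := (Complex.imCLM.hasFDerivAt.comp_hasDerivAt t h4).const_add b
  have h9 : Complex.imCLM Complex.I = 1 := by simp
  rw [h9] at h8
  refine h8.congr_of_eventuallyEq (Filter.Eventually.of_forall fun w => ?_)
  simp [angChart, Complex.log_im]

theorem hasFDerivAt_cChart (a b : ℝ) (X : EuclideanSpace ℝ (Fin 1))
    (hX : Circle.exp (L1.symm X) ∈ (angChart b).source) :
    HasFDerivAt (fun X => cChart b ((cChart a).symm X))
      (ContinuousLinearMap.id ℝ (EuclideanSpace ℝ (Fin 1))) X := by
  have h1 := (hasDerivAt_angChart b (L1.symm X) hX).hasFDerivAt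
  have h2 := L1.hasFDerivAt.comp X (h1.comp X L1.symm.hasFDerivAt)
  refine h2.congr_fderiv ?_
  ext1 v
  simp

theorem cChart_mem (a : ℝ) : cChart a ∈ IsManifold.maximalAtlas (𝓡 1) ∞ Circle := by
  apply OpenPartialHomeomorph.mem_maximalAtlas_of_contMDiffOn
  · exact L1.contDiff.contMDiff.comp_contMDiffOn (contMDiffOn_angChart a)
  · have h : ContMDiff (𝓡 1) (𝓡 1) ∞ (fun X : EuclideanSpace ℝ (Fin 1) => Circle.exp (L1.symm X)) :=
      contMDiff_circleExp.comp L1.symm.contDiff.contMDiff
    exact h.contMDiffOn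

end ExOr

open ExOr

theorem M444_orientable : Orientable 3 M444 := by
  refine ⟨{e | ∃ (v : V444) (a : ℝ), e = prodChart (chart444 v) (cChart a)}, ?_, ?_, ?_⟩
  · rintro _ ⟨v, a, rfl⟩
    have hv : chart444 v ∈ IsManifold.maximalAtlas (𝓡 2) ∞ S444 :=
      StructureGroupoid.subset_maximalAtlas _ ⟨v, rfl⟩
    have ha := cChart_mem a
    apply OpenPartialHomeomorph.mem_maximalAtlas_of_contMDiffOn
    · have h1 : ContMDiffOn (𝓡 3) (𝓡 2) ∞ (fun x : M444 => chart444 v x.1)
          (prodChart (chart444 v) (cChart a)).source :=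
        (contMDiffOn_of_mem_maximalAtlas hv).comp contMDiff_fst444.contMDiffOn
          (fun x hx => hx.1)
      have h2 : ContMDiffOn (𝓡 3) (𝓡 1) ∞ (fun x : M444 => cChart a x.2)
          (prodChart (chart444 v) (cChart a)).source :=
        (contMDiffOn_of_mem_maximalAtlas ha).comp contMDiff_snd444.contMDiffOn
          (fun x hx => hx.2)
      exact modelEquiv.contDiff.contMDiff.comp_contMDiffOn (h1.prodMk_space h2)
    · intro X hX
      change modelEquiv.symm X ∈ (OpenPartialHomeomorph.prod (chart444 v) (cChart a)).target at hX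
      refine ContMDiffAt.contMDiffWithinAt ?_
      have h3 : ContMDiffAt (𝓡 3) (𝓡 2) ∞ (fun X => (chart444 v).symm (modelEquiv.symm X).1) X :=
        (contMDiffAt_symm_of_mem_maximalAtlas hv hX.1).comp X
          ((contDiff_fst.comp modelEquiv.symm.contDiff).contMDiff.contMDiffAt)
      have h4 : ContMDiffAt (𝓡 3) (𝓡 1) ∞ (fun X => (cChart a).symm (modelEquiv.symm X).2) X :=
        (contMDiffAt_symm_of_mem_maximalAtlas ha hX.2).comp X
          ((contDiff_snd.comp modelEquiv.symm.contDiff).contMDiff.contMDiffAt)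
      exact contMDiffAt_mk444 h3 h4
  · intro x
    refine ⟨_, ⟨(exists_pos x.1).choose, Complex.arg (x.2 : ℂ), rfl⟩, ?_⟩
    refine ⟨(exists_pos x.1).choose_spec, ?_⟩
    change ((x.2 * (Circle.exp _)⁻¹ : Circle) : ℂ) ∈ Complex.slitPlane
    rw [Circle.exp_arg, mul_inv_cancel]
    simp
  · rintro _ ⟨v, a, rfl⟩ _ ⟨w, b, rfl⟩ x ⟨hx, hx'⟩
    set X1 := chart444 v x.1 with hX1
    set X2 := cChart a x.2 with hX2
    have e0 : modelEquiv.symm (prodChart (chart444 v) (cChart a) x) = (X1, X2) := by
      change modelEquiv.symm (modelEquiv _) = _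
      rw [ContinuousLinearEquiv.symm_apply_apply]
      rfl
    have hs : X1 ∈ ((chart444 v).symm.trans (chart444 w)).source := by
      rw [OpenPartialHomeomorph.trans_source]
      refine ⟨(chart444 v).map_source hx.1, ?_⟩
      change (chart444 v).symm (chart444 v x.1) ∈ (chart444 w).source
      rw [(chart444 v).left_inv hx.1]
      exact hx'.1
    obtain ⟨hsm, hdet⟩ := chart444_trans v w
    have hA : HasFDerivAt ((chart444 v).symm.trans (chart444 w))
        (fderiv ℝ ((chart444 v).symm.trans (chart444 w)) X1) X1 :=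
      ((hsm.contDiffAt (((chart444 v).symm.trans (chart444 w)).open_source.mem_nhds hs)
        ).differentiableAt (by simp)).hasFDerivAt
    have hB : HasFDerivAt (fun X => cChart b ((cChart a).symm X))
        (ContinuousLinearMap.id ℝ (EuclideanSpace ℝ (Fin 1))) X2 := by
      apply hasFDerivAt_cChart
      have : Circle.exp (L1.symm X2) = x.2 := (cChart a).left_inv hx.2
      rw [this]
      exact hx'.2
    have hC : HasFDerivAt (Prod.map ((chart444 v).symm.trans (chart444 w))
        (fun X => cChart b ((cChart a).symm X)))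
        ((fderiv ℝ ((chart444 v).symm.trans (chart444 w)) X1).prodMap
          (ContinuousLinearMap.id ℝ (EuclideanSpace ℝ (Fin 1)))) (X1, X2) :=
      HasFDerivAt.prodMap (X1, X2) hA hB
    rw [← e0] at hC
    have hD := modelEquiv.hasFDerivAt.comp (prodChart (chart444 v) (cChart a) x)
      (hC.comp (prodChart (chart444 v) (cChart a) x) modelEquiv.symm.hasFDerivAt)
    have hE : fderiv ℝ (prodChart (chart444 w) (cChart b) ∘ (prodChart (chart444 v) (cChart a)).symm)
        (prodChart (chart444 v) (cChart a) x) = _ := hD.fderiv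
    rw [hE]
    have hF := hdet X1 hs
    have hG : ∀ A : EuclideanSpace ℝ (Fin 2) →L[ℝ] EuclideanSpace ℝ (Fin 2),
        ((modelEquiv : _ →L[ℝ] EuclideanSpace ℝ (Fin 3)).comp ((A.prodMap
          (ContinuousLinearMap.id ℝ (EuclideanSpace ℝ (Fin 1)))).comp
          (modelEquiv.symm : EuclideanSpace ℝ (Fin 3) →L[ℝ] _))).det = A.det := by
      intro A
      have h1 := LinearMap.det_conj ((A.prodMap (ContinuousLinearMap.id ℝ
        (EuclideanSpace ℝ (Fin 1)))) : _ →ₗ[ℝ] _) modelEquiv.toLinearEquiv
      have h2 := LinearMap.det_prodMap (A : EuclideanSpace ℝ (Fin 2) →ₗ[ℝ] EuclideanSpace ℝ (Fin 2))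
        (LinearMap.id : EuclideanSpace ℝ (Fin 1) →ₗ[ℝ] EuclideanSpace ℝ (Fin 1))
      rw [LinearMap.det_id, mul_one] at h2
      exact h1.trans h2
    rw [hG]
    exact hF

end SepFil
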