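import Pool.Agent.SepFil.Defs

/-!
# Derivatives of parametrisations, in charts and as maps of tangent spaces
-/

open Set MeasureTheory Manifold Bundle Filter Topology
open scoped ContDiff ENNReal

namespace SepFil

variable {n : ℕ} {N : Type*} [TopologicalSpace N] [ChartedSpace (EuclideanSpace ℝ (Fin n)) N]

theorem mfderiv_param {V : Type} [Fintype V] {g : (V → ℝ) → N} {x : V → ℝ}
    (h : MDifferentiableAt 𝓘(ℝ, V → ℝ) (𝓡 n) g x) (u : V → ℝ) :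
    mfderiv 𝓘(ℝ, V → ℝ) (𝓡 n) g x u =
      fderiv ℝ (chartAt (EuclideanSpace ℝ (Fin n)) (g x) ∘ g) x u := by
  have h1 : mfderiv 𝓘(ℝ, V → ℝ) (𝓡 n) g x =
      fderiv ℝ (chartAt (EuclideanSpace ℝ (Fin n)) (g x) ∘ g) x := by
    simp only [mfderiv, h, if_true]
    simp only [writtenInExtChartAt, mfld_simps, fderivWithin_univ]
  exact congr($h1 u)

/-- The derivative of the parametrisation as a map of tangent spaces. -/
theorem SmoothTri.smoothM (T : SmoothTri n N) : ∀ s ∈ T.K.faces, ∀ x ∈ T.K.real, supp x ⊆ s →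
    ∃ g : (T.V → ℝ) → N, ContMDiffAt 𝓘(ℝ, T.V → ℝ) (𝓡 n) ∞ g x ∧
    (∀ᶠ y in 𝓝 x, y ∈ T.K.real → supp y ⊆ s → g y = T.h y) ∧
    ∀ u : T.V → ℝ, ∑ v, u v = 0 → (∀ v ∉ s, u v = 0) →
      mfderiv 𝓘(ℝ, T.V → ℝ) (𝓡 n) g x u = 0 → u = 0 := by
  intro s hs x hx hxs
  obtain ⟨g, hg, heq, hinj⟩ := T.smooth s hs x hx hxs
  refine ⟨g, hg, heq, fun u h1 h2 h3 => hinj u h1 h2 ?_⟩
  rw [mfderiv_param (hg.mdifferentiableAt (by simp))] at h3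
  exact h3

/-- The condition in charts follows from the one on tangent spaces. -/
theorem smooth_of_mfderiv {V : Type} [Fintype V] [DecidableEq V] {K : ASC V} {h : (V → ℝ) → N}
    {s : Finset V} {x : V → ℝ}
    (H : ∃ g : (V → ℝ) → N, ContMDiffAt 𝓘(ℝ, V → ℝ) (𝓡 n) ∞ g x ∧
    (∀ᶠ y in 𝓝 x, y ∈ K.real → supp y ⊆ s → g y = h y) ∧
    ∀ u : V → ℝ, ∑ v, u v = 0 → (∀ v ∉ s, u v = 0) →
      mfderiv 𝓘(ℝ, V → ℝ) (𝓡 n) g x u = 0 → u = 0) :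
    ∃ g : (V → ℝ) → N, ContMDiffAt 𝓘(ℝ, V → ℝ) (𝓡 n) ∞ g x ∧
    (∀ᶠ y in 𝓝 x, y ∈ K.real → supp y ⊆ s → g y = h y) ∧
    ∀ u : V → ℝ, ∑ v, u v = 0 → (∀ v ∉ s, u v = 0) →
      fderiv ℝ (chartAt (EuclideanSpace ℝ (Fin n)) (g x) ∘ g) x u = 0 → u = 0 := by
  obtain ⟨g, hg, heq, hinj⟩ := H
  refine ⟨g, hg, heq, fun u h1 h2 h3 => hinj u h1 h2 ?_⟩
  rw [mfderiv_param (hg.mdifferentiableAt (by simp))]
  exact h3

end SepFil
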