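import Pool.Agent.SepFil.Fine
import Pool.Agent.SepFil.Param

/-!
# Smooth triangulations: pull back under refinements, fine triangulations

(module TRI of the blueprint)
-/

open Set MeasureTheory Manifold Bundle Filter Topology
open scoped ContDiff ENNReal

namespace SepFil

section Tri

variable {n : ℕ} {N : Type*} [TopologicalSpace N] [ChartedSpace (EuclideanSpace ℝ (Fin n)) N]

lemma Refinement.continuous_L {V' V : Type*} [Fintype V'] [Fintype V] {K' : ASC V'} {K : ASC V}
    (R : Refinement K' K) : Continuous R.L := LinearMap.continuous_of_finiteDimensional _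

/-- The pull back of a smooth triangulation under a refinement of its complex. -/
noncomputable def SmoothTri.pull (T : SmoothTri n N) {V' : Type} [Fintype V'] [DecidableEq V']
    (K' : ASC V') (R : Refinement K' T.K) : SmoothTri n N where
  V := V'
  K := K'
  h := T.h ∘ R.L
  cont := T.cont.comp R.continuous_L.continuousOn R.bij.mapsTo
  bij := T.bij.comp R.bij
  smooth := by
    intro s hs x hx hxs
    have hsc := R.car_mem s hs
    have hx1 : x ∈ cface s := ⟨hx.1, hx.2.1, hxs⟩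
    have hLx := R.mapsTo_cface hs hx1
    obtain ⟨g, hg1, hg2, hg3⟩ := T.smoothM (R.car s) hsc (R.L x) (R.bij.mapsTo hx) hLx.2.2
    set L' : (V' → ℝ) →L[ℝ] (T.V → ℝ) := LinearMap.toContinuousLinearMap R.L with hL'
    have hL'c : ∀ u, L' u = R.L u := fun u => rfl
    have hsm : ContMDiffAt 𝓘(ℝ, V' → ℝ) 𝓘(ℝ, T.V → ℝ) ∞ (R.L : (V' → ℝ) → (T.V → ℝ)) x := by
      have : ContDiff ℝ ∞ L' := L'.contDiff
      exact this.contMDiff.contMDiffAt
    refine smooth_of_mfderiv ⟨g ∘ R.L, hg1.comp x hsm, ?_, ?_⟩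
    · have := R.continuous_L.continuousAt.eventually hg2
      filter_upwards [this] with y hy hyr hys
      have hy1 : y ∈ cface s := ⟨hyr.1, hyr.2.1, hys⟩
      exact hy (R.bij.mapsTo hyr) (R.mapsTo_cface hs hy1).2.2
    · intro u hu hus hu0
      have hmd : MDifferentiableAt 𝓘(ℝ, T.V → ℝ) (𝓡 n) g (R.L x) :=
        hg1.mdifferentiableAt (by simp)
      have hmd2 : MDifferentiableAt 𝓘(ℝ, V' → ℝ) 𝓘(ℝ, T.V → ℝ)
          (R.L : (V' → ℝ) → (T.V → ℝ)) x := hsm.mdifferentiableAt (by simp)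
      rw [mfderiv_comp x hmd hmd2] at hu0
      have hd : mfderiv 𝓘(ℝ, V' → ℝ) 𝓘(ℝ, T.V → ℝ) (R.L : (V' → ℝ) → (T.V → ℝ)) x = L' := by
        rw [mfderiv_eq_fderiv]
        exact L'.hasFDerivAt.fderiv
      have h1 : mfderiv 𝓘(ℝ, T.V → ℝ) (𝓡 n) g (R.L x) (R.L u) = 0 := by
        have := hu0
        rw [hd] at this
        exact this
      have h2 := hg3 (R.L u) (by rw [R.sum_L hs hus, hu]) (R.L_eq_zero hs hus) h1
      exact R.inj s hs u hus h2

lemma SmoothTri.image_pull (T : SmoothTri n N) {V' : Type} [Fintype V'] [DecidableEq V']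
    (K' : ASC V') (R : Refinement K' T.K) {A : ASC T.V} (hA : A.faces ⊆ T.K.faces) :
    (T.pull K' R).h '' (R.pullSub A).real = T.h '' A.real := by
  change (T.h ∘ R.L) '' (R.pullSub A).real = T.h '' A.real
  rw [image_comp, R.image_pullSub hA]

/-- Faces of a smooth triangulation of an `n`-manifold have at most `n + 1` vertices. -/
lemma SmoothTri.card_le (T : SmoothTri n N) {s : Finset T.V} (hs : s ∈ T.K.faces) :
    s.card ≤ n + 1 := by
  obtain ⟨v₀, hv₀⟩ := T.K.nonempty_of_mem s hs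
  have hx : (vtx v₀ : T.V → ℝ) ∈ T.K.real := Refinement.vtx_mem_real hs hv₀
  obtain ⟨g, -, -, hg⟩ := T.smoothM s hs (vtx v₀) hx (by simpa using hv₀)
  -- the vectors `e_v - e_{v₀}`, `v ∈ s`, `v ≠ v₀`
  let f : ({w : T.V // w ∈ s.erase v₀} → ℝ) →ₗ[ℝ] (T.V → ℝ) :=
    { toFun := fun a => ∑ w : {w : T.V // w ∈ s.erase v₀}, a w • ((vtx (w : T.V) : T.V → ℝ) - vtx v₀)
      map_add' := by intro a b; simp [add_smul, Finset.sum_add_distrib]
      map_smul' := by intro r a; simp [mul_smul, Finset.smul_sum] }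
  have hfa : ∀ a, f a = ∑ w : {w : T.V // w ∈ s.erase v₀},
      a w • ((vtx (w : T.V) : T.V → ℝ) - vtx v₀) := fun _ => rfl
  have hfv : ∀ a (w : {w : T.V // w ∈ s.erase v₀}), f a (w : T.V) = a w := by
    intro a w
    rw [hfa, Finset.sum_apply, Finset.sum_eq_single w]
    · have h1 : (w : T.V) ≠ v₀ := Finset.ne_of_mem_erase w.2
      simp [vtx, h1]
    · intro w' _ hw'
      have h1 : (w : T.V) ≠ v₀ := Finset.ne_of_mem_erase w.2
      have h2 : (w : T.V) ≠ w' := fun h => hw' (Subtype.ext h.symm)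
      simp [vtx, h1, h2]
    · intro h
      exact absurd (Finset.mem_univ _) h
  have hsum : ∀ a, ∑ v, f a v = 0 := by
    intro a
    rw [hfa]
    simp only [Finset.sum_apply, Pi.smul_apply, Pi.sub_apply, smul_eq_mul]
    rw [Finset.sum_comm]
    refine Finset.sum_eq_zero fun w _ => ?_
    rw [← Finset.mul_sum, Finset.sum_sub_distrib]
    simp [vtx]
  have hsup : ∀ a, ∀ v ∉ s, f a v = 0 := by
    intro a v hv
    rw [hfa, Finset.sum_apply]
    refine Finset.sum_eq_zero fun w _ => ?_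
    have h1 : v ≠ v₀ := fun h => hv (h ▸ hv₀)
    have h2 : v ≠ w := fun h => hv (h ▸ Finset.mem_of_mem_erase w.2)
    simp [vtx, h1, h2]
  let D : (T.V → ℝ) →ₗ[ℝ] EuclideanSpace ℝ (Fin n) :=
    (mfderiv 𝓘(ℝ, T.V → ℝ) (𝓡 n) g (vtx v₀)).toLinearMap
  have hinj : Function.Injective (D ∘ₗ f) := by
    rw [← LinearMap.ker_eq_bot, LinearMap.ker_eq_bot']
    intro a ha
    have h1 := hg (f a) (hsum a) (hsup a) ha
    ext w
    rw [← hfv a w, h1]
    rfl
  have h2 := LinearMap.finrank_le_finrank_of_injective hinj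
  simp only [Module.finrank_fintype_fun_eq_card, finrank_euclideanSpace, Fintype.card_fin,
    Fintype.card_coe] at h2
  rw [Finset.card_erase_of_mem hv₀] at h2
  omega

lemma SmoothTri.isSubcomplexSet_univ (T : SmoothTri n N) :
    IsSubcomplexSet n n (univ : Set N) :=
  ⟨T, T.K, subset_rfl, fun _ hs => T.card_le hs, T.bij.image_eq.symm⟩

lemma real_mono {V : Type*} [Fintype V] {A K : ASC V} (h : A.faces ⊆ K.faces) :
    A.real ⊆ K.real := fun _ hy => ⟨hy.1, hy.2.1, h hy.2.2⟩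

lemma IsSubcomplexSet.isClosed [T2Space N] {i : ℕ} {Z : Set N} (hZ : IsSubcomplexSet n i Z) :
    IsClosed Z := by
  obtain ⟨T, A, hA, -, rfl⟩ := hZ
  exact (A.isCompact_real.image_of_continuousOn (T.cont.mono (real_mono hA))).isClosed

end Tri

/-- Every smooth triangulation of a compact metric manifold has arbitrarily fine refinements. -/
theorem SmoothTri.exists_fine {n : ℕ} {N : Type*} [EMetricSpace N]
    [ChartedSpace (EuclideanSpace ℝ (Fin n)) N] (T : SmoothTri n N) {δ : ℝ≥0∞} (hδ : 0 < δ) :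
    ∃ (V' : Type) (_ : Fintype V') (_ : DecidableEq V') (K' : ASC V') (R : Refinement K' T.K),
      ∀ s ∈ K'.faces, ∀ t ∈ cface s, ∀ t' ∈ cface s,
        edist ((T.pull K' R).h t) ((T.pull K' R).h t') < δ := by
  have huc : UniformContinuousOn T.h T.K.real :=
    T.K.isCompact_real.uniformContinuousOn_of_continuous T.cont
  rw [EMetric.uniformContinuousOn_iff] at huc
  obtain ⟨η, hη, h⟩ := huc δ hδ
  obtain ⟨r, hr, hrη⟩ : ∃ r : ℝ, 0 < r ∧ ENNReal.ofReal r ≤ η := by
    rcases eq_or_ne η ⊤ with rfl | hne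
    · exact ⟨1, one_pos, le_top⟩
    · exact ⟨η.toReal, ENNReal.toReal_pos hη.ne' hne, by rw [ENNReal.ofReal_toReal hne]⟩
  obtain ⟨V', i1, i2, K', R, -, hR⟩ := SepFil.exists_fine T.K (fun _ _ _ _ => True)
    (fun _ _ _ _ _ => trivial) trivial hr
  refine ⟨V', i1, i2, K', R, fun s hs t ht t' ht' => ?_⟩
  have h1 := cface_subset_real K' hs ht
  have h2 := cface_subset_real K' hs ht'
  refine h (R.bij.mapsTo h1) (R.bij.mapsTo h2) (lt_of_lt_of_le ?_ hrη)
  rw [edist_dist]
  exact (ENNReal.ofReal_lt_ofReal_iff hr).2 (hR s hs t ht t' ht')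

end SepFil
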