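import Pool.Agent.SepFil.K444
import Pool.Agent.SepFil.Tri

/-!
# The closed surface `S = |K_{4,4,4}|` as a smooth manifold, with its smooth triangulation

(module EXS of the blueprint)

At the vertex `v = (i, a)` the star of `v` is an octagon. We send `v` to `(0,0,2)`, the
neighbour `(i+1, b)` to `(e_b, 5)` and the neighbour `(i+2, c)` to `(e_m + e_{m+1}, 6)` with
`m = - a - c`, where `e_0, e_1, e_2, e_3` are the four unit vectors of the plane. The chart at
`v` is the projectivisation of the linear extension. For adjacent vertices `v, w` the two linear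
maps differ on the two triangles at `vw` by one and the same linear map of determinant one,
because the linear relation between the four vectors is the same in both charts.
-/

open Set MeasureTheory Manifold Bundle Filter Topology
open scoped ContDiff ENNReal

namespace SepFil

set_option linter.unusedSimpArgs false

/-- The surface. -/
abbrev S444 : Type := K444.real

/-- The four unit vectors. -/
def dirx (b : ZMod 4) : ℝ := if b = 0 then 1 else if b = 2 then -1 else 0

/-- The four unit vectors. -/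
def diry (b : ZMod 4) : ℝ := if b = 1 then 1 else if b = 3 then -1 else 0

/-- The first coordinate of the vector of `w` in the chart at `v`. -/
def cx (v w : V444) : ℝ :=
  if w.1 = v.1 + 1 then dirx w.2
  else if w.1 = v.1 + 2 then dirx (-v.2 - w.2) + dirx (-v.2 - w.2 + 1) else 0

/-- The second coordinate of the vector of `w` in the chart at `v`. -/
def cy (v w : V444) : ℝ :=
  if w.1 = v.1 + 1 then diry w.2
  else if w.1 = v.1 + 2 then diry (-v.2 - w.2) + diry (-v.2 - w.2 + 1) else 0

/-- The third coordinate of the vector of `w` in the chart at `v`. -/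
def cz (v w : V444) : ℝ :=
  if w = v then 2 else if w.1 = v.1 + 1 then 5 else if w.1 = v.1 + 2 then 6 else 0

/-- The linear chart at `v`. -/
def linx (v : V444) (y : V444 → ℝ) : ℝ := ∑ w, y w * cx v w
/-- The linear chart at `v`. -/
def liny (v : V444) (y : V444 → ℝ) : ℝ := ∑ w, y w * cy v w
/-- The linear chart at `v`. -/
def linz (v : V444) (y : V444 → ℝ) : ℝ := ∑ w, y w * cz v w

/-! ### The group `ℤ/4` and the unit vectors -/

lemma zmod4_cases : ∀ m : ZMod 4, m = 0 ∨ m = 1 ∨ m = 2 ∨ m = 3 := by decide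

lemma sum_zmod4 (f : ZMod 4 → ℝ) : ∑ b, f b = f 0 + f 1 + f 2 + f 3 :=
  Fin.sum_univ_four f

@[simp] lemma dirx_zero : dirx 0 = 1 := by unfold dirx; rw [if_pos (by decide)]
@[simp] lemma dirx_one : dirx 1 = 0 := by
  unfold dirx; rw [if_neg (by decide), if_neg (by decide)]
@[simp] lemma dirx_two : dirx 2 = -1 := by
  unfold dirx; rw [if_neg (by decide), if_pos (by decide)]
@[simp] lemma dirx_three : dirx 3 = 0 := by
  unfold dirx; rw [if_neg (by decide), if_neg (by decide)]
@[simp] lemma diry_zero : diry 0 = 0 := by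
  unfold diry; rw [if_neg (by decide), if_neg (by decide)]
@[simp] lemma diry_one : diry 1 = 1 := by unfold diry; rw [if_pos (by decide)]
@[simp] lemma diry_two : diry 2 = 0 := by
  unfold diry; rw [if_neg (by decide), if_neg (by decide)]
@[simp] lemma diry_three : diry 3 = -1 := by
  unfold diry; rw [if_neg (by decide), if_pos (by decide)]

@[simp] lemma zmod4_0_1 : (0 : ZMod 4) + 1 = 1 := by decide
@[simp] lemma zmod4_1_1 : (1 : ZMod 4) + 1 = 2 := by decide
@[simp] lemma zmod4_2_1 : (2 : ZMod 4) + 1 = 3 := by decide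
@[simp] lemma zmod4_3_1 : (3 : ZMod 4) + 1 = 0 := by decide

lemma z4ne : ¬ (0 : ZMod 4) = 1 ∧ ¬ (0 : ZMod 4) = 2 ∧ ¬ (0 : ZMod 4) = 3 ∧
    ¬ (1 : ZMod 4) = 0 ∧ ¬ (1 : ZMod 4) = 2 ∧ ¬ (1 : ZMod 4) = 3 ∧
    ¬ (2 : ZMod 4) = 0 ∧ ¬ (2 : ZMod 4) = 1 ∧ ¬ (2 : ZMod 4) = 3 ∧
    ¬ (3 : ZMod 4) = 0 ∧ ¬ (3 : ZMod 4) = 1 ∧ ¬ (3 : ZMod 4) = 2 := by decide

lemma z4add : (0 : ZMod 4) + 2 = 2 ∧ (1 : ZMod 4) + 2 = 3 ∧ (2 : ZMod 4) + 2 = 0 ∧
    (3 : ZMod 4) + 2 = 1 ∧ (0 : ZMod 4) + 3 = 3 ∧ (1 : ZMod 4) + 3 = 0 ∧ (2 : ZMod 4) + 3 = 1 ∧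
    (3 : ZMod 4) + 3 = 2 := by decide

lemma dirx_succ (k : ZMod 4) : dirx (k + 1) = - diry k := by
  rcases zmod4_cases k with rfl | rfl | rfl | rfl <;> simp

lemma diry_succ (k : ZMod 4) : diry (k + 1) = dirx k := by
  rcases zmod4_cases k with rfl | rfl | rfl | rfl <;> simp

/-- The inner product with the unit vector. -/
def uu (X : EuclideanSpace ℝ (Fin 2)) (b : ZMod 4) : ℝ := X 0 * dirx b + X 1 * diry b

/-- The coordinate of the first kind. -/
noncomputable def F1 (X : EuclideanSpace ℝ (Fin 2)) (b : ZMod 4) : ℝ :=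
  max 0 (uu X b - |uu X (b + 1)|)

/-- The coordinate of the second kind. -/
noncomputable def F2 (X : EuclideanSpace ℝ (Fin 2)) (m : ZMod 4) : ℝ :=
  max 0 (min (uu X m) (uu X (m + 1)))

lemma F1_nonneg (X : EuclideanSpace ℝ (Fin 2)) (b : ZMod 4) : 0 ≤ F1 X b := le_max_left _ _
lemma F2_nonneg (X : EuclideanSpace ℝ (Fin 2)) (b : ZMod 4) : 0 ≤ F2 X b := le_max_left _ _

lemma uu_cone {X : EuclideanSpace ℝ (Fin 2)} {b m : ZMod 4} (hbm : b = m ∨ b = m + 1)
    {β γ : ℝ}
    (h0 : X 0 = β * dirx b + γ * (dirx m + dirx (m + 1)))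
    (h1 : X 1 = β * diry b + γ * (diry m + diry (m + 1))) (k : ZMod 4) :
    uu X k = if k = b then (β + γ) else if k = b + 2 then -(β + γ) else
      if k = m ∨ k = m + 1 then γ else -γ := by
  unfold uu
  rw [h0, h1]
  rcases hbm with rfl | rfl
  · rcases zmod4_cases b with rfl | rfl | rfl | rfl <;>
    rcases zmod4_cases k with rfl | rfl | rfl | rfl <;> simp [z4ne, z4add] <;> ring
  · rcases zmod4_cases m with rfl | rfl | rfl | rfl <;>
    rcases zmod4_cases k with rfl | rfl | rfl | rfl <;> simp [z4ne, z4add] <;> ring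

lemma F1_cone {X : EuclideanSpace ℝ (Fin 2)} {b m : ZMod 4} (hbm : b = m ∨ b = m + 1)
    {β γ : ℝ} (hβ : 0 ≤ β) (hγ : 0 ≤ γ)
    (h0 : X 0 = β * dirx b + γ * (dirx m + dirx (m + 1)))
    (h1 : X 1 = β * diry b + γ * (diry m + diry (m + 1))) (k : ZMod 4) :
    F1 X k = if k = b then β else 0 := by
  have a1 : |β + γ| = β + γ := abs_of_nonneg (by linarith)
  have a2 : |-(β + γ)| = β + γ := by rw [abs_neg, a1]
  have a3 : |γ| = γ := abs_of_nonneg hγ
  have a4 : |-γ| = γ := by rw [abs_neg, a3]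
  have e1 : max 0 (β + γ - γ) = β := by rw [max_eq_right] <;> linarith
  have e2 : max 0 (-(β + γ) - γ) = 0 := by rw [max_eq_left]; linarith
  have e3 : max 0 (γ - (β + γ)) = 0 := by rw [max_eq_left]; linarith
  have e4 : max 0 (-γ - (β + γ)) = 0 := by rw [max_eq_left]; linarith
  unfold F1
  rw [uu_cone hbm h0 h1 k, uu_cone hbm h0 h1 (k + 1)]
  rcases hbm with rfl | rfl
  · rcases zmod4_cases b with rfl | rfl | rfl | rfl <;>
    rcases zmod4_cases k with rfl | rfl | rfl | rfl <;>
    simp only [z4ne, z4add, zmod4_0_1, zmod4_1_1, zmod4_2_1, zmod4_3_1, if_true, if_false,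
      a1, a2, a3, a4, e1, e2, e3, e4, or_true, true_or, or_false, false_or]
  · rcases zmod4_cases m with rfl | rfl | rfl | rfl <;>
    rcases zmod4_cases k with rfl | rfl | rfl | rfl <;>
    simp only [z4ne, z4add, zmod4_0_1, zmod4_1_1, zmod4_2_1, zmod4_3_1, if_true, if_false,
      a1, a2, a3, a4, e1, e2, e3, e4, or_true, true_or, or_false, false_or]

lemma F2_cone {X : EuclideanSpace ℝ (Fin 2)} {b m : ZMod 4} (hbm : b = m ∨ b = m + 1)
    {β γ : ℝ} (hβ : 0 ≤ β) (hγ : 0 ≤ γ)
    (h0 : X 0 = β * dirx b + γ * (dirx m + dirx (m + 1)))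
    (h1 : X 1 = β * diry b + γ * (diry m + diry (m + 1))) (k : ZMod 4) :
    F2 X k = if k = m then γ else 0 := by
  have e1 : max 0 (min (β + γ) γ) = γ := by rw [min_eq_right, max_eq_right] <;> linarith
  have e1' : max 0 (min γ (β + γ)) = γ := by rw [min_eq_left, max_eq_right] <;> linarith
  have e2 : max 0 (min (-(β + γ)) γ) = 0 := by
    rw [max_eq_left]; exact (min_le_left _ _).trans (by linarith)
  have e2' : max 0 (min γ (-(β + γ))) = 0 := by
    rw [max_eq_left]; exact (min_le_right _ _).trans (by linarith)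
  have e3 : max 0 (min (-(β + γ)) (-γ)) = 0 := by
    rw [max_eq_left]; exact (min_le_left _ _).trans (by linarith)
  have e3' : max 0 (min (-γ) (-(β + γ))) = 0 := by
    rw [max_eq_left]; exact (min_le_left _ _).trans (by linarith)
  have e4 : max 0 (min (β + γ) (-γ)) = 0 := by
    rw [max_eq_left]; exact (min_le_right _ _).trans (by linarith)
  have e4' : max 0 (min (-γ) (β + γ)) = 0 := by
    rw [max_eq_left]; exact (min_le_left _ _).trans (by linarith)
  unfold F2
  rw [uu_cone hbm h0 h1 k, uu_cone hbm h0 h1 (k + 1)]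
  rcases hbm with rfl | rfl
  · rcases zmod4_cases b with rfl | rfl | rfl | rfl <;>
    rcases zmod4_cases k with rfl | rfl | rfl | rfl <;>
    simp only [z4ne, z4add, zmod4_0_1, zmod4_1_1, zmod4_2_1, zmod4_3_1, if_true, if_false,
      e1, e2, e3, e4, e1', e2', e3', e4', or_true, true_or, or_false, false_or]
  · rcases zmod4_cases m with rfl | rfl | rfl | rfl <;>
    rcases zmod4_cases k with rfl | rfl | rfl | rfl <;>
    simp only [z4ne, z4add, zmod4_0_1, zmod4_1_1, zmod4_2_1, zmod4_3_1, if_true, if_false,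
      e1, e2, e3, e4, e1', e2', e3', e4', or_true, true_or, or_false, false_or]

lemma exists_cone (X : EuclideanSpace ℝ (Fin 2)) : ∃ b m : ZMod 4, ∃ β γ : ℝ,
    (b = m ∨ b = m + 1) ∧ 0 ≤ β ∧ 0 ≤ γ ∧
    X 0 = β * dirx b + γ * (dirx m + dirx (m + 1)) ∧
    X 1 = β * diry b + γ * (diry m + diry (m + 1)) := by
  rcases le_total 0 (X 0) with hx | hx <;> rcases le_total 0 (X 1) with hy | hy
  · rcases le_total (X 0) (X 1) with h | h
    · exact ⟨1, 0, X 1 - X 0, X 0, by decide, by linarith, by linarith, by simp, by simp⟩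
    · exact ⟨0, 0, X 0 - X 1, X 1, by decide, by linarith, by linarith, by simp, by simp⟩
  · rcases le_total (X 0) (-X 1) with h | h
    · exact ⟨3, 3, -X 1 - X 0, X 0, by decide, by linarith, by linarith, by simp, by simp⟩
    · exact ⟨0, 3, X 0 + X 1, -X 1, by decide, by linarith, by linarith, by simp, by simp⟩
  · rcases le_total (-X 0) (X 1) with h | h
    · exact ⟨1, 1, X 1 + X 0, -X 0, by decide, by linarith, by linarith, by simp, by simp⟩
    · exact ⟨2, 1, -X 0 - X 1, X 1, by decide, by linarith, by linarith, by simp, by simp⟩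
  · rcases le_total (-X 0) (-X 1) with h | h
    · exact ⟨3, 2, -X 1 + X 0, -X 0, by decide, by linarith, by linarith, by simp, by simp⟩
    · exact ⟨2, 2, -X 0 + X 1, -X 1, by decide, by linarith, by linarith, by simp, by simp⟩

/-! ### Sums over the vertices -/

lemma fin3_cases : ∀ i : Fin 3, i = 0 ∨ i = 1 ∨ i = 2 := by decide

lemma fin3_ne (i : Fin 3) : ¬ i = i + 1 ∧ ¬ i = i + 2 ∧ ¬ i + 1 = i ∧ ¬ i + 1 = i + 2 ∧
    ¬ i + 2 = i ∧ ¬ i + 2 = i + 1 := by
  revert i; decide

lemma sum_V444 (i : Fin 3) (g : V444 → ℝ) :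
    ∑ w, g w = ∑ b, g (i, b) + ∑ b, g (i + 1, b) + ∑ b, g (i + 2, b) := by
  rw [Fintype.sum_prod_type]
  rcases fin3_cases i with rfl | rfl | rfl
  · rw [Fin.sum_univ_three]; rfl
  · rw [Fin.sum_univ_three]
    have e1 : (1 : Fin 3) + 1 = 2 := by decide
    have e2 : (1 : Fin 3) + 2 = 0 := by decide
    rw [e1, e2]; ring
  · rw [Fin.sum_univ_three]
    have e1 : (2 : Fin 3) + 1 = 0 := by decide
    have e2 : (2 : Fin 3) + 2 = 1 := by decide
    rw [e1, e2]; ring

lemma sum_reindex (a : ZMod 4) (g : ZMod 4 → ℝ) : ∑ c, g c = ∑ m, g (-a - m) :=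
  ((Equiv.subLeft (-a)).sum_comp g).symm

lemma linx_eq (v : V444) (y : V444 → ℝ) : linx v y =
    ∑ b, y (v.1 + 1, b) * dirx b + ∑ m, y (v.1 + 2, -v.2 - m) * (dirx m + dirx (m + 1)) := by
  unfold linx
  rw [sum_V444 v.1]
  have h0 : ∑ b, y (v.1, b) * cx v (v.1, b) = 0 := by
    refine Finset.sum_eq_zero fun b _ => ?_
    simp [cx, fin3_ne v.1]
  have h1 : ∀ b, cx v (v.1 + 1, b) = dirx b := by
    intro b; simp [cx]
  have h2 : ∀ m, cx v (v.1 + 2, -v.2 - m) = dirx m + dirx (m + 1) := by
    intro b; simp [cx, fin3_ne v.1]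
  rw [h0, zero_add, sum_reindex v.2 (fun c => y (v.1 + 2, c) * cx v (v.1 + 2, c))]
  simp only [h1, h2]

lemma liny_eq (v : V444) (y : V444 → ℝ) : liny v y =
    ∑ b, y (v.1 + 1, b) * diry b + ∑ m, y (v.1 + 2, -v.2 - m) * (diry m + diry (m + 1)) := by
  unfold liny
  rw [sum_V444 v.1]
  have h0 : ∑ b, y (v.1, b) * cy v (v.1, b) = 0 := by
    refine Finset.sum_eq_zero fun b _ => ?_
    simp [cy, fin3_ne v.1]
  have h1 : ∀ b, cy v (v.1 + 1, b) = diry b := by
    intro b; simp [cy]
  have h2 : ∀ m, cy v (v.1 + 2, -v.2 - m) = diry m + diry (m + 1) := by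
    intro b; simp [cy, fin3_ne v.1]
  rw [h0, zero_add, sum_reindex v.2 (fun c => y (v.1 + 2, c) * cy v (v.1 + 2, c))]
  simp only [h1, h2]

lemma linz_eq (v : V444) (y : V444 → ℝ) : linz v y =
    2 * y v + 5 * ∑ b, y (v.1 + 1, b) + 6 * ∑ m, y (v.1 + 2, -v.2 - m) := by
  unfold linz
  rw [sum_V444 v.1]
  have h0 : ∑ b, y (v.1, b) * cz v (v.1, b) = 2 * y v := by
    rw [Finset.sum_eq_single v.2]
    · have : cz v (v.1, v.2) = 2 := by simp [cz]
      rw [this, mul_comm]
    · intro b _ hb
      have : cz v (v.1, b) = 0 := by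
        unfold cz
        rw [if_neg, if_neg, if_neg]
        · exact (fin3_ne v.1).2.1
        · exact (fin3_ne v.1).1
        · intro h
          exact hb (congrArg Prod.snd h)
      rw [this, mul_zero]
    · simp
  have h1 : ∀ b, cz v (v.1 + 1, b) = 5 := by
    intro b
    unfold cz
    rw [if_neg, if_pos rfl]
    intro h
    exact (fin3_ne v.1).2.2.1 (congrArg Prod.fst h)
  have h2 : ∀ m, cz v (v.1 + 2, m) = 6 := by
    intro b
    unfold cz
    rw [if_neg, if_neg, if_pos rfl]
    · exact (fin3_ne v.1).2.2.2.2.2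
    · intro h
      exact (fin3_ne v.1).2.2.2.2.1 (congrArg Prod.fst h)
  rw [h0, sum_reindex v.2 (fun c => y (v.1 + 2, c) * cz v (v.1 + 2, c))]
  simp only [h1, h2, ← Finset.sum_mul]
  ring

lemma star_face (v : V444) {b m : ZMod 4} (h : b = m ∨ b = m + 1) {s : Finset V444}
    (hs : s.Nonempty) (hsub : s ⊆ {v, (v.1 + 1, b), (v.1 + 2, -v.2 - m)}) : s ∈ K444.faces := by
  refine ⟨hs, ?_⟩
  obtain ⟨i, a⟩ := v
  simp only at hsub
  rcases fin3_cases i with rfl | rfl | rfl
  · refine ⟨a, b, -a - m, ?_, ?_⟩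
    · rcases h with rfl | rfl
      · left; ring
      · right; ring
    · exact hsub
  · refine ⟨-a - m, a, b, ?_, ?_⟩
    · rcases h with rfl | rfl
      · left; ring
      · right; ring
    · refine hsub.trans ?_
      have e1 : (1 : Fin 3) + 1 = 2 := by decide
      have e2 : (1 : Fin 3) + 2 = 0 := by decide
      rw [e1, e2]
      intro x hx
      simp only [Finset.mem_insert, Finset.mem_singleton] at hx ⊢
      tauto
  · refine ⟨b, -a - m, a, ?_, ?_⟩
    · rcases h with rfl | rfl
      · left; ring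
      · right; ring
    · refine hsub.trans ?_
      have e1 : (2 : Fin 3) + 1 = 0 := by decide
      have e2 : (2 : Fin 3) + 2 = 1 := by decide
      rw [e1, e2]
      intro x hx
      simp only [Finset.mem_insert, Finset.mem_singleton] at hx ⊢
      tauto

lemma star_supp {v : V444} {y : V444 → ℝ} (hy : y ∈ K444.real) (hv : 0 < y v) :
    ∃ b m : ZMod 4, (b = m ∨ b = m + 1) ∧
      ∀ w, w ≠ v → w ≠ (v.1 + 1, b) → w ≠ (v.1 + 2, -v.2 - m) → y w = 0 := by
  obtain ⟨-, -, -, a, b, c, h, hs⟩ := hy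
  have hvs : v ∈ supp y := mem_supp.2 hv.ne'
  have hv' := hs hvs
  have hz : ∀ w : V444, w ≠ (0, a) → w ≠ (1, b) → w ≠ (2, c) → y w = 0 := by
    intro w h1 h2 h3
    by_contra hne
    have := hs (mem_supp.2 hne)
    simp only [Finset.mem_insert, Finset.mem_singleton] at this
    tauto
  simp only [Finset.mem_insert, Finset.mem_singleton] at hv'
  rcases hv' with rfl | rfl | rfl
  · refine ⟨b, -a - c, ?_, ?_⟩
    · rcases h with h | h
      · left; linear_combination h
      · right; linear_combination h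
    · intro w h1 h2 h3
      refine hz w h1 h2 ?_
      rw [show -((0 : Fin 3), a).2 - (-a - c) = c by simp] at h3
      exact h3
  · refine ⟨c, -b - a, ?_, ?_⟩
    · rcases h with h | h
      · left; linear_combination h
      · right; linear_combination h
    · intro w h1 h2 h3
      rw [show -((1 : Fin 3), b).2 - (-b - a) = a by simp] at h3
      exact hz w h3 h1 h2
  · refine ⟨a, -c - b, ?_, ?_⟩
    · rcases h with h | h
      · left; linear_combination h
      · right; linear_combination h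
    · intro w h1 h2 h3
      rw [show -((2 : Fin 3), c).2 - (-c - b) = b by simp] at h3
      exact hz w h2 h3 h1

/-! ### Weights in the star of a vertex -/

/-- The weight `y` is supported on the triangle `b, m` of the star of `v`. -/
def StarAt (v : V444) (b m : ZMod 4) (y : V444 → ℝ) : Prop :=
  ∀ w, w ≠ v → w ≠ (v.1 + 1, b) → w ≠ (v.1 + 2, -v.2 - m) → y w = 0

section StarAt

variable {v : V444} {b m : ZMod 4} {y : V444 → ℝ}

lemma StarAt.one (h : StarAt v b m y) {k : ZMod 4} (hk : k ≠ b) : y (v.1 + 1, k) = 0 := by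
  refine h _ ?_ ?_ ?_
  · intro e
    exact (fin3_ne v.1).2.2.1 (congrArg Prod.fst e)
  · intro e
    exact hk (congrArg Prod.snd e)
  · intro e
    exact (fin3_ne v.1).2.2.2.1 (congrArg Prod.fst e)

lemma StarAt.two (h : StarAt v b m y) {k : ZMod 4} (hk : k ≠ m) :
    y (v.1 + 2, -v.2 - k) = 0 := by
  refine h _ ?_ ?_ ?_
  · intro e
    exact (fin3_ne v.1).2.2.2.2.1 (congrArg Prod.fst e)
  · intro e
    exact (fin3_ne v.1).2.2.2.2.2 (congrArg Prod.fst e)
  · intro e
    have e2 := congrArg Prod.snd e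
    simp only at e2
    exact hk (by linear_combination -e2)

lemma StarAt.zero (h : StarAt v b m y) {k : ZMod 4} (hk : k ≠ v.2) : y (v.1, k) = 0 := by
  refine h _ ?_ ?_ ?_
  · intro e
    exact hk (congrArg Prod.snd e)
  · intro e
    exact (fin3_ne v.1).1 (congrArg Prod.fst e)
  · intro e
    exact (fin3_ne v.1).2.1 (congrArg Prod.fst e)

lemma StarAt.sum_one (h : StarAt v b m y) (g : ZMod 4 → ℝ) :
    ∑ k, y (v.1 + 1, k) * g k = y (v.1 + 1, b) * g b := by
  rw [Finset.sum_eq_single b]
  · intro k _ hk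
    rw [h.one hk, zero_mul]
  · simp

lemma StarAt.sum_two (h : StarAt v b m y) (g : ZMod 4 → ℝ) :
    ∑ k, y (v.1 + 2, -v.2 - k) * g k = y (v.1 + 2, -v.2 - m) * g m := by
  rw [Finset.sum_eq_single m]
  · intro k _ hk
    rw [h.two hk, zero_mul]
  · simp

lemma StarAt.linx (h : StarAt v b m y) : linx v y =
    y (v.1 + 1, b) * dirx b + y (v.1 + 2, -v.2 - m) * (dirx m + dirx (m + 1)) := by
  rw [linx_eq, h.sum_one, h.sum_two (fun m => dirx m + dirx (m + 1))]

lemma StarAt.liny (h : StarAt v b m y) : liny v y =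
    y (v.1 + 1, b) * diry b + y (v.1 + 2, -v.2 - m) * (diry m + diry (m + 1)) := by
  rw [liny_eq, h.sum_one, h.sum_two (fun m => diry m + diry (m + 1))]

lemma StarAt.linz (h : StarAt v b m y) : linz v y =
    2 * y v + 5 * y (v.1 + 1, b) + 6 * y (v.1 + 2, -v.2 - m) := by
  have h1 := h.sum_one (fun _ => 1)
  have h2 := h.sum_two (fun _ => 1)
  simp only [mul_one] at h1 h2
  rw [linz_eq, h1, h2]

lemma StarAt.sum (h : StarAt v b m y) : ∑ w, y w =
    y v + y (v.1 + 1, b) + y (v.1 + 2, -v.2 - m) := by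
  have h0 : ∑ k, y (v.1, k) = y v := by
    rw [Finset.sum_eq_single v.2]
    · intro k _ hk
      exact h.zero hk
    · simp
  have h1 := h.sum_one (fun _ => 1)
  have h2 := h.sum_two (fun _ => 1)
  simp only [mul_one] at h1 h2
  rw [sum_V444 v.1, h0, h1, sum_reindex v.2 (fun c => y (v.1 + 2, c)), h2]

lemma StarAt.mem_real (h : StarAt v b m y) (hbm : b = m ∨ b = m + 1) (h0 : ∀ w, 0 ≤ y w)
    (h1 : ∑ w, y w = 1) : y ∈ K444.real := by
  refine ⟨h0, h1, star_face v hbm (supp_nonempty_of_sum h1) ?_⟩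
  intro w hw
  have hw' := mem_supp.1 hw
  by_contra hne
  simp only [Finset.mem_insert, Finset.mem_singleton, not_or] at hne
  exact hw' (h w hne.1 hne.2.1 hne.2.2)

lemma StarAt.linz_pos (h : StarAt v b m y) (h0 : ∀ w, 0 ≤ y w) (hv : 0 < y v) :
    0 < SepFil.linz v y := by
  rw [h.linz]
  have := h0 (v.1 + 1, b)
  have := h0 (v.1 + 2, -v.2 - m)
  linarith

end StarAt

lemma linz_pos {v : V444} {y : V444 → ℝ} (hy : y ∈ K444.real) (hv : 0 < y v) :
    0 < linz v y := by
  obtain ⟨b, m, -, h⟩ := star_supp hy hv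
  exact StarAt.linz_pos (b := b) (m := m) h hy.1 hv

/-- The projective chart at `v`. -/
noncomputable def projChart (v : V444) (y : V444 → ℝ) : EuclideanSpace ℝ (Fin 2) :=
  WithLp.toLp 2 ![linx v y / linz v y, liny v y / linz v y]

/-- The unnormalised inverse of the chart at `v`. -/
noncomputable def invRaw (v : V444) (X : EuclideanSpace ℝ (Fin 2)) (w : V444) : ℝ :=
  let u : ZMod 4 → ℝ := fun b => X 0 * dirx b + X 1 * diry b
  let f1 : ZMod 4 → ℝ := fun b => max 0 (u b - |u (b + 1)|)
  let f2 : ZMod 4 → ℝ := fun c => max 0 (min (u (-v.2 - c)) (u (-v.2 - c + 1)))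
  if w = v then (1 - 5 * ∑ b, f1 b - 6 * ∑ c, f2 c) / 2
  else if w.1 = v.1 + 1 then f1 w.2 else if w.1 = v.1 + 2 then f2 w.2 else 0

lemma projChart_zero (v : V444) (y : V444 → ℝ) : projChart v y 0 = linx v y / linz v y := rfl
lemma projChart_one (v : V444) (y : V444 → ℝ) : projChart v y 1 = liny v y / linz v y := rfl

lemma invRaw_eq (v : V444) (X : EuclideanSpace ℝ (Fin 2)) (w : V444) : invRaw v X w =
    if w = v then (1 - 5 * ∑ b, F1 X b - 6 * ∑ m, F2 X m) / 2
    else if w.1 = v.1 + 1 then F1 X w.2 else if w.1 = v.1 + 2 then F2 X (-v.2 - w.2) else 0 := by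
  have e : ∑ m, F2 X m = ∑ c, F2 X (-v.2 - c) := sum_reindex v.2 _
  rw [e]
  rfl

lemma invRaw_self (v : V444) (X : EuclideanSpace ℝ (Fin 2)) : invRaw v X v =
    (1 - 5 * ∑ b, F1 X b - 6 * ∑ m, F2 X m) / 2 := by
  rw [invRaw_eq, if_pos rfl]

lemma invRaw_one (v : V444) (X : EuclideanSpace ℝ (Fin 2)) (b : ZMod 4) :
    invRaw v X (v.1 + 1, b) = F1 X b := by
  rw [invRaw_eq, if_neg, if_pos rfl]
  intro e
  exact (fin3_ne v.1).2.2.1 (congrArg Prod.fst e)

lemma invRaw_two (v : V444) (X : EuclideanSpace ℝ (Fin 2)) (m : ZMod 4) :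
    invRaw v X (v.1 + 2, -v.2 - m) = F2 X m := by
  rw [invRaw_eq, if_neg, if_neg, if_pos rfl]
  · simp
  · exact (fin3_ne v.1).2.2.2.2.2
  · intro e
    exact (fin3_ne v.1).2.2.2.2.1 (congrArg Prod.fst e)

lemma invRaw_zero (v : V444) (X : EuclideanSpace ℝ (Fin 2)) {k : ZMod 4} (hk : k ≠ v.2) :
    invRaw v X (v.1, k) = 0 := by
  rw [invRaw_eq, if_neg, if_neg, if_neg]
  · exact (fin3_ne v.1).2.1
  · exact (fin3_ne v.1).1
  · intro e
    exact hk (congrArg Prod.snd e)

lemma vertex_cases (v w : V444) : w = v ∨ (∃ k, k ≠ v.2 ∧ w = (v.1, k)) ∨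
    (∃ k, w = (v.1 + 1, k)) ∨ ∃ k, w = (v.1 + 2, -v.2 - k) := by
  obtain ⟨j, c⟩ := w
  have : j = v.1 ∨ j = v.1 + 1 ∨ j = v.1 + 2 := by
    generalize v.1 = i
    revert i j; decide
  rcases this with rfl | rfl | rfl
  · by_cases hc : c = v.2
    · left; rw [hc]
    · right; left; exact ⟨c, hc, rfl⟩
  · right; right; left; exact ⟨c, rfl⟩
  · right; right; right
    refine ⟨-v.2 - c, ?_⟩
    congr 1
    ring

lemma invRaw_starAt {v : V444} {X : EuclideanSpace ℝ (Fin 2)} {b m : ZMod 4}
    (hbm : b = m ∨ b = m + 1) {β γ : ℝ} (hβ : 0 ≤ β) (hγ : 0 ≤ γ)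
    (h0 : X 0 = β * dirx b + γ * (dirx m + dirx (m + 1)))
    (h1 : X 1 = β * diry b + γ * (diry m + diry (m + 1))) :
    StarAt v b m (invRaw v X) := by
  intro w hw1 hw2 hw3
  rcases vertex_cases v w with rfl | ⟨k, hk, rfl⟩ | ⟨k, rfl⟩ | ⟨k, rfl⟩
  · exact absurd rfl hw1
  · exact invRaw_zero v X hk
  · rw [invRaw_one, F1_cone hbm hβ hγ h0 h1, if_neg]
    rintro rfl
    exact hw2 rfl
  · rw [invRaw_two, F2_cone hbm hβ hγ h0 h1, if_neg]
    rintro rfl
    exact hw3 rfl

lemma invRaw_nonneg {v : V444} {X : EuclideanSpace ℝ (Fin 2)} (hX : 0 < invRaw v X v)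
    (w : V444) : 0 ≤ invRaw v X w := by
  rcases vertex_cases v w with rfl | ⟨k, hk, rfl⟩ | ⟨k, rfl⟩ | ⟨k, rfl⟩
  · exact hX.le
  · rw [invRaw_zero v X hk]
  · rw [invRaw_one]; exact F1_nonneg _ _
  · rw [invRaw_two]; exact F2_nonneg _ _

lemma invRaw_sum_pos {v : V444} {X : EuclideanSpace ℝ (Fin 2)} (hX : 0 < invRaw v X v) :
    0 < ∑ w, invRaw v X w :=
  Finset.sum_pos' (fun w _ => invRaw_nonneg hX w) ⟨v, Finset.mem_univ _, hX⟩

/-- The inverse of the chart at `v`, as a point of the space of weights. -/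
noncomputable def invNorm (v : V444) (X : EuclideanSpace ℝ (Fin 2)) : V444 → ℝ :=
  fun w => invRaw v X w / ∑ w', invRaw v X w'

lemma invNorm_mem (v : V444) {X : EuclideanSpace ℝ (Fin 2)} (hX : 0 < invRaw v X v) :
    invNorm v X ∈ K444.real := by
  obtain ⟨b, m, β, γ, hbm, hβ, hγ, h0, h1⟩ := exists_cone X
  have hst : StarAt v b m (invRaw v X) := invRaw_starAt hbm hβ hγ h0 h1
  have hst' : StarAt v b m (invNorm v X) := by
    intro w w1 w2 w3
    unfold invNorm
    rw [hst w w1 w2 w3, zero_div]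
  refine hst'.mem_real hbm (fun w => ?_) ?_
  · exact div_nonneg (invRaw_nonneg hX w) (invRaw_sum_pos hX).le
  · unfold invNorm
    rw [← Finset.sum_div]
    exact div_self (invRaw_sum_pos hX).ne'

lemma S444_nonempty : Nonempty S444 := by
  refine ⟨⟨vtx ((0 : Fin 3), (0 : ZMod 4)), ?_⟩⟩
  refine cface_subset_real K444 (s := {((0 : Fin 3), (0 : ZMod 4))}) ?_
    (vtx_mem_cface (Finset.mem_singleton_self _))
  refine ⟨Finset.singleton_nonempty _, 0, 0, 0, Or.inl (by decide), ?_⟩
  intro x hx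
  simp only [Finset.mem_insert, Finset.mem_singleton] at hx ⊢
  exact Or.inl hx

/-- The chart followed by its inverse. -/
lemma invRaw_projChart {v : V444} {y : V444 → ℝ} (hy : y ∈ K444.real) (hv : 0 < y v)
    (w : V444) : invRaw v (projChart v y) w = y w / linz v y := by
  obtain ⟨b, m, hbm, h⟩ := star_supp hy hv
  have h : StarAt v b m y := h
  have hz := h.linz_pos hy.1 hv
  have hβ : 0 ≤ y (v.1 + 1, b) / linz v y := div_nonneg (hy.1 _) hz.le
  have hγ : 0 ≤ y (v.1 + 2, -v.2 - m) / linz v y := div_nonneg (hy.1 _) hz.le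
  have h0 : projChart v y 0 = y (v.1 + 1, b) / linz v y * dirx b +
      y (v.1 + 2, -v.2 - m) / linz v y * (dirx m + dirx (m + 1)) := by
    rw [projChart_zero, h.linx]; ring
  have h1 : projChart v y 1 = y (v.1 + 1, b) / linz v y * diry b +
      y (v.1 + 2, -v.2 - m) / linz v y * (diry m + diry (m + 1)) := by
    rw [projChart_one, h.liny]; ring
  have hF1 := F1_cone hbm hβ hγ h0 h1
  have hF2 := F2_cone hbm hβ hγ h0 h1
  rcases vertex_cases v w with rfl | ⟨k, hk, rfl⟩ | ⟨k, rfl⟩ | ⟨k, rfl⟩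
  · rw [invRaw_self]
    simp only [hF1, hF2, Finset.sum_ite_eq', Finset.mem_univ, if_true]
    have hz' := h.linz
    field_simp
    rw [hz']
    ring
  · rw [invRaw_zero _ _ hk, h.zero hk, zero_div]
  · rw [invRaw_one, hF1]
    split_ifs with hk
    · rw [hk]
    · rw [h.one hk, zero_div]
  · rw [invRaw_two, hF2]
    split_ifs with hk
    · rw [hk]
    · rw [h.two hk, zero_div]

lemma invNorm_projChart {v : V444} {y : V444 → ℝ} (hy : y ∈ K444.real) (hv : 0 < y v) :
    invNorm v (projChart v y) = y := by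
  ext w
  unfold invNorm
  simp only [invRaw_projChart hy hv]
  rw [← Finset.sum_div, hy.2.1]
  have := linz_pos hy hv
  field_simp

lemma invRaw_projChart_pos {v : V444} {y : V444 → ℝ} (hy : y ∈ K444.real) (hv : 0 < y v) :
    0 < invRaw v (projChart v y) v := by
  rw [invRaw_projChart hy hv]
  exact div_pos hv (linz_pos hy hv)

lemma projChart_invNorm {v : V444} {X : EuclideanSpace ℝ (Fin 2)} (hX : 0 < invRaw v X v) :
    projChart v (invNorm v X) = X := by
  obtain ⟨b, m, β, γ, hbm, hβ, hγ, h0, h1⟩ := exists_cone X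
  have hst : StarAt v b m (invRaw v X) := invRaw_starAt hbm hβ hγ h0 h1
  have hst' : StarAt v b m (invNorm v X) := by
    intro w w1 w2 w3
    unfold invNorm
    rw [hst w w1 w2 w3, zero_div]
  have hF1 := F1_cone hbm hβ hγ h0 h1
  have hF2 := F2_cone hbm hβ hγ h0 h1
  have hS := invRaw_sum_pos hX
  have e1 : invNorm v X (v.1 + 1, b) = β / ∑ w', invRaw v X w' := by
    unfold invNorm
    rw [invRaw_one, hF1, if_pos rfl]
  have e2 : invNorm v X (v.1 + 2, -v.2 - m) = γ / ∑ w', invRaw v X w' := by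
    unfold invNorm
    rw [invRaw_two, hF2, if_pos rfl]
  have e0 : invNorm v X v = ((1 - 5 * β - 6 * γ) / 2) / ∑ w', invRaw v X w' := by
    unfold invNorm
    rw [invRaw_self]
    simp only [hF1, hF2, Finset.sum_ite_eq', Finset.mem_univ, if_true]
  have ez : linz v (invNorm v X) = 1 / ∑ w', invRaw v X w' := by
    rw [hst'.linz, e0, e1, e2]
    ring
  have ex : linx v (invNorm v X) = X 0 / ∑ w', invRaw v X w' := by
    rw [hst'.linx, e1, e2, h0]
    ring
  have ey : liny v (invNorm v X) = X 1 / ∑ w', invRaw v X w' := by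
    rw [hst'.liny, e1, e2, h1]
    ring
  ext k
  fin_cases k
  · show projChart v (invNorm v X) 0 = X 0
    rw [projChart_zero, ex, ez]
    field_simp
  · show projChart v (invNorm v X) 1 = X 1
    rw [projChart_one, ey, ez]
    field_simp

/-! ### Continuity -/

lemma continuous_linx (v : V444) : Continuous (linx v) := by
  unfold linx; fun_prop

lemma continuous_liny (v : V444) : Continuous (liny v) := by
  unfold liny; fun_prop

lemma continuous_linz (v : V444) : Continuous (linz v) := by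
  unfold linz; fun_prop

lemma continuous_F1 (b : ZMod 4) : Continuous fun X => F1 X b := by
  unfold F1 uu; fun_prop

lemma continuous_F2 (b : ZMod 4) : Continuous fun X => F2 X b := by
  unfold F2 uu; fun_prop

lemma continuous_invRaw (v w : V444) : Continuous fun X => invRaw v X w := by
  rcases vertex_cases v w with rfl | ⟨k, hk, rfl⟩ | ⟨k, rfl⟩ | ⟨k, rfl⟩
  · simp only [invRaw_self]
    have h1 := fun b => continuous_F1 b
    have h2 := fun b => continuous_F2 b
    fun_prop
  · simp only [invRaw_zero v _ hk]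
    fun_prop
  · simp only [invRaw_one]
    exact continuous_F1 k
  · simp only [invRaw_two]
    exact continuous_F2 k

/-- The chart at `v`. -/
noncomputable def chart444 (v : V444) : OpenPartialHomeomorph S444 (EuclideanSpace ℝ (Fin 2)) where
  toFun := fun y => projChart v y.1
  invFun := fun X => open Classical in
    if h : 0 < invRaw v X v then ⟨invNorm v X, invNorm_mem v h⟩ else Classical.choice S444_nonempty
  source := {y | 0 < (y : V444 → ℝ) v}
  target := {X | 0 < invRaw v X v}
  map_source' := by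
    intro y hy
    exact invRaw_projChart_pos y.2 hy
  map_target' := by
    intro X hX
    have hX' : 0 < invRaw v X v := hX
    simp only [dif_pos hX', mem_ofPred_eq]
    exact div_pos hX' (invRaw_sum_pos hX')
  left_inv' := by
    intro y hy
    have h := invRaw_projChart_pos y.2 hy
    simp only [dif_pos h]
    exact Subtype.ext (invNorm_projChart y.2 hy)
  right_inv' := by
    intro X hX
    have hX' : 0 < invRaw v X v := hX
    simp only [dif_pos hX']
    exact projChart_invNorm hX'
  open_source := isOpen_lt continuous_const ((continuous_apply v).comp continuous_subtype_val)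
  open_target := isOpen_lt continuous_const (continuous_invRaw v v)
  continuousOn_toFun := by
    have hx : ContinuousOn (fun y : S444 => linx v y.1 / linz v y.1)
        {y : S444 | 0 < (y : V444 → ℝ) v} :=
      ((continuous_linx v).comp continuous_subtype_val).continuousOn.div
        ((continuous_linz v).comp continuous_subtype_val).continuousOn
        fun y hy => (linz_pos y.2 hy).ne'
    have hy : ContinuousOn (fun y : S444 => liny v y.1 / linz v y.1)
        {y : S444 | 0 < (y : V444 → ℝ) v} :=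
      ((continuous_liny v).comp continuous_subtype_val).continuousOn.div
        ((continuous_linz v).comp continuous_subtype_val).continuousOn
        fun y hy => (linz_pos y.2 hy).ne'
    refine (PiLp.continuous_toLp 2 _).comp_continuousOn ?_
    refine continuousOn_pi.2 fun i => ?_
    fin_cases i
    · exact hx
    · exact hy
  continuousOn_invFun := by
    rw [Topology.IsInducing.subtypeVal.continuousOn_iff]
    have h : ContinuousOn (fun X => invNorm v X) {X | 0 < invRaw v X v} := by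
      refine continuousOn_pi.2 fun w => ?_
      unfold invNorm
      refine (continuous_invRaw v w).continuousOn.div ?_ fun X hX => (invRaw_sum_pos hX).ne'
      exact (continuous_finsetSum _ fun w' _ => continuous_invRaw v w').continuousOn
    refine h.congr fun X hX => ?_
    have hX' : 0 < invRaw v X v := hX
    simp only [Function.comp_apply, dif_pos hX']

lemma exists_pos (y : S444) : ∃ v, 0 < (y : V444 → ℝ) v := by
  by_contra h
  push Not at h
  have h1 := y.2.2.1
  have : ∑ v, (y : V444 → ℝ) v ≤ 0 := Finset.sum_nonpos fun v _ => h v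
  linarith

/-- The smooth structure of `S444`. -/
noncomputable instance : ChartedSpace (EuclideanSpace ℝ (Fin 2)) S444 where
  atlas := Set.range chart444
  chartAt y := chart444 (exists_pos y).choose
  mem_chart_source y := (exists_pos y).choose_spec
  chart_mem_atlas y := ⟨_, rfl⟩

lemma isPreconnected_K444 : IsPreconnected K444.real := by
  refine isPreconnected_of_forall (vtx ((0 : Fin 3), (0 : ZMod 4))) ?_
  intro y hy
  obtain ⟨h0, h1, hne, a, b, c, h, hs⟩ := id hy
  have hF : ({((0 : Fin 3), a), (1, b), (2, c)} : Finset V444) ∈ K444.faces :=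
    ⟨⟨_, Finset.mem_insert_self _ _⟩, a, b, c, h, subset_rfl⟩
  have hE : ({((0 : Fin 3), (0 : ZMod 4)), (1, b)} : Finset V444) ∈ K444.faces := by
    refine ⟨⟨_, Finset.mem_insert_self _ _⟩, 0, b, -b, Or.inl (by ring), ?_⟩
    intro x hx
    simp only [Finset.mem_insert, Finset.mem_singleton] at hx ⊢
    tauto
  refine ⟨cface {((0 : Fin 3), a), (1, b), (2, c)} ∪ cface {((0 : Fin 3), (0 : ZMod 4)), (1, b)},
    ?_, ?_, ?_, ?_⟩
  · exact union_subset (cface_subset_real K444 hF) (cface_subset_real K444 hE)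
  · exact Or.inr (vtx_mem_cface (Finset.mem_insert_self _ _))
  · exact Or.inl ⟨h0, h1, hs⟩
  · refine (convex_cface _).isPreconnected.union (vtx ((1 : Fin 3), b)) ?_ ?_
      (convex_cface _).isPreconnected
    · exact vtx_mem_cface (by simp)
    · exact vtx_mem_cface (by simp)

instance : ConnectedSpace S444 := by
  have : IsConnected K444.real := ⟨Set.nonempty_coe_sort.1 S444_nonempty, isPreconnected_K444⟩
  exact isConnected_iff_connectedSpace.1 this

instance : CompactSpace S444 := isCompact_iff_compactSpace.1 K444.isCompact_real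

end SepFil
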