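import Pool.Agent.SepFil.ExS

/-!
# Smoothness of the transition maps of `S = |K_{4,4,4}|`

(module EXSM of the blueprint)
-/

open Set MeasureTheory Manifold Bundle Filter Topology
open scoped ContDiff ENNReal NNReal

namespace SepFil

/-! ### Projective maps of the plane -/

/-- The denominator of a projective map. -/
def pden (t : Matrix (Fin 3) (Fin 3) ℝ) (X : EuclideanSpace ℝ (Fin 2)) : ℝ :=
  t 2 0 * X 0 + t 2 1 * X 1 + t 2 2

/-- A coordinate of a projective map. -/
noncomputable def pcoord (t : Matrix (Fin 3) (Fin 3) ℝ) (i : Fin 3)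
    (X : EuclideanSpace ℝ (Fin 2)) : ℝ :=
  (t i 0 * X 0 + t i 1 * X 1 + t i 2) / pden t X

/-- A projective map of the plane. -/
noncomputable def pmap (t : Matrix (Fin 3) (Fin 3) ℝ) (X : EuclideanSpace ℝ (Fin 2)) :
    EuclideanSpace ℝ (Fin 2) :=
  WithLp.toLp 2 ![pcoord t 0 X, pcoord t 1 X]

lemma contDiffAt_pcoord (t : Matrix (Fin 3) (Fin 3) ℝ) (i : Fin 3)
    {X : EuclideanSpace ℝ (Fin 2)} (hX : pden t X ≠ 0) : ContDiffAt ℝ ∞ (pcoord t i) X := by
  unfold pcoord
  refine ContDiffAt.div ?_ ?_ hX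
  · fun_prop
  · unfold pden
    fun_prop

lemma contDiffAt_pmap (t : Matrix (Fin 3) (Fin 3) ℝ)
    {X : EuclideanSpace ℝ (Fin 2)} (hX : pden t X ≠ 0) : ContDiffAt ℝ ∞ (pmap t) X := by
  rw [contDiffAt_euclidean]
  intro i
  fin_cases i
  · exact contDiffAt_pcoord t 0 hX
  · exact contDiffAt_pcoord t 1 hX

/-- The linear form `p x + q y`. -/
noncomputable def lform (p q : ℝ) : EuclideanSpace ℝ (Fin 2) →L[ℝ] ℝ :=
  p • (EuclideanSpace.proj (0 : Fin 2) : EuclideanSpace ℝ (Fin 2) →L[ℝ] ℝ) +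
    q • (EuclideanSpace.proj (1 : Fin 2) : EuclideanSpace ℝ (Fin 2) →L[ℝ] ℝ)

lemma lform_apply (p q : ℝ) (H : EuclideanSpace ℝ (Fin 2)) :
    lform p q H = p * H 0 + q * H 1 := by
  simp [lform]

lemma hasFDerivAt_aff (p q r : ℝ) (X : EuclideanSpace ℝ (Fin 2)) :
    HasFDerivAt (fun X : EuclideanSpace ℝ (Fin 2) => p * X 0 + q * X 1 + r) (lform p q) X := by
  have h := (lform p q).hasFDerivAt (x := X)
  have h2 := h.add_const r
  refine h2.congr_of_eventuallyEq (Eventually.of_forall fun Y => ?_)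
  simp only [lform_apply]

lemma hasFDerivAt_pcoord (t : Matrix (Fin 3) (Fin 3) ℝ) (i : Fin 3)
    {X : EuclideanSpace ℝ (Fin 2)} (hX : pden t X ≠ 0) :
    HasFDerivAt (pcoord t i)
      (lform ((t i 0 * pden t X - (t i 0 * X 0 + t i 1 * X 1 + t i 2) * t 2 0) / pden t X ^ 2)
        ((t i 1 * pden t X - (t i 0 * X 0 + t i 1 * X 1 + t i 2) * t 2 1) / pden t X ^ 2)) X := by
  have h1 := hasFDerivAt_aff (t i 0) (t i 1) (t i 2) X
  have h2 : HasFDerivAt (pden t) (lform (t 2 0) (t 2 1)) X :=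
    hasFDerivAt_aff (t 2 0) (t 2 1) (t 2 2) X
  have h3 : HasFDerivAt (fun Y => (pden t Y)⁻¹) _ X := (hasDerivAt_inv hX).comp_hasFDerivAt X h2
  have h4 := h1.mul h3
  refine (h4.congr_fderiv ?_).congr_of_eventuallyEq (Eventually.of_forall fun Y => ?_)
  · ext H
    simp only [lform_apply, add_apply, smul_apply,
      smul_eq_mul]
    field_simp
    ring
  · simp only [pcoord, div_eq_mul_inv, Pi.mul_apply]

lemma det_pmap (t : Matrix (Fin 3) (Fin 3) ℝ)
    {X : EuclideanSpace ℝ (Fin 2)} (hX : pden t X ≠ 0) :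
    (fderiv ℝ (pmap t) X).det = t.det / pden t X ^ 3 := by
  have hd : DifferentiableAt ℝ (pmap t) X :=
    (contDiffAt_pmap t hX).differentiableAt (by simp)
  have h0 : ∀ H, (fderiv ℝ (pmap t) X H) 0 = fderiv ℝ (pcoord t 0) X H := by
    intro H
    have h := (EuclideanSpace.proj (0 : Fin 2) : EuclideanSpace ℝ (Fin 2) →L[ℝ] ℝ).hasFDerivAt.comp
      X hd.hasFDerivAt
    have h' : HasFDerivAt (pcoord t 0) _ X := h
    rw [h'.fderiv]
    rfl
  have h1 : ∀ H, (fderiv ℝ (pmap t) X H) 1 = fderiv ℝ (pcoord t 1) X H := by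
    intro H
    have h := (EuclideanSpace.proj (1 : Fin 2) : EuclideanSpace ℝ (Fin 2) →L[ℝ] ℝ).hasFDerivAt.comp
      X hd.hasFDerivAt
    have h' : HasFDerivAt (pcoord t 1) _ X := h
    rw [h'.fderiv]
    rfl
  have hdet : (fderiv ℝ (pmap t) X).det =
      (LinearMap.toMatrix (EuclideanSpace.basisFun (Fin 2) ℝ).toBasis
        (EuclideanSpace.basisFun (Fin 2) ℝ).toBasis
        (fderiv ℝ (pmap t) X : EuclideanSpace ℝ (Fin 2) →ₗ[ℝ] EuclideanSpace ℝ (Fin 2))).det := by
    rw [LinearMap.det_toMatrix]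
  rw [hdet, Matrix.det_fin_two]
  simp only [LinearMap.toMatrix_apply]
  simp only [OrthonormalBasis.coe_toBasis, EuclideanSpace.basisFun_apply,
    ContinuousLinearMap.coe_coe, OrthonormalBasis.coe_toBasis_repr_apply,
    EuclideanSpace.basisFun_repr, h0, h1, (hasFDerivAt_pcoord t 0 hX).fderiv,
    (hasFDerivAt_pcoord t 1 hX).fderiv, lform_apply]
  simp only [PiLp.single_apply]
  rw [Matrix.det_fin_three]
  norm_num
  field_simp
  unfold pden
  ring

/-! ### The transition maps -/

lemma trans_of_linear (v w : V444) (t : Matrix (Fin 3) (Fin 3) ℝ) (ht : 0 < t.det)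
    (h : ∀ y ∈ K444.real, 0 < y v → 0 < y w →
      linx w y = t 0 0 * linx v y + t 0 1 * liny v y + t 0 2 * linz v y ∧
      liny w y = t 1 0 * linx v y + t 1 1 * liny v y + t 1 2 * linz v y ∧
      linz w y = t 2 0 * linx v y + t 2 1 * liny v y + t 2 2 * linz v y) :
    ContDiffOn ℝ ∞ ((chart444 v).symm.trans (chart444 w))
      ((chart444 v).symm.trans (chart444 w)).source ∧
    ∀ X ∈ ((chart444 v).symm.trans (chart444 w)).source,
      0 < (fderiv ℝ ((chart444 v).symm.trans (chart444 w)) X).det := by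
  have key : ∀ X ∈ ((chart444 v).symm.trans (chart444 w)).source,
      0 < pden t X ∧ ((chart444 v).symm.trans (chart444 w)) X = pmap t X := by
    intro X hX
    rw [OpenPartialHomeomorph.trans_source] at hX
    have hX1 : 0 < invRaw v X v := hX.1
    have hX2 : 0 < ((chart444 v).symm X : V444 → ℝ) w := hX.2
    have hs : ((chart444 v).symm X : V444 → ℝ) = invNorm v X := by
      show ((if h : 0 < invRaw v X v then (⟨invNorm v X, invNorm_mem v h⟩ : S444)
        else Classical.choice S444_nonempty : S444) : V444 → ℝ) = invNorm v X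
      rw [dif_pos hX1]
    rw [hs] at hX2
    have hy := invNorm_mem v hX1
    have hv : 0 < invNorm v X v := div_pos hX1 (invRaw_sum_pos hX1)
    have hp := projChart_invNorm hX1
    obtain ⟨e1, e2, e3⟩ := h _ hy hv hX2
    have hzv := linz_pos hy hv
    have hzw := linz_pos hy hX2
    have x0 : linx v (invNorm v X) = X 0 * linz v (invNorm v X) := by
      have := projChart_zero v (invNorm v X)
      rw [hp] at this
      rw [this]; field_simp
    have x1 : liny v (invNorm v X) = X 1 * linz v (invNorm v X) := by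
      have := projChart_one v (invNorm v X)
      rw [hp] at this
      rw [this]; field_simp
    have d : linz w (invNorm v X) = pden t X * linz v (invNorm v X) := by
      rw [e3, x0, x1, pden]; ring
    have hden : 0 < pden t X := by
      rw [d] at hzw
      exact (mul_pos_iff_of_pos_right hzv).1 hzw
    refine ⟨hden, ?_⟩
    have hval : ((chart444 v).symm.trans (chart444 w)) X = projChart w (invNorm v X) := by
      show projChart w ((chart444 v).symm X : V444 → ℝ) = _
      rw [hs]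
    rw [hval]
    ext k
    fin_cases k
    · show projChart w (invNorm v X) 0 = pcoord t 0 X
      rw [projChart_zero, e1, d, x0, x1, pcoord]
      field_simp
    · show projChart w (invNorm v X) 1 = pcoord t 1 X
      rw [projChart_one, e2, d, x0, x1, pcoord]
      field_simp
  have ho := ((chart444 v).symm.trans (chart444 w)).open_source
  constructor
  · intro X hX
    refine ContDiffWithinAt.congr (f := pmap t) ?_ (fun Y hY => (key Y hY).2) (key X hX).2
    exact (contDiffAt_pmap t (key X hX).1.ne').contDiffWithinAt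
  · intro X hX
    have hev : ((chart444 v).symm.trans (chart444 w)) =ᶠ[𝓝 X] pmap t := by
      filter_upwards [ho.mem_nhds hX] with Y hY
      exact (key Y hY).2
    rw [hev.fderiv_eq, det_pmap t (key X hX).1.ne']
    exact div_pos ht (pow_pos (key X hX).1 3)

lemma dir_sq (b : ZMod 4) : dirx b ^ 2 + diry b ^ 2 = 1 := by
  rcases zmod4_cases b with rfl | rfl | rfl | rfl <;> simp

lemma dirx_pred (b : ZMod 4) : dirx (b - 1) = diry b := by
  have := diry_succ (b - 1)
  rw [sub_add_cancel] at this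
  exact this.symm

lemma diry_pred (b : ZMod 4) : diry (b - 1) = - dirx b := by
  have := dirx_succ (b - 1)
  rw [sub_add_cancel] at this
  rw [this]; ring

lemma fin3_add (i : Fin 3) : i + 1 + 1 = i + 2 ∧ i + 1 + 2 = i ∧ i + 2 + 1 = i := by
  revert i; decide

lemma edge_formulas (v : V444) (b : ZMod 4) {y : V444 → ℝ} (hy : y ∈ K444.real)
    (hv : 0 < y v) (hw : 0 < y (v.1 + 1, b)) : ∃ r : ℝ,
    (linz v y = 2 * y v + 5 * y (v.1 + 1, b) + 6 * r ∧
      linz (v.1 + 1, b) y = 2 * y (v.1 + 1, b) + 5 * r + 6 * y v) ∧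
    ((linx v y = y (v.1 + 1, b) * dirx b + r * (dirx b - diry b) ∧
      liny v y = y (v.1 + 1, b) * diry b + r * (diry b + dirx b) ∧
      linx (v.1 + 1, b) y =
        r * dirx (-b - v.2) + y v * (dirx (-b - v.2) - diry (-b - v.2)) ∧
      liny (v.1 + 1, b) y =
        r * diry (-b - v.2) + y v * (diry (-b - v.2) + dirx (-b - v.2))) ∨
     (linx v y = y (v.1 + 1, b) * dirx b + r * (diry b + dirx b) ∧
      liny v y = y (v.1 + 1, b) * diry b + r * (diry b - dirx b) ∧
      linx (v.1 + 1, b) y =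
        r * (- diry (-b - v.2)) + y v * (dirx (-b - v.2) - diry (-b - v.2)) ∧
      liny (v.1 + 1, b) y =
        r * dirx (-b - v.2) + y v * (diry (-b - v.2) + dirx (-b - v.2)))) := by
  obtain ⟨b', m, hbm, hst⟩ := star_supp hy hv
  have hst : StarAt v b' m y := hst
  have hb : b' = b := by
    by_contra hne
    have := hst.one (k := b) (fun h => hne h.symm)
    linarith
  subst hb
  obtain ⟨i, a⟩ := v
  simp only at *
  have e1 : i + 1 + 1 = i + 2 := (fin3_add i).1
  have e2 : i + 1 + 2 = i := (fin3_add i).2.1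
  have hst' : StarAt ((i + 1, b') : V444) (-a - m) (-b' - a) y := by
    intro x h1 h2 h3
    simp only [e1, e2] at h1 h2 h3
    rw [show -b' - (-b' - a) = a by ring] at h3
    exact hst x h3 h1 h2
  have f1 := hst.linx
  have f2 := hst.liny
  have f3 := hst.linz
  have g1 := hst'.linx
  have g2 := hst'.liny
  have g3 := hst'.linz
  simp only [e1, e2] at f1 f2 f3 g1 g2 g3
  rw [show -b' - (-b' - a) = a by ring] at g1 g2 g3
  refine ⟨y (i + 2, -a - m), ⟨f3, ?_⟩, ?_⟩
  · rw [g3]
  · rcases hbm with rfl | rfl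
    · left
      rw [show -a - b' = -b' - a by ring] at f1 f2 g1 g2 ⊢
      rw [f1, f2, g1, g2, dirx_succ, dirx_succ, diry_succ, diry_succ]
      refine ⟨by ring, by ring, by ring, by ring⟩
    · right
      have e3 : -a - m = -(m + 1) - a + 1 := by ring
      rw [f1, f2, g1, g2]
      have e4 : dirx (-a - m) = - diry (-(m + 1) - a) := by rw [e3, dirx_succ]
      have e5 : diry (-a - m) = dirx (-(m + 1) - a) := by rw [e3, diry_succ]
      rw [e4, e5, dirx_succ (-(m + 1) - a), diry_succ (-(m + 1) - a), dirx_succ m, diry_succ m]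
      refine ⟨by ring, by ring, by ring, by ring⟩

/-- The linear map from the chart at `v` to the chart at `(v.1 + 1, b)`. -/
noncomputable def tA (p q r s : ℝ) : Matrix (Fin 3) (Fin 3) ℝ :=
  !![r * (-5 / 2 * p - 1 / 2 * q) - s * (-5 / 2 * p + 1 / 2 * q),
     r * (-5 / 2 * q + 1 / 2 * p) - s * (-5 / 2 * q - 1 / 2 * p),
     r * (1 / 2) - s * (1 / 2);
     s * (-5 / 2 * p - 1 / 2 * q) + r * (-5 / 2 * p + 1 / 2 * q),
     s * (-5 / 2 * q + 1 / 2 * p) + r * (-5 / 2 * q - 1 / 2 * p),
     s * (1 / 2) + r * (1 / 2);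
     -13 * p, -13 * q, 3]

lemma det_tA (p q r s : ℝ) (h1 : p ^ 2 + q ^ 2 = 1) (h2 : r ^ 2 + s ^ 2 = 1) :
    (tA p q r s).det = 1 := by
  rw [Matrix.det_fin_three]
  simp only [tA, Matrix.of_apply, Matrix.cons_val', Matrix.cons_val_zero, Matrix.cons_val_one,
    Matrix.cons_val]
  linear_combination (r ^ 2 + s ^ 2) * h1 + h2

/-- The linear map from the chart at `(v.1 + 1, b)` to the chart at `v`. -/
noncomputable def tB (p q r s : ℝ) : Matrix (Fin 3) (Fin 3) ℝ :=
  !![p * (-3 / 2 * r + 3 / 2 * s) - q * (r + s),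
     p * (-3 / 2 * s - 3 / 2 * r) - q * (s - r),
     p * (1 / 2);
     q * (-3 / 2 * r + 3 / 2 * s) + p * (r + s),
     q * (-3 / 2 * s - 3 / 2 * r) + p * (s - r),
     q * (1 / 2);
     -13 / 2 * (r - s), -13 / 2 * (s + r), 5 / 2]

lemma det_tB (p q r s : ℝ) (h1 : p ^ 2 + q ^ 2 = 1) (h2 : r ^ 2 + s ^ 2 = 1) :
    (tB p q r s).det = 1 := by
  rw [Matrix.det_fin_three]
  simp only [tB, Matrix.of_apply, Matrix.cons_val', Matrix.cons_val_zero, Matrix.cons_val_one,
    Matrix.cons_val]
  linear_combination (r ^ 2 + s ^ 2) * h1 + h2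

lemma transA (v : V444) (b : ZMod 4) {y : V444 → ℝ} (hy : y ∈ K444.real)
    (hv : 0 < y v) (hw : 0 < y (v.1 + 1, b)) (t : Matrix (Fin 3) (Fin 3) ℝ)
    (ht : t = tA (dirx b) (diry b) (dirx (-b - v.2)) (diry (-b - v.2))) :
    linx (v.1 + 1, b) y = t 0 0 * linx v y + t 0 1 * liny v y + t 0 2 * linz v y ∧
    liny (v.1 + 1, b) y = t 1 0 * linx v y + t 1 1 * liny v y + t 1 2 * linz v y ∧
    linz (v.1 + 1, b) y = t 2 0 * linx v y + t 2 1 * liny v y + t 2 2 * linz v y := by
  obtain ⟨r, ⟨h1, h2⟩, h | h⟩ := edge_formulas v b hy hv hw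
  · obtain ⟨h3, h4, h5, h6⟩ := h
    have hN := dir_sq b
    rw [h1, h2, h3, h4, h5, h6, ht]
    simp only [tA, Matrix.of_apply, Matrix.cons_val', Matrix.cons_val_zero, Matrix.cons_val_one,
      Matrix.cons_val]
    generalize dirx b = p at *
    generalize diry b = q at *
    generalize dirx (-b - v.2) = P at *
    generalize diry (-b - v.2) = Q at *
    generalize y (v.1 + 1, b) = B at *
    generalize y v = A at *
    refine ⟨?_, ?_, ?_⟩
    · linear_combination (P * (5 / 2 * (B + r) - 1 / 2 * r) - Q * (5 / 2 * (B + r) + 1 / 2 * r)) * hN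
    · linear_combination (Q * (5 / 2 * (B + r) - 1 / 2 * r) + P * (5 / 2 * (B + r) + 1 / 2 * r)) * hN
    · linear_combination (13 * (B + r)) * hN
  · obtain ⟨h3, h4, h5, h6⟩ := h
    have hN := dir_sq b
    rw [h1, h2, h3, h4, h5, h6, ht]
    simp only [tA, Matrix.of_apply, Matrix.cons_val', Matrix.cons_val_zero, Matrix.cons_val_one,
      Matrix.cons_val]
    generalize dirx b = p at *
    generalize diry b = q at *
    generalize dirx (-b - v.2) = P at *
    generalize diry (-b - v.2) = Q at *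
    generalize y (v.1 + 1, b) = B at *
    generalize y v = A at *
    refine ⟨?_, ?_, ?_⟩
    · linear_combination (P * (5 / 2 * (B + r) + 1 / 2 * r) - Q * (5 / 2 * (B + r) - 1 / 2 * r)) * hN
    · linear_combination (Q * (5 / 2 * (B + r) + 1 / 2 * r) + P * (5 / 2 * (B + r) - 1 / 2 * r)) * hN
    · linear_combination (13 * (B + r)) * hN

lemma transB (v : V444) (b : ZMod 4) {y : V444 → ℝ} (hy : y ∈ K444.real)
    (hv : 0 < y v) (hw : 0 < y (v.1 + 1, b)) (t : Matrix (Fin 3) (Fin 3) ℝ)
    (ht : t = tB (dirx b) (diry b) (dirx (-b - v.2)) (diry (-b - v.2))) :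
    linx v y = t 0 0 * linx (v.1 + 1, b) y + t 0 1 * liny (v.1 + 1, b) y +
      t 0 2 * linz (v.1 + 1, b) y ∧
    liny v y = t 1 0 * linx (v.1 + 1, b) y + t 1 1 * liny (v.1 + 1, b) y +
      t 1 2 * linz (v.1 + 1, b) y ∧
    linz v y = t 2 0 * linx (v.1 + 1, b) y + t 2 1 * liny (v.1 + 1, b) y +
      t 2 2 * linz (v.1 + 1, b) y := by
  obtain ⟨r, ⟨h1, h2⟩, h | h⟩ := edge_formulas v b hy hv hw
  · obtain ⟨h3, h4, h5, h6⟩ := h
    have hN := dir_sq (-b - v.2)
    rw [h1, h2, h3, h4, h5, h6, ht]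
    simp only [tB, Matrix.of_apply, Matrix.cons_val', Matrix.cons_val_zero, Matrix.cons_val_one,
      Matrix.cons_val]
    generalize dirx b = p at *
    generalize diry b = q at *
    generalize dirx (-b - v.2) = P at *
    generalize diry (-b - v.2) = Q at *
    generalize y (v.1 + 1, b) = B at *
    generalize y v = A at *
    refine ⟨?_, ?_, ?_⟩
    · linear_combination (p * (3 / 2 * (r + A) + 3 / 2 * A) + q * r) * hN
    · linear_combination (q * (3 / 2 * (r + A) + 3 / 2 * A) - p * r) * hN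
    · linear_combination (13 / 2 * (r + 2 * A)) * hN
  · obtain ⟨h3, h4, h5, h6⟩ := h
    have hN := dir_sq (-b - v.2)
    rw [h1, h2, h3, h4, h5, h6, ht]
    simp only [tB, Matrix.of_apply, Matrix.cons_val', Matrix.cons_val_zero, Matrix.cons_val_one,
      Matrix.cons_val]
    generalize dirx b = p at *
    generalize diry b = q at *
    generalize dirx (-b - v.2) = P at *
    generalize diry (-b - v.2) = Q at *
    generalize y (v.1 + 1, b) = B at *
    generalize y v = A at *
    refine ⟨?_, ?_, ?_⟩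
    · linear_combination (p * (3 / 2 * (r + A) + 3 / 2 * A) - q * r) * hN
    · linear_combination (q * (3 / 2 * (r + A) + 3 / 2 * A) + p * r) * hN
    · linear_combination (13 / 2 * (r + 2 * A)) * hN

/-- The transition maps are smooth with positive Jacobian. -/
theorem chart444_trans (v w : V444) :
    ContDiffOn ℝ ∞ ((chart444 v).symm.trans (chart444 w))
      ((chart444 v).symm.trans (chart444 w)).source ∧
    ∀ X ∈ ((chart444 v).symm.trans (chart444 w)).source,
      0 < (fderiv ℝ ((chart444 v).symm.trans (chart444 w)) X).det := by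
  rcases vertex_cases v w with rfl | ⟨k, hk, rfl⟩ | ⟨k, rfl⟩ | ⟨k, rfl⟩
  · refine trans_of_linear w w 1 (by simp) fun y _ _ _ => ?_
    simp
  · refine trans_of_linear v (v.1, k) 1 (by simp) fun y hy hv hw => ?_
    obtain ⟨b, m, -, hst⟩ := star_supp hy hv
    have := StarAt.zero (b := b) (m := m) hst hk
    linarith
  · refine trans_of_linear v (v.1 + 1, k) _ ?_ fun y hy hv hw => transA v k hy hv hw _ rfl
    rw [det_tA _ _ _ _ (dir_sq _) (dir_sq _)]
    exact one_pos
  · obtain ⟨i, a⟩ := v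
    simp only
    obtain ⟨j, hj⟩ : ∃ j : Fin 3, j = i + 2 := ⟨_, rfl⟩
    have hi : i = j + 1 := by
      rw [hj, (fin3_add i).2.2]
    rw [← hj]
    subst hi
    generalize -a - k = c
    refine trans_of_linear (j + 1, a) (j, c) _ ?_ fun y hy hv hw =>
      transB (j, c) a hy hw hv _ rfl
    rw [det_tB _ _ _ _ (dir_sq _) (dir_sq _)]
    exact one_pos

instance : IsManifold (𝓡 2) ∞ S444 := by
  refine isManifold_of_contDiffOn (𝓡 2) ∞ S444 ?_
  rintro e e' ⟨v, rfl⟩ ⟨w, rfl⟩
  have h := (chart444_trans v w).1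
  simpa using h

end SepFil
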