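import Pool.Agent.SepFil.ExSMfd
import Pool.Agent.SepFil.Param

/-!
# The tautological smooth triangulation of `S = |K_{4,4,4}|`

(module EXST of the blueprint)
-/

open Set MeasureTheory Manifold Bundle Filter Topology
open scoped ContDiff ENNReal NNReal

namespace SepFil

namespace ExST

/-! ### Linear algebra of the charts -/

lemma cz_nonneg' (v w : V444) : 0 ≤ cz v w := by
  unfold cz
  split_ifs <;> norm_num

lemma linz_pos' {v : V444} {x : V444 → ℝ} (hx : ∀ w, 0 ≤ x w) (hv : 0 < x v) :
    0 < linz v x := by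
  unfold linz
  have h1 : 0 < x v * cz v v := by
    have : cz v v = 2 := by simp [cz]
    rw [this]; linarith
  refine lt_of_lt_of_le h1 (Finset.single_le_sum (f := fun w => x w * cz v w)
    (fun w _ => mul_nonneg (hx w) (cz_nonneg' v w)) (Finset.mem_univ v))

lemma dir_cases (m : ZMod 4) :
    (dirx m = 1 ∧ diry m = 0 ∧ dirx (m + 1) = 0 ∧ diry (m + 1) = 1) ∨
    (dirx m = 0 ∧ diry m = 1 ∧ dirx (m + 1) = -1 ∧ diry (m + 1) = 0) ∨
    (dirx m = -1 ∧ diry m = 0 ∧ dirx (m + 1) = 0 ∧ diry (m + 1) = -1) ∨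
    (dirx m = 0 ∧ diry m = -1 ∧ dirx (m + 1) = 1 ∧ diry (m + 1) = 0) := by
  have x0 : dirx 0 = 1 := by simp [dirx]
  have x1 : dirx 1 = 0 := by
    rw [dirx, if_neg (by decide), if_neg (by decide)]
  have x2 : dirx 2 = -1 := by
    rw [dirx, if_neg (by decide), if_pos rfl]
  have x3 : dirx 3 = 0 := by
    rw [dirx, if_neg (by decide), if_neg (by decide)]
  have y0 : diry 0 = 0 := by
    rw [diry, if_neg (by decide), if_neg (by decide)]
  have y1 : diry 1 = 1 := by simp [diry]
  have y2 : diry 2 = 0 := by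
    rw [diry, if_neg (by decide), if_neg (by decide)]
  have y3 : diry 3 = -1 := by
    rw [diry, if_neg (by decide), if_pos rfl]
  have hm : m = 0 ∨ m = 1 ∨ m = 2 ∨ m = 3 := by
    revert m; decide
  rcases hm with rfl | rfl | rfl | rfl
  · left
    rw [show (0 : ZMod 4) + 1 = 1 by decide]
    exact ⟨x0, y0, x1, y1⟩
  · right; left
    rw [show (1 : ZMod 4) + 1 = 2 by decide]
    exact ⟨x1, y1, x2, y2⟩
  · right; right; left
    rw [show (2 : ZMod 4) + 1 = 3 by decide]
    exact ⟨x2, y2, x3, y3⟩
  · right; right; right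
    rw [show (3 : ZMod 4) + 1 = 0 by decide]
    exact ⟨x3, y3, x0, y0⟩

/-- The two dimensional determinant. -/
lemma dir_indep (m β : ZMod 4) (hβ : β = m ∨ β = m + 1) (p r : ℝ)
    (h1 : p * dirx β + r * (dirx m + dirx (m + 1)) = 0)
    (h2 : p * diry β + r * (diry m + diry (m + 1)) = 0) : p = 0 ∧ r = 0 := by
  rcases dir_cases m with ⟨a1, a2, a3, a4⟩ | ⟨a1, a2, a3, a4⟩ | ⟨a1, a2, a3, a4⟩ | ⟨a1, a2, a3, a4⟩ <;>
  rcases hβ with rfl | rfl <;>
  · simp only [a1, a2, a3, a4] at h1 h2
    constructor <;> linarith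

/-- A linear chart is injective on the vectors supported on a face at its vertex. -/
lemma lin_injective {v : V444} {s : Finset V444} (hs : s ∈ K444.faces) (hv : v ∈ s)
    {u : V444 → ℝ} (hu : ∀ w ∉ s, u w = 0) (h1 : linx v u = 0) (h2 : liny v u = 0)
    (h3 : linz v u = 0) : u = 0 := by
  obtain ⟨-, a, b, c, habc, hst⟩ := hs
  -- sums over the triangle
  have hsum : ∀ f : V444 → ℝ, ∑ w, u w * f w =
      u (0, a) * f (0, a) + u (1, b) * f (1, b) + u (2, c) * f (2, c) := by
    intro f
    rw [← Finset.sum_subset (Finset.subset_univ ({((0 : Fin 3), a), (1, b), (2, c)} : Finset V444))]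
    · rw [Finset.sum_insert (by simp), Finset.sum_insert (by simp), Finset.sum_singleton]
      ring
    · intro w _ hw
      rw [hu w (fun h => hw (hst h)), zero_mul]
  have hz : ∀ w, u w ≠ 0 → w = (0, a) ∨ w = (1, b) ∨ w = (2, c) := by
    intro w hw
    have : w ∈ s := by
      by_contra h
      exact hw (hu w h)
    simpa using hst this
  unfold linx at h1
  unfold liny at h2
  unfold linz at h3
  rw [hsum] at h1 h2 h3
  have key : u (0, a) = 0 ∧ u (1, b) = 0 ∧ u (2, c) = 0 := by
    have hv' : v = (0, a) ∨ v = (1, b) ∨ v = (2, c) := by simpa using hst hv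
    rcases hv' with rfl | rfl | rfl
    · -- colour 0
      simp [cx, cy, cz] at h1 h2 h3
      have := dir_indep (-a - c) b ?_ _ _ h1 h2
      · obtain ⟨e1, e2⟩ := this
        rw [e1, e2] at h3
        refine ⟨?_, e1, e2⟩
        linarith
      · rcases habc with h | h
        · left; linear_combination h
        · right; linear_combination h
    · simp [cx, cy, cz] at h1 h2 h3
      have := dir_indep (-b - a) c ?_ (u (2, c)) (u (0, a)) (by linarith) (by linarith)
      · obtain ⟨e1, e2⟩ := this
        rw [e1, e2] at h3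
        refine ⟨e2, ?_, e1⟩
        linarith
      · rcases habc with h | h
        · left; linear_combination h
        · right; linear_combination h
    · simp [cx, cy, cz] at h1 h2 h3
      have := dir_indep (-c - b) a ?_ (u (0, a)) (u (1, b)) (by linarith) (by linarith)
      · obtain ⟨e1, e2⟩ := this
        rw [e1, e2] at h3
        refine ⟨e1, e2, ?_⟩
        linarith
      · rcases habc with h | h
        · left; linear_combination h
        · right; linear_combination h
  funext w
  by_contra hw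
  rcases hz w hw with rfl | rfl | rfl
  · exact hw key.1
  · exact hw key.2.1
  · exact hw key.2.2

/-- The coordinates of the linear chart as a linear map. -/
noncomputable def sumLin (f : V444 → ℝ) : (V444 → ℝ) →L[ℝ] ℝ :=
  ∑ w, f w • ContinuousLinearMap.proj (R := ℝ) (φ := fun _ : V444 => ℝ) w

lemma sumLin_apply (f y : V444 → ℝ) : sumLin f y = ∑ w, y w * f w := by
  simp [sumLin, mul_comm]

lemma hasDerivAt_quot (f g : V444 → ℝ) (x u : V444 → ℝ) (hx : sumLin g x ≠ 0) :
    HasDerivAt (fun t : ℝ => sumLin f (x + t • u) / sumLin g (x + t • u))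
      ((sumLin f u * sumLin g x - sumLin f x * sumLin g u) / (sumLin g x) ^ 2) 0 := by
  have h : ∀ k : V444 → ℝ, HasDerivAt (fun t : ℝ => sumLin k (x + t • u)) (sumLin k u) 0 := by
    intro k
    have h1 : (fun t : ℝ => sumLin k (x + t • u)) = fun t => sumLin k x + t * sumLin k u := by
      funext t
      rw [map_add, map_smul, smul_eq_mul]
    rw [h1]
    simpa using ((hasDerivAt_id (0 : ℝ)).mul_const (sumLin k u)).const_add (sumLin k x)
  have h2 : HasDerivAt (fun t : ℝ => sumLin f (x + t • u) / sumLin g (x + t • u)) _ 0 :=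
    (h f).div (h g) (by simpa using hx)
  exact h2.congr_deriv (by simp)

lemma projChart_contDiffAt (v : V444) {x : V444 → ℝ} (hx : linz v x ≠ 0) :
    ContDiffAt ℝ ∞ (projChart v) x := by
  have hl : ∀ f : V444 → ℝ, ContDiffAt ℝ ∞ (fun y : V444 → ℝ => ∑ w, y w * f w) x := by
    intro f
    have : (fun y : V444 → ℝ => ∑ w, y w * f w) = sumLin f := by
      funext y
      rw [sumLin_apply]
    rw [this]
    exact (sumLin f).contDiff.contDiffAt
  rw [contDiffAt_euclidean]
  intro i
  fin_cases i
  · exact (hl (cx v)).div (hl (cz v)) hx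
  · exact (hl (cy v)).div (hl (cz v)) hx

/-- The derivative of a projective chart is injective on the vectors parallel to a face. -/
lemma projChart_fderiv_injective {v : V444} {s : Finset V444} (hs : s ∈ K444.faces) (hv : v ∈ s)
    {x : V444 → ℝ} (hx : linz v x ≠ 0) (hxs : ∀ w ∉ s, x w = 0) (hx1 : ∑ w, x w = 1)
    {u : V444 → ℝ} (hu1 : ∑ w, u w = 0) (hu : ∀ w ∉ s, u w = 0)
    (h : fderiv ℝ (projChart v) x u = 0) : u = 0 := by
  have hd : DifferentiableAt ℝ (projChart v) x :=
    (projChart_contDiffAt v hx).differentiableAt (by simp)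
  have hline : HasDerivAt (fun t : ℝ => x + t • u) u 0 := by
    simpa using ((hasDerivAt_id (0 : ℝ)).smul_const u).const_add x
  have h0 : HasDerivAt (fun t : ℝ => projChart v (x + t • u)) 0 0 := by
    have h1 : HasFDerivAt (projChart v) (fderiv ℝ (projChart v) x) (x + (0 : ℝ) • u) := by
      simpa using hd.hasFDerivAt
    have := h1.comp_hasDerivAt (0 : ℝ) hline
    rw [h] at this
    exact this
  have hc : ∀ i : Fin 2, HasDerivAt (fun t : ℝ => projChart v (x + t • u) i) 0 0 := by
    intro i
    have := ((EuclideanSpace.proj (𝕜 := ℝ) i : EuclideanSpace ℝ (Fin 2) →L[ℝ] ℝ).hasFDerivAt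
      (x := projChart v (x + (0 : ℝ) • u))).comp_hasDerivAt (0 : ℝ) h0
    rw [map_zero] at this
    exact this
  have hz : sumLin (cz v) x ≠ 0 := by rw [sumLin_apply]; exact hx
  have e : ∀ f : V444 → ℝ, HasDerivAt (fun t : ℝ => sumLin f (x + t • u) / sumLin (cz v) (x + t • u))
      0 0 → sumLin f u * sumLin (cz v) x = sumLin f x * sumLin (cz v) u := by
    intro f hf
    have h1 := (hasDerivAt_quot f (cz v) x u hz).unique hf
    have h2 : (sumLin (cz v) x) ^ 2 ≠ 0 := pow_ne_zero 2 hz
    rw [div_eq_zero_iff] at h1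
    rcases h1 with h1 | h1
    · linarith
    · exact absurd h1 h2
  have e0 := e (cx v) (by
    have := hc 0
    simp only [sumLin_apply]
    exact this)
  have e1 := e (cy v) (by
    have := hc 1
    simp only [sumLin_apply]
    exact this)
  -- `u = l x`
  set l : ℝ := sumLin (cz v) u / sumLin (cz v) x with hl
  have hl' : sumLin (cz v) u = l * sumLin (cz v) x := by
    rw [hl]; field_simp
  have h4 : u - l • x = 0 := by
    apply lin_injective hs hv
    · intro w hw
      simp [hu w hw, hxs w hw]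
    · have : linx v (u - l • x) = sumLin (cx v) (u - l • x) := (sumLin_apply _ _).symm
      rw [this, map_sub, map_smul, smul_eq_mul]
      rw [hl'] at e0
      have h5 : (sumLin (cx v) u - l * sumLin (cx v) x) * sumLin (cz v) x = 0 := by
        linear_combination e0
      exact (mul_eq_zero.1 h5).resolve_right hz
    · have : liny v (u - l • x) = sumLin (cy v) (u - l • x) := (sumLin_apply _ _).symm
      rw [this, map_sub, map_smul, smul_eq_mul]
      rw [hl'] at e1
      have h5 : (sumLin (cy v) u - l * sumLin (cy v) x) * sumLin (cz v) x = 0 := by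
        linear_combination e1
      exact (mul_eq_zero.1 h5).resolve_right hz
    · have : linz v (u - l • x) = sumLin (cz v) (u - l • x) := (sumLin_apply _ _).symm
      rw [this, map_sub, map_smul, smul_eq_mul, hl', sub_self]
  have h5 : ∀ w, u w = l * x w := by
    intro w
    have := congrFun h4 w
    simp only [Pi.sub_apply, Pi.smul_apply, smul_eq_mul, Pi.zero_apply] at this
    linarith
  have hl0 : l = 0 := by
    have : ∑ w, u w = l * ∑ w, x w := by
      rw [Finset.mul_sum]
      exact Finset.sum_congr rfl fun w _ => h5 w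
    rw [hu1, hx1] at this
    linarith
  funext w
  rw [h5 w, hl0, zero_mul]
  rfl

/-- The tautological parametrisation. -/
noncomputable def h444 : (V444 → ℝ) → S444 := fun y => open Classical in
    if hy : y ∈ K444.real then ⟨y, hy⟩ else Classical.choice S444_nonempty

lemma h444_of_mem {y : V444 → ℝ} (hy : y ∈ K444.real) : h444 y = ⟨y, hy⟩ := by
  unfold h444
  exact dif_pos hy

lemma h444_continuousOn : ContinuousOn h444 K444.real := by
  rw [continuousOn_iff_continuous_domRestrict]
  have : K444.real.domRestrict h444 = id := by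
    funext y
    exact h444_of_mem y.2
  rw [this]
  exact continuous_id

lemma h444_bijOn : BijOn h444 K444.real univ := by
  refine ⟨mapsTo_univ _ _, ?_, ?_⟩
  · intro y hy z hz h
    rw [h444_of_mem hy, h444_of_mem hz] at h
    exact congrArg Subtype.val h
  · intro y _
    exact ⟨y, y.2, h444_of_mem y.2⟩

lemma chart444_mem (v : V444) : chart444 v ∈ IsManifold.maximalAtlas (𝓡 2) ∞ S444 :=
  IsManifold.subset_maximalAtlas ⟨v, rfl⟩

lemma h444_smooth (s : Finset V444) (hs : s ∈ K444.faces) (x : V444 → ℝ) (hx : x ∈ K444.real)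
    (hxs : supp x ⊆ s) : ∃ g : (V444 → ℝ) → S444,
    ContMDiffAt 𝓘(ℝ, V444 → ℝ) (𝓡 2) ∞ g x ∧
    (∀ᶠ y in 𝓝 x, y ∈ K444.real → supp y ⊆ s → g y = h444 y) ∧
    ∀ u : V444 → ℝ, ∑ v, u v = 0 → (∀ v ∉ s, u v = 0) →
      mfderiv 𝓘(ℝ, V444 → ℝ) (𝓡 2) g x u = 0 → u = 0 := by
  obtain ⟨v, hv⟩ := exists_pos ⟨x, hx⟩
  have hv' : 0 < x v := hv
  have hvs : v ∈ s := hxs (mem_supp.2 hv'.ne')
  have hz : linz v x ≠ 0 := (linz_pos' hx.1 hv').ne'
  set c := chart444 v with hc
  have hcm := chart444_mem v
  have hsrc : (⟨x, hx⟩ : S444) ∈ c.source := hv'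
  have hcx : c ⟨x, hx⟩ = projChart v x := rfl
  have htgt : projChart v x ∈ c.target := by
    rw [← hcx]
    exact c.map_source hsrc
  have hgx : c.symm (projChart v x) = ⟨x, hx⟩ := by
    rw [← hcx]
    exact c.left_inv hsrc
  have hpc : ContMDiffAt 𝓘(ℝ, V444 → ℝ) (𝓡 2) ∞ (projChart v) x :=
    (projChart_contDiffAt v hz).contMDiffAt
  have hcs : ContMDiffAt (𝓡 2) (𝓡 2) ∞ c.symm (projChart v x) :=
    contMDiffAt_symm_of_mem_maximalAtlas hcm htgt
  have hg : ContMDiffAt 𝓘(ℝ, V444 → ℝ) (𝓡 2) ∞ (c.symm ∘ projChart v) x := hcs.comp x hpc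
  refine ⟨c.symm ∘ projChart v, hg, ?_, ?_⟩
  · have h1 : ∀ᶠ y : V444 → ℝ in 𝓝 x, 0 < y v :=
      (continuous_apply v).continuousAt.eventually (lt_mem_nhds hv')
    filter_upwards [h1] with y hy hyr _
    rw [h444_of_mem hyr]
    exact c.left_inv (x := (⟨y, hyr⟩ : S444)) hy
  · intro u hu1 hu2 hu3
    have hxs' : ∀ w ∉ s, x w = 0 := by
      intro w hw
      by_contra h
      exact hw (hxs (mem_supp.2 h))
    refine projChart_fderiv_injective hs hvs hz hxs' hx.2.1 hu1 hu2 ?_
    have h2 : MDifferentiableAt (𝓡 2) (𝓡 2) c ((c.symm ∘ projChart v) x) := by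
      have : (c.symm ∘ projChart v) x = ⟨x, hx⟩ := hgx
      rw [this]
      exact (contMDiffAt_of_mem_maximalAtlas hcm hsrc).mdifferentiableAt (by simp)
    have h3 := mfderiv_comp x h2 (hg.mdifferentiableAt (by simp))
    have h4 : c ∘ (c.symm ∘ projChart v) =ᶠ[𝓝 x] projChart v := by
      have h5 : ∀ᶠ y in 𝓝 x, projChart v y ∈ c.target :=
        hpc.continuousAt.eventually (c.open_target.mem_nhds htgt)
      filter_upwards [h5] with y hy
      exact c.right_inv hy
    rw [h4.mfderiv_eq, mfderiv_eq_fderiv] at h3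
    have h5 := congrArg (fun L => L u) h3
    have h6 : fderiv ℝ (projChart v) x u =
      mfderiv (𝓡 2) (𝓡 2) c ((c.symm ∘ projChart v) x)
        (mfderiv 𝓘(ℝ, V444 → ℝ) (𝓡 2) (c.symm ∘ projChart v) x u) := h5
    rw [h6, hu3, map_zero]
    rfl

end ExST

/-- The tautological smooth triangulation of `S444`. -/
noncomputable def T444 : SmoothTri 2 S444 where
  V := V444
  K := K444
  h := fun y => open Classical in
    if hy : y ∈ K444.real then ⟨y, hy⟩ else Classical.choice S444_nonempty
  cont := ExST.h444_continuousOn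
  bij := ExST.h444_bijOn
  smooth := fun s hs x hx hxs => smooth_of_mfderiv (ExST.h444_smooth s hs x hx hxs)

end SepFil
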