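import Pool.Agent.SepFil.Tri

/-!
# Lipschitz bounds on faces

(module LIP of the blueprint)
-/

open Set MeasureTheory Manifold Bundle Filter Topology
open scoped ContDiff ENNReal NNReal

namespace SepFil

namespace Lip

section Symm

variable {E : Type*} [NormedAddCommGroup E] [NormedSpace ℝ E]
  {H : Type*} [TopologicalSpace H] {I : ModelWithCorners ℝ E H}
  {M : Type*} [EMetricSpace M] [ChartedSpace H M]
  [RiemannianBundle (fun (x : M) ↦ TangentSpace I x)]
  [IsManifold I 1 M] [IsContinuousRiemannianBundle E (fun (x : M) ↦ TangentSpace I x)]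
  [IsRiemannianManifold I M]

attribute [local instance] normedAddCommGroupTangentSpaceVectorSpace
attribute [local instance] normedSpaceTangentSpaceVectorSpace

set_option backward.isDefEq.respectTransparency false in
/-- The inverse of the extended chart is locally Lipschitz for the Riemannian distance. -/
lemma exists_ball_symm (x : M) :
    ∃ C : ℝ≥0, ∃ r > 0, LipschitzOnWith C (extChartAt I x).symm
      (Metric.ball (extChartAt I x x) r ∩ range I) := by
  rcases eventually_enorm_mfderivWithin_symm_extChartAt_lt I x with ⟨C, C_pos, hC⟩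
  refine ⟨C, ?_⟩
  obtain ⟨r, r_pos, hr⟩ : ∃ r > 0,
      Metric.ball (extChartAt I x x) r ∩ range I ⊆ (extChartAt I x).target ∩
        {y | ‖mfderiv[range I] (extChartAt I x).symm y‖ₑ < C} :=
    Metric.mem_nhdsWithin_iff.1 (inter_mem (extChartAt_target_mem_nhdsWithin x) hC)
  refine ⟨r, r_pos, ?_⟩
  intro y hy y' hy'
  let η := ContinuousAffineMap.lineMap (R := ℝ) y y'
  set γ := (extChartAt I x).symm ∘ η
  have hη : Icc 0 1 ⊆ ⇑η ⁻¹' ((extChartAt I x).target ∩
        {y | ‖mfderiv[range I] (extChartAt I x).symm y‖ₑ < C}) := by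
    simp only [← image_subset_iff, ContinuousAffineMap.coe_lineMap_eq,
     ← segment_eq_image_lineMap, η]
    apply Subset.trans _ hr
    exact ((convex_ball _ _).inter I.convex_range).segment_subset hy hy'
  simp only [preimage_inter, subset_inter_iff] at hη
  have η_smooth : CMDiff[Icc 0 1] 1 η := by
    apply ContMDiff.contMDiffOn
    rw [contMDiff_iff_contDiff]
    exact ContinuousAffineMap.contDiff _
  have : riemannianEDist I ((extChartAt I x).symm y) ((extChartAt I x).symm y') ≤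
      pathELength I γ 0 1 := by
    apply riemannianEDist_le_pathELength _ _ _ zero_le_one
    · exact (contMDiffOn_extChartAt_symm x).comp η_smooth hη.1
    · simp [γ, η, ContinuousAffineMap.coe_lineMap_eq]
    · simp [γ, η, ContinuousAffineMap.coe_lineMap_eq]
  rw [IsRiemannianManifold.out (I := I)]
  apply this.trans
  rw [← lintegral_fderiv_lineMap_eq_edist, pathELength_eq_lintegral_mfderivWithin_Icc,
    ← lintegral_const_mul' _ _ ENNReal.coe_ne_top]
  apply setLIntegral_mono' measurableSet_Icc (fun t ht ↦ ?_)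
  have : mfderiv[Icc 0 1] γ t =
      (mfderiv[range I] (extChartAt I x).symm (η t)) ∘L (mfderiv[Icc 0 1] η t) := by
    apply mfderivWithin_comp
    · exact mdifferentiableWithinAt_extChartAt_symm (hη.1 ht)
    · exact η_smooth.mdifferentiableOn one_ne_zero t ht
    · exact hη.1.trans (preimage_mono (extChartAt_target_subset_range x))
    · rw [uniqueMDiffWithinAt_iff_uniqueDiffWithinAt]
      exact uniqueDiffOn_Icc zero_lt_one t ht
  have : mfderiv[Icc 0 1] γ t 1 =
      (mfderiv[range I] (extChartAt I x).symm (η t)) (mfderiv[Icc 0 1] η t 1) :=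
    congr($this 1)
  rw [this]
  apply (ContinuousLinearMap.le_opENorm _ _).trans
  gcongr
  · exact (hη.2 ht).le
  · simp only [mfderivWithin_eq_fderivWithin]
    exact le_of_eq rfl

end Symm

lemma isContinuousRiemannianBundle {n : ℕ} (N : ClosedRiem n) :
    IsContinuousRiemannianBundle (EuclideanSpace ℝ (Fin n))
      (fun x : N.carrier => TangentSpace (𝓡 n) x) := by
  obtain ⟨g, hg, h⟩ := N.smoothMetric.exists_contMDiff
  exact ⟨⟨g, hg.continuous, h⟩⟩

/-- A smooth map into a closed Riemannian manifold is locally Lipschitz. -/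
lemma exists_lipschitzOn_of_contMDiffAt {n : ℕ} (N : ClosedRiem n) {W : Type*}
    [NormedAddCommGroup W] [NormedSpace ℝ W] {g : W → N.carrier} {x : W}
    (hg : ContMDiffAt 𝓘(ℝ, W) (𝓡 n) ∞ g x) :
    ∃ C : ℝ≥0, ∃ U ∈ 𝓝 x, LipschitzOnWith C g U := by
  have h1 : IsManifold (𝓡 n) 1 N.carrier := IsManifold.of_le (n := ∞) (by simp)
  have h2 := isContinuousRiemannianBundle N
  obtain ⟨C, r, hr, hlip⟩ := exists_ball_symm (I := 𝓡 n) (g x)
  have hg1 : ContDiffAt ℝ 1 (extChartAt (𝓡 n) (g x) ∘ g) x := by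
    have h3 := (contMDiffAt_extChartAt (I := 𝓡 n) (n := ∞) (x := g x)).comp x hg
    exact (contMDiffAt_iff_contDiffAt.1 h3).of_le (by simp)
  obtain ⟨K, U, hU, hK⟩ := hg1.exists_lipschitzOnWith
  have hcont : ContinuousAt g x := hg.continuousAt
  have hsrc : ∀ᶠ y in 𝓝 x, g y ∈ (extChartAt (𝓡 n) (g x)).source :=
    hcont.eventually (extChartAt_source_mem_nhds (I := 𝓡 n) (g x))
  have hball : ∀ᶠ y in 𝓝 x, extChartAt (𝓡 n) (g x) (g y) ∈
      Metric.ball (extChartAt (𝓡 n) (g x) (g x)) r :=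
    hg1.continuousAt.eventually (Metric.ball_mem_nhds _ hr)
  refine ⟨C * K, U ∩ {y | g y ∈ (extChartAt (𝓡 n) (g x)).source ∧
    extChartAt (𝓡 n) (g x) (g y) ∈ Metric.ball (extChartAt (𝓡 n) (g x) (g x)) r},
    inter_mem hU (hsrc.and hball), ?_⟩
  intro y hy y' hy'
  have e1 : g y = (extChartAt (𝓡 n) (g x)).symm (extChartAt (𝓡 n) (g x) (g y)) :=
    ((extChartAt (𝓡 n) (g x)).left_inv hy.2.1).symm
  have e2 : g y' = (extChartAt (𝓡 n) (g x)).symm (extChartAt (𝓡 n) (g x) (g y')) :=
    ((extChartAt (𝓡 n) (g x)).left_inv hy'.2.1).symm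
  have h4 := hlip ⟨hy.2.2, by simp⟩ ⟨hy'.2.2, by simp⟩
  have h5 := hK hy.1 hy'.1
  calc edist (g y) (g y') = edist ((extChartAt (𝓡 n) (g x)).symm (extChartAt (𝓡 n) (g x) (g y)))
        ((extChartAt (𝓡 n) (g x)).symm (extChartAt (𝓡 n) (g x) (g y'))) := by rw [← e1, ← e2]
    _ ≤ C * edist (extChartAt (𝓡 n) (g x) (g y)) (extChartAt (𝓡 n) (g x) (g y')) := h4
    _ ≤ C * (K * edist y y') := by gcongr; exact h5
    _ = (C * K : ℝ≥0) * edist y y' := by rw [← mul_assoc, ENNReal.coe_mul]

/-- A locally Lipschitz map on a compact convex set is Lipschitz. -/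
lemma lipschitzOn_of_locally {W Y : Type*} [NormedAddCommGroup W] [NormedSpace ℝ W]
    [EMetricSpace Y] {f : W → Y} {S : Set W} (hS : IsCompact S) (hconv : Convex ℝ S)
    (h : ∀ x ∈ S, ∃ C : ℝ≥0, ∃ U ∈ 𝓝 x, LipschitzOnWith C f (U ∩ S)) :
    ∃ C : ℝ≥0, LipschitzOnWith C f S := by
  choose! C U hU hlip using h
  obtain ⟨t, htS, ht⟩ := hS.elim_nhds_subcover (fun x => interior (U x))
    (fun x hx => interior_mem_nhds.2 (hU x hx))
  obtain ⟨δ, hδ, hleb⟩ := lebesgue_number_lemma_of_metric (c := fun x : t => interior (U x))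
    hS (fun x => isOpen_interior) (by simpa [iUnion_subtype] using ht)
  set K : ℝ≥0 := ∑ x ∈ t, C x with hK
  have hloc : ∀ x ∈ S, ∀ y ∈ S, dist x y < δ → edist (f x) (f y) ≤ K * edist x y := by
    intro x hx y hy hxy
    obtain ⟨⟨z, hz⟩, hzU⟩ := hleb x hx
    have hxU : x ∈ U z := interior_subset (hzU (Metric.mem_ball_self hδ))
    have hyU : y ∈ U z := interior_subset (hzU (by rw [Metric.mem_ball, dist_comm]; exact hxy))
    refine (hlip z (htS z hz) ⟨hxU, hx⟩ ⟨hyU, hy⟩).trans ?_
    gcongr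
    rw [hK]
    exact Finset.single_le_sum (f := C) (fun _ _ => bot_le) hz
  refine ⟨K, fun x hx y hy => ?_⟩
  obtain ⟨m, hm⟩ := exists_nat_gt (dist x y / δ)
  have hm0 : 0 < (m : ℝ) := lt_of_le_of_lt (div_nonneg dist_nonneg hδ.le) hm
  have hdist : dist x y / m < δ := by
    rw [div_lt_iff₀ hm0]
    rw [div_lt_iff₀ hδ] at hm
    linarith
  set p : ℕ → W := fun i => AffineMap.lineMap x y ((i : ℝ) / m) with hp
  have hpS : ∀ i ≤ m, p i ∈ S := by
    intro i hi
    refine hconv.segment_subset hx hy ?_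
    rw [segment_eq_image_lineMap]
    refine ⟨(i : ℝ) / m, ⟨by positivity, ?_⟩, rfl⟩
    rw [div_le_one hm0]
    exact_mod_cast hi
  have hstep : ∀ i, dist (p i) (p (i + 1)) = dist x y / m := by
    intro i
    rw [hp]
    simp only [dist_lineMap_lineMap]
    rw [Real.dist_eq]
    push_cast
    have : (i : ℝ) / m - (i + 1) / m = -(1 / m) := by ring
    rw [this, abs_neg, abs_of_pos (by positivity)]
    ring
  have hm1 : (m : ℝ) ≠ 0 := hm0.ne'
  have h0 : p 0 = x := by simp [hp]
  have h1 : p m = y := by simp [hp, div_self hm1]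
  have hsum : edist (f (p 0)) (f (p m)) ≤ ∑ i ∈ Finset.range m, edist (f (p i)) (f (p (i + 1))) :=
    edist_le_range_sum_edist (fun i => f (p i)) m
  rw [h0, h1] at hsum
  refine hsum.trans ?_
  have hterm : ∀ i ∈ Finset.range m, edist (f (p i)) (f (p (i + 1))) ≤
      K * ENNReal.ofReal (dist x y / m) := by
    intro i hi
    have hi' := Finset.mem_range.1 hi
    refine (hloc _ (hpS i hi'.le) _ (hpS (i + 1) hi') ?_).trans ?_
    · rw [hstep i]; exact hdist
    · rw [edist_dist, hstep i]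
  refine (Finset.sum_le_sum hterm).trans ?_
  rw [Finset.sum_const, Finset.card_range, nsmul_eq_mul, mul_left_comm]
  gcongr
  rw [edist_dist, ← ENNReal.ofReal_natCast, ← ENNReal.ofReal_mul (by positivity)]
  refine ENNReal.ofReal_le_ofReal ?_
  rw [mul_div_cancel₀ _ hm1]

end Lip

/-- The parametrisation of a closed face is Lipschitz. -/
theorem SmoothTri.lipschitzOn_cface {n : ℕ} (N : ClosedRiem n) (T : SmoothTri n N.carrier)
    {s : Finset T.V} (hs : s ∈ T.K.faces) : ∃ C : ℝ≥0, LipschitzOnWith C T.h (cface s) := by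
  refine Lip.lipschitzOn_of_locally (isCompact_cface s) (convex_cface s) fun x hx => ?_
  obtain ⟨g, hg, heq, -⟩ := T.smoothM s hs x (cface_subset_real T.K hs hx) hx.2.2
  obtain ⟨C, U, hU, hC⟩ := Lip.exists_lipschitzOn_of_contMDiffAt N hg
  refine ⟨C, U ∩ {y | y ∈ T.K.real → supp y ⊆ s → g y = T.h y}, inter_mem hU heq, ?_⟩
  intro y hy y' hy'
  have e1 : g y = T.h y := hy.1.2 (cface_subset_real T.K hs hy.2) hy.2.2.2
  have e2 : g y' = T.h y' := hy'.1.2 (cface_subset_real T.K hs hy'.2) hy'.2.2.2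
  have := hC hy.1.1 hy'.1.1
  rwa [e1, e2] at this

end SepFil
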