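import Pool.Agent.SepFil.Family0
import Pool.Agent.SepFil.ExST
import Pool.Agent.SepFil.AreaTri
import Pool.Agent.SepFil.Lip

/-!
# The volume of the metrics `a² g_S + b² dθ²`, `a² b = 1`, is bounded

(module FAMV of the blueprint)
-/

open Set MeasureTheory Manifold Bundle Filter Topology
open scoped ContDiff ENNReal NNReal

namespace SepFil

namespace FamV

/-- The composite of a smooth map of the surface with the parametrisation is uniformly Lipschitz
on the faces. -/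
theorem exists_lip {k : ℕ} {f : S444 → EuclideanSpace ℝ (Fin k)}
    (hf : ContMDiff (𝓡 2) 𝓘(ℝ, EuclideanSpace ℝ (Fin k)) ∞ f) :
    ∃ C : ℝ≥0, ∀ s ∈ K444.faces, LipschitzOnWith C (fun y => f (ExST.h444 y)) (cface s) := by
  have h1 : ∀ s ∈ K444.faces, ∃ C : ℝ≥0, LipschitzOnWith C (fun y => f (ExST.h444 y)) (cface s) := by
    intro s hs
    refine Lip.lipschitzOn_of_locally (isCompact_cface s) (convex_cface s) fun x hx => ?_
    obtain ⟨g, hg, heq, -⟩ := ExST.h444_smooth s hs x (cface_subset_real K444 hs hx) hx.2.2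
    have h2 : ContMDiffAt 𝓘(ℝ, V444 → ℝ) 𝓘(ℝ, EuclideanSpace ℝ (Fin k)) ∞ (f ∘ g) x :=
      (hf (g x)).comp x hg
    have h3 : ContDiffAt ℝ 1 (f ∘ g) x := (contMDiffAt_iff_contDiffAt.1 h2).of_le (by simp)
    obtain ⟨C, U, hU, hC⟩ := h3.exists_lipschitzOnWith
    refine ⟨C, U ∩ {y | y ∈ K444.real → supp y ⊆ s → g y = ExST.h444 y}, inter_mem hU heq, ?_⟩
    intro y hy y' hy'
    have e1 : g y = ExST.h444 y := hy.1.2 (cface_subset_real K444 hs hy.2) hy.2.2.2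
    have e2 : g y' = ExST.h444 y' := hy'.1.2 (cface_subset_real K444 hs hy'.2) hy'.2.2.2
    have := hC hy.1.1 hy'.1.1
    simp only [Function.comp_apply] at this
    rwa [e1, e2] at this
  choose! C hC using h1
  have hfin : K444.faces.Finite := Set.toFinite _
  refine ⟨∑ s ∈ hfin.toFinset, C s, fun s hs => (hC s hs).weaken ?_⟩
  exact Finset.single_le_sum (f := C) (fun _ _ => bot_le) (hfin.mem_toFinset.2 hs)

/-- The exponential map of the circle is 1-Lipschitz. -/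
theorem norm_exp_sub_le (s t : ℝ) : ‖(Circle.exp s : ℂ) - (Circle.exp t : ℂ)‖ ≤ |s - t| := by
  have h := Real.norm_exp_I_mul_ofReal_sub_one_le (x := s - t)
  have e : (Circle.exp s : ℂ) - (Circle.exp t : ℂ) =
      (Circle.exp t : ℂ) * (Complex.exp (Complex.I * ((s - t : ℝ) : ℂ)) - 1) := by
    rw [Circle.coe_exp, Circle.coe_exp, mul_sub, ← Complex.exp_add, mul_one]
    congr 2
    push_cast
    ring
  rw [e, norm_mul, Circle.norm_coe, one_mul, ← Real.norm_eq_abs]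
  exact h

/-- The length bound: the distance of two points of `t × S¹`. -/
theorem edist_le {k : ℕ} {f : S444 → EuclideanSpace ℝ (Fin k)}
    (hf : ContMDiff (𝓡 2) 𝓘(ℝ, EuclideanSpace ℝ (Fin k)) ∞ f) {C : ℝ≥0} {s : Finset V444}
    (hs : s ∈ K444.faces)
    (hC : LipschitzOnWith C (fun y => f (ExST.h444 y)) (cface s))
    {a b : ℝ} (ha : 0 ≤ a) (hb : 0 ≤ b)
    (R : ClosedRiem 3) (e : Diffeomorph (𝓡 3) (𝓡 3) R.carrier M444 ∞)
    (he : ∀ (x : R.carrier) (v : TangentSpace (𝓡 3) x), ‖v‖ =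
        ‖mfderiv (𝓡 3) 𝓘(ℝ, WithLp 2 (EuclideanSpace ℝ (Fin k) × ℂ)) (famMap f a b ∘ e) x v‖)
    {y y' : V444 → ℝ} (hy : y ∈ cface s) (hy' : y' ∈ cface s) (θ θ' : ℝ) :
    edist (e.symm (M444.mk (ExST.h444 y) (Circle.exp θ)))
      (e.symm (M444.mk (ExST.h444 y') (Circle.exp θ'))) ≤
      ENNReal.ofReal (a * C * dist y y' + b * dist θ θ') := by
  set p : ℝ → V444 → ℝ := fun t => AffineMap.lineMap y y' t with hp
  set q : ℝ → ℝ := fun t => AffineMap.lineMap θ θ' t with hq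
  set δ : ℝ → M444 := fun t => M444.mk (ExST.h444 (p t)) (Circle.exp (q t)) with hδ
  set γ : ℝ → R.carrier := fun t => e.symm (δ t) with hγ
  have hps : ∀ t ∈ Icc (0 : ℝ) 1, p t ∈ cface s := by
    intro t ht
    refine (convex_cface s).segment_subset hy hy' ?_
    rw [segment_eq_image_lineMap]
    exact ⟨t, ht, rfl⟩
  have hpd : ContDiff ℝ ∞ p := by
    have : p = fun t => (1 - t) • y + t • y' := by
      funext t
      rw [hp]
      simp only [AffineMap.lineMap_apply_module]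
    rw [this]
    fun_prop
  have hqd : ContDiff ℝ ∞ q := by
    have : q = fun t => (1 - t) • θ + t • θ' := by
      funext t
      rw [hq]
      simp only [AffineMap.lineMap_apply_module]
    rw [this]
    fun_prop
  have hδs : ContMDiffOn 𝓘(ℝ, ℝ) (𝓡 3) ∞ δ (Icc 0 1) := by
    intro t ht
    obtain ⟨g, hg, heq, -⟩ := ExST.h444_smooth s hs (p t) (cface_subset_real K444 hs (hps t ht))
      (hps t ht).2.2
    have h1 : ContMDiffAt 𝓘(ℝ, ℝ) (𝓡 2) ∞ (fun t => g (p t)) t :=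
      ContMDiffAt.comp t hg hpd.contMDiff.contMDiffAt
    have h2 : ContMDiffAt 𝓘(ℝ, ℝ) (𝓡 1) ∞ (fun t => Circle.exp (q t)) t :=
      ContMDiffAt.comp t (contMDiff_circleExp (m := ∞)).contMDiffAt hqd.contMDiff.contMDiffAt
    have h3 := contMDiffAt_mk444 h1 h2
    refine h3.contMDiffWithinAt.congr_of_eventuallyEq ?_ ?_
    · have h4 := hpd.continuous.continuousAt (x := t) heq
      have h5 : ∀ᶠ t' in 𝓝[Icc 0 1] t, t' ∈ Icc (0 : ℝ) 1 := self_mem_nhdsWithin
      filter_upwards [h5, nhdsWithin_le_nhds h4] with t' ht' h6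
      have h7 : g (p t') = ExST.h444 (p t') :=
        h6 (cface_subset_real K444 hs (hps t' ht')) (hps t' ht').2.2
      rw [hδ]
      simp only
      rw [h7]
    · have h7 : g (p t) = ExST.h444 (p t) :=
        heq.self_of_nhds (cface_subset_real K444 hs (hps t ht)) (hps t ht).2.2
      rw [hδ]
      simp only
      rw [h7]
  have hγs : ContMDiffOn 𝓘(ℝ, ℝ) (𝓡 3) ∞ γ (Icc 0 1) := e.symm.contMDiff.comp_contMDiffOn hδs
  have h0 : γ 0 = e.symm (M444.mk (ExST.h444 y) (Circle.exp θ)) := by simp [hγ, hδ, hp, hq]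
  have h1 : γ 1 = e.symm (M444.mk (ExST.h444 y') (Circle.exp θ')) := by simp [hγ, hδ, hp, hq]
  rw [IsRiemannianManifold.out (I := 𝓡 3)]
  refine (Manifold.riemannianEDist_le_pathELength (hγs.of_le (by simp)) h0 h1 zero_le_one).trans ?_
  rw [Manifold.pathELength_eq_lintegral_mfderiv_Ioo]
  set L : ℝ := a * C * dist y y' + b * dist θ θ' with hL
  have hL0 : 0 ≤ L := by positivity
  set F : ℝ → WithLp 2 (EuclideanSpace ℝ (Fin k) × ℂ) := fun t => famMap f a b (δ t) with hF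
  have hFL : LipschitzOnWith (Real.toNNReal L) F (Icc 0 1) := by
    refine LipschitzOnWith.of_dist_le_mul fun t ht t' ht' => ?_
    rw [Real.coe_toNNReal _ hL0]
    have e1 : F t - F t' = WithLp.toLp 2
        (a • (f (ExST.h444 (p t)) - f (ExST.h444 (p t'))),
          b • ((Circle.exp (q t) : ℂ) - (Circle.exp (q t') : ℂ))) := by
      rw [smul_sub, smul_sub]
      rfl
    have e2 : ∀ (u : EuclideanSpace ℝ (Fin k)) (v : ℂ),
        ‖(WithLp.toLp 2 (u, v) : WithLp 2 (EuclideanSpace ℝ (Fin k) × ℂ))‖ ≤ ‖u‖ + ‖v‖ := by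
      intro u v
      rw [WithLp.prod_norm_eq_of_L2]
      simp only [WithLp.toLp_fst, WithLp.toLp_snd]
      rw [Real.sqrt_le_left (by positivity)]
      nlinarith [norm_nonneg u, norm_nonneg v]
    rw [dist_eq_norm, e1]
    refine (e2 _ _).trans ?_
    rw [norm_smul, norm_smul, Real.norm_of_nonneg ha, Real.norm_of_nonneg hb]
    have e3 : ‖f (ExST.h444 (p t)) - f (ExST.h444 (p t'))‖ ≤ C * (dist t t' * dist y y') := by
      rw [← dist_eq_norm]
      refine (hC.dist_le_mul _ (hps t ht) _ (hps t' ht')).trans ?_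
      rw [hp]
      simp only [dist_lineMap_lineMap]
      exact le_rfl
    have e4 : ‖(Circle.exp (q t) : ℂ) - (Circle.exp (q t') : ℂ)‖ ≤ dist t t' * dist θ θ' := by
      have e5 := norm_exp_sub_le (q t) (q t')
      refine e5.trans ?_
      rw [← Real.dist_eq, hq]
      simp only [dist_lineMap_lineMap]
      exact le_rfl
    calc a * ‖f (ExST.h444 (p t)) - f (ExST.h444 (p t'))‖ +
          b * ‖(Circle.exp (q t) : ℂ) - (Circle.exp (q t') : ℂ)‖
        ≤ a * (C * (dist t t' * dist y y')) + b * (dist t t' * dist θ θ') := by gcongr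
      _ = L * dist t t' := by rw [hL]; ring
  have hbound : ∀ t ∈ Ioo (0 : ℝ) 1, ‖mfderiv 𝓘(ℝ, ℝ) (𝓡 3) γ t 1‖ₑ ≤ ENNReal.ofReal L := by
    intro t ht
    have hIcc : Icc (0 : ℝ) 1 ∈ 𝓝 t := Icc_mem_nhds ht.1 ht.2
    have hγd : MDifferentiableAt 𝓘(ℝ, ℝ) (𝓡 3) γ t :=
      ((hγs t ⟨ht.1.le, ht.2.le⟩).contMDiffAt hIcc).mdifferentiableAt (by simp)
    have hGd : MDifferentiableAt (𝓡 3) 𝓘(ℝ, WithLp 2 (EuclideanSpace ℝ (Fin k) × ℂ))
        (famMap f a b ∘ e) (γ t) :=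
      ((famMap_contMDiff hf a b).comp e.contMDiff).mdifferentiableAt (by simp)
    have e1 : F = (famMap f a b ∘ e) ∘ γ := by
      funext t
      simp [hF, hγ]
    have e2 : mfderiv 𝓘(ℝ, ℝ) 𝓘(ℝ, WithLp 2 (EuclideanSpace ℝ (Fin k) × ℂ)) F t =
        (mfderiv (𝓡 3) 𝓘(ℝ, WithLp 2 (EuclideanSpace ℝ (Fin k) × ℂ))
          (famMap f a b ∘ e) (γ t)).comp (mfderiv 𝓘(ℝ, ℝ) (𝓡 3) γ t) := by
      rw [e1]
      exact mfderiv_comp t hGd hγd
    have e3 : ‖mfderiv 𝓘(ℝ, ℝ) (𝓡 3) γ t 1‖ =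
        ‖mfderiv 𝓘(ℝ, ℝ) 𝓘(ℝ, WithLp 2 (EuclideanSpace ℝ (Fin k) × ℂ)) F t 1‖ := by
      rw [he, e2]
      rfl
    have e4 : ‖mfderiv 𝓘(ℝ, ℝ) 𝓘(ℝ, WithLp 2 (EuclideanSpace ℝ (Fin k) × ℂ)) F t 1‖ =
        ‖deriv F t‖ := by
      rw [norm_tangentSpace_vectorSpace, mfderiv_eq_fderiv]
      rfl
    have e5 : ‖deriv F t‖ ≤ L := by
      have := norm_deriv_le_of_lipschitzOn hIcc hFL
      rwa [Real.coe_toNNReal _ hL0] at this
    rw [← ofReal_norm]
    refine ENNReal.ofReal_le_ofReal ?_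
    rw [e3, e4]
    exact e5
  calc ∫⁻ t in Ioo (0 : ℝ) 1, ‖mfderiv 𝓘(ℝ, ℝ) (𝓡 3) γ t 1‖ₑ
      ≤ ∫⁻ _ in Ioo (0 : ℝ) 1, ENNReal.ofReal L := setLIntegral_mono' measurableSet_Ioo hbound
    _ = ENNReal.ofReal L := by simp

/-- The parametrisation of a triangle. -/
noncomputable def par (v₀ v₁ v₂ : V444) (a : ℝ) (u : Fin 3 → ℝ) : V444 → ℝ :=
  (u 0 / a) • vtx v₀ + (u 1 / a) • vtx v₁ + (1 - u 0 / a - u 1 / a) • vtx v₂

theorem norm_vtx (v : V444) : ‖(vtx v : V444 → ℝ)‖ = 1 := by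
  unfold vtx
  rw [Pi.norm_single, norm_one]

theorem dist_par_le (v₀ v₁ v₂ : V444) {a : ℝ} (ha : 0 < a) (u u' : Fin 3 → ℝ) :
    a * dist (par v₀ v₁ v₂ a u) (par v₀ v₁ v₂ a u') ≤ 4 * dist u u' := by
  have e : par v₀ v₁ v₂ a u - par v₀ v₁ v₂ a u' =
      ((u 0 - u' 0) / a) • (vtx v₀ - vtx v₂) + ((u 1 - u' 1) / a) • (vtx v₁ - vtx v₂) := by
    unfold par
    simp only [sub_div]
    module
  have h0 : |u 0 - u' 0| ≤ dist u u' := by
    rw [← Real.dist_eq]; exact dist_le_pi_dist u u' 0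
  have h1 : |u 1 - u' 1| ≤ dist u u' := by
    rw [← Real.dist_eq]; exact dist_le_pi_dist u u' 1
  have n0 : ‖(vtx v₀ : V444 → ℝ) - vtx v₂‖ ≤ 2 := by
    refine (norm_sub_le _ _).trans ?_
    rw [norm_vtx, norm_vtx]; norm_num
  have n1 : ‖(vtx v₁ : V444 → ℝ) - vtx v₂‖ ≤ 2 := by
    refine (norm_sub_le _ _).trans ?_
    rw [norm_vtx, norm_vtx]; norm_num
  have t0 : a * ‖((u 0 - u' 0) / a) • ((vtx v₀ : V444 → ℝ) - vtx v₂)‖ ≤ 2 * dist u u' := by
    rw [norm_smul, Real.norm_eq_abs, abs_div, abs_of_pos ha]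
    calc a * (|u 0 - u' 0| / a * ‖(vtx v₀ : V444 → ℝ) - vtx v₂‖)
        = |u 0 - u' 0| * ‖(vtx v₀ : V444 → ℝ) - vtx v₂‖ := by field_simp
      _ ≤ dist u u' * 2 := mul_le_mul h0 n0 (norm_nonneg _) dist_nonneg
      _ = 2 * dist u u' := mul_comm _ _
  have t1 : a * ‖((u 1 - u' 1) / a) • ((vtx v₁ : V444 → ℝ) - vtx v₂)‖ ≤ 2 * dist u u' := by
    rw [norm_smul, Real.norm_eq_abs, abs_div, abs_of_pos ha]
    calc a * (|u 1 - u' 1| / a * ‖(vtx v₁ : V444 → ℝ) - vtx v₂‖)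
        = |u 1 - u' 1| * ‖(vtx v₁ : V444 → ℝ) - vtx v₂‖ := by field_simp
      _ ≤ dist u u' * 2 := mul_le_mul h1 n1 (norm_nonneg _) dist_nonneg
      _ = 2 * dist u u' := mul_comm _ _
  rw [dist_eq_norm, e]
  have t2 := norm_add_le (((u 0 - u' 0) / a) • ((vtx v₀ : V444 → ℝ) - vtx v₂))
    (((u 1 - u' 1) / a) • ((vtx v₁ : V444 → ℝ) - vtx v₂))
  nlinarith [mul_le_mul_of_nonneg_left t2 ha.le]

/-- The domain of the parametrisations. -/
def dom (a b : ℝ) : Set (Fin 3 → ℝ) :=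
  {u | 0 ≤ u 0 ∧ 0 ≤ u 1 ∧ u 0 + u 1 ≤ a ∧ -(Real.pi * b) ≤ u 2 ∧ u 2 ≤ Real.pi * b}

theorem area_dom_le {a b : ℝ} (ha : 0 < a) (hab : a * a * b = 1) :
    area 3 (dom a b) ≤ ENNReal.ofReal (2 * Real.pi) := by
  have hsub : dom a b ⊆ Icc ![0, 0, -(Real.pi * b)] ![a, a, Real.pi * b] := by
    rintro u ⟨h0, h1, h2, h3, h4⟩
    constructor
    · intro i; fin_cases i <;> simp <;> linarith
    · intro i; fin_cases i <;> simp <;> linarith
  have h3 : area 3 (dom a b) ≤ area 3 (Icc ![0, 0, -(Real.pi * b)] ![a, a, Real.pi * b]) := by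
    rw [area_eq_hausdorffMeasure, area_eq_hausdorffMeasure]
    exact measure_mono hsub
  refine h3.trans ?_
  rw [area_eq_hausdorffMeasure]
  have h3 := hausdorffMeasure_pi_real (ι := Fin 3)
  rw [Fintype.card_fin] at h3
  rw [h3, Real.volume_Icc_pi, Fin.prod_univ_three]
  have hp := Real.pi_pos
  simp only [Matrix.cons_val_zero, Matrix.cons_val_one, Matrix.cons_val, sub_zero]
  rw [← ENNReal.ofReal_mul ha.le, ← ENNReal.ofReal_mul (by positivity)]
  refine ENNReal.ofReal_le_ofReal (le_of_eq ?_)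
  linear_combination (2 * Real.pi) * hab

/-- One piece of the manifold. -/
theorem area_piece_le {k : ℕ} {f : S444 → EuclideanSpace ℝ (Fin k)}
    (hf : ContMDiff (𝓡 2) 𝓘(ℝ, EuclideanSpace ℝ (Fin k)) ∞ f) {C : ℝ≥0} {v₀ v₁ v₂ : V444}
    (hs : ({v₀, v₁, v₂} : Finset V444) ∈ K444.faces)
    (hC : LipschitzOnWith C (fun y => f (ExST.h444 y)) (cface {v₀, v₁, v₂}))
    {a b : ℝ} (ha : 0 < a) (hb : 0 < b) (hab : a * a * b = 1)
    (R : ClosedRiem 3) (e : Diffeomorph (𝓡 3) (𝓡 3) R.carrier M444 ∞)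
    (he : ∀ (x : R.carrier) (v : TangentSpace (𝓡 3) x), ‖v‖ =
        ‖mfderiv (𝓡 3) 𝓘(ℝ, WithLp 2 (EuclideanSpace ℝ (Fin k) × ℂ)) (famMap f a b ∘ e) x v‖) :
    area 3 ((fun u => e.symm (M444.mk (ExST.h444 (par v₀ v₁ v₂ a u)) (Circle.exp (u 2 / b)))) ''
      dom a b) ≤ ((4 * C + 1 : ℝ≥0) : ℝ≥0∞) ^ 3 * ENNReal.ofReal (2 * Real.pi) := by
  have hpar : ∀ u ∈ dom a b, par v₀ v₁ v₂ a u ∈ cface ({v₀, v₁, v₂} : Finset V444) := by
    rintro u ⟨h0, h1, h2, -, -⟩
    have hd0 : 0 ≤ u 0 / a := div_nonneg h0 ha.le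
    have hd1 : 0 ≤ u 1 / a := div_nonneg h1 ha.le
    have hd2 : 0 ≤ 1 - u 0 / a - u 1 / a := by
      have : u 0 / a + u 1 / a ≤ 1 := by
        rw [← add_div, div_le_one ha]; exact h2
      linarith
    have m0 : (vtx v₀ : V444 → ℝ) ∈ cface ({v₀, v₁, v₂} : Finset V444) := vtx_mem_cface (by simp)
    have m1 : (vtx v₁ : V444 → ℝ) ∈ cface ({v₀, v₁, v₂} : Finset V444) := vtx_mem_cface (by simp)
    have m2 : (vtx v₂ : V444 → ℝ) ∈ cface ({v₀, v₁, v₂} : Finset V444) := vtx_mem_cface (by simp)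
    have h5 := (convex_cface ({v₀, v₁, v₂} : Finset V444)).sum_mem (t := Finset.univ)
      (w := ![u 0 / a, u 1 / a, 1 - u 0 / a - u 1 / a]) (z := ![vtx v₀, vtx v₁, vtx v₂])
      (by intro i _; fin_cases i <;> assumption) (by rw [Fin.sum_univ_three]; simp)
      (by intro i _; fin_cases i <;> simpa)
    rw [Fin.sum_univ_three] at h5
    exact h5
  have hlip : LipschitzOnWith (4 * C + 1)
      (fun u => e.symm (M444.mk (ExST.h444 (par v₀ v₁ v₂ a u)) (Circle.exp (u 2 / b))))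
      (dom a b) := by
    intro u hu u' hu'
    refine (edist_le hf hs hC ha.le hb.le R e he (hpar u hu) (hpar u' hu') _ _).trans ?_
    rw [edist_dist, ← ENNReal.ofReal_coe_nnreal, ← ENNReal.ofReal_mul (by positivity)]
    refine ENNReal.ofReal_le_ofReal ?_
    have h1 := dist_par_le v₀ v₁ v₂ ha u u'
    have h2 : b * dist (u 2 / b) (u' 2 / b) ≤ dist u u' := by
      rw [Real.dist_eq, ← sub_div, abs_div, abs_of_pos hb, mul_div_cancel₀ _ hb.ne',
        ← Real.dist_eq]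
      exact dist_le_pi_dist u u' 2
    have h3 : (C : ℝ) * (a * dist (par v₀ v₁ v₂ a u) (par v₀ v₁ v₂ a u')) ≤
        C * (4 * dist u u') := mul_le_mul_of_nonneg_left h1 C.coe_nonneg
    push_cast
    linarith
  refine (area_image_le 3 hlip).trans ?_
  gcongr
  exact area_dom_le ha hab

end FamV

theorem fam_volume {k : ℕ} {f : S444 → EuclideanSpace ℝ (Fin k)}
    (hf : ContMDiff (𝓡 2) 𝓘(ℝ, EuclideanSpace ℝ (Fin k)) ∞ f) :
    ∃ V₀ : ℝ≥0, ∀ b : ℝ, 1 ≤ b →
      ∀ (R : ClosedRiem 3) (e : Diffeomorph (𝓡 3) (𝓡 3) R.carrier M444 ∞),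
      (∀ (x : R.carrier) (v : TangentSpace (𝓡 3) x), ‖v‖ =
        ‖mfderiv (𝓡 3) 𝓘(ℝ, WithLp 2 (EuclideanSpace ℝ (Fin k) × ℂ))
          (famMap f (Real.sqrt b)⁻¹ b ∘ e) x v‖) →
      area 3 (univ : Set R.carrier) ≤ V₀ := by
  obtain ⟨C, hC⟩ := FamV.exists_lip hf
  set T : Finset (ZMod 4 × ZMod 4 × ZMod 4) := Finset.univ.filter
    (fun t => t.1 + t.2.1 + t.2.2 = 0 ∨ t.1 + t.2.1 + t.2.2 = 1) with hT
  refine ⟨T.card * ((4 * C + 1) ^ 3 * Real.toNNReal (2 * Real.pi)), fun b hb R e he => ?_⟩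
  have hb0 : 0 < b := lt_of_lt_of_le one_pos hb
  set a : ℝ := (Real.sqrt b)⁻¹ with haa
  have ha : 0 < a := inv_pos.2 (Real.sqrt_pos.2 hb0)
  have hab : a * a * b = 1 := by
    have h1 : Real.sqrt b * Real.sqrt b = b := Real.mul_self_sqrt hb0.le
    rw [haa, ← mul_inv, h1]
    exact inv_mul_cancel₀ hb0.ne'
  set G : (ZMod 4 × ZMod 4 × ZMod 4) → (Fin 3 → ℝ) → R.carrier := fun t u =>
    e.symm (M444.mk (ExST.h444 (FamV.par (0, t.1) (1, t.2.1) (2, t.2.2) a u))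
      (Circle.exp (u 2 / b))) with hG
  have hcover : (univ : Set R.carrier) ⊆ ⋃ t ∈ T, G t '' FamV.dom a b := by
    intro x _
    obtain ⟨α, β, c, hv, hsub⟩ := (e x).1.2.2.2.2
    set y : V444 → ℝ := (e x).1.1 with hy
    have hy0 : ∀ v, 0 ≤ y v := (e x).1.2.1
    have hy1 : ∑ v, y v = 1 := (e x).1.2.2.1
    have hzero : ∀ v : V444, v ≠ (0, α) → v ≠ (1, β) → v ≠ (2, c) → y v = 0 := by
      intro w h1 h2 h3
      by_contra hne
      have := hsub (mem_supp.2 hne)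
      simp only [Finset.mem_insert, Finset.mem_singleton] at this
      tauto
    have n01 : ((0 : Fin 3), α) ≠ (1, β) := by simp
    have n02 : ((0 : Fin 3), α) ≠ (2, c) := by simp
    have n12 : ((1 : Fin 3), β) ≠ (2, c) := by simp
    have hsum : y (0, α) + y (1, β) + y (2, c) = 1 := by
      rw [← hy1]
      have : ∑ v ∈ ({(0, α), (1, β), (2, c)} : Finset V444), y v = ∑ v, y v := by
        refine Finset.sum_subset (Finset.subset_univ _) fun v _ hv => ?_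
        simp only [Finset.mem_insert, Finset.mem_singleton, not_or] at hv
        exact hzero v hv.1 hv.2.1 hv.2.2
      rw [← this, Finset.sum_insert (by simp), Finset.sum_insert (by simp), Finset.sum_singleton]
      ring
    rw [mem_iUnion₂]
    refine ⟨(α, β, c), by rw [hT]; simpa using hv,
      ![a * y (0, α), a * y (1, β), b * Complex.arg ((e x).2 : ℂ)], ⟨?_, ?_, ?_, ?_, ?_⟩, ?_⟩
    · exact mul_nonneg ha.le (hy0 _)
    · exact mul_nonneg ha.le (hy0 _)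
    · show a * y (0, α) + a * y (1, β) ≤ a
      nlinarith [hy0 (2, c)]
    · show -(Real.pi * b) ≤ b * Complex.arg ((e x).2 : ℂ)
      nlinarith [Complex.neg_pi_lt_arg ((e x).2 : ℂ)]
    · show b * Complex.arg ((e x).2 : ℂ) ≤ Real.pi * b
      nlinarith [Complex.arg_le_pi ((e x).2 : ℂ)]
    · have h1 : FamV.par (0, α) (1, β) (2, c) a
          ![a * y (0, α), a * y (1, β), b * Complex.arg ((e x).2 : ℂ)] = y := by
        have d0 : a * y (0, α) / a = y (0, α) := mul_div_cancel_left₀ _ ha.ne'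
        have d1 : a * y (1, β) / a = y (1, β) := mul_div_cancel_left₀ _ ha.ne'
        funext v
        unfold FamV.par vtx
        simp only [Matrix.cons_val_zero, Matrix.cons_val_one, d0, d1, Pi.add_apply, Pi.smul_apply,
          smul_eq_mul, Pi.single_apply]
        by_cases h0 : v = (0, α)
        · subst h0
          rw [if_pos rfl, if_neg n01, if_neg n02]; ring
        · by_cases h1 : v = (1, β)
          · subst h1
            rw [if_pos rfl, if_neg n01.symm, if_neg n12]; ring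
          · by_cases h2 : v = (2, c)
            · subst h2
              rw [if_pos rfl, if_neg n02.symm, if_neg n12.symm]; linarith
            · rw [if_neg h0, if_neg h1, if_neg h2, hzero v h0 h1 h2]; ring
      have h2 : Circle.exp ((![a * y (0, α), a * y (1, β), b * Complex.arg ((e x).2 : ℂ)] :
          Fin 3 → ℝ) 2 / b) = (e x).2 := by
        have d2 : (![a * y (0, α), a * y (1, β), b * Complex.arg ((e x).2 : ℂ)] :
          Fin 3 → ℝ) 2 / b = Complex.arg ((e x).2 : ℂ) := by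
          show b * Complex.arg ((e x).2 : ℂ) / b = _
          exact mul_div_cancel_left₀ _ hb0.ne'
        rw [d2]
        exact Circle.exp_arg _
      rw [hG]
      simp only
      rw [h1, h2, ExST.h444_of_mem (e x).1.2]
      have h3 : M444.mk ⟨y, (e x).1.2⟩ (e x).2 = e x := rfl
      rw [h3]
      exact e.symm_apply_apply x
  let _ : MeasurableSpace R.carrier := borel R.carrier
  have _ : BorelSpace R.carrier := ⟨rfl⟩
  rw [area_eq_hausdorffMeasure]
  refine (measure_mono hcover).trans ((measure_biUnion_finset_le T _).trans ?_)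
  have hpiece : ∀ t ∈ T, Measure.hausdorffMeasure ((3 : ℕ) : ℝ) (G t '' FamV.dom a b) ≤
      ((4 * C + 1 : ℝ≥0) : ℝ≥0∞) ^ 3 * ENNReal.ofReal (2 * Real.pi) := by
    intro t ht
    rw [← area_eq_hausdorffMeasure]
    have hv : t.1 + t.2.1 + t.2.2 = 0 ∨ t.1 + t.2.1 + t.2.2 = 1 := by
      rw [hT] at ht
      simpa using ht
    have hface : ({(0, t.1), (1, t.2.1), (2, t.2.2)} : Finset V444) ∈ K444.faces :=
      ⟨⟨(0, t.1), by simp⟩, t.1, t.2.1, t.2.2, hv, subset_rfl⟩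
    exact FamV.area_piece_le hf hface (hC _ hface) ha hb0 hab R e he
  refine (Finset.sum_le_sum hpiece).trans (le_of_eq ?_)
  rw [Finset.sum_const, nsmul_eq_mul]
  push_cast
  rfl

end SepFil
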