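import Pool.Agent.SepFil.FamVol
import Pool.Agent.SepFil.ExMOr

/-!
# The family of metrics `a² g_S + b² dθ²`, `a² b = 1`, on `S × S¹`

(module FAMILY of the blueprint)
-/

open Set MeasureTheory Manifold Bundle Filter Topology
open scoped ContDiff ENNReal NNReal

namespace SepFil

theorem exists_metric_family : ∃ V₀ : ℝ≥0, ∀ b : ℝ, 1 ≤ b →
    ∃ (R : ClosedRiem 3) (e : Diffeomorph (𝓡 3) (𝓡 3) R.carrier M444 ∞),
      Orientable 3 R.carrier ∧ area 3 (univ : Set R.carrier) ≤ V₀ ∧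
      LipschitzWith 1 (fun x : R.carrier => b * ((e x).2 : ℂ).re) := by
  obtain ⟨k, f, hf, him⟩ := exists_embS
  obtain ⟨V₀, hV₀⟩ := fam_volume hf
  refine ⟨V₀, fun b hb => ?_⟩
  have hb0 : 0 < b := lt_of_lt_of_le one_pos hb
  have ha : 0 < (Real.sqrt b)⁻¹ := inv_pos.2 (Real.sqrt_pos.2 hb0)
  have hsm := famMap_contMDiff hf (Real.sqrt b)⁻¹ b
  obtain ⟨R, e, hor, hnorm⟩ := exists_pullback_metric M444 (famMap f (Real.sqrt b)⁻¹ b) hsm
    (fun x v hv => famMap_immersion hf him ha hb0 x v hv)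
  refine ⟨R, e, hor M444_orientable, hV₀ b hb R e hnorm, ?_⟩
  set G : R.carrier → WithLp 2 (EuclideanSpace ℝ (Fin k) × ℂ) :=
    famMap f (Real.sqrt b)⁻¹ b ∘ e with hG
  have hGsm : ContMDiff (𝓡 3) 𝓘(ℝ, WithLp 2 (EuclideanSpace ℝ (Fin k) × ℂ)) ∞ G :=
    hsm.comp e.contMDiff
  set L : WithLp 2 (EuclideanSpace ℝ (Fin k) × ℂ) →L[ℝ] ℝ :=
    Complex.reCLM.comp ((ContinuousLinearMap.snd ℝ _ _).comp
      (WithLp.prodContinuousLinearEquiv 2 ℝ (EuclideanSpace ℝ (Fin k)) ℂ).toContinuousLinearMap)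
    with hL
  have hLle : ∀ w, ‖L w‖ ≤ ‖w‖ := by
    intro w
    have h1 : L w = (w.snd).re := rfl
    rw [h1]
    have h2 : ‖(w.snd).re‖ ≤ ‖w.snd‖ := by
      rw [Real.norm_eq_abs]; exact Complex.abs_re_le_norm _
    refine h2.trans ?_
    rw [WithLp.prod_norm_eq_of_L2]
    exact Real.le_sqrt_of_sq_le (by nlinarith [sq_nonneg ‖w.fst‖])
  have hfun : (fun x : R.carrier => b * ((e x).2 : ℂ).re) = L ∘ G := by
    funext x
    change _ = (b • ((e x).2 : ℂ)).re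
    simp
  have hLG : ContMDiff (𝓡 3) 𝓘(ℝ, ℝ) ∞ (L ∘ G) := L.contMDiff.comp hGsm
  rw [hfun]
  refine lipschitzWith_of_norm_mfderiv_le R (hLG.of_le (by simp)) fun x v => ?_
  rw [mfderiv_comp x (L.contMDiff.mdifferentiableAt (n := ∞) (by simp))
    (hGsm.mdifferentiableAt (by simp)), ContinuousLinearMap.comp_apply,
    ContinuousLinearMap.mfderiv_eq]
  rw [norm_tangentSpace_vectorSpace]
  refine (hLle _).trans (le_of_eq ?_)
  rw [hnorm x v, norm_tangentSpace_vectorSpace]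

end SepFil
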