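import Pool.Agent.SepFil.Defs

/-!
# Pulling back a Euclidean metric under an immersion

(module METRIC of the blueprint)
-/

open Set MeasureTheory Manifold Bundle Filter Topology
open scoped ContDiff ENNReal NNReal

namespace SepFil

section

open scoped RealInnerProductSpace

/-- the derivative as a map into `F` -/
noncomputable def mtD (n : ℕ) {M : Type} [TopologicalSpace M]
    [ChartedSpace (EuclideanSpace ℝ (Fin n)) M] {F : Type*} [NormedAddCommGroup F]
    [InnerProductSpace ℝ F] (f : M → F) (b : M) : EuclideanSpace ℝ (Fin n) →L[ℝ] F :=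
  mfderiv (𝓡 n) 𝓘(ℝ, F) f b

/-- the bilinear form pulled back under a linear map -/
noncomputable def mtB {E F : Type*} [NormedAddCommGroup E] [NormedSpace ℝ E]
    [NormedAddCommGroup F] [InnerProductSpace ℝ F] (A : E →L[ℝ] F) : E →L[ℝ] E →L[ℝ] ℝ :=
  (ContinuousLinearMap.compL ℝ E F ℝ).flip A ∘L (innerSL ℝ (E := F)) ∘L A

lemma mtB_apply {E F : Type*} [NormedAddCommGroup E] [NormedSpace ℝ E]
    [NormedAddCommGroup F] [InnerProductSpace ℝ F] (A : E →L[ℝ] F) (v w : E) :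
    mtB A v w = ⟪A v, A w⟫ := rfl

lemma mtB_contMDiffAt {E F : Type*} [NormedAddCommGroup E] [NormedSpace ℝ E]
    [NormedAddCommGroup F] [InnerProductSpace ℝ F] {n : ℕ} {M : Type} [TopologicalSpace M]
    [ChartedSpace (EuclideanSpace ℝ (Fin n)) M] {A : M → E →L[ℝ] F} {x : M}
    (hA : ContMDiffAt (𝓡 n) 𝓘(ℝ, E →L[ℝ] F) ∞ A x) :
    ContMDiffAt (𝓡 n) 𝓘(ℝ, E →L[ℝ] E →L[ℝ] ℝ) ∞ (fun b => mtB (A b)) x := by
  have h1 : ContDiff ℝ ∞ (fun A : E →L[ℝ] F => mtB A) := by
    unfold mtB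
    fun_prop
  exact h1.contMDiff.contMDiffAt.comp x hA

/-- the pulled back inner product -/
noncomputable def mtInner (n : ℕ) {M : Type} [TopologicalSpace M]
    [ChartedSpace (EuclideanSpace ℝ (Fin n)) M] {F : Type*} [NormedAddCommGroup F]
    [InnerProductSpace ℝ F] (f : M → F) (b : M) :
    TangentSpace (𝓡 n) b →L[ℝ] TangentSpace (𝓡 n) b →L[ℝ] ℝ :=
  mtB (mtD n f b)

variable {n : ℕ} {M : Type} [TopologicalSpace M]
    [ChartedSpace (EuclideanSpace ℝ (Fin n)) M]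
    {F : Type*} [NormedAddCommGroup F]
    [InnerProductSpace ℝ F]

lemma mt_contMDiff [IsManifold (𝓡 n) ∞ M] (f : M → F) (hf : ContMDiff (𝓡 n) 𝓘(ℝ, F) ∞ f) :
    ContMDiff (𝓡 n) ((𝓡 n).prod 𝓘(ℝ, EuclideanSpace ℝ (Fin n) →L[ℝ]
      EuclideanSpace ℝ (Fin n) →L[ℝ] ℝ)) ∞
    (fun b ↦ TotalSpace.mk' (EuclideanSpace ℝ (Fin n) →L[ℝ] EuclideanSpace ℝ (Fin n) →L[ℝ] ℝ)
      (E := fun b : M => TangentSpace (𝓡 n) b →L[ℝ] TangentSpace (𝓡 n) b →L[ℝ] ℝ)
      b (mtInner n f b)) := by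
  intro x
  rw [contMDiffAt_section]
  have h1 := ContMDiffAt.mfderiv_const (m := ∞) (n := ∞) (hf x) le_rfl
  have h2 := mtB_contMDiffAt h1
  refine h2.congr_of_eventuallyEq ?_
  have h3 : ∀ᶠ b in 𝓝 x, b ∈ (trivializationAt (EuclideanSpace ℝ (Fin n))
      (TangentSpace (𝓡 n) : M → Type) x).baseSet :=
    (trivializationAt (EuclideanSpace ℝ (Fin n))
      (TangentSpace (𝓡 n) : M → Type) x).open_baseSet.mem_nhds
      (FiberBundle.mem_baseSet_trivializationAt' x)
  filter_upwards [h3] with b hb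
  ext v w
  rw [hom_trivializationAt_apply]
  dsimp only
  rw [inCoordinates_apply_eq₂ hb hb (by simp)]
  rw [mtB_apply]
  simp only [inTangentCoordinates, ContinuousLinearMap.inCoordinates,
    TangentBundle.continuousLinearMapAt_model_space]
  have h4 : (Trivialization.linearMapAt ℝ (trivializationAt ℝ (Bundle.Trivial M ℝ) x) b) =
      LinearMap.id := by
    ext
    simp
  erw [h4]
  have h5 : ∀ u : EuclideanSpace ℝ (Fin n), (trivializationAt (EuclideanSpace ℝ (Fin n))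
      (TangentSpace (𝓡 n) : M → Type) x).symmL ℝ b u = (trivializationAt (EuclideanSpace ℝ (Fin n))
      (TangentSpace (𝓡 n) : M → Type) x).symm b u := fun u => Trivialization.symmL_apply _ hb u
  change ⟪mtD n f b ((trivializationAt (EuclideanSpace ℝ (Fin n))
      (TangentSpace (𝓡 n) : M → Type) x).symm b v), mtD n f b
      ((trivializationAt (EuclideanSpace ℝ (Fin n))
      (TangentSpace (𝓡 n) : M → Type) x).symm b w)⟫ =
      ⟪mtD n f b ((trivializationAt (EuclideanSpace ℝ (Fin n))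
      (TangentSpace (𝓡 n) : M → Type) x).symmL ℝ b v), mtD n f b
      ((trivializationAt (EuclideanSpace ℝ (Fin n))
      (TangentSpace (𝓡 n) : M → Type) x).symmL ℝ b w)⟫
  rw [h5, h5]

lemma mt_bounded {E F : Type*} [NormedAddCommGroup E] [NormedSpace ℝ E] [FiniteDimensional ℝ E]
    [NormedAddCommGroup F] [InnerProductSpace ℝ F] (A : E →L[ℝ] F)
    (hA : ∀ v, A v = 0 → v = 0) : Bornology.IsVonNBounded ℝ {v : E | mtB A v v < 1} := by
  obtain ⟨K, hK, h⟩ := LinearMap.exists_antilipschitzWith (A : E →ₗ[ℝ] F) (by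
    rw [LinearMap.ker_eq_bot']
    exact hA)
  refine (NormedSpace.isVonNBounded_ball ℝ E (K + 1)).subset ?_
  intro v hv
  rw [mem_ball_zero_iff]
  have h1 : ‖v‖ ≤ K * ‖A v‖ := by
    have := h.le_mul_dist v 0
    simpa using this
  have h2 : ‖A v‖ < 1 := by
    have h3 : mtB A v v < 1 := hv
    rw [mtB_apply, real_inner_self_eq_norm_sq] at h3
    nlinarith [norm_nonneg (A v)]
  have h3 : (0 : ℝ) < K := by exact_mod_cast hK
  nlinarith

set_option backward.isDefEq.respectTransparency false in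
/-- the pulled back metric -/
noncomputable def mtMetric [IsManifold (𝓡 n) ∞ M] (f : M → F)
    (hf : ContMDiff (𝓡 n) 𝓘(ℝ, F) ∞ f)
    (him : ∀ (x : M) (v : TangentSpace (𝓡 n) x), mfderiv (𝓡 n) 𝓘(ℝ, F) f x v = 0 → v = 0) :
    ContMDiffRiemannianMetric (𝓡 n) ∞ (EuclideanSpace ℝ (Fin n))
      (fun x : M => TangentSpace (𝓡 n) x) where
  inner := mtInner n f
  symm _ _ _ := real_inner_comm _ _
  pos b v hv := real_inner_self_pos.2 (fun h => hv (him b v h))
  isVonNBounded b := mt_bounded (mtD n f b) (him b)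
  contMDiff := mt_contMDiff f hf

end

theorem exists_pullback_metric {n : ℕ} (M : Type) [TopologicalSpace M]
    [ChartedSpace (EuclideanSpace ℝ (Fin n)) M] [IsManifold (𝓡 n) ∞ M] [T2Space M]
    [CompactSpace M] [ConnectedSpace M] {F : Type*} [NormedAddCommGroup F]
    [InnerProductSpace ℝ F] (f : M → F) (hf : ContMDiff (𝓡 n) 𝓘(ℝ, F) ∞ f)
    (him : ∀ (x : M) (v : TangentSpace (𝓡 n) x), mfderiv (𝓡 n) 𝓘(ℝ, F) f x v = 0 → v = 0) :
    ∃ (R : ClosedRiem n) (e : Diffeomorph (𝓡 n) (𝓡 n) R.carrier M ∞),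
      (Orientable n M → Orientable n R.carrier) ∧
      ∀ (x : R.carrier) (v : TangentSpace (𝓡 n) x),
        ‖v‖ = ‖mfderiv (𝓡 n) 𝓘(ℝ, F) (f ∘ e) x v‖ := by
  let rb : RiemannianBundle (fun x : M => TangentSpace (𝓡 n) x) :=
    ⟨(mtMetric f hf him).toRiemannianMetric⟩
  have : IsContMDiffRiemannianBundle (𝓡 n) ∞ (EuclideanSpace ℝ (Fin n))
      (fun x : M => TangentSpace (𝓡 n) x) := inferInstance
  have : IsContinuousRiemannianBundle (EuclideanSpace ℝ (Fin n))
      (fun x : M => TangentSpace (𝓡 n) x) :=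
    ⟨⟨mtInner n f, (mt_contMDiff f hf).continuous, fun _ _ _ => rfl⟩⟩
  have : IsManifold (𝓡 n) 1 M := IsManifold.of_le (n := ∞) (by norm_cast)
  let em : EMetricSpace M := EMetricSpace.ofRiemannianMetric (𝓡 n) M
  refine ⟨{ carrier := M
            emetric := em }, Diffeomorph.refl (𝓡 n) M ∞, ?_, ?_⟩
  · exact id
  · intro x v
    have h1 : ‖v‖ = Real.sqrt (mtInner n f x v v) := by
      rw [norm_eq_sqrt_real_inner]
      rfl
    have h2 : ‖mfderiv (𝓡 n) 𝓘(ℝ, F) (f ∘ (Diffeomorph.refl (𝓡 n) M ∞)) x v‖ =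
        ‖mtD n f x v‖ := by
      rw [norm_tangentSpace_vectorSpace]
      rfl
    refine h1.trans (Eq.trans ?_ h2.symm)
    have h3 : ∀ u : EuclideanSpace ℝ (Fin n),
        Real.sqrt (mtB (mtD n f x) u u) = ‖mtD n f x u‖ := fun u => by
      rw [mtB_apply, real_inner_self_eq_norm_sq, Real.sqrt_sq (norm_nonneg _)]
    exact h3 v

end SepFil
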