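import Pool.Agent.SepFil.ExM
import Pool.Agent.SepFil.Metric

/-!
# The maps defining the family of metrics `a² g_S + b² dθ²` on `S × S¹`

(module FAM0 of the blueprint)
-/

open Set MeasureTheory Manifold Bundle Filter Topology
open scoped ContDiff ENNReal NNReal

namespace SepFil

/-- Whitney embedding of the surface. -/
theorem exists_embS : ∃ (k : ℕ) (f : S444 → EuclideanSpace ℝ (Fin k)),
    ContMDiff (𝓡 2) 𝓘(ℝ, EuclideanSpace ℝ (Fin k)) ∞ f ∧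
    ∀ (x : S444) (v : TangentSpace (𝓡 2) x),
      mfderiv (𝓡 2) 𝓘(ℝ, EuclideanSpace ℝ (Fin k)) f x v = 0 → v = 0 := by
  obtain ⟨k, f, hf, -, hinj⟩ := exists_embedding_euclidean_of_compact (I := 𝓡 2) (M := S444)
  refine ⟨k, f, hf, fun x v hv => ?_⟩
  apply hinj x
  rw [map_zero]
  exact hv

/-- The immersion `(a f, b ι)` of `S × S¹`. -/
noncomputable def famMap {k : ℕ} (f : S444 → EuclideanSpace ℝ (Fin k)) (a b : ℝ) (x : M444) :
    WithLp 2 (EuclideanSpace ℝ (Fin k) × ℂ) :=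
  WithLp.toLp 2 (a • f x.1, b • (x.2 : ℂ))

/-- The inclusion of the circle is smooth. -/
theorem fam0_contMDiff_coe : ContMDiff (𝓡 1) 𝓘(ℝ, ℂ) ∞ (fun z : Circle => (z : ℂ)) := by
  have : Fact (Module.finrank ℝ ℂ = 1 + 1) := Complex.finrank_real_complex_fact
  exact contMDiff_coe_sphere (E := ℂ) (n := 1)

/-- The inclusion of the circle is an immersion. -/
theorem fam0_injective_coe (z : Circle) (v : TangentSpace (𝓡 1) z)
    (h : mfderiv (𝓡 1) 𝓘(ℝ, ℂ) (fun z : Circle => (z : ℂ)) z v = 0) : v = 0 := by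
  have : Fact (Module.finrank ℝ ℂ = 1 + 1) := Complex.finrank_real_complex_fact
  have hinj := injective_mvfderiv_subtypeVal_sphere (E := ℂ) (n := 1) z
  exact hinj (h.trans (map_zero _).symm)

variable {k : ℕ} {f : S444 → EuclideanSpace ℝ (Fin k)}

theorem famMap_contMDiff (hf : ContMDiff (𝓡 2) 𝓘(ℝ, EuclideanSpace ℝ (Fin k)) ∞ f) (a b : ℝ) :
    ContMDiff (𝓡 3) 𝓘(ℝ, WithLp 2 (EuclideanSpace ℝ (Fin k) × ℂ)) ∞ (famMap f a b) := by
  have h1 : ContMDiff (𝓡 3) 𝓘(ℝ, EuclideanSpace ℝ (Fin k)) ∞ (fun x : M444 => a • f x.1) :=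
    (a • ContinuousLinearMap.id ℝ (EuclideanSpace ℝ (Fin k))).contDiff.contMDiff.comp
      (hf.comp contMDiff_fst444)
  have h2 : ContMDiff (𝓡 3) 𝓘(ℝ, ℂ) ∞ (fun x : M444 => b • ((x.2 : Circle) : ℂ)) :=
    (b • ContinuousLinearMap.id ℝ ℂ).contDiff.contMDiff.comp
      (fam0_contMDiff_coe.comp contMDiff_snd444)
  have h3 := h1.prodMk_space h2
  exact (WithLp.prodContinuousLinearEquiv 2 ℝ (EuclideanSpace ℝ (Fin k)) ℂ).symm.contDiff.contMDiff.comp h3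

theorem famMap_immersion (hf : ContMDiff (𝓡 2) 𝓘(ℝ, EuclideanSpace ℝ (Fin k)) ∞ f)
    (him : ∀ (x : S444) (v : TangentSpace (𝓡 2) x),
      mfderiv (𝓡 2) 𝓘(ℝ, EuclideanSpace ℝ (Fin k)) f x v = 0 → v = 0)
    {a b : ℝ} (ha : 0 < a) (hb : 0 < b) (x : M444) (v : TangentSpace (𝓡 3) x)
    (hv : mfderiv (𝓡 3) 𝓘(ℝ, WithLp 2 (EuclideanSpace ℝ (Fin k) × ℂ)) (famMap f a b) x v = 0) :
    v = 0 := by
  have hd : MDifferentiableAt (𝓡 3) 𝓘(ℝ, WithLp 2 (EuclideanSpace ℝ (Fin k) × ℂ)) (famMap f a b) x :=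
    (famMap_contMDiff hf a b).mdifferentiableAt (by simp)
  let L := WithLp.prodContinuousLinearEquiv 2 ℝ (EuclideanSpace ℝ (Fin k)) ℂ
  let p1 : WithLp 2 (EuclideanSpace ℝ (Fin k) × ℂ) →L[ℝ] EuclideanSpace ℝ (Fin k) :=
    a⁻¹ • ((ContinuousLinearMap.fst ℝ (EuclideanSpace ℝ (Fin k)) ℂ).comp L.toContinuousLinearMap)
  let p2 : WithLp 2 (EuclideanSpace ℝ (Fin k) × ℂ) →L[ℝ] ℂ :=
    b⁻¹ • ((ContinuousLinearMap.snd ℝ (EuclideanSpace ℝ (Fin k)) ℂ).comp L.toContinuousLinearMap)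
  have c1 : (fun y : M444 => f y.1) = p1 ∘ famMap f a b := by
    funext y
    change f y.1 = a⁻¹ • (a • f y.1)
    rw [smul_smul, inv_mul_cancel₀ ha.ne', one_smul]
  have c2 : (fun y : M444 => ((y.2 : Circle) : ℂ)) = p2 ∘ famMap f a b := by
    funext y
    change ((y.2 : Circle) : ℂ) = b⁻¹ • (b • ((y.2 : Circle) : ℂ))
    rw [smul_smul, inv_mul_cancel₀ hb.ne', one_smul]
  have d1 : mfderiv (𝓡 3) 𝓘(ℝ, EuclideanSpace ℝ (Fin k)) (fun y : M444 => f y.1) x v = 0 := by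
    rw [c1, mfderiv_comp x p1.differentiableAt.mdifferentiableAt hd]
    exact (congrArg (mfderiv 𝓘(ℝ, WithLp 2 (EuclideanSpace ℝ (Fin k) × ℂ))
      𝓘(ℝ, EuclideanSpace ℝ (Fin k)) p1 (famMap f a b x)) hv).trans (map_zero _)
  have d2 : mfderiv (𝓡 3) 𝓘(ℝ, ℂ) (fun y : M444 => ((y.2 : Circle) : ℂ)) x v = 0 := by
    rw [c2, mfderiv_comp x p2.differentiableAt.mdifferentiableAt hd]
    exact (congrArg (mfderiv 𝓘(ℝ, WithLp 2 (EuclideanSpace ℝ (Fin k) × ℂ))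
      𝓘(ℝ, ℂ) p2 (famMap f a b x)) hv).trans (map_zero _)
  have s1 : MDifferentiableAt (𝓡 3) (𝓡 2) (fun y : M444 => y.1) x :=
    contMDiff_fst444.mdifferentiableAt (by simp)
  have s2 : MDifferentiableAt (𝓡 3) (𝓡 1) (fun y : M444 => y.2) x :=
    contMDiff_snd444.mdifferentiableAt (by simp)
  have t1 : MDifferentiableAt (𝓡 2) 𝓘(ℝ, EuclideanSpace ℝ (Fin k)) f x.1 :=
    hf.mdifferentiableAt (by simp)
  have t2 : MDifferentiableAt (𝓡 1) 𝓘(ℝ, ℂ) (fun z : Circle => (z : ℂ)) x.2 :=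
    fam0_contMDiff_coe.mdifferentiableAt (by simp)
  apply eq_zero_of_mfderiv444
  · apply him
    have e := mfderiv_comp (g := f) (f := fun y : M444 => y.1) x t1 s1
    rw [← ContinuousLinearMap.comp_apply, ← e]
    exact d1
  · apply fam0_injective_coe
    have e := mfderiv_comp (g := fun z : Circle => (z : ℂ)) (f := fun y : M444 => y.2) x t2 s2
    rw [← ContinuousLinearMap.comp_apply, ← e]
    exact d2

/-- A function whose differential has norm at most one is 1-Lipschitz. -/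
theorem lipschitzWith_of_norm_mfderiv_le {n : ℕ} (R : ClosedRiem n) {F : Type*}
    [NormedAddCommGroup F] [InnerProductSpace ℝ F] {g : R.carrier → F}
    (hg : ContMDiff (𝓡 n) 𝓘(ℝ, F) 1 g)
    (h : ∀ (x : R.carrier) (v : TangentSpace (𝓡 n) x),
      ‖mfderiv (𝓡 n) 𝓘(ℝ, F) g x v‖ ≤ ‖v‖) : LipschitzWith 1 g := by
  intro x y
  rw [ENNReal.coe_one, one_mul, IsRiemannianManifold.out (I := 𝓡 n) x y,
    IsRiemannianManifold.out (I := 𝓘(ℝ, F)) (g x) (g y)]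
  apply le_of_forall_gt
  intro r hr
  obtain ⟨γ, h0, h1, hγ, hlen⟩ := Manifold.exists_lt_of_riemannianEDist_lt hr
  have hgγ : ContMDiffOn 𝓘(ℝ, ℝ) 𝓘(ℝ, F) 1 (g ∘ γ) (Icc 0 1) := hg.comp_contMDiffOn hγ
  refine lt_of_le_of_lt (Manifold.riemannianEDist_le_pathELength hgγ (by simp [h0]) (by simp [h1])
    zero_le_one) (lt_of_le_of_lt ?_ hlen)
  rw [Manifold.pathELength_eq_lintegral_mfderivWithin_Icc,
    Manifold.pathELength_eq_lintegral_mfderivWithin_Icc]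
  apply setLIntegral_mono' measurableSet_Icc
  intro t ht
  have e : mfderivWithin 𝓘(ℝ, ℝ) 𝓘(ℝ, F) (g ∘ γ) (Icc 0 1) t =
      (mfderiv (𝓡 n) 𝓘(ℝ, F) g (γ t)).comp (mfderivWithin 𝓘(ℝ, ℝ) (𝓡 n) γ (Icc 0 1) t) := by
    apply mfderiv_comp_mfderivWithin
    · exact hg.mdifferentiableAt (by simp)
    · exact (hγ t ht).mdifferentiableWithinAt (by simp)
    · exact (uniqueDiffOn_Icc zero_lt_one).uniqueMDiffOn t ht
  rw [e, ContinuousLinearMap.comp_apply]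
  have h2 := h (γ t) (mfderivWithin 𝓘(ℝ, ℝ) (𝓡 n) γ (Icc 0 1) t 1)
  rw [← ofReal_norm, ← ofReal_norm]
  exact ENNReal.ofReal_le_ofReal h2

end SepFil
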