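import Pool.Agent.SepFil.Derived

/-!
# Arbitrarily fine subdivisions

(module FINE of the blueprint)
-/

open Set Filter Topology
open scoped ENNReal

namespace SepFil

set_option linter.unusedSectionVars false

section

variable {V' V : Type} [Fintype V'] [DecidableEq V'] [Fintype V] [DecidableEq V]

lemma L_eq_sum {K' : ASC V'} {K : ASC V} (R : Refinement K' K) {s : Finset V'} {t : V' → ℝ}
    (ht : ∀ v ∉ s, t v = 0) : R.L t = ∑ v ∈ s, t v • R.L (vtx v) := by
  conv_lhs => rw [Refinement.eq_sum_vtx ht]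
  rw [map_sum]
  exact Finset.sum_congr rfl fun v _ => by rw [map_smul]

/-- A convex combination of points at distance at most `D` from `x`. -/
lemma norm_sub_convexComb_le {E : Type*} [NormedAddCommGroup E] [NormedSpace ℝ E] {ι : Type*}
    (s : Finset ι) (a : ι → ℝ) (p : ι → E) (x : E) {D : ℝ} (ha : ∀ i ∈ s, 0 ≤ a i)
    (ha1 : ∑ i ∈ s, a i = 1) (h : ∀ i ∈ s, ‖x - p i‖ ≤ D) :
    ‖x - ∑ i ∈ s, a i • p i‖ ≤ D := by
  have h1 : x - ∑ i ∈ s, a i • p i = ∑ i ∈ s, a i • (x - p i) := by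
    simp only [smul_sub, Finset.sum_sub_distrib, ← Finset.sum_smul, ha1, one_smul]
  rw [h1]
  calc ‖∑ i ∈ s, a i • (x - p i)‖ ≤ ∑ i ∈ s, ‖a i • (x - p i)‖ := norm_sum_le _ _
    _ ≤ ∑ i ∈ s, a i * D := Finset.sum_le_sum fun i hi => by
        rw [norm_smul, Real.norm_eq_abs, abs_of_nonneg (ha i hi)]
        exact mul_le_mul_of_nonneg_left (h i hi) (ha i hi)
    _ = D := by rw [← Finset.sum_mul, ha1, one_mul]

/-- Distance of a vertex to the barycentre. -/
lemma norm_avg_sub_le {E : Type*} [NormedAddCommGroup E] [NormedSpace ℝ E] {ι : Type*}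
    [DecidableEq ι] (t : Finset ι) (p : ι → E) {D : ℝ} {w : ι} (hw : w ∈ t)
    (h : ∀ v ∈ t, ‖p v - p w‖ ≤ D) :
    ‖(∑ v ∈ t, (t.card : ℝ)⁻¹ • p v) - p w‖ ≤ (1 - (t.card : ℝ)⁻¹) * D := by
  have hc : (0 : ℝ) < t.card := by exact_mod_cast Finset.card_pos.2 ⟨w, hw⟩
  have h1 : (∑ v ∈ t, (t.card : ℝ)⁻¹ • p v) - p w = ∑ v ∈ t, (t.card : ℝ)⁻¹ • (p v - p w) := by
    simp only [smul_sub, Finset.sum_sub_distrib]
    rw [Finset.sum_const, ← Nat.cast_smul_eq_nsmul ℝ, smul_smul, mul_inv_cancel₀ hc.ne', one_smul]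
  rw [h1, ← Finset.sum_erase_add _ _ hw]
  simp only [sub_self, smul_zero, add_zero]
  calc ‖∑ v ∈ t.erase w, (t.card : ℝ)⁻¹ • (p v - p w)‖
      ≤ ∑ v ∈ t.erase w, ‖(t.card : ℝ)⁻¹ • (p v - p w)‖ := norm_sum_le _ _
    _ ≤ ∑ v ∈ t.erase w, (t.card : ℝ)⁻¹ * D := Finset.sum_le_sum fun v hv => by
        rw [norm_smul, Real.norm_eq_abs, abs_of_nonneg (by positivity)]
        exact mul_le_mul_of_nonneg_left (h v (Finset.mem_of_mem_erase hv)) (by positivity)
    _ = (1 - (t.card : ℝ)⁻¹) * D := by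
        rw [Finset.sum_const, Finset.card_erase_of_mem hw, nsmul_eq_mul,
          Nat.cast_sub (Finset.card_pos.2 ⟨w, hw⟩)]
        field_simp
        ring

lemma bary_eq_sum {s : Finset V'} : (bary s : V' → ℝ) = ∑ v ∈ s, (s.card : ℝ)⁻¹ • (vtx v) := by
  ext w
  simp only [bary, vtx, Finset.sum_apply, Pi.smul_apply, Pi.single_apply, smul_eq_mul, mul_ite,
    mul_one, mul_zero]
  rw [Finset.sum_ite_eq]

/-- One barycentric subdivision shrinks the mesh. -/
lemma mesh_step {K' : ASC V'} {K : ASC V} (R : Refinement K' K) {D : ℝ} (hD : 0 ≤ D)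
    (h : ∀ s ∈ K'.faces, ∀ v ∈ s, ∀ w ∈ s, dist (R.L (vtx v)) (R.L (vtx w)) ≤ D) :
    ∃ R' : Refinement K'.derived K, ∀ c ∈ K'.derived.faces, ∀ s ∈ c, ∀ t ∈ c,
      dist (R'.L (vtx s)) (R'.L (vtx t)) ≤ (1 - (Fintype.card V : ℝ)⁻¹) * D := by
  obtain ⟨B, hB, -⟩ := exists_derivedRefinement K' bary (bary_isInteriorPts K')
  refine ⟨B.trans R, ?_⟩
  have hpos : ∀ s : Finset V', (B.trans R).L (vtx s) =
      ∑ v ∈ s, (s.card : ℝ)⁻¹ • R.L (vtx v) := by
    intro s
    change R.L (B.L (vtx s)) = _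
    rw [hB, lmap_vtx, bary_eq_sum, map_sum]
    exact Finset.sum_congr rfl fun v _ => by rw [map_smul]
  have main : ∀ s ∈ K'.faces, ∀ t ∈ K'.faces, s ⊆ t →
      dist ((B.trans R).L (vtx s)) ((B.trans R).L (vtx t)) ≤
        (1 - (Fintype.card V : ℝ)⁻¹) * D := by
    intro s hs t ht hst
    have hsne := K'.nonempty_of_mem s hs
    have htne := K'.nonempty_of_mem t ht
    have hcs : (0 : ℝ) < s.card := by exact_mod_cast hsne.card_pos
    have hct : (0 : ℝ) < t.card := by exact_mod_cast htne.card_pos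
    have hle : (t.card : ℝ) ≤ Fintype.card V := by
      exact_mod_cast (R.card_le t ht).trans (Finset.card_le_univ _)
    rw [dist_comm, dist_eq_norm, hpos s]
    have h1 : ∀ w ∈ s, ‖(B.trans R).L (vtx t) - R.L (vtx w)‖ ≤
        (1 - (Fintype.card V : ℝ)⁻¹) * D := by
      intro w hw
      rw [hpos t]
      refine (norm_avg_sub_le t (fun v => R.L (vtx v)) (hst hw) (D := D) ?_).trans ?_
      · intro v hv
        rw [← dist_eq_norm]
        exact h t ht v hv w (hst hw)
      · refine mul_le_mul_of_nonneg_right ?_ hD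
        have := inv_anti₀ hct hle
        linarith
    refine norm_sub_convexComb_le s (fun _ => (s.card : ℝ)⁻¹) (fun w => R.L (vtx w)) _
      (fun _ _ => by positivity) ?_ h1
    rw [Finset.sum_const, nsmul_eq_mul, mul_inv_cancel₀ hcs.ne']
  intro c hc s hs t ht
  rcases hc.2.2 s hs t ht with h1 | h1
  · exact main s (hc.2.1 s hs) t (hc.2.1 t ht) h1
  · rw [dist_comm]
    exact main t (hc.2.1 t ht) s (hc.2.1 s hs) h1

lemma dist_le_of_mesh {K' : ASC V'} {K : ASC V} (R : Refinement K' K) {D : ℝ}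
    {s : Finset V'} (h : ∀ v ∈ s, ∀ w ∈ s, dist (R.L (vtx v)) (R.L (vtx w)) ≤ D)
    {t t' : V' → ℝ} (ht : t ∈ cface s) (ht' : t' ∈ cface s) : dist (R.L t) (R.L t') ≤ D := by
  rw [mem_cface_iff] at ht ht'
  have hs1 : ∀ {r : V' → ℝ}, ∑ v, r v = 1 → (∀ v ∉ s, r v = 0) → ∑ v ∈ s, r v = 1 := by
    intro r hr hr0
    rw [← hr]
    exact Finset.sum_subset (Finset.subset_univ s) fun v _ hv => hr0 v hv
  rw [dist_eq_norm, L_eq_sum R ht'.2.2]
  refine norm_sub_convexComb_le s t' _ _ (fun v _ => ht'.1 v) (hs1 ht'.2.1 ht'.2.2)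
    fun w hw => ?_
  rw [norm_sub_rev, L_eq_sum R ht.2.2]
  refine norm_sub_convexComb_le s t _ _ (fun v _ => ht.1 v) (hs1 ht.2.1 ht.2.2) fun v hv => ?_
  rw [← dist_eq_norm]
  exact h w hw v hv

end

/-- Iterated barycentric subdivisions are arbitrarily fine; any property of complexes which is
inherited by the derived complex can be kept. -/
theorem exists_fine {V : Type} [Fintype V] [DecidableEq V] (K : ASC V)
    (Q : ∀ (W : Type) [Fintype W] [DecidableEq W], ASC W → Prop)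
    (hQ : ∀ (W : Type) [Fintype W] [DecidableEq W] (A : ASC W), Q W A → Q (Finset W) A.derived)
    (hK : Q V K) {δ : ℝ} (hδ : 0 < δ) :
    ∃ (V' : Type) (_ : Fintype V') (_ : DecidableEq V') (K' : ASC V') (R : Refinement K' K),
      Q V' K' ∧ ∀ s ∈ K'.faces, ∀ t ∈ cface s, ∀ t' ∈ cface s, dist (R.L t) (R.L t') < δ := by
  set r : ℝ := 1 - (Fintype.card V : ℝ)⁻¹ with hr
  have hr0 : 0 ≤ r := by
    rcases Nat.eq_zero_or_pos (Fintype.card V) with h | h
    · rw [hr, h]; simp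
    · have : (1 : ℝ) ≤ Fintype.card V := by exact_mod_cast h
      have := inv_le_one_of_one_le₀ this
      rw [hr]; linarith
  -- it suffices to bound distances of vertices
  suffices hmain : ∀ m : ℕ, ∃ (V' : Type) (_ : Fintype V') (_ : DecidableEq V') (K' : ASC V')
      (R : Refinement K' K), Q V' K' ∧ ∀ s ∈ K'.faces, ∀ v ∈ s, ∀ w ∈ s,
        dist (R.L (vtx v)) (R.L (vtx w)) ≤ r ^ m * 1 by
    rcases isEmpty_or_nonempty V with hV | hV
    · refine ⟨V, inferInstance, inferInstance, K, Refinement.refl K, hK, ?_⟩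
      intro s hs
      exfalso
      obtain ⟨v, -⟩ := K.nonempty_of_mem s hs
      exact hV.elim v
    · have hc : (0 : ℝ) < Fintype.card V := by exact_mod_cast Fintype.card_pos
      have hr1 : r < 1 := by
        have : (0 : ℝ) < (Fintype.card V : ℝ)⁻¹ := by positivity
        rw [hr]; linarith
      obtain ⟨m, hm⟩ := exists_pow_lt_of_lt_one hδ hr1
      obtain ⟨V', i1, i2, K', R, hQ', h⟩ := hmain m
      refine ⟨V', i1, i2, K', R, hQ', fun s hs t ht t' ht' => ?_⟩
      refine lt_of_le_of_lt (dist_le_of_mesh R (h s hs) ht ht') ?_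
      rwa [mul_one]
  intro m
  induction m with
  | zero =>
    refine ⟨V, inferInstance, inferInstance, K, Refinement.refl K, hK, ?_⟩
    intro s hs v hv w hw
    rw [pow_zero, one_mul]
    change dist (vtx v : V → ℝ) (vtx w) ≤ 1
    rw [dist_pi_le_iff zero_le_one]
    intro u
    simp only [vtx, Pi.single_apply, Real.dist_eq]
    split_ifs <;> norm_num
  | succ m ih =>
    obtain ⟨V', i1, i2, K', R, hQ', h⟩ := ih
    obtain ⟨R', hR'⟩ := mesh_step R (by positivity) h
    refine ⟨Finset V', inferInstance, inferInstance, K'.derived, R', hQ V' K' hQ', ?_⟩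
    intro s hs v hv w hw
    refine (hR' s hs v hv w hw).trans (le_of_eq ?_)
    rw [pow_succ]
    ring

end SepFil
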