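import Pool.Agent.SepFil.Tri

/-!
# Triangles of a smooth triangulation of a 3-manifold lie in at most two tetrahedra

(module TETS of the blueprint)
-/

open Set MeasureTheory Manifold Bundle Filter Topology
open scoped ContDiff ENNReal

namespace SepFil

section analysis

variable {W : Type*} [NormedAddCommGroup W] [NormedSpace ℝ W] [FiniteDimensional ℝ W]

/-- injective linear maps between three-dimensional spaces are equivalences -/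
lemma exists_equiv3 (hW : Module.finrank ℝ W = 3) {B : ℝ × ℝ × ℝ →L[ℝ] W}
    (hB : Function.Injective B) : ∃ e : (ℝ × ℝ × ℝ) ≃L[ℝ] W, ∀ z, e z = B z := by
  have h3 : Module.finrank ℝ (ℝ × ℝ × ℝ) = Module.finrank ℝ W := by
    rw [hW]
    simp
  let f := LinearMap.linearEquivOfInjective (B : (ℝ × ℝ × ℝ) →ₗ[ℝ] W) hB h3
  exact ⟨f.toContinuousLinearEquiv, fun z => rfl⟩

lemma same_side (hW : Module.finrank ℝ W = 3) {Fa Fb : ℝ × ℝ × ℝ → W}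
    {Ba Bb : ℝ × ℝ × ℝ →L[ℝ] W} (ha : HasStrictFDerivAt Fa Ba 0) (hb : HasStrictFDerivAt Fb Bb 0)
    (h0 : Fa 0 = Fb 0) (hinj : Function.Injective Ba) {p q κ : ℝ} (hκ : 0 < κ)
    (hn : Bb (0, 0, 1) = Ba (p, q, κ)) {U : Set (ℝ × ℝ × ℝ)} (hU : U ∈ 𝓝 (0 : ℝ × ℝ × ℝ)) :
    ∀ᶠ ε in 𝓝[>] (0 : ℝ), ∃ z ∈ U, 0 < z.2.2 ∧ Fa z = Fb (0, 0, ε) := by
  obtain ⟨e, he⟩ := exists_equiv3 hW hinj
  have heB : (e : (ℝ × ℝ × ℝ) →L[ℝ] W) = Ba := ContinuousLinearMap.ext he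
  have ha' : HasStrictFDerivAt Fa (e : (ℝ × ℝ × ℝ) →L[ℝ] W) 0 := by rwa [heB]
  set c : ℝ → ℝ × ℝ × ℝ := fun ε => ha'.localInverse Fa e 0 (Fb (0, 0, ε)) with hc
  have hline : HasDerivAt (fun ε : ℝ => ((0 : ℝ), (0 : ℝ), ε)) ((0 : ℝ), (0 : ℝ), (1 : ℝ)) 0 :=
    (hasDerivAt_const 0 0).prodMk ((hasDerivAt_const 0 0).prodMk (hasDerivAt_id 0))
  have hFb : HasDerivAt (fun ε : ℝ => Fb (0, 0, ε)) (Bb (0, 0, 1)) 0 :=
    (show HasFDerivAt Fb Bb ((0 : ℝ), (0 : ℝ), (0 : ℝ)) from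
      hb.hasFDerivAt).comp_hasDerivAt (0 : ℝ) hline
  have h00 : Fb ((0 : ℝ), (0 : ℝ), (0 : ℝ)) = Fa 0 := h0.symm
  have hinv : HasFDerivAt (ha'.localInverse Fa e 0) (e.symm : W →L[ℝ] ℝ × ℝ × ℝ)
      (Fb ((0 : ℝ), (0 : ℝ), (0 : ℝ))) := by
    rw [h00]
    exact ha'.to_localInverse.hasFDerivAt
  have hcd : HasDerivAt c (p, q, κ) 0 := by
    have h1 := hinv.comp_hasDerivAt (0 : ℝ) hFb
    have h2 : (e.symm : W →L[ℝ] ℝ × ℝ × ℝ) (Bb (0, 0, 1)) = (p, q, κ) := by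
      rw [hn, ← he]
      exact e.symm_apply_apply _
    rw [h2] at h1
    exact h1
  have hc0 : c 0 = 0 := by
    show ha'.localInverse Fa e 0 (Fb ((0 : ℝ), (0 : ℝ), (0 : ℝ))) = 0
    rw [h00]
    exact ha'.localInverse_apply_image
  have h3 : HasDerivAt (fun ε => (c ε).2.2) κ 0 := by
    have := ((ContinuousLinearMap.snd ℝ ℝ ℝ).comp
      (ContinuousLinearMap.snd ℝ ℝ (ℝ × ℝ))).hasFDerivAt.comp_hasDerivAt (0 : ℝ) hcd
    exact this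
  have h4 : ∀ᶠ ε in 𝓝[>] (0 : ℝ), 0 < (c ε).2.2 := by
    have h5 := h3.tendsto_slope
    have h6 : ∀ᶠ ε in 𝓝[≠] (0 : ℝ), 0 < slope (fun ε => (c ε).2.2) 0 ε :=
      h5.eventually (lt_mem_nhds hκ)
    have h7 : ∀ᶠ ε in 𝓝[>] (0 : ℝ), 0 < slope (fun ε => (c ε).2.2) 0 ε :=
      h6.filter_mono (nhdsWithin_mono _ (fun x hx => ne_of_gt hx))
    filter_upwards [h7, self_mem_nhdsWithin] with ε h8 h9
    rw [slope_def_field, hc0] at h8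
    simp only [Prod.snd_zero, sub_zero] at h8
    have h10 : (0 : ℝ) < ε := h9
    have := mul_pos h8 h10
    rwa [div_mul_cancel₀ _ h10.ne'] at this
  have h5 : ∀ᶠ ε in 𝓝[>] (0 : ℝ), c ε ∈ U := by
    have : Tendsto c (𝓝 0) (𝓝 (0 : ℝ × ℝ × ℝ)) := by
      have := hcd.continuousAt
      rw [ContinuousAt, hc0] at this
      exact this
    exact (this.eventually_mem hU).filter_mono nhdsWithin_le_nhds
  have h6 : ∀ᶠ ε in 𝓝[>] (0 : ℝ), Fa (c ε) = Fb (0, 0, ε) := by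
    have h7 := ha'.eventually_right_inverse
    have h8 : Tendsto (fun ε : ℝ => Fb (0, 0, ε)) (𝓝 0) (𝓝 (Fa 0)) := by
      rw [← h00]
      exact hFb.continuousAt
    exact (h8.eventually h7).filter_mono nhdsWithin_le_nhds
  filter_upwards [h4, h5, h6] with ε g1 g2 g3
  exact ⟨c ε, g2, g1, g3⟩

lemma pigeon3 (hW : Module.finrank ℝ W = 3) {Ba Bb Bc : ℝ × ℝ × ℝ →L[ℝ] W}
    (ha : Function.Injective Ba) (hb : Function.Injective Bb) (hc : Function.Injective Bc)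
    (hab : ∀ p q : ℝ, Ba (p, q, 0) = Bb (p, q, 0)) (hac : ∀ p q : ℝ, Ba (p, q, 0) = Bc (p, q, 0)) :
    (∃ p q κ : ℝ, 0 < κ ∧ Bb (0, 0, 1) = Ba (p, q, κ)) ∨
    (∃ p q κ : ℝ, 0 < κ ∧ Bc (0, 0, 1) = Ba (p, q, κ)) ∨
    ∃ p q κ : ℝ, 0 < κ ∧ Bc (0, 0, 1) = Bb (p, q, κ) := by
  obtain ⟨e, he⟩ := exists_equiv3 hW ha
  obtain ⟨p1, q1, r1, h1⟩ : ∃ p q r : ℝ, Bb (0, 0, 1) = Ba (p, q, r) :=
    ⟨(e.symm (Bb (0, 0, 1))).1, (e.symm (Bb (0, 0, 1))).2.1, (e.symm (Bb (0, 0, 1))).2.2, by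
      rw [← he]
      exact (e.apply_symm_apply _).symm⟩
  obtain ⟨p2, q2, r2, h2⟩ : ∃ p q r : ℝ, Bc (0, 0, 1) = Ba (p, q, r) :=
    ⟨(e.symm (Bc (0, 0, 1))).1, (e.symm (Bc (0, 0, 1))).2.1, (e.symm (Bc (0, 0, 1))).2.2, by
      rw [← he]
      exact (e.apply_symm_apply _).symm⟩
  have hr1 : r1 ≠ 0 := by
    rintro rfl
    rw [hab] at h1
    have := congrArg (fun z : ℝ × ℝ × ℝ => z.2.2) (hb h1)
    simp at this
  have hr2 : r2 ≠ 0 := by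
    rintro rfl
    rw [hac] at h2
    have := congrArg (fun z : ℝ × ℝ × ℝ => z.2.2) (hc h2)
    simp at this
  rcases lt_or_gt_of_ne hr1 with g1 | g1
  · rcases lt_or_gt_of_ne hr2 with g2 | g2
    · refine Or.inr (Or.inr ⟨p2 - r2 / r1 * p1, q2 - r2 / r1 * q1, r2 / r1,
        div_pos_of_neg_of_neg g2 g1, ?_⟩)
      have e1 : ((p2 - r2 / r1 * p1, q2 - r2 / r1 * q1, r2 / r1) : ℝ × ℝ × ℝ) =
          (p2 - r2 / r1 * p1, q2 - r2 / r1 * q1, 0) + (r2 / r1) • ((0, 0, 1) : ℝ × ℝ × ℝ) := by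
        ext <;> simp
      have e2 : ((p2, q2, r2) : ℝ × ℝ × ℝ) = (p2 - r2 / r1 * p1, q2 - r2 / r1 * q1, 0) +
          (r2 / r1) • ((p1, q1, r1) : ℝ × ℝ × ℝ) := by
        ext
        · simp
        · simp
        · simp [div_mul_cancel₀ r2 hr1]
      rw [e1, map_add, map_smul, ← hab, h1, h2, e2, map_add, map_smul]
    · exact Or.inr (Or.inl ⟨p2, q2, r2, g2, h2⟩)
  · exact Or.inl ⟨p1, q1, r1, g1, h1⟩

end analysis

section tets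

variable {N : Type*} [TopologicalSpace N] [T2Space N]
    [ChartedSpace (EuclideanSpace ℝ (Fin 3)) N] [IsManifold (𝓡 3) ∞ N] (T : SmoothTri 3 N)

/-- the barycentre of a triangle -/
noncomputable def bc3 {V : Type} [DecidableEq V] (v0 v1 v2 : V) : V → ℝ :=
  (1 / 3 : ℝ) • (vtx v0 + vtx v1 + vtx v2)

/-- directions -/
noncomputable def L3 {V : Type} [Fintype V] [DecidableEq V] (v0 v1 v2 v : V) :
    ℝ × ℝ × ℝ →L[ℝ] (V → ℝ) :=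
  (ContinuousLinearMap.fst ℝ ℝ (ℝ × ℝ)).smulRight (vtx v1 - vtx v0) +
  ((ContinuousLinearMap.fst ℝ ℝ ℝ).comp (ContinuousLinearMap.snd ℝ ℝ (ℝ × ℝ))).smulRight
    (vtx v2 - vtx v0) +
  ((ContinuousLinearMap.snd ℝ ℝ ℝ).comp (ContinuousLinearMap.snd ℝ ℝ (ℝ × ℝ))).smulRight
    (vtx v - bc3 v0 v1 v2)

variable {V : Type} [Fintype V] [DecidableEq V] {v0 v1 v2 v : V}

lemma L3_apply (z : ℝ × ℝ × ℝ) : L3 v0 v1 v2 v z = z.1 • (vtx v1 - vtx v0) +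
    z.2.1 • (vtx v2 - vtx v0) + z.2.2 • (vtx v - bc3 v0 v1 v2) := rfl

lemma sum_vtx (v : V) : ∑ w, (vtx v : V → ℝ) w = 1 := by simp [vtx]

lemma sum_bc3 (v0 v1 v2 : V) : ∑ w, bc3 v0 v1 v2 w = 1 := by
  unfold bc3
  simp only [Pi.smul_apply, Pi.add_apply, smul_eq_mul]
  rw [← Finset.mul_sum, Finset.sum_add_distrib, Finset.sum_add_distrib, sum_vtx, sum_vtx, sum_vtx]
  norm_num

lemma sum_L3 (z : ℝ × ℝ × ℝ) : ∑ w, L3 v0 v1 v2 v z w = 0 := by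
  rw [L3_apply]
  simp only [Pi.smul_apply, Pi.add_apply, Pi.sub_apply, smul_eq_mul]
  rw [Finset.sum_add_distrib, Finset.sum_add_distrib, ← Finset.mul_sum, ← Finset.mul_sum,
    ← Finset.mul_sum, Finset.sum_sub_distrib, Finset.sum_sub_distrib, Finset.sum_sub_distrib,
    sum_vtx, sum_vtx, sum_vtx, sum_vtx, sum_bc3]
  ring

/-- coordinates of the points -/
lemma coords (h01 : v0 ≠ v1) (h02 : v0 ≠ v2) (h12 : v1 ≠ v2) (hv0 : v ≠ v0) (hv1 : v ≠ v1)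
    (hv2 : v ≠ v2) (z : ℝ × ℝ × ℝ) :
    L3 v0 v1 v2 v z v0 = - z.1 - z.2.1 - z.2.2 / 3 ∧ L3 v0 v1 v2 v z v1 = z.1 - z.2.2 / 3 ∧
    L3 v0 v1 v2 v z v2 = z.2.1 - z.2.2 / 3 ∧ L3 v0 v1 v2 v z v = z.2.2 ∧
    ∀ w, w ≠ v0 → w ≠ v1 → w ≠ v2 → w ≠ v → L3 v0 v1 v2 v z w = 0 := by
  rw [L3_apply]
  simp only [bc3, vtx, Pi.smul_apply, Pi.add_apply, Pi.sub_apply, smul_eq_mul, Pi.single_apply]
  refine ⟨?_, ?_, ?_, ?_, ?_⟩
  · simp only [if_true, if_neg h01, if_neg h02, if_neg hv0.symm]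
    ring
  · simp only [if_true, if_neg h01.symm, if_neg h12, if_neg hv1.symm]
    ring
  · simp only [if_true, if_neg h02.symm, if_neg h12.symm, if_neg hv2.symm]
    ring
  · simp only [if_true, if_neg hv0, if_neg hv1, if_neg hv2]
    ring
  · intro w g0 g1 g2 g3
    simp only [if_neg g0, if_neg g1, if_neg g2, if_neg g3]
    ring

lemma coords_bc (h01 : v0 ≠ v1) (h02 : v0 ≠ v2) (h12 : v1 ≠ v2) :
    bc3 v0 v1 v2 v0 = 1 / 3 ∧ bc3 v0 v1 v2 v1 = 1 / 3 ∧ bc3 v0 v1 v2 v2 = 1 / 3 ∧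
    ∀ w, w ≠ v0 → w ≠ v1 → w ≠ v2 → bc3 v0 v1 v2 w = 0 := by
  simp only [bc3, vtx, Pi.smul_apply, Pi.add_apply, smul_eq_mul, Pi.single_apply]
  refine ⟨?_, ?_, ?_, ?_⟩
  · simp [h01, h02]
  · simp [h01.symm, h12]
  · simp [h02.symm, h12.symm]
  · intro w g0 g1 g2
    simp [g0, g1, g2]

/-- the point near the barycentre -/
noncomputable def pt3 (v0 v1 v2 v : V) (z : ℝ × ℝ × ℝ) : V → ℝ := bc3 v0 v1 v2 + L3 v0 v1 v2 v z

lemma pt3_mem (h01 : v0 ≠ v1) (h02 : v0 ≠ v2) (h12 : v1 ≠ v2) (hv0 : v ≠ v0) (hv1 : v ≠ v1)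
    (hv2 : v ≠ v2) : ∀ᶠ z in 𝓝 (0 : ℝ × ℝ × ℝ), 0 ≤ z.2.2 →
      pt3 v0 v1 v2 v z ∈ cface (insert v ({v0, v1, v2} : Finset V)) := by
  have c1 : ∀ᶠ z in 𝓝 (0 : ℝ × ℝ × ℝ), 0 < 1 / 3 + (- z.1 - z.2.1 - z.2.2 / 3) := by
    have : ContinuousAt (fun z : ℝ × ℝ × ℝ => 1 / 3 + (- z.1 - z.2.1 - z.2.2 / 3)) 0 := by fun_prop
    exact this.eventually (lt_mem_nhds (by simp))
  have c2 : ∀ᶠ z in 𝓝 (0 : ℝ × ℝ × ℝ), 0 < 1 / 3 + (z.1 - z.2.2 / 3) := by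
    have : ContinuousAt (fun z : ℝ × ℝ × ℝ => 1 / 3 + (z.1 - z.2.2 / 3)) 0 := by fun_prop
    exact this.eventually (lt_mem_nhds (by simp))
  have c3 : ∀ᶠ z in 𝓝 (0 : ℝ × ℝ × ℝ), 0 < 1 / 3 + (z.2.1 - z.2.2 / 3) := by
    have : ContinuousAt (fun z : ℝ × ℝ × ℝ => 1 / 3 + (z.2.1 - z.2.2 / 3)) 0 := by fun_prop
    exact this.eventually (lt_mem_nhds (by simp))
  filter_upwards [c1, c2, c3] with z g1 g2 g3 hz
  obtain ⟨b0, b1, b2, b3⟩ := coords_bc (V := V) h01 h02 h12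
  obtain ⟨l0, l1, l2, l3, l4⟩ := coords h01 h02 h12 hv0 hv1 hv2 z
  rw [mem_cface_iff]
  refine ⟨fun w => ?_, ?_, fun w hw => ?_⟩
  · show 0 ≤ bc3 v0 v1 v2 w + L3 v0 v1 v2 v z w
    by_cases e0 : w = v0
    · rw [e0, b0, l0]; exact g1.le
    by_cases e1 : w = v1
    · rw [e1, b1, l1]; exact g2.le
    by_cases e2 : w = v2
    · rw [e2, b2, l2]; exact g3.le
    by_cases e3 : w = v
    · rw [e3, b3 v hv0 hv1 hv2, l3, zero_add]; exact hz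
    · rw [b3 w e0 e1 e2, l4 w e0 e1 e2 e3, zero_add]
  · show ∑ w, (bc3 v0 v1 v2 w + L3 v0 v1 v2 v z w) = 1
    rw [Finset.sum_add_distrib, sum_bc3, sum_L3, add_zero]
  · simp only [Finset.mem_insert, Finset.mem_singleton, not_or] at hw
    obtain ⟨e3, e0, e1, e2⟩ := hw
    show bc3 v0 v1 v2 w + L3 v0 v1 v2 v z w = 0
    rw [b3 w e0 e1 e2, l4 w e0 e1 e2 e3, zero_add]

lemma bc3_mem (h01 : v0 ≠ v1) (h02 : v0 ≠ v2) (h12 : v1 ≠ v2) :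
    bc3 v0 v1 v2 ∈ cface ({v0, v1, v2} : Finset V) := by
  obtain ⟨b0, b1, b2, b3⟩ := coords_bc (V := V) h01 h02 h12
  rw [mem_cface_iff]
  refine ⟨fun w => ?_, sum_bc3 _ _ _, fun w hw => ?_⟩
  · by_cases e0 : w = v0
    · rw [e0, b0]; norm_num
    by_cases e1 : w = v1
    · rw [e1, b1]; norm_num
    by_cases e2 : w = v2
    · rw [e2, b2]; norm_num
    rw [b3 w e0 e1 e2]
  · simp only [Finset.mem_insert, Finset.mem_singleton, not_or] at hw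
    exact b3 w hw.1 hw.2.1 hw.2.2

end tets

section param

variable {N : Type*} [TopologicalSpace N] [T2Space N]
    [ChartedSpace (EuclideanSpace ℝ (Fin 3)) N] [IsManifold (𝓡 3) ∞ N] (T : SmoothTri 3 N)

/-- a tetrahedron, in a chart -/
lemma exists_param {v0 v1 v2 v : T.V} (h01 : v0 ≠ v1) (h02 : v0 ≠ v2) (h12 : v1 ≠ v2)
    (hv0 : v ≠ v0) (hv1 : v ≠ v1) (hv2 : v ≠ v2)
    (hface : insert v ({v0, v1, v2} : Finset T.V) ∈ T.K.faces) :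
    ∃ (F : ℝ × ℝ × ℝ → EuclideanSpace ℝ (Fin 3)) (B : ℝ × ℝ × ℝ →L[ℝ] EuclideanSpace ℝ (Fin 3)),
      HasStrictFDerivAt F B 0 ∧ Function.Injective B ∧
      ∀ᶠ z in 𝓝 (0 : ℝ × ℝ × ℝ), 0 ≤ z.2.2 →
        F z = extChartAt (𝓡 3) (T.h (bc3 v0 v1 v2)) (T.h (pt3 v0 v1 v2 v z)) := by
  set x : T.V → ℝ := bc3 v0 v1 v2 with hxdef
  have hxc : x ∈ cface (insert v ({v0, v1, v2} : Finset T.V)) :=
    cface_mono (Finset.subset_insert _ _) (bc3_mem h01 h02 h12)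
  have hxr : x ∈ T.K.real := cface_subset_real _ hface hxc
  obtain ⟨g, hg1, hg2, hg3⟩ := T.smoothM _ hface x hxr hxc.2.2
  have hgx : g x = T.h x := hg2.self_of_nhds hxr hxc.2.2
  set G : (T.V → ℝ) → EuclideanSpace ℝ (Fin 3) := extChartAt (𝓡 3) (T.h x) ∘ g with hG
  have hGc : ContDiffAt ℝ ∞ G x := by
    have h1 : ContDiffWithinAt ℝ ∞ (extChartAt (𝓡 3) (g x) ∘ g) (range 𝓘(ℝ, T.V → ℝ)) x :=
      (contMDiffAt_iff.1 hg1).2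
    rw [hgx, ModelWithCorners.range_eq_univ, contDiffWithinAt_univ] at h1
    exact h1
  have hGd : HasStrictFDerivAt G (fderiv ℝ G x) x := hGc.hasStrictFDerivAt (by simp)
  have hmf : ∀ u : T.V → ℝ, (mfderiv 𝓘(ℝ, T.V → ℝ) (𝓡 3) g x u : EuclideanSpace ℝ (Fin 3)) =
      fderiv ℝ G x u := by
    intro u
    have h1 : MDifferentiableAt 𝓘(ℝ, T.V → ℝ) (𝓡 3) g x := hg1.mdifferentiableAt (by simp)
    rw [h1.mfderiv]
    have h2 : writtenInExtChartAt 𝓘(ℝ, T.V → ℝ) (𝓡 3) x g = G := by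
      unfold writtenInExtChartAt
      rw [hgx]
      rfl
    rw [h2, ModelWithCorners.range_eq_univ, fderivWithin_univ]
    rfl
  have hpt : HasStrictFDerivAt (fun z => pt3 v0 v1 v2 v z) (L3 v0 v1 v2 v) 0 :=
    (L3 v0 v1 v2 v).hasStrictFDerivAt.const_add _
  have hpt0 : pt3 v0 v1 v2 v 0 = x := by
    unfold pt3
    rw [map_zero, add_zero]
  refine ⟨fun z => G (pt3 v0 v1 v2 v z), (fderiv ℝ G x).comp (L3 v0 v1 v2 v), ?_, ?_, ?_⟩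
  · refine HasStrictFDerivAt.comp (g := G) (0 : ℝ × ℝ × ℝ) ?_ hpt
    rw [hpt0]
    exact hGd
  · rw [injective_iff_map_eq_zero]
    intro z hz
    have hz' : (mfderiv 𝓘(ℝ, T.V → ℝ) (𝓡 3) g x (L3 v0 v1 v2 v z) :
        EuclideanSpace ℝ (Fin 3)) = 0 := (hmf _).trans hz
    obtain ⟨l0, l1, l2, l3, l4⟩ := coords h01 h02 h12 hv0 hv1 hv2 z
    have h5 := hg3 (L3 v0 v1 v2 v z) (sum_L3 z) (fun w hw => by
      simp only [Finset.mem_insert, Finset.mem_singleton, not_or] at hw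
      exact l4 w hw.2.1 hw.2.2.1 hw.2.2.2 hw.1) hz'
    rw [h5] at l1 l2 l3
    simp only [Pi.zero_apply] at l1 l2 l3
    ext
    · simp only [Prod.fst_zero]
      linarith
    · simp only [Prod.fst_zero, Prod.snd_zero]
      linarith
    · simp only [Prod.snd_zero]
      linarith
  · have hcont : Tendsto (fun z => pt3 v0 v1 v2 v z) (𝓝 0) (𝓝 x) := by
      have := hpt.hasFDerivAt.continuousAt
      rwa [ContinuousAt, hpt0] at this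
    filter_upwards [hcont.eventually hg2, pt3_mem h01 h02 h12 hv0 hv1 hv2] with z h1 h2 hz
    have h3 := h2 hz
    show extChartAt (𝓡 3) (T.h x) (g (pt3 v0 v1 v2 v z)) = _
    rw [h1 (cface_subset_real _ hface h3) h3.2.2]

/-- injectivity of the triangulation in the chart -/
lemma exists_inj_nhds {x : T.V → ℝ} (hx : x ∈ T.K.real) : ∃ U ∈ 𝓝 x, ∀ y ∈ U, ∀ y' ∈ U,
    y ∈ T.K.real → y' ∈ T.K.real →
    extChartAt (𝓡 3) (T.h x) (T.h y) = extChartAt (𝓡 3) (T.h x) (T.h y') → y = y' := by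
  have h1 : T.h ⁻¹' (extChartAt (𝓡 3) (T.h x)).source ∈ 𝓝[T.K.real] x :=
    (T.cont x hx) (extChartAt_source_mem_nhds (I := 𝓡 3) (T.h x))
  obtain ⟨U, hU, hU2⟩ := mem_nhdsWithin_iff_exists_mem_nhds_inter.1 h1
  refine ⟨U, hU, fun y hy y' hy' hyr hyr' h => ?_⟩
  exact T.bij.injOn hyr hyr' ((extChartAt (𝓡 3) (T.h x)).injOn (hU2 ⟨hy, hyr⟩) (hU2 ⟨hy', hyr'⟩) h)

end param

section main

variable {N : Type*} [TopologicalSpace N] [T2Space N]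
    [ChartedSpace (EuclideanSpace ℝ (Fin 3)) N] [IsManifold (𝓡 3) ∞ N] (T : SmoothTri 3 N)

/-- two tetrahedra on the same side are impossible -/
lemma no_same_side {v0 v1 v2 a b : T.V} (h01 : v0 ≠ v1) (h02 : v0 ≠ v2) (h12 : v1 ≠ v2)
    (ha0 : a ≠ v0) (ha1 : a ≠ v1) (ha2 : a ≠ v2)
    (hb0 : b ≠ v0) (hb1 : b ≠ v1) (hb2 : b ≠ v2) (hab : a ≠ b)
    (hfa : insert a ({v0, v1, v2} : Finset T.V) ∈ T.K.faces)
    (hfb : insert b ({v0, v1, v2} : Finset T.V) ∈ T.K.faces)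
    {Fa Fb : ℝ × ℝ × ℝ → EuclideanSpace ℝ (Fin 3)}
    {Ba Bb : ℝ × ℝ × ℝ →L[ℝ] EuclideanSpace ℝ (Fin 3)}
    (ha : HasStrictFDerivAt Fa Ba 0) (hb : HasStrictFDerivAt Fb Bb 0)
    (hinj : Function.Injective Ba)
    (hFa : ∀ᶠ z in 𝓝 (0 : ℝ × ℝ × ℝ), 0 ≤ z.2.2 →
        Fa z = extChartAt (𝓡 3) (T.h (bc3 v0 v1 v2)) (T.h (pt3 v0 v1 v2 a z)))
    (hFb : ∀ᶠ z in 𝓝 (0 : ℝ × ℝ × ℝ), 0 ≤ z.2.2 →
        Fb z = extChartAt (𝓡 3) (T.h (bc3 v0 v1 v2)) (T.h (pt3 v0 v1 v2 b z)))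
    {p q κ : ℝ} (hκ : 0 < κ) (hn : Bb (0, 0, 1) = Ba (p, q, κ)) : False := by
  set x : T.V → ℝ := bc3 v0 v1 v2 with hxdef
  have hxc : x ∈ cface (insert a ({v0, v1, v2} : Finset T.V)) :=
    cface_mono (Finset.subset_insert _ _) (bc3_mem h01 h02 h12)
  have hxr : x ∈ T.K.real := cface_subset_real _ hfa hxc
  obtain ⟨U, hU, hUinj⟩ := exists_inj_nhds T hxr
  have hpt0 : ∀ v, pt3 v0 v1 v2 v 0 = x := fun v => by
    unfold pt3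
    rw [map_zero, add_zero]
  have hcont : ∀ v, Tendsto (fun z => pt3 v0 v1 v2 v z) (𝓝 0) (𝓝 x) := by
    intro v
    have h1 : Continuous fun z => pt3 v0 v1 v2 v z := by
      unfold pt3
      fun_prop
    have := h1.tendsto 0
    rwa [hpt0] at this
  have h0 : Fa 0 = Fb 0 := by
    rw [hFa.self_of_nhds le_rfl, hFb.self_of_nhds le_rfl, hpt0, hpt0]
  have hUa : {z : ℝ × ℝ × ℝ | pt3 v0 v1 v2 a z ∈ U ∧ (0 ≤ z.2.2 →
      Fa z = extChartAt (𝓡 3) (T.h x) (T.h (pt3 v0 v1 v2 a z))) ∧ (0 ≤ z.2.2 →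
      pt3 v0 v1 v2 a z ∈ cface (insert a ({v0, v1, v2} : Finset T.V)))} ∈ 𝓝 (0 : ℝ × ℝ × ℝ) := by
    filter_upwards [(hcont a).eventually_mem hU, hFa, pt3_mem h01 h02 h12 ha0 ha1 ha2]
      with z g1 g2 g3
    exact ⟨g1, g2, g3⟩
  have h1 := same_side (by simp) ha hb h0 hinj hκ hn hUa
  have hline : Tendsto (fun ε : ℝ => ((0 : ℝ), (0 : ℝ), ε)) (𝓝[>] 0) (𝓝 (0 : ℝ × ℝ × ℝ)) := by
    have : Continuous fun ε : ℝ => ((0 : ℝ), (0 : ℝ), ε) := by fun_prop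
    exact (this.tendsto 0).mono_left nhdsWithin_le_nhds
  have h2 := hline.eventually ((hcont b).eventually_mem hU)
  have h3 := hline.eventually hFb
  have h4 := hline.eventually (pt3_mem h01 h02 h12 hb0 hb1 hb2)
  obtain ⟨ε, g1, g2, g3, g4, g5⟩ :=
    (h1.and (h2.and (h3.and (h4.and self_mem_nhdsWithin)))).exists
  obtain ⟨z, ⟨z1, z2, z3⟩, z4, z5⟩ := g1
  have hε : (0 : ℝ) < ε := g5
  have g3' := g3 hε.le
  have g4' := g4 hε.le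
  rw [z2 z4.le, g3'] at z5
  have heq := hUinj _ z1 _ g2 (cface_subset_real _ hfa (z3 z4.le)) (cface_subset_real _ hfb g4') z5
  have hcoord := congrFun heq a
  obtain ⟨-, -, -, l3, -⟩ := coords h01 h02 h12 ha0 ha1 ha2 z
  obtain ⟨-, -, -, -, l4⟩ := coords h01 h02 h12 hb0 hb1 hb2 ((0 : ℝ), (0 : ℝ), ε)
  obtain ⟨-, -, -, b3⟩ := coords_bc (V := T.V) h01 h02 h12
  have e1 : pt3 v0 v1 v2 a z a = z.2.2 := by
    show bc3 v0 v1 v2 a + L3 v0 v1 v2 a z a = _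
    rw [b3 a ha0 ha1 ha2, l3, zero_add]
  have e2 : pt3 v0 v1 v2 b ((0 : ℝ), (0 : ℝ), ε) a = 0 := by
    show bc3 v0 v1 v2 a + L3 v0 v1 v2 b ((0 : ℝ), (0 : ℝ), ε) a = _
    rw [b3 a ha0 ha1 ha2, l4 a ha0 ha1 ha2 hab, zero_add]
  rw [e1, e2] at hcoord
  linarith

/-- the derivatives agree on the triangle -/
lemma deriv_agree {v0 v1 v2 a b : T.V}
    {Fa Fb : ℝ × ℝ × ℝ → EuclideanSpace ℝ (Fin 3)}
    {Ba Bb : ℝ × ℝ × ℝ →L[ℝ] EuclideanSpace ℝ (Fin 3)}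
    (ha : HasStrictFDerivAt Fa Ba 0) (hb : HasStrictFDerivAt Fb Bb 0)
    (hFa : ∀ᶠ z in 𝓝 (0 : ℝ × ℝ × ℝ), 0 ≤ z.2.2 →
        Fa z = extChartAt (𝓡 3) (T.h (bc3 v0 v1 v2)) (T.h (pt3 v0 v1 v2 a z)))
    (hFb : ∀ᶠ z in 𝓝 (0 : ℝ × ℝ × ℝ), 0 ≤ z.2.2 →
        Fb z = extChartAt (𝓡 3) (T.h (bc3 v0 v1 v2)) (T.h (pt3 v0 v1 v2 b z))) (p q : ℝ) :
    Ba (p, q, 0) = Bb (p, q, 0) := by
  have hline : HasDerivAt (fun t : ℝ => (t * p, t * q, (0 : ℝ))) (p, q, (0 : ℝ)) 0 := by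
    have h1 : HasDerivAt (fun t : ℝ => t * p) p 0 := by simpa using (hasDerivAt_id (0 : ℝ)).mul_const p
    have h2 : HasDerivAt (fun t : ℝ => t * q) q 0 := by simpa using (hasDerivAt_id (0 : ℝ)).mul_const q
    exact h1.prodMk (h2.prodMk (hasDerivAt_const 0 0))
  have hz : ((0 : ℝ) * p, (0 : ℝ) * q, (0 : ℝ)) = (0 : ℝ × ℝ × ℝ) := by simp
  have h1 : HasDerivAt (fun t : ℝ => Fa (t * p, t * q, (0 : ℝ))) (Ba (p, q, 0)) 0 := by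
    refine HasFDerivAt.comp_hasDerivAt (l := Fa) (0 : ℝ) ?_ hline
    rw [hz]
    exact ha.hasFDerivAt
  have h2 : HasDerivAt (fun t : ℝ => Fb (t * p, t * q, (0 : ℝ))) (Bb (p, q, 0)) 0 := by
    refine HasFDerivAt.comp_hasDerivAt (l := Fb) (0 : ℝ) ?_ hline
    rw [hz]
    exact hb.hasFDerivAt
  have hcont : Tendsto (fun t : ℝ => (t * p, t * q, (0 : ℝ))) (𝓝 0) (𝓝 (0 : ℝ × ℝ × ℝ)) := by
    have := hline.continuousAt
    rwa [ContinuousAt, hz] at this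
  have h3 : (fun t : ℝ => Fa (t * p, t * q, (0 : ℝ))) =ᶠ[𝓝 0]
      fun t : ℝ => Fb (t * p, t * q, (0 : ℝ)) := by
    filter_upwards [hcont.eventually hFa, hcont.eventually hFb] with t g1 g2
    rw [g1 le_rfl, g2 le_rfl]
    congr 2
    unfold pt3
    rw [L3_apply, L3_apply]
    simp
  exact h1.unique (h2.congr_of_eventuallyEq h3)

end main

theorem SmoothTri.card_tets_le_two {N : Type*} [TopologicalSpace N] [T2Space N]
    [ChartedSpace (EuclideanSpace ℝ (Fin 3)) N] [IsManifold (𝓡 3) ∞ N] (T : SmoothTri 3 N)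
    {s : Finset T.V} (hs : s ∈ T.K.faces) (hcard : s.card = 3) :
    ((T.K.fk 4).filter (fun t => s ⊆ t)).card ≤ 2 := by
  by_contra hcon
  push Not at hcon
  obtain ⟨v0, v1, v2, h01, h02, h12, rfl⟩ := Finset.card_eq_three.1 hcard
  obtain ⟨ta, hta, tb, htb, tc, htc, hab, hac, hbc⟩ := Finset.two_lt_card.1 hcon
  have key : ∀ t ∈ (T.K.fk 4).filter (fun t => ({v0, v1, v2} : Finset T.V) ⊆ t),
      ∃ v, v ≠ v0 ∧ v ≠ v1 ∧ v ≠ v2 ∧ t = insert v ({v0, v1, v2} : Finset T.V) ∧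
        insert v ({v0, v1, v2} : Finset T.V) ∈ T.K.faces := by
    intro t ht
    rw [Finset.mem_filter, ASC.mem_fk] at ht
    obtain ⟨⟨ht1, ht2⟩, ht3⟩ := ht
    have h1 : (t \ ({v0, v1, v2} : Finset T.V)).card = 1 := by
      rw [Finset.card_sdiff_of_subset ht3, ht2, hcard]
    obtain ⟨v, hv⟩ := Finset.card_eq_one.1 h1
    have hvm : v ∈ t \ ({v0, v1, v2} : Finset T.V) := by rw [hv]; exact Finset.mem_singleton_self v
    rw [Finset.mem_sdiff] at hvm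
    simp only [Finset.mem_insert, Finset.mem_singleton, not_or] at hvm
    have h2 : t = insert v ({v0, v1, v2} : Finset T.V) := by
      have := Finset.sdiff_union_of_subset ht3
      rw [hv] at this
      rw [← this]
      rfl
    exact ⟨v, hvm.2.1, hvm.2.2.1, hvm.2.2.2, h2, h2 ▸ ht1⟩
  obtain ⟨a, ha0, ha1, ha2, hta', hfa⟩ := key ta hta
  obtain ⟨b, hb0, hb1, hb2, htb', hfb⟩ := key tb htb
  obtain ⟨c, hc0, hc1, hc2, htc', hfc⟩ := key tc htc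
  have hab' : a ≠ b := by rintro rfl; exact hab (hta'.trans htb'.symm)
  have hac' : a ≠ c := by rintro rfl; exact hac (hta'.trans htc'.symm)
  have hbc' : b ≠ c := by rintro rfl; exact hbc (htb'.trans htc'.symm)
  obtain ⟨Fa, Ba, hFa1, hFa2, hFa3⟩ := exists_param T h01 h02 h12 ha0 ha1 ha2 hfa
  obtain ⟨Fb, Bb, hFb1, hFb2, hFb3⟩ := exists_param T h01 h02 h12 hb0 hb1 hb2 hfb
  obtain ⟨Fc, Bc, hFc1, hFc2, hFc3⟩ := exists_param T h01 h02 h12 hc0 hc1 hc2 hfc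
  rcases pigeon3 (by simp) hFa2 hFb2 hFc2 (deriv_agree T hFa1 hFb1 hFa3 hFb3)
    (deriv_agree T hFa1 hFc1 hFa3 hFc3) with ⟨p, q, κ, hκ, hn⟩ | ⟨p, q, κ, hκ, hn⟩ |
    ⟨p, q, κ, hκ, hn⟩
  · exact no_same_side T h01 h02 h12 ha0 ha1 ha2 hb0 hb1 hb2 hab' hfa hfb hFa1 hFb1 hFa2 hFa3 hFb3
      hκ hn
  · exact no_same_side T h01 h02 h12 ha0 ha1 ha2 hc0 hc1 hc2 hac' hfa hfc hFa1 hFc1 hFa2 hFa3 hFc3
      hκ hn
  · exact no_same_side T h01 h02 h12 hb0 hb1 hb2 hc0 hc1 hc2 hbc' hfb hfc hFb1 hFc1 hFb2 hFb3 hFc3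
      hκ hn

end SepFil
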