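import Pool.Agent.SepFil.GoodDefs
import Pool.Agent.SepFil.Tets
import Pool.Agent.SepFil.Lip
import Pool.Agent.SepFil.AreaTri

/-!
# Near-minimal separating surfaces of bounded valence

(module GOOD of the blueprint)
-/

open Set MeasureTheory Manifold Bundle Filter Topology
open scoped ContDiff ENNReal NNReal

namespace SepFil

namespace Good

/-! ## Combinatorics of the second derived complex -/

section Comb

variable {V : Type} [Fintype V] [DecidableEq V]

/-- Flags consisting of one face with at most two vertices. -/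
def Small (u : Finset (Finset V)) : Prop := ∃ σ : Finset V, σ.card ≤ 2 ∧ u = {σ}

omit [Fintype V] [DecidableEq V] in
lemma Small.eq_of_comparable {u u' : Finset (Finset V)} (h : Small u) (h' : Small u')
    (hc : u ⊆ u' ∨ u' ⊆ u) : u = u' := by
  obtain ⟨σ, -, rfl⟩ := h
  obtain ⟨σ', -, rfl⟩ := h'
  rcases hc with hc | hc
  · have := hc (Finset.mem_singleton_self σ)
    rw [Finset.mem_singleton] at this
    rw [this]
  · have := hc (Finset.mem_singleton_self σ')
    rw [Finset.mem_singleton] at this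
    rw [this]

omit [Fintype V] [DecidableEq V] in
/-- Members of a flag with the same number of vertices agree. -/
lemma eq_of_card_eq {K : ASC V} {τ : Finset (Finset V)} (hτ : τ ∈ K.derived.faces)
    {σ σ' : Finset V} (hσ : σ ∈ τ) (hσ' : σ' ∈ τ) (hc : σ.card = σ'.card) : σ = σ' := by
  rcases hτ.2.2 σ hσ σ' hσ' with h | h
  · exact Finset.eq_of_subset_of_card_le h hc.ge
  · exact (Finset.eq_of_subset_of_card_le h hc.le).symm

omit [Fintype V] [DecidableEq V] in
/-- If a small flag `{σ}` is comparable with the flag `τ` which is not small then `σ ∈ τ`. -/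
lemma mem_of_comparable {K : ASC V} {τ : Finset (Finset V)} (hτ : τ ∈ K.derived.faces)
    (hns : ¬ Small τ) {σ : Finset V} (hσ : σ.card ≤ 2) (hc : {σ} ⊆ τ ∨ τ ⊆ {σ}) : σ ∈ τ := by
  rcases hc with hc | hc
  · exact hc (Finset.mem_singleton_self σ)
  · exfalso
    apply hns
    refine ⟨σ, hσ, ?_⟩
    rcases Finset.subset_singleton_iff.1 hc with h | h
    · exact absurd h (Finset.nonempty_iff_ne_empty.1 hτ.1)
    · exact h

/-- The carrier of a simplex of the second derived complex. -/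
def car2 (t : Finset (Finset (Finset V))) : Finset V := (t.sup id).sup id

omit [Fintype V] in
lemma car2_mono {t t' : Finset (Finset (Finset V))} (h : t ⊆ t') : car2 t ⊆ car2 t' := by
  unfold car2
  have h1 : t.sup id ⊆ t'.sup id := Finset.sup_mono h
  exact Finset.sup_mono h1

omit [Fintype V] in
lemma subset_car2 {t : Finset (Finset (Finset V))} {τ : Finset (Finset V)} {σ : Finset V}
    (hτ : τ ∈ t) (hσ : σ ∈ τ) : σ ⊆ car2 t := by
  unfold car2
  have h1 : τ ⊆ t.sup id := Finset.le_sup (f := id) hτ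
  exact Finset.le_sup (f := id) (h1 hσ)

omit [Fintype V] in
lemma car2_nonempty {K : ASC V} {t : Finset (Finset (Finset V))}
    (ht : t ∈ K.derived.derived.faces) : (car2 t).Nonempty := by
  obtain ⟨τ, hτ⟩ := ht.1
  have hτ' := ht.2.1 τ hτ
  obtain ⟨σ, hσ⟩ := hτ'.1
  exact (K.nonempty_of_mem σ (hτ'.2.1 σ hσ)).mono (subset_car2 hτ hσ)

/-- The new surface as a complex. -/
def cpx (K A : ASC V) : ASC (Finset (Finset V)) where
  faces := {t | t ∈ K.derived.derived.faces ∧ t.card ≤ 3 ∧ (∀ τ ∈ t, ¬ Small τ) ∧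
    (car2 t ∈ A.faces ∨ ∃ u, Small u ∧ insert u t ∈ K.derived.derived.faces)}
  nonempty_of_mem := fun s hs => K.derived.derived.nonempty_of_mem s hs.1
  down_closed := by
    rintro s ⟨h1, h2, h3, h4⟩ t hts htne
    have ht := K.derived.derived.down_closed s h1 t hts htne
    refine ⟨ht, (Finset.card_le_card hts).trans h2, fun τ hτ => h3 τ (hts hτ), ?_⟩
    rcases h4 with h4 | ⟨u, hu, h4⟩
    · exact Or.inl (A.down_closed _ h4 _ (car2_mono hts) (car2_nonempty ht))
    · exact Or.inr ⟨u, hu, K.derived.derived.down_closed _ h4 _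
        (Finset.insert_subset_insert u hts) (Finset.insert_nonempty _ _)⟩

lemma card_le_car2 {K : ASC V} {R' : Refinement K.derived K}
    (hR' : ∀ c ∈ K.derived.faces, R'.car c = c.sup id) {t : Finset (Finset (Finset V))}
    (ht : t ∈ K.derived.derived.faces) {τ : Finset (Finset V)} (hτ : τ ∈ t) :
    τ.card ≤ (car2 t).card := by
  have h1 := R'.card_le τ (ht.2.1 τ hτ)
  rw [hR' τ (ht.2.1 τ hτ)] at h1
  refine h1.trans (Finset.card_le_card ?_)
  unfold car2
  have h2 : τ ⊆ t.sup id := Finset.le_sup (f := id) hτ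
  exact Finset.sup_mono h2

/-- An edge avoiding the small flags has a carrier with at least three vertices. -/
lemma three_le_car2 {K : ASC V} {R' : Refinement K.derived K}
    (hR' : ∀ c ∈ K.derived.faces, R'.car c = c.sup id) {e : Finset (Finset (Finset V))}
    (he : e ∈ K.derived.derived.faces) (hns : ∀ τ ∈ e, ¬ Small τ) {τ₀ τ₁ : Finset (Finset V)}
    (h₀ : τ₀ ∈ e) (h₁ : τ₁ ∈ e) (hss : τ₀ ⊂ τ₁) : 3 ≤ (car2 e).card := by
  by_contra hlt
  have hτ₀ := he.2.1 τ₀ h₀
  have hc1 := card_le_car2 hR' he h₁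
  have hlt' := Finset.card_lt_card hss
  have hpos : 0 < τ₀.card := Finset.card_pos.2 hτ₀.1
  have h1 : τ₀.card = 1 := by omega
  obtain ⟨σ, hσ⟩ := Finset.card_eq_one.1 h1
  refine hns τ₀ h₀ ⟨σ, ?_, hσ⟩
  have hσ' : σ ∈ τ₀ := by rw [hσ]; exact Finset.mem_singleton_self σ
  have := Finset.card_le_card (subset_car2 h₀ hσ')
  omega

omit [Fintype V] in
lemma exists_ssubset_of_card_two {K : ASC V} {e : Finset (Finset (Finset V))}
    (he : e ∈ K.derived.derived.faces) (hcard : e.card = 2) :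
    ∃ τ₀ ∈ e, ∃ τ₁ ∈ e, τ₀ ⊂ τ₁ := by
  obtain ⟨a, b, hab, rfl⟩ := Finset.card_eq_two.1 hcard
  rcases he.2.2 a (by simp) b (by simp) with h | h
  · exact ⟨a, by simp, b, by simp, lt_of_le_of_ne h hab⟩
  · exact ⟨b, by simp, a, by simp, lt_of_le_of_ne h hab.symm⟩

/-- The valence of the edges of the new surface. -/
lemma valence_bound {K A : ASC V} {R' : Refinement K.derived K}
    (hR' : ∀ c ∈ K.derived.faces, R'.car c = c.sup id)
    (hA3 : ∀ s ∈ A.faces, s.card ≤ 3)
    (htets : ∀ s ∈ K.derived.derived.faces, s.card = 3 →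
      ((K.derived.derived.fk 4).filter (fun t => s ⊆ t)).card ≤ 2)
    {e : Finset (Finset (Finset V))} (he : e ∈ (cpx K A).faces) (hcard : e.card = 2) :
    (((cpx K A).fk 3).filter (fun s => e ⊆ s)).card ≤ 200 := by
  classical
  obtain ⟨he1, -, hns, -⟩ := he
  obtain ⟨τ₀, h₀, τ₁, h₁, hss⟩ := exists_ssubset_of_card_two he1 hcard
  have h3 := three_le_car2 hR' he1 hns h₀ h₁ hss
  have hτ₀ := he1.2.1 τ₀ h₀
  -- the two families of triangles
  set Ta : Finset (Finset (Finset (Finset V))) :=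
    if (car2 e).card ≤ 3 then
      (((car2 e).powerset.erase ∅).powerset).image (fun τ => insert τ e) else ∅ with hTa
  set Tb : Finset (Finset (Finset (Finset V))) :=
    (τ₀.filter (fun σ => σ.card ≤ 2)).biUnion (fun σ =>
      if insert {σ} e ∈ K.derived.derived.faces ∧ {σ} ∉ e then
      (((K.derived.derived.fk 4).filter (fun t => insert {σ} e ⊆ t)).image
        (fun t => t.erase {σ})) else ∅) with hTb
  have hTa_card : Ta.card ≤ 128 := by
    rw [hTa]
    split_ifs with hc
    · refine Finset.card_image_le.trans ?_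
      have hc3 : (car2 e).card = 3 := by omega
      rw [Finset.card_powerset, Finset.card_erase_of_mem (Finset.empty_mem_powerset _),
        Finset.card_powerset, hc3]
      norm_num
    · simp
  have hTb_card : Tb.card ≤ 4 := by
    rw [hTb]
    have h2 : (τ₀.filter (fun σ => σ.card ≤ 2)).card ≤ 2 := by
      have : (τ₀.filter (fun σ => σ.card ≤ 2)).card ≤ ({1, 2} : Finset ℕ).card := by
        refine Finset.card_le_card_of_injOn Finset.card ?_ ?_
        · intro σ hσ
          have hσ' := Finset.mem_filter.1 (Finset.mem_coe.1 hσ)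
          have hpos : 0 < σ.card :=
            Finset.card_pos.2 (K.nonempty_of_mem σ (hτ₀.2.1 σ hσ'.1))
          have h2 := hσ'.2
          simp only [Finset.coe_insert, Finset.coe_singleton, Set.mem_insert_iff,
            Set.mem_singleton_iff]
          omega
        · intro σ hσ σ' hσ' hcc
          exact eq_of_card_eq hτ₀ (Finset.mem_filter.1 (Finset.mem_coe.1 hσ)).1
            (Finset.mem_filter.1 (Finset.mem_coe.1 hσ')).1 hcc
      simpa using this
    refine (Finset.card_biUnion_le_card_mul _ _ 2 ?_).trans ?_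
    · intro σ _
      split_ifs with hc
      · refine Finset.card_image_le.trans (htets _ hc.1 ?_)
        rw [Finset.card_insert_of_notMem hc.2, hcard]
      · simp
    · omega
  have hsub : ((cpx K A).fk 3).filter (fun s => e ⊆ s) ⊆ Ta ∪ Tb := by
    intro t ht
    obtain ⟨ht1, het⟩ := Finset.mem_filter.1 ht
    obtain ⟨⟨htK, -, htns, htab⟩, htcard⟩ := ASC.mem_fk.1 ht1
    rw [Finset.mem_union]
    rcases htab with hta | ⟨u, hu, htb⟩
    · left
      have hcc : car2 e = car2 t := by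
        refine Finset.eq_of_subset_of_card_le (car2_mono het) ?_
        exact (hA3 _ hta).trans h3
      have hc3 : (car2 e).card ≤ 3 := by rw [hcc]; exact hA3 _ hta
      rw [hTa, if_pos hc3, Finset.mem_image]
      have hdiff : (t \ e).card = 1 := by
        rw [Finset.card_sdiff_of_subset het, htcard, hcard]
      obtain ⟨τ, hτ⟩ := Finset.card_eq_one.1 hdiff
      have hτt : τ ∈ t ∧ τ ∉ e := by
        have : τ ∈ t \ e := by rw [hτ]; exact Finset.mem_singleton_self τ
        exact Finset.mem_sdiff.1 this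
      refine ⟨τ, ?_, ?_⟩
      · rw [Finset.mem_powerset]
        intro σ hσ
        rw [Finset.mem_erase, Finset.mem_powerset]
        refine ⟨?_, ?_⟩
        · exact Finset.nonempty_iff_ne_empty.1
            (K.nonempty_of_mem σ ((htK.2.1 τ hτt.1).2.1 σ hσ))
        · rw [hcc]
          exact subset_car2 hτt.1 hσ
      · refine Finset.eq_of_subset_of_card_le (Finset.insert_subset hτt.1 het) ?_
        rw [Finset.card_insert_of_notMem hτt.2, hcard, htcard]
    · right
      obtain ⟨σ, hσ2, rfl⟩ := hu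
      have hut : {σ} ∉ t := fun h => htns _ h ⟨σ, hσ2, rfl⟩
      have hue : {σ} ∉ e := fun h => hut (het h)
      have hστ : σ ∈ τ₀ := by
        refine mem_of_comparable hτ₀ (hns τ₀ h₀) hσ2 ?_
        exact htb.2.2 _ (Finset.mem_insert_self _ _) _ (Finset.mem_insert_of_mem (het h₀))
      have hie : insert {σ} e ⊆ insert {σ} t := Finset.insert_subset_insert _ het
      have hieK : insert {σ} e ∈ K.derived.derived.faces :=
        K.derived.derived.down_closed _ htb _ hie (Finset.insert_nonempty _ _)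
      rw [hTb, Finset.mem_biUnion]
      refine ⟨σ, Finset.mem_filter.2 ⟨hστ, hσ2⟩, ?_⟩
      rw [if_pos ⟨hieK, hue⟩, Finset.mem_image]
      refine ⟨insert {σ} t, ?_, Finset.erase_insert hut⟩
      rw [Finset.mem_filter, ASC.mem_fk]
      refine ⟨⟨htb, ?_⟩, hie⟩
      rw [Finset.card_insert_of_notMem hut, htcard]
  refine (Finset.card_le_card hsub).trans ((Finset.card_union_le _ _).trans ?_)
  omega

/-! ### Anchors -/

/-- The vector at the anchor of a flag. -/
noncomputable def anchorVec (τ : Finset (Finset V)) : Finset V → ℝ :=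
  if h : ∃ σ ∈ τ, σ.card = 1 then vtx h.choose
  else if h : ∃ σ ∈ τ, σ.card = 2 then vtx h.choose
  else bary τ

/-- The interior points of the flags. -/
noncomputable def pts (η : ℝ) (τ : Finset (Finset V)) : Finset V → ℝ :=
  (1 - η) • anchorVec τ + η • bary τ

lemma bary_mem_cface {W : Type*} [Fintype W] [DecidableEq W] {s : Finset W} (hs : s.Nonempty) :
    bary s ∈ cface s := by
  have h := bary_isInteriorPts (V := W) ⟨{t | t.Nonempty}, fun _ h => h, fun _ _ _ _ h => h⟩ s hs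
  exact ⟨h.1, h.2.1, h.2.2.le⟩

lemma anchorVec_mem_cface {τ : Finset (Finset V)} (hτ : τ.Nonempty) :
    anchorVec τ ∈ cface τ := by
  unfold anchorVec
  split_ifs with h1 h2
  · exact vtx_mem_cface h1.choose_spec.1
  · exact vtx_mem_cface h2.choose_spec.1
  · exact bary_mem_cface hτ

lemma pts_mem_cface {η : ℝ} (h0 : 0 ≤ η) (h1 : η ≤ 1) {τ : Finset (Finset V)}
    (hτ : τ.Nonempty) : pts η τ ∈ cface τ :=
  convex_cface τ (anchorVec_mem_cface hτ) (bary_mem_cface hτ) (by linarith) h0 (by ring)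

lemma pts_isInteriorPts {η : ℝ} (h0 : 0 < η) (h1 : η ≤ 1) (K : ASC V) :
    IsInteriorPts K.derived (pts η) := by
  intro τ hτ
  have h := pts_mem_cface h0.le h1 hτ.1
  refine ⟨h.1, h.2.1, Finset.Subset.antisymm h.2.2 ?_⟩
  intro σ hσ
  rw [mem_supp]
  have ha := (anchorVec_mem_cface hτ.1).1 σ
  have hpos : 0 < τ.card := Finset.card_pos.2 hτ.1
  have hb : 0 < bary τ σ := by
    unfold bary
    rw [if_pos hσ]
    positivity
  have : 0 < pts η τ σ := by
    unfold pts
    simp only [Pi.add_apply, Pi.smul_apply, smul_eq_mul]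
    have h2 : 0 ≤ (1 - η) * anchorVec τ σ := mul_nonneg (by linarith) ha
    have h3 : 0 < η * bary τ σ := mul_pos h0 hb
    linarith
  exact this.ne'

omit [Fintype V] in
/-- The anchors of the vertices of a simplex joined to a small flag take at most two values. -/
lemma anchors_two {K : ASC V} {t : Finset (Finset (Finset V))}
    (hns : ∀ τ ∈ t, ¬ Small τ) {u : Finset (Finset V)} (hu : Small u)
    (ht : insert u t ∈ K.derived.derived.faces) :
    ∃ p q : Finset V → ℝ, ∀ τ ∈ t, anchorVec τ = p ∨ anchorVec τ = q := by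
  obtain ⟨σ₀, hσ₀, rfl⟩ := hu
  have hflag : ∀ τ ∈ t, τ ∈ K.derived.faces := fun τ hτ => ht.2.1 τ (Finset.mem_insert_of_mem hτ)
  have hmem : ∀ τ ∈ t, σ₀ ∈ τ := fun τ hτ =>
    mem_of_comparable (hflag τ hτ) (hns τ hτ) hσ₀
      (ht.2.2 _ (Finset.mem_insert_self _ _) _ (Finset.mem_insert_of_mem hτ))
  have hσne : 0 < σ₀.card := Finset.card_pos.2
    (K.nonempty_of_mem σ₀ ((ht.2.1 _ (Finset.mem_insert_self _ _)).2.1 σ₀
      (Finset.mem_singleton_self σ₀)))
  by_cases hex : ∃ τ ∈ t, ∃ σ ∈ τ, σ.card = 1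
  · obtain ⟨τ₁, hτ₁, σ₁, hσ₁, hc₁⟩ := hex
    refine ⟨vtx σ₁, vtx σ₀, fun τ hτ => ?_⟩
    by_cases h1 : ∃ σ ∈ τ, σ.card = 1
    · left
      unfold anchorVec
      rw [dif_pos h1]
      congr 1
      have hs := h1.choose_spec
      rcases ht.2.2 τ (Finset.mem_insert_of_mem hτ) τ₁ (Finset.mem_insert_of_mem hτ₁) with h | h
      · exact eq_of_card_eq (hflag τ₁ hτ₁) (h hs.1) hσ₁ (hs.2.trans hc₁.symm)
      · exact eq_of_card_eq (hflag τ hτ) hs.1 (h hσ₁) (hs.2.trans hc₁.symm)
    · right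
      have hc2 : σ₀.card = 2 := by
        have : σ₀.card ≠ 1 := fun h => h1 ⟨σ₀, hmem τ hτ, h⟩
        omega
      have h2 : ∃ σ ∈ τ, σ.card = 2 := ⟨σ₀, hmem τ hτ, hc2⟩
      unfold anchorVec
      rw [dif_neg h1, dif_pos h2]
      congr 1
      have hs := h2.choose_spec
      exact eq_of_card_eq (hflag τ hτ) hs.1 (hmem τ hτ) (hs.2.trans hc2.symm)
  · refine ⟨vtx σ₀, vtx σ₀, fun τ hτ => Or.inl ?_⟩
    have h1 : ¬ ∃ σ ∈ τ, σ.card = 1 := fun h => hex ⟨τ, hτ, h⟩
    have hc2 : σ₀.card = 2 := by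
      have : σ₀.card ≠ 1 := fun h => h1 ⟨σ₀, hmem τ hτ, h⟩
      omega
    have h2 : ∃ σ ∈ τ, σ.card = 2 := ⟨σ₀, hmem τ hτ, hc2⟩
    unfold anchorVec
    rw [dif_neg h1, dif_pos h2]
    congr 1
    have hs := h2.choose_spec
    exact eq_of_card_eq (hflag τ hτ) hs.1 (hmem τ hτ) (hs.2.trans hc2.symm)

/-- Pigeonhole. -/
lemma exists_triple {α β : Type*} [DecidableEq α] {t : Finset α} (hne : t.Nonempty)
    (hcard : t.card ≤ 3) {f : α → β} {p q : β} (hf : ∀ a ∈ t, f a = p ∨ f a = q) :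
    ∃ a ∈ t, ∃ b ∈ t, ∃ c ∈ t, t ⊆ {a, b, c} ∧ f a = f b := by
  have hpos := Finset.card_pos.2 hne
  have h123 : t.card = 1 ∨ t.card = 2 ∨ t.card = 3 := by omega
  rcases h123 with h | h | h
  · obtain ⟨a, rfl⟩ := Finset.card_eq_one.1 h
    exact ⟨a, by simp, a, by simp, a, by simp, by simp, rfl⟩
  · obtain ⟨a, b, -, rfl⟩ := Finset.card_eq_two.1 h
    exact ⟨a, by simp, a, by simp, b, by simp, by simp, rfl⟩
  · obtain ⟨a, b, c, -, -, -, rfl⟩ := Finset.card_eq_three.1 h
    have ha := hf a (by simp)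
    have hb := hf b (by simp)
    have hc := hf c (by simp)
    by_cases hab : f a = f b
    · exact ⟨a, by simp, b, by simp, c, by simp, by simp, hab⟩
    by_cases hac : f a = f c
    · refine ⟨a, by simp, c, by simp, b, by simp, ?_, hac⟩
      intro x hx
      simp only [Finset.mem_insert, Finset.mem_singleton] at hx ⊢
      tauto
    · refine ⟨b, by simp, c, by simp, a, by simp, ?_, ?_⟩
      · intro x hx
        simp only [Finset.mem_insert, Finset.mem_singleton] at hx ⊢
        tauto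
      · rcases ha with ha | ha <;> rcases hb with hb | hb <;> rcases hc with hc | hc <;>
          simp_all

end Comb

/-! ## Geometry -/

section Area

variable {X : Type*} [EMetricSpace X]

lemma area_mono {i : ℕ} {Z Z' : Set X} (h : Z ⊆ Z') : area i Z ≤ area i Z' := by
  let _ : MeasurableSpace X := borel X
  have _ : BorelSpace X := ⟨rfl⟩
  exact measure_mono h

lemma area_union_le {i : ℕ} (Z Z' : Set X) : area i (Z ∪ Z') ≤ area i Z + area i Z' := by
  let _ : MeasurableSpace X := borel X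
  have _ : BorelSpace X := ⟨rfl⟩
  exact measure_union_le Z Z'

lemma area_biUnion_finset_le {ι : Type*} {i : ℕ} (s : Finset ι) (f : ι → Set X) :
    area i (⋃ a ∈ s, f a) ≤ ∑ a ∈ s, area i (f a) := by
  let _ : MeasurableSpace X := borel X
  have _ : BorelSpace X := ⟨rfl⟩
  exact measure_biUnion_finset_le s f

end Area

section Sep

variable {V : Type} [Fintype V] [DecidableEq V]

lemma comp_car {K : ASC V} {R' : Refinement K.derived K}
    {R'' : Refinement K.derived.derived K.derived}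
    (hR' : ∀ c ∈ K.derived.faces, R'.car c = c.sup id)
    (hR'' : ∀ c ∈ K.derived.derived.faces, R''.car c = c.sup id) :
    ∀ t ∈ K.derived.derived.faces, (R''.trans R').car t = car2 t := by
  intro t ht
  change R'.car (R''.car t) = car2 t
  rw [hR' _ (R''.car_mem t ht), hR'' t ht]
  rfl

end Sep

theorem sep_core (N : ClosedRiem 3) (T : SmoothTri 3 N.carrier) (A : ASC T.V)
    (hA3 : ∀ s ∈ A.faces, s.card ≤ 3) {ρ : ℝ≥0∞}
    (hmesh : ∀ s ∈ T.K.faces, ∀ t ∈ cface s, ∀ t' ∈ cface s, edist (T.h t) (T.h t') < ρ)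
    (hsep : IsSeparating ρ univ (T.h '' A.real)) (hA : A.faces ⊆ T.K.faces)
    (RR : Refinement T.K.derived.derived T.K)
    (hRR : ∀ t ∈ T.K.derived.derived.faces, RR.car t = car2 t) :
    IsSeparating ρ univ ((T.pull _ RR).h '' (cpx T.K A).real) := by
  classical
  set T2 := T.pull T.K.derived.derived RR with hT2
  have hh : ∀ y, T2.h y = T.h (RR.L y) := fun y => rfl
  have hbij : BijOn T2.h T.K.derived.derived.real univ := T2.bij
  have hcont : ContinuousOn T2.h T.K.derived.derived.real := T2.cont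
  have hcard4 : ∀ s ∈ T.K.derived.derived.faces, s.card ≤ 4 := fun s hs =>
    SmoothTri.card_le T2 (s := s) hs
  set Z2 := T2.h '' (cpx T.K A).real with hZ2
  have hmemZ2 : ∀ y ∈ T.K.derived.derived.real, supp y ∈ (cpx T.K A).faces → T2.h y ∈ Z2 :=
    fun y hy hs => ⟨y, ⟨hy.1, hy.2.1, hs⟩, rfl⟩
  set O : Finset (Finset T.V) → Set N.carrier :=
    fun u => T2.h '' {y | y ∈ T.K.derived.derived.real ∧ y u ≠ 0} with hO
  have hOopen : ∀ u, IsOpen (O u) := by
    intro u
    have h1 : IsCompact (T.K.derived.derived.real ∩ {y | y u = 0}) :=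
      (ASC.isCompact_real _).inter_right (isClosed_eq (continuous_apply u) continuous_const)
    have h2 : IsClosed (T2.h '' (T.K.derived.derived.real ∩ {y | y u = 0})) :=
      (h1.image_of_continuousOn (hcont.mono inter_subset_left)).isClosed
    have h3 : O u = (T2.h '' (T.K.derived.derived.real ∩ {y | y u = 0}))ᶜ := by
      ext x
      constructor
      · rintro ⟨y, ⟨hy, hyu⟩, rfl⟩ ⟨y', ⟨hy', hyu'⟩, he⟩
        have := hbij.injOn hy' hy he
        rw [this] at hyu'
        exact hyu hyu'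
      · intro hx
        obtain ⟨y, hy, rfl⟩ := hbij.surjOn (mem_univ x)
        refine ⟨y, ⟨hy, fun h0 => hx ⟨y, ⟨hy, h0⟩, rfl⟩⟩, rfl⟩
    rw [h3]
    exact h2.isOpen_compl
  have hOcl : ∀ u, Small u → closure (O u) ⊆ O u ∪ Z2 := by
    intro u hu x hx
    set S : Set (Finset (Finset T.V) → ℝ) :=
      ⋃ s ∈ {s | s ∈ T.K.derived.derived.faces ∧ u ∈ s}, cface s with hS
    have hSsub : S ⊆ T.K.derived.derived.real := by
      intro y hy
      obtain ⟨s, hs, hys⟩ := mem_iUnion₂.1 hy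
      exact cface_subset_real _ hs.1 hys
    have hScpt : IsCompact S :=
      (Set.toFinite _).isCompact_biUnion fun s _ => isCompact_cface s
    have hScl : IsClosed (T2.h '' S) :=
      (hScpt.image_of_continuousOn (hcont.mono hSsub)).isClosed
    have hOS : O u ⊆ T2.h '' S := by
      rintro x ⟨y, ⟨hy, hyu⟩, rfl⟩
      refine ⟨y, mem_iUnion₂.2 ⟨supp y, ⟨hy.2.2, mem_supp.2 hyu⟩, mem_cface_supp hy⟩, rfl⟩
    obtain ⟨y, hyS, rfl⟩ := closure_minimal hOS hScl hx
    have hyr := hSsub hyS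
    obtain ⟨s, hs, hys⟩ := mem_iUnion₂.1 hyS
    by_cases hyu : y u = 0
    · right
      have hins : insert u (supp y) ∈ T.K.derived.derived.faces :=
        T.K.derived.derived.down_closed s hs.1 _ (Finset.insert_subset hs.2 hys.2.2)
          (Finset.insert_nonempty _ _)
      have hnu : u ∉ supp y := fun h => (mem_supp.1 h) hyu
      refine hmemZ2 y hyr ⟨hyr.2.2, ?_, ?_, Or.inr ⟨u, hu, hins⟩⟩
      · exact Nat.le_of_succ_le_succ
          ((Finset.card_insert_of_notMem hnu).symm.le.trans (hcard4 _ hins))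
      · intro τ hτ hsm
        have := hsm.eq_of_comparable hu
          (hins.2.2 τ (Finset.mem_insert_of_mem hτ) u (Finset.mem_insert_self _ _))
        rw [this] at hτ
        exact hnu hτ
    · left
      exact ⟨y, ⟨hyr, hyu⟩, rfl⟩
  refine ⟨subset_univ _, fun x hx => ?_⟩
  set C := connectedComponentIn (univ \ Z2) x with hCdef
  have hC : IsPreconnected C := isPreconnected_connectedComponentIn
  have hCsub : C ⊆ univ \ Z2 := connectedComponentIn_subset _ _
  have hxC : x ∈ C := mem_connectedComponentIn hx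
  by_cases hex : ∃ u, Small u ∧ (C ∩ O u).Nonempty
  · obtain ⟨u, hu, hne⟩ := hex
    have hCO : C ⊆ O u := by
      refine hC.subset_of_closure_inter_subset (hOopen u) hne ?_
      rintro z ⟨hz, hzC⟩
      rcases hOcl u hu hz with h | h
      · exact h
      · exact absurd h (hCsub hzC).2
    obtain ⟨σ, hσ2, rfl⟩ := hu
    obtain ⟨z₀, -, hz₀⟩ := hne
    -- `σ` is a face
    have hσ : σ ∈ T.K.faces := by
      obtain ⟨y, ⟨hy, hyu⟩, -⟩ := hz₀
      have := hy.2.2.2.1 {σ} (mem_supp.2 hyu)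
      exact this.2.1 σ (Finset.mem_singleton_self σ)
    refine ⟨T.h (bary σ), fun z hz => ?_⟩
    obtain ⟨y, ⟨hy, hyu⟩, rfl⟩ := hCO hz
    rw [Metric.mem_eball, hh]
    have hLy : RR.L y ∈ T.K.real := RR.bij.mapsTo hy
    refine hmesh (supp (RR.L y)) hLy.2.2 _ (mem_cface_supp hLy) _ ?_
    refine cface_mono ?_ (bary_mem_cface (T.K.nonempty_of_mem σ hσ))
    rw [RR.supp_L y hy, hRR _ hy.2.2]
    exact subset_car2 (mem_supp.2 hyu) (Finset.mem_singleton_self σ)
  · have hCZ : C ⊆ univ \ T.h '' A.real := by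
      intro z hz
      refine ⟨mem_univ _, ?_⟩
      rintro ⟨a, ha, haz⟩
      obtain ⟨y, hy, rfl⟩ := hbij.surjOn (mem_univ z)
      have hLy : RR.L y ∈ T.K.real := RR.bij.mapsTo hy
      have haK : a ∈ T.K.real := ⟨ha.1, ha.2.1, hA ha.2.2⟩
      have hay : a = RR.L y := T.bij.injOn haK hLy haz
      have hcar : car2 (supp y) = supp a := by
        rw [hay, RR.supp_L y hy, hRR _ hy.2.2]
      have hcarA : car2 (supp y) ∈ A.faces := by rw [hcar]; exact ha.2.2
      refine (hCsub hz).2 (hmemZ2 y hy ⟨hy.2.2, ?_, ?_, Or.inl hcarA⟩)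
      · have h1 := RR.card_le _ hy.2.2
        rw [hRR _ hy.2.2] at h1
        exact h1.trans (hA3 _ hcarA)
      · intro τ hτ hsm
        exact hex ⟨τ, hsm, _, hz, y, ⟨hy, mem_supp.1 hτ⟩, rfl⟩
    obtain ⟨c, hc⟩ := hsep.2 x (hCZ hxC)
    exact ⟨c, (hC.subset_connectedComponentIn hxC hCZ).trans hc⟩

/-- The sup distance of two points of a simplex is at most one. -/
lemma dist_le_one {W : Type*} [Fintype W] {x y : W → ℝ} (hx0 : ∀ v, 0 ≤ x v)
    (hx1 : ∑ v, x v = 1) (hy0 : ∀ v, 0 ≤ y v) (hy1 : ∑ v, y v = 1) : dist x y ≤ 1 := by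
  rw [dist_pi_le_iff zero_le_one]
  intro v
  have h1 : x v ≤ 1 := by
    rw [← hx1]; exact Finset.single_le_sum (fun w _ => hx0 w) (Finset.mem_univ v)
  have h2 : y v ≤ 1 := by
    rw [← hy1]; exact Finset.single_le_sum (fun w _ => hy0 w) (Finset.mem_univ v)
  rw [Real.dist_eq, abs_le]
  constructor <;> linarith [hx0 v, hy0 v]

/-- The area of a triangle added in the neighbourhood of a small face. -/
lemma area_hull {V : Type} [Fintype V] [DecidableEq V] {K : ASC V}
    {R' : Refinement K.derived K} {R'' : Refinement K.derived.derived K.derived} {η : ℝ}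
    (h0 : 0 < η) (h1 : η ≤ 1) (hL'' : R''.L = lmap (pts η))
    {t : Finset (Finset (Finset V))} (ht : t ∈ K.derived.derived.faces) (htcard : t.card ≤ 3)
    {p q : Finset V → ℝ} (hpq : ∀ τ ∈ t, anchorVec τ = p ∨ anchorVec τ = q) :
    area 2 ((R''.trans R').L '' cface t) ≤ ENNReal.ofReal (8 * η) := by
  obtain ⟨a, ha, b, hb, c, hc, htabc, hab⟩ := exists_triple ht.1 htcard hpq
  set P : Finset (Finset V) → (V → ℝ) := fun τ => R'.L (pts η τ) with hP
  have hflag : ∀ τ ∈ t, τ ∈ K.derived.faces := fun τ hτ => ht.2.1 τ hτ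
  have hreal : ∀ τ ∈ t, ∀ x ∈ cface τ, R'.L x ∈ K.real := fun τ hτ x hx =>
    R'.bij.mapsTo (cface_subset_real _ (hflag τ hτ) hx)
  have hanc : ∀ τ ∈ t, dist (P τ) (R'.L (anchorVec τ)) ≤ η := by
    intro τ hτ
    have hne := (hflag τ hτ).1
    have e1 : P τ - R'.L (anchorVec τ) = η • (R'.L (bary τ) - R'.L (anchorVec τ)) := by
      rw [hP]
      simp only [pts, map_add, map_smul]
      module
    rw [dist_eq_norm, e1, norm_smul, Real.norm_eq_abs, abs_of_pos h0]
    have hr1 := hreal τ hτ _ (bary_mem_cface hne)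
    have hr2 := hreal τ hτ _ (anchorVec_mem_cface hne)
    have := dist_le_one hr1.1 hr1.2.1 hr2.1 hr2.2.1
    rw [dist_eq_norm] at this
    nlinarith
  have hPreal : ∀ τ ∈ t, P τ ∈ K.real := fun τ hτ =>
    hreal τ hτ _ (pts_mem_cface h0.le h1 (hflag τ hτ).1)
  have hdab : dist (P a) (P b) ≤ 2 * η := by
    have h1 := hanc a ha
    have h2 := hanc b hb
    rw [hab] at h1
    rw [dist_comm] at h2
    calc dist (P a) (P b) ≤ dist (P a) (R'.L (anchorVec b)) + dist (R'.L (anchorVec b)) (P b) :=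
          dist_triangle _ _ _
      _ ≤ 2 * η := by linarith
  have hdac : dist (P a) (P c) ≤ 1 :=
    dist_le_one (hPreal a ha).1 (hPreal a ha).2.1 (hPreal c hc).1 (hPreal c hc).2.1
  have hsub : (R''.trans R').L '' cface t ⊆ convexHull ℝ {P a, P b, P c} := by
    rintro _ ⟨y, hy, rfl⟩
    have e1 : (R''.trans R').L y = ∑ τ ∈ t, y τ • P τ := by
      change R'.L (R''.L y) = _
      have e2 : R''.L y = ∑ τ ∈ t, y τ • pts η τ := by
        rw [hL'']
        ext σ
        rw [Finset.sum_apply]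
        change ∑ τ, y τ * pts η τ σ = _
        rw [← Finset.sum_subset (Finset.subset_univ t)]
        · rfl
        · intro τ _ hτ
          have : y τ = 0 := by
            by_contra h
            exact hτ (hy.2.2 (mem_supp.2 h))
          rw [this, zero_mul]
      rw [e2, map_sum]
      refine Finset.sum_congr rfl fun τ _ => ?_
      rw [map_smul]
    rw [e1]
    refine (convex_convexHull ℝ _).sum_mem (fun τ _ => hy.1 τ) ?_ ?_
    · rw [Finset.sum_subset (Finset.subset_univ t)]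
      · exact hy.2.1
      · intro τ _ hτ
        by_contra h
        exact hτ (hy.2.2 (mem_supp.2 h))
    · intro τ hτ
      refine subset_convexHull ℝ _ ?_
      have := htabc hτ
      simp only [Finset.mem_insert, Finset.mem_singleton] at this
      rcases this with rfl | rfl | rfl <;> simp
  refine (area_mono hsub).trans ?_
  have h8 : (8 : ℝ) * η = 4 * (2 * η) * 1 := by ring
  rw [h8]
  exact area_convexHull_le (P a) (P b) (P c) (by linarith) one_pos hdab hdac

theorem area_core (N : ClosedRiem 3) (T : SmoothTri 3 N.carrier) (A : ASC T.V)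
    {R' : Refinement T.K.derived T.K} {R'' : Refinement T.K.derived.derived T.K.derived}
    (hR' : ∀ c ∈ T.K.derived.faces, R'.car c = c.sup id)
    (hR'' : ∀ c ∈ T.K.derived.derived.faces, R''.car c = c.sup id)
    {η : ℝ} (h0 : 0 < η) (h1 : η ≤ 1) (hL'' : R''.L = lmap (pts η)) {C : ℝ≥0}
    (hC : ∀ s ∈ T.K.faces, LipschitzOnWith C T.h (cface s)) :
    area 2 ((T.pull _ (R''.trans R')).h '' (cpx T.K A).real) ≤
      area 2 (T.h '' A.real) + (Fintype.card (Finset (Finset (Finset T.V))) : ℝ≥0∞) *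
        ((C : ℝ≥0∞) ^ 2 * ENNReal.ofReal (8 * η)) := by
  classical
  set RR := R''.trans R' with hRRdef
  have hRR := comp_car hR' hR''
  set F : Finset (Finset (Finset (Finset T.V))) := Finset.univ.filter (fun t =>
    t ∈ T.K.derived.derived.faces ∧ t.card ≤ 3 ∧ (∀ τ ∈ t, ¬ Small τ) ∧
      ∃ u, Small u ∧ insert u t ∈ T.K.derived.derived.faces) with hF
  have hsub : (T.pull _ RR).h '' (cpx T.K A).real ⊆
      T.h '' A.real ∪ ⋃ t ∈ F, T.h '' (RR.L '' cface t) := by
    rintro _ ⟨y, hy, rfl⟩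
    have hyK : y ∈ T.K.derived.derived.real := ⟨hy.1, hy.2.1, hy.2.2.1⟩
    obtain ⟨-, -, hc1, hc2, hc3, hc4⟩ := hy
    rcases hc4 with hc4 | hc4
    · left
      refine ⟨RR.L y, ?_, rfl⟩
      have hLy : RR.L y ∈ T.K.real := RR.bij.mapsTo hyK
      refine ⟨hLy.1, hLy.2.1, ?_⟩
      rw [RR.supp_L y hyK, hRR _ hc1]
      exact hc4
    · right
      refine mem_iUnion₂.2 ⟨supp y, ?_, ⟨RR.L y, ⟨y, mem_cface_supp hyK, rfl⟩, rfl⟩⟩
      rw [hF, Finset.mem_filter]
      exact ⟨Finset.mem_univ _, hc1, hc2, hc3, hc4⟩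
  refine (area_mono hsub).trans ((area_union_le _ _).trans ?_)
  refine add_le_add le_rfl ?_
  refine (area_biUnion_finset_le _ _).trans ?_
  have hterm : ∀ t ∈ F, area 2 (T.h '' (RR.L '' cface t)) ≤
      (C : ℝ≥0∞) ^ 2 * ENNReal.ofReal (8 * η) := by
    intro t ht
    obtain ⟨-, ht1, ht2, ht3, u, hu, ht4⟩ := Finset.mem_filter.1 ht
    obtain ⟨p, q, hpq⟩ := anchors_two ht3 hu ht4
    have hlip : LipschitzOnWith C T.h (RR.L '' cface t) := by
      refine (hC (RR.car t) (RR.car_mem t ht1)).mono ?_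
      rintro _ ⟨y, hy, rfl⟩
      exact RR.mapsTo_cface ht1 hy
    refine (area_image_le 2 hlip).trans ?_
    exact mul_le_mul' le_rfl (area_hull h0 h1 hL'' ht1 ht2 hpq)
  refine (Finset.sum_le_card_nsmul _ _ _ hterm).trans ?_
  rw [nsmul_eq_mul]
  refine mul_le_mul' ?_ le_rfl
  have : F.card ≤ Fintype.card (Finset (Finset (Finset T.V))) := Finset.card_le_univ F
  exact_mod_cast this

/-- The Lipschitz constant of a triangulation on its faces. -/
lemma exists_lip (N : ClosedRiem 3) (T : SmoothTri 3 N.carrier) :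
    ∃ C : ℝ≥0, ∀ s ∈ T.K.faces, LipschitzOnWith C T.h (cface s) := by
  classical
  have h : ∀ s : Finset T.V, ∃ C : ℝ≥0, s ∈ T.K.faces → LipschitzOnWith C T.h (cface s) := by
    intro s
    by_cases hs : s ∈ T.K.faces
    · obtain ⟨C, hC⟩ := T.lipschitzOn_cface N hs
      exact ⟨C, fun _ => hC⟩
    · exact ⟨0, fun h => absurd h hs⟩
  choose C hC using h
  refine ⟨∑ s, C s, fun s hs => (hC s hs).weaken ?_⟩
  exact Finset.single_le_sum (fun _ _ => bot_le) (Finset.mem_univ s)

theorem core (N : ClosedRiem 3) (T : SmoothTri 3 N.carrier) (A : ASC T.V)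
    (hA : A.faces ⊆ T.K.faces) (hA3 : ∀ s ∈ A.faces, s.card ≤ 3) {ρ ε : ℝ≥0∞}
    (hmesh : ∀ s ∈ T.K.faces, ∀ t ∈ cface s, ∀ t' ∈ cface s, edist (T.h t) (T.h t') < ρ)
    (hsep : IsSeparating ρ univ (T.h '' A.real)) (hε : 0 < ε) :
    ∃ Z' : Set N.carrier, IsGoodSurface 3 valence Z' ∧ IsSeparating ρ univ Z' ∧
      area 2 Z' ≤ area 2 (T.h '' A.real) + ε := by
  obtain ⟨C, hC⟩ := exists_lip N T
  -- the choice of `η`
  obtain ⟨η, h0, h1, hη⟩ : ∃ η : ℝ, 0 < η ∧ η ≤ 1 ∧
      (Fintype.card (Finset (Finset (Finset T.V))) : ℝ≥0∞) *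
        ((C : ℝ≥0∞) ^ 2 * ENNReal.ofReal (8 * η)) ≤ ε := by
    set M : ℝ≥0∞ := (Fintype.card (Finset (Finset (Finset T.V))) : ℝ≥0∞) * (C : ℝ≥0∞) ^ 2 with hM
    have hMtop : M ≠ ⊤ := ENNReal.mul_ne_top (ENNReal.natCast_ne_top _)
      (ENNReal.pow_ne_top ENNReal.coe_ne_top)
    have hlim : Tendsto (fun η : ℝ => M * ENNReal.ofReal (8 * η)) (𝓝[>] 0) (𝓝 0) := by
      have h1 : Tendsto (fun η : ℝ => ENNReal.ofReal (8 * η)) (𝓝[>] 0)
          (𝓝 (ENNReal.ofReal (8 * 0))) := by
        refine ENNReal.tendsto_ofReal ?_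
        exact ((continuous_const.mul continuous_id).tendsto 0).mono_left nhdsWithin_le_nhds
      have h2 := ENNReal.Tendsto.const_mul h1 (Or.inr hMtop)
      simpa using h2
    have hev : ∀ᶠ η in 𝓝[>] (0 : ℝ), M * ENNReal.ofReal (8 * η) < ε :=
      hlim.eventually (gt_mem_nhds hε)
    have hev2 : ∀ᶠ η in 𝓝[>] (0 : ℝ), 0 < η ∧ η ≤ 1 := by
      have : Ioc (0 : ℝ) 1 ∈ 𝓝[>] (0 : ℝ) := Ioc_mem_nhdsGT one_pos
      exact this
    obtain ⟨η, hη1, hη2⟩ := (hev.and hev2).exists
    refine ⟨η, hη2.1, hη2.2, ?_⟩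
    rw [← mul_assoc]
    exact hη1.le
  obtain ⟨R', hL', hR'⟩ := exists_derivedRefinement T.K bary (bary_isInteriorPts T.K)
  obtain ⟨R'', hL'', hR''⟩ := exists_derivedRefinement T.K.derived (pts η)
    (pts_isInteriorPts h0 h1 T.K)
  have hRR := comp_car hR' hR''
  refine ⟨(T.pull _ (R''.trans R')).h '' (cpx T.K A).real,
    ⟨T.pull _ (R''.trans R'), cpx T.K A, fun s hs => hs.1, fun s hs => hs.2.1, ?_, rfl⟩,
    sep_core N T A hA3 hmesh hsep hA _ hRR, ?_⟩
  · intro e he hcard
    refine valence_bound hR' hA3 ?_ he hcard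
    intro s hs hs3
    exact SmoothTri.card_tets_le_two (T.pull _ (R''.trans R')) (s := s) hs hs3
  · refine (area_core N T A hR' hR'' h0 h1 hL'' hC).trans ?_
    exact add_le_add le_rfl hη

end Good

theorem exists_good_surface (N : ClosedRiem 3) {ρ ε : ℝ≥0∞} (hρ : 0 < ρ) (hε : 0 < ε)
    {Z : Set N.carrier} (hZ : IsSubcomplexSet 3 2 Z) (hsep : IsSeparating ρ univ Z) :
    ∃ Z' : Set N.carrier, IsGoodSurface 3 valence Z' ∧ IsSeparating ρ univ Z' ∧
      area 2 Z' ≤ area 2 Z + ε := by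
  obtain ⟨T, A, hA, hA3, rfl⟩ := hZ
  obtain ⟨V', hfin, hdec, K', R, hmesh⟩ := T.exists_fine hρ
  have himg := T.image_pull K' R hA
  rw [← himg] at hsep ⊢
  refine Good.core N (T.pull K' R) (R.pullSub A) (fun s hs => hs.1) ?_ hmesh hsep hε
  intro s hs
  exact (R.card_le s hs.1).trans (hA3 _ hs.2)

end SepFil
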