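import Pool.Agent.SepFil.Tri

/-!
# Surfaces of bounded valence (definition)
-/

open Set MeasureTheory Manifold Bundle Filter Topology
open scoped ContDiff ENNReal NNReal

namespace SepFil

/-- `Z` is a surface (2-dimensional subcomplex of a smooth triangulation) every edge of which
lies in at most `B` triangles. -/
def IsGoodSurface (n B : ℕ) {N : Type*} [TopologicalSpace N]
    [ChartedSpace (EuclideanSpace ℝ (Fin n)) N] (Z : Set N) : Prop :=
  ∃ (T : SmoothTri n N) (A : ASC T.V), A.faces ⊆ T.K.faces ∧ (∀ s ∈ A.faces, s.card ≤ 3) ∧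
    (∀ e ∈ A.faces, e.card = 2 → ((A.fk 3).filter (fun s => e ⊆ s)).card ≤ B) ∧
    Z = T.h '' A.real

lemma IsGoodSurface.isSubcomplexSet {n B : ℕ} {N : Type*} [TopologicalSpace N]
    [ChartedSpace (EuclideanSpace ℝ (Fin n)) N] {Z : Set N} (h : IsGoodSurface n B Z) :
    IsSubcomplexSet n 2 Z := by
  obtain ⟨T, A, h1, h2, -, h3⟩ := h
  exact ⟨T, A, h1, h2, h3⟩

/-- The bound for the valence. -/
def valence : ℕ := 200

end SepFil
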