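import Pool.Agent.SepFil.Tri

/-!
# Skeleta of fine triangulations are separating; existence of filtrations

(module SKEL of the blueprint)
-/

open Set MeasureTheory Manifold Bundle Filter Topology
open scoped ContDiff ENNReal NNReal

namespace SepFil

/-- The skeleton of a fine subdivision is separating. -/
theorem exists_separating {n : ℕ} (N : ClosedRiem n) {i : ℕ} {Z : Set N.carrier}
    (hZ : IsSubcomplexSet n (i + 1) Z) {ρ : ℝ≥0∞} (hρ : 0 < ρ) :
    ∃ Y, IsSubcomplexSet n i Y ∧ IsSeparating ρ Z Y := by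
  obtain ⟨T, A, hA, hcard, rfl⟩ := hZ
  obtain ⟨V', i1, i2, K', R, hmesh⟩ := T.exists_fine hρ
  set T' := T.pull K' R with hT'
  set A' : ASC V' := R.pullSub A with hA'
  have hA'K : A'.faces ⊆ K'.faces := fun s hs => hs.1
  have hZ' : T.h '' A.real = T'.h '' A'.real := (T.image_pull K' R hA).symm
  have hcard' : ∀ s ∈ A'.faces, s.card ≤ i + 2 := fun s hs =>
    (R.card_le s hs.1).trans (hcard _ hs.2)
  set A'' : ASC V' := A'.sub (fun s => s.card ≤ i + 1)
    (fun s hs t hts _ => (Finset.card_le_card hts).trans hs) with hA''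
  have hA''A' : A''.faces ⊆ A'.faces := fun s hs => hs.1
  have hcont : ContinuousOn T'.h A'.real := T'.cont.mono (real_mono hA'K)
  have hinj : InjOn T'.h A'.real := T'.bij.injOn.mono (real_mono hA'K)
  refine ⟨T'.h '' A''.real, ⟨T', A'', hA''A'.trans hA'K, fun s hs => hs.2, rfl⟩, ?_⟩
  rw [hZ']
  refine ⟨image_mono (real_mono hA''A'), ?_⟩
  rintro x ⟨⟨t, ht, rfl⟩, hx⟩
  set Y := T'.h '' A''.real with hY
  -- a point of `Z \ Y` in the image of the closed face `s` has carrier `s`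
  have key : ∀ t ∈ A'.real, T'.h t ∉ Y → ∀ s ∈ A'.faces, T'.h t ∈ T'.h '' cface s →
      supp t = s := by
    rintro t ht htY s hs ⟨t', ht', hte⟩
    have h1 : t' = t := hinj (cface_subset_real A' hs ht') ht hte
    subst h1
    refine Finset.eq_of_subset_of_card_le ht'.2.2 ?_
    have h2 : i + 1 < (supp t').card := by
      by_contra h
      exact htY ⟨t', ⟨ht.1, ht.2.1, ht.2.2, not_lt.1 h⟩, rfl⟩
    exact (hcard' s hs).trans h2
  set s := supp t with hs
  have hclosed : ∀ s ∈ A'.faces, IsClosed (T'.h '' cface s) := fun s hs =>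
    ((isCompact_cface s).image_of_continuousOn
      (hcont.mono (cface_subset_real A' hs))).isClosed
  set u : Set N.carrier := (⋃ s' ∈ {s' | s' ∈ A'.faces ∧ s' ≠ s}, T'.h '' cface s')ᶜ with hu
  set v : Set N.carrier := (T'.h '' cface s)ᶜ with hv
  have hu_open : IsOpen u := by
    rw [hu, isOpen_compl_iff]
    exact (Set.toFinite _).isClosed_biUnion fun s' hs' => hclosed s' hs'.1
  have hv_open : IsOpen v := (hclosed s ht.2.2).isOpen_compl
  set C := connectedComponentIn (T'.h '' A'.real \ Y) (T'.h t) with hC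
  have hCsub : C ⊆ T'.h '' A'.real \ Y := connectedComponentIn_subset _ _
  have hCpre : IsPreconnected C := isPreconnected_connectedComponentIn
  have hxC : T'.h t ∈ C := mem_connectedComponentIn ⟨⟨t, ht, rfl⟩, hx⟩
  have hmemu : ∀ t' ∈ A'.real, T'.h t' ∉ Y → (T'.h t' ∈ u ↔ supp t' = s) := by
    intro t' ht' ht'Y
    constructor
    · intro h
      by_contra hne
      exact h (mem_biUnion (show supp t' ∈ {s' | s' ∈ A'.faces ∧ s' ≠ s} from
        ⟨ht'.2.2, hne⟩) ⟨t', mem_cface_supp ht', rfl⟩)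
    · intro h hmem
      obtain ⟨s', ⟨hs', hne⟩, hmem⟩ := mem_iUnion₂.1 hmem
      exact hne ((key t' ht' ht'Y s' hs' hmem).symm.trans h)
  have hmemv : ∀ t' ∈ A'.real, T'.h t' ∉ Y → (T'.h t' ∈ v ↔ supp t' ≠ s) := by
    intro t' ht' ht'Y
    constructor
    · intro h hne
      exact h ⟨t', hne ▸ mem_cface_supp ht', rfl⟩
    · intro h hmem
      exact h (key t' ht' ht'Y s ht.2.2 hmem)
  have hCuv : C ⊆ u ∪ v := by
    intro y hy
    obtain ⟨⟨t', ht', rfl⟩, hy2⟩ := hCsub hy
    by_cases h : supp t' = s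
    · exact Or.inl ((hmemu t' ht' hy2).2 h)
    · exact Or.inr ((hmemv t' ht' hy2).2 h)
  have hCd : C ∩ (u ∩ v) = ∅ := by
    ext y
    simp only [mem_inter_iff, mem_empty_iff_false, iff_false]
    rintro ⟨hyC, hyu, hyv⟩
    obtain ⟨⟨t', ht', rfl⟩, hy2⟩ := hCsub hyC
    exact (hmemv t' ht' hy2).1 hyv ((hmemu t' ht' hy2).1 hyu)
  have hCu : C ⊆ u := by
    rcases (isPreconnected_iff_subset_of_disjoint.1 hCpre) u v hu_open hv_open hCuv hCd with h | h
    · exact h
    · exact absurd rfl ((hmemv t ht hx).1 (h hxC))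
  refine ⟨T'.h t, fun y hy => ?_⟩
  obtain ⟨⟨t', ht', rfl⟩, hy2⟩ := hCsub hy
  have h1 : supp t' = s := (hmemu t' ht' hy2).1 (hCu hy)
  have h2 : t' ∈ cface s := h1 ▸ mem_cface_supp ht'
  exact hmesh s (hA'K ht.2.2) t' h2 t (mem_cface_supp ht)

/-- Zero-dimensional subcomplexes have components in small balls. -/
theorem isSeparating_empty {n : ℕ} (N : ClosedRiem n) {Z : Set N.carrier}
    (hZ : IsSubcomplexSet n 0 Z) {ρ : ℝ≥0∞} (hρ : 0 < ρ) : IsSeparating ρ Z ∅ := by
  obtain ⟨T, A, hA, hcard, rfl⟩ := hZ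
  have hfin : (T.h '' A.real).Finite := by
    refine Set.Finite.image _ (Set.Finite.subset (Set.finite_range (vtx : T.V → T.V → ℝ)) ?_)
    intro t ht
    have h1 := hcard _ ht.2.2
    have h2 := (A.nonempty_of_mem _ ht.2.2).card_pos
    obtain ⟨v, hv⟩ := Finset.card_eq_one.1 (by omega : (supp t).card = 1)
    refine ⟨v, ?_⟩
    have h3 : ∀ w ≠ v, t w = 0 := by
      intro w hw
      by_contra hne
      have : w ∈ supp t := mem_supp.2 hne
      rw [hv] at this
      exact hw (by simpa using this)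
    have h4 : t v = 1 := by
      rw [← ht.2.1]
      exact (Finset.sum_eq_single v (fun w _ hw => h3 w hw)
        (fun h => absurd (Finset.mem_univ _) h)).symm
    ext w
    by_cases hw : w = v
    · subst hw; simp [vtx, h4]
    · simp [vtx, hw, h3 w hw]
  refine ⟨empty_subset _, fun x hx => ⟨x, fun y hy => ?_⟩⟩
  have h1 : (connectedComponentIn (T.h '' A.real \ ∅) x).Subsingleton := by
    by_contra hns
    rw [Set.not_subsingleton_iff] at hns
    exact (isPreconnected_connectedComponentIn.infinite_of_nontrivial hns)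
      ((hfin.subset sdiff_subset).subset (connectedComponentIn_subset _ _))
  rw [h1 hy (mem_connectedComponentIn hx)]
  exact Metric.mem_eball_self hρ

/-- Existence of near-minimisers. -/
lemma exists_near_min {N : Type*} [EMetricSpace N] (i : ℕ) {P : Set N → Prop} (hP : ∃ Y, P Y)
    {ε : ℝ≥0∞} (hε : 0 < ε) : ∃ Y, P Y ∧ ∀ Y', P Y' → area i Y ≤ area i Y' + ε := by
  rcases eq_or_ne (⨅ (Y : Set N) (_ : P Y), area i Y) ⊤ with h | h
  · obtain ⟨Y, hY⟩ := hP
    refine ⟨Y, hY, fun Y' hY' => ?_⟩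
    have h1 : area i Y' = ⊤ := by
      rw [iInf_eq_top] at h
      have := h Y'
      rw [iInf_eq_top] at this
      exact this hY'
    rw [h1, top_add]
    exact le_top
  · have h1 : (⨅ (Y : Set N) (_ : P Y), area i Y) < (⨅ (Y : Set N) (_ : P Y), area i Y) + ε :=
      ENNReal.lt_add_right h hε.ne'
    obtain ⟨Y, hY⟩ := iInf_lt_iff.1 h1
    obtain ⟨hPY, hY⟩ := iInf_lt_iff.1 hY
    refine ⟨Y, hPY, fun Y' hY' => hY.le.trans ?_⟩
    gcongr
    exact iInf₂_le Y' hY'

/-- A near-minimal surface can be completed to a near-minimal filtration. -/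
theorem exists_filtration (N : ClosedRiem 3) {ρ ε : ℝ≥0∞} (hρ : 0 < ρ) (hε : 0 < ε)
    {Z₂ : Set N.carrier} (hZ₂ : IsSubcomplexSet 3 2 Z₂) (hsep : IsSeparating ρ univ Z₂)
    (hmin : ∀ Y : Set N.carrier, IsSubcomplexSet 3 2 Y → IsSeparating ρ univ Y →
      area 2 Z₂ ≤ area 2 Y + ε) :
    ∃ Z : ℕ → Set N.carrier, IsSepFiltration 3 ρ Z ∧ IsNearMinimal 3 ρ ε Z ∧ Z 2 = Z₂ := by
  obtain ⟨Z₁, ⟨h1a, h1b⟩, h1c⟩ := exists_near_min (N := N.carrier) 1
    (P := fun Y => IsSubcomplexSet 3 1 Y ∧ IsSeparating ρ Z₂ Y) (exists_separating N hZ₂ hρ) hε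
  obtain ⟨Z₀, ⟨h0a, h0b⟩, h0c⟩ := exists_near_min (N := N.carrier) 0
    (P := fun Y => IsSubcomplexSet 3 0 Y ∧ IsSeparating ρ Z₁ Y) (exists_separating N h1a hρ) hε
  refine ⟨fun i => if i = 0 then Z₀ else if i = 1 then Z₁ else if i = 2 then Z₂ else univ,
    ⟨by simp, ?_, ?_, ?_⟩, ?_, by simp⟩
  · intro i hi
    interval_cases i
    · simpa using h0a
    · simpa using h1a
    · simpa using hZ₂
  · intro i hi
    interval_cases i
    · simpa using h0b
    · simpa using h1b
    · simpa using hsep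
  · simpa using isSeparating_empty N h0a hρ
  · intro i hi Y hY hYs
    interval_cases i
    · exact h0c Y ⟨hY, by simpa using hYs⟩
    · exact h1c Y ⟨hY, by simpa using hYs⟩
    · exact hmin Y hY (by simpa using hYs)

end SepFil
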