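import Pool.Agent.SepFil.Good
import Pool.Agent.SepFil.Skel

/-!
# Near-minimal filtrations whose surface has bounded valence

(module GOODF of the blueprint)
-/

open Set MeasureTheory Manifold Bundle Filter Topology
open scoped ContDiff ENNReal NNReal

namespace SepFil

/-- Consequence: there are near-minimal filtrations whose surface has bounded valence. -/
theorem exists_good_filtration (N : ClosedRiem 3) (hT : Nonempty (SmoothTri 3 N.carrier))
    {ρ ε : ℝ≥0∞} (hρ : 0 < ρ) (hε : 0 < ε) :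
    ∃ Z : ℕ → Set N.carrier, IsSepFiltration 3 ρ Z ∧ IsNearMinimal 3 ρ ε Z ∧
      IsGoodSurface 3 valence (Z 2) := by
  obtain ⟨T⟩ := hT
  have huniv : IsSubcomplexSet 3 3 (univ : Set N.carrier) := T.isSubcomplexSet_univ
  obtain ⟨Y₀, hY₀, hY₀s⟩ := exists_separating N huniv hρ
  have hε2 : 0 < ε / 2 := ENNReal.half_pos hε.ne'
  set S : Set ℝ≥0∞ := {a | ∃ Y : Set N.carrier, IsSubcomplexSet 3 2 Y ∧
    IsSeparating ρ univ Y ∧ area 2 Y = a} with hS
  obtain ⟨Z, hZ, hZs, hZm⟩ : ∃ Z : Set N.carrier, IsSubcomplexSet 3 2 Z ∧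
      IsSeparating ρ univ Z ∧ ∀ Y : Set N.carrier, IsSubcomplexSet 3 2 Y →
        IsSeparating ρ univ Y → area 2 Z ≤ area 2 Y + ε / 2 := by
    by_cases htop : sInf S = ⊤
    · refine ⟨Y₀, hY₀, hY₀s, fun Y hY hYs => ?_⟩
      have h1 : sInf S ≤ area 2 Y := sInf_le ⟨Y, hY, hYs, rfl⟩
      rw [htop, top_le_iff] at h1
      rw [h1, top_add]
      exact le_top
    · have hlt : sInf S < sInf S + ε / 2 := ENNReal.lt_add_right htop hε2.ne'
      obtain ⟨a, ⟨Z, hZ, hZs, rfl⟩, ha⟩ := sInf_lt_iff.1 hlt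
      refine ⟨Z, hZ, hZs, fun Y hY hYs => ha.le.trans ?_⟩
      exact add_le_add (sInf_le ⟨Y, hY, hYs, rfl⟩) le_rfl
  obtain ⟨Z', hgood, hsep, harea⟩ := exists_good_surface N hρ hε2 hZ hZs
  have hmin : ∀ Y : Set N.carrier, IsSubcomplexSet 3 2 Y → IsSeparating ρ univ Y →
      area 2 Z' ≤ area 2 Y + ε := by
    intro Y hY hYs
    refine harea.trans ?_
    calc area 2 Z + ε / 2 ≤ (area 2 Y + ε / 2) + ε / 2 := add_le_add (hZm Y hY hYs) le_rfl
      _ = area 2 Y + ε := by rw [add_assoc, ENNReal.add_halves]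
  obtain ⟨W, hW1, hW2, hW3⟩ := exists_filtration N hρ hε hgood.isSubcomplexSet hsep hmin
  exact ⟨W, hW1, hW2, by rw [hW3]; exact hgood⟩

end SepFil
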