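import Pool.Agent.SepFil.Neck
import Pool.Agent.SepFil.Eilenberg

/-!
# Lower bound for the length of `Z₁` in coverings of `S × S¹`

(module LEN of the blueprint)
-/

open Set MeasureTheory Manifold Bundle Filter Topology
open scoped ContDiff ENNReal NNReal

namespace SepFil

/-- The lower bound for the length. -/
theorem length_lower_bound {R : ClosedRiem 3} (e : Diffeomorph (𝓡 3) (𝓡 3) R.carrier M444 ∞)
    {b : ℝ} (hb : 0 < b) (hlip : LipschitzWith 1 (fun x : R.carrier => b * ((e x).2 : ℂ).re))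
    {N : ClosedRiem 3} {p : N.carrier → R.carrier}
    (hp : IsRiemCover 3 p) {d : ℕ} (hd : ∀ x, (p ⁻¹' {x}).ncard = d)
    {B : ℕ} (hB : 2 ≤ B) {Z₂ Z₁ : Set N.carrier} (h₂ : IsGoodSurface 3 B Z₂)
    (h₁ : IsSubcomplexSet 3 1 Z₁)
    (s₂ : IsSeparating (sys N.carrier / 2) univ Z₂)
    (s₁ : IsSeparating (sys N.carrier / 2) Z₂ Z₁) :
    ENNReal.ofReal (16 * b * d / B) ≤ area 1 Z₁ := by
  have hB0 : (0 : ℝ) < B := by exact_mod_cast (by omega : 0 < B)
  set n : ℕ := ⌈(8 * d : ℝ) / B⌉₊ with hn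
  have hφ : LipschitzWith 1 (fun x : N.carrier => b * ((e (p x)).2 : ℂ).re) := by
    have := hlip.comp hp.lipschitz
    rw [one_mul] at this
    exact this
  have hae : ∀ᵐ τ : ℝ, |τ| < b → (n : ℕ∞) ≤
      (Z₁ ∩ (fun x => b * ((e (p x)).2 : ℂ).re) ⁻¹' {τ}).encard := by
    filter_upwards [slice_count e hb hp hd hB h₂ h₁ s₂ s₁] with τ hτ hτb
    rcases (Z₁ ∩ (fun x => b * ((e (p x)).2 : ℂ).re) ⁻¹' {τ}).finite_or_infinite with hf | hi
    · have h1 := hτ hτb hf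
      rw [← hf.cast_ncard_eq]
      have h2 : n ≤ (Z₁ ∩ (fun x => b * ((e (p x)).2 : ℂ).re) ⁻¹' {τ}).ncard := by
        rw [hn, Nat.ceil_le, div_le_iff₀ hB0, mul_comm _ (B : ℝ)]
        exact_mod_cast h1
      exact_mod_cast h2
    · rw [hi.encard_eq]
      exact le_top
  refine le_trans ?_ (mul_le_area_one Z₁ hφ n hb hae)
  have h3 : (8 * d : ℝ) / B ≤ n := Nat.le_ceil _
  have h4 : ENNReal.ofReal (2 * b) * (n : ℝ≥0∞) = ENNReal.ofReal (2 * b * n) := by
    rw [← ENNReal.ofReal_natCast, ← ENNReal.ofReal_mul (by positivity)]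
  rw [h4]
  refine ENNReal.ofReal_le_ofReal ?_
  calc 16 * b * d / B = 2 * b * (8 * d / B) := by ring
    _ ≤ 2 * b * n := mul_le_mul_of_nonneg_left h3 (by positivity)

end SepFil
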