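import Pool.Agent.SepFil.Defs

/-!
# Riemannian coverings: number of sheets, local sections

(module SHEETS of the blueprint)
-/

open Set MeasureTheory Manifold Bundle Filter Topology
open scoped ContDiff ENNReal NNReal

namespace SepFil

variable {n : ℕ} {N M : ClosedRiem n} {p : N.carrier → M.carrier}

/-- The number of sheets. -/
theorem IsRiemCover.exists_sheets (hp : IsRiemCover n p) :
    ∃ d : ℕ, 0 < d ∧ ∀ x, (p ⁻¹' {x}).ncard = d := by
  have hloc : IsLocallyConstant (fun x : M.carrier => (p ⁻¹' {x}).ncard) := by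
    rw [IsLocallyConstant.iff_eventually_eq]
    intro x
    obtain ⟨hd, U, hxU, hU, hfU, H, hH⟩ := hp.isCovering x
    filter_upwards [hU.mem_nhds hxU] with y hy
    have h1 : IsEvenlyCovered p y (p ⁻¹' {x}) := ⟨hd, U, hy, hU, hfU, H, hH⟩
    exact (Nat.card_congr h1.fiberHomeomorph.toEquiv).symm
  obtain ⟨z⟩ : Nonempty N.carrier := inferInstance
  refine ⟨(p ⁻¹' {p z}).ncard, ?_, fun x => hloc.apply_eq_of_preconnectedSpace x (p z)⟩
  exact (Set.ncard_pos (hp.finite_fiber _)).2 ⟨z, rfl⟩

/-- A Riemannian covering is smooth. -/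
theorem IsRiemCover.smooth (hp : IsRiemCover n p) : ContMDiff (𝓡 n) (𝓡 n) ∞ p :=
  hp.localDiffeo.contMDiff

/-- A Riemannian covering is a local diffeomorphism: it has smooth local sections. -/
theorem IsRiemCover.exists_local_section (hp : IsRiemCover n p) (y : N.carrier) :
    ∃ s : M.carrier → N.carrier, ContMDiffAt (𝓡 n) (𝓡 n) ∞ s (p y) ∧ s (p y) = y ∧
      (∀ᶠ x in 𝓝 (p y), p (s x) = x) ∧ (∀ᶠ z in 𝓝 y, s (p z) = z) := by
  have h := hp.localDiffeo y
  exact ⟨h.localInverse, h.localInverse_contMDiffAt,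
    h.localInverse_left_inv h.localInverse_mem_target, h.localInverse_eventuallyEq_right,
    h.localInverse_eventuallyEq_left⟩

/-- The derivative of a Riemannian covering is injective. -/
theorem IsRiemCover.mfderiv_injective (hp : IsRiemCover n p) (y : N.carrier) :
    Function.Injective (mfderiv (𝓡 n) (𝓡 n) p y) := by
  have h := (hp.localDiffeo y).mfderivToContinuousLinearEquiv_coe (by simp)
  rw [← h]
  exact ((hp.localDiffeo y).mfderivToContinuousLinearEquiv (by simp)).injective

/-- If `g` is locally shorter than the `C¹` curve `γ`, then so it is globally. -/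
theorem edist_le_pathELength_of_local {X : Type*} [PseudoEMetricSpace X] (M : ClosedRiem n)
    {γ : ℝ → M.carrier} (hγ : ContMDiffOn 𝓘(ℝ, ℝ) (𝓡 n) 1 γ (Icc 0 1)) (g : unitInterval → X)
    (hloc : ∀ τ : unitInterval, ∃ W : Set unitInterval, IsOpen W ∧ τ ∈ W ∧
      ∀ s ∈ W, ∀ s' ∈ W, edist (g s) (g s') ≤ edist (γ s) (γ s')) :
    edist (g 0) (g 1) ≤ pathELength (𝓡 n) γ 0 1 := by
  choose W hWo hW hWd using hloc
  obtain ⟨t, ht0, htm, ⟨m, hm⟩, htc⟩ := exists_monotone_Icc_subset_open_cover_unitInterval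
    hWo (fun τ _ => mem_iUnion.2 ⟨τ, hW τ⟩)
  have key : ∀ k : ℕ, edist (g 0) (g (t k)) ≤ pathELength (𝓡 n) γ 0 (t k) := by
    intro k
    induction k with
    | zero => rw [ht0, edist_self]; exact bot_le
    | succ k ih =>
      obtain ⟨i, hi⟩ := htc k
      have hle : t k ≤ t (k + 1) := htm (Nat.le_succ k)
      have h1 : edist (g (t k)) (g (t (k + 1))) ≤ edist (γ (t k)) (γ (t (k + 1))) :=
        hWd i _ (hi (left_mem_Icc.2 hle)) _ (hi (right_mem_Icc.2 hle))
      have hsub : Icc ((t k : unitInterval) : ℝ) (t (k + 1)) ⊆ Icc 0 1 :=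
        Icc_subset_Icc (t k).2.1 (t (k + 1)).2.2
      have h2 : edist (γ (t k)) (γ (t (k + 1))) ≤ pathELength (𝓡 n) γ (t k) (t (k + 1)) := by
        rw [IsRiemannianManifold.out (I := 𝓡 n)]
        exact riemannianEDist_le_pathELength (hγ.mono hsub) rfl rfl hle
      calc edist (g 0) (g (t (k + 1)))
          ≤ edist (g 0) (g (t k)) + edist (g (t k)) (g (t (k + 1))) := edist_triangle _ _ _
        _ ≤ pathELength (𝓡 n) γ 0 (t k) + pathELength (𝓡 n) γ (t k) (t (k + 1)) :=
            add_le_add ih (h1.trans h2)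
        _ = pathELength (𝓡 n) γ 0 (t (k + 1)) := pathELength_add (t k).2.1 hle
  have := key m
  rw [hm m le_rfl] at this
  exact this

/-- Riemannian coverings do not increase distances. -/
theorem IsRiemCover.lipschitz (hp : IsRiemCover n p) : LipschitzWith 1 p := by
  intro x y
  rw [ENNReal.coe_one, one_mul, IsRiemannianManifold.out (I := 𝓡 n) x y]
  refine le_of_forall_gt fun r hr => ?_
  obtain ⟨γ, h0, h1, hs, hl⟩ := exists_lt_of_riemannianEDist_lt hr
  have hcont : Continuous (fun s : unitInterval => γ s) :=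
    hs.continuousOn.comp_continuous continuous_subtype_val fun s => s.2
  have := edist_le_pathELength_of_local N hs (fun s => p (γ s)) fun τ => by
    obtain ⟨U, hU, hUd⟩ := hp.isometric (γ τ)
    obtain ⟨V, hVU, hVo, hV⟩ := mem_nhds_iff.1 hU
    refine ⟨(fun s : unitInterval => γ s) ⁻¹' V, hVo.preimage hcont, hV, fun s hs s' hs' => ?_⟩
    exact (hUd _ (hVU hs) _ (hVU hs')).le
  refine lt_of_le_of_lt ?_ hl
  have e0 : γ ((0 : unitInterval) : ℝ) = x := by simpa using h0
  have e1 : γ ((1 : unitInterval) : ℝ) = y := by simpa using h1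
  simpa only [e0, e1] using this

end SepFil
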