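import Pool.Agent.SepFil.LiftTop
import Pool.Agent.SepFil.Sheets
import Pool.Agent.SepFil.Param

/-!
# Lifting smooth triangulations

(module LIFTS of the blueprint)
-/

open Set MeasureTheory Manifold Bundle Filter Topology
open scoped ContDiff ENNReal NNReal

namespace SepFil

section Push

variable {V' V : Type*} [Fintype V'] [DecidableEq V]

/-- `push` as a linear map. -/
def pushL (q : V' → V) : (V' → ℝ) →ₗ[ℝ] (V → ℝ) where
  toFun := push q
  map_add' := by
    intro a b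
    funext v
    simp only [push, Pi.add_apply, Finset.sum_add_distrib]
  map_smul' := by
    intro c a
    funext v
    simp only [push, Pi.smul_apply, smul_eq_mul, Finset.mul_sum, RingHom.id_apply]

/-- `push` as a continuous linear map. -/
noncomputable def pushC (q : V' → V) [Fintype V] : (V' → ℝ) →L[ℝ] (V → ℝ) :=
  LinearMap.toContinuousLinearMap (pushL q)

lemma pushC_apply [Fintype V] (q : V' → V) (t : V' → ℝ) : pushC q t = push q t := rfl

lemma sum_push [Fintype V] (q : V' → V) (t : V' → ℝ) : ∑ v, push q t v = ∑ v', t v' := by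
  unfold push
  rw [Finset.sum_fiberwise]

lemma push_eq_zero {q : V' → V} {t : V' → ℝ} {s : Finset V'} (h : ∀ v ∉ s, t v = 0) :
    ∀ v ∉ s.image q, push q t v = 0 := by
  intro v hv
  unfold push
  apply Finset.sum_eq_zero
  intro v' hv'
  rw [Finset.mem_filter] at hv'
  apply h
  intro hs
  exact hv (Finset.mem_image.mpr ⟨v', hs, hv'.2⟩)

lemma push_apply_of_injOn {q : V' → V} {t : V' → ℝ} {s : Finset V'} (h : ∀ v ∉ s, t v = 0)
    (hq : InjOn q s) {v' : V'} (hv' : v' ∈ s) : push q t (q v') = t v' := by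
  unfold push
  rw [Finset.sum_eq_single_of_mem v' (by simp)]
  intro w hw hne
  rw [Finset.mem_filter] at hw
  apply h
  intro hs
  exact hne (hq hs hv' hw.2)

lemma supp_push_subset [Fintype V] {q : V' → V} {t : V' → ℝ} {s : Finset V'} (h : supp t ⊆ s) :
    supp (push q t) ⊆ s.image q := by
  intro v hv
  by_contra hn
  have h1 : ∀ v ∉ s, t v = 0 := by
    intro v hv
    by_contra h2
    exact hv (h (by simpa [supp] using h2))
  have h2 := push_eq_zero (q := q) h1 v hn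
  simp [supp] at hv
  exact hv h2

end Push

variable {n : ℕ} {N M : ClosedRiem n} {p : N.carrier → M.carrier}

/-- Smooth triangulations lift to coverings. -/
theorem IsRiemCover.nonempty_smoothTri (hp : IsRiemCover n p) (T : SmoothTri n M.carrier) :
    Nonempty (SmoothTri n N.carrier) := by
  obtain ⟨d, -, hd⟩ := hp.exists_sheets
  obtain ⟨V', fV', dV', K', q, h', hcov, hc', hb', hpush⟩ :=
    exists_lift_tri T.K T.h T.cont T.bij p hp.isCovering d hd hp.finite_fiber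
  refine ⟨@SmoothTri.mk n N.carrier _ _ V' fV' dV' K' h' hc' hb' ?_⟩
  intro s hs x hx hxs
  obtain ⟨hpx, hph⟩ := hpush x hx
  obtain ⟨g, hg1, hg2, hg3⟩ := T.smoothM (s.image q) (hcov.image_mem s hs) (push q x) hpx
    (supp_push_subset hxs)
  obtain ⟨σ, hσ1, hσ2, hσ3, hσ4⟩ := hp.exists_local_section (h' x)
  have hgx : g (push q x) = p (h' x) := by
    rw [hph]
    exact hg2.self_of_nhds hpx (supp_push_subset hxs)
  have hcont : ContinuousAt (pushC q) x := (pushC q).continuous.continuousAt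
  have hpc : ContMDiffAt 𝓘(ℝ, V' → ℝ) 𝓘(ℝ, T.V → ℝ) ∞ (pushC q) x :=
    (pushC q).contMDiff.contMDiffAt
  have hgc : ContMDiffAt 𝓘(ℝ, V' → ℝ) (𝓡 n) ∞ (g ∘ pushC q) x :=
    ContMDiffAt.comp x hg1 hpc
  have hσ1' : ContMDiffAt (𝓡 n) (𝓡 n) ∞ σ ((g ∘ pushC q) x) := by
    show ContMDiffAt (𝓡 n) (𝓡 n) ∞ σ (g (push q x))
    rw [hgx]; exact hσ1
  have hg'c : ContMDiffAt 𝓘(ℝ, V' → ℝ) (𝓡 n) ∞ (σ ∘ (g ∘ pushC q)) x :=
    ContMDiffAt.comp x hσ1' hgc
  refine smooth_of_mfderiv ⟨σ ∘ (g ∘ pushC q), hg'c, ?_, ?_⟩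
  · have h1 : ∀ᶠ y in 𝓝 x, push q y ∈ T.K.real → supp (push q y) ⊆ s.image q →
        g (push q y) = T.h (push q y) := hcont.eventually hg2
    have h2 : ∀ᶠ y in 𝓝 x, y ∈ K'.real → σ (p (h' y)) = h' y := by
      have h3 : ∀ᶠ y in 𝓝[K'.real] x, σ (p (h' y)) = h' y := (hc' x hx).eventually hσ4
      exact eventually_nhdsWithin_iff.mp h3
    filter_upwards [h1, h2] with y hy1 hy2 hyK hys
    show σ (g (push q y)) = h' y
    rw [hy1 (hpush y hyK).1 (supp_push_subset hys), ← (hpush y hyK).2]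
    exact hy2 hyK
  · intro u hu0 hus hu
    have hev : p ∘ (σ ∘ (g ∘ pushC q)) =ᶠ[𝓝 x] g ∘ pushC q := by
      have h1 : ∀ᶠ z in 𝓝 (g (push q x)), p (σ z) = z := by rw [hgx]; exact hσ3
      have h2 : ∀ᶠ y in 𝓝 x, p (σ ((g ∘ pushC q) y)) = (g ∘ pushC q) y :=
        hgc.continuousAt.eventually h1
      exact h2
    have hd1 : MDifferentiableAt 𝓘(ℝ, V' → ℝ) (𝓡 n) (σ ∘ (g ∘ pushC q)) x :=
      hg'c.mdifferentiableAt (by simp)
    have hd2 : MDifferentiableAt (𝓡 n) (𝓡 n) p ((σ ∘ (g ∘ pushC q)) x) :=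
      (hp.smooth _).mdifferentiableAt (by simp)
    have hd3 : MDifferentiableAt 𝓘(ℝ, T.V → ℝ) (𝓡 n) g (pushC q x) :=
      hg1.mdifferentiableAt (by simp)
    have hd4 : MDifferentiableAt 𝓘(ℝ, V' → ℝ) 𝓘(ℝ, T.V → ℝ) (pushC q) x :=
      hpc.mdifferentiableAt (by simp)
    have e1 := mfderiv_comp x hd2 hd1
    have e2 := mfderiv_comp x hd3 hd4
    rw [hev.mfderiv_eq] at e1
    have h5 : mfderiv 𝓘(ℝ, V' → ℝ) (𝓡 n) (g ∘ pushC q) x u = 0 := by
      rw [e1]
      show mfderiv (𝓡 n) (𝓡 n) p ((σ ∘ (g ∘ pushC q)) x)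
        (mfderiv 𝓘(ℝ, V' → ℝ) (𝓡 n) (σ ∘ (g ∘ pushC q)) x u) = 0
      rw [hu]
      exact map_zero _
    have h6 : mfderiv 𝓘(ℝ, T.V → ℝ) (𝓡 n) g (push q x) (push q u) = 0 := by
      rw [e2] at h5
      have h7 : mfderiv 𝓘(ℝ, V' → ℝ) 𝓘(ℝ, T.V → ℝ) (pushC q) x = pushC q := by
        rw [mfderiv_eq_fderiv]
        exact (pushC q).fderiv
      rw [h7] at h5
      exact h5
    have h8 := hg3 (push q u) (by rw [sum_push]; exact hu0) (push_eq_zero hus) h6
    funext v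
    by_cases hv : v ∈ s
    · rw [← push_apply_of_injOn hus (hcov.injOn s hs) hv, h8]
      rfl
    · exact hus v hv

end SepFil
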