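import Pool.Agent.SepFil.Surf

/-!
# Lifting triangulations through finite coverings

(module LIFT of the blueprint)
-/

open Set Filter Topology
open scoped ENNReal

set_option linter.unusedSectionVars false

namespace SepFil

/-- Push forward of a weight function. -/
def push {V' V : Type*} [Fintype V'] [DecidableEq V] (q : V' → V) (t : V' → ℝ) : V → ℝ :=
  fun v => ∑ v' ∈ Finset.univ.filter (fun v' => q v' = v), t v'

section PushAux

variable {V' V : Type*} [Fintype V'] [DecidableEq V] {q : V' → V}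

lemma lift_push_apply {s' : Finset V'} (hq : InjOn q s') {t : V' → ℝ} (ht : supp t ⊆ s')
    {v' : V'} (hv' : v' ∈ s') : push q t (q v') = t v' := by
  classical
  unfold push
  rw [Finset.sum_eq_single v']
  · intro w hw hne
    by_contra h
    exact hne (hq (ht (mem_supp.2 h)) hv' (Finset.mem_filter.1 hw).2)
  · intro h
    exact absurd (by simp) h

lemma lift_push_nonneg {t : V' → ℝ} (ht : ∀ v, 0 ≤ t v) (v : V) : 0 ≤ push q t v :=
  Finset.sum_nonneg fun w _ => ht w

lemma lift_sum_push [Fintype V] (t : V' → ℝ) : ∑ v, push q t v = ∑ v, t v := by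
  classical
  unfold push
  exact Finset.sum_fiberwise _ _ _

lemma lift_supp_push [Fintype V] {t : V' → ℝ} (ht : ∀ v, 0 ≤ t v) :
    supp (push q t) = (supp t).image q := by
  ext v
  simp only [mem_supp, Finset.mem_image]
  constructor
  · intro h
    obtain ⟨w, hw, hne⟩ := Finset.exists_ne_zero_of_sum_ne_zero h
    exact ⟨w, hne, (Finset.mem_filter.1 hw).2⟩
  · rintro ⟨w, hw, rfl⟩
    have h1 : t w ≤ push q t (q w) :=
      Finset.single_le_sum (f := t) (fun u _ => ht u)
        (Finset.mem_filter.2 ⟨Finset.mem_univ _, rfl⟩)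
    have h2 : 0 < t w := lt_of_le_of_ne (ht w) (Ne.symm hw)
    linarith

lemma lift_push_mem_cface [Fintype V] {s' : Finset V'} {t : V' → ℝ} (ht : t ∈ cface s') :
    push q t ∈ cface (s'.image q) := by
  refine ⟨lift_push_nonneg ht.1, ?_, ?_⟩
  · rw [lift_sum_push]; exact ht.2.1
  · rw [lift_supp_push ht.1]
    exact Finset.image_subset_image ht.2.2

lemma lift_continuous_push : Continuous (push q : (V' → ℝ) → V → ℝ) := by
  refine continuous_pi fun v => ?_
  unfold push
  exact continuous_finsetSum _ fun w _ => continuous_apply w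

end PushAux

section Lift

variable {V : Type} [Fintype V] [DecidableEq V] {X Y : Type} [TopologicalSpace X]
  [TopologicalSpace Y]

/-- `ℓ` is a lift of `h` over the closed face `s`. -/
structure IsFL (K : ASC V) (h : (V → ℝ) → X) (p : Y → X) (s : Finset V) (l : (V → ℝ) → Y) :
    Prop where
  mem : s ∈ K.faces
  cont : ContinuousOn l (cface s)
  lift : ∀ t ∈ cface s, p (l t) = h t

variable {K : ASC V} {h : (V → ℝ) → X} {p : Y → X}

lemma IsFL.mono {s t : Finset V} {l : (V → ℝ) → Y} (H : IsFL K h p s l) (ht : t ∈ K.faces)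
    (hts : t ⊆ s) : IsFL K h p t l :=
  ⟨ht, H.cont.mono (cface_mono hts), fun x hx => H.lift x (cface_mono hts hx)⟩

lemma IsFL.eqOn (hp : IsCoveringMap p) {s : Finset V} {l l' : (V → ℝ) → Y}
    (H : IsFL K h p s l) (H' : IsFL K h p s l') {x : V → ℝ} (hx : x ∈ cface s)
    (he : l x = l' x) : EqOn l l' (cface s) :=
  hp.eqOn_of_comp_eqOn (convex_cface s).isPreconnected H.cont H'.cont
    (fun t ht => by simp only [Function.comp_apply]; rw [H.lift t ht, H'.lift t ht]) hx he

lemma exists_isFL (hp : IsCoveringMap p) (hc : ContinuousOn h K.real) {s : Finset V}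
    (hs : s ∈ K.faces) {x : V → ℝ} (hx : x ∈ cface s) {y : Y} (hy : p y = h x) :
    ∃ l, IsFL K h p s l ∧ l x = y := by
  classical
  have h1 : ContractibleSpace (cface s) := (convex_cface s).contractibleSpace ⟨x, hx⟩
  have h2 : LocallyPathConnectedSpace (cface s) := (convex_cface s).locallyPathConnectedSpace
  have hcs : ContinuousOn h (cface s) := hc.mono (cface_subset_real K hs)
  obtain ⟨F, ⟨hF1, hF2⟩, -⟩ := hp.existsUnique_continuousMap_lifts
    (⟨(cface s).domRestrict h, continuousOn_iff_continuous_domRestrict.1 hcs⟩ : C(cface s, X))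
    ⟨x, hx⟩ y hy
  refine ⟨fun t => if ht : t ∈ cface s then F ⟨t, ht⟩ else y, ⟨hs, ?_, ?_⟩, ?_⟩
  · rw [continuousOn_iff_continuous_domRestrict]
    have : (cface s).domRestrict (fun t => if ht : t ∈ cface s then F ⟨t, ht⟩ else y) = F := by
      funext t
      simp [Set.domRestrict]
    rw [this]
    exact F.continuous
  · intro t ht
    simp only [ht, dite_true]
    exact congrFun hF2 ⟨t, ht⟩
  · simp only [hx, dite_true]
    exact hF1

/-- The vertices of the lifted complex. -/
abbrev LV (h : (V → ℝ) → X) (p : Y → X) : Type := Σ v : V, {y : Y // p y = h (vtx v)}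

/-- A finite set of vertices is a lifted face if it consists of the values of a lift. -/
def LFace (K : ASC V) (h : (V → ℝ) → X) (p : Y → X) (s' : Finset (LV h p)) (s : Finset V)
    (l : (V → ℝ) → Y) : Prop :=
  IsFL K h p s l ∧ (∀ v' ∈ s', v'.1 ∈ s ∧ l (vtx v'.1) = v'.2) ∧ ∀ v ∈ s, ∃ v' ∈ s', v'.1 = v

lemma LFace.image {s' : Finset (LV h p)} {s : Finset V} {l : (V → ℝ) → Y}
    (H : LFace K h p s' s l) : s'.image Sigma.fst = s := by
  ext v
  rw [Finset.mem_image]
  constructor
  · rintro ⟨v', hv', rfl⟩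
    exact (H.2.1 v' hv').1
  · intro hv
    exact H.2.2 v hv

lemma LFace.injOn {s' : Finset (LV h p)} {s : Finset V} {l : (V → ℝ) → Y}
    (H : LFace K h p s' s l) : InjOn Sigma.fst (s' : Set (LV h p)) := by
  rintro ⟨v, y⟩ hv ⟨w, z⟩ hw (rfl : v = w)
  have h1 := (H.2.1 _ hv).2
  have h2 := (H.2.1 _ hw).2
  have h3 : y = z := Subtype.ext (by simp only at h1 h2; rw [← h1, ← h2])
  rw [h3]

lemma LFace.subset {s' t' : Finset (LV h p)} {s : Finset V} {l l' : (V → ℝ) → Y}
    (H : LFace K h p s' s l) (H' : LFace K h p t' s l') (he : ∀ v ∈ s, l (vtx v) = l' (vtx v)) :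
    s' ⊆ t' := by
  rintro ⟨v, y⟩ hv
  obtain ⟨h1, h2⟩ := H.2.1 _ hv
  obtain ⟨⟨w, z⟩, hw, hwv⟩ := H'.2.2 v h1
  simp only at hwv h1 h2
  subst hwv
  have h3 := (H'.2.1 _ hw).2
  simp only at h3
  have h4 : y = z := Subtype.ext (by rw [← h2, ← h3]; exact he _ h1)
  rw [h4]
  exact hw

lemma LFace.eq {s' t' : Finset (LV h p)} {s : Finset V} {l l' : (V → ℝ) → Y}
    (H : LFace K h p s' s l) (H' : LFace K h p t' s l') (he : ∀ v ∈ s, l (vtx v) = l' (vtx v)) :
    s' = t' :=
  Finset.Subset.antisymm (H.subset H' he) (H'.subset H fun v hv => (he v hv).symm)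

variable [Fintype (LV h p)]

/-- The lifted face determined by a lift. -/
noncomputable def lfilt (h : (V → ℝ) → X) (p : Y → X) [Fintype (LV h p)] (s : Finset V)
    (l : (V → ℝ) → Y) : Finset (LV h p) :=
  open Classical in Finset.univ.filter (fun v' => v'.1 ∈ s ∧ l (vtx v'.1) = v'.2)

lemma mem_lfilt {s : Finset V} {l : (V → ℝ) → Y} {v' : LV h p} :
    v' ∈ lfilt h p s l ↔ v'.1 ∈ s ∧ l (vtx v'.1) = v'.2 := by
  classical
  unfold lfilt
  simp

lemma lface_lfilt {s : Finset V} {l : (V → ℝ) → Y} (H : IsFL K h p s l) :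
    LFace K h p (lfilt h p s l) s l := by
  refine ⟨H, ?_, ?_⟩
  · intro v' hv'
    exact mem_lfilt.1 hv'
  · intro v hv
    exact ⟨⟨v, ⟨l (vtx v), H.lift _ (vtx_mem_cface hv)⟩⟩, mem_lfilt.2 ⟨hv, rfl⟩, rfl⟩

/-- The lifted complex. -/
def liftCpx (K : ASC V) (h : (V → ℝ) → X) (p : Y → X) : ASC (LV h p) where
  faces := {s' | ∃ s l, LFace K h p s' s l}
  nonempty_of_mem := by
    rintro s' ⟨s, l, H⟩
    obtain ⟨v, hv⟩ := K.nonempty_of_mem s H.1.mem
    obtain ⟨v', hv', -⟩ := H.2.2 v hv
    exact ⟨v', hv'⟩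
  down_closed := by
    classical
    rintro s' ⟨s, l, H⟩ t' hts ht
    have h1 : t'.image Sigma.fst ⊆ s := by
      rw [← H.image]
      exact Finset.image_subset_image hts
    have h2 : t'.image Sigma.fst ∈ K.faces := K.down_closed s H.1.mem _ h1 (ht.image _)
    refine ⟨t'.image Sigma.fst, l, H.1.mono h2 h1, ?_, ?_⟩
    · intro v' hv'
      exact ⟨Finset.mem_image_of_mem _ hv', (H.2.1 v' (hts hv')).2⟩
    · intro v hv
      exact Finset.mem_image.1 hv

/-- The lifted parametrisation. -/
noncomputable def liftMap [Nonempty Y] (K : ASC V) (h : (V → ℝ) → X) (p : Y → X)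
    [Fintype (LV h p)] (t : LV h p → ℝ) : Y :=
  open Classical in
  if H : ∃ (s : Finset V) (l : (V → ℝ) → Y), LFace K h p (supp t) s l then
    H.choose_spec.choose (push Sigma.fst t) else Classical.choice inferInstance

lemma liftMap_eq [Nonempty Y] (hp : IsCoveringMap p) {s' : Finset (LV h p)} {s : Finset V}
    {l : (V → ℝ) → Y} (H : LFace K h p s' s l) {t : LV h p → ℝ} (ht : t ∈ cface s') :
    liftMap K h p t = l (push Sigma.fst t) := by
  classical
  have hs' : supp t ∈ (liftCpx K h p).faces :=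
    (liftCpx K h p).down_closed s' ⟨s, l, H⟩ _ ht.2.2 (supp_nonempty_of_sum ht.2.1)
  have hs'' : ∃ (s : Finset V) (l : (V → ℝ) → Y), LFace K h p (supp t) s l := hs'
  unfold liftMap
  rw [dif_pos hs'']
  set s₁ := hs''.choose with hs₁
  set l₁ := hs''.choose_spec.choose with hl₁
  have H₁ : LFace K h p (supp t) s₁ l₁ := hs''.choose_spec.choose_spec
  obtain ⟨v', hv'⟩ := supp_nonempty_of_sum ht.2.1
  have h1 : s₁ ⊆ s := by
    rw [← H.image, ← H₁.image]
    exact Finset.image_subset_image ht.2.2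
  have h2 : IsFL K h p s₁ l := H.1.mono H₁.1.mem h1
  have h3 := H₁.2.1 v' hv'
  have h4 := H.2.1 v' (ht.2.2 hv')
  refine H₁.1.eqOn hp h2 (vtx_mem_cface h3.1) (h3.2.trans h4.2.symm) ?_
  rw [← H₁.image]
  exact lift_push_mem_cface ⟨ht.1, ht.2.1, subset_rfl⟩

end Lift

/-- Triangulations lift through finite coverings. -/
theorem exists_lift_tri {V : Type} [Fintype V] [DecidableEq V] (K : ASC V)
    {X Y : Type} [TopologicalSpace X] [T2Space X] [TopologicalSpace Y] [T2Space Y] [Nonempty Y]
    (h : (V → ℝ) → X) (hc : ContinuousOn h K.real) (hb : BijOn h K.real univ)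
    (p : Y → X) (hp : IsCoveringMap p) (m : ℕ) (hm : ∀ x, (p ⁻¹' {x}).ncard = m)
    (hfin : ∀ x, (p ⁻¹' {x}).Finite) :
    ∃ (V' : Type) (_ : Fintype V') (_ : DecidableEq V') (K' : ASC V') (q : V' → V)
      (h' : (V' → ℝ) → Y), IsCoverCpx m q K' K ∧ ContinuousOn h' K'.real ∧
      BijOn h' K'.real univ ∧ (∀ t ∈ K'.real, push q t ∈ K.real ∧ p (h' t) = h (push q t)) := by
  classical
  have hF : ∀ v : V, Finite {y : Y // p y = h (vtx v)} := fun v => (hfin (h (vtx v))).to_subtype
  have : Fintype (LV h p) := Fintype.ofFinite _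
  have key : ∀ t ∈ (liftCpx K h p).real, ∃ s l, LFace K h p (supp t) s l := fun t ht => ht.2.2
  have hpush : ∀ t ∈ (liftCpx K h p).real, push Sigma.fst t ∈ K.real ∧
      p (liftMap K h p t) = h (push Sigma.fst t) := by
    intro t ht
    obtain ⟨s, l, H⟩ := key t ht
    have h1 : push Sigma.fst t ∈ cface s := by
      rw [← H.image]
      exact lift_push_mem_cface ⟨ht.1, ht.2.1, subset_rfl⟩
    refine ⟨cface_subset_real K H.1.mem h1, ?_⟩
    rw [liftMap_eq hp H ⟨ht.1, ht.2.1, subset_rfl⟩]
    exact H.1.lift _ h1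
  refine ⟨LV h p, inferInstance, Classical.decEq _, liftCpx K h p, Sigma.fst, liftMap K h p,
    ⟨?_, ?_, ?_, ?_⟩, ?_, ⟨mapsTo_univ _ _, ?_, ?_⟩, hpush⟩
  · rintro s' ⟨s, l, H⟩
    exact H.injOn
  · rintro s' ⟨s, l, H⟩
    rw [H.image]
    exact H.1.mem
  · rintro v' - s hs hvs
    obtain ⟨l, hl, hlv⟩ := exists_isFL hp hc hs (vtx_mem_cface hvs) v'.2.2
    refine ⟨lfilt h p s l, ⟨⟨s, l, lface_lfilt hl⟩, ?_, (lface_lfilt hl).image⟩, ?_⟩
    · exact mem_lfilt.2 ⟨hvs, hlv⟩
    · rintro t' ⟨⟨s₁, l₁, H₁⟩, hv', hts⟩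
      have h1 : s₁ = s := by rw [← hts, H₁.image]
      subst h1
      refine H₁.eq (lface_lfilt hl) fun w hw => ?_
      exact H₁.1.eqOn hp hl (vtx_mem_cface hvs) ((H₁.2.1 v' hv').2.trans hlv.symm)
        (vtx_mem_cface hw)
  · intro v hv
    have h1 : {v' : LV h p | {v'} ∈ (liftCpx K h p).faces ∧ v'.1 = v} =
        (fun y : {y : Y // p y = h (vtx v)} => (⟨v, y⟩ : LV h p)) '' univ := by
      ext ⟨w, y⟩
      constructor
      · rintro ⟨-, h2⟩
        simp only at h2
        subst h2
        exact ⟨y, mem_univ _, rfl⟩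
      · rintro ⟨z, -, h2⟩
        rw [← h2]
        refine ⟨?_, rfl⟩
        obtain ⟨l, hl, hlv⟩ := exists_isFL hp hc hv (vtx_mem_cface (Finset.mem_singleton_self v))
          z.2
        refine ⟨{v}, l, hl, ?_, ?_⟩
        · intro u hu
          rw [Finset.mem_singleton] at hu
          subst hu
          exact ⟨Finset.mem_singleton_self _, hlv⟩
        · intro u hu
          rw [Finset.mem_singleton] at hu
          exact ⟨_, Finset.mem_singleton_self _, hu.symm⟩
    rw [h1, ncard_image_of_injective _ (fun a b hab => by simpa using hab), ncard_univ]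
    have h3 := hm (h (vtx v))
    rw [← Nat.card_coe_set_eq] at h3
    exact h3
  · rw [ASC.real_eq_iUnion]
    have h1 : (⋃ s ∈ (liftCpx K h p).faces, cface s) =
        ⋃ s : {s // s ∈ (liftCpx K h p).faces}, cface (s : Finset (LV h p)) := by
      ext t
      simp
    rw [h1]
    refine (locallyFinite_of_finite _).continuousOn_iUnion (fun s => isClosed_cface _) ?_
    rintro ⟨s', s, l, H⟩
    have h2 : EqOn (liftMap K h p) (fun t => l (push Sigma.fst t)) (cface s') :=
      fun t ht => liftMap_eq hp H ht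
    refine ContinuousOn.congr ?_ h2
    refine H.1.cont.comp lift_continuous_push.continuousOn ?_
    intro t ht
    rw [← H.image]
    exact lift_push_mem_cface ht
  · intro t ht u hu htu
    have h1 : push Sigma.fst t = push Sigma.fst u := by
      apply hb.injOn (hpush t ht).1 (hpush u hu).1
      rw [← (hpush t ht).2, ← (hpush u hu).2, htu]
    obtain ⟨s, l, H⟩ := key t ht
    obtain ⟨s₁, l₁, H₁⟩ := key u hu
    have hs : s₁ = s := by
      rw [← H.image, ← H₁.image, ← lift_supp_push ht.1, ← lift_supp_push hu.1, h1]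
    subst hs
    have h2 : push Sigma.fst t ∈ cface s₁ := by
      rw [← H.image]
      exact lift_push_mem_cface ⟨ht.1, ht.2.1, subset_rfl⟩
    have h3 : l (push Sigma.fst t) = l₁ (push Sigma.fst t) := by
      rw [← liftMap_eq hp H ⟨ht.1, ht.2.1, subset_rfl⟩, h1,
        ← liftMap_eq hp H₁ ⟨hu.1, hu.2.1, subset_rfl⟩, htu]
    have h4 : supp t = supp u :=
      H.eq H₁ fun v hv => H.1.eqOn hp H₁.1 h2 h3 (vtx_mem_cface hv)
    funext v'
    by_cases hv' : v' ∈ supp t
    · rw [← lift_push_apply H.injOn subset_rfl hv', h1,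
        lift_push_apply H₁.injOn subset_rfl (h4 ▸ hv')]
    · have h5 : v' ∉ supp u := h4 ▸ hv'
      rw [mem_supp, not_not] at hv' h5
      rw [hv', h5]
  · intro y _
    obtain ⟨x, hx, hxy⟩ := hb.surjOn (mem_univ (p y))
    have hxs : x ∈ cface (supp x) := mem_cface_supp hx
    obtain ⟨l, hl, hlx⟩ := exists_isFL hp hc hx.2.2 hxs hxy.symm
    have H := lface_lfilt (h := h) (p := p) hl
    set s' := lfilt h p (supp x) l with hs'
    let t : LV h p → ℝ := fun v' => if v' ∈ s' then x v'.1 else 0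
    have ht0 : ∀ v', 0 ≤ t v' := by
      intro v'
      simp only [t]
      split_ifs
      · exact hx.1 _
      · exact le_rfl
    have hts : supp t = s' := by
      ext v'
      rw [mem_supp]
      simp only [t]
      constructor
      · intro hne
        by_contra hn
        simp [hn] at hne
      · intro hv'
        simp only [hv', if_true]
        exact mem_supp.1 (H.2.1 v' hv').1
    have hpt : push Sigma.fst t = x := by
      funext v
      by_cases hv : v ∈ supp x
      · obtain ⟨v', hv', rfl⟩ := H.2.2 v hv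
        rw [lift_push_apply H.injOn hts.subset hv']
        simp [t, hv']
      · have h1 : v ∉ supp (push Sigma.fst t) := by
          rw [lift_supp_push ht0, hts, H.image]
          exact hv
        rw [mem_supp, not_not] at hv h1
        rw [hv, h1]
    have htc : t ∈ cface s' := by
      refine ⟨ht0, ?_, hts.subset⟩
      rw [← lift_sum_push (q := (Sigma.fst : LV h p → V)), hpt]
      exact hx.2.1
    have hsf : s' ∈ (liftCpx K h p).faces := ⟨supp x, l, H⟩
    refine ⟨t, cface_subset_real _ hsf htc, ?_⟩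
    rw [liftMap_eq hp H htc, hpt, hlx]

end SepFil
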