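import Pool.Agent.SepFil.Tri

/-!
# Local connectedness of subcomplexes

(module LOC of the blueprint)
-/

open Set MeasureTheory Manifold Bundle Filter Topology
open scoped ContDiff ENNReal NNReal

namespace SepFil

variable {n : ℕ} {N : Type*} [TopologicalSpace N] [ChartedSpace (EuclideanSpace ℝ (Fin n)) N]

/-- Subcomplexes are locally connected, in the form used for the separating filtrations. -/
theorem IsSubcomplexSet.locConn [T2Space N] {i : ℕ} {Z : Set N} (hZ : IsSubcomplexSet n i Z)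
    {y : N} (hy : y ∈ Z) {O : Set N} (hO : O ∈ 𝓝 y) :
    ∃ O' ∈ 𝓝 y, ∀ y' ∈ Z ∩ O', ∃ A ⊆ Z ∩ O, IsPreconnected A ∧ y ∈ A ∧ y' ∈ A := by
  obtain ⟨T, A, hA, -, rfl⟩ := hZ
  obtain ⟨t₀, ht₀, rfl⟩ := hy
  have hAK : A.real ⊆ T.K.real := real_mono hA
  -- a small ball around `t₀` is mapped into `O` and the carrier of `t₀` is contained in all
  -- the carriers of its points
  have h1 : ∀ᶠ t in 𝓝[T.K.real] t₀, T.h t ∈ O := T.cont t₀ (hAK ht₀) hO
  obtain ⟨r, hr, hr'⟩ := Metric.mem_nhdsWithin_iff.1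
    (Filter.inter_mem h1 (mem_nhdsWithin_of_mem_nhds (eventually_supp_subset t₀)))
  -- the image of the complement of the ball is closed
  have hcomp : IsCompact (T.K.real \ Metric.ball t₀ r) :=
    T.K.isCompact_real.diff Metric.isOpen_ball
  have hcl : IsClosed (T.h '' (T.K.real \ Metric.ball t₀ r)) :=
    (hcomp.image_of_continuousOn (T.cont.mono diff_subset)).isClosed
  refine ⟨(T.h '' (T.K.real \ Metric.ball t₀ r))ᶜ, hcl.isOpen_compl.mem_nhds ?_, ?_⟩
  · rintro ⟨t, ht, hte⟩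
    have := T.bij.injOn ht.1 (hAK ht₀) hte
    exact ht.2 (this ▸ Metric.mem_ball_self hr)
  · rintro y' ⟨⟨t, ht, rfl⟩, hy'⟩
    have htb : t ∈ Metric.ball t₀ r := by
      by_contra h
      exact hy' ⟨t, ⟨hAK ht, h⟩, rfl⟩
    have hts : supp t₀ ⊆ supp t := (hr' ⟨htb, hAK ht⟩).2
    have hseg : segment ℝ t₀ t ⊆ cface (supp t) :=
      (convex_cface _).segment_subset ⟨ht₀.1, ht₀.2.1, hts⟩ (mem_cface_supp ht)
    have hsegA : segment ℝ t₀ t ⊆ A.real := hseg.trans (cface_subset_real A ht.2.2)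
    have hsegb : segment ℝ t₀ t ⊆ Metric.ball t₀ r :=
      (convex_ball t₀ r).segment_subset (Metric.mem_ball_self hr) htb
    refine ⟨T.h '' segment ℝ t₀ t, ?_, ?_, ⟨t₀, left_mem_segment ℝ _ _, rfl⟩,
      ⟨t, right_mem_segment ℝ _ _, rfl⟩⟩
    · rintro _ ⟨u, hu, rfl⟩
      exact ⟨⟨u, hsegA hu, rfl⟩, (hr' ⟨hsegb hu, hAK (hsegA hu)⟩).1⟩
    · exact (convex_segment t₀ t).isPreconnected.image _ (T.cont.mono (hsegA.trans hAK))

end SepFil
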