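import Pool.Agent.SepFil.ExM
import Pool.Agent.SepFil.ExST
import Pool.Agent.SepFil.Param

/-!
# A smooth triangulation of `S × S¹`

(module TRIM of the blueprint)
-/

open Set MeasureTheory Manifold Bundle Filter Topology
open scoped ContDiff ENNReal NNReal

namespace SepFil

section Prism

variable {V : Type} [Fintype V]

lemma sum_zmod3 (f : ZMod 3 → ℝ) (j : ZMod 3) : ∑ a, f a = f j + f (j + 1) + f (j + 2) := by
  have h : ∑ a : ZMod 3, f a = f 0 + f 1 + f 2 := Fin.sum_univ_three f
  rw [h]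
  have h11 : (1 : ZMod 3) + 1 = 2 := by decide
  have h12 : (1 : ZMod 3) + 2 = 0 := by decide
  have h21 : (2 : ZMod 3) + 1 = 0 := by decide
  have h22 : (2 : ZMod 3) + 2 = 1 := by decide
  have hj : j = 0 ∨ j = 1 ∨ j = 2 := by
    revert j
    decide
  rcases hj with rfl | rfl | rfl
  · simp
  · rw [h11, h12]
    ring
  · rw [h21, h22]
    ring

/-- adding up the weights of the copies of a vertex -/
noncomputable def pushV : (V × ZMod 3 → ℝ) →L[ℝ] (V → ℝ) :=
  ContinuousLinearMap.pi fun v => ∑ a : ZMod 3, ContinuousLinearMap.proj (v, a)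

/-- the total weight at a level -/
noncomputable def lev (j : ZMod 3) : (V × ZMod 3 → ℝ) →L[ℝ] ℝ :=
  ∑ v : V, ContinuousLinearMap.proj (v, j)

omit [Fintype V] in
lemma pushV_apply (y : V × ZMod 3 → ℝ) (v : V) : pushV y v = ∑ a : ZMod 3, y (v, a) := by
  simp [pushV]

lemma lev_apply (y : V × ZMod 3 → ℝ) (j : ZMod 3) : lev j y = ∑ v, y (v, j) := by
  simp [lev]

lemma sum_pushV (y : V × ZMod 3 → ℝ) : ∑ v, pushV y v = ∑ p, y p := by
  rw [Fintype.sum_prod_type]
  exact Finset.sum_congr rfl fun v _ => pushV_apply y v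

/-- the support lies in the levels `j`, `j + 1` -/
def InLev (j : ZMod 3) (y : V × ZMod 3 → ℝ) : Prop :=
  ∀ p : V × ZMod 3, y p ≠ 0 → p.2 = j ∨ p.2 = j + 1

omit [Fintype V] in
lemma InLev.zero {j : ZMod 3} {y : V × ZMod 3 → ℝ} (h : InLev j y) (v : V) :
    y (v, j + 2) = 0 := by
  by_contra hne
  have h1 : ∀ j : ZMod 3, ¬ (j + 2 = j ∨ j + 2 = j + 1) := by decide
  exact h1 j (h _ hne)

omit [Fintype V] in
lemma InLev.push {j : ZMod 3} {y : V × ZMod 3 → ℝ} (h : InLev j y) (v : V) :
    pushV y v = y (v, j) + y (v, j + 1) := by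
  rw [pushV_apply, sum_zmod3 _ j, h.zero v, add_zero]

lemma InLev.sum {j : ZMod 3} {y : V × ZMod 3 → ℝ} (h : InLev j y) :
    ∑ p, y p = lev j y + lev (j + 1) y := by
  rw [← sum_pushV, lev_apply, lev_apply, ← Finset.sum_add_distrib]
  exact Finset.sum_congr rfl fun v _ => h.push v

/-- the angle -/
noncomputable def ang (j : ZMod 3) (y : V × ZMod 3 → ℝ) : ℝ :=
  (2 * Real.pi / 3) * ((j.val : ℝ) + lev (j + 1) y)

open Classical in
/-- the circle coordinate -/
noncomputable def ucirc (y : V × ZMod 3 → ℝ) : Circle :=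
  if h : ∃ j, InLev j y then Circle.exp (ang h.choose y) else 1

lemma exp_ang_succ {y : V × ZMod 3 → ℝ} (hs : ∑ p, y p = 1) {j : ZMod 3} (h : InLev j y)
    (h' : InLev (j + 1) y) : Circle.exp (ang j y) = Circle.exp (ang (j + 1) y) := by
  have e1 : lev (j + 1 + 1) y = 0 := by
    rw [lev_apply]
    refine Finset.sum_eq_zero fun v _ => ?_
    have h2 : j + 1 + 1 = j + 2 := by
      have : ∀ j : ZMod 3, j + 1 + 1 = j + 2 := by decide
      exact this j
    rw [h2]
    exact h.zero v
  have e2 : lev (j + 1) y = 1 := by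
    have := h'.sum
    rw [e1, hs, add_zero] at this
    exact this.symm
  unfold ang
  rw [e1, e2, Circle.exp_eq_exp]
  have hj : j = 0 ∨ j = 1 ∨ j = 2 := by
    clear * -
    revert j
    decide
  rcases hj with rfl | rfl | rfl
  · refine ⟨0, ?_⟩
    have a1 : (0 : ZMod 3).val = 0 := rfl
    have a2 : ((0 : ZMod 3) + 1).val = 1 := rfl
    rw [a1, a2]
    push_cast
    ring
  · refine ⟨0, ?_⟩
    have a1 : (1 : ZMod 3).val = 1 := rfl
    have a2 : ((1 : ZMod 3) + 1).val = 2 := rfl
    rw [a1, a2]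
    push_cast
    ring
  · refine ⟨1, ?_⟩
    have a1 : (2 : ZMod 3).val = 2 := rfl
    have a2 : ((2 : ZMod 3) + 1).val = 0 := rfl
    rw [a1, a2]
    push_cast
    ring

lemma exp_ang_eq {y : V × ZMod 3 → ℝ} (hs : ∑ p, y p = 1) {j k : ZMod 3} (h : InLev j y)
    (h' : InLev k y) : Circle.exp (ang j y) = Circle.exp (ang k y) := by
  have hc : k = j ∨ k = j + 1 ∨ j = k + 1 := by
    clear * -
    revert j k
    decide
  rcases hc with rfl | rfl | rfl
  · rfl
  · exact exp_ang_succ hs h h'
  · exact (exp_ang_succ hs h' h).symm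

lemma ucirc_eq {y : V × ZMod 3 → ℝ} (hs : ∑ p, y p = 1) {j : ZMod 3} (h : InLev j y) :
    ucirc y = Circle.exp (ang j y) := by
  have hex : ∃ j, InLev j y := ⟨j, h⟩
  unfold ucirc
  rw [dif_pos hex]
  exact exp_ang_eq hs hex.choose_spec h

variable [DecidableEq V]

/-- the prism complex -/
def prismASC (K : ASC V) (r : V → ℕ) : ASC (V × ZMod 3) where
  faces := {s | s.Nonempty ∧ s.image Prod.fst ∈ K.faces ∧ ∃ j : ZMod 3,
    (∀ p ∈ s, p.2 = j ∨ p.2 = j + 1) ∧ ∀ p ∈ s, ∀ q ∈ s, p.2 = j → q.2 = j + 1 → r p.1 ≤ r q.1}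
  nonempty_of_mem s hs := hs.1
  down_closed := by
    rintro s ⟨_, h2, j, h3, h4⟩ t hts htn
    exact ⟨htn, K.down_closed _ h2 _ (Finset.image_subset_image hts) (htn.image _), j,
      fun p hp => h3 p (hts hp), fun p hp q hq => h4 p (hts hp) q (hts hq)⟩

lemma supp_pushV {y : V × ZMod 3 → ℝ} (hy : ∀ p, 0 ≤ y p) :
    supp (pushV y) = (supp y).image Prod.fst := by
  ext v
  rw [mem_supp, pushV_apply, Finset.mem_image]
  constructor
  · intro h
    by_contra hc
    push Not at hc
    refine h (Finset.sum_eq_zero fun a _ => ?_)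
    by_contra hne
    exact hc (v, a) (mem_supp.2 hne) rfl
  · rintro ⟨p, hp, rfl⟩ h0
    rw [Finset.sum_eq_zero_iff_of_nonneg fun a _ => hy _] at h0
    exact (mem_supp.1 hp) (h0 p.2 (Finset.mem_univ _))

omit [DecidableEq V] [Fintype V] in
lemma pushV_nonneg {y : V × ZMod 3 → ℝ} (hy : ∀ p, 0 ≤ y p) (v : V) : 0 ≤ pushV y v := by
  rw [pushV_apply]
  exact Finset.sum_nonneg fun a _ => hy _

variable {K : ASC V} {r : V → ℕ}

lemma pushV_mem {y : V × ZMod 3 → ℝ} (hy : y ∈ (prismASC K r).real) : pushV y ∈ K.real := by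
  obtain ⟨h0, h1, h2⟩ := hy
  refine ⟨pushV_nonneg h0, by rw [sum_pushV, h1], ?_⟩
  rw [supp_pushV h0]
  exact h2.2.1

omit [DecidableEq V] in
lemma inLev_of_supp {s : Finset (V × ZMod 3)} {j : ZMod 3} (hs : ∀ p ∈ s, p.2 = j ∨ p.2 = j + 1)
    {y : V × ZMod 3 → ℝ} (hy : supp y ⊆ s) : InLev j y :=
  fun p hp => hs p (hy (mem_supp.2 hp))

lemma chain_of_inLev {y : V × ZMod 3 → ℝ} (hy : y ∈ (prismASC K r).real) {j : ZMod 3}
    (h : InLev j y) {v w : V} (hv : y (v, j) ≠ 0) (hw : y (w, j + 1) ≠ 0) : r v ≤ r w := by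
  obtain ⟨_, _, _, _, k, hk1, hk2⟩ := hy
  have h1 := hk1 (v, j) (mem_supp.2 hv)
  have h2 := hk1 (w, j + 1) (mem_supp.2 hw)
  have hjk : j = k := by
    have : ∀ j k : ZMod 3, (j = k ∨ j = k + 1) → (j + 1 = k ∨ j + 1 = k + 1) → j = k := by decide
    exact this j k h1 h2
  subst hjk
  exact hk2 (v, j) (mem_supp.2 hv) (w, j + 1) (mem_supp.2 hw) rfl rfl

/-- normal form -/
lemma exists_normal {y : V × ZMod 3 → ℝ} (hy : y ∈ (prismASC K r).real) :
    ∃ j, InLev j y ∧ 0 ≤ lev (j + 1) y ∧ lev (j + 1) y < 1 := by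
  have hy' := hy
  obtain ⟨h0, h1, _, _, j, hj, _⟩ := hy
  have hlev : ∀ k, 0 ≤ lev k y := fun k => by
    rw [lev_apply]
    exact Finset.sum_nonneg fun v _ => h0 _
  have hI : InLev j y := inLev_of_supp hj subset_rfl
  by_cases hc : lev (j + 1) y < 1
  · exact ⟨j, hI, hlev _, hc⟩
  · have hs := hI.sum
    rw [h1] at hs
    have hz : lev j y = 0 := by
      have := hlev j
      push Not at hc
      linarith
    rw [lev_apply, Finset.sum_eq_zero_iff_of_nonneg fun v _ => h0 _] at hz
    have hI' : InLev (j + 1) y := by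
      rintro ⟨v, a⟩ hp
      rcases hI _ hp with h | h
      · have h' : a = j := h
        subst h'
        exact absurd (hz v (Finset.mem_univ _)) hp
      · exact Or.inl h
    refine ⟨j + 1, hI', hlev _, ?_⟩
    have e1 : lev (j + 1 + 1) y = 0 := by
      rw [lev_apply]
      refine Finset.sum_eq_zero fun v _ => ?_
      have h2 : j + 1 + 1 = j + 2 := by
        have : ∀ j : ZMod 3, j + 1 + 1 = j + 2 := by decide
        exact this j
      rw [h2]
      exact hI.zero v
    rw [e1]
    norm_num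

lemma val_lt3 (j : ZMod 3) : (j.val : ℝ) ≤ 2 := by
  have : j.val ≤ 2 := by
    revert j
    decide
  exact_mod_cast this

/-- injectivity of the parametrisation -/
lemma prism_inj (hr : Function.Injective r) {y y' : V × ZMod 3 → ℝ}
    (hy : y ∈ (prismASC K r).real) (hy' : y' ∈ (prismASC K r).real)
    (hp : pushV y = pushV y') (hu : ucirc y = ucirc y') : y = y' := by
  obtain ⟨j, hI, ht0, ht1⟩ := exists_normal hy
  obtain ⟨k, hI', ht0', ht1'⟩ := exists_normal hy'
  rw [ucirc_eq hy.2.1 hI, ucirc_eq hy'.2.1 hI', Circle.exp_eq_exp] at hu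
  obtain ⟨m, hm⟩ := hu
  have hpi := Real.pi_pos
  have hm' : (j.val : ℝ) + lev (j + 1) y = k.val + lev (k + 1) y' + 3 * m := by
    unfold ang at hm
    field_simp at hm
    nlinarith
  have hj0 : (0 : ℝ) ≤ j.val := Nat.cast_nonneg _
  have hk0 : (0 : ℝ) ≤ k.val := Nat.cast_nonneg _
  have hj2 := val_lt3 j
  have hk2 := val_lt3 k
  have hm0 : m = 0 := by
    have h1 : (m : ℝ) < 1 := by linarith
    have h2 : (-1 : ℝ) < m := by linarith
    have h1' : m < 1 := by exact_mod_cast h1
    have h2' : -1 < m := by exact_mod_cast h2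
    omega
  rw [hm0] at hm'
  have hjk : j = k := by
    have h1 : (j.val : ℝ) < k.val + 1 := by
      push_cast at hm'
      linarith
    have h2 : (k.val : ℝ) < j.val + 1 := by
      push_cast at hm'
      linarith
    have h1' : j.val < k.val + 1 := by exact_mod_cast h1
    have h2' : k.val < j.val + 1 := by exact_mod_cast h2
    exact ZMod.val_injective 3 (by omega)
  subst hjk
  have hlev : lev (j + 1) y = lev (j + 1) y' := by
    push_cast at hm'
    linarith
  have hpush : ∀ v, y (v, j) + y (v, j + 1) = y' (v, j) + y' (v, j + 1) := by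
    intro v
    rw [← hI.push, ← hI'.push, hp]
  have key : ∀ v, y (v, j + 1) = y' (v, j + 1) := by
    by_contra hc
    push Not at hc
    rw [lev_apply, lev_apply] at hlev
    obtain ⟨v0, hv0⟩ := hc
    have hex1 : ∃ v, y (v, j + 1) < y' (v, j + 1) := by
      by_contra h
      push Not at h
      have := (Finset.sum_eq_sum_iff_of_le (s := Finset.univ) (fun v _ => h v)).1 hlev.symm
      exact hv0 (this v0 (Finset.mem_univ _)).symm
    have hex2 : ∃ w, y' (w, j + 1) < y (w, j + 1) := by
      by_contra h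
      push Not at h
      have := (Finset.sum_eq_sum_iff_of_le (s := Finset.univ) (fun v _ => h v)).1 hlev
      exact hv0 (this v0 (Finset.mem_univ _))
    obtain ⟨v, hv⟩ := hex1
    obtain ⟨w, hw⟩ := hex2
    have a1 : y (v, j) ≠ 0 := by
      have := hpush v
      have := hy'.1 (v, j)
      intro h
      linarith
    have a2 : y (w, j + 1) ≠ 0 := by
      have := hy'.1 (w, j + 1)
      intro h
      linarith
    have a3 : y' (w, j) ≠ 0 := by
      have := hpush w
      have := hy.1 (w, j)
      intro h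
      linarith
    have a4 : y' (v, j + 1) ≠ 0 := by
      have := hy.1 (v, j + 1)
      intro h
      linarith
    have b1 := chain_of_inLev hy hI a1 a2
    have b2 := chain_of_inLev hy' hI' a3 a4
    have hvw : v = w := hr (le_antisymm b1 b2)
    subst hvw
    linarith
  funext p
  obtain ⟨v, a⟩ := p
  have ha : a = j ∨ a = j + 1 ∨ a = j + 2 := by
    clear * -
    revert a j
    decide
  rcases ha with rfl | rfl | rfl
  · have := hpush v
    rw [key v] at this
    linarith
  · exact key v
  · rw [hI.zero, hI'.zero]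

omit [DecidableEq V] in
/-- cutting a weight function -/
lemma exists_cut (hr : Function.Injective r) (w : V → ℝ) (hw : ∀ v, 0 ≤ w v) (hs : ∑ v, w v = 1)
    {t : ℝ} (ht0 : 0 ≤ t) (ht1 : t ≤ 1) :
    ∃ a : V → ℝ, (∀ v, 0 ≤ a v ∧ a v ≤ w v) ∧ ∑ v, a v = t ∧
      ∀ v v', a v ≠ 0 → w v' - a v' ≠ 0 → r v' ≤ r v := by
  set S : ℕ → ℝ := fun n => ∑ v, if n ≤ r v then w v else 0 with hS
  have hex : ∃ n, S (n + 1) ≤ t := by
    refine ⟨∑ v, r v, ?_⟩
    have : S (∑ v, r v + 1) = 0 := by
      refine Finset.sum_eq_zero fun v _ => ?_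
      have h1 : r v ≤ ∑ v, r v := Finset.single_le_sum (f := r) (fun _ _ => Nat.zero_le _) (Finset.mem_univ v)
      rw [if_neg (by omega)]
    rw [this]
    exact ht0
  classical
  obtain ⟨n, hn1, hn2⟩ : ∃ n, S (n + 1) ≤ t ∧ t ≤ S n := by
    refine ⟨Nat.find hex, Nat.find_spec hex, ?_⟩
    rcases Nat.eq_zero_or_pos (Nat.find hex) with h | h
    · rw [h]
      have : S 0 = 1 := by
        rw [hS, ← hs]
        exact Finset.sum_congr rfl fun v _ => by simp
      rw [this]
      exact ht1
    · obtain ⟨m, hm⟩ : ∃ m, Nat.find hex = m + 1 := ⟨Nat.find hex - 1, by omega⟩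
      have := Nat.find_min hex (m := m) (by omega)
      push Not at this
      rw [hm]
      exact this.le
  have hdiff : S n - S (n + 1) = ∑ v, if r v = n then w v else 0 := by
    rw [hS, ← Finset.sum_sub_distrib]
    refine Finset.sum_congr rfl fun v _ => ?_
    by_cases h1 : r v = n
    · rw [if_pos h1.ge, if_neg (by omega), if_pos h1]
      ring
    · rw [if_neg h1]
      by_cases h2 : n ≤ r v
      · rw [if_pos h2, if_pos (by omega)]
        ring
      · rw [if_neg h2, if_neg (by omega)]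
        ring
  refine ⟨fun v => if n + 1 ≤ r v then w v else if r v = n then t - S (n + 1) else 0, ?_, ?_, ?_⟩
  · intro v
    dsimp only
    split_ifs with h1 h2
    · exact ⟨hw v, le_rfl⟩
    · refine ⟨by linarith, ?_⟩
      have h3 : ∑ v', (if r v' = n then w v' else 0) = w v := by
        rw [Finset.sum_eq_single v]
        · rw [if_pos h2]
        · intro v' _ hne
          rw [if_neg]
          intro h
          exact hne (hr (h.trans h2.symm))
        · intro h
          exact absurd (Finset.mem_univ _) h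
      rw [h3] at hdiff
      linarith
    · exact ⟨le_rfl, hw v⟩
  · have h4 : ∀ v, (if n + 1 ≤ r v then w v else if r v = n then t - S (n + 1) else 0) =
        (if n + 1 ≤ r v then w v else 0) + if r v = n then t - S (n + 1) else 0 := by
      intro v
      by_cases h1 : n + 1 ≤ r v
      · rw [if_pos h1, if_pos h1, if_neg (by omega), add_zero]
      · rw [if_neg h1, if_neg h1, zero_add]
    simp_rw [h4]
    rw [Finset.sum_add_distrib]
    have h5 : ∑ v, (if n + 1 ≤ r v then w v else 0) = S (n + 1) := rfl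
    rw [h5]
    by_cases hv : ∃ v, r v = n
    · obtain ⟨v, hv⟩ := hv
      rw [Finset.sum_eq_single v]
      · rw [if_pos hv]
        ring
      · intro v' _ hne
        rw [if_neg]
        intro h
        exact hne (hr (h.trans hv.symm))
      · intro h
        exact absurd (Finset.mem_univ _) h
    · push Not at hv
      have h6 : ∑ v, (if r v = n then w v else 0) = 0 :=
        Finset.sum_eq_zero fun v _ => if_neg (hv v)
      have h7 : ∑ v, (if r v = n then t - S (n + 1) else 0) = 0 :=
        Finset.sum_eq_zero fun v _ => if_neg (hv v)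
      rw [h6] at hdiff
      rw [h7]
      linarith
  · intro v v' hv hv'
    dsimp only at hv hv'
    have h1 : n ≤ r v := by
      by_contra h
      rw [if_neg (by omega), if_neg (by omega)] at hv
      exact hv rfl
    have h2 : r v' ≤ n := by
      by_contra h
      rw [if_pos (by omega)] at hv'
      exact hv' (by ring)
    omega

lemma exists_exp (z : Circle) : ∃ (j : ZMod 3) (t : ℝ), 0 ≤ t ∧ t ≤ 1 ∧
    Circle.exp ((2 * Real.pi / 3) * ((j.val : ℝ) + t)) = z := by
  have hpi := Real.pi_pos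
  obtain ⟨θ, h0, h1, hθ⟩ : ∃ θ : ℝ, 0 ≤ θ ∧ θ < 2 * Real.pi ∧ Circle.exp θ = z := by
    have hz := Circle.exp_arg z
    have hl := Complex.neg_pi_lt_arg (z : ℂ)
    have hu := Complex.arg_le_pi (z : ℂ)
    by_cases h : 0 ≤ Complex.arg (z : ℂ)
    · exact ⟨_, h, by linarith, hz⟩
    · push Not at h
      refine ⟨Complex.arg (z : ℂ) + 2 * Real.pi, by linarith, by linarith, ?_⟩
      rw [Circle.exp_add, Circle.exp_two_pi, mul_one, hz]
  have hval : ∀ j : ZMod 3, ∀ t, (2 * Real.pi / 3) * ((j.val : ℝ) + t) = θ →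
      Circle.exp ((2 * Real.pi / 3) * ((j.val : ℝ) + t)) = z := by
    intro j t h
    rw [h, hθ]
  by_cases c1 : θ * 3 / (2 * Real.pi) < 1
  · refine ⟨0, θ * 3 / (2 * Real.pi), by positivity, c1.le, hval _ _ ?_⟩
    have a1 : (0 : ZMod 3).val = 0 := rfl
    rw [a1]
    push_cast
    field_simp
    ring
  by_cases c2 : θ * 3 / (2 * Real.pi) < 2
  · refine ⟨1, θ * 3 / (2 * Real.pi) - 1, by linarith, by linarith, hval _ _ ?_⟩
    have a1 : (1 : ZMod 3).val = 1 := rfl
    rw [a1]
    push_cast
    field_simp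
    ring
  · have c3 : θ * 3 / (2 * Real.pi) ≤ 3 := by
      rw [div_le_iff₀ (by positivity)]
      linarith
    refine ⟨2, θ * 3 / (2 * Real.pi) - 2, by linarith, by linarith, hval _ _ ?_⟩
    have a1 : (2 : ZMod 3).val = 2 := rfl
    rw [a1]
    push_cast
    field_simp
    ring

/-- surjectivity of the parametrisation -/
lemma prism_surj (hr : Function.Injective r) {w : V → ℝ} (hw : w ∈ K.real) (z : Circle) :
    ∃ y ∈ (prismASC K r).real, pushV y = w ∧ ucirc y = z := by
  obtain ⟨j, t, ht0, ht1, hz⟩ := exists_exp z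
  obtain ⟨a, ha, hat, hc⟩ := exists_cut hr w hw.1 hw.2.1 ht0 ht1
  set y : V × ZMod 3 → ℝ := fun p => if p.2 = j then w p.1 - a p.1 else
    if p.2 = j + 1 then a p.1 else 0 with hy
  have hne1 : j + 1 ≠ j := by
    have : ∀ j : ZMod 3, j + 1 ≠ j := by decide
    exact this j
  have yj : ∀ v, y (v, j) = w v - a v := fun v => by simp [hy]
  have yj1 : ∀ v, y (v, j + 1) = a v := fun v => by simp [hy, hne1]
  have hI : InLev j y := by
    rintro ⟨v, b⟩ hp
    by_contra hcon
    push Not at hcon
    apply hp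
    simp only [hy]
    rw [if_neg hcon.1, if_neg hcon.2]
  have hpush : pushV y = w := by
    funext v
    rw [hI.push, yj, yj1]
    ring
  have h0 : ∀ p, 0 ≤ y p := by
    rintro ⟨v, b⟩
    simp only [hy]
    split_ifs
    · linarith [(ha v).2]
    · exact (ha v).1
    · exact le_rfl
  have hs : ∑ p, y p = 1 := by
    rw [← sum_pushV, hpush, hw.2.1]
  have hmem : y ∈ (prismASC K r).real := by
    refine ⟨h0, hs, supp_nonempty_of_sum hs, ?_, j, fun p hp => hI p (mem_supp.1 hp), ?_⟩
    · rw [← supp_pushV h0, hpush]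
      exact hw.2.2
    · rintro ⟨v, b⟩ hp ⟨v', b'⟩ hq hb hb'
      have hb2 : b = j := hb
      have hb2' : b' = j + 1 := hb'
      subst hb2
      subst hb2'
      rw [mem_supp, yj] at hp
      rw [mem_supp, yj1] at hq
      exact hc v' v hq hp
  refine ⟨y, hmem, hpush, ?_⟩
  rw [ucirc_eq hs hI, ← hz]
  unfold ang
  rw [lev_apply]
  simp_rw [yj1]
  rw [hat]

/-- continuity of the circle coordinate -/
lemma continuousOn_ucirc : ContinuousOn ucirc (prismASC K r).real := by
  have hU : (prismASC K r).real = ⋃ s : {s // s ∈ (prismASC K r).faces}, cface s.1 := by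
    rw [ASC.real_eq_iUnion, iUnion_subtype]
  rw [hU]
  refine (locallyFinite_of_finite _).continuousOn_iUnion (fun s => isClosed_cface _) ?_
  rintro ⟨s, hs⟩
  obtain ⟨_, _, j, hj, _⟩ := hs
  have hc : Continuous (fun y : V × ZMod 3 → ℝ => Circle.exp (ang j y)) := by
    refine Circle.exp.continuous.comp ?_
    unfold ang
    exact continuous_const.mul (continuous_const.add (lev (j + 1)).continuous)
  refine hc.continuousOn.congr fun y hy => ?_
  exact ucirc_eq hy.2.1 (inLev_of_supp hj hy.2.2)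

omit [DecidableEq V] in
lemma hasFDerivAt_ang (j : ZMod 3) (x : V × ZMod 3 → ℝ) :
    HasFDerivAt (ang j) ((2 * Real.pi / 3) • lev (j + 1)) x :=
  (((lev (j + 1)).hasFDerivAt).const_add (j.val : ℝ)).const_mul (2 * Real.pi / 3)

omit [DecidableEq V] in
lemma contDiff_ang (j : ZMod 3) : ContDiff ℝ ∞ (ang j : (V × ZMod 3 → ℝ) → ℝ) := by
  unfold ang
  exact contDiff_const.mul (contDiff_const.add (lev (V := V) (j + 1)).contDiff)

/-- the derivative of the circle coordinate -/
lemma lev_eq_zero_of_mfderiv {j : ZMod 3} {x u : V × ZMod 3 → ℝ}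
    (h : mfderiv 𝓘(ℝ, V × ZMod 3 → ℝ) 𝓘(ℝ, ℂ)
      (fun y : V × ZMod 3 → ℝ => ((Circle.exp (ang j y) : Circle) : ℂ)) x u = 0) :
    lev (j + 1) u = 0 := by
  have hA := hasFDerivAt_ang j x
  have hB : HasFDerivAt (fun y : V × ZMod 3 → ℝ => ((ang j y : ℝ) : ℂ))
      (Complex.ofRealCLM.comp ((2 * Real.pi / 3) • lev (j + 1))) x :=
    Complex.ofRealCLM.hasFDerivAt.comp x hA
  have hC := (hB.mul_const Complex.I).cexp
  have hfun : (fun y : V × ZMod 3 → ℝ => ((Circle.exp (ang j y) : Circle) : ℂ)) =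
      fun y => Complex.exp (((ang j y : ℝ) : ℂ) * Complex.I) := by
    funext y
    rw [Circle.coe_exp]
  rw [hfun, mfderiv_eq_fderiv, hC.fderiv] at h
  have h2 : Complex.exp (((ang j x : ℝ) : ℂ) * Complex.I) *
      (((2 * Real.pi / 3 * lev (j + 1) u : ℝ) : ℂ) * Complex.I) = 0 := by
    have h' : (Complex.exp (((ang j x : ℝ) : ℂ) * Complex.I) • Complex.I •
        Complex.ofRealCLM.comp ((2 * Real.pi / 3) • lev (j + 1))) u = (0 : ℂ) := h
    rw [← h']
    simp only [ContinuousLinearMap.smul_apply, ContinuousLinearMap.comp_apply, smul_eq_mul,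
      Complex.ofRealCLM_apply]
    push_cast
    ring
  have hpi := Real.pi_pos
  rcases mul_eq_zero.1 h2 with h3 | h3
  · exact absurd h3 (Complex.exp_ne_zero _)
  · rcases mul_eq_zero.1 h3 with h4 | h4
    · have h5 : 2 * Real.pi / 3 * lev (j + 1) u = 0 := by exact_mod_cast h4
      rcases mul_eq_zero.1 h5 with h6 | h6
      · linarith
      · exact h6
    · exact absurd h4 Complex.I_ne_zero

/-- vanishing of the tangent vector -/
lemma eq_zero_of_prism (hr : Function.Injective r) {s : Finset (V × ZMod 3)} {j : ZMod 3}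
    (hj : ∀ p ∈ s, p.2 = j ∨ p.2 = j + 1)
    (hch : ∀ p ∈ s, ∀ q ∈ s, p.2 = j → q.2 = j + 1 → r p.1 ≤ r q.1)
    {u : V × ZMod 3 → ℝ} (hus : ∀ p ∉ s, u p = 0) (hp : pushV u = 0) (hl : lev (j + 1) u = 0) :
    u = 0 := by
  have hI : InLev j u := fun p hp => hj p (by
    by_contra h
    exact hp (hus p h))
  have hpush : ∀ v, u (v, j) + u (v, j + 1) = 0 := fun v => by
    rw [← hI.push, hp]
    rfl
  have key : ∀ v, u (v, j + 1) = 0 := by
    by_contra hc
    push Not at hc
    obtain ⟨v, hv⟩ := hc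
    have hv' : u (v, j) ≠ 0 := by
      intro h
      have := hpush v
      rw [h, zero_add] at this
      exact hv this
    have hvs : (v, j) ∈ s := by
      by_contra h
      exact hv' (hus _ h)
    have hvs' : (v, j + 1) ∈ s := by
      by_contra h
      exact hv (hus _ h)
    have hothers : ∀ w, w ≠ v → u (w, j + 1) = 0 := by
      intro w hw
      by_contra h
      have h' : u (w, j) ≠ 0 := by
        intro h2
        have := hpush w
        rw [h2, zero_add] at this
        exact h this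
      have hws : (w, j) ∈ s := by
        by_contra h3
        exact h' (hus _ h3)
      have hws' : (w, j + 1) ∈ s := by
        by_contra h3
        exact h (hus _ h3)
      have b1 := hch _ hvs _ hws' rfl rfl
      have b2 := hch _ hws _ hvs' rfl rfl
      exact hw (hr (le_antisymm b2 b1))
    rw [lev_apply, Finset.sum_eq_single v (fun w _ hw => hothers w hw)
      (fun h => absurd (Finset.mem_univ _) h)] at hl
    exact hv hl
  funext p
  obtain ⟨v, a⟩ := p
  have ha : a = j ∨ a = j + 1 ∨ a = j + 2 := by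
    clear * -
    revert a j
    decide
  rcases ha with rfl | rfl | rfl
  · have := hpush v
    rw [key v, add_zero] at this
    exact this
  · exact key v
  · exact hI.zero v

end Prism

/-- The prism triangulation. -/
noncomputable def prismTri (T : SmoothTri 2 S444) (r : T.V → ℕ) (hr : Function.Injective r) :
    SmoothTri 3 M444 where
  V := T.V × ZMod 3
  K := prismASC T.K r
  h := fun y => M444.mk (T.h (pushV y)) (ucirc y)
  cont := by
    have h1 : ContinuousOn (fun y => T.h (pushV y)) (prismASC T.K r).real :=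
      T.cont.comp pushV.continuous.continuousOn fun y hy => pushV_mem hy
    exact h1.prodMk continuousOn_ucirc
  bij := by
    refine ⟨fun _ _ => mem_univ _, ?_, ?_⟩
    · intro y hy y' hy' h
      have h' : (T.h (pushV y), ucirc y) = (T.h (pushV y'), ucirc y') := h
      obtain ⟨h1, h2⟩ := Prod.mk.inj h'
      exact prism_inj hr hy hy' (T.bij.injOn (pushV_mem hy) (pushV_mem hy') h1) h2
    · rintro ⟨p, z⟩ -
      obtain ⟨w, hw, hwp⟩ := T.bij.surjOn (mem_univ p)
      obtain ⟨y, hy, h1, h2⟩ := prism_surj hr hw z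
      refine ⟨y, hy, ?_⟩
      change (T.h (pushV y), ucirc y) = (p, z)
      rw [h1, h2, hwp]
  smooth := by
    intro s hs x hx hxs
    have hx0 := hx
    obtain ⟨h0, h1, h2⟩ := hx
    obtain ⟨hsn, hsK, j, hj, hch⟩ := hs
    have hsx' : supp (pushV x) ⊆ s.image Prod.fst := by
      rw [supp_pushV h0]
      exact Finset.image_subset_image hxs
    obtain ⟨g, hg, hgh, hgi⟩ := T.smoothM _ hsK _ (pushV_mem hx0) hsx'
    have hgc : ContMDiffAt 𝓘(ℝ, T.V × ZMod 3 → ℝ) (𝓡 2) ∞ (fun y => g (pushV y)) x :=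
      hg.comp x (pushV (V := T.V)).contMDiffAt
    have hec : ContMDiffAt 𝓘(ℝ, T.V × ZMod 3 → ℝ) (𝓡 1) ∞
        (fun y : T.V × ZMod 3 → ℝ => Circle.exp (ang j y)) x :=
      contMDiff_circleExp.contMDiffAt.comp x (contDiff_ang j).contMDiff.contMDiffAt
    have hG := contMDiffAt_mk444 hgc hec
    refine smooth_of_mfderiv ⟨fun y => M444.mk (g (pushV y)) (Circle.exp (ang j y)), hG, ?_, ?_⟩
    · filter_upwards [pushV.continuous.continuousAt.eventually hgh] with y hy hyr hys
      have e1 : g (pushV y) = T.h (pushV y) := by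
        refine hy (pushV_mem hyr) ?_
        rw [supp_pushV hyr.1]
        exact Finset.image_subset_image hys
      rw [e1, ucirc_eq hyr.2.1 (inLev_of_supp hj hys)]
    · intro u hu0 hus hd
      have hGd := hG.mdifferentiableAt (by simp)
      -- first component
      have d1 : mfderiv 𝓘(ℝ, T.V × ZMod 3 → ℝ) (𝓡 2) (fun y => g (pushV y)) x u = 0 := by
        have := mfderiv_comp_apply x (contMDiff_fst444.mdifferentiable (by simp) _) hGd u
        rw [hd, map_zero] at this
        exact this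
      have d2 : mfderiv 𝓘(ℝ, T.V → ℝ) (𝓡 2) g (pushV x) (pushV u) = 0 := by
        have h3 := mfderiv_comp_apply x (hg.mdifferentiableAt (by simp))
          ((pushV (V := T.V)).contMDiffAt (x := x) (n := ∞) |>.mdifferentiableAt (by simp)) u
        have h4 : mfderiv 𝓘(ℝ, T.V × ZMod 3 → ℝ) 𝓘(ℝ, T.V → ℝ) (pushV (V := T.V)) x u = pushV u := by
          rw [mfderiv_eq_fderiv, ContinuousLinearMap.fderiv]
          rfl
        rw [h4] at h3
        rw [← h3]
        exact d1
      have hp : pushV u = 0 := by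
        refine hgi (pushV u) (by rw [sum_pushV, hu0]) (fun v hv => ?_) d2
        rw [pushV_apply]
        refine Finset.sum_eq_zero fun a _ => hus _ fun h => hv ?_
        exact Finset.mem_image.2 ⟨_, h, rfl⟩
      -- second component
      have d3 : mfderiv 𝓘(ℝ, T.V × ZMod 3 → ℝ) (𝓡 1)
          (fun y : T.V × ZMod 3 → ℝ => Circle.exp (ang j y)) x u = 0 := by
        have := mfderiv_comp_apply x (contMDiff_snd444.mdifferentiable (by simp) _) hGd u
        rw [hd, map_zero] at this
        exact this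
      haveI : Fact (Module.finrank ℝ ℂ = 1 + 1) := ⟨Complex.finrank_real_complex⟩
      have hcoe : ContMDiff (𝓡 1) 𝓘(ℝ, ℂ) ∞ (fun z : Circle => (z : ℂ)) :=
        contMDiff_coe_sphere (E := ℂ) (n := 1)
      have d4 : mfderiv 𝓘(ℝ, T.V × ZMod 3 → ℝ) 𝓘(ℝ, ℂ)
          (fun y : T.V × ZMod 3 → ℝ => ((Circle.exp (ang j y) : Circle) : ℂ)) x u = 0 := by
        have := mfderiv_comp_apply x (hcoe.mdifferentiable (by simp) _)
          (hec.mdifferentiableAt (by simp)) u
        rw [d3, map_zero] at this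
        exact this
      exact eq_zero_of_prism hr hj hch hus hp (lev_eq_zero_of_mfderiv d4)

/-- There is a smooth triangulation of `S × S¹`. -/
theorem nonempty_smoothTri444 : Nonempty (SmoothTri 3 M444) :=
  ⟨prismTri T444 (fun v => (Fintype.equivFin T444.V v : ℕ)) fun _ _ h =>
    (Fintype.equivFin T444.V).injective (Fin.ext h)⟩

end SepFil
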