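import Pool.Agent.SepFil.Defs

/-!
# Systole: positivity, short paths

(module SYS of the blueprint)
-/

open Set MeasureTheory Manifold Bundle Filter Topology
open scoped ContDiff ENNReal NNReal

namespace SepFil

/-- A loop contained in a ball of a chart is null-homotopic. -/
theorem homotopic_refl_of_chart {n : ℕ} {X : Type*} [TopologicalSpace X]
    (e : OpenPartialHomeomorph X (EuclideanSpace ℝ (Fin n))) {c : EuclideanSpace ℝ (Fin n)} {r : ℝ}
    (hr : Metric.ball c r ⊆ e.target) {x : X} (γ : Path x x)
    (hγ : ∀ t, γ t ∈ e.source ∧ e (γ t) ∈ Metric.ball c r) :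
    γ.Homotopic (Path.refl x) := by
  have hx : x ∈ e.source ∧ e x ∈ Metric.ball c r := by
    simpa using hγ 0
  have hseg : ∀ (s : unitInterval) (t : unitInterval),
      (1 - (s : ℝ)) • e (γ t) + (s : ℝ) • e x ∈ Metric.ball c r := fun s t =>
    (convex_ball c r) (hγ t).2 hx.2 (sub_nonneg.2 s.2.2) s.2.1 (by ring)
  have hcont : Continuous fun p : unitInterval × unitInterval =>
      e.symm ((1 - (p.1 : ℝ)) • e (γ p.2) + (p.1 : ℝ) • e x) := by
    rw [← continuousOn_univ]
    refine e.continuousOn_symm.comp ?_ (fun p _ => hr (hseg p.1 p.2))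
    rw [continuousOn_univ]
    have h1 : Continuous fun t : unitInterval => e (γ t) := by
      rw [← continuousOn_univ]
      exact e.continuousOn.comp γ.continuous.continuousOn (fun t _ => (hγ t).1)
    have h2 : Continuous fun p : unitInterval × unitInterval => e (γ p.2) :=
      h1.comp continuous_snd
    have h3 : Continuous fun p : unitInterval × unitInterval => (p.1 : ℝ) :=
      continuous_subtype_val.comp continuous_fst
    exact ((continuous_const.sub h3).smul h2).add (h3.smul continuous_const)
  refine ⟨⟨⟨⟨fun p => e.symm ((1 - (p.1 : ℝ)) • e (γ p.2) + (p.1 : ℝ) • e x), hcont⟩, ?_, ?_⟩, ?_⟩⟩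
  · intro t
    simp [e.left_inv (hγ t).1]
  · intro t
    simp [e.left_inv hx.1]
  · intro s t ht
    have : γ t = x := by
      rcases ht with rfl | rfl
      · exact γ.source
      · exact γ.target
    simp only [ContinuousMap.coe_mk, Path.coe_toContinuousMap, this]
    rw [← add_smul, sub_add_cancel, one_smul, e.left_inv hx.1]

theorem sys_pos {n : ℕ} (N : ClosedRiem n) : 0 < sys N.carrier := by
  have hU : ∀ x : N.carrier, ∃ r > 0, Metric.ball (chartAt (EuclideanSpace ℝ (Fin n)) x x) r ⊆
      (chartAt (EuclideanSpace ℝ (Fin n)) x).target := fun x =>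
    Metric.isOpen_iff.1 (chartAt (EuclideanSpace ℝ (Fin n)) x).open_target _
      (mem_chart_target _ x)
  choose r hr0 hr using hU
  set U : N.carrier → Set N.carrier := fun x =>
    (chartAt (EuclideanSpace ℝ (Fin n)) x).source ∩
      (chartAt (EuclideanSpace ℝ (Fin n)) x) ⁻¹'
        Metric.ball (chartAt (EuclideanSpace ℝ (Fin n)) x x) (r x) with hUdef
  have hopen : ∀ x, IsOpen (U x) := fun x =>
    (chartAt (EuclideanSpace ℝ (Fin n)) x).isOpen_inter_preimage Metric.isOpen_ball
  have hcov : (univ : Set N.carrier) ⊆ ⋃ x, U x := fun x _ =>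
    mem_iUnion.2 ⟨x, mem_chart_source _ x, Metric.mem_ball_self (hr0 x)⟩
  obtain ⟨δ, hδ, h⟩ := lebesgue_number_lemma_of_emetric isCompact_univ hopen hcov
  refine lt_of_lt_of_le hδ ?_
  refine le_iInf fun x => le_iInf fun γ => le_iInf fun hγ => ?_
  by_contra hlt
  push Not at hlt
  apply hγ
  obtain ⟨i, hi⟩ := h x (mem_univ x)
  refine homotopic_refl_of_chart (chartAt (EuclideanSpace ℝ (Fin n)) i) (hr i) γ fun t => ?_
  have h1 : edist (γ t) x < δ := by
    have h2 := eVariationOn.edist_le γ (mem_univ t) (mem_univ (0 : unitInterval))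
    rw [γ.source] at h2
    exact h2.trans_lt hlt
  exact hi h1

/-- The length of a concatenation. -/
theorem sys_eVariationOn_trans_le {X : Type*} [EMetricSpace X] {x y z : X} (γ : Path x y)
    (γ' : Path y z) : eVariationOn (γ.trans γ') univ ≤
      eVariationOn γ univ + eVariationOn γ' univ := by
  have hhalf : (1 / 2 : ℝ) ∈ Icc (0 : ℝ) 1 := by norm_num
  set m : unitInterval := ⟨1 / 2, hhalf⟩ with hm
  have h1 : eVariationOn (γ.trans γ') univ =
      eVariationOn (γ.trans γ') (Iic m) + eVariationOn (γ.trans γ') (Ici m) := by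
    rw [← eVariationOn.union (γ.trans γ') (x := m) isGreatest_Iic isLeast_Ici, Iic_union_Ici]
  rw [h1]
  gcongr
  · -- first half
    set φ : unitInterval → unitInterval := fun t => ⟨min (2 * (t : ℝ)) 1,
      le_min (by have := t.2.1; positivity) zero_le_one, min_le_right _ _⟩ with hφ
    have hmono : MonotoneOn φ (Iic m) := by
      intro a _ b _ hab
      have : (a : ℝ) ≤ b := hab
      change min (2 * (a : ℝ)) 1 ≤ min (2 * (b : ℝ)) 1
      exact min_le_min (by linarith) le_rfl
    have heq : EqOn (γ.trans γ') (γ ∘ φ) (Iic m) := by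
      intro t ht
      have ht' : (t : ℝ) ≤ 1 / 2 := ht
      simp only [Path.trans_apply, Function.comp, ht', dif_pos]
      congr 1
      apply Subtype.ext
      simp only [hφ]
      rw [min_eq_left (by linarith)]
    rw [eVariationOn.congr heq]
    exact eVariationOn.comp_le_of_monotoneOn γ φ hmono (fun _ _ => mem_univ _)
  · set φ : unitInterval → unitInterval := fun t => ⟨max (2 * (t : ℝ) - 1) 0,
      le_max_right _ _, max_le (by have := t.2.2; linarith) zero_le_one⟩ with hφ
    have hmono : MonotoneOn φ (Ici m) := by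
      intro a _ b _ hab
      have : (a : ℝ) ≤ b := hab
      change max (2 * (a : ℝ) - 1) 0 ≤ max (2 * (b : ℝ) - 1) 0
      exact max_le_max (by linarith) le_rfl
    have heq : EqOn (γ.trans γ') (γ' ∘ φ) (Ici m) := by
      intro t ht
      have ht' : 1 / 2 ≤ (t : ℝ) := ht
      rcases ht'.eq_or_lt with h | h
      · have h3 : (t : ℝ) ≤ 1 / 2 := h.symm.le
        simp only [Path.trans_apply, Function.comp, h3, dif_pos]
        have h4 : (⟨2 * (t : ℝ), by rw [← h]; norm_num⟩ : unitInterval) = 1 := by
          apply Subtype.ext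
          simp [← h]
        have h5 : φ t = 0 := by
          apply Subtype.ext
          simp [hφ, ← h]
        rw [h5, γ'.source]
        exact (congrArg γ h4).trans γ.target
      · simp only [Path.trans_apply, Function.comp, not_le.2 h, dif_neg, not_false_iff]
        congr 1
        apply Subtype.ext
        simp only [hφ]
        rw [max_eq_left (by linarith)]
    rw [eVariationOn.congr heq]
    exact eVariationOn.comp_le_of_monotoneOn γ' φ hmono (fun _ _ => mem_univ _)

theorem sys_eVariationOn_symm_le {X : Type*} [EMetricSpace X] {x y : X} (γ : Path x y) :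
    eVariationOn γ.symm univ ≤ eVariationOn γ univ := by
  have : AntitoneOn (unitInterval.symm) (univ : Set unitInterval) := by
    intro a _ b _ hab
    have : (a : ℝ) ≤ b := hab
    change 1 - (b : ℝ) ≤ 1 - (a : ℝ)
    linarith
  exact eVariationOn.comp_le_of_antitoneOn γ unitInterval.symm this (fun _ _ => mem_univ _)

/-- Two paths with the same end points of total length less than the systole are homotopic. -/
theorem homotopic_of_length_lt {X : Type*} [EMetricSpace X] {x y : X} (γ γ' : Path x y)
    (h : eVariationOn γ univ + eVariationOn γ' univ < sys X) : γ.Homotopic γ' := by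
  have h1 : (γ.trans γ'.symm).Homotopic (Path.refl x) := by
    by_contra hne
    have h2 : sys X ≤ eVariationOn (γ.trans γ'.symm) univ :=
      iInf_le_of_le x (iInf_le_of_le _ (iInf_le _ hne))
    have h3 := (sys_eVariationOn_trans_le γ γ'.symm).trans (add_le_add le_rfl (sys_eVariationOn_symm_le γ'))
    exact absurd h (not_lt.2 (h2.trans h3))
  have h2 : ((γ.trans γ'.symm).trans γ').Homotopic ((Path.refl x).trans γ') :=
    h1.hcomp (Path.Homotopic.refl γ')
  have h3 : ((γ.trans γ'.symm).trans γ').Homotopic (γ.trans (γ'.symm.trans γ')) :=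
    ⟨Path.Homotopy.transAssoc γ γ'.symm γ'⟩
  have h4 : (γ.trans (γ'.symm.trans γ')).Homotopic (γ.trans (Path.refl y)) :=
    (Path.Homotopic.refl γ).hcomp ⟨(Path.Homotopy.reflSymmTrans γ').symm⟩
  have h5 : (γ.trans (Path.refl y)).Homotopic γ := ⟨Path.Homotopy.transRefl γ⟩
  have h6 : ((Path.refl x).trans γ').Homotopic γ' := ⟨Path.Homotopy.reflTrans γ'⟩
  exact (h5.symm.trans h4.symm).trans (h3.symm.trans (h2.trans h6))

/-- Points at distance less than `r` are joined by a path of length less than `r`. -/
theorem exists_short_path {n : ℕ} (N : ClosedRiem n) {x y : N.carrier} {r : ℝ≥0∞}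
    (h : edist x y < r) : ∃ γ : Path x y, eVariationOn γ univ < r := by
  rw [IsRiemannianManifold.out (I := 𝓡 n) x y] at h
  obtain ⟨γ, h0, h1, hγ, hlen⟩ := exists_lt_of_riemannianEDist_lt h
  have hcont : Continuous fun t : unitInterval => γ t :=
    hγ.continuousOn.comp_continuous continuous_subtype_val (fun t => t.2)
  refine ⟨⟨⟨fun t : unitInterval => γ t, hcont⟩, by simpa using h0, by simpa using h1⟩,
    lt_of_le_of_lt ?_ hlen⟩
  refine iSup_le fun p => ?_
  obtain ⟨m, u, hu, -⟩ := p
  have key : ∀ k : ℕ, ∑ i ∈ Finset.range k, edist (γ (u (i + 1))) (γ (u i)) ≤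
      pathELength (𝓡 n) γ (u 0) (u k) := by
    intro k
    induction k with
    | zero => simp
    | succ k ih =>
      rw [Finset.sum_range_succ]
      have hle0 : ((u 0 : unitInterval) : ℝ) ≤ u k := hu (Nat.zero_le k)
      have hle1 : ((u k : unitInterval) : ℝ) ≤ u (k + 1) := hu (Nat.le_succ k)
      rw [← pathELength_add hle0 hle1]
      refine add_le_add ih ?_
      rw [edist_comm, IsRiemannianManifold.out (I := 𝓡 n)]
      refine riemannianEDist_le_pathELength (hγ.mono ?_) rfl rfl hle1
      exact Icc_subset_Icc (u k).2.1 (u (k + 1)).2.2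
  refine (key m).trans ?_
  exact pathELength_mono (u 0).2.1 (u m).2.2

end SepFil
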