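import Pool.Agent.SepFil.Sheets
import Pool.Agent.SepFil.Systole
import Pool.Agent.SepFil.AreaTri

/-!
# Volume of a finite covering

(module VOLC of the blueprint)
-/

open Set MeasureTheory Manifold Bundle Filter Topology
open scoped ContDiff ENNReal NNReal

namespace SepFil

variable {n : ℕ} {N M : ClosedRiem n} {p : N.carrier → M.carrier}

/-- Paths of `M` lift to paths of the same length. -/
theorem IsRiemCover.exists_lift_lt (hp : IsRiemCover n p) (z : N.carrier) (x' : M.carrier)
    {r : ℝ≥0∞} (h : edist (p z) x' < r) : ∃ z', p z' = x' ∧ edist z z' < r := by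
  rw [IsRiemannianManifold.out (I := 𝓡 n)] at h
  obtain ⟨γ, h0, h1, hs, hl⟩ := exists_lt_of_riemannianEDist_lt h
  have hcont : Continuous (fun s : unitInterval => γ s) :=
    hs.continuousOn.comp_continuous continuous_subtype_val fun s => s.2
  let γ' : C(unitInterval, M.carrier) := ⟨fun s => γ s, hcont⟩
  have h0' : γ' 0 = p z := by simpa [γ'] using h0
  set Γ : C(unitInterval, N.carrier) := hp.isCovering.liftPath γ' z h0' with hΓdef
  have hΓ : p ∘ Γ = γ' := hp.isCovering.liftPath_lifts γ' z h0'
  have hΓ0 : Γ 0 = z := hp.isCovering.liftPath_zero γ' z h0'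
  have hΓt : ∀ t : unitInterval, p (Γ t) = γ t := fun t => congrFun hΓ t
  have hΓ1 : p (Γ 1) = x' := by rw [hΓt 1]; simpa using h1
  refine ⟨Γ 1, hΓ1, ?_⟩
  have := edist_le_pathELength_of_local M hs Γ fun τ => by
    obtain ⟨U, hU, hUd⟩ := hp.isometric (Γ τ)
    obtain ⟨V, hVU, hVo, hV⟩ := mem_nhds_iff.1 hU
    refine ⟨Γ ⁻¹' V, hVo.preimage Γ.continuous, hV, fun s hs s' hs' => ?_⟩
    rw [← hΓt s, ← hΓt s']
    exact (hUd _ (hVU hs) _ (hVU hs')).ge
  rw [hΓ0] at this
  exact this.trans_lt hl

/-- Points of the same fibre are far apart. -/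
theorem IsRiemCover.exists_separation (hp : IsRiemCover n p) :
    ∃ r > 0, ∀ z z' : N.carrier, p z = p z' → edist z z' < r → z = z' := by
  have hloc : ∀ z : N.carrier, ∃ U : Set N.carrier, IsOpen U ∧ z ∈ U ∧ InjOn p U := by
    intro z
    obtain ⟨s, -, -, -, hs2⟩ := hp.exists_local_section z
    obtain ⟨U, hU, hUo, hzU⟩ := eventually_nhds_iff.1 hs2
    refine ⟨U, hUo, hzU, fun a ha b hb hab => ?_⟩
    rw [← hU a ha, hab, hU b hb]
  choose U hUo hzU hinj using hloc
  obtain ⟨δ, hδ, hleb⟩ := lebesgue_number_lemma_of_emetric (s := (univ : Set N.carrier))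
    (c := U) isCompact_univ hUo (fun z _ => mem_iUnion.2 ⟨z, hzU z⟩)
  refine ⟨δ, hδ, fun z z' hzz' hd => ?_⟩
  obtain ⟨w, hw⟩ := hleb z (mem_univ z)
  refine hinj w (hw (Metric.mem_eball_self hδ)) (hw ?_) hzz'
  rw [Metric.mem_eball, edist_comm]
  exact hd

/-- A Riemannian covering is a local isometry, uniformly. -/
theorem IsRiemCover.edist_eq (hp : IsRiemCover n p) {r : ℝ≥0∞}
    (hr : ∀ z z' : N.carrier, p z = p z' → edist z z' < r → z = z') {z z' : N.carrier}
    (h : edist z z' < r / 2) : edist z z' = edist (p z) (p z') := by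
  have hle : edist (p z) (p z') ≤ edist z z' := by
    have := hp.lipschitz z z'
    simpa using this
  refine le_antisymm ?_ hle
  refine le_of_forall_gt fun c hc => ?_
  have hlt : edist (p z) (p z') < min c (r / 2) := lt_min hc (hle.trans_lt h)
  obtain ⟨w, hw, hzw⟩ := hp.exists_lift_lt z (p z') hlt
  have hwz' : w = z' := by
    refine hr w z' hw ?_
    calc edist w z' ≤ edist w z + edist z z' := edist_triangle _ _ _
      _ < r / 2 + r / 2 := by
        refine ENNReal.add_lt_add ?_ h
        rw [edist_comm]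
        exact hzw.trans_le (min_le_right _ _)
      _ = r := ENNReal.add_halves r
  rw [← hwz']
  exact hzw.trans_le (min_le_left _ _)

/-- Over small balls the covering is a union of 1-Lipschitz sections. -/
theorem IsRiemCover.area_preimage_le_of_subset_ball (hp : IsRiemCover n p) {d : ℕ}
    (hd : ∀ x, (p ⁻¹' {x}).ncard = d) {r : ℝ≥0∞}
    (hr : ∀ z z' : N.carrier, p z = p z' → edist z z' < r → z = z') (i : ℕ) (x : M.carrier)
    {B : Set M.carrier} (hB : B ⊆ Metric.eball x (r / 4)) :
    area i (p ⁻¹' B) ≤ d * area i B := by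
  classical
  have hlift : ∀ (z : N.carrier) (x' : M.carrier), ∃ z', p z = x → x' ∈ B →
      p z' = x' ∧ edist z z' < r / 4 := by
    intro z x'
    by_cases hz : p z = x ∧ x' ∈ B
    · have hlt : edist (p z) x' < r / 4 := by
        rw [hz.1, edist_comm]
        exact hB hz.2
      obtain ⟨z', h1, h2⟩ := hp.exists_lift_lt z x' hlt
      exact ⟨z', fun _ _ => ⟨h1, h2⟩⟩
    · exact ⟨z, fun h1 h2 => absurd ⟨h1, h2⟩ hz⟩
  choose s hs using hlift
  have hr4 : r / 4 + r / 4 = r / 2 := by
    rw [← ENNReal.add_div, ← mul_two, ENNReal.mul_div_right_comm]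
    rw [show (4 : ℝ≥0∞) = 2 * 2 by norm_num]
    rw [ENNReal.div_eq_inv_mul, ENNReal.div_eq_inv_mul, ENNReal.mul_inv (by simp) (by simp)]
    rw [mul_comm, mul_assoc, ← mul_assoc (2 : ℝ≥0∞)]
    rw [ENNReal.mul_inv_cancel (by simp) (by simp), one_mul]
  have hsub : p ⁻¹' B ⊆ ⋃ z ∈ (hp.finite_fiber x).toFinset, s z '' B := by
    intro w hw
    have hwB : p w ∈ B := hw
    obtain ⟨z, hz, hwz⟩ := hp.exists_lift_lt w x (r := r / 4) (hB hwB)
    refine mem_iUnion₂.2 ⟨z, (hp.finite_fiber x).mem_toFinset.2 hz, p w, hwB, ?_⟩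
    obtain ⟨h1, h2⟩ := hs z (p w) hz hwB
    refine hr _ _ h1 ?_
    calc edist (s z (p w)) w ≤ edist (s z (p w)) z + edist z w := edist_triangle _ _ _
      _ < r / 4 + r / 4 := by
        refine ENNReal.add_lt_add ?_ ?_
        · rw [edist_comm]; exact h2
        · rw [edist_comm]; exact hwz
      _ = r / 2 := hr4
      _ ≤ r := ENNReal.half_le_self
  have hlip : ∀ z ∈ (hp.finite_fiber x).toFinset, area i (s z '' B) ≤ area i B := by
    intro z hz
    have hz' : p z = x := (hp.finite_fiber x).mem_toFinset.1 hz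
    have hL : LipschitzOnWith 1 (s z) B := by
      intro a ha b hb
      obtain ⟨ha1, ha2⟩ := hs z a hz' ha
      obtain ⟨hb1, hb2⟩ := hs z b hz' hb
      have hab : edist (s z a) (s z b) < r / 2 := by
        calc edist (s z a) (s z b) ≤ edist (s z a) z + edist z (s z b) := edist_triangle _ _ _
          _ < r / 4 + r / 4 := by
            refine ENNReal.add_lt_add ?_ hb2
            rw [edist_comm]; exact ha2
          _ = r / 2 := hr4
      rw [hp.edist_eq hr hab, ha1, hb1]
      simp
    have := area_image_le i hL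
    simpa using this
  have hcard : (hp.finite_fiber x).toFinset.card = d := by
    rw [← hd x, Set.ncard_eq_toFinset_card _ (hp.finite_fiber x)]
  let _ : MeasurableSpace N.carrier := borel N.carrier
  have _ : BorelSpace N.carrier := ⟨rfl⟩
  have h1 : area i (p ⁻¹' B) ≤ ∑ z ∈ (hp.finite_fiber x).toFinset, area i (s z '' B) := by
    simp only [area_eq_hausdorffMeasure (X := N.carrier)]
    exact (measure_mono hsub).trans (measure_biUnion_finset_le _ _)
  refine h1.trans ((Finset.sum_le_card_nsmul _ _ _ hlip).trans ?_)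
  rw [hcard, nsmul_eq_mul]

/-- Volume of a finite covering. -/
theorem IsRiemCover.area_le (hp : IsRiemCover n p) {d : ℕ} (hd : ∀ x, (p ⁻¹' {x}).ncard = d)
    (i : ℕ) : area i (univ : Set N.carrier) ≤ d * area i (univ : Set M.carrier) := by
  classical
  obtain ⟨r, hr0, hr⟩ := hp.exists_separation
  have hr4 : 0 < r / 4 := ENNReal.div_pos hr0.ne' (by simp)
  obtain ⟨t, -, ht⟩ := (isCompact_univ (X := M.carrier)).elim_nhds_subcover
    (fun x => Metric.eball x (r / 4)) (fun x _ => Metric.eball_mem_nhds x hr4)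
  let _ : MeasurableSpace N.carrier := borel N.carrier
  have _ : BorelSpace N.carrier := ⟨rfl⟩
  let _ : MeasurableSpace M.carrier := borel M.carrier
  have _ : BorelSpace M.carrier := ⟨rfl⟩
  have key : ∀ (t : Finset M.carrier) (B : Set M.carrier), MeasurableSet B →
      B ⊆ ⋃ x ∈ t, Metric.eball x (r / 4) → area i (p ⁻¹' B) ≤ d * area i B := by
    intro t
    induction t using Finset.induction_on with
    | empty =>
      intro B _ hBs
      have : B = ∅ := by
        rw [← subset_empty_iff]
        simpa using hBs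
      rw [this]
      simp [area_eq_hausdorffMeasure]
    | insert x t hx ih =>
      intro B hB hBs
      have h1 := hp.area_preimage_le_of_subset_ball hd hr i x
        (B := B ∩ Metric.eball x (r / 4)) inter_subset_right
      have h2 := ih (B \ Metric.eball x (r / 4)) (hB.diff Metric.isOpen_eball.measurableSet) (by
        rintro y ⟨hy1, hy2⟩
        obtain ⟨w, hw, hyw⟩ := mem_iUnion₂.1 (hBs hy1)
        rcases Finset.mem_insert.1 hw with rfl | hw
        · exact absurd hyw hy2
        · exact mem_iUnion₂.2 ⟨w, hw, hyw⟩)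
      simp only [area_eq_hausdorffMeasure (X := N.carrier),
        area_eq_hausdorffMeasure (X := M.carrier)] at h1 h2 ⊢
      have h3 : p ⁻¹' B ⊆ p ⁻¹' (B ∩ Metric.eball x (r / 4)) ∪
          p ⁻¹' (B \ Metric.eball x (r / 4)) := by
        rw [← preimage_union, inter_union_sdiff]
      refine (measure_mono h3).trans ((measure_union_le _ _).trans ((add_le_add h1 h2).trans ?_))
      rw [← mul_add, measure_inter_add_sdiff _ Metric.isOpen_eball.measurableSet]
  have := key t univ MeasurableSet.univ ht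
  simpa using this

end SepFil
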