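import Pool.Agent.SepFil.Length
import Pool.Agent.SepFil.GoodFil
import Pool.Agent.SepFil.Family
import Pool.Agent.SepFil.LiftSmooth
import Pool.Agent.SepFil.VolCover
import Pool.Agent.SepFil.TriM
import Pool.Agent.SepFil.CycleZ

/-!
# The negative answer to Q1 in dimension three

(module MAIN of the blueprint)
-/

open Set MeasureTheory Manifold Bundle Filter Topology
open scoped ContDiff ENNReal NNReal

namespace SepFil

/-- Smooth triangulations are transported by diffeomorphisms. -/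
theorem SmoothTri.nonempty_of_diffeomorph {n : ℕ} {M M' : Type*} [TopologicalSpace M]
    [ChartedSpace (EuclideanSpace ℝ (Fin n)) M] [TopologicalSpace M']
    [ChartedSpace (EuclideanSpace ℝ (Fin n)) M'] (T : SmoothTri n M)
    (e : Diffeomorph (𝓡 n) (𝓡 n) M M' ∞) : Nonempty (SmoothTri n M') := by
  refine ⟨{ V := T.V, K := T.K, h := e ∘ T.h, cont := ?_, bij := ?_, smooth := ?_ }⟩
  · exact e.continuous.comp_continuousOn T.cont
  · have : BijOn e univ univ := by
      rw [bijOn_univ]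
      exact e.bijective
    exact this.comp T.bij
  · intro s hs x hx hxs
    obtain ⟨g, hg1, hg2, hg3⟩ := T.smoothM s hs x hx hxs
    refine smooth_of_mfderiv ⟨e ∘ g, e.contMDiff.contMDiffAt.comp x hg1, ?_, ?_⟩
    · filter_upwards [hg2] with y hy h1 h2
      simp [hy h1 h2]
    · intro u hu hus h0
      refine hg3 u hu hus ?_
      have h1 : MDifferentiableAt (𝓡 n) (𝓡 n) e (g x) :=
        e.contMDiff.contMDiffAt.mdifferentiableAt (by simp)
      have h2 : MDifferentiableAt (𝓡 n) (𝓡 n) e.symm (e (g x)) :=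
        e.symm.contMDiff.contMDiffAt.mdifferentiableAt (by simp)
      have h3 : MDifferentiableAt 𝓘(ℝ, T.V → ℝ) (𝓡 n) g x := hg1.mdifferentiableAt (by simp)
      rw [mfderiv_comp x h1 h3] at h0
      have h4 : mfderiv (𝓡 n) (𝓡 n) (e.symm ∘ e) (g x) =
          (mfderiv (𝓡 n) (𝓡 n) e.symm (e (g x))).comp (mfderiv (𝓡 n) (𝓡 n) e (g x)) :=
        mfderiv_comp (g x) h2 h1
      have h5 : (e.symm ∘ e : M → M) = id := by
        ext y
        simp
      rw [h5, mfderiv_id] at h4
      have h6 := congrArg (fun L => L (mfderiv 𝓘(ℝ, T.V → ℝ) (𝓡 n) g x u)) h4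
      have h7 : mfderiv (𝓡 n) (𝓡 n) e (g x) (mfderiv 𝓘(ℝ, T.V → ℝ) (𝓡 n) g x u) = 0 := h0
      exact h6.trans ((congrArg (mfderiv (𝓡 n) (𝓡 n) e.symm (e (g x))) h7).trans (map_zero _))

/-- For every constant `C` there is a closed orientable Riemannian 3-manifold `M` such that
every finite covering `N` of `M` has, for every `ε > 0`, an `ε`-near-minimal
`(sys N / 2)`-separating filtration with `Length Z₁ > C (Vol N + ‖N‖)`. -/
theorem strong_counterexample (C : ℝ) : ∃ M : ClosedRiem 3, Orientable 3 M.carrier ∧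
    ∀ (N : ClosedRiem 3) (p : N.carrier → M.carrier), IsRiemCover 3 p → ∀ ε : ℝ, 0 < ε →
      ∃ Z : ℕ → Set N.carrier, IsSepFiltration 3 (sys N.carrier / 2) Z ∧
        IsNearMinimal 3 (sys N.carrier / 2) (ENNReal.ofReal ε) Z ∧
        ENNReal.ofReal C * (area 3 (univ : Set N.carrier) +
          ENNReal.ofReal (simplicialVolume 3 N.carrier)) < area 1 (Z 1) := by
  obtain ⟨V₀, hfam⟩ := exists_metric_family
  obtain ⟨z, hz, hznt⟩ := exists_cycle444
  set A : ℝ := z.sum fun _ a => |(a : ℝ)| with hA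
  have hA0 : 0 ≤ A := Finsupp.sum_nonneg fun _ _ => abs_nonneg _
  set C' : ℝ := max C 0 with hC'
  have hC0 : 0 ≤ C' := le_max_right _ _
  have hCC : C ≤ C' := le_max_left _ _
  set b : ℝ := C' * (V₀ + A) * 25 + 25 with hb
  have hb1 : 1 ≤ b := by
    have : 0 ≤ C' * (V₀ + A) * 25 := by positivity
    linarith
  have hb0 : 0 < b := by linarith
  obtain ⟨R, e, hor, hvol, hlip⟩ := hfam b hb1
  refine ⟨R, hor, fun N p hp ε hε => ?_⟩
  obtain ⟨d, hd0, hd⟩ := hp.exists_sheets
  obtain ⟨T444⟩ := nonempty_smoothTri444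
  obtain ⟨TR⟩ := T444.nonempty_of_diffeomorph e.symm
  have hρ : 0 < sys N.carrier / 2 := ENNReal.div_pos (sys_pos N).ne' (by simp)
  obtain ⟨Z, hZ, hmin, hgood⟩ := exists_good_filtration N (hp.nonempty_smoothTri TR) hρ
    (ENNReal.ofReal_pos.2 hε)
  refine ⟨Z, hZ, hmin, ?_⟩
  have hlen := length_lower_bound e hb0 hlip hp hd (B := valence) (by norm_num [valence]) hgood
    (hZ.subcomplex 1 (by norm_num)) (by simpa [hZ.top] using hZ.separating 2 (by norm_num))
    (hZ.separating 1 (by norm_num))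
  refine lt_of_lt_of_le ?_ hlen
  have h1 : area 3 (univ : Set N.carrier) ≤ ENNReal.ofReal (d * V₀) := by
    refine (hp.area_le hd 3).trans ?_
    rw [ENNReal.ofReal_mul (by positivity), ENNReal.ofReal_natCast, ENNReal.ofReal_coe_nnreal]
    gcongr
  obtain ⟨z', hz', hznt', hzn⟩ := exists_cycle_of_homeomorph
    (X := K444.real × Circle) (Y := R.carrier) (e.toHomeomorph.symm) hz hznt
  have h2 : simplicialVolume 3 N.carrier ≤ d * A := by
    have := simplicialVolume_le hp.isCovering hp.finite_fiber hd0 hd 2 z' hz' hznt'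
    rwa [hzn] at this
  have h3 : ENNReal.ofReal C * (area 3 (univ : Set N.carrier) +
      ENNReal.ofReal (simplicialVolume 3 N.carrier)) ≤
      ENNReal.ofReal (C' * (d * V₀ + d * A)) := by
    rw [ENNReal.ofReal_mul hC0, ENNReal.ofReal_add (by positivity) (by positivity)]
    gcongr
  refine lt_of_le_of_lt h3 ?_
  rw [ENNReal.ofReal_lt_ofReal_iff_of_nonneg (by positivity)]
  have hdpos : (1 : ℝ) ≤ d := by exact_mod_cast hd0
  have h4 : (16 * b * d / (valence : ℝ)) = d * (b * (2 / 25)) := by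
    norm_num [valence]
    ring
  rw [h4, hb]
  have h5 : C' * (d * V₀ + d * A) = d * (C' * (V₀ + A)) := by ring
  rw [h5]
  have h6 : 0 ≤ C' * (V₀ + A) := by positivity
  have hd' : (0 : ℝ) < d := by linarith
  refine mul_lt_mul_of_pos_left ?_ hd'
  nlinarith

theorem not_Q1 : ¬ Q1 3 := by
  rintro ⟨C, -, ε, hε, h⟩
  obtain ⟨M, hM, hN⟩ := strong_counterexample C
  obtain ⟨N, p, hp, hb⟩ := h M hM
  obtain ⟨Z, h1, h2, h3⟩ := hN N p hp ε hε
  exact absurd (hb Z h1 h2) (not_le.2 h3)

end SepFil
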