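import Pool.Agent.SepFil.Systole

/-!
# Sections of coverings over balls of radius sys/2

(module SEC of the blueprint)
-/

open Set MeasureTheory Manifold Bundle Filter Topology
open scoped ContDiff ENNReal NNReal

namespace SepFil

/-- `W ⊆ Y` is good if every finite covering of `Y` (given as a surjective local homeomorphism
from a compact Hausdorff space) has a continuous section over `W`. -/
def GoodOpen {Y : Type} [TopologicalSpace Y] (W : Set Y) : Prop :=
  ∀ (E : Type) [TopologicalSpace E] [CompactSpace E] [T2Space E] (pE : E → Y),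
    IsLocalHomeomorph pE → Function.Surjective pE →
      ∃ s : Y → E, ContinuousOn s W ∧ ∀ y ∈ W, pE (s y) = y

/-! ### Lifts of paths -/

/-- the path `σ` has a lift from `e` to `e'` -/
def PLifts {E X : Type} [TopologicalSpace E] [TopologicalSpace X] (p : E → X) {a b : X}
    (σ : Path a b) (e e' : E) : Prop :=
  ∃ Γ : Path e e', ∀ t, p (Γ t) = σ t

section lifts
variable {E X : Type} [TopologicalSpace E] [TopologicalSpace X] {p : E → X}

theorem PLifts.symm {a b : X} {σ : Path a b} {e e' : E} (h : PLifts p σ e e') :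
    PLifts p σ.symm e' e := by
  obtain ⟨Γ, hΓ⟩ := h
  exact ⟨Γ.symm, fun t => hΓ _⟩

theorem PLifts.trans {a b c : X} {σ : Path a b} {τ : Path b c} {e e' e'' : E}
    (h : PLifts p σ e e') (h' : PLifts p τ e' e'') : PLifts p (σ.trans τ) e e'' := by
  obtain ⟨Γ, hΓ⟩ := h
  obtain ⟨Γ', hΓ'⟩ := h'
  refine ⟨Γ.trans Γ', fun t => ?_⟩
  rw [Path.trans_apply, Path.trans_apply]
  split_ifs with ht
  · exact hΓ _
  · exact hΓ' _

theorem PLifts.source {a b : X} {σ : Path a b} {e e' : E} (h : PLifts p σ e e') : p e = a := by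
  obtain ⟨Γ, hΓ⟩ := h
  have := hΓ 0
  rwa [Γ.source, σ.source] at this

theorem PLifts.target {a b : X} {σ : Path a b} {e e' : E} (h : PLifts p σ e e') : p e' = b := by
  obtain ⟨Γ, hΓ⟩ := h
  have := hΓ 1
  rwa [Γ.target, σ.target] at this

theorem exists_plifts (cov : IsCoveringMap p) {a b : X} (σ : Path a b) (e : E) (he : p e = a) :
    ∃ e', PLifts p σ e e' := by
  have h0 : (σ : C(unitInterval, X)) 0 = p e := by rw [he]; exact σ.source
  refine ⟨cov.liftPath σ e h0 1, ⟨cov.liftPath σ e h0, cov.liftPath_zero .., rfl⟩, fun t => ?_⟩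
  exact congr_fun (cov.liftPath_lifts σ e h0) t

theorem PLifts.eq_liftPath (cov : IsCoveringMap p) {a b : X} {σ : Path a b} {e e' : E}
    (h : PLifts p σ e e') (h0 : (σ : C(unitInterval, X)) 0 = p e) :
    e' = cov.liftPath σ e h0 1 := by
  obtain ⟨Γ, hΓ⟩ := h
  have h1 : (Γ : C(unitInterval, E)) = cov.liftPath σ e h0 :=
    (cov.eq_liftPath_iff' ..).mpr ⟨funext hΓ, Γ.source⟩
  rw [← h1]; exact Γ.target.symm

theorem PLifts.unique (cov : IsCoveringMap p) {a b : X} {σ σ' : Path a b} {e e' e'' : E}
    (h : PLifts p σ e e') (h' : PLifts p σ' e e'') (hσ : σ.Homotopic σ') : e' = e'' := by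
  have h0 : (σ : C(unitInterval, X)) 0 = p e := by rw [h.source]; exact σ.source
  have h1 : (σ' : C(unitInterval, X)) 0 = p e := by rw [h.source]; exact σ'.source
  rw [h.eq_liftPath cov h0, h'.eq_liftPath cov h1]
  exact cov.liftPath_apply_one_eq_of_homotopicRel hσ e h0 h1

end lifts

/-- projection of a lift -/
theorem PLifts.proj {E Y X : Type} [TopologicalSpace E] [TopologicalSpace Y] [TopologicalSpace X]
    {r : E → Y} {q : Y → X} (hr : Continuous r) {a b : X} {σ : Path a b} {e e' : E}
    (h : PLifts (q ∘ r) σ e e') : PLifts q σ (r e) (r e') := by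
  obtain ⟨Γ, hΓ⟩ := h
  exact ⟨Γ.map hr, fun t => hΓ t⟩

/-- lift of a path inside the target of a local inverse -/
theorem plifts_local {E X : Type} [TopologicalSpace E] [TopologicalSpace X] {p : E → X}
    (φ : OpenPartialHomeomorph E X) (hφ : p = φ) {e : E} (he : e ∈ φ.source) {a b : X}
    (ha : p e = a) (σ : Path a b) (hσ : ∀ t, σ t ∈ φ.target) : PLifts p σ e (φ.symm b) := by
  refine ⟨⟨⟨fun t => φ.symm (σ t), ?_⟩, ?_, ?_⟩, ?_⟩
  · exact φ.continuousOn_symm.comp_continuous σ.continuous hσ
  · show φ.symm (σ 0) = e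
    rw [σ.source, ← ha, hφ]
    exact φ.left_inv he
  · show φ.symm (σ 1) = φ.symm b
    rw [σ.target]
  · intro t
    show p (φ.symm (σ t)) = σ t
    rw [hφ]
    exact φ.right_inv (hσ t)

/-! ### Length of a concatenation -/

theorem eVariationOn_trans_le {X : Type*} [PseudoEMetricSpace X] {x y z : X} (γ : Path x y)
    (δ : Path y z) :
    eVariationOn (γ.trans δ) univ ≤ eVariationOn γ univ + eVariationOn δ univ := by
  set m : unitInterval := ⟨1 / 2, by norm_num, by norm_num⟩ with hm
  have hun : (univ : Set unitInterval) = Iic m ∪ Ici m := Iic_union_Ici.symm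
  rw [hun, eVariationOn.union _ (x := m) isGreatest_Iic isLeast_Ici]
  apply add_le_add
  · set φ : unitInterval → unitInterval := fun t => projIcc 0 1 zero_le_one (2 * (t : ℝ)) with hφ
    have hmono : MonotoneOn φ (Iic m) := by
      intro s _ t _ hst
      apply monotone_projIcc
      have : (s : ℝ) ≤ t := hst
      linarith
    have h1 : EqOn (γ.trans δ) (γ ∘ φ) (Iic m) := by
      intro t ht
      have ht' : (t : ℝ) ≤ 1 / 2 := ht
      rw [Path.trans_apply, dif_pos ht']
      simp only [Function.comp_apply, hφ]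
      congr 1
      rw [projIcc_of_mem]
    rw [eVariationOn.congr h1]
    rw [← hun]
    exact eVariationOn.comp_le_of_monotoneOn _ φ hmono (mapsTo_univ _ _)
  · set φ : unitInterval → unitInterval := fun t => projIcc 0 1 zero_le_one (2 * (t : ℝ) - 1)
      with hφ
    have hmono : MonotoneOn φ (Ici m) := by
      intro s _ t _ hst
      apply monotone_projIcc
      have : (s : ℝ) ≤ t := hst
      linarith
    have h1 : EqOn (γ.trans δ) (δ ∘ φ) (Ici m) := by
      intro t ht
      have ht' : (1 / 2 : ℝ) ≤ t := ht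
      rw [Path.trans_apply]
      simp only [Function.comp_apply, hφ]
      split_ifs with h2
      · have h3 : (t : ℝ) = 1 / 2 := le_antisymm h2 ht'
        have h4 : (⟨2 * (t : ℝ), (unitInterval.mul_pos_mem_iff zero_lt_two).2 ⟨t.2.1, h2⟩⟩ :
            unitInterval) = 1 := by
          apply Subtype.ext; simp [h3]
        have h5 : projIcc (0 : ℝ) 1 zero_le_one (2 * (t : ℝ) - 1) = 0 := by
          rw [h3]; norm_num
        rw [h5, δ.source]
        refine (congrArg γ h4).trans γ.target
      · congr 1
        rw [projIcc_of_mem]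
    rw [eVariationOn.congr h1]
    rw [← hun]
    exact eVariationOn.comp_le_of_monotoneOn _ φ hmono (mapsTo_univ _ _)

/-- The traces on `Y` of the balls of radius `sys / 2` are good, for every compact subset `Y` of
`N` which covers a space `S` through the restriction of a map `pr : N → S`. -/
theorem goodOpen_ball {n : ℕ} (N : ClosedRiem n) {S : Type} [TopologicalSpace S] [T2Space S]
    (pr : N.carrier → S) (hpr : Continuous pr) (Y : Set N.carrier) (hY : IsClosed Y)
    (hloc : IsLocalHomeomorph (fun y : Y => pr y)) (x : N.carrier) :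
    GoodOpen {y : Y | (y : N.carrier) ∈ Metric.eball x (sys N.carrier / 2)} := by
  intro E _ _ _ pE hpE hsurj
  classical
  have : CompactSpace Y := isCompact_iff_compactSpace.mp hY.isCompact
  set q : Y → S := fun y => pr y with hq
  have covq : IsCoveringMap q := isLocalHomeomorph_iff_isCoveringMap.mp hloc
  have hR : IsLocalHomeomorph (q ∘ pE) := hloc.comp hpE
  have covR : IsCoveringMap (q ∘ pE) := isLocalHomeomorph_iff_isCoveringMap.mp hR
  choose e he using hsurj
  set ρ : ℝ≥0∞ := sys N.carrier / 2 with hρ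
  -- the graph of the section
  set G : Y → E → Prop := fun y z => ∃ (γ : Path x (y : N.carrier)) (y' : Y),
    eVariationOn γ univ < ρ ∧ PLifts q (γ.map hpr) y' y ∧
      PLifts (q ∘ pE) (γ.map hpr) (e y') z with hG
  have hex : ∀ y : Y, edist (y : N.carrier) x < ρ → ∃ z, G y z := by
    intro y hy
    rw [edist_comm] at hy
    obtain ⟨γ, hγ⟩ := exists_short_path N hy
    obtain ⟨y', hy'⟩ := exists_plifts covq (γ.map hpr).symm y rfl
    have h1 : PLifts q (γ.map hpr) y' y := by
      have := hy'.symm
      rwa [Path.symm_symm] at this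
    obtain ⟨z, hz⟩ := exists_plifts covR (γ.map hpr) (e y') (by
      rw [Function.comp_apply, he]; exact h1.source)
    exact ⟨z, γ, y', hγ, h1, hz⟩
  have huniq : ∀ y z z', G y z → G y z' → z = z' := by
    rintro y z z' ⟨γ, w, h1, h2, h3⟩ ⟨γ', w', h1', h2', h3'⟩
    have hsum : eVariationOn γ univ + eVariationOn γ' univ < sys N.carrier := by
      calc eVariationOn γ univ + eVariationOn γ' univ < ρ + ρ := ENNReal.add_lt_add h1 h1'
        _ = sys N.carrier := ENNReal.add_halves _
    have hhom : γ.Homotopic γ' := homotopic_of_length_lt γ γ' hsum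
    have hhom' : (γ.map hpr).Homotopic (γ'.map hpr) := hhom.map ⟨pr, hpr⟩
    have hw : w = w' := PLifts.unique covq h2.symm h2'.symm hhom'.symm₂
    subst hw
    exact PLifts.unique covR h3 h3' hhom'
  have hproj : ∀ y z, G y z → pE z = y := by
    rintro y z ⟨γ, w, h1, h2, h3⟩
    have h4 := h3.proj hpE.continuous
    rw [he] at h4
    exact PLifts.unique covq h4 h2 (Path.Homotopic.refl _)
  set s : Y → E := fun y => if h : ∃ z, G y z then h.choose else e y with hs
  have hsG : ∀ y, (∃ z, G y z) → G y (s y) := by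
    intro y h
    simp only [hs, dif_pos h]
    exact h.choose_spec
  refine ⟨s, ?_, fun y hy => hproj y (s y) (hsG y (hex y hy))⟩
  intro y₀ hy₀
  apply ContinuousAt.continuousWithinAt
  obtain ⟨γ, w, h1, h2, h3⟩ := hsG y₀ (hex y₀ hy₀)
  obtain ⟨φq, hφq, hφq'⟩ := hloc y₀
  obtain ⟨φR, hφR, hφR'⟩ := hR (s y₀)
  have hR0 : (q ∘ pE) (s y₀) = q y₀ := h3.target
  -- the neighbourhood
  have hO : IsOpen (φR.target ∩ φq.target) := φR.open_target.inter φq.open_target
  have hO0 : pr y₀ ∈ φR.target ∩ φq.target := by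
    constructor
    · have := φR.map_source hφR
      rw [← hφR', hR0] at this
      exact this
    · have := φq.map_source hφq
      rw [← hφq'] at this
      exact this
  have hpre : pr ⁻¹' (φR.target ∩ φq.target) ∈ 𝓝 (y₀ : N.carrier) :=
    (hO.preimage hpr).mem_nhds hO0
  obtain ⟨r, hr, hrs⟩ := EMetric.mem_nhds_iff.mp hpre
  set r' : ℝ≥0∞ := min r (ρ - eVariationOn γ univ) with hr'
  have hr'0 : 0 < r' := lt_min hr (tsub_pos_of_lt h1)
  have hev : ∀ᶠ y : Y in 𝓝 y₀, G y (φR.symm (q y)) := by
    have e1 : ∀ᶠ y : Y in 𝓝 y₀, edist (y₀ : N.carrier) (y : N.carrier) < r' := by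
      have : ∀ᶠ z : N.carrier in 𝓝 (y₀ : N.carrier), edist (y₀ : N.carrier) z < r' := by
        filter_upwards [Metric.eball_mem_nhds (y₀ : N.carrier) hr'0] with z hz
        rw [edist_comm]; exact hz
      exact continuous_subtype_val.continuousAt.eventually this
    have e2 : ∀ᶠ y : Y in 𝓝 y₀, y ∈ φq.source := φq.open_source.mem_nhds hφq
    filter_upwards [e1, e2] with y hy1 hy2
    obtain ⟨δ, hδ⟩ := exists_short_path N hy1
    have hδO : ∀ t, pr (δ t) ∈ φR.target ∩ φq.target := by
      intro t
      apply hrs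
      have h5 : edist (δ t) (δ 0) ≤ eVariationOn δ univ :=
        eVariationOn.edist_le _ (mem_univ _) (mem_univ _)
      rw [δ.source] at h5
      exact (h5.trans_lt hδ).trans_le (min_le_left _ _)
    have l1 : PLifts q (δ.map hpr) y₀ y := by
      have := plifts_local (p := q) φq hφq' hφq (a := pr y₀) (b := pr y) rfl (δ.map hpr)
        (fun t => (hδO t).2)
      have h6 : φq.symm (pr y) = y := by
        have h7 := φq.left_inv hy2
        rw [← hφq'] at h7
        exact h7
      rwa [h6] at this
    have l2 : PLifts (q ∘ pE) (δ.map hpr) (s y₀) (φR.symm (q y)) :=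
      plifts_local (p := q ∘ pE) φR hφR' hφR (a := pr y₀) (b := pr y) hR0 (δ.map hpr)
        (fun t => (hδO t).1)
    refine ⟨γ.trans δ, w, ?_, ?_, ?_⟩
    · refine (eVariationOn_trans_le γ δ).trans_lt ?_
      have h8 : eVariationOn δ univ < ρ - eVariationOn γ univ := hδ.trans_le (min_le_right _ _)
      rw [add_comm]
      exact lt_tsub_iff_right.mp h8
    · rw [Path.map_trans]
      exact h2.trans l1
    · rw [Path.map_trans]
      exact h3.trans l2
  have hev2 : ∀ᶠ y : Y in 𝓝 y₀, φR.symm (q y) = s y := by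
    filter_upwards [hev] with y hy
    exact huniq y _ _ hy (hsG y ⟨_, hy⟩)
  have hcont : ContinuousAt (fun y : Y => φR.symm (q y)) y₀ := by
    have h9 : ContinuousAt φR.symm (q y₀) := φR.continuousAt_symm hO0.1
    exact ContinuousAt.comp (f := q) h9 hloc.continuous.continuousAt
  exact hcont.congr hev2

end SepFil
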