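import Pool.Agent.SepFil.Surf

/-!
# Derived complexes of closed surfaces

(module SDER of the blueprint)
-/

open Set Filter Topology
open scoped ENNReal

namespace SepFil

set_option linter.unusedSectionVars false

variable {V : Type*} [Fintype V] [DecidableEq V]

/-- elements of a chain are determined by their cardinality -/
lemma sd_eq_of_card {K : ASC V} {c : Finset (Finset V)} (hc : c ∈ K.derived.faces)
    {s t : Finset V} (hs : s ∈ c) (ht : t ∈ c) (h : s.card = t.card) : s = t := by
  rcases hc.2.2 s hs t ht with h1 | h1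
  · exact Finset.eq_of_subset_of_card_le h1 h.symm.le
  · exact (Finset.eq_of_subset_of_card_le h1 h.le).symm

lemma sd_subset_of_card {K : ASC V} {c : Finset (Finset V)} (hc : c ∈ K.derived.faces)
    {s t : Finset V} (hs : s ∈ c) (ht : t ∈ c) (h : s.card ≤ t.card) : s ⊆ t := by
  rcases hc.2.2 s hs t ht with h1 | h1
  · exact h1
  · rw [Finset.eq_of_subset_of_card_le h1 h]

lemma sd_card_image {K : ASC V} {c : Finset (Finset V)} (hc : c ∈ K.derived.faces) :
    (c.image Finset.card).card = c.card :=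
  Finset.card_image_of_injOn fun _ hs _ ht h => sd_eq_of_card hc hs ht h

lemma sd_image_subset {K : ASC V} (h3 : ∀ s ∈ K.faces, s.card ≤ 3) {c : Finset (Finset V)}
    (hc : c ∈ K.derived.faces) : c.image Finset.card ⊆ Finset.Icc 1 3 := by
  intro k hk
  obtain ⟨s, hs, rfl⟩ := Finset.mem_image.1 hk
  rw [Finset.mem_Icc]
  exact ⟨(K.nonempty_of_mem _ (hc.2.1 s hs)).card_pos, h3 s (hc.2.1 s hs)⟩

lemma sd_card_le {K : ASC V} (h3 : ∀ s ∈ K.faces, s.card ≤ 3) {c : Finset (Finset V)}
    (hc : c ∈ K.derived.faces) : c.card ≤ 3 := by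
  rw [← sd_card_image hc]
  exact (Finset.card_le_card (sd_image_subset h3 hc)).trans (by simp)

/-- insertion of a face of given cardinality in a chain -/
lemma sd_insert {K : ASC V} {c : Finset (Finset V)} (hc : c ∈ K.derived.faces) {T : Finset V}
    (hT : T ∈ K.faces) (hcT : ∀ s ∈ c, s ⊆ T) {k : ℕ} (hk : 1 ≤ k) (hkT : k ≤ T.card) :
    ∃ u : Finset V, u.card = k ∧ u ⊆ T ∧ insert u c ∈ K.derived.faces := by
  obtain ⟨A, hA1, hA2, hA3⟩ : ∃ A : Finset V, A.card ≤ k ∧ (∀ s ∈ c, s.card ≤ k → s ⊆ A) ∧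
      (A = ∅ ∨ A ∈ c) := by
    rcases (c.filter (fun s => s.card ≤ k)).eq_empty_or_nonempty with h | h
    · refine ⟨∅, by simp, fun s hs hsk => ?_, Or.inl rfl⟩
      exfalso
      have : s ∈ c.filter (fun s => s.card ≤ k) := Finset.mem_filter.2 ⟨hs, hsk⟩
      rw [h] at this
      simp at this
    · obtain ⟨A, hA, hmax⟩ := Finset.exists_max_image _ Finset.card h
      rw [Finset.mem_filter] at hA
      exact ⟨A, hA.2, fun s hs hsk => sd_subset_of_card hc hs hA.1
        (hmax s (Finset.mem_filter.2 ⟨hs, hsk⟩)), Or.inr hA.1⟩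
  obtain ⟨B, hB1, hB2, hB3, hB4⟩ : ∃ B : Finset V, k ≤ B.card ∧ B ⊆ T ∧
      (∀ s ∈ c, k < s.card → B ⊆ s) ∧ (B = T ∨ B ∈ c) := by
    rcases (c.filter (fun s => k < s.card)).eq_empty_or_nonempty with h | h
    · refine ⟨T, hkT, subset_rfl, fun s hs hsk => ?_, Or.inl rfl⟩
      exfalso
      have : s ∈ c.filter (fun s => k < s.card) := Finset.mem_filter.2 ⟨hs, hsk⟩
      rw [h] at this
      simp at this
    · obtain ⟨B, hB, hmin⟩ := Finset.exists_min_image _ Finset.card h
      rw [Finset.mem_filter] at hB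
      exact ⟨B, hB.2.le, hcT B hB.1, fun s hs hsk => sd_subset_of_card hc hB.1 hs
        (hmin s (Finset.mem_filter.2 ⟨hs, hsk⟩)), Or.inr hB.1⟩
  have hAB : A ⊆ B := by
    rcases hA3 with rfl | hA3
    · exact Finset.empty_subset _
    · rcases hB4 with rfl | hB4
      · exact hcT A hA3
      · exact sd_subset_of_card hc hA3 hB4 (hA1.trans hB1)
  obtain ⟨u, hu1, hu2, hu3⟩ := Finset.exists_subsuperset_card_eq hAB hA1 hB1
  have huc : ∀ s ∈ c, u ⊆ s ∨ s ⊆ u := by
    intro s hs
    rcases le_or_gt s.card k with h | h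
    · exact Or.inr ((hA2 s hs h).trans hu1)
    · exact Or.inl (hu2.trans (hB3 s hs h))
  have huK : u ∈ K.faces := K.down_closed T hT u (hu2.trans hB2) (by
    rw [← Finset.card_pos]; omega)
  refine ⟨u, hu3, hu2.trans hB2, Finset.insert_nonempty _ _, ?_, ?_⟩
  · intro s hs
    rcases Finset.mem_insert.1 hs with rfl | hs
    · exact huK
    · exact hc.2.1 s hs
  · intro s hs t ht
    rcases Finset.mem_insert.1 hs with hs1 | hs1
    · rcases Finset.mem_insert.1 ht with ht1 | ht1
      · exact Or.inl (by rw [hs1, ht1])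
      · rw [hs1]
        exact huc t ht1
    · rcases Finset.mem_insert.1 ht with ht1 | ht1
      · rw [ht1]
        exact (huc s hs1).symm
      · exact hc.2.2 s hs1 t ht1

lemma sd_pure {K : ASC V} (hK : IsSurf K) {c : Finset (Finset V)} (hc : c ∈ K.derived.faces) :
    ∃ t ∈ K.derived.fk 3, c ⊆ t := by
  obtain ⟨m, hm, hmax⟩ := exists_max_chain hc
  obtain ⟨T, hT, hmT⟩ := hK.pure m (hc.2.1 m hm)
  rw [ASC.mem_fk] at hT
  have h0 : ∀ s ∈ c, s ⊆ T := fun s hs => (hmax s hs).trans hmT
  obtain ⟨u1, h1, h1T, hc1⟩ := sd_insert hc hT.1 h0 (k := 1) le_rfl (by omega)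
  have h1' : ∀ s ∈ insert u1 c, s ⊆ T := by
    intro s hs
    rcases Finset.mem_insert.1 hs with rfl | hs
    · exact h1T
    · exact h0 s hs
  obtain ⟨u2, h2, h2T, hc2⟩ := sd_insert hc1 hT.1 h1' (k := 2) (by omega) (by omega)
  have h2' : ∀ s ∈ insert u2 (insert u1 c), s ⊆ T := by
    intro s hs
    rcases Finset.mem_insert.1 hs with rfl | hs
    · exact h2T
    · exact h1' s hs
  obtain ⟨u3, h3, h3T, hc3⟩ := sd_insert hc2 hT.1 h2' (k := 3) (by omega) (by omega)
  refine ⟨insert u3 (insert u2 (insert u1 c)), ?_, ((Finset.subset_insert _ _).trans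
    (Finset.subset_insert _ _)).trans (Finset.subset_insert u3 _)⟩
  rw [ASC.mem_fk]
  refine ⟨hc3, le_antisymm (sd_card_le hK.card_le hc3) ?_⟩
  rw [← sd_card_image hc3]
  have : ({1, 2, 3} : Finset ℕ) ⊆
      (insert u3 (insert u2 (insert u1 c))).image Finset.card := by
    intro k hk
    rw [Finset.mem_image]
    simp only [Finset.mem_insert, Finset.mem_singleton] at hk
    rcases hk with rfl | rfl | rfl
    · exact ⟨u1, by simp, h1⟩
    · exact ⟨u2, by simp, h2⟩
    · exact ⟨u3, by simp, h3⟩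
  exact (Finset.card_le_card this)

/-- the triangles of the derived complex are the flags -/
lemma sd_mem_fk3 {K : ASC V} (h3 : ∀ s ∈ K.faces, s.card ≤ 3) {c : Finset (Finset V)} :
    c ∈ K.derived.fk 3 ↔ ∃ (v : V) (e T : Finset V), v ∈ e ∧ e ⊆ T ∧ e.card = 2 ∧ T.card = 3 ∧
      T ∈ K.faces ∧ c = {{v}, e, T} := by
  rw [ASC.mem_fk]
  constructor
  · rintro ⟨hc, hcard⟩
    have h1 : c.image Finset.card = Finset.Icc 1 3 := by
      apply Finset.eq_of_subset_of_card_le (sd_image_subset h3 hc)
      rw [sd_card_image hc, hcard]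
      simp
    have h2 : ∀ k, 1 ≤ k → k ≤ 3 → ∃ s ∈ c, s.card = k := by
      intro k hk hk'
      have : k ∈ c.image Finset.card := by rw [h1, Finset.mem_Icc]; exact ⟨hk, hk'⟩
      simpa using this
    obtain ⟨s1, hs1, hs1c⟩ := h2 1 le_rfl (by omega)
    obtain ⟨s2, hs2, hs2c⟩ := h2 2 (by omega) (by omega)
    obtain ⟨s3, hs3, hs3c⟩ := h2 3 (by omega) (by omega)
    obtain ⟨v, rfl⟩ := Finset.card_eq_one.1 hs1c
    refine ⟨v, s2, s3, ?_, sd_subset_of_card hc hs2 hs3 (by omega), hs2c, hs3c, hc.2.1 _ hs3, ?_⟩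
    · exact Finset.singleton_subset_iff.1 (sd_subset_of_card hc hs1 hs2 (by simp [hs2c]))
    · symm
      apply Finset.eq_of_subset_of_card_le
      · intro s hs
        simp only [Finset.mem_insert, Finset.mem_singleton] at hs
        rcases hs with rfl | rfl | rfl <;> assumption
      · rw [hcard]
        rw [Finset.card_eq_three.2]
        refine ⟨{v}, s2, s3, ?_, ?_, ?_, rfl⟩
        · rintro rfl; simp at hs2c
        · rintro rfl; simp at hs3c
        · rintro rfl; omega
  · rintro ⟨v, e, T, hv, he, hec, hTc, hT, rfl⟩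
    have hvT : v ∈ T := he hv
    refine ⟨⟨by simp, ?_, ?_⟩, ?_⟩
    · intro s hs
      simp only [Finset.mem_insert, Finset.mem_singleton] at hs
      rcases hs with rfl | rfl | rfl
      · exact K.down_closed T hT _ (by simpa using hvT) (by simp)
      · exact K.down_closed T hT _ he ⟨v, hv⟩
      · exact hT
    · intro s hs t ht
      simp only [Finset.mem_insert, Finset.mem_singleton] at hs ht
      rcases hs with rfl | rfl | rfl <;> rcases ht with rfl | rfl | rfl <;>
        simp [hv, he, hvT]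
    · rw [Finset.card_eq_three.2]
      refine ⟨{v}, e, T, ?_, ?_, ?_, rfl⟩
      · rintro rfl; simp at hec
      · rintro rfl; simp at hTc
      · rintro rfl; omega

/-- the edges of the derived complex -/
lemma sd_mem_fk2 {K : ASC V} {c : Finset (Finset V)} :
    c ∈ K.derived.fk 2 ↔ ∃ s t : Finset V, s ∈ K.faces ∧ t ∈ K.faces ∧ s ⊂ t ∧ c = {s, t} := by
  rw [ASC.mem_fk]
  constructor
  · rintro ⟨hc, hcard⟩
    obtain ⟨s, t, hne, rfl⟩ := Finset.card_eq_two.1 hcard
    rcases hc.2.2 s (by simp) t (by simp) with h | h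
    · exact ⟨s, t, hc.2.1 s (by simp), hc.2.1 t (by simp), lt_of_le_of_ne h hne, rfl⟩
    · exact ⟨t, s, hc.2.1 t (by simp), hc.2.1 s (by simp), lt_of_le_of_ne h (Ne.symm hne),
        Finset.pair_comm _ _⟩
  · rintro ⟨s, t, hs, ht, hst, rfl⟩
    refine ⟨⟨by simp, ?_, ?_⟩, Finset.card_pair hst.ne⟩
    · intro r hr
      simp only [Finset.mem_insert, Finset.mem_singleton] at hr
      rcases hr with rfl | rfl <;> assumption
    · intro r hr r' hr'
      simp only [Finset.mem_insert, Finset.mem_singleton] at hr hr'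
      rcases hr with rfl | rfl <;> rcases hr' with rfl | rfl
      · exact Or.inl subset_rfl
      · exact Or.inl hst.subset
      · exact Or.inr hst.subset
      · exact Or.inl subset_rfl


/-- the edges of a triangle at a vertex -/
lemma sd_edges_at {K : ASC V} {t : Finset V} (ht : t ∈ K.fk 3) {v : V} (hv : v ∈ t) :
    ((K.fk 2).filter (fun e => v ∈ e ∧ e ⊆ t)).card = 2 := by
  rw [ASC.mem_fk] at ht
  have h : (K.fk 2).filter (fun e => v ∈ e ∧ e ⊆ t) = (t.erase v).image (fun w => {v, w}) := by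
    ext e
    rw [Finset.mem_filter, ASC.mem_fk, Finset.mem_image]
    constructor
    · rintro ⟨⟨_, hc⟩, hve, het⟩
      obtain ⟨a, b, hab, rfl⟩ := Finset.card_eq_two.1 hc
      have ha : a ∈ t := het (by simp)
      have hb : b ∈ t := het (by simp)
      simp only [Finset.mem_insert, Finset.mem_singleton] at hve
      rcases hve with rfl | rfl
      · exact ⟨b, Finset.mem_erase.2 ⟨hab.symm, hb⟩, rfl⟩
      · exact ⟨a, Finset.mem_erase.2 ⟨hab, ha⟩, Finset.pair_comm _ _⟩
    · rintro ⟨w, hw, rfl⟩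
      rw [Finset.mem_erase] at hw
      have hsub : ({v, w} : Finset V) ⊆ t := by
        intro x hx
        simp only [Finset.mem_insert, Finset.mem_singleton] at hx
        rcases hx with rfl | rfl
        · exact hv
        · exact hw.2
      exact ⟨⟨K.down_closed t ht.1 _ hsub (by simp), Finset.card_pair hw.1.symm⟩, by simp, hsub⟩
  rw [h, Finset.card_image_of_injOn, Finset.card_erase_of_mem hv, ht.2]
  intro w hw w' hw' hww
  have hw1 : w ≠ v := (Finset.mem_erase.1 hw).1
  have h2 : w ∈ ({v, w'} : Finset V) := by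
    rw [← show ({v, w} : Finset V) = {v, w'} from hww]
    simp
  simp only [Finset.mem_insert, Finset.mem_singleton] at h2
  exact h2.resolve_left hw1

lemma sd_insert_mem {K : ASC V} {s t r : Finset V} (hs : s ∈ K.faces) (ht : t ∈ K.faces)
    (hst : s ⊂ t) (hrs : r ≠ s) (hrt : r ≠ t) :
    insert r {s, t} ∈ K.derived.fk 3 ↔ r ∈ K.faces ∧ (r ⊆ s ∨ s ⊆ r) ∧ (r ⊆ t ∨ t ⊆ r) := by
  rw [ASC.mem_fk]
  constructor
  · rintro ⟨h, -⟩
    exact ⟨h.2.1 r (by simp), h.2.2 r (by simp) s (by simp), h.2.2 r (by simp) t (by simp)⟩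
  · rintro ⟨hr, h1, h2⟩
    refine ⟨⟨by simp, ?_, ?_⟩, ?_⟩
    · intro x hx
      simp only [Finset.mem_insert, Finset.mem_singleton] at hx
      rcases hx with rfl | rfl | rfl <;> assumption
    · intro x hx y hy
      simp only [Finset.mem_insert, Finset.mem_singleton] at hx hy
      rcases hx with hx | hx | hx <;> rcases hy with hy | hy | hy <;> rw [hx, hy]
      · exact Or.inl subset_rfl
      · exact h1
      · exact h2
      · exact h1.symm
      · exact Or.inl subset_rfl
      · exact Or.inl hst.subset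
      · exact h2.symm
      · exact Or.inr hst.subset
      · exact Or.inl subset_rfl
    · exact Finset.card_eq_three.2 ⟨r, s, t, hrs, hrt, hst.ne, rfl⟩

lemma sd_two_aux {K : ASC V} {s t : Finset V} (hst : s ≠ t) {X : Finset (Finset V)}
    (hX : ∀ r, r ∈ X ↔ r ≠ s ∧ r ≠ t ∧ insert r {s, t} ∈ K.derived.fk 3) :
    ((K.derived.fk 3).filter (fun d => {s, t} ⊆ d)).card = X.card := by
  have h : (K.derived.fk 3).filter (fun d => {s, t} ⊆ d) = X.image (fun r => insert r {s, t}) := by
    ext d
    rw [Finset.mem_filter, Finset.mem_image]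
    constructor
    · rintro ⟨hd, hsub⟩
      have hdc : d.card = 3 := (ASC.mem_fk.1 hd).2
      have h1 : (d \ {s, t}).card = 1 := by
        rw [Finset.card_sdiff_of_subset hsub, hdc, Finset.card_pair hst]
      obtain ⟨r, hr⟩ := Finset.card_eq_one.1 h1
      have hr1 : r ∈ d \ {s, t} := by rw [hr]; simp
      rw [Finset.mem_sdiff] at hr1
      have h2 : insert r {s, t} = d := by
        rw [← Finset.sdiff_union_of_subset hsub, hr]
        rfl
      have hr2 := hr1.2
      simp only [Finset.mem_insert, Finset.mem_singleton, not_or] at hr2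
      exact ⟨r, (hX r).2 ⟨hr2.1, hr2.2, by rw [h2]; exact hd⟩, h2⟩
    · rintro ⟨r, hr, rfl⟩
      exact ⟨((hX r).1 hr).2.2, Finset.subset_insert _ _⟩
  rw [h, Finset.card_image_of_injOn]
  intro r hr r' hr' hrr
  have h1 := (hX r).1 hr
  have h2 : r ∈ (fun r => insert r ({s, t} : Finset (Finset V))) r' := by
    rw [← hrr]
    simp
  simp only [Finset.mem_insert, Finset.mem_singleton] at h2
  rcases h2 with h2 | h2 | h2
  · exact h2
  · exact absurd h2 h1.1
  · exact absurd h2 h1.2.1

lemma sd_two {K : ASC V} (hK : IsSurf K) {c : Finset (Finset V)} (hc : c ∈ K.derived.fk 2) :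
    ((K.derived.fk 3).filter (fun t => c ⊆ t)).card = 2 := by
  obtain ⟨s, t, hs, ht, hst, rfl⟩ := sd_mem_fk2.1 hc
  have h1 := hK.card_le t ht
  have h2 := (K.nonempty_of_mem s hs).card_pos
  have h3 := Finset.card_lt_card hst
  have hcases : (s.card = 1 ∧ t.card = 2) ∨ (s.card = 1 ∧ t.card = 3) ∨
      (s.card = 2 ∧ t.card = 3) := by omega
  rcases hcases with ⟨hsc, htc⟩ | ⟨hsc, htc⟩ | ⟨hsc, htc⟩
  · rw [sd_two_aux hst.ne (X := (K.fk 3).filter (fun r => t ⊆ r))]
    · exact hK.two t (ASC.mem_fk.2 ⟨ht, htc⟩)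
    · intro r
      rw [Finset.mem_filter, ASC.mem_fk]
      constructor
      · rintro ⟨⟨hr, hrc⟩, htr⟩
        have hrs : r ≠ s := by rintro rfl; omega
        have hrt : r ≠ t := by rintro rfl; omega
        exact ⟨hrs, hrt, (sd_insert_mem hs ht hst hrs hrt).2
          ⟨hr, Or.inr (hst.subset.trans htr), Or.inr htr⟩⟩
      · rintro ⟨hrs, hrt, h⟩
        rw [sd_insert_mem hs ht hst hrs hrt] at h
        obtain ⟨hr, h5, h6⟩ := h
        have h7 := hK.card_le r hr
        have h8 := (K.nonempty_of_mem r hr).card_pos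
        rcases h6 with h6 | h6
        · exfalso
          have h9 := Finset.card_le_card h6
          have h10 : r.card ≠ 2 := fun h => hrt (Finset.eq_of_subset_of_card_le h6 (by omega))
          rcases h5 with h5 | h5
          · exact hrs (Finset.eq_of_subset_of_card_le h5 (by omega))
          · exact hrs (Finset.eq_of_subset_of_card_le h5 (by omega)).symm
        · have h9 := Finset.card_le_card h6
          have h10 : r.card ≠ 2 := fun h =>
            hrt (Finset.eq_of_subset_of_card_le h6 (by omega)).symm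
          exact ⟨⟨hr, by omega⟩, h6⟩
  · obtain ⟨v, rfl⟩ := Finset.card_eq_one.1 hsc
    have hvt : v ∈ t := Finset.singleton_subset_iff.1 hst.subset
    rw [sd_two_aux hst.ne (X := (K.fk 2).filter (fun e => v ∈ e ∧ e ⊆ t))]
    · exact sd_edges_at (ASC.mem_fk.2 ⟨ht, htc⟩) hvt
    · intro r
      rw [Finset.mem_filter, ASC.mem_fk]
      constructor
      · rintro ⟨⟨hr, hrc⟩, hvr, hrt'⟩
        have hrs : r ≠ {v} := by rintro rfl; simp at hrc
        have hrt : r ≠ t := by rintro rfl; omega
        exact ⟨hrs, hrt, (sd_insert_mem hs ht hst hrs hrt).2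
          ⟨hr, Or.inr (Finset.singleton_subset_iff.2 hvr), Or.inl hrt'⟩⟩
      · rintro ⟨hrs, hrt, h⟩
        rw [sd_insert_mem hs ht hst hrs hrt] at h
        obtain ⟨hr, h5, h6⟩ := h
        have h7 := hK.card_le r hr
        have h8 := (K.nonempty_of_mem r hr).card_pos
        have h9 : ¬ t ⊆ r := fun h => hrt (Finset.eq_of_subset_of_card_le h (by omega)).symm
        have h10 : ¬ r ⊆ {v} := fun h => hrs (Finset.eq_of_subset_of_card_le h (by
          rw [Finset.card_singleton]; omega))
        have h11 := h6.resolve_right h9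
        have h12 := h5.resolve_left h10
        have h13 := Finset.card_le_card h11
        have h14 : r.card ≠ 3 := fun h => hrt (Finset.eq_of_subset_of_card_le h11 (by omega))
        have h15 : r.card ≠ 1 := fun h => hrs (Finset.eq_of_subset_of_card_le h12 (by
          rw [Finset.card_singleton]; omega)).symm
        exact ⟨⟨hr, by omega⟩, Finset.singleton_subset_iff.1 h12, h11⟩
  · rw [sd_two_aux hst.ne (X := s.image (fun v => {v}))]
    · rw [Finset.card_image_of_injective _ Finset.singleton_injective, hsc]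
    · intro r
      rw [Finset.mem_image]
      constructor
      · rintro ⟨v, hv, rfl⟩
        have hrs : ({v} : Finset V) ≠ s := by rintro rfl; simp at hsc
        have hrt : ({v} : Finset V) ≠ t := by rintro rfl; simp at htc
        have hvs : ({v} : Finset V) ⊆ s := Finset.singleton_subset_iff.2 hv
        exact ⟨hrs, hrt, (sd_insert_mem hs ht hst hrs hrt).2
          ⟨K.down_closed s hs _ hvs (by simp), Or.inl hvs, Or.inl (hvs.trans hst.subset)⟩⟩
      · rintro ⟨hrs, hrt, h⟩
        rw [sd_insert_mem hs ht hst hrs hrt] at h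
        obtain ⟨hr, h5, h6⟩ := h
        have h7 := hK.card_le r hr
        have h8 := (K.nonempty_of_mem r hr).card_pos
        have h9 : ¬ t ⊆ r := fun h => hrt (Finset.eq_of_subset_of_card_le h (by omega)).symm
        have h11 := h6.resolve_right h9
        have h12 : ¬ s ⊆ r := by
          intro h
          have h13 := Finset.card_le_card h
          have h14 : r.card ≠ 2 := fun h' => hrs (Finset.eq_of_subset_of_card_le h (by omega)).symm
          exact hrt (Finset.eq_of_subset_of_card_le h11 (by omega))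
        have h13 := h5.resolve_right h12
        have h14 := Finset.card_le_card h13
        have h15 : r.card ≠ 2 := fun h => hrs (Finset.eq_of_subset_of_card_le h13 (by omega))
        obtain ⟨v, rfl⟩ := Finset.card_eq_one.1 (show r.card = 1 by omega)
        exact ⟨v, h13 (by simp), rfl⟩

/-- links of closed surfaces are connected -/
lemma surf_link_conn {K : ASC V} (hK : IsSurf K) {v : V} (hv : {v} ∈ K.faces)
    {g : Finset V → ZMod 2}
    (hg : ∀ t ∈ K.fk 3, ∀ e ∈ K.fk 2, ∀ e' ∈ K.fk 2, v ∈ e → v ∈ e' → e ⊆ t → e' ⊆ t → g e = g e')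
    {e1 e2 : Finset V} (he1 : e1 ∈ K.fk 2) (he2 : e2 ∈ K.fk 2) (hv1 : v ∈ e1) (hv2 : v ∈ e2) :
    g e1 = g e2 := by
  by_contra hne
  have h12 : e1 ≠ e2 := fun h => hne (by rw [h])
  set ψ : Finset V → ZMod 2 := fun e => (if e = e1 then 1 else 0) + (if e = e2 then 1 else 0)
    with hψ
  have h1 : ∀ h : Finset V → ZMod 2,
      ∑ e ∈ (K.fk 2).filter (fun e => v ∈ e), h e * ψ e = h e1 + h e2 := by
    intro h
    simp only [hψ, mul_add, mul_ite, mul_one, mul_zero, Finset.sum_add_distrib]
    rw [Finset.sum_ite_eq' _ e1, Finset.sum_ite_eq' _ e2, if_pos, if_pos]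
    · exact Finset.mem_filter.2 ⟨he2, hv2⟩
    · exact Finset.mem_filter.2 ⟨he1, hv1⟩
  have h2 : ∑ e ∈ (K.fk 2).filter (fun e => v ∈ e), ψ e = 0 := by
    have := h1 (fun _ => 1)
    simp only [one_mul] at this
    rw [this]
    decide
  obtain ⟨f, hf⟩ := hK.link v hv ψ h2
  have h3 : ∀ e ∈ (K.fk 2).filter (fun e => v ∈ e), g e * ψ e =
      ∑ t ∈ (K.fk 3).filter (fun t => e ⊆ t), g e * f t := by
    intro e he
    rw [Finset.mem_filter] at he
    obtain ⟨t, t', htt, ht, ht', het, het', hft⟩ := surf_two hK he.1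
    rw [hft, Finset.sum_pair htt, ← mul_add, hf e he.1 he.2 t ht t' ht' het het' htt]
  have h4 := h1 g
  rw [Finset.sum_congr rfl h3] at h4
  have h5 : ∑ e ∈ (K.fk 2).filter (fun e => v ∈ e), ∑ t ∈ (K.fk 3).filter (fun t => e ⊆ t),
      g e * f t = 0 := by
    simp_rw [Finset.sum_filter (s := K.fk 3)]
    rw [Finset.sum_comm]
    apply Finset.sum_eq_zero
    intro t ht
    rw [← Finset.sum_filter, Finset.filter_filter, ← Finset.sum_mul]
    by_cases hvt : v ∈ t
    · obtain ⟨a, b, hab, h⟩ := Finset.card_eq_two.1 (sd_edges_at ht hvt)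
      have ha : a ∈ (K.fk 2).filter (fun e => v ∈ e ∧ e ⊆ t) := by rw [h]; simp
      have hb : b ∈ (K.fk 2).filter (fun e => v ∈ e ∧ e ⊆ t) := by rw [h]; simp
      rw [Finset.mem_filter] at ha hb
      rw [h, Finset.sum_pair hab, hg t ht a ha.1 b hb.1 ha.2.1 hb.2.1 ha.2.2 hb.2.2,
        CharTwo.add_self_eq_zero, zero_mul]
    · rw [Finset.sum_eq_zero, zero_mul]
      intro e he
      rw [Finset.mem_filter] at he
      exact absurd (he.2.2 he.2.1) hvt
  rw [h5] at h4
  have h6 : ∀ x y : ZMod 2, 0 = x + y → x = y := by decide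
  exact hne (h6 _ _ h4)

/-- the link condition follows from the connectedness of the link -/
lemma link_of_conn {W : Type*} [Fintype W] [DecidableEq W] {K : ASC W}
    (htwo : ∀ e ∈ K.fk 2, ((K.fk 3).filter (fun t => e ⊆ t)).card = 2) {v : W}
    (hconn : ∀ g : Finset W → ZMod 2,
      (∀ t ∈ K.fk 3, ∀ e ∈ K.fk 2, ∀ e' ∈ K.fk 2, v ∈ e → v ∈ e' → e ⊆ t → e' ⊆ t → g e = g e') →
      ∀ e ∈ K.fk 2, ∀ e' ∈ K.fk 2, v ∈ e → v ∈ e' → g e = g e')
    (ψ : Finset W → ZMod 2) (hψ : ∑ e ∈ (K.fk 2).filter (fun e => v ∈ e), ψ e = 0) :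
    ∃ f : Finset W → ZMod 2, ∀ e ∈ K.fk 2, v ∈ e → ∀ t ∈ K.fk 3, ∀ t' ∈ K.fk 3,
      e ⊆ t → e ⊆ t' → t ≠ t' → f t + f t' = ψ e := by
  classical
  let δ : (Finset W → ZMod 2) →ₗ[ZMod 2] (Finset W → ZMod 2) :=
    { toFun := fun f e => if e ∈ K.fk 2 ∧ v ∈ e then ∑ t ∈ (K.fk 3).filter (fun t => e ⊆ t), f t
        else 0
      map_add' := by
        intro f g
        funext e
        rw [Pi.add_apply]
        split_ifs
        · simp [Finset.sum_add_distrib]
        · simp
      map_smul' := by
        intro r f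
        funext e
        rw [Pi.smul_apply, RingHom.id_apply]
        split_ifs
        · simp [Finset.mul_sum]
        · simp }
  have hδ : ∀ f e, δ f e = if e ∈ K.fk 2 ∧ v ∈ e then ∑ t ∈ (K.fk 3).filter (fun t => e ⊆ t), f t
        else 0 := fun _ _ => rfl
  set ψ' : Finset W → ZMod 2 := fun e => if e ∈ K.fk 2 ∧ v ∈ e then ψ e else 0 with hψ'
  have hmem : ψ' ∈ LinearMap.range δ := by
    rw [← Subspace.forall_mem_dualAnnihilator_apply_eq_zero_iff]
    intro φ hφ
    rw [Submodule.mem_dualAnnihilator] at hφ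
    have hφs : ∀ x : Finset W → ZMod 2, φ x = ∑ e, x e * φ (Pi.single e 1) := by
      intro x
      conv_lhs => rw [← Finset.univ_sum_single x]
      rw [map_sum]
      apply Finset.sum_congr rfl
      intro e _
      have : (Pi.single e (x e) : Finset W → ZMod 2) = x e • Pi.single e 1 := by
        rw [← Pi.single_smul]
        simp
      rw [this, map_smul, smul_eq_mul]
    set g : Finset W → ZMod 2 := fun e => φ (Pi.single e 1) with hg
    have hsum : ∀ (x : Finset W → ZMod 2), φ (fun e => if e ∈ K.fk 2 ∧ v ∈ e then x e else 0)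
        = ∑ e ∈ (K.fk 2).filter (fun e => v ∈ e), x e * g e := by
      intro x
      rw [hφs, Finset.sum_filter, ← Finset.sum_subset (Finset.subset_univ (K.fk 2))]
      · apply Finset.sum_congr rfl
        intro e he
        by_cases hve : v ∈ e <;> simp [he, hve, hg]
      · intro e _ he
        simp [he]
    have hgt : ∀ t ∈ K.fk 3, ∑ e ∈ (K.fk 2).filter (fun e => v ∈ e ∧ e ⊆ t), g e = 0 := by
      intro t ht
      have h1 := hφ (δ (Pi.single t 1)) ⟨_, rfl⟩
      have h2 : δ (Pi.single t 1) = fun e => if e ∈ K.fk 2 ∧ v ∈ e then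
          (if e ⊆ t then 1 else 0) else 0 := by
        funext e
        rw [hδ]
        split_ifs with h3 h4
        · rw [Finset.sum_eq_single t]
          · simp
          · intro t' _ h
            simp [h]
          · intro h
            exact absurd (Finset.mem_filter.2 ⟨ht, h4⟩) h
        · apply Finset.sum_eq_zero
          intro t' ht'
          rw [Finset.mem_filter] at ht'
          have : t' ≠ t := by
            rintro rfl
            exact h4 ht'.2
          simp [this]
        · rfl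
      rw [h2, hsum] at h1
      rw [← Finset.filter_filter, Finset.sum_filter (p := fun e => e ⊆ t)]
      refine Eq.trans ?_ h1
      apply Finset.sum_congr rfl
      intro e _
      split_ifs <;> simp
    have hgc := hconn g (by
      intro t ht e he e' he' hve hve' het het'
      by_cases hee : e = e'
      · rw [hee]
      · have hvt : v ∈ t := het hve
        have h1 : (K.fk 2).filter (fun e => v ∈ e ∧ e ⊆ t) = {e, e'} := by
          symm
          apply Finset.eq_of_subset_of_card_le
          · intro x hx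
            simp only [Finset.mem_insert, Finset.mem_singleton] at hx
            rcases hx with rfl | rfl
            · exact Finset.mem_filter.2 ⟨he, hve, het⟩
            · exact Finset.mem_filter.2 ⟨he', hve', het'⟩
          · rw [sd_edges_at ht hvt, Finset.card_pair hee]
        have h2 := hgt t ht
        rw [h1, Finset.sum_pair hee] at h2
        have h6 : ∀ x y : ZMod 2, x + y = 0 → x = y := by decide
        exact h6 _ _ h2)
    rw [hψ', hsum]
    rcases ((K.fk 2).filter (fun e => v ∈ e)).eq_empty_or_nonempty with h | ⟨e0, he0⟩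
    · rw [h, Finset.sum_empty]
    · have h1 : ∀ e ∈ (K.fk 2).filter (fun e => v ∈ e), ψ e * g e = ψ e * g e0 := by
        intro e he
        rw [Finset.mem_filter] at he he0
        rw [hgc e he.1 e0 he0.1 he.2 he0.2]
      rw [Finset.sum_congr rfl h1, ← Finset.sum_mul, hψ, zero_mul]
  obtain ⟨f, hf⟩ := hmem
  refine ⟨f, fun e he hve t ht t' ht' het het' htt => ?_⟩
  have h1 := congrFun hf e
  rw [hδ, if_pos ⟨he, hve⟩, hψ'] at h1
  simp only [he, hve, and_self, if_true] at h1
  have h2 : (K.fk 3).filter (fun t => e ⊆ t) = {t, t'} := by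
    symm
    apply Finset.eq_of_subset_of_card_le
    · intro x hx
      simp only [Finset.mem_insert, Finset.mem_singleton] at hx
      rcases hx with rfl | rfl
      · exact Finset.mem_filter.2 ⟨ht, het⟩
      · exact Finset.mem_filter.2 ⟨ht', het'⟩
    · rw [htwo e he, Finset.card_pair htt]
  rw [h2, Finset.sum_pair htt] at h1
  exact h1


lemma sd_pair_fk2 {K : ASC V} {s t : Finset V} (hs : s ∈ K.faces) (ht : t ∈ K.faces)
    (hst : s ⊂ t) : ({s, t} : Finset (Finset V)) ∈ K.derived.fk 2 :=
  sd_mem_fk2.2 ⟨s, t, hs, ht, hst, rfl⟩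

/-- connectedness of the links of the derived complex -/
lemma sd_conn {K : ASC V} (hK : IsSurf K) {s : Finset V} (hs : s ∈ K.faces)
    (g : Finset (Finset V) → ZMod 2)
    (hg : ∀ t ∈ K.derived.fk 3, ∀ e ∈ K.derived.fk 2, ∀ e' ∈ K.derived.fk 2, s ∈ e → s ∈ e' →
      e ⊆ t → e' ⊆ t → g e = g e') :
    ∀ e ∈ K.derived.fk 2, ∀ e' ∈ K.derived.fk 2, s ∈ e → s ∈ e' → g e = g e' := by
  -- the two edges at `s` of a flag
  have key : ∀ a b : Finset V, a ∈ K.faces → b ∈ K.faces → a ≠ b → a ≠ s → b ≠ s →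
      (a ⊆ b ∨ b ⊆ a) → (a ⊆ s ∨ s ⊆ a) → (b ⊆ s ∨ s ⊆ b) → g {a, s} = g {b, s} := by
    intro a b ha hb hab has hbs h1 h2 h3
    have hcard : ({a, b, s} : Finset (Finset V)).card = 3 :=
      Finset.card_eq_three.2 ⟨a, b, s, hab, has, hbs, rfl⟩
    have hmem : ∀ x ∈ ({a, b, s} : Finset (Finset V)), x ∈ K.faces := by
      intro x hx
      simp only [Finset.mem_insert, Finset.mem_singleton] at hx
      rcases hx with rfl | rfl | rfl <;> assumption
    have hf : ({a, b, s} : Finset (Finset V)) ∈ K.derived.faces := by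
      refine ⟨by simp, hmem, ?_⟩
      intro x hx y hy
      simp only [Finset.mem_insert, Finset.mem_singleton] at hx hy
      rcases hx with hx | hx | hx <;> rcases hy with hy | hy | hy <;> rw [hx, hy]
      · exact Or.inl subset_rfl
      · exact h1
      · exact h2
      · exact h1.symm
      · exact Or.inl subset_rfl
      · exact h3
      · exact h2.symm
      · exact h3.symm
      · exact Or.inl subset_rfl
    have hsub1 : ({a, s} : Finset (Finset V)) ⊆ {a, b, s} := by
      intro x hx
      simp only [Finset.mem_insert, Finset.mem_singleton] at hx ⊢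
      tauto
    have hsub2 : ({b, s} : Finset (Finset V)) ⊆ {a, b, s} := by
      intro x hx
      simp only [Finset.mem_insert, Finset.mem_singleton] at hx ⊢
      tauto
    exact hg {a, b, s} (ASC.mem_fk.2 ⟨hf, hcard⟩)
      {a, s} (ASC.mem_fk.2 ⟨K.derived.down_closed _ hf _ hsub1 (by simp), Finset.card_pair has⟩)
      {b, s} (ASC.mem_fk.2 ⟨K.derived.down_closed _ hf _ hsub2 (by simp), Finset.card_pair hbs⟩)
      (by simp) (by simp) hsub1 hsub2
  -- the edges at `s`
  have hedge : ∀ e ∈ K.derived.fk 2, s ∈ e → ∃ a, a ∈ K.faces ∧ a ≠ s ∧ (a ⊆ s ∨ s ⊆ a) ∧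
      e = {a, s} := by
    intro e he hse
    obtain ⟨x, y, hx, hy, hxy, rfl⟩ := sd_mem_fk2.1 he
    simp only [Finset.mem_insert, Finset.mem_singleton] at hse
    rcases hse with rfl | rfl
    · exact ⟨y, hy, hxy.ne', Or.inr hxy.subset, Finset.pair_comm _ _⟩
    · exact ⟨x, hx, hxy.ne, Or.inl hxy.subset, rfl⟩
  suffices h : ∀ a b : Finset V, a ∈ K.faces → b ∈ K.faces → a ≠ s → b ≠ s → (a ⊆ s ∨ s ⊆ a) →
      (b ⊆ s ∨ s ⊆ b) → g {a, s} = g {b, s} by
    intro e he e' he' hse hse'
    obtain ⟨a, ha, has, ha', rfl⟩ := hedge e he hse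
    obtain ⟨b, hb, hbs, hb', rfl⟩ := hedge e' he' hse'
    exact h a b ha hb has hbs ha' hb'
  have hs1 := (K.nonempty_of_mem s hs).card_pos
  have hs3 := hK.card_le s hs
  have hcases : s.card = 1 ∨ s.card = 2 ∨ s.card = 3 := by omega
  rcases hcases with hsc | hsc | hsc
  · -- a vertex
    obtain ⟨v, rfl⟩ := Finset.card_eq_one.1 hsc
    have h1 : ∀ a ∈ K.faces, a ≠ {v} → (a ⊆ {v} ∨ {v} ⊆ a) → v ∈ a ∧ 2 ≤ a.card := by
      intro a ha hav h
      have h2 := (K.nonempty_of_mem a ha).card_pos
      rcases h with h | h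
      · exact absurd (Finset.eq_of_subset_of_card_le h (by rw [Finset.card_singleton]; omega)) hav
      · refine ⟨Finset.singleton_subset_iff.1 h, ?_⟩
        by_contra hc
        exact hav (Finset.eq_of_subset_of_card_le h (by rw [Finset.card_singleton]; omega)).symm
    have h2 : ∀ a ∈ K.faces, v ∈ a → 2 ≤ a.card → ∃ e ∈ K.fk 2, v ∈ e ∧ g {a, {v}} = g {e, {v}} := by
      intro a ha hva hac
      have hac3 := hK.card_le a ha
      by_cases hc : a.card = 2
      · exact ⟨a, ASC.mem_fk.2 ⟨ha, hc⟩, hva, rfl⟩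
      · obtain ⟨e, he1, he2, he3⟩ := Finset.exists_subsuperset_card_eq (n := 2)
          (Finset.singleton_subset_iff.2 hva) (by simp) hac
        have he : e ∈ K.faces := K.down_closed a ha e he2 (by rw [← Finset.card_pos]; omega)
        refine ⟨e, ASC.mem_fk.2 ⟨he, he3⟩, Finset.singleton_subset_iff.1 he1, ?_⟩
        apply key a e ha he
        · rintro rfl; omega
        · rintro rfl; simp at hac
        · rintro rfl; simp at he3
        · exact Or.inr he2
        · exact Or.inr (Finset.singleton_subset_iff.2 hva)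
        · exact Or.inr he1
    intro a b ha hb hav hbv ha' hb'
    obtain ⟨hva, hac⟩ := h1 a ha hav ha'
    obtain ⟨hvb, hbc⟩ := h1 b hb hbv hb'
    obtain ⟨e, he, hve, h3⟩ := h2 a ha hva hac
    obtain ⟨e', he', hve', h4⟩ := h2 b hb hvb hbc
    rw [h3, h4]
    apply surf_link_conn hK hs (g := fun e => g {e, {v}}) _ he he' hve hve'
    intro t ht x hx y hy hvx hvy hxt hyt
    rw [ASC.mem_fk] at ht hx hy
    have h5 : ∀ x : Finset V, x ∈ K.faces ∧ x.card = 2 → v ∈ x → x ⊆ t → g {x, {v}} = g {t, {v}} := by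
      intro x hx hvx hxt
      apply key x t hx.1 ht.1
      · rintro rfl; omega
      · rintro rfl; simp at hx
      · rintro rfl; simp at ht
      · exact Or.inl hxt
      · exact Or.inr (Finset.singleton_subset_iff.2 hvx)
      · exact Or.inr (Finset.singleton_subset_iff.2 (hxt hvx))
    show g {x, {v}} = g {y, {v}}
    rw [h5 x hx hvx hxt, h5 y hy hvy hyt]
  · -- an edge
    obtain ⟨v0, hv0⟩ := K.nonempty_of_mem s hs
    obtain ⟨T0, T1, -, hT0, -, hsT0, -, -⟩ := surf_two hK (ASC.mem_fk.2 ⟨hs, hsc⟩)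
    rw [ASC.mem_fk] at hT0
    have h1 : ∀ v ∈ s, ∀ T ∈ K.faces, T.card = 3 → s ⊆ T → g {{v}, s} = g {T, s} := by
      intro v hv T hT hTc hsT
      have hvs : ({v} : Finset V) ⊆ s := Finset.singleton_subset_iff.2 hv
      apply key {v} T (K.down_closed s hs _ hvs (by simp)) hT
      · rintro rfl; simp at hTc
      · rintro rfl; simp at hsc
      · rintro rfl; omega
      · exact Or.inl (hvs.trans hsT)
      · exact Or.inl hvs
      · exact Or.inr hsT
    have h2 : ∀ a ∈ K.faces, a ≠ s → (a ⊆ s ∨ s ⊆ a) → g {a, s} = g {T0, s} := by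
      intro a ha has h
      have hac := hK.card_le a ha
      have hac0 := (K.nonempty_of_mem a ha).card_pos
      rcases h with h | h
      · have h3 := Finset.card_le_card h
        have h4 : a.card ≠ 2 := fun h' => has (Finset.eq_of_subset_of_card_le h (by omega))
        obtain ⟨v, rfl⟩ := Finset.card_eq_one.1 (show a.card = 1 by omega)
        exact h1 v (h (by simp)) T0 hT0.1 hT0.2 hsT0
      · have h3 := Finset.card_le_card h
        have h4 : a.card ≠ 2 := fun h' => has (Finset.eq_of_subset_of_card_le h (by omega)).symm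
        rw [← h1 v0 hv0 a ha (by omega) h, ← h1 v0 hv0 T0 hT0.1 hT0.2 hsT0]
    intro a b ha hb has hbs ha' hb'
    rw [h2 a ha has ha', h2 b hb hbs hb']
  · -- a triangle
    obtain ⟨v0, hv0⟩ := K.nonempty_of_mem s hs
    have hsubs : ∀ x ⊆ s, x.Nonempty → x ∈ K.faces := fun x hx hne => K.down_closed s hs x hx hne
    have h1 : ∀ e ⊆ s, e.card = 2 → ∀ v ∈ e, g {{v}, s} = g {e, s} := by
      intro e he hec v hv
      have hvs : ({v} : Finset V) ⊆ e := Finset.singleton_subset_iff.2 hv
      apply key {v} e (hsubs _ (hvs.trans he) (by simp)) (hsubs e he ⟨v, hv⟩)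
      · rintro rfl; simp at hec
      · rintro rfl; simp at hsc
      · rintro rfl; omega
      · exact Or.inl hvs
      · exact Or.inl (hvs.trans he)
      · exact Or.inl he
    have h2 : ∀ v ∈ s, g {{v}, s} = g {{v0}, s} := by
      intro v hv
      by_cases hvv : v = v0
      · rw [hvv]
      · have hsub : ({v, v0} : Finset V) ⊆ s := by
          intro x hx
          simp only [Finset.mem_insert, Finset.mem_singleton] at hx
          rcases hx with rfl | rfl <;> assumption
        rw [h1 {v, v0} hsub (Finset.card_pair hvv) v (by simp),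
          h1 {v, v0} hsub (Finset.card_pair hvv) v0 (by simp)]
    have h3 : ∀ a ∈ K.faces, a ≠ s → (a ⊆ s ∨ s ⊆ a) → g {a, s} = g {{v0}, s} := by
      intro a ha has h
      have hac := hK.card_le a ha
      have hac0 := (K.nonempty_of_mem a ha).card_pos
      rcases h with h | h
      · have h3 := Finset.card_le_card h
        have h4 : a.card ≠ 3 := fun h' => has (Finset.eq_of_subset_of_card_le h (by omega))
        by_cases h5 : a.card = 1
        · obtain ⟨v, rfl⟩ := Finset.card_eq_one.1 h5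
          exact h2 v (h (by simp))
        · obtain ⟨v, hv⟩ := K.nonempty_of_mem a ha
          rw [← h1 a h (by omega) v hv, h2 v (h hv)]
      · exact absurd (Finset.eq_of_subset_of_card_le h (by omega)).symm has
    intro a b ha hb has hbs ha' hb'
    rw [h3 a ha has ha', h3 b hb hbs hb']

/-- The derived complex of a closed surface is a closed surface. -/
theorem IsSurf.derived {K : ASC V} (hK : IsSurf K) : IsSurf K.derived where
  card_le := fun _ hs => sd_card_le hK.card_le hs
  pure := fun _ hs => sd_pure hK hs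
  two := fun _ he => sd_two hK he
  link := by
    intro s hs ψ hψ
    exact link_of_conn (fun _ he => sd_two hK he)
      (sd_conn hK (hs.2.1 s (by simp))) ψ hψ

/-- `3 F = 2 E` -/
lemma surf_count {W : Type*} [Fintype W] [DecidableEq W] {K : ASC W} (hK : IsSurf K) :
    3 * (K.fk 3).card = 2 * (K.fk 2).card := by
  have h1 := Finset.sum_card_bipartiteAbove_eq_sum_card_bipartiteBelow
    (s := K.fk 2) (t := K.fk 3) (fun e t => e ⊆ t)
  have h2 : ∀ e ∈ K.fk 2, (Finset.bipartiteAbove (fun e t => e ⊆ t) (K.fk 3) e).card = 2 :=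
    fun e he => hK.two e he
  have h3 : ∀ t ∈ K.fk 3, (Finset.bipartiteBelow (fun e t => e ⊆ t) (K.fk 2) t).card = 3 := by
    intro t ht
    rw [ASC.mem_fk] at ht
    have : Finset.bipartiteBelow (fun e t => e ⊆ t) (K.fk 2) t = Finset.powersetCard 2 t := by
      ext e
      rw [Finset.mem_bipartiteBelow, ASC.mem_fk, Finset.mem_powersetCard]
      constructor
      · rintro ⟨⟨_, h⟩, h'⟩
        exact ⟨h', h⟩
      · rintro ⟨h', h⟩
        exact ⟨⟨K.down_closed t ht.1 e h' (by rw [← Finset.card_pos]; omega), h⟩, h'⟩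
    rw [this, Finset.card_powersetCard, ht.2]
    rfl
  rw [Finset.sum_congr rfl h2, Finset.sum_congr rfl h3, Finset.sum_const, Finset.sum_const,
    smul_eq_mul, smul_eq_mul] at h1
  omega

lemma sd_card_fk1 {K : ASC V} (h3 : ∀ s ∈ K.faces, s.card ≤ 3) :
    (K.derived.fk 1).card = (K.fk 1).card + (K.fk 2).card + (K.fk 3).card := by
  have h : K.derived.fk 1 = (K.fk 1 ∪ K.fk 2 ∪ K.fk 3).image (fun s => {s}) := by
    ext c
    rw [ASC.mem_fk, Finset.mem_image]
    constructor
    · rintro ⟨hc, hcard⟩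
      obtain ⟨s, rfl⟩ := Finset.card_eq_one.1 hcard
      have hs : s ∈ K.faces := hc.2.1 s (by simp)
      have h1 := h3 s hs
      have h2 := (K.nonempty_of_mem s hs).card_pos
      refine ⟨s, ?_, rfl⟩
      simp only [Finset.mem_union, ASC.mem_fk]
      have : s.card = 1 ∨ s.card = 2 ∨ s.card = 3 := by omega
      tauto
    · rintro ⟨s, hs, rfl⟩
      simp only [Finset.mem_union, ASC.mem_fk] at hs
      have hs' : s ∈ K.faces := by tauto
      refine ⟨⟨by simp, ?_, ?_⟩, by simp⟩
      · intro x hx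
        rw [Finset.mem_singleton] at hx
        rwa [hx]
      · intro x hx y hy
        rw [Finset.mem_singleton] at hx hy
        rw [hx, hy]
        exact Or.inl subset_rfl
  rw [h, Finset.card_image_of_injective _ Finset.singleton_injective, Finset.card_union_of_disjoint,
    Finset.card_union_of_disjoint]
  · rw [Finset.disjoint_left]
    intro s h1 h2
    rw [ASC.mem_fk] at h1 h2
    omega
  · rw [Finset.disjoint_left]
    intro s h1 h2
    rw [Finset.mem_union, ASC.mem_fk, ASC.mem_fk] at h1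
    rw [ASC.mem_fk] at h2
    omega

lemma sd_card_fk3 {K : ASC V} (h3 : ∀ s ∈ K.faces, s.card ≤ 3) :
    (K.derived.fk 3).card = 6 * (K.fk 3).card := by
  have h1 : ((K.fk 3).sigma (fun T => T.offDiag)).card = 6 * (K.fk 3).card := by
    rw [Finset.card_sigma, Finset.sum_congr rfl (g := fun _ => 6), Finset.sum_const, smul_eq_mul,
      mul_comm]
    intro T hT
    rw [ASC.mem_fk] at hT
    rw [Finset.offDiag_card, hT.2]
  rw [← h1]
  symm
  apply Finset.card_bij (fun (x : (_ : Finset V) × (V × V)) _ =>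
    ({{x.2.1}, {x.2.1, x.2.2}, x.1} : Finset (Finset V)))
  · rintro ⟨T, v, w⟩ hx
    rw [Finset.mem_sigma, Finset.mem_offDiag, ASC.mem_fk] at hx
    obtain ⟨⟨hT, hTc⟩, hv, hw, hvw⟩ := hx
    rw [sd_mem_fk3 h3]
    refine ⟨v, {v, w}, T, by simp, ?_, Finset.card_pair hvw, hTc, hT, rfl⟩
    intro x hx
    simp only [Finset.mem_insert, Finset.mem_singleton] at hx
    rcases hx with rfl | rfl <;> assumption
  · rintro ⟨T, v, w⟩ hx ⟨T', v', w'⟩ hx' h
    rw [Finset.mem_sigma, Finset.mem_offDiag, ASC.mem_fk] at hx hx'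
    obtain ⟨⟨hT, hTc⟩, hv, hw, hvw⟩ := hx
    obtain ⟨⟨hT', hTc'⟩, hv', hw', hvw'⟩ := hx'
    simp only at hTc hTc' hvw hvw' h
    have hp := Finset.card_pair hvw
    have hp' := Finset.card_pair hvw'
    have a1 : ({v} : Finset V) ∈ ({{v'}, {v', w'}, T'} : Finset (Finset V)) := by
      rw [← h]; simp
    have a2 : ({v, w} : Finset V) ∈ ({{v'}, {v', w'}, T'} : Finset (Finset V)) := by
      rw [← h]; simp
    have a3 : T ∈ ({{v'}, {v', w'}, T'} : Finset (Finset V)) := by
      rw [← h]; simp
    simp only [Finset.mem_insert, Finset.mem_singleton (α := Finset V)] at a1 a2 a3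
    have b3 : T = T' := by
      rcases a3 with a3 | a3 | a3
      · rw [a3] at hTc; simp at hTc
      · rw [a3] at hTc; omega
      · exact a3
    have b1 : v = v' := by
      rcases a1 with a1 | a1 | a1
      · exact Finset.singleton_injective a1
      · rw [← a1] at hp'; simp at hp'
      · rw [← a1] at hTc'; simp at hTc'
    have b2 : ({v, w} : Finset V) = {v', w'} := by
      rcases a2 with a2 | a2 | a2
      · rw [a2] at hp; simp at hp
      · exact a2
      · rw [← a2] at hTc'; omega
    subst b1 b3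
    have : w ∈ ({v, w'} : Finset V) := by rw [← b2]; simp
    simp only [Finset.mem_insert, Finset.mem_singleton] at this
    rw [this.resolve_left hvw.symm]
  · intro c hc
    obtain ⟨v, e, T, hv, he, hec, hTc, hT, rfl⟩ := (sd_mem_fk3 h3).1 hc
    obtain ⟨a, b, hab, rfl⟩ := Finset.card_eq_two.1 hec
    have ha : a ∈ T := he (by simp)
    have hb : b ∈ T := he (by simp)
    simp only [Finset.mem_insert, Finset.mem_singleton] at hv
    rcases hv with rfl | rfl
    · exact ⟨⟨T, v, b⟩, Finset.mem_sigma.2 ⟨ASC.mem_fk.2 ⟨hT, hTc⟩,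
        Finset.mem_offDiag.2 ⟨ha, hb, hab⟩⟩, rfl⟩
    · refine ⟨⟨T, v, a⟩, Finset.mem_sigma.2 ⟨ASC.mem_fk.2 ⟨hT, hTc⟩,
        Finset.mem_offDiag.2 ⟨hb, ha, hab.symm⟩⟩, ?_⟩
      simp only [Finset.pair_comm a v]

theorem IsSurf.negEuler_derived {K : ASC V} (hK : IsSurf K) :
    negEuler K.derived = negEuler K := by
  have h1 := surf_count hK
  have h2 := surf_count hK.derived
  have h3 := sd_card_fk1 hK.card_le
  have h4 := sd_card_fk3 hK.card_le
  unfold negEuler
  omega

end SepFil
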