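import Pool.Agent.SepFil.CocycLin
import Pool.Agent.SepFil.Fine
import Pool.Agent.SepFil.Section
import Pool.Agent.SepFil.SurfDer

/-!
# The slice inequality for surfaces

(module SLICE of the blueprint)
-/

open Set Filter Topology
open scoped ENNReal

namespace SepFil

set_option linter.unusedSectionVars false

/-! ### Shifts and values of sections -/

section Shift

variable {V : Type} [Fintype V] [DecidableEq V] {D : Type} [AddCommGroup D] [Fintype D]
  [DecidableEq D] {K : ASC V} {γ : V → V → D}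

/-- A shifted section. -/
def shiftSec (hγ : IsTwist K γ) (d : D) (s : K.real → (twist K γ).real) :
    K.real → (twist K γ).real :=
  fun y => ⟨shift d (s y), shift_mem hγ d (s y).2⟩

lemma shiftSec_continuousOn (hγ : IsTwist K γ) (d : D) {s : K.real → (twist K γ).real}
    {W : Set K.real} (hs : ContinuousOn s W) : ContinuousOn (shiftSec hγ d s) W := by
  rw [continuousOn_iff_continuous_domRestrict] at hs ⊢
  refine Continuous.subtype_mk ?_ _
  exact (continuous_shift d).comp (continuous_subtype_val.comp hs)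

lemma shiftSec_section (hγ : IsTwist K γ) (d : D) {s : K.real → (twist K γ).real}
    {y : K.real} (hs : twistMap hγ (s y) = y) : twistMap hγ (shiftSec hγ d s y) = y := by
  apply Subtype.ext
  have := congrArg Subtype.val hs
  simp only [twistMap, shiftSec] at this ⊢
  rw [twistProj_shift]
  exact this

lemma vtx_injective_slice {W : Type*} [DecidableEq W] : Function.Injective (vtx : W → W → ℝ) := by
  intro v w h
  by_contra hne
  have := congrFun h v
  simp [vtx, hne] at this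

lemma valAt_congr {s s' : K.real → (twist K γ).real} {v : V} {hv : vtx v ∈ K.real}
    (h : (s ⟨vtx v, hv⟩ : V × D → ℝ) = s' ⟨vtx v, hv⟩) : valAt s v hv = valAt s' v hv := by
  unfold valAt
  simp only [h]

lemma valAt_spec_slice (hγ : IsTwist K γ) {s : K.real → (twist K γ).real} {v : V}
    {hv : vtx v ∈ K.real} (hs : twistMap hγ (s ⟨vtx v, hv⟩) = ⟨vtx v, hv⟩) :
    (s ⟨vtx v, hv⟩ : V × D → ℝ) = vtx (v, valAt s v hv) := by
  have h1 : ∃ d : D, (s ⟨vtx v, hv⟩ : V × D → ℝ) = vtx (v, d) :=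
    exists_of_twistProj_eq_vtx hγ (s ⟨vtx v, hv⟩).2 (congrArg Subtype.val hs)
  have h2 : valAt s v hv = h1.choose := by
    unfold valAt
    rw [dif_pos h1]
  rw [h2]
  exact h1.choose_spec

lemma valAt_eq {s : K.real → (twist K γ).real} {v : V}
    {hv : vtx v ∈ K.real} {d : D} (hs : (s ⟨vtx v, hv⟩ : V × D → ℝ) = vtx (v, d)) :
    valAt s v hv = d := by
  have h1 : ∃ d : D, (s ⟨vtx v, hv⟩ : V × D → ℝ) = vtx (v, d) := ⟨d, hs⟩
  have h2 : valAt s v hv = h1.choose := by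
    unfold valAt
    rw [dif_pos h1]
  rw [h2]
  have h3 := vtx_injective_slice (hs.symm.trans h1.choose_spec)
  exact (congrArg Prod.snd h3).symm

lemma shift_vtx (v : V) (d d' : D) : shift d (vtx (v, d')) = vtx (v, d' + d) := by
  funext p
  obtain ⟨w, e⟩ := p
  simp only [shift, vtx, Pi.single_apply, Prod.mk.injEq, sub_eq_iff_eq_add]

lemma valAt_shiftSec (hγ : IsTwist K γ) (d : D) {s : K.real → (twist K γ).real} {v : V}
    {hv : vtx v ∈ K.real} (hs : twistMap hγ (s ⟨vtx v, hv⟩) = ⟨vtx v, hv⟩) :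
    valAt (shiftSec hγ d s) v hv = valAt s v hv + d := by
  apply valAt_eq
  simp only [shiftSec]
  rw [valAt_spec_slice hγ hs, shift_vtx]

lemma shift_eq_self (hγ : IsTwist K γ) {d : D} {x : V × D → ℝ} (hx : x ∈ (twist K γ).real)
    (h : shift d x = x) : d = 0 := by
  obtain ⟨-, h2, h3⟩ := hx
  obtain ⟨⟨v, a⟩, hp⟩ := supp_nonempty_of_sum h2
  have hp' : x (v, a) ≠ 0 := mem_supp.1 hp
  have h4 : x (v, a - d) = x (v, a) := congrFun h (v, a)
  have h5 : (v, a - d) ∈ supp x := by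
    rw [mem_supp, h4]
    exact hp'
  have h6 := h3.2.2 _ h5 _ hp
  simp only [hγ.diag, add_zero] at h6
  have : a - (a - d) = 0 := by
    rw [← h6]; simp
  simpa using this

end Shift

/-! ### The closed stars -/

section Core

variable {V : Type} [Fintype V] [DecidableEq V] {K : ASC V}

/-- The closed star of a vertex. -/
def cstar (K : ASC V) (v : V) : Set K.real :=
  {x | ∃ s ∈ K.faces, v ∈ s ∧ (x : V → ℝ) ∈ cface s}

/-- A closed face as a subset of the realisation. -/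
def rface (K : ASC V) (s : Finset V) : Set K.real := {x | (x : V → ℝ) ∈ cface s}

lemma rface_subset_cstar {s : Finset V} (hs : s ∈ K.faces) {v : V} (hv : v ∈ s) :
    rface K s ⊆ cstar K v := fun _ hx => ⟨s, hs, hv, hx⟩

lemma isPreconnected_rface {s : Finset V} (hs : s ∈ K.faces) : IsPreconnected (rface K s) := by
  have h1 : rface K s = (Subtype.val : K.real → V → ℝ) ⁻¹' cface s := rfl
  have h2 : IsPreconnected ((Subtype.val : K.real → V → ℝ) '' rface K s) := by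
    have h3 : (Subtype.val : K.real → V → ℝ) '' rface K s = cface s := by
      rw [h1, Subtype.image_preimage_coe]
      exact inter_eq_right.2 (cface_subset_real K hs)
    rw [h3]
    exact (convex_cface s).isPreconnected
  exact (Topology.IsInducing.subtypeVal.isPreconnected_image).1 h2

lemma vtx_mem_real {v : V} {s : Finset V} (hs : s ∈ K.faces) (hv : v ∈ s) :
    vtx v ∈ K.real := cface_subset_real K hs (vtx_mem_cface hv)

lemma vtx_mem_rface {v : V} {s : Finset V} (hs : s ∈ K.faces) (hv : v ∈ s) :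
    (⟨vtx v, vtx_mem_real hs hv⟩ : K.real) ∈ rface K s := vtx_mem_cface hv

/-- The slice inequality for a triangulation whose closed stars are small. -/
theorem slice_core (hK : IsSurf K) (B : ℕ)
    {Γ P : Set K.real} (hP : P.Finite)
    {ι : Type} (κ : K.real → ι) (Wk : ι → Set K.real)
    (hWk : ∀ i ∈ κ '' (Γ \ P), GoodOpen (Wk i))
    (hWk' : ∀ y ∈ Γ \ P, y ∈ Wk (κ y))
    (hκ : ∀ y ∈ Γ \ P, ∀ᶠ y' in 𝓝 y, y' ∈ Γ → κ y' = κ y)
    (Wp : K.real → Set K.real) (hWp : ∀ p ∈ P, GoodOpen (Wp p))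
    (A : K.real → Fin B → Set K.real)
    (hA : ∀ p ∈ P, ∀ j, IsPreconnected (A p j) ∧ A p j ⊆ (Γ ∩ Wp p) \ P)
    (hU : ∀ y ∈ Γᶜ, ∃ W : Set K.real, GoodOpen W ∧ connectedComponentIn Γᶜ y ⊆ W)
    (hstar : ∀ v : V, {v} ∈ K.faces →
      (∀ x ∈ cstar K v, x ∉ Γ) ∨
      (∃ p ∈ P, cstar K v ⊆ Wp p ∧ ∀ x ∈ cstar K v, x ∈ Γ → x = p ∨ ∃ j, x ∈ A p j) ∨
      (∃ i ∈ κ '' (Γ \ P), cstar K v ⊆ Wk i ∧ ∀ x ∈ cstar K v, x ∈ Γ → x ∉ P ∧ κ x = i)) :
    negEuler K ≤ B * P.ncard := by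
  classical
  by_contra hlt
  rw [not_le] at hlt
  -- the universal covering twist
  have : Finite (Module.Dual (ZMod 2) (cocycSpace K)) := by
    have : Finite (cocycSpace K) := inferInstance
    exact Finite.of_injective (fun f : Module.Dual (ZMod 2) (cocycSpace K) => (f : cocycSpace K → ZMod 2))
      DFunLike.coe_injective
  let : Fintype (Module.Dual (ZMod 2) (cocycSpace K)) := Fintype.ofFinite _
  set γ := dualTwist K with hγdef
  have hγ : IsTwist K γ := isTwist_dualTwist K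
  set E := (twist K γ).real with hE
  have : CompactSpace E := isCompact_iff_compactSpace.1 (ASC.isCompact_real _)
  have hloc := twistMap_isLocalHomeomorph hγ
  have hsurj := twistMap_surjective hγ
  have hne : Nonempty (K.real → E) := ⟨fun y => (hsurj y).choose⟩
  have sec : ∀ W : Set K.real, GoodOpen W → ∃ s : K.real → E, ContinuousOn s W ∧
      ∀ y ∈ W, twistMap hγ (s y) = y := fun W hW => hW E (twistMap hγ) hloc hsurj
  have secκ : ∀ i, i ∈ κ '' (Γ \ P) → ∃ s : K.real → E, ContinuousOn s (Wk i) ∧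
      ∀ y ∈ Wk i, twistMap hγ (s y) = y := fun i hi => sec _ (hWk i hi)
  choose! S hSc hSs using secκ
  have secp : ∀ p, p ∈ P → ∃ s : K.real → E, ContinuousOn s (Wp p) ∧
      ∀ y ∈ Wp p, twistMap hγ (s y) = y := fun p hp => sec _ (hWp p hp)
  choose! Rp hRc hRs using secp
  -- the section over `Γ \ P`
  set sΓ : K.real → E := fun y => S (κ y) y with hsΓ
  have hsΓs : ∀ y ∈ Γ \ P, twistMap hγ (sΓ y) = y := fun y hy =>
    hSs (κ y) (mem_image_of_mem κ hy) y (hWk' y hy)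
  have hsΓc : ContinuousOn sΓ (Γ \ P) := by
    intro y hy
    have h1 : ∀ᶠ y' in 𝓝[Γ \ P] y, κ y' = κ y := by
      filter_upwards [mem_nhdsWithin_of_mem_nhds (hκ y hy), self_mem_nhdsWithin] with y' h2 h3
      exact h2 h3.1
    have h2 : Wk (κ y) ∈ 𝓝[Γ \ P] y := by
      filter_upwards [h1, self_mem_nhdsWithin] with y' h3 h4
      rw [← h3]
      exact hWk' y' h4
    have h3 : ContinuousWithinAt (S (κ y)) (Γ \ P) y :=
      (hSc (κ y) (mem_image_of_mem κ hy) y (hWk' y hy)).mono_of_mem_nhdsWithin h2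
    refine h3.congr_of_eventuallyEq ?_ rfl
    filter_upwards [h1] with y' h4
    simp only [hsΓ, h4]
  -- the monodromies
  have hδ : ∀ p ∈ P, ∀ j : Fin B, ∃ d : Module.Dual (ZMod 2) (cocycSpace K),
      ∀ y ∈ A p j, (sΓ y : V × Module.Dual (ZMod 2) (cocycSpace K) → ℝ) =
        shift d (Rp p y : V × Module.Dual (ZMod 2) (cocycSpace K) → ℝ) := by
    intro p hp j
    obtain ⟨h1, h2⟩ := hA p hp j
    have h3 : A p j ⊆ Γ \ P := fun y hy => ⟨(h2 hy).1.1, (h2 hy).2⟩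
    exact exists_shift hγ h1 ((hRc p hp).mono fun y hy => (h2 hy).1.2) (hsΓc.mono h3)
      (fun y hy => hRs p hp y (h2 hy).1.2) (fun y hy => hsΓs y (h3 hy))
  choose! δ hδ using hδ
  set δ0 : K.real → Module.Dual (ZMod 2) (cocycSpace K) :=
    fun p => if h : 0 < B then δ p ⟨0, h⟩ else 0 with hδ0
  -- linear algebra
  let : Fintype P := hP.fintype
  have hcard : (Fintype.card (P × Fin B) : ℤ) < negEuler K := by
    have h1 : P.ncard = Fintype.card P := by
      rw [Set.ncard_eq_toFinset_card', Set.toFinset_card]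
    rw [Fintype.card_prod, Fintype.card_fin, ← h1]
    push_cast
    rw [mul_comm]
    exact hlt
  obtain ⟨c, hc0, hcn⟩ := exists_cocyc_not_cobound K hcard
    (fun q : P × Fin B => δ q.1 q.2 - δ0 q.1)
  have hcδ : ∀ p ∈ P, ∀ j, δ p j c = δ0 p c := by
    intro p hp j
    have := hc0 (⟨p, hp⟩, j)
    rw [LinearMap.sub_apply, sub_eq_zero] at this
    exact this
  apply hcn
  -- base points over `Γ`
  set eb : K.real → (V × Module.Dual (ZMod 2) (cocycSpace K) → ℝ) :=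
    fun y => if y ∈ P then shift (δ0 y) (Rp y y : V × Module.Dual (ZMod 2) (cocycSpace K) → ℝ)
      else sΓ y with heb
  have key : ∀ v : V, {v} ∈ K.faces → (∃ x ∈ cstar K v, x ∈ Γ) → ∃ a : ZMod 2,
      ∀ (t : Finset V) (ht : t ∈ K.faces) (hv : v ∈ t), ∀ y ∈ rface K t, y ∈ Γ →
        ∃ σ : K.real → E, ContinuousOn σ (rface K t) ∧
          (∀ x ∈ rface K t, twistMap hγ (σ x) = x) ∧
          (σ y : V × Module.Dual (ZMod 2) (cocycSpace K) → ℝ) = eb y ∧
          (valAt σ v (vtx_mem_real ht hv)) c = a := by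
    intro v hv hmeet
    have hvr : vtx v ∈ K.real := vtx_mem_real hv (Finset.mem_singleton_self v)
    obtain ⟨x0, hx0, hx0'⟩ := hmeet
    rcases hstar v hv with h | ⟨p, hp, hW, hΓp⟩ | ⟨i, hi, hW, hΓi⟩
    · exact absurd hx0' (h x0 hx0)
    · refine ⟨(valAt (Rp p) v hvr + δ0 p) c, ?_⟩
      intro t ht hvt y hy hyΓ
      have hst : rface K t ⊆ Wp p := (rface_subset_cstar ht hvt).trans hW
      have hvs : twistMap hγ (Rp p ⟨vtx v, hvr⟩) = ⟨vtx v, hvr⟩ :=
        hRs p hp _ (hst (vtx_mem_rface ht hvt))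
      rcases hΓp y (rface_subset_cstar ht hvt hy) hyΓ with rfl | ⟨j, hj⟩
      · refine ⟨shiftSec hγ (δ0 y) (Rp y), shiftSec_continuousOn hγ _ ((hRc y hp).mono hst),
          fun x hx => shiftSec_section hγ _ (hRs y hp x (hst hx)), ?_, ?_⟩
        · simp only [heb, if_pos hp, shiftSec]
        · rw [valAt_shiftSec hγ _ hvs]
      · have hyP : y ∉ P := ((hA p hp j).2 hj).2
        refine ⟨shiftSec hγ (δ p j) (Rp p), shiftSec_continuousOn hγ _ ((hRc p hp).mono hst),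
          fun x hx => shiftSec_section hγ _ (hRs p hp x (hst hx)), ?_, ?_⟩
        · simp only [heb, if_neg hyP, shiftSec]
          exact (hδ p hp j y hj).symm
        · rw [valAt_shiftSec hγ _ hvs, LinearMap.add_apply, LinearMap.add_apply, hcδ p hp j]
    · refine ⟨(valAt (S i) v hvr) c, ?_⟩
      intro t ht hvt y hy hyΓ
      have hst : rface K t ⊆ Wk i := (rface_subset_cstar ht hvt).trans hW
      obtain ⟨hyP, hyi⟩ := hΓi y (rface_subset_cstar ht hvt hy) hyΓ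
      refine ⟨S i, (hSc i hi).mono hst, fun x hx => hSs i hi x (hst hx), ?_, rfl⟩
      simp only [heb, if_neg hyP, hsΓ, hyi]
  choose! f hf using key
  -- components of the complement of `Γ`
  have hUc : ∀ C : Set K.real, (∃ y ∈ Γᶜ, C = connectedComponentIn Γᶜ y) →
      ∃ s : K.real → E, ContinuousOn s C ∧ ∀ y ∈ C, twistMap hγ (s y) = y := by
    rintro C ⟨y, hy, rfl⟩
    obtain ⟨W, hW, hCW⟩ := hU y hy
    obtain ⟨s, h1, h2⟩ := sec W hW
    exact ⟨s, h1.mono hCW, fun x hx => h2 x (hCW hx)⟩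
  choose! Sc hScc hScs using hUc
  have hadd : ∀ {t : Finset V} (ht : t ∈ K.faces) {v w : V} (hv : v ∈ t) (hw : w ∈ t)
      (σ : K.real → E), ContinuousOn σ (rface K t) →
      (∀ x ∈ rface K t, twistMap hγ (σ x) = x) →
      valAt σ w (vtx_mem_real ht hw) = valAt σ v (vtx_mem_real ht hv) + γ v w :=
    fun {t} ht {v w} hv hw σ h1 h2 => valAt_add hγ ht (fun y hy => hy) h1 h2 hv hw _ _
  refine isCobound_of_cover hK c.2.1 {t | ∀ x ∈ rface K t, x ∉ Γ} ⟨f, ?_⟩ ?_
  · intro t ht htU e he het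
    simp only [mem_ofPred_eq, not_forall, not_not] at htU
    obtain ⟨y, hy, hyΓ⟩ := htU
    have ht' := (ASC.mem_fk.1 ht).1
    obtain ⟨v, w, hvw, rfl⟩ := Finset.card_eq_two.1 (ASC.mem_fk.1 he).2
    have hvt : v ∈ t := het (by simp)
    have hwt : w ∈ t := het (by simp)
    have hv1 : {v} ∈ K.faces := K.down_closed t ht' _ (by simpa using hvt) (by simp)
    have hw1 : {w} ∈ K.faces := K.down_closed t ht' _ (by simpa using hwt) (by simp)
    obtain ⟨σ, hσc, hσs, hσy, hσv⟩ :=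
      hf v hv1 ⟨y, rface_subset_cstar ht' hvt hy, hyΓ⟩ t ht' hvt y hy hyΓ
    obtain ⟨σ', hσc', hσs', hσy', hσv'⟩ :=
      hf w hw1 ⟨y, rface_subset_cstar ht' hwt hy, hyΓ⟩ t ht' hwt y hy hyΓ
    obtain ⟨d, hd⟩ := exists_shift hγ (isPreconnected_rface ht') hσc hσc' hσs hσs'
    have hd0 : d = 0 := by
      apply shift_eq_self hγ (σ y).2
      rw [← hd y hy, hσy', hσy]
    have heq : (σ' ⟨vtx w, vtx_mem_real ht' hwt⟩ : V × Module.Dual (ZMod 2) (cocycSpace K) → ℝ) =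
        σ ⟨vtx w, vtx_mem_real ht' hwt⟩ := by
      rw [hd _ (vtx_mem_rface ht' hwt), hd0]
      funext q
      simp [shift]
    have h1 := hadd ht' hvt hwt σ hσc hσs
    rw [← valAt_congr heq] at h1
    rw [h1, LinearMap.add_apply, hσv, hγdef, dualTwist_apply K hvw] at hσv'
    rw [Finset.sum_pair hvw, ← hσv', ← add_assoc, CharTwo.add_self_eq_zero, zero_add]
  · intro a ha
    set a' : cocycSpace K := ⟨fun e => if e ∈ K.fk 2 then a e else 0, by
      refine ⟨fun t ht => ?_, fun e he => if_neg he⟩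
      refine (Finset.sum_congr rfl fun e he => ?_).trans (ha t ht)
      exact if_pos (Finset.mem_filter.1 he).1⟩ with ha'
    refine ⟨fun v => if hv : vtx v ∈ K.real then
      (valAt (Sc (connectedComponentIn Γᶜ ⟨vtx v, hv⟩)) v hv) a' else 0, ?_⟩
    intro t ht htU e he het
    have ht' := (ASC.mem_fk.1 ht).1
    obtain ⟨v, w, hvw, rfl⟩ := Finset.card_eq_two.1 (ASC.mem_fk.1 he).2
    have hvt : v ∈ t := het (by simp)
    have hwt : w ∈ t := het (by simp)
    have hvr := vtx_mem_real ht' hvt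
    have hwr := vtx_mem_real ht' hwt
    have hsub : rface K t ⊆ Γᶜ := fun x hx => htU x hx
    have hsubC : rface K t ⊆ connectedComponentIn Γᶜ ⟨vtx v, hvr⟩ :=
      (isPreconnected_rface ht').subset_connectedComponentIn (vtx_mem_rface ht' hvt) hsub
    have hCC : connectedComponentIn Γᶜ ⟨vtx v, hvr⟩ = connectedComponentIn Γᶜ ⟨vtx w, hwr⟩ :=
      connectedComponentIn_eq (hsubC (vtx_mem_rface ht' hwt))
    have hC : ∃ y ∈ Γᶜ, connectedComponentIn Γᶜ ⟨vtx v, hvr⟩ = connectedComponentIn Γᶜ y :=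
      ⟨⟨vtx v, hvr⟩, hsub (vtx_mem_rface ht' hvt), rfl⟩
    have h1 := hadd ht' hvt hwt (Sc (connectedComponentIn Γᶜ ⟨vtx v, hvr⟩))
      ((hScc _ hC).mono hsubC) (fun x hx => hScs _ hC x (hsubC hx))
    have h2 : (γ v w) a' = a {v, w} := by
      rw [hγdef, dualTwist_apply K hvw, ha']
      exact if_pos he
    rw [Finset.sum_pair hvw, dif_pos hvr, dif_pos hwr, ← hCC, h1, LinearMap.add_apply, h2,
      ← add_assoc, CharTwo.add_self_eq_zero, zero_add]

end Core

/-! ### Transport under homeomorphisms -/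

lemma GoodOpen.preimage {X Y : Type} [TopologicalSpace X] [TopologicalSpace Y] (e : X ≃ₜ Y)
    {W : Set Y} (hW : GoodOpen W) : GoodOpen (e ⁻¹' W) := by
  intro E _ _ _ pE h1 h2
  obtain ⟨s, hs, hs'⟩ := hW E (e ∘ pE) (e.isLocalHomeomorph.comp h1) (e.surjective.comp h2)
  refine ⟨s ∘ e, hs.comp e.continuous.continuousOn (mapsTo_preimage _ _), fun y hy => ?_⟩
  exact e.injective (hs' (e y) hy)

lemma preimage_connectedComponentIn_subset {X Y : Type} [TopologicalSpace X]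
    [TopologicalSpace Y] (e : X ≃ₜ Y) (F : Set Y) {x : X} (hx : e x ∈ F) :
    connectedComponentIn (e ⁻¹' F) x ⊆ e ⁻¹' connectedComponentIn F (e x) := by
  rw [← image_subset_iff]
  refine IsPreconnected.subset_connectedComponentIn
    (isPreconnected_connectedComponentIn.image _ e.continuous.continuousOn) ?_ ?_
  · exact mem_image_of_mem _ (mem_connectedComponentIn hx)
  · rintro _ ⟨z, hz, rfl⟩
    exact connectedComponentIn_subset (e ⁻¹' F) x hz

/-- Fine triangulations subordinate to an open cover. -/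
theorem exists_fine_cover {V : Type} [Fintype V] [DecidableEq V] {K : ASC V} (hK : IsSurf K)
    {Y : Type} [TopologicalSpace Y] (e : K.real ≃ₜ Y) (U : Y → Set Y)
    (hUo : ∀ y, IsOpen (U y)) (hUm : ∀ y, y ∈ U y) :
    ∃ (V' : Type) (_ : Fintype V') (_ : DecidableEq V') (K' : ASC V') (e' : K'.real ≃ₜ Y),
      IsSurf K' ∧ negEuler K' = negEuler K ∧
      ∀ v, {v} ∈ K'.faces → ∃ y, ∀ x ∈ cstar K' v, e' x ∈ U y := by
  classical
  have : CompactSpace K.real := isCompact_iff_compactSpace.1 (ASC.isCompact_real _)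
  obtain ⟨δ, hδ, hδU⟩ := lebesgue_number_lemma_of_metric (s := (univ : Set K.real))
    (c := fun y => e ⁻¹' U y) isCompact_univ (fun y => (hUo y).preimage e.continuous)
    (fun x _ => mem_iUnion.2 ⟨e x, hUm (e x)⟩)
  obtain ⟨V', i1, i2, K', R, ⟨hQ1, hQ2⟩, hfine⟩ := exists_fine K
    (fun W _ _ A => IsSurf A ∧ negEuler A = negEuler K)
    (fun W _ _ A hA => ⟨hA.1.derived, (hA.1.negEuler_derived).trans hA.2⟩) ⟨hK, rfl⟩ hδ
  have : CompactSpace K'.real := isCompact_iff_compactSpace.1 (ASC.isCompact_real _)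
  have hLc : Continuous R.L := LinearMap.continuous_of_finiteDimensional R.L
  let F : K'.real ≃ K.real := R.bij.equiv
  have hF : Continuous F := by
    refine Continuous.subtype_mk (hLc.comp continuous_subtype_val) _
  let e1 : K'.real ≃ₜ K.real := hF.homeoOfEquivCompactToT2
  refine ⟨V', i1, i2, K', e1.trans e, hQ1, hQ2, fun v hv => ?_⟩
  have hvr : vtx v ∈ K'.real := vtx_mem_real hv (Finset.mem_singleton_self v)
  obtain ⟨y, hy⟩ := hδU (e1 ⟨vtx v, hvr⟩) (mem_univ _)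
  refine ⟨y, ?_⟩
  rintro x ⟨s, hs, hvs, hx⟩
  have h1 : dist (e1 x) (e1 ⟨vtx v, hvr⟩) < δ := hfine s hs _ hx _ (vtx_mem_cface hvs)
  exact hy h1

/-- Let `Y` be a closed surface, `Γ ⊆ Y` closed, `P ⊆ Γ` finite such that the components of
`Y \ Γ` and the pieces of `Γ \ P` lie in good sets, and such that near a point of `P` the set
`Γ` consists of at most `B` arcs. Then `-χ(Y) ≤ B |P|`. -/
theorem slice_bound {V : Type} [Fintype V] [DecidableEq V] {K : ASC V} (hK : IsSurf K)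
    {Y : Type} [TopologicalSpace Y] (e : K.real ≃ₜ Y) (B : ℕ)
    {Γ P : Set Y} (hΓ : IsClosed Γ) (hPΓ : P ⊆ Γ) (hP : P.Finite)
    (hcover : ∀ y : Y, ∃ W : Set Y, IsOpen W ∧ y ∈ W ∧ GoodOpen W)
    (hU : ∀ y ∈ Γᶜ, ∃ W : Set Y, GoodOpen W ∧ connectedComponentIn Γᶜ y ⊆ W)
    {ι : Type} (κ : Y → ι) (hκ : ∀ y ∈ Γ \ P, ∀ᶠ y' in 𝓝 y, y' ∈ Γ → κ y' = κ y)
    (hκW : ∀ y ∈ Γ \ P, ∃ W : Set Y, IsOpen W ∧ GoodOpen W ∧
      {y' | y' ∈ Γ \ P ∧ κ y' = κ y} ⊆ W)
    (harcs : ∀ p ∈ P, ∀ O ∈ 𝓝 p, ∃ O' ∈ 𝓝 p, ∃ A : Fin B → Set Y,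
      (∀ j, IsPreconnected (A j) ∧ A j ⊆ (Γ ∩ O) \ {p}) ∧ (Γ ∩ O') \ {p} ⊆ ⋃ j, A j) :
    negEuler K ≤ B * P.ncard := by
  classical
  have hT1 : T1Space Y := e.t1Space
  -- good sets for the pieces of `Γ \ P`
  have h1 : ∀ i ∈ κ '' (Γ \ P), ∃ W : Set Y, IsOpen W ∧ GoodOpen W ∧
      {y' | y' ∈ Γ \ P ∧ κ y' = i} ⊆ W := by
    rintro i ⟨y, hy, rfl⟩
    exact hκW y hy
  choose! Wk hWko hWkg hWks using h1
  choose Wp hWpo hWpm hWpg using hcover
  have h2 : ∀ p ∈ P, ∃ (O' : Set Y) (A : Fin B → Set Y), IsOpen O' ∧ p ∈ O' ∧ O' ⊆ Wp p ∧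
      (∀ j, IsPreconnected (A j) ∧ A j ⊆ (Γ ∩ Wp p) \ P) ∧ (Γ ∩ O') \ {p} ⊆ ⋃ j, A j := by
    intro p hp
    have hfin : (P \ {p}).Finite := hP.subset sdiff_subset
    have hO : Wp p ∩ (P \ {p})ᶜ ∈ 𝓝 p :=
      ((hWpo p).inter hfin.isClosed.isOpen_compl).mem_nhds ⟨hWpm p, by simp⟩
    obtain ⟨O', hO', A, hA, hA'⟩ := harcs p hp _ hO
    refine ⟨interior O' ∩ Wp p, A, isOpen_interior.inter (hWpo p),
      ⟨mem_interior_iff_mem_nhds.2 hO', hWpm p⟩, inter_subset_right, fun j => ⟨(hA j).1, ?_⟩, ?_⟩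
    · intro y hy
      obtain ⟨⟨h3, h4, h5⟩, h6⟩ := (hA j).2 hy
      refine ⟨⟨h3, h4⟩, fun h7 => h5 ⟨h7, h6⟩⟩
    · rintro y ⟨⟨h3, h4, h5⟩, h6⟩
      exact hA' ⟨⟨h3, interior_subset h4⟩, h6⟩
  choose! O' A hO'o hO'm hO'W hA hA' using h2
  -- the cover
  have h3 : ∀ y : Y, ∃ U : Set Y, IsOpen U ∧ y ∈ U ∧
      ((∀ x ∈ U, x ∉ Γ) ∨
      (∃ p ∈ P, U ⊆ Wp p ∧ ∀ x ∈ U, x ∈ Γ → x = p ∨ ∃ j, x ∈ A p j) ∨
      (∃ i ∈ κ '' (Γ \ P), U ⊆ Wk i ∧ ∀ x ∈ U, x ∈ Γ → x ∉ P ∧ κ x = i)) := by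
    intro y
    by_cases hy : y ∈ Γ
    · by_cases hyP : y ∈ P
      · refine ⟨O' y, hO'o y hyP, hO'm y hyP, Or.inr (Or.inl ⟨y, hyP, hO'W y hyP, ?_⟩)⟩
        intro x hx hxΓ
        by_cases hxy : x = y
        · exact Or.inl hxy
        · exact Or.inr (mem_iUnion.1 (hA' y hyP ⟨⟨hxΓ, hx⟩, hxy⟩))
      · have hy' : y ∈ Γ \ P := ⟨hy, hyP⟩
        have hi : κ y ∈ κ '' (Γ \ P) := mem_image_of_mem κ hy'
        obtain ⟨U, hU1, hU2, hU3⟩ := eventually_nhds_iff.1 (hκ y hy')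
        refine ⟨U ∩ Wk (κ y) ∩ Pᶜ, (hU2.inter (hWko _ hi)).inter hP.isClosed.isOpen_compl,
          ⟨⟨hU3, hWks _ hi ⟨hy', rfl⟩⟩, hyP⟩, Or.inr (Or.inr ⟨κ y, hi, ?_, ?_⟩)⟩
        · exact fun x hx => hx.1.2
        · exact fun x hx hxΓ => ⟨hx.2, hU1 x hx.1.1 hxΓ⟩
    · exact ⟨Γᶜ, hΓ.isOpen_compl, hy, Or.inl fun x hx => hx⟩
  choose U hUo hUm hUt using h3
  obtain ⟨V', _, _, K', e', hK', hneg, hst⟩ := exists_fine_cover hK e U hUo hUm
  have hmain := slice_core hK' B (Γ := e' ⁻¹' Γ) (P := e' ⁻¹' P)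
    (hP.preimage e'.injective.injOn) (κ ∘ e') (fun i => e' ⁻¹' Wk i) ?_ ?_ ?_
    (fun p => e' ⁻¹' Wp (e' p)) ?_ (fun p j => e' ⁻¹' A (e' p) j) ?_ ?_ ?_
  · rw [hneg] at hmain
    have h4 : (e' ⁻¹' P).ncard = P.ncard := by
      rw [← Set.ncard_image_of_injective _ e'.injective, image_preimage_eq _ e'.surjective]
    rw [h4] at hmain
    exact hmain
  · rintro i ⟨y, hy, rfl⟩
    exact (hWkg _ ⟨e' y, hy, rfl⟩).preimage e'
  · intro y hy
    exact hWks (κ (e' y)) (mem_image_of_mem κ hy) ⟨hy, rfl⟩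
  · intro y hy
    exact e'.continuous.continuousAt.eventually (hκ (e' y) hy)
  · intro p hp
    exact (hWpg (e' p)).preimage e'
  · intro p hp j
    refine ⟨?_, preimage_mono (hA (e' p) hp j).2⟩
    exact (e'.isPreconnected_preimage).2 (hA (e' p) hp j).1
  · intro y hy
    obtain ⟨W, hW, hyW⟩ := hU (e' y) hy
    refine ⟨e' ⁻¹' W, hW.preimage e', ?_⟩
    exact (preimage_connectedComponentIn_subset e' Γᶜ hy).trans (preimage_mono hyW)
  · intro v hv
    obtain ⟨y, hy⟩ := hst v hv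
    rcases hUt y with h | ⟨p, hp, h4, h5⟩ | ⟨i, hi, h4, h5⟩
    · exact Or.inl fun x hx => h (e' x) (hy x hx)
    · refine Or.inr (Or.inl ⟨e'.symm p, by simpa using hp, ?_, ?_⟩)
      · intro x hx
        simpa using h4 (hy x hx)
      · intro x hx hxΓ
        rcases h5 (e' x) (hy x hx) hxΓ with h6 | h6
        · left
          rw [← h6]; simp
        · right
          simpa using h6
    · refine Or.inr (Or.inr ⟨i, ?_, ?_, ?_⟩)
      · obtain ⟨z, hz, rfl⟩ := hi
        exact ⟨e'.symm z, by simpa using hz, by simp⟩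
      · intro x hx
        exact h4 (hy x hx)
      · intro x hx hxΓ
        exact h5 (e' x) (hy x hx) hxΓ

end SepFil
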