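import Pool.Agent.SepFil.NeckCover
import Pool.Agent.SepFil.LiftTop
import Pool.Agent.SepFil.CoverCpx
import Pool.Agent.SepFil.Slice
import Pool.Agent.SepFil.Arcs
import Pool.Agent.SepFil.LocConn

/-!
# The slice inequality in coverings of `S × S¹`

(module NECK of the blueprint)
-/

open Set MeasureTheory Manifold Bundle Filter Topology
open scoped ContDiff ENNReal NNReal

namespace SepFil

/-- The tautological parametrisation of `S444`. -/
noncomputable def taut444 : (V444 → ℝ) → S444 := fun y => open Classical in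
    if hy : y ∈ K444.real then ⟨y, hy⟩ else Classical.choice S444_nonempty

lemma taut444_continuousOn : ContinuousOn taut444 K444.real := by
  rw [continuousOn_iff_continuous_domRestrict]
  have : K444.real.domRestrict taut444 = id := by
    funext y
    have h : taut444 (y : V444 → ℝ) = y := by
      unfold taut444
      exact dif_pos y.2
    exact h
  rw [this]
  exact continuous_id

lemma taut444_bijOn : BijOn taut444 K444.real univ := by
  refine ⟨mapsTo_univ _ _, ?_, ?_⟩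
  · intro y hy z hz h
    simpa [taut444, hy, hz] using h
  · intro y _
    refine ⟨y, y.2, ?_⟩
    simp [taut444]

/-- The circle coordinate is smooth. -/
lemma contMDiff_phi {R : ClosedRiem 3} (e : Diffeomorph (𝓡 3) (𝓡 3) R.carrier M444 ∞)
    (b : ℝ) {N : ClosedRiem 3} {p : N.carrier → R.carrier} (hp : IsRiemCover 3 p) :
    ContMDiff (𝓡 3) 𝓘(ℝ, ℝ) ∞ (fun x : N.carrier => b * ((e (p x)).2 : ℂ).re) := by
  have h1 : ContMDiff (𝓡 3) (𝓡 1) ∞ (fun x : N.carrier => (e (p x)).2) :=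
    contMDiff_snd444.comp (e.contMDiff.comp hp.smooth)
  have h2 : ContMDiff (𝓡 1) 𝓘(ℝ, ℂ) ∞ (fun z : Circle => (z : ℂ)) := by
    have : Fact (Module.finrank ℝ ℂ = 1 + 1) := finrank_real_complex_fact'
    exact contMDiff_coe_sphere
  have h3 : ContMDiff 𝓘(ℝ, ℂ) 𝓘(ℝ, ℝ) ∞ (fun z : ℂ => b * z.re) := by
    apply ContDiff.contMDiff
    exact contDiff_const.mul Complex.reCLM.contDiff
  exact h3.comp (h2.comp h1)

/-- The slice inequality for one slice. -/
theorem slice_count_one {N : ClosedRiem 3} {B m : ℕ} {Z₂ Z₁ : Set N.carrier}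
    (h₂ : IsSubcomplexSet 3 2 Z₂)
    (h₁ : IsClosed Z₁)
    (s₂ : IsSeparating (sys N.carrier / 2) univ Z₂)
    (s₁ : IsSeparating (sys N.carrier / 2) Z₂ Z₁)
    (Y : Set N.carrier) (hY : IsClosed Y) (pr : N.carrier → S444) (hpr : Continuous pr)
    (hloc : IsLocalHomeomorph (fun y : Y => pr y))
    (hm : ∀ s : S444, ((fun y : Y => pr y) ⁻¹' {s}).ncard = m) (hm0 : 0 < m)
    (harcs : ∀ p ∈ Z₁ ∩ Y, ∀ O ∈ 𝓝 p, ∃ O' ∈ 𝓝 p, ∃ A : Fin B → Set N.carrier,
      (∀ j, IsPreconnected (A j) ∧ A j ⊆ (Z₂ ∩ Y ∩ O) \ {p}) ∧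
      (Z₂ ∩ Y ∩ O') \ {p} ⊆ ⋃ j, A j)
    (hfin : (Z₁ ∩ Y).Finite) : 4 * m ≤ B * (Z₁ ∩ Y).ncard := by
  classical
  have : CompactSpace Y := isCompact_iff_compactSpace.1 hY.isCompact
  have hcov : IsCoveringMap (fun y : Y => pr y) := isLocalHomeomorph_iff_isCoveringMap.mp hloc
  have hfib : ∀ s : S444, ((fun y : Y => pr y) ⁻¹' {s}).Finite := by
    intro s
    by_contra h
    have := (Set.Infinite.ncard h)
    rw [hm s] at this
    omega
  have : Nonempty Y := by
    have h0 : ((fun y : Y => pr y) ⁻¹' {Classical.choice S444_nonempty}).Nonempty := by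
      rw [Set.nonempty_iff_ne_empty]
      intro h0
      have := hm (Classical.choice S444_nonempty)
      rw [h0, Set.ncard_empty] at this
      omega
    exact ⟨h0.choose⟩
  obtain ⟨V', _, _, K', q, h', hK', hc', hb', -⟩ := exists_lift_tri K444 taut444
    taut444_continuousOn taut444_bijOn (fun y : Y => pr y) hcov m hm hfib
  have hsurf : IsSurf K' := hK'.isSurf K444_isSurf
  have hneg : negEuler K' = 4 * m := by
    have h1 := hK'.card_fk 1 le_rfl
    have h2 := hK'.card_fk 2 (by norm_num)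
    have h3 := hK'.card_fk 3 (by norm_num)
    have h4 := K444_negEuler
    unfold negEuler at h4 ⊢
    rw [h1, h2, h3]
    push_cast
    linear_combination (m : ℤ) * h4
  -- the homeomorphism
  have : CompactSpace K'.real := isCompact_iff_compactSpace.1 (ASC.isCompact_real _)
  let F : K'.real ≃ Y := (hb'.equiv h').trans (Equiv.Set.univ Y)
  have hF : Continuous F := by
    have : Continuous (K'.real.domRestrict h') := continuousOn_iff_continuous_domRestrict.1 hc'
    exact this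
  let e' : K'.real ≃ₜ Y := hF.homeoOfEquivCompactToT2
  have hball : ∀ c : N.carrier, GoodOpen {y : Y | (y : N.carrier) ∈ Metric.eball c (sys N.carrier / 2)} :=
    fun c => goodOpen_ball N pr hpr Y hY hloc c
  have hball' : ∀ c : N.carrier, IsOpen {y : Y | (y : N.carrier) ∈ Metric.eball c (sys N.carrier / 2)} :=
    fun c => Metric.isOpen_eball.preimage continuous_subtype_val
  have hpos : 0 < sys N.carrier / 2 := ENNReal.half_pos (sys_pos N).ne'
  have hZ₂ : IsClosed Z₂ := h₂.isClosed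
  have hcomp : ∀ y ∈ Z₂ \ Z₁, y ∈ connectedComponentIn (Z₂ \ Z₁) y := fun y hy =>
    mem_connectedComponentIn hy
  have hmain := slice_bound hsurf e' B (Γ := {y : Y | (y : N.carrier) ∈ Z₂})
    (P := {y : Y | (y : N.carrier) ∈ Z₁}) (hZ₂.preimage continuous_subtype_val)
    (fun y hy => s₁.1 hy) ?_ ?_ ?_ (fun y : Y => connectedComponentIn (Z₂ \ Z₁) (y : N.carrier))
    ?_ ?_ ?_
  · have hP : {y : Y | (y : N.carrier) ∈ Z₁}.ncard = (Z₁ ∩ Y).ncard := by
      rw [← Set.ncard_image_of_injective _ Subtype.val_injective]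
      congr 1
      ext x
      constructor
      · rintro ⟨y, hy, rfl⟩
        exact ⟨hy, y.2⟩
      · rintro ⟨h1, h2⟩
        exact ⟨⟨x, h2⟩, h1, rfl⟩
    rw [hneg, hP] at hmain
    exact_mod_cast hmain
  · refine Set.Finite.of_finite_image (f := Subtype.val) (hfin.subset ?_)
      Subtype.val_injective.injOn
    rintro _ ⟨y, hy, rfl⟩
    exact ⟨hy, y.2⟩
  · intro y
    exact ⟨_, hball' y, Metric.mem_eball_self hpos, hball y⟩
  · intro y hy
    obtain ⟨c, hc⟩ := s₂.2 y ⟨mem_univ _, hy⟩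
    refine ⟨_, hball c, ?_⟩
    intro y' hy'
    apply hc
    have h1 : IsPreconnected ((Subtype.val : Y → N.carrier) ''
        connectedComponentIn {y : Y | (y : N.carrier) ∈ Z₂}ᶜ y) :=
      isPreconnected_connectedComponentIn.image _ continuous_subtype_val.continuousOn
    refine h1.subset_connectedComponentIn ?_ ?_ (mem_image_of_mem _ hy')
    · exact mem_image_of_mem _ (mem_connectedComponentIn hy)
    · rintro _ ⟨z, hz, rfl⟩
      exact ⟨mem_univ _, connectedComponentIn_subset _ _ hz⟩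
  · intro y hy
    obtain ⟨O', hO', hA⟩ := h₂.locConn (y := (y : N.carrier)) hy.1
      (h₁.isOpen_compl.mem_nhds hy.2)
    have h1 : ∀ᶠ y' : Y in 𝓝 y, (y' : N.carrier) ∈ O' :=
      continuous_subtype_val.continuousAt.eventually hO'
    filter_upwards [h1] with y' hy' hΓ
    obtain ⟨A, hA1, hA2, hA3, hA4⟩ := hA y' ⟨hΓ, hy'⟩
    have h3 : A ⊆ Z₂ \ Z₁ := fun z hz => ⟨(hA1 hz).1, (hA1 hz).2⟩
    have h2 : (y' : N.carrier) ∈ connectedComponentIn (Z₂ \ Z₁) (y : N.carrier) :=
      hA2.subset_connectedComponentIn hA3 h3 hA4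
    exact (connectedComponentIn_eq h2).symm
  · intro y hy
    obtain ⟨c, hc⟩ := s₁.2 y hy
    refine ⟨_, hball' c, hball c, ?_⟩
    rintro y' ⟨hy', hκ⟩
    apply hc
    rw [← hκ]
    exact hcomp _ hy'
  · intro p hp O hO
    rw [mem_nhds_subtype] at hO
    obtain ⟨O₁, hO₁, hO₁O⟩ := hO
    obtain ⟨O', hO', A, hA, hA'⟩ := harcs p ⟨hp, p.2⟩ O₁ hO₁
    refine ⟨Subtype.val ⁻¹' O', continuous_subtype_val.continuousAt.preimage_mem_nhds hO',
      fun j => Subtype.val ⁻¹' A j, fun j => ⟨?_, ?_⟩, ?_⟩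
    · rw [← Topology.IsInducing.subtypeVal.isPreconnected_image, Subtype.image_preimage_coe,
        inter_eq_right.2 fun z hz => ((hA j).2 hz).1.1.2]
      exact (hA j).1
    · intro z hz
      obtain ⟨⟨⟨h1, h2⟩, h3⟩, h4⟩ := (hA j).2 hz
      exact ⟨⟨h1, hO₁O h3⟩, fun h => h4 (congrArg Subtype.val h)⟩
    · rintro z ⟨⟨h1, h2⟩, h3⟩
      have := hA' ⟨⟨⟨h1, z.2⟩, h2⟩, fun h => h3 (Subtype.ext h)⟩
      simpa using this

/-- The slice inequality in a covering of `S × S¹`. -/
theorem slice_count {R : ClosedRiem 3} (e : Diffeomorph (𝓡 3) (𝓡 3) R.carrier M444 ∞)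
    {b : ℝ} (hb : 0 < b) {N : ClosedRiem 3} {p : N.carrier → R.carrier}
    (hp : IsRiemCover 3 p) {d : ℕ} (hd : ∀ x, (p ⁻¹' {x}).ncard = d)
    {B : ℕ} (hB : 2 ≤ B) {Z₂ Z₁ : Set N.carrier} (h₂ : IsGoodSurface 3 B Z₂)
    (h₁ : IsSubcomplexSet 3 1 Z₁)
    (s₂ : IsSeparating (sys N.carrier / 2) univ Z₂)
    (s₁ : IsSeparating (sys N.carrier / 2) Z₂ Z₁) :
    ∀ᵐ τ : ℝ, |τ| < b →
      ((Z₁ ∩ (fun x => b * ((e (p x)).2 : ℂ).re) ⁻¹' {τ}).Finite →
        8 * d ≤ B * (Z₁ ∩ (fun x => b * ((e (p x)).2 : ℂ).re) ⁻¹' {τ}).ncard) := by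
  rcases Nat.eq_zero_or_pos d with rfl | hd0
  · filter_upwards with τ _ _
    simp
  have hφ := contMDiff_phi e b hp
  filter_upwards [ae_arcs hB h₂ h₁ s₁.1 hφ] with τ harcs hτ hfin
  obtain ⟨hloc, hm⟩ := slice_covering e hb hp hd hτ
  have hpr : Continuous (fun x : N.carrier => (e (p x)).1) :=
    contMDiff_fst444.continuous.comp (e.contMDiff.continuous.comp hp.smooth.continuous)
  have := slice_count_one (m := 2 * d) h₂.isSubcomplexSet h₁.isClosed s₂ s₁
    ((fun x => b * ((e (p x)).2 : ℂ).re) ⁻¹' {τ}) (isClosed_singleton.preimage hφ.continuous)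
    (fun x => (e (p x)).1) hpr hloc hm (by omega)
    (fun q hq O hO => harcs q hq.1 hq.2 O hO) hfin
  omega

end SepFil
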