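import Pool.Agent.SepFil.ExM
import Pool.Agent.SepFil.Sheets

/-!
# The slices of a covering of `S × S¹` cover `S`

(module NCOV of the blueprint)
-/

open Set MeasureTheory Manifold Bundle Filter Topology
open scoped ContDiff ENNReal NNReal

namespace SepFil

/-- The projection to the first factor is a local homeomorphism over a finite subset of the
second factor. -/
lemma isLocalHomeomorph_fst_of_finite {X C : Type*} [TopologicalSpace X] [TopologicalSpace C]
    [T1Space C] {T : Set (X × C)} {D : Set C} (hD : D.Finite) (hT : T = {x | x.2 ∈ D}) :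
    IsLocalHomeomorph (fun x : T => (x : X × C).1) := by
  subst hT
  refine IsLocalHomeomorph.mk _ fun x0 => ?_
  have hfin : (D \ {x0.1.2}).Finite := hD.subset sdiff_subset
  refine ⟨{
    toFun := fun x => x.1.1
    invFun := fun s => ⟨(s, x0.1.2), x0.2⟩
    source := {x | x.1.2 = x0.1.2}
    target := univ
    map_source' := fun _ _ => mem_univ _
    map_target' := fun _ _ => rfl
    left_inv' := fun x hx => by
      apply Subtype.ext
      exact Prod.ext rfl hx.symm
    right_inv' := fun _ _ => rfl
    open_source := by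
      have h1 : {x : {x : X × C | x.2 ∈ D} | x.1.2 = x0.1.2} =
          (fun x : {x : X × C | x.2 ∈ D} => x.1.2) ⁻¹' (D \ {x0.1.2})ᶜ := by
        ext x
        constructor
        · intro h h2
          exact h2.2 h
        · intro h
          by_contra h2
          exact h ⟨x.2, h2⟩
      rw [h1]
      exact hfin.isClosed.isOpen_compl.preimage (continuous_snd.comp continuous_subtype_val)
    open_target := isOpen_univ
    continuousOn_toFun := (continuous_fst.comp continuous_subtype_val).continuousOn
    continuousOn_invFun := by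
      refine Continuous.continuousOn ?_
      exact Continuous.subtype_mk (continuous_id.prodMk continuous_const) _ }, rfl, fun _ _ => rfl⟩

/-- The points of the circle with prescribed real part. -/
lemma circle_re_eq {b τ : ℝ} (hb : 0 < b) (hτ : |τ| < b) :
    ∃ z₁ z₂ : Circle, z₁ ≠ z₂ ∧ {z : Circle | b * (z : ℂ).re = τ} = {z₁, z₂} := by
  have hb' : b ≠ 0 := hb.ne'
  have h1 : (τ / b) ^ 2 < 1 := by
    rw [sq_lt_one_iff_abs_lt_one, abs_div, abs_of_pos hb, div_lt_one hb]
    exact hτ
  set c := τ / b with hc
  set s := Real.sqrt (1 - c ^ 2) with hs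
  have hs0 : 0 < s := Real.sqrt_pos.2 (by linarith)
  have hs2 : s ^ 2 = 1 - c ^ 2 := Real.sq_sqrt (by linarith)
  have hmem : ∀ t : ℝ, t ^ 2 = 1 - c ^ 2 → (⟨c, t⟩ : ℂ) ∈ Submonoid.unitSphere ℂ := by
    intro t ht
    have h : Complex.normSq (⟨c, t⟩ : ℂ) = 1 := by
      rw [Complex.normSq_mk]; nlinarith
    have h' : ‖(⟨c, t⟩ : ℂ)‖ = 1 := by
      rw [Complex.norm_def, h, Real.sqrt_one]
    exact mem_sphere_zero_iff_norm.2 h'
  refine ⟨⟨⟨c, s⟩, hmem s hs2⟩, ⟨⟨c, -s⟩, hmem (-s) (by rw [neg_sq, hs2])⟩, ?_, ?_⟩
  · intro h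
    have := congrArg (fun z : Circle => (z : ℂ).im) h
    have h2 : s = -s := this
    linarith
  · ext z
    simp only [mem_ofPred_eq]
    have hz : (z : ℂ).re ^ 2 + (z : ℂ).im ^ 2 = 1 := by
      have := Circle.normSq_coe z
      rw [Complex.normSq_apply] at this
      nlinarith
    constructor
    · intro h
      have hre : (z : ℂ).re = c := by
        rw [hc, eq_div_iff hb']; linarith
      have him : ((z : ℂ).im - s) * ((z : ℂ).im + s) = 0 := by
        rw [hre] at hz; nlinarith
      rcases mul_eq_zero.1 him with h3 | h3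
      · left
        apply Circle.ext
        exact Complex.ext hre (by show (z : ℂ).im = s; linarith)
      · right
        apply Circle.ext
        exact Complex.ext hre (by show (z : ℂ).im = -s; linarith)
    · rintro (rfl | rfl)
      · show b * c = τ
        rw [hc]; field_simp
      · show b * c = τ
        rw [hc]; field_simp

/-- For `|τ| < b` the slice `{φ = τ}`, where `φ = b Re(z)`, is a `2 d`-sheeted covering of `S`. -/
theorem slice_covering {R : ClosedRiem 3} (e : Diffeomorph (𝓡 3) (𝓡 3) R.carrier M444 ∞)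
    {b : ℝ} (hb : 0 < b) {N : ClosedRiem 3} {p : N.carrier → R.carrier}
    (hp : IsRiemCover 3 p) {d : ℕ} (hd : ∀ x, (p ⁻¹' {x}).ncard = d) {τ : ℝ} (hτ : |τ| < b) :
    IsLocalHomeomorph
      (fun y : ((fun x => b * ((e (p x)).2 : ℂ).re) ⁻¹' {τ} : Set N.carrier) =>
        (e (p (y : N.carrier))).1) ∧
    ∀ s : S444,
      ((fun y : ((fun x => b * ((e (p x)).2 : ℂ).re) ⁻¹' {τ} : Set N.carrier) =>
        (e (p (y : N.carrier))).1) ⁻¹' {s}).ncard = 2 * d := by
  classical
  obtain ⟨z₁, z₂, hz, hD⟩ := circle_re_eq hb hτ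
  set F : N.carrier → M444 := fun x => e (p x) with hF
  have hFloc : IsLocalHomeomorph F :=
    e.toHomeomorph.isLocalHomeomorph.comp hp.isCovering.isLocalHomeomorph
  have hFcov : IsCoveringMap F := isLocalHomeomorph_iff_isCoveringMap.mp hFloc
  refine ⟨?_, ?_⟩
  · set T : Set M444 := (fun x : M444 => b * ((x.2 : Circle) : ℂ).re) ⁻¹' {τ} with hT
    have h1 : IsLocalHomeomorph (T.restrictPreimage F) :=
      (IsCoveringMapOn.isCoveringMap_restrictPreimage T
        (hFcov.isCoveringMapOn.mono (subset_univ _))).isLocalHomeomorph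
    have h2 : IsLocalHomeomorph (fun x : T => ((x : M444).1 : S444)) := by
      refine isLocalHomeomorph_fst_of_finite (X := S444) (C := Circle)
        (D := {z : Circle | b * (z : ℂ).re = τ}) (by rw [hD]; simp) ?_
      rfl
    exact h2.comp h1
  · intro s
    have hfF : ∀ m : M444, (F ⁻¹' {m}).ncard = d ∧ (F ⁻¹' {m}).Finite := by
      intro m
      have : F ⁻¹' {m} = p ⁻¹' {e.symm m} := by
        ext x
        simp only [mem_preimage, mem_singleton_iff, hF]
        constructor
        · rintro rfl
          simp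
        · intro h
          rw [h]; simp
      rw [this]
      exact ⟨hd _, hp.finite_fiber _⟩
    rw [← Set.ncard_image_of_injective _ Subtype.val_injective]
    have h3 : (Subtype.val '' ((fun y : ((fun x => b * ((e (p x)).2 : ℂ).re) ⁻¹' {τ} :
        Set N.carrier) => (e (p (y : N.carrier))).1) ⁻¹' {s}) : Set N.carrier) =
        F ⁻¹' {M444.mk s z₁} ∪ F ⁻¹' {M444.mk s z₂} := by
      ext x
      constructor
      · rintro ⟨y, hy, rfl⟩
        have h4 : ((F y).2 : Circle) ∈ {z : Circle | b * (z : ℂ).re = τ} := y.2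
        have h5 : (F y).1 = s := hy
        rw [hD] at h4
        rcases h4 with h4 | h4
        · left
          exact Prod.ext h5 h4
        · right
          exact Prod.ext h5 h4
      · intro hx
        have h4 : ((F x).2 : Circle) ∈ {z : Circle | b * (z : ℂ).re = τ} ∧ (F x).1 = s := by
          rw [hD]
          rcases hx with hx | hx
          · have hx' : F x = M444.mk s z₁ := hx
            rw [hx']
            exact ⟨Or.inl rfl, rfl⟩
          · have hx' : F x = M444.mk s z₂ := hx
            rw [hx']
            exact ⟨Or.inr rfl, rfl⟩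
        exact ⟨⟨x, h4.1⟩, h4.2, rfl⟩
    rw [h3, Set.ncard_union_eq ?_ (hfF _).2 (hfF _).2, (hfF _).1, (hfF _).1]
    · ring
    · rw [Set.disjoint_left]
      intro x hx1 hx2
      have h4 : M444.mk s z₁ = M444.mk s z₂ := Eq.trans (Eq.symm hx1) hx2
      exact hz (congrArg Prod.snd h4)

end SepFil
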