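import Pool.Agent.SepFil.Defs

/-!
# Transfer and the simplicial volume of finite coverings

(module TRANSFER of the blueprint)
-/

open Set Filter Topology
open scoped ENNReal NNReal

namespace SepFil

namespace Transfer

/-! ### The `ℓ¹` norm of a chain -/

section Norm

variable {S : Type*}

/-- the `ℓ¹` norm -/
noncomputable def nrm (c : S →₀ ℝ) : ℝ := c.sum fun _ a => |a|

theorem nrm_eq (c : S →₀ ℝ) {T : Finset S} (h : c.support ⊆ T) : nrm c = ∑ s ∈ T, |c s| :=
  Finsupp.sum_of_support_subset c h _ fun _ _ => abs_zero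

theorem nrm_nonneg (c : S →₀ ℝ) : 0 ≤ nrm c := Finset.sum_nonneg fun _ _ => abs_nonneg _

theorem nrm_add (c c' : S →₀ ℝ) : nrm (c + c') ≤ nrm c + nrm c' := by
  classical
  rw [nrm_eq (c + c') (T := c.support ∪ c'.support) Finsupp.support_add,
    nrm_eq c (T := c.support ∪ c'.support) Finset.subset_union_left,
    nrm_eq c' (T := c.support ∪ c'.support) Finset.subset_union_right, ← Finset.sum_add_distrib]
  exact Finset.sum_le_sum fun s _ => abs_add_le _ _

theorem nrm_zero : nrm (0 : S →₀ ℝ) = 0 := Finsupp.sum_zero_index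

theorem nrm_single (s : S) (a : ℝ) : nrm (Finsupp.single s a) = |a| :=
  Finsupp.sum_single_index abs_zero

theorem nrm_sum {ι : Type*} (T : Finset ι) (f : ι → S →₀ ℝ) :
    nrm (∑ i ∈ T, f i) ≤ ∑ i ∈ T, nrm (f i) := by
  classical
  induction T using Finset.induction_on with
  | empty => rw [Finset.sum_empty, Finset.sum_empty, nrm_zero]
  | insert i T hi ih =>
    rw [Finset.sum_insert hi, Finset.sum_insert hi]
    exact (nrm_add _ _).trans (by linarith)

theorem nrm_smul (r : ℝ) (c : S →₀ ℝ) : nrm (r • c) = |r| * nrm c := by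
  rw [nrm_eq (r • c) (T := c.support) Finsupp.support_smul, nrm, Finsupp.sum, Finset.mul_sum]
  refine Finset.sum_congr rfl fun s _ => ?_
  rw [Finsupp.smul_apply, smul_eq_mul, abs_mul]

/-- extension of scalars -/
noncomputable def toR : (S →₀ ℤ) →+ (S →₀ ℝ) := Finsupp.mapRange.addMonoidHom (Int.castAddHom ℝ)

theorem toR_single (s : S) (a : ℤ) : toR (Finsupp.single s a) = Finsupp.single s (a : ℝ) :=
  Finsupp.mapRange_single (hf := map_zero (Int.castAddHom ℝ))

theorem nrm_toR (c : S →₀ ℤ) : nrm (toR c) = c.sum fun _ a => |(a : ℝ)| :=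
  Finsupp.sum_mapRange_index (hf := map_zero (Int.castAddHom ℝ)) fun _ => abs_zero

end Norm

/-! ### Boundaries -/

section Bdry

variable {X Y : Type} [TopologicalSpace X] [TopologicalSpace Y]

theorem bdry_single (R : Type*) [CommRing R] (k : ℕ) (σ : SSimplex (k + 1) X) (a : R) :
    bdry R X k (Finsupp.single σ a) = ∑ i : Fin (k + 2),
      ((-1 : R) ^ (i : ℕ)) • Finsupp.single (σ.comp (faceMap k i)) a := by
  rw [bdry, Finsupp.lsum_single, LinearMap.sum_apply]
  rfl

theorem toR_bdry (k : ℕ) (c : SSimplex (k + 1) X →₀ ℤ) :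
    toR (bdry ℤ X k c) = bdry ℝ X k (toR c) := by
  induction c using Finsupp.induction_linear with
  | zero => rw [map_zero, map_zero, map_zero, map_zero]
  | add c c' h h' => rw [map_add, map_add, map_add, map_add, h, h']
  | single σ a =>
    rw [bdry_single, toR_single, bdry_single, map_sum]
    refine Finset.sum_congr rfl fun i _ => ?_
    rw [Finsupp.smul_single, Finsupp.smul_single, toR_single]
    congr 1
    rw [smul_eq_mul, smul_eq_mul]
    push_cast
    rfl

/-- the chain map of a continuous map -/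
noncomputable def push (f : C(Y, X)) (k : ℕ) : (SSimplex k Y →₀ ℤ) →ₗ[ℤ] (SSimplex k X →₀ ℤ) :=
  Finsupp.lmapDomain ℤ ℤ fun σ => f.comp σ

theorem push_single (f : C(Y, X)) (k : ℕ) (σ : SSimplex k Y) (a : ℤ) :
    push f k (Finsupp.single σ a) = Finsupp.single (f.comp σ) a := by
  rw [push, Finsupp.lmapDomain_apply, Finsupp.mapDomain_single]

theorem push_bdry (f : C(Y, X)) (k : ℕ) (c : SSimplex (k + 1) Y →₀ ℤ) :
    push f k (bdry ℤ Y k c) = bdry ℤ X k (push f (k + 1) c) := by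
  induction c using Finsupp.induction_linear with
  | zero => rw [map_zero, map_zero, map_zero, map_zero]
  | add c c' h h' => rw [map_add, map_add, map_add, map_add, h, h']
  | single σ a =>
    rw [bdry_single, push_single, bdry_single, map_sum]
    refine Finset.sum_congr rfl fun i _ => ?_
    rw [map_smul, push_single]
    rfl

end Bdry

/-! ### Lifts of simplices -/

section Lifts

variable {X Y : Type} [TopologicalSpace X] [TopologicalSpace Y] {p : Y → X}

theorem exists_unique_lift (hp : IsCoveringMap p) {n : ℕ} (σ : SSimplex n X)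
    (t : stdSimplex ℝ (Fin (n + 1))) (y : Y) (hy : p y = σ t) :
    ∃! σ' : SSimplex n Y, σ' t = y ∧ ∀ s, p (σ' s) = σ s := by
  have h1 : ContractibleSpace (stdSimplex ℝ (Fin (n + 1))) :=
    (convex_stdSimplex ℝ (Fin (n + 1))).contractibleSpace
      ⟨_, (stdSimplex.vertex (S := ℝ) (0 : Fin (n + 1))).2⟩
  have h2 : LocallyPathConnectedSpace (stdSimplex ℝ (Fin (n + 1))) :=
    (convex_stdSimplex ℝ (Fin (n + 1))).locallyPathConnectedSpace
  obtain ⟨F, ⟨hF, hF'⟩, hu⟩ := hp.existsUnique_continuousMap_lifts σ t y hy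
  refine ⟨F, ⟨hF, fun s => congrFun hF' s⟩, ?_⟩
  rintro G ⟨hG, hG'⟩
  exact hu G ⟨hG, funext hG'⟩

/-- the lifts of a simplex -/
def Lf (p : Y → X) {n : ℕ} (σ : SSimplex n X) : Set (SSimplex n Y) :=
  {σ' | ∀ s, p (σ' s) = σ s}

/-- evaluation at a point is a bijection from the lifts to the fibre -/
theorem bijOn_ev (hp : IsCoveringMap p) {n : ℕ} (σ : SSimplex n X)
    (t : stdSimplex ℝ (Fin (n + 1))) :
    BijOn (fun σ' : SSimplex n Y => σ' t) (Lf p σ) (p ⁻¹' {σ t}) := by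
  refine ⟨fun σ' h => h t, ?_, ?_⟩
  · intro σ' h σ'' h' he
    obtain ⟨_, _, hu⟩ := exists_unique_lift hp σ t (σ' t) (h t)
    rw [hu σ' ⟨rfl, h⟩, hu σ'' ⟨he.symm, h'⟩]
  · intro y hy
    obtain ⟨F, ⟨hF, hF'⟩, _⟩ := exists_unique_lift hp σ t y hy
    exact ⟨F, hF', hF⟩

theorem finite_Lf (hp : IsCoveringMap p) (hfin : ∀ x, (p ⁻¹' {x}).Finite) {n : ℕ}
    (σ : SSimplex n X) : (Lf p σ).Finite :=
  (bijOn_ev hp σ (stdSimplex.vertex 0)).finite_iff_finite.2 (hfin _)

/-- the lifts of a simplex, as a finite set -/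
noncomputable def lifts (hp : IsCoveringMap p) (hfin : ∀ x, (p ⁻¹' {x}).Finite) {n : ℕ}
    (σ : SSimplex n X) : Finset (SSimplex n Y) := (finite_Lf hp hfin σ).toFinset

variable (hp : IsCoveringMap p) (hfin : ∀ x, (p ⁻¹' {x}).Finite)

theorem mem_lifts {n : ℕ} {σ : SSimplex n X} {σ' : SSimplex n Y} :
    σ' ∈ lifts hp hfin σ ↔ ∀ s, p (σ' s) = σ s := Set.Finite.mem_toFinset _

theorem card_lifts {d : ℕ} (hd : ∀ x, (p ⁻¹' {x}).ncard = d) {n : ℕ} (σ : SSimplex n X) :
    (lifts hp hfin σ).card = d := by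
  rw [lifts, ← Set.ncard_eq_toFinset_card _ (finite_Lf hp hfin σ),
    ← hd (σ (stdSimplex.vertex 0)), ← (bijOn_ev hp σ (stdSimplex.vertex 0)).image_eq,
    (bijOn_ev hp σ (stdSimplex.vertex 0)).injOn.ncard_image]

theorem sum_lifts_face {M : Type*} [AddCommMonoid M] {k : ℕ} (σ : SSimplex (k + 1) X)
    (i : Fin (k + 2)) (F : SSimplex k Y → M) :
    ∑ σ' ∈ lifts hp hfin (σ.comp (faceMap k i)), F σ' =
      ∑ σ' ∈ lifts hp hfin σ, F (σ'.comp (faceMap k i)) := by
  symm
  refine Finset.sum_bij (fun σ' _ => σ'.comp (faceMap k i)) ?_ ?_ ?_ fun _ _ => rfl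
  · intro σ' h
    rw [mem_lifts] at h ⊢
    exact fun s => h _
  · intro σ' h σ'' h' he
    rw [mem_lifts] at h h'
    refine (bijOn_ev hp σ (faceMap k i (stdSimplex.vertex 0))).injOn h h' ?_
    exact DFunLike.congr_fun he (stdSimplex.vertex 0)
  · intro τ h
    rw [mem_lifts] at h
    obtain ⟨σ', ⟨h1, h2⟩, _⟩ := exists_unique_lift hp σ (faceMap k i (stdSimplex.vertex 0))
      (τ (stdSimplex.vertex 0)) (h _)
    refine ⟨σ', (mem_lifts hp hfin).2 h2, ?_⟩
    refine (bijOn_ev hp (σ.comp (faceMap k i)) (stdSimplex.vertex 0)).injOn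
      (fun s => h2 _) h ?_
    exact h1

/-- the transfer -/
noncomputable def tr (n : ℕ) : (SSimplex n X →₀ ℤ) →ₗ[ℤ] (SSimplex n Y →₀ ℤ) :=
  Finsupp.lsum ℤ fun σ => ∑ σ' ∈ lifts hp hfin σ, Finsupp.lsingle σ'

theorem tr_single (n : ℕ) (σ : SSimplex n X) (a : ℤ) :
    tr hp hfin n (Finsupp.single σ a) = ∑ σ' ∈ lifts hp hfin σ, Finsupp.single σ' a := by
  rw [tr, Finsupp.lsum_single, LinearMap.sum_apply]
  rfl

theorem tr_bdry (k : ℕ) (c : SSimplex (k + 1) X →₀ ℤ) :
    tr hp hfin k (bdry ℤ X k c) = bdry ℤ Y k (tr hp hfin (k + 1) c) := by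
  induction c using Finsupp.induction_linear with
  | zero => rw [map_zero, map_zero, map_zero, map_zero]
  | add c c' h h' => rw [map_add, map_add, map_add, map_add, h, h']
  | single σ a =>
    rw [bdry_single, tr_single, map_sum, map_sum]
    simp_rw [bdry_single, map_smul, tr_single, sum_lifts_face, Finset.smul_sum]
    exact Finset.sum_comm

theorem push_tr {d : ℕ} (hd : ∀ x, (p ⁻¹' {x}).ncard = d) (n : ℕ) (c : SSimplex n X →₀ ℤ) :
    push ⟨p, hp.continuous⟩ n (tr hp hfin n c) = (d : ℤ) • c := by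
  induction c using Finsupp.induction_linear with
  | zero => rw [map_zero, map_zero, smul_zero]
  | add c c' h h' => rw [map_add, map_add, smul_add, h, h']
  | single σ a =>
    rw [tr_single, map_sum]
    have h1 : ∀ σ' ∈ lifts hp hfin σ, push (⟨p, hp.continuous⟩ : C(Y, X)) n
        (Finsupp.single σ' a) = Finsupp.single σ a := by
      intro σ' h
      rw [mem_lifts] at h
      rw [push_single]
      congr 1
      exact ContinuousMap.ext h
    rw [Finset.sum_congr rfl h1, Finset.sum_const, card_lifts hp hfin hd, natCast_zsmul]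

theorem nrm_tr {d : ℕ} (hd : ∀ x, (p ⁻¹' {x}).ncard = d) (n : ℕ) (c : SSimplex n X →₀ ℤ) :
    nrm (toR (tr hp hfin n c)) ≤ d * c.sum fun _ a => |(a : ℝ)| := by
  have h1 : tr hp hfin n c = ∑ σ ∈ c.support, ∑ σ' ∈ lifts hp hfin σ, Finsupp.single σ' (c σ) := by
    conv_lhs => rw [← Finsupp.sum_single c, Finsupp.sum, map_sum]
    exact Finset.sum_congr rfl fun σ _ => tr_single hp hfin n σ _
  rw [h1, map_sum, Finsupp.sum, Finset.mul_sum]
  refine (nrm_sum _ _).trans (Finset.sum_le_sum fun σ _ => ?_)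
  rw [map_sum]
  refine (nrm_sum _ _).trans ?_
  simp_rw [toR_single, nrm_single]
  rw [Finset.sum_const, card_lifts hp hfin hd, nsmul_eq_mul]

end Lifts

end Transfer

open Transfer

/-- If `X` carries an integral `(k+1)`-cycle `z` of infinite order in homology then the
simplicial volume of a `d`-sheeted covering `Y` of `X` is at most `d ‖z‖₁`. -/
theorem simplicialVolume_le {X Y : Type} [TopologicalSpace X] [TopologicalSpace Y]
    {p : Y → X} (hp : IsCoveringMap p) (hfin : ∀ x, (p ⁻¹' {x}).Finite) {d : ℕ} (hd0 : 0 < d)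
    (hd : ∀ x, (p ⁻¹' {x}).ncard = d) (k : ℕ) (z : SSimplex (k + 1) X →₀ ℤ)
    (hz : IsCycle ℤ X (k + 1) z)
    (hnt : ∀ m : ℤ, m ≠ 0 → ¬ ∃ b : SSimplex (k + 2) X →₀ ℤ, m • z = bdry ℤ X (k + 1) b) :
    simplicialVolume (k + 1) Y ≤ d * z.sum fun _ a => |(a : ℝ)| := by
  have hbdd : BddBelow {r : ℝ | ∃ c : SSimplex (k + 1) Y →₀ ℝ, RepresentsFund (k + 1) Y c ∧
      r = c.sum fun _ a => |a|} := by
    refine ⟨0, ?_⟩
    rintro r ⟨c, _, rfl⟩
    exact nrm_nonneg c
  have hrhs : 0 ≤ d * z.sum fun _ a => |(a : ℝ)| :=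
    (nrm_nonneg _).trans (nrm_tr hp hfin hd (k + 1) z)
  by_cases hne : ∃ z' : SSimplex (k + 1) Y →₀ ℤ, IsFundCycle (k + 1) Y z'
  · obtain ⟨z', hz'⟩ := hne
    have htc : IsCycle ℤ Y (k + 1) (tr hp hfin (k + 1) z) := by
      change bdry ℤ Y k (tr hp hfin (k + 1) z) = 0
      rw [← tr_bdry]
      have h1 : bdry ℤ X k z = 0 := hz
      rw [h1, map_zero]
    obtain ⟨m, b, hb⟩ := hz'.2 _ htc
    have hm : m ≠ 0 := by
      rintro rfl
      rw [zero_smul, sub_zero] at hb
      refine hnt d (by exact_mod_cast hd0.ne') ⟨push ⟨p, hp.continuous⟩ (k + 2) b, ?_⟩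
      rw [← push_tr hp hfin hd, hb, push_bdry]
    have hm' : (m : ℝ) ≠ 0 := by exact_mod_cast hm
    have hrep : RepresentsFund (k + 1) Y ((m : ℝ)⁻¹ • toR (tr hp hfin (k + 1) z)) := by
      refine ⟨z', hz', (m : ℝ)⁻¹ • toR b, ?_⟩
      rw [map_smul, ← toR_bdry, ← hb, map_sub, smul_sub]
      congr 1
      rw [map_zsmul, ← Int.cast_smul_eq_zsmul ℝ, smul_smul, inv_mul_cancel₀ hm', one_smul]
      rfl
    refine (csInf_le hbdd ⟨_, hrep, rfl⟩).trans ?_
    change nrm ((m : ℝ)⁻¹ • toR (tr hp hfin (k + 1) z)) ≤ _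
    rw [nrm_smul]
    have h1 : |(m : ℝ)⁻¹| ≤ 1 := by
      rw [abs_inv]
      refine inv_le_one_of_one_le₀ ?_
      exact_mod_cast Int.one_le_abs hm
    calc |(m : ℝ)⁻¹| * nrm (toR (tr hp hfin (k + 1) z))
        ≤ 1 * nrm (toR (tr hp hfin (k + 1) z)) :=
          mul_le_mul_of_nonneg_right h1 (nrm_nonneg _)
      _ = nrm (toR (tr hp hfin (k + 1) z)) := one_mul _
      _ ≤ _ := nrm_tr hp hfin hd (k + 1) z
  · have hem : {r : ℝ | ∃ c : SSimplex (k + 1) Y →₀ ℝ, RepresentsFund (k + 1) Y c ∧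
        r = c.sum fun _ a => |a|} = ∅ := by
      rw [Set.eq_empty_iff_forall_notMem]
      rintro r ⟨c, ⟨z', hz', _⟩, _⟩
      exact hne ⟨z', hz'⟩
    rw [simplicialVolume, hem, Real.sInf_empty]
    exact hrhs

end SepFil
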