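import Pool.Agent.SepFil.Complex
import Pool.Agent.SepFil.Derived

/-!
# Combinatorial closed surfaces: definitions and duality

(module DUAL of the blueprint)
-/

open Set Filter Topology
open scoped ENNReal

namespace SepFil

section

variable {V : Type*} [Fintype V] [DecidableEq V]

/-- Closed combinatorial surfaces. The last condition says that the link of every vertex is a
connected cycle: a function on the edges at `v` with zero total sum is the difference function
of a function on the triangles at `v`. -/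
structure IsSurf (K : ASC V) : Prop where
  card_le : ∀ s ∈ K.faces, s.card ≤ 3
  pure : ∀ s ∈ K.faces, ∃ t ∈ K.fk 3, s ⊆ t
  two : ∀ e ∈ K.fk 2, ((K.fk 3).filter (fun t => e ⊆ t)).card = 2
  link : ∀ v : V, {v} ∈ K.faces → ∀ ψ : Finset V → ZMod 2,
    ∑ e ∈ (K.fk 2).filter (fun e => v ∈ e), ψ e = 0 →
    ∃ f : Finset V → ZMod 2, ∀ e ∈ K.fk 2, v ∈ e → ∀ t ∈ K.fk 3, ∀ t' ∈ K.fk 3,
      e ⊆ t → e ⊆ t' → t ≠ t' → f t + f t' = ψ e

/-- `c` is a 1-cocycle mod 2 (a function on the edges). -/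
def IsCocyc (K : ASC V) (c : Finset V → ZMod 2) : Prop :=
  ∀ t ∈ K.fk 3, ∑ e ∈ (K.fk 2).filter (fun e => e ⊆ t), c e = 0

/-- the edges of a triangle are the complements of its vertices -/
lemma surf_sum_edges {K : ASC V} {t : Finset V} (ht : t ∈ K.fk 3) (c : Finset V → ZMod 2) :
    ∑ e ∈ (K.fk 2).filter (fun e => e ⊆ t), c e = ∑ v ∈ t, c (t.erase v) := by
  rw [ASC.mem_fk] at ht
  symm
  apply Finset.sum_bij (fun v _ => t.erase v)
  · intro v hv
    rw [Finset.mem_filter, ASC.mem_fk]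
    have hc : (t.erase v).card = 2 := by rw [Finset.card_erase_of_mem hv, ht.2]
    refine ⟨⟨K.down_closed t ht.1 _ (Finset.erase_subset _ _) ?_, hc⟩, Finset.erase_subset _ _⟩
    apply Finset.card_pos.mp
    omega
  · intro v hv w hw h
    by_contra hne
    have : w ∈ t.erase v := Finset.mem_erase.mpr ⟨fun h => hne h.symm, hw⟩
    rw [h] at this
    exact (Finset.notMem_erase w t) this
  · intro e he
    rw [Finset.mem_filter, ASC.mem_fk] at he
    obtain ⟨⟨_, hc⟩, hsub⟩ := he
    have h1 : (t \ e).card = 1 := by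
      rw [Finset.card_sdiff_of_subset hsub, ht.2, hc]
    obtain ⟨v, hv⟩ := Finset.card_eq_one.mp h1
    have hvt : v ∈ t \ e := by rw [hv]; exact Finset.mem_singleton_self v
    refine ⟨v, (Finset.mem_sdiff.mp hvt).1, ?_⟩
    rw [Finset.erase_eq, ← hv, Finset.sdiff_sdiff_eq_self hsub]
  · intro v _
    rfl

/-- coboundaries are cocycles -/
lemma surf_cobound_cocyc {K : ASC V} (f : V → Finset V → ZMod 2) {t : Finset V}
    (ht : t ∈ K.fk 3) :
    ∑ e ∈ (K.fk 2).filter (fun e => e ⊆ t), ∑ v ∈ e, f v t = 0 := by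
  rw [surf_sum_edges ht (fun e => ∑ v ∈ e, f v t)]
  have hc : t.card = 3 := ((ASC.mem_fk).mp ht).2
  have h : ∀ v ∈ t, ∑ w ∈ t.erase v, f w t = (∑ w ∈ t, f w t) + f v t := by
    intro v hv
    rw [← Finset.sum_erase_add _ _ hv, add_assoc, CharTwo.add_self_eq_zero, add_zero]
  rw [Finset.sum_congr rfl h, Finset.sum_add_distrib, Finset.sum_const, hc]
  generalize ∑ w ∈ t, f w t = S
  revert S
  decide

/-- An edge is contained in exactly two triangles. -/
lemma surf_two {K : ASC V} (hK : IsSurf K) {e : Finset V} (he : e ∈ K.fk 2) :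
    ∃ t t' : Finset V, t ≠ t' ∧ t ∈ K.fk 3 ∧ t' ∈ K.fk 3 ∧ e ⊆ t ∧ e ⊆ t' ∧
      (K.fk 3).filter (fun t => e ⊆ t) = {t, t'} := by
  obtain ⟨t, t', hne, h⟩ := Finset.card_eq_two.mp (hK.two e he)
  have h1 : t ∈ (K.fk 3).filter (fun t => e ⊆ t) := by rw [h]; simp
  have h2 : t' ∈ (K.fk 3).filter (fun t => e ⊆ t) := by rw [h]; simp
  rw [Finset.mem_filter] at h1 h2
  exact ⟨t, t', hne, h1.1, h2.1, h1.2, h2.2, h⟩

/-- The heart of the duality: a cocycle vanishing on the triangles outside `U` is orthogonal to the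
cycles of edges. -/
lemma surf_orth {K : ASC V} (hK : IsSurf K) {c : Finset V → ZMod 2}
    (hc : IsCocyc K c) (U : Set (Finset V))
    (h1 : ∀ t ∈ K.fk 3, t ∉ U → ∀ e ∈ K.fk 2, e ⊆ t → c e = 0)
    (h2 : ∀ a : Finset V → ZMod 2, IsCocyc K a →
      ∃ g : V → ZMod 2, ∀ t ∈ K.fk 3, t ∈ U → ∀ e ∈ K.fk 2, e ⊆ t → a e = ∑ v ∈ e, g v)
    (ψ : Finset V → ZMod 2)
    (hψ : ∀ v : V, ∑ e ∈ (K.fk 2).filter (fun e => v ∈ e), ψ e = 0) :
    ∑ e ∈ K.fk 2, c e * ψ e = 0 := by
  classical
  -- the functions on the links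
  have hF : ∀ v : V, ∃ f : Finset V → ZMod 2, ∀ e ∈ K.fk 2, v ∈ e → ∀ t ∈ K.fk 3, ∀ t' ∈ K.fk 3,
      e ⊆ t → e ⊆ t' → t ≠ t' → f t + f t' = ψ e := by
    intro v
    by_cases hv : {v} ∈ K.faces
    · exact hK.link v hv ψ (hψ v)
    · refine ⟨0, fun e he hve => ?_⟩
      exfalso
      apply hv
      exact K.down_closed e ((ASC.mem_fk).mp he).1 {v} (Finset.singleton_subset_iff.mpr hve)
        (Finset.singleton_nonempty v)
  choose F hF using hF
  -- the cocycle `a`
  have hT : ∀ e : Finset V, ∃ T : Finset V, e ∈ K.fk 2 → T ∈ K.fk 3 ∧ e ⊆ T := by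
    intro e
    by_cases he : e ∈ K.fk 2
    · obtain ⟨t, _, _, ht, _, het, _, _⟩ := surf_two hK he
      exact ⟨t, fun _ => ⟨ht, het⟩⟩
    · exact ⟨∅, fun h => absurd h he⟩
  choose T0 hT0 using hT
  let a : Finset V → ZMod 2 := fun e => ∑ v ∈ e, F v (T0 e)
  have ha : ∀ e ∈ K.fk 2, ∀ t ∈ K.fk 3, e ⊆ t → a e = ∑ v ∈ e, F v t := by
    intro e he t ht het
    obtain ⟨h3, h4⟩ := hT0 e he
    by_cases hte : T0 e = t
    · simp only [a, hte]
    · have h5 : ∀ v ∈ e, F v (T0 e) = ψ e + F v t := by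
        intro v hv
        rw [← hF v e he hv (T0 e) h3 t ht h4 het hte, add_assoc, CharTwo.add_self_eq_zero, add_zero]
      simp only [a]
      rw [Finset.sum_congr rfl h5, Finset.sum_add_distrib, Finset.sum_const, ((ASC.mem_fk).mp he).2]
      generalize ψ e = x
      have : (2 : ℕ) • x = 0 := by
        revert x
        decide
      rw [this, zero_add]
  have hacoc : IsCocyc K a := by
    intro t ht
    rw [← surf_cobound_cocyc F ht]
    apply Finset.sum_congr rfl
    intro e he
    rw [Finset.mem_filter] at he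
    exact ha e he.1 t ht he.2
  obtain ⟨g, hg⟩ := h2 a hacoc
  -- the potential on the triangles of `U`
  have hΦ : ∀ t : Finset V, ∃ x : ZMod 2, t ∈ K.fk 3 → t ∈ U → ∀ v ∈ t, F v t + g v = x := by
    intro t
    by_cases ht : t ∈ K.fk 3 ∧ t ∈ U
    · have hne : t.Nonempty := K.nonempty_of_mem t ((ASC.mem_fk).mp ht.1).1
      obtain ⟨w, hw⟩ := hne
      refine ⟨F w t + g w, fun _ _ v hv => ?_⟩
      by_cases hvw : v = w
      · rw [hvw]
      · have hsub : ({v, w} : Finset V) ⊆ t := by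
          intro z hz
          rw [Finset.mem_insert, Finset.mem_singleton] at hz
          rcases hz with h | h
          · rw [h]; exact hv
          · rw [h]; exact hw
        have he : ({v, w} : Finset V) ∈ K.fk 2 := by
          rw [ASC.mem_fk]
          exact ⟨K.down_closed t ((ASC.mem_fk).mp ht.1).1 _ hsub ⟨v, by simp⟩,
            Finset.card_pair hvw⟩
        have h6 := ha _ he t ht.1 hsub
        have h7 := hg t ht.1 ht.2 _ he hsub
        rw [h7, Finset.sum_pair hvw, Finset.sum_pair hvw] at h6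
        have h8 : ∀ x y z w : ZMod 2, x + y = z + w → z + x = w + y := by decide
        exact h8 _ _ _ _ h6
    · exact ⟨0, fun h h' => absurd ⟨h, h'⟩ ht⟩
  choose Φ hΦ using hΦ
  -- the sum over the edges
  have hedge : ∀ e ∈ K.fk 2, c e * ψ e =
      ∑ t ∈ (K.fk 3).filter (fun t => e ⊆ t), c e * Φ t := by
    intro e he
    obtain ⟨t, t', hne, ht, ht', het, het', hft⟩ := surf_two hK he
    rw [hft, Finset.sum_pair hne]
    by_cases hU : t ∈ U
    · by_cases hU' : t' ∈ U
      · obtain ⟨v, hv⟩ := K.nonempty_of_mem e ((ASC.mem_fk).mp he).1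
        have h3 := hF v e he hv t ht t' ht' het het' hne
        have h4 := hΦ t ht hU v (het hv)
        have h5 := hΦ t' ht' hU' v (het' hv)
        rw [← mul_add]
        congr 1
        rw [← h3, ← h4, ← h5]
        have h8 : ∀ x y z : ZMod 2, x + y = x + z + (y + z) := by decide
        exact h8 _ _ _
      · rw [h1 t' ht' hU' e he het']
        simp
    · rw [h1 t ht hU e he het]
      simp
  rw [Finset.sum_congr rfl hedge]
  simp_rw [Finset.sum_filter]
  rw [Finset.sum_comm]
  apply Finset.sum_eq_zero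
  intro t ht
  rw [← Finset.sum_filter, ← Finset.sum_mul, hc t ht, zero_mul]

/-- Combinatorial Poincare duality, in the form of a Lusternik-Schnirelmann statement: if every
cocycle is a coboundary on the triangles in `U` and `c` is a coboundary on the other triangles
then `c` is a coboundary. -/
theorem isCobound_of_cover {K : ASC V} (hK : IsSurf K) {c : Finset V → ZMod 2}
    (hc : IsCocyc K c) (U : Set (Finset V))
    (h1 : ∃ f : V → ZMod 2, ∀ t ∈ K.fk 3, t ∉ U → ∀ e ∈ K.fk 2, e ⊆ t → c e = ∑ v ∈ e, f v)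
    (h2 : ∀ a : Finset V → ZMod 2, IsCocyc K a →
      ∃ g : V → ZMod 2, ∀ t ∈ K.fk 3, t ∈ U → ∀ e ∈ K.fk 2, e ⊆ t → a e = ∑ v ∈ e, g v) :
    ∃ f : V → ZMod 2, ∀ e ∈ K.fk 2, c e = ∑ v ∈ e, f v := by
  classical
  obtain ⟨f1, hf1⟩ := h1
  let c' : Finset V → ZMod 2 := fun e => if e ∈ K.fk 2 then c e + ∑ v ∈ e, f1 v else 0
  have hc' : IsCocyc K c' := by
    intro t ht
    have h3 : ∀ e ∈ (K.fk 2).filter (fun e => e ⊆ t), c' e = c e + ∑ v ∈ e, f1 v := by
      intro e he
      simp only [c']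
      rw [if_pos (Finset.mem_filter.mp he).1]
    rw [Finset.sum_congr rfl h3, Finset.sum_add_distrib, hc t ht,
      surf_cobound_cocyc (fun v _ => f1 v) ht, add_zero]
  have hc'0 : ∀ t ∈ K.fk 3, t ∉ U → ∀ e ∈ K.fk 2, e ⊆ t → c' e = 0 := by
    intro t ht hU e he het
    simp only [c']
    rw [if_pos he, hf1 t ht hU e he het, CharTwo.add_self_eq_zero]
  -- the coboundary map
  let δ : (V → ZMod 2) →ₗ[ZMod 2] (Finset V → ZMod 2) :=
    { toFun := fun f e => if e ∈ K.fk 2 then ∑ v ∈ e, f v else 0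
      map_add' := by
        intro f g
        funext e
        rw [Pi.add_apply]
        split_ifs
        · simp [Finset.sum_add_distrib]
        · simp
      map_smul' := by
        intro r f
        funext e
        rw [Pi.smul_apply, RingHom.id_apply]
        split_ifs
        · simp [Finset.mul_sum]
        · simp }
  have hmem : c' ∈ LinearMap.range δ := by
    rw [← Subspace.forall_mem_dualAnnihilator_apply_eq_zero_iff]
    intro φ hφ
    rw [Submodule.mem_dualAnnihilator] at hφ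
    have hφs : ∀ x : Finset V → ZMod 2, φ x = ∑ e, x e * φ (Pi.single e 1) := by
      intro x
      conv_lhs => rw [← Finset.univ_sum_single x]
      rw [map_sum]
      apply Finset.sum_congr rfl
      intro e _
      have : (Pi.single e (x e) : Finset V → ZMod 2) = x e • Pi.single e 1 := by
        rw [← Pi.single_smul]
        simp
      rw [this, map_smul, smul_eq_mul]
    have hψ : ∀ v : V, ∑ e ∈ (K.fk 2).filter (fun e => v ∈ e), φ (Pi.single e 1) = 0 := by
      intro v
      have h3 := hφ (δ (Pi.single v 1)) ⟨_, rfl⟩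
      rw [hφs] at h3
      rw [← h3, Finset.sum_filter, ← Finset.sum_subset (Finset.subset_univ (K.fk 2))]
      · apply Finset.sum_congr rfl
        intro e he
        have h4 : δ (Pi.single v 1) e = if v ∈ e then 1 else 0 := by
          change (if e ∈ K.fk 2 then ∑ w ∈ e, (Pi.single v 1 : V → ZMod 2) w else 0) = _
          rw [if_pos he]
          simp [Pi.single_apply]
        rw [h4]
        split_ifs <;> simp
      · intro e _ he
        have h4 : δ (Pi.single v 1) e = 0 := by
          change (if e ∈ K.fk 2 then ∑ w ∈ e, (Pi.single v 1 : V → ZMod 2) w else 0) = _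
          rw [if_neg he]
        rw [h4, zero_mul]
    have h5 := surf_orth hK hc' U hc'0 h2 (fun e => φ (Pi.single e 1)) hψ
    rw [hφs, ← h5, ← Finset.sum_subset (Finset.subset_univ (K.fk 2))]
    intro e _ he
    simp only [c']
    rw [if_neg he, zero_mul]
  obtain ⟨f2, hf2⟩ := hmem
  refine ⟨fun v => f1 v + f2 v, fun e he => ?_⟩
  have h3 := congrFun hf2 e
  have h4 : δ f2 e = ∑ v ∈ e, f2 v := by
    change (if e ∈ K.fk 2 then ∑ w ∈ e, f2 w else 0) = _
    rw [if_pos he]
  rw [h4] at h3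
  simp only [c'] at h3
  rw [if_pos he] at h3
  rw [Finset.sum_add_distrib, h3]
  have h8 : ∀ x y : ZMod 2, x = y + (x + y) := by decide
  exact h8 _ _

/-- minus the Euler characteristic. -/
noncomputable def negEuler (K : ASC V) : ℤ :=
  ((K.fk 2).card : ℤ) - (K.fk 1).card - (K.fk 3).card

end

/-- `K'` is an `m`-sheeted covering of `K` through the vertex map `q`. -/
structure IsCoverCpx {V' V : Type*} [DecidableEq V] (m : ℕ) (q : V' → V) (K' : ASC V')
    (K : ASC V) : Prop where
  injOn : ∀ s ∈ K'.faces, InjOn q s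
  image_mem : ∀ s ∈ K'.faces, s.image q ∈ K.faces
  lift : ∀ v : V', {v} ∈ K'.faces → ∀ s ∈ K.faces, q v ∈ s →
    ∃! s' : Finset V', s' ∈ K'.faces ∧ v ∈ s' ∧ s'.image q = s
  sheets : ∀ v : V, {v} ∈ K.faces → {v' : V' | {v'} ∈ K'.faces ∧ q v' = v}.ncard = m

end SepFil
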